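import Mathlib
import Pool.Agent.Lib.MP_0016c7_nt.Rz.Defs
import Pool.Agent.Lib.MP_0016c7_nt.Rz.DefsC
import Pool.Agent.Lib.MP_0016c7_nt.Rz.DefsE
import Pool.Agent.Lib.MP_0016c7_nt.Rz.DefsF

set_option autoImplicit false

/-!
Definitions for the families of fundamental discriminants `4 σ d` and `σ d`.
-/

open Finset MeasureTheory Filter Topology
open scoped Real ContDiff

namespace Pool.Agent.MP0016c7.Rz

/-- The families of discriminants `κ σ d` with `σ d ≡ c` modulo `m`; `ε` is the value at `2`. -/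
def Fam (m c ε : ℤ) (κ : ℕ) : Prop :=
  (m = 4 ∧ c = 3 ∧ ε = 0 ∧ κ = 4) ∨ (m = 8 ∧ c = 1 ∧ ε = 1 ∧ κ = 1) ∨
    (m = 8 ∧ c = 5 ∧ ε = -1 ∧ κ = 1)

/-- The residue class of a family; perfect squares `σ d` are excluded. -/
def Rf (m c σ : ℤ) (d : ℕ) : Prop := (σ * d) % m = c ∧ ¬ IsSquare (σ * (d : ℤ))

open Classical in
/-- The normalised sum of `(σ d / N)` over the residue class. -/
noncomputable def PR (F : ℝ → ℝ) (m c σ : ℤ) (Y : ℝ) (N : ℕ) : ℝ :=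
  m / Y * ∑' d : ℕ, if Rf m c σ d then F (d / Y) * jr (σ * d) N else 0

/-- The mollified theta process of the discriminant `κ σ d` with `χ(2) = ε`. -/
noncomputable def yS (a : ℝ) (ε σ : ℤ) (ρ h : ℝ → ℝ) (X : ℝ) (d : ℕ) (Y : ℝ) : ℝ :=
  (1 - ε / √2) * ∑' j : ℕ, (ε : ℝ) ^ j / √2 ^ j *
    ytil a σ ρ h X (2 * d) (Y - j * Real.log 2 / Real.log X)

/-- The sum over the squares without signs. -/
noncomputable def AR (F : ℝ → ℝ) (σ : ℤ) (Y : ℝ) (N : ℕ) : ℝ :=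
  ∑' j : ℕ, gg ((j : ℤ) ^ 2) N * Ft F σ ((j : ℝ) ^ 2 * Y / (2 * N))

/-- Superposition of the main terms. -/
noncomputable def AA (F : ℝ → ℝ) (σ : ℤ) (Y : ℝ) (N : ℕ) : ℝ :=
  ∑' i : ℕ, (1 / 2 : ℝ) ^ (i + 1) * MM F σ (Y / 4 ^ (i + 1)) N

/-- The main term of a family. -/
noncomputable def MG (F : ℝ → ℝ) (σ ε : ℤ) (Y : ℝ) (N : ℕ) : ℝ :=
  if ε = 0 then MM F σ (Y / 2) N
  else √2 * ε * (AA F σ (Y / 4) N - AA F σ Y N) + AA F σ (Y / 2) N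

/-- Superposition of the cut-off functions. -/
noncomputable def SB (F : ℝ → ℝ) (σ : ℤ) (y : ℝ) : ℝ :=
  ∑' i : ℕ, (1 / 2 : ℝ) ^ (i + 1) * BB F σ (y / 4 ^ (i + 1))

/-- The cut-off function of a family. -/
noncomputable def BG (F : ℝ → ℝ) (σ ε : ℤ) (y : ℝ) : ℝ :=
  if ε = 0 then BB F σ (y / 2) else √2 * ε * (SB F σ (y / 4) - SB F σ y) + SB F σ (y / 2)

/-- The Mellin transform of the cut-off function of a family. -/
noncomputable def bG (F : ℝ → ℝ) (σ ε : ℤ) (z : ℂ) : ℂ :=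
  bb F σ z * (if ε = 0 then (2 : ℂ) ^ z
    else ((4 : ℂ) ^ z / 2) / (1 - (4 : ℂ) ^ z / 2) * ((√2 : ℂ) * ε * ((4 : ℂ) ^ z - 1) + (2 : ℂ) ^ z))

/-- Admissible Mellin kernels `β` with cut-off function `B`. -/
structure BC (β : ℂ → ℂ) (B : ℝ → ℝ) : Prop where
  bd : ∀ A : ℝ, ∃ C : ℝ, 0 < C ∧ ∀ z : ℂ, |z.re| ≤ 1 / 8 →
    ‖β z‖ * (1 + ‖z‖) ^ A ≤ C ∧ ‖β z - 1‖ ≤ C * ‖z‖
  ct : ∀ c : ℝ, |c| ≤ 1 / 8 → Continuous (fun t : ℝ => β (c + Complex.I * t))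
  inv : ∀ c : ℝ, 0 < c → c ≤ 1 / 8 → ∀ y : ℝ, 0 < y →
    (B y : ℂ) = 1 / (2 * π) * ∫ t : ℝ, β (c + Complex.I * t) *
      (y : ℂ) ^ (-(c + Complex.I * t : ℂ)) / (c + Complex.I * t)

/-- `M` has the Mellin representation with the kernel `β` at the height `Y`. -/
def MRep (β : ℂ → ℂ) (I₀ Y : ℝ) (M : ℕ → ℝ) : Prop :=
  ∀ N : ℕ, Odd N → ∀ c : ℝ, 0 < c → c ≤ 1 / 8 →
    (M N : ℂ) = (I₀ : ℂ) * (bz 0 N - 1 / 2 * (1 / (2 * π)) * ∫ t : ℝ,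
      β (c + Complex.I * t) * (((Y / 2 : ℝ)) : ℂ) ^ (-(c + Complex.I * t : ℂ)) *
        bz (c + Complex.I * t) N / (c + Complex.I * t))

/-- The Dirichlet series of the main term with the kernel `β`. -/
noncomputable def QXg (β : ℂ → ℂ) (r : ℕ) (X : ℝ) (s₁ w₁ s₂ w₂ : ℂ) : ℂ :=
  OO r (s₁ / Real.log X) (w₁ / Real.log X) (s₂ / Real.log X) (w₂ / Real.log X) 0 -
  1 / 2 * (1 / (2 * π)) * ∫ ζ : ℝ, β (1 / Real.log X + Complex.I * ζ) *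
    (((X / (2 * r ^ 2) : ℝ)) : ℂ) ^ (-(1 / Real.log X + Complex.I * ζ : ℂ)) *
    OO r (s₁ / Real.log X) (w₁ / Real.log X) (s₂ / Real.log X) (w₂ / Real.log X)
      (1 / Real.log X + Complex.I * ζ) / (1 / Real.log X + Complex.I * ζ)

/-- The main term of the second moment with a general main function `M`. -/
noncomputable def MTg (a : ℝ) (ρ₁ ρ₂ h : ℝ → ℝ) (M : ℕ → ℝ) (X : ℝ) (r : ℕ) (Y₁ Y₂ : ℝ) : ℝ :=
  ∑' q : (ℕ × ℕ) × (ℕ × ℕ),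
    if Nat.Coprime (q.1.1 * q.1.2 * q.2.1 * q.2.2) (2 * r) then
      (ArithmeticFunction.moebius q.1.2 : ℝ) * (ArithmeticFunction.moebius q.2.2 : ℝ) *
        kL a ρ₁ h (Real.log X) (Y₁ - Real.log q.1.1 / Real.log X) (Real.log q.1.2 / Real.log X) *
        kL a ρ₂ h (Real.log X) (Y₂ - Real.log q.2.1 / Real.log X) (Real.log q.2.2 / Real.log X) /
        √((q.1.1 * q.1.2 * q.2.1 * q.2.2 : ℕ) : ℝ) *
        M (q.1.1 * q.1.2 * q.2.1 * q.2.2)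
    else 0

/-- The function `1, -1, 0` on the classes `1`, `5`, other, modulo `8`. -/
noncomputable def t8 (m : ℤ) : ℝ := if m % 8 = 1 then 1 else if m % 8 = 5 then -1 else 0

/-- The nonprincipal character modulo `4`, minus the indicator of `2` modulo `4`. -/
noncomputable def t4 (m k : ℤ) : ℝ :=
  if (m * k) % 4 = 1 then 1 else if (m * k) % 4 = 3 then -1 else if k % 4 = 2 then -1 else 0

/-- No zero on `(0, 1)` for the primitive quadratic characters modulo `κ d`. -/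
def NoZeroG (κ d : ℕ) : Prop :=
  ∀ (_ : NeZero (κ * d)) (χ : DirichletCharacter ℂ (κ * d)), χ.IsPrimitive → χ ^ 2 = 1 →
    ∀ s : ℝ, 0 < s → s < 1 → χ.LFunction s ≠ 0

end Pool.Agent.MP0016c7.Rz
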