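import Mathlib
import Pool.Agent.Lib.MP_0016c7_nt.Rz.Defs
import Pool.Agent.Lib.MP_0016c7_nt.Rz.DefsC

set_option autoImplicit false

/-!
Definitions for the error term with mollifiers of length `θ < 1/2`.
-/

open Finset MeasureTheory Filter Topology
open scoped Real ContDiff

namespace Pool.Agent.MP0016c7.Rz

/-- Smooth cut-off: `1` for `v ≤ 1`, `0` for `v ≥ 2`. -/
noncomputable def om (v : ℝ) : ℝ := 1 - Real.smoothTransition (v - 1)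

/-- Dyadic piece of the cut-off, supported in `(1/2, 2)`. -/
noncomputable def Vz (v : ℝ) : ℝ := om v - om (2 * v)

/-- Smooth sum of the character `jr k` near the critical line, over `n` coprime to `q`. -/
noncomputable def SA (k : ℤ) (s : ℂ) (x : ℝ) (q : ℕ) : ℂ :=
  ∑ n ∈ (Icc 1 ⌊2 * x⌋₊).filter (fun n => Nat.Coprime n q),
    (jr k n : ℂ) * (n : ℂ) ^ (-(1 / 2 : ℂ) - s) * (om (n / x) : ℂ)

/-- The character value `jr k₀ (R / D)` if `D ∣ R`, and `0` otherwise. -/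
noncomputable def EDv (k₀ : ℤ) (D R : ℕ) : ℝ := if D ∣ R then jr k₀ (R / D) else 0

/-- One variable after the splitting of the divisor. -/
noncomputable def SS (k₀ : ℤ) (a : ℕ → ℂ) (M δ q : ℕ) : ℂ :=
  ∑ n ∈ (Icc 1 (M / δ)).filter (fun n => Nat.Coprime n q), a (δ * n) * (jr k₀ n : ℂ)

/-- The quadruple sum for a fixed dual variable `k`. -/
noncomputable def T4 (k : ℤ) (Z M : ℕ) (a₁ a₂ a₃ a₄ : ℕ → ℂ) : ℂ :=
  ∑ l₁ ∈ Icc 1 Z, ∑ l₂ ∈ Icc 1 Z, ∑ n₁ ∈ Icc 1 M, ∑ n₂ ∈ Icc 1 M,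
    a₁ l₁ * a₂ l₂ * a₃ n₁ * a₄ n₂ *
      ((√((l₁ * l₂ * n₁ * n₂ : ℕ) : ℝ) * gg k (l₁ * l₂ * n₁ * n₂) : ℝ) : ℂ)

/-- The coefficients of the variables `n`. -/
noncomputable def an (r : ℕ) (s : ℂ) (x : ℝ) (n : ℕ) : ℂ :=
  if Nat.Coprime n (2 * r) then (n : ℂ) ^ (-(1 / 2 : ℂ) - s) * (om (n / x) : ℂ) else 0

/-- The coefficients of the variables `l`. -/
noncomputable def al (r : ℕ) (w : ℂ) (l : ℕ) : ℂ :=
  if Nat.Coprime l (2 * r) then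
    (ArithmeticFunction.moebius l : ℂ) * (l : ℂ) ^ (-(1 / 2 : ℂ) - w) else 0

/-- Odd squarefree numbers up to `K`. -/
def Osf (K : ℕ) : Finset ℕ := (Icc 1 K).filter (fun m => Odd m ∧ Squarefree m)

/-- Odd squarefree numbers in `(K/2, K]`. -/
def OsfD (K : ℕ) : Finset ℕ := (Icc 1 K).filter (fun m => K < 2 * m ∧ Odd m ∧ Squarefree m)

/-- The smooth weight `v ↦ v ^ (-1/2 - s) Vz(v)` (zero for `v ≤ 0`). -/
noncomputable def Vs (s : ℂ) (v : ℝ) : ℂ :=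
  if 0 < v then (v : ℂ) ^ (-(1 / 2 : ℂ) - s) * (Vz v : ℂ) else 0

/-- Weights which are absolutely convergent superpositions of `n ^ (-u) l ^ (-v)`. -/
def SepW (B : ℕ) (C : ℝ) (W : ℕ → ℕ → ℝ) : Prop :=
  ∃ w u v : ℝ × ℝ × ℝ → ℂ, Measurable w ∧ Measurable u ∧ Measurable v ∧
    (∀ p, 0 ≤ (u p).re ∧ (u p).re ≤ 1 ∧ ‖u p‖ ≤ 10 * (1 + ‖p‖)) ∧ (∀ p, 0 ≤ (v p).re) ∧
    Integrable (fun p => ‖w p‖ * (1 + ‖p‖) ^ B) ∧ (∫ p, ‖w p‖ * (1 + ‖p‖) ^ B) ≤ C ∧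
    ∀ l n : ℕ, 1 ≤ l → 1 ≤ n →
      (W l n : ℂ) = ∫ p, w p * (n : ℂ) ^ (-(u p)) * (l : ℂ) ^ (-(v p))

end Pool.Agent.MP0016c7.Rz
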