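import Mathlib
import Pool.Agent.Lib.MP_0016c7_nt.Rz.Defs
import Pool.Agent.Lib.MP_0016c7_nt.Rz.FtS
import Pool.Agent.Lib.MP_0016c7_nt.Rz.ArithA4
import Pool.Agent.Lib.MP_0016c7_nt.Rz.ErrD6a
import Pool.Agent.Lib.MP_0016c7_nt.Rz2.QDefs

set_option autoImplicit false

/-!
Generic nonsquare sums (D20a).
-/

open Finset MeasureTheory Filter Topology
open scoped Real ContDiff

namespace Pool.Agent.MP0016c7.Rz

private lemma nsc_gg (k : ℤ) (N : ℕ) (hN : 1 ≤ N) : |gg k N| ≤ N := by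
  have h1 := abs_gg_le k N hN
  have hN0 : (0 : ℝ) < N := by exact_mod_cast hN
  have h2 : (N.divisors.card : ℝ) ≤ N := by exact_mod_cast Nat.card_divisors_le_self N
  have h3 : √((Nat.gcd k.natAbs N : ℝ) / N) ≤ 1 := by
    rw [Real.sqrt_le_one, div_le_one hN0]
    exact_mod_cast Nat.gcd_le_right _ hN
  calc _ ≤ (N.divisors.card : ℝ) * √((Nat.gcd k.natAbs N : ℝ) / N) := h1
    _ ≤ N * 1 := mul_le_mul h2 h3 (Real.sqrt_nonneg _) hN0.le
    _ = N := mul_one _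

open Classical in
/-- The contribution of the nonsquare `k` with general bounded coefficients `c k`. -/
noncomputable def NSc (F : ℝ → ℝ) (σ : ℤ) (c : ℤ → ℝ) (Y : ℝ) (N : ℕ) : ℝ :=
  ∑' k : ℤ, if IsSquare k then 0 else c k * gg k N * Ft F σ ((k : ℝ) * Y / (2 * N))

theorem NS_eq_NSc (F : ℝ → ℝ) (σ : ℤ) (Y : ℝ) (N : ℕ) :
    NS F σ Y N = NSc F σ (fun k => (-1 : ℝ) ^ k.natAbs) Y N := by
  unfold NS NSc
  rfl

open Classical in
theorem NSc_tail {F : ℝ → ℝ} {a b : ℝ} (ha : 0 < a) (hF : Bump F a b) (σ : ℤ) (θ ε C A : ℝ)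
    (hθ : 0 < θ) (hθ' : θ < 1 / 2) (hε : 0 < ε) (hC : 0 < C) :
    ∃ X₀ : ℝ, ∀ X : ℝ, X₀ ≤ X → ∀ c : ℤ → ℝ, (∀ k, |c k| ≤ 2) → ∀ N : ℕ, 1 ≤ N →
      (N : ℝ) ≤ X ^ (1 + 2 * θ) → ∀ Y : ℝ, X / C ≤ Y →
      |NSc F σ c Y N - ∑ k ∈ Icc (-(⌊X ^ (2 * θ + ε)⌋₊ : ℤ)) ⌊X ^ (2 * θ + ε)⌋₊,
        (if IsSquare k then 0 else
          c k * gg k N * Ft F σ ((k : ℝ) * Y / (2 * N)))| ≤ X ^ (-A) := by
  obtain ⟨φ, hφ⟩ := Ft_schwartz hF σ
  obtain ⟨B, hB2, hB⟩ : ∃ B : ℕ, 2 ≤ B ∧ 5 + A + 2 * ε ≤ ε * B := by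
    refine ⟨max 2 ⌈(5 + A + 2 * ε) / ε⌉₊, le_max_left _ _, ?_⟩
    have h1 : (5 + A + 2 * ε) / ε ≤ ((max 2 ⌈(5 + A + 2 * ε) / ε⌉₊ : ℕ) : ℝ) :=
      (Nat.le_ceil _).trans (by exact_mod_cast le_max_right _ _)
    rw [div_le_iff₀ hε] at h1
    linarith
  obtain ⟨CB, hCB, hdec⟩ := φ.decay B 0
  have hdec' : ∀ ξ : ℝ, |ξ| ^ B * |Ft F σ ξ| ≤ CB := by
    intro ξ
    have h := hdec ξ
    rw [norm_iteratedFDeriv_zero, hφ] at h
    simpa only [Real.norm_eq_abs] using h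
  set Z : ℝ := ∑' k : ℤ, 1 / (k : ℝ) ^ 2 with hZ
  have hZs : HasSum (fun k : ℤ => 1 / (k : ℝ) ^ 2) Z :=
    (Real.summable_one_div_int_pow.2 (by norm_num)).hasSum
  have hZ0 : 0 ≤ Z := tsum_nonneg fun k => by positivity
  refine ⟨max 2 (2 * CB * (2 * C) ^ B * Z), fun X hX c hc N hN hNX Y hY => ?_⟩
  have hX2 : 2 ≤ X := (le_max_left _ _).trans hX
  have hX0 : 0 < X := by linarith
  have hN0 : (0 : ℝ) < N := by exact_mod_cast hN
  have hY0 : 0 < Y := lt_of_lt_of_le (by positivity) hY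
  set K : ℕ := ⌊X ^ (2 * θ + ε)⌋₊ with hK
  set s : Finset ℤ := Icc (-(K : ℤ)) K with hs
  set f : ℤ → ℝ := fun k => if IsSquare k then 0 else
    c k * gg k N * Ft F σ ((k : ℝ) * Y / (2 * N)) with hf
  set G : ℝ := 2 * CB * (2 * C) ^ B * X ^ (-A - 1) with hG
  have hG0 : 0 ≤ G := by positivity
  -- the bound of the tail terms
  have hterm : ∀ k : ℤ, k ∉ s → |f k| ≤ G * (1 / (k : ℝ) ^ 2) := by
    intro k hk
    have hkK : (K : ℤ) + 1 ≤ |k| := by
      by_contra hc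
      push Not at hc
      apply hk
      rw [hs, Finset.mem_Icc, ← abs_le]
      omega
    have hkX : X ^ (2 * θ + ε) < |(k : ℝ)| := by
      have h1 := Nat.lt_floor_add_one (X ^ (2 * θ + ε))
      have h2 : (K : ℝ) + 1 ≤ |(k : ℝ)| := by exact_mod_cast hkK
      exact h1.trans_le h2
    have hk0 : 0 < |(k : ℝ)| := lt_trans (by positivity) hkX
    simp only [hf]
    split_ifs with hsq
    · rw [abs_zero]
      positivity
    · rw [abs_mul, abs_mul]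
      have h1 := nsc_gg k N hN
      set ξ : ℝ := (k : ℝ) * Y / (2 * N) with hξ
      have hξa : |ξ| = |(k : ℝ)| * (Y / (2 * N)) := by
        rw [hξ, mul_div_assoc, abs_mul, abs_of_pos (by positivity : 0 < Y / (2 * (N : ℝ)))]
      have h2 : |(k : ℝ)| * (X ^ (-(2 * θ)) / (2 * C)) ≤ |ξ| := by
        rw [hξa]
        refine mul_le_mul_of_nonneg_left ?_ hk0.le
        have h3 : X ^ (-(2 * θ)) / (2 * C) = X / C / (2 * X ^ (1 + 2 * θ)) := by
          rw [Real.rpow_neg hX0.le, Real.rpow_add hX0, Real.rpow_one]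
          field_simp
        rw [h3]
        exact div_le_div₀ hY0.le hY (by positivity) (by linarith)
      have hξ0 : 0 < |ξ| := lt_of_lt_of_le (by positivity) h2
      have h3 : |Ft F σ ξ| ≤ CB / |ξ| ^ B := by
        rw [le_div_iff₀ (by positivity), mul_comm]
        exact hdec' ξ
      have h4 : (|(k : ℝ)| * (X ^ (-(2 * θ)) / (2 * C))) ^ B ≤ |ξ| ^ B :=
        pow_le_pow_left₀ (by positivity) h2 B
      have h5 : |(k : ℝ)| ^ 2 * X ^ ((2 * θ + ε) * ((B : ℝ) - 2)) ≤ |(k : ℝ)| ^ B := by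
        obtain ⟨b', hb'⟩ := Nat.exists_eq_add_of_le hB2
        rw [hb', pow_add]
        refine mul_le_mul_of_nonneg_left ?_ (by positivity)
        have h6 := pow_le_pow_left₀ (by positivity) hkX.le b'
        rw [← Real.rpow_natCast, ← Real.rpow_mul hX0.le] at h6
        rw [show ((2 + b' : ℕ) : ℝ) - 2 = b' by push_cast; ring]
        exact h6
      have h6 : (X ^ (-(2 * θ))) ^ B = X ^ (-(2 * θ) * (B : ℝ)) := by
        rw [← Real.rpow_natCast, ← Real.rpow_mul hX0.le]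
      have h7 : |(k : ℝ)| ^ 2 * X ^ ((2 * θ + ε) * ((B : ℝ) - 2)) * X ^ (-(2 * θ) * (B : ℝ)) /
          (2 * C) ^ B ≤ |ξ| ^ B := by
        refine le_trans ?_ h4
        rw [mul_pow |(k : ℝ)|, div_pow, h6, ← mul_div_assoc]
        exact div_le_div_of_nonneg_right (mul_le_mul_of_nonneg_right h5 (by positivity))
          (by positivity)
      have h8 : X ^ (1 + 2 * θ) ≤ X ^ (-A - 1) *
          (X ^ ((2 * θ + ε) * ((B : ℝ) - 2)) * X ^ (-(2 * θ) * (B : ℝ))) := by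
        rw [← Real.rpow_add hX0, ← Real.rpow_add hX0]
        refine Real.rpow_le_rpow_of_exponent_le (by linarith) ?_
        nlinarith
      have hsqk : |(k : ℝ)| ^ 2 = (k : ℝ) ^ 2 := sq_abs _
      have hk2 : 0 < (k : ℝ) ^ 2 := by rw [← hsqk]; positivity
      rw [hsqk] at h7
      have h9 : |gg k N| * |Ft F σ ξ| ≤ X ^ (1 + 2 * θ) * (CB / ((k : ℝ) ^ 2 *
          X ^ ((2 * θ + ε) * ((B : ℝ) - 2)) * X ^ (-(2 * θ) * (B : ℝ)) / (2 * C) ^ B)) := by
        refine mul_le_mul (h1.trans hNX) (h3.trans ?_) (abs_nonneg _) (by positivity)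
        exact div_le_div_of_nonneg_left hCB.le (by positivity) h7
      have hcore : |gg k N| * |Ft F σ ξ| ≤ CB * (2 * C) ^ B * X ^ (-A - 1) * (1 / (k : ℝ) ^ 2) := by
       refine h9.trans ?_
       set P : ℝ := X ^ ((2 * θ + ε) * ((B : ℝ) - 2)) * X ^ (-(2 * θ) * (B : ℝ)) with hP
       have hP0 : 0 < P := by positivity
       have h10 : X ^ (1 + 2 * θ) * (CB / ((k : ℝ) ^ 2 *
           X ^ ((2 * θ + ε) * ((B : ℝ) - 2)) * X ^ (-(2 * θ) * (B : ℝ)) / (2 * C) ^ B)) =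
           X ^ (1 + 2 * θ) * (CB * (2 * C) ^ B / ((k : ℝ) ^ 2 * P)) := by
         rw [hP, mul_assoc ((k : ℝ) ^ 2), div_div_eq_mul_div]
       rw [h10]
       calc X ^ (1 + 2 * θ) * (CB * (2 * C) ^ B / ((k : ℝ) ^ 2 * P))
           ≤ (X ^ (-A - 1) * P) * (CB * (2 * C) ^ B / ((k : ℝ) ^ 2 * P)) :=
             mul_le_mul_of_nonneg_right h8 (by positivity)
         _ = CB * (2 * C) ^ B * X ^ (-A - 1) * (1 / (k : ℝ) ^ 2) := by field_simp
      calc |c k| * |gg k N| * |Ft F σ ξ| = |c k| * (|gg k N| * |Ft F σ ξ|) := mul_assoc _ _ _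
        _ ≤ 2 * (CB * (2 * C) ^ B * X ^ (-A - 1) * (1 / (k : ℝ) ^ 2)) :=
          mul_le_mul (hc k) hcore (by positivity) (by norm_num)
        _ = G * (1 / (k : ℝ) ^ 2) := by rw [hG]; ring
  -- splitting of the series
  set g : ℤ → ℝ := fun k => if k ∈ s then 0 else f k with hg
  have hgb : ∀ k, ‖g k‖ ≤ G * (1 / (k : ℝ) ^ 2) := by
    intro k
    simp only [hg]
    split_ifs with hk
    · rw [norm_zero]
      positivity
    · exact hterm k hk
  have hgs : Summable g := Summable.of_norm_bounded (hZs.summable.mul_left G) hgb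
  have hgt : ‖∑' k, g k‖ ≤ G * Z := tsum_of_norm_bounded (hZs.mul_left G) hgb
  have h1 : HasSum (fun k => if k ∈ s then f k else 0) (∑ k ∈ s, if k ∈ s then f k else 0) :=
    hasSum_sum_of_ne_finset_zero fun k hk => if_neg hk
  have h2 : HasSum f ((∑ k ∈ s, if k ∈ s then f k else 0) + ∑' k, g k) := by
    have h3 := h1.add hgs.hasSum
    convert h3 using 1
    funext k
    simp only [hg]
    split_ifs <;> simp
  have h3 : (∑ k ∈ s, if k ∈ s then f k else 0) = ∑ k ∈ s, f k :=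
    Finset.sum_congr rfl fun k hk => if_pos hk
  have h4 : NSc F σ c Y N = ∑ k ∈ s, f k + ∑' k, g k := by
    rw [← h3, ← h2.tsum_eq]
    unfold NSc
    refine tsum_congr fun k => ?_
    simp only [hf]
  rw [h4]
  have h5 : ∑ k ∈ s, f k + ∑' k, g k - ∑ k ∈ s, f k = ∑' k, g k := by ring
  rw [h5]
  have h6 : G * Z ≤ X ^ (-A) := by
    have h7 : X ^ (-A) = X ^ (-A - 1) * X := by
      rw [Real.rpow_sub_one hX0.ne', div_mul_cancel₀ _ hX0.ne']
    rw [h7, hG]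
    have h8 : 2 * CB * (2 * C) ^ B * Z ≤ X := (le_max_right _ _).trans hX
    calc _ = X ^ (-A - 1) * (2 * CB * (2 * C) ^ B * Z) := by ring
      _ ≤ _ := mul_le_mul_of_nonneg_left h8 (by positivity)
  rw [Real.norm_eq_abs] at hgt
  exact hgt.trans h6


end Pool.Agent.MP0016c7.Rz
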