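import Mathlib
import Pool.Agent.Lib.MP_0016c7_nt.Rz.Defs
import Pool.Agent.Lib.MP_0016c7_nt.Rz2.QDefs

set_option autoImplicit false

/-!
The statement of the quadratic large sieve as a class, so that the modules which use it
can be compiled independently of its proof. It is proved in `Rz2/Qls.lean` (`qlsHyp`), and
every result below `Rz2/ErrGd.lean` is unconditional.
-/

open Finset MeasureTheory Filter Topology
open scoped Real ContDiff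

namespace Pool.Agent.MP0016c7.Rz

/-- The quadratic large sieve (Heath-Brown); proved in `Rz2/Qls.lean`. -/
class QlsHyp : Prop where
  out : ∀ ε : ℝ, 0 < ε → ∃ C : ℝ, 0 < C ∧ ∀ M N : ℕ, 1 ≤ M → 1 ≤ N → ∀ a : ℕ → ℂ,
    ∑ m ∈ Osf M, ‖∑ n ∈ Osf N, a n * (jr n m : ℂ)‖ ^ 2 ≤
      C * ((M : ℝ) * N) ^ ε * (M + N) * ∑ n ∈ Osf N, ‖a n‖ ^ 2

theorem qls_osf [h : QlsHyp] (ε : ℝ) (hε : 0 < ε) : ∃ C : ℝ, 0 < C ∧
    ∀ M N : ℕ, 1 ≤ M → 1 ≤ N → ∀ a : ℕ → ℂ,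
    ∑ m ∈ Osf M, ‖∑ n ∈ Osf N, a n * (jr n m : ℂ)‖ ^ 2 ≤
      C * ((M : ℝ) * N) ^ ε * (M + N) * ∑ n ∈ Osf N, ‖a n‖ ^ 2 :=
  h.out ε hε

end Pool.Agent.MP0016c7.Rz
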