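import Mathlib
import Pool.Agent.Lib.MP_0016c7_nt.Rz.Defs
import Pool.Agent.Lib.MP_0016c7_nt.Rz.ArithA1
import Pool.Agent.Lib.MP_0016c7_nt.Rz2.QDefs
import Pool.Agent.Lib.MP_0016c7_nt.Rz2.QlsH
import Pool.Agent.Lib.MP_0016c7_nt.Qls.QJr

set_option autoImplicit false

/-!
Mean square for general coefficients (D5).
-/

open Finset MeasureTheory Filter Topology
open scoped Real ContDiff

namespace Pool.Agent.MP0016c7.Rz

private theorem m2_cs (N : ℕ) (x : ℕ → ℂ) :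
    ‖∑ b ∈ Icc 1 N, x b‖ ^ 2 ≤ (∑ b ∈ Icc 1 N, 1 / (b : ℝ)) * ∑ b ∈ Icc 1 N, (b : ℝ) * ‖x b‖ ^ 2 := by
  have h1 : ‖∑ b ∈ Icc 1 N, x b‖ ≤ ∑ b ∈ Icc 1 N, (1 / √(b : ℝ)) * (√(b : ℝ) * ‖x b‖) := by
    refine (norm_sum_le _ _).trans (le_of_eq (sum_congr rfl fun b hb => ?_))
    have hb1 : (0 : ℝ) < √(b : ℝ) := by
      rw [Real.sqrt_pos]
      exact_mod_cast (mem_Icc.1 hb).1
    field_simp
  have h2 := Finset.sum_mul_sq_le_sq_mul_sq (Icc 1 N) (fun b : ℕ => 1 / √(b : ℝ))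
    (fun b : ℕ => √(b : ℝ) * ‖x b‖)
  calc ‖∑ b ∈ Icc 1 N, x b‖ ^ 2 ≤ (∑ b ∈ Icc 1 N, (1 / √(b : ℝ)) * (√(b : ℝ) * ‖x b‖)) ^ 2 := by
        gcongr
    _ ≤ _ := h2
    _ = _ := by
        congr 1
        · refine sum_congr rfl fun b hb => ?_
          rw [div_pow, one_pow, Real.sq_sqrt (by positivity)]
        · refine sum_congr rfl fun b hb => ?_
          rw [mul_pow, Real.sq_sqrt (by positivity)]

/-- all squarefree columns -/
private theorem m2_sqf (ε C : ℝ) (hC : 0 < C)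
    (H : ∀ M N : ℕ, 1 ≤ M → 1 ≤ N → ∀ a : ℕ → ℂ,
      ∑ m ∈ Osf M, ‖∑ n ∈ Osf N, a n * (jr n m : ℂ)‖ ^ 2 ≤
        C * ((M : ℝ) * N) ^ ε * (M + N) * ∑ n ∈ Osf N, ‖a n‖ ^ 2)
    (M N : ℕ) (hM : 1 ≤ M) (hN : 1 ≤ N) (a : ℕ → ℂ) :
    ∑ m ∈ Osf M, ‖∑ n ∈ (Icc 1 N).filter Squarefree, a n * (jr n m : ℂ)‖ ^ 2 ≤
      4 * C * ((M : ℝ) * N) ^ ε * (M + N) * ∑ n ∈ (Icc 1 N).filter Squarefree, ‖a n‖ ^ 2 := by
  classical
  set a' : ℕ → ℂ := fun c => if 2 * c ≤ N then a (2 * c) else 0 with ha'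
  have hsplit : ∀ (R : Type) (_ : AddCommMonoid R) (f : ℕ → R),
      ∑ n ∈ (Icc 1 N).filter Squarefree, f n =
      ∑ n ∈ Osf N, f n + ∑ c ∈ (Osf N).filter (fun c => 2 * c ≤ N), f (2 * c) := by
    intro R _ f
    rw [← sum_filter_add_sum_filter_not _ (fun n => Odd n)]
    congr 1
    · refine sum_congr ?_ fun _ _ => rfl
      ext n
      simp only [Osf, mem_filter]
      tauto
    · refine sum_nbij' (fun n => n / 2) (fun c => 2 * c) ?_ ?_ ?_ ?_ ?_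
      · intro n hn
        simp only [mem_filter, mem_Icc, Nat.not_odd_iff_even] at hn
        obtain ⟨⟨⟨h1, h2⟩, h3⟩, h4⟩ := hn
        obtain ⟨c, rfl⟩ := even_iff_two_dvd.1 h4
        have hc : 2 * c / 2 = c := by omega
        simp only [Osf, mem_filter, mem_Icc, hc]
        have hs : Squarefree c := h3.squarefree_of_dvd (Dvd.intro_left _ rfl)
        refine ⟨⟨⟨by omega, by omega⟩, ?_, hs⟩, h2⟩
        rw [← Nat.not_even_iff_odd]
        intro he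
        obtain ⟨d, rfl⟩ := even_iff_two_dvd.1 he
        have := h3 2 ⟨d, by ring⟩
        rw [Nat.isUnit_iff] at this
        omega
      · intro c hc
        simp only [Osf, mem_filter, mem_Icc] at hc ⊢
        obtain ⟨⟨⟨h1, h2⟩, h3, h4⟩, h5⟩ := hc
        refine ⟨⟨⟨by omega, h5⟩, ?_⟩, by simp⟩
        have hcop : Nat.Coprime 2 c := (Nat.coprime_two_left).2 h3
        exact (Nat.squarefree_mul hcop).2 ⟨Nat.prime_two.squarefree, h4⟩
      · intro n hn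
        simp only [mem_filter, mem_Icc, Nat.not_odd_iff_even] at hn
        obtain ⟨c, hc⟩ := even_iff_two_dvd.1 hn.2
        simp only [hc]
        omega
      · intro c _
        change 2 * c / 2 = c
        omega
      · intro n hn
        simp only [mem_filter, mem_Icc, Nat.not_odd_iff_even] at hn
        obtain ⟨c, hc⟩ := even_iff_two_dvd.1 hn.2
        simp only [hc]
        congr 1
        omega
  have h1 := H M N hM hN a
  have h2 := H M N hM hN a'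
  have e2 : ∑ n ∈ Osf N, ‖a' n‖ ^ 2 = ∑ c ∈ (Osf N).filter (fun c => 2 * c ≤ N), ‖a (2 * c)‖ ^ 2 := by
    rw [sum_filter]
    refine sum_congr rfl fun c _ => ?_
    simp only [ha']
    split_ifs <;> simp
  have e3 : ∀ m, ∑ n ∈ Osf N, a' n * (jr n m : ℂ) =
      ∑ c ∈ (Osf N).filter (fun c => 2 * c ≤ N), a (2 * c) * (jr c m : ℂ) := by
    intro m
    rw [sum_filter]
    refine sum_congr rfl fun c _ => ?_
    simp only [ha']
    split_ifs <;> simp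
  have key : ∀ m, ‖∑ n ∈ (Icc 1 N).filter Squarefree, a n * (jr n m : ℂ)‖ ^ 2 ≤
      2 * ‖∑ n ∈ Osf N, a n * (jr n m : ℂ)‖ ^ 2 + 2 * ‖∑ n ∈ Osf N, a' n * (jr n m : ℂ)‖ ^ 2 := by
    intro m
    rw [hsplit ℂ inferInstance (fun n => a n * (jr n m : ℂ)), e3]
    have e4 : ∑ c ∈ (Osf N).filter (fun c => 2 * c ≤ N), a (2 * c) * (jr (2 * c : ℕ) m : ℂ) =
        (jr 2 m : ℂ) * ∑ c ∈ (Osf N).filter (fun c => 2 * c ≤ N), a (2 * c) * (jr c m : ℂ) := by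
      rw [mul_sum]
      refine sum_congr rfl fun c _ => ?_
      have : jr ((2 * c : ℕ) : ℤ) m = jr 2 m * jr c m := by
        push_cast
        exact jr_mul_left 2 c m
      rw [this]
      push_cast
      ring
    rw [e4]
    set x := ∑ n ∈ Osf N, a n * (jr n m : ℂ)
    set y := ∑ c ∈ (Osf N).filter (fun c => 2 * c ≤ N), a (2 * c) * (jr c m : ℂ)
    have h5 : ‖(jr 2 m : ℂ) * y‖ ≤ ‖y‖ := by
      rw [norm_mul, Complex.norm_real, Real.norm_eq_abs]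
      exact mul_le_of_le_one_left (norm_nonneg _) (abs_jr_le _ _)
    have h6 : ‖x + (jr 2 m : ℂ) * y‖ ≤ ‖x‖ + ‖y‖ := (norm_add_le _ _).trans (by linarith)
    have h7 : ‖x + (jr 2 m : ℂ) * y‖ ^ 2 ≤ (‖x‖ + ‖y‖) ^ 2 := by gcongr
    nlinarith [sq_nonneg (‖x‖ - ‖y‖)]
  have hS := hsplit ℝ inferInstance (fun n => ‖a n‖ ^ 2)
  calc _ ≤ ∑ m ∈ Osf M, (2 * ‖∑ n ∈ Osf N, a n * (jr n m : ℂ)‖ ^ 2 +
        2 * ‖∑ n ∈ Osf N, a' n * (jr n m : ℂ)‖ ^ 2) := sum_le_sum fun m _ => key m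
    _ = 2 * ∑ m ∈ Osf M, ‖∑ n ∈ Osf N, a n * (jr n m : ℂ)‖ ^ 2 +
        2 * ∑ m ∈ Osf M, ‖∑ n ∈ Osf N, a' n * (jr n m : ℂ)‖ ^ 2 := by
        rw [sum_add_distrib, mul_sum, mul_sum]
    _ ≤ 2 * (C * ((M : ℝ) * N) ^ ε * (M + N) * ∑ n ∈ Osf N, ‖a n‖ ^ 2) +
        2 * (C * ((M : ℝ) * N) ^ ε * (M + N) * ∑ n ∈ Osf N, ‖a' n‖ ^ 2) := by
        linarith
    _ = 2 * (C * ((M : ℝ) * N) ^ ε * (M + N)) * ∑ n ∈ (Icc 1 N).filter Squarefree, ‖a n‖ ^ 2 := by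
        rw [e2, hS]
        ring
    _ ≤ _ := by
        have h8 : 0 ≤ ∑ n ∈ (Icc 1 N).filter Squarefree, ‖a n‖ ^ 2 := by positivity
        have h9 : 0 ≤ C * ((M : ℝ) * N) ^ ε * (M + N) := by positivity
        nlinarith [mul_nonneg h9 h8]

theorem mean2 [QlsHyp] (ε : ℝ) (hε : 0 < ε) : ∃ C : ℝ, 0 < C ∧ ∀ K N : ℕ, 1 ≤ K → 1 ≤ N → ∀ a : ℕ → ℂ,
    ∑ m ∈ Osf K, ‖∑ n ∈ Icc 1 N, a n * (jr n m : ℂ)‖ ^ 2 ≤
      C * ((K : ℝ) * N) ^ ε * (K + N) * ∑ n ∈ Icc 1 N, ‖a n‖ ^ 2 * (sq2 n : ℝ) := by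
  classical
  obtain ⟨C, hC, H⟩ := qls_osf (ε / 2) (by linarith)
  refine ⟨4 * C * (1 + 2 / ε), by positivity, fun K N hK hN a => ?_⟩
  -- the coefficients in the fibre of `b`
  set P : ℕ → ℕ → Prop := fun b c => c * b ^ 2 ∈ Icc 1 N ∧ sq2 (c * b ^ 2) = b ∧
    sq1 (c * b ^ 2) = c with hP
  set ab : ℕ → ℕ → ℂ := fun b c => if P b c then a (c * b ^ 2) else 0 with hab
  have hle : ∀ n ∈ Icc 1 N, sq1 n ∈ (Icc 1 N).filter Squarefree ∧ sq2 n ∈ Icc 1 N := by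
    intro n hn
    have hn1 := (mem_Icc.1 hn).1
    have h := sq1_mul_sq2 n (by omega)
    have h1 : 0 < sq1 n := Nat.pos_of_ne_zero fun h0 => by rw [h0] at h; omega
    have h2 : 0 < sq2 n := Nat.pos_of_ne_zero fun h0 => by rw [h0] at h; simp at h; omega
    have h3 : sq1 n ≤ n := by
      conv_rhs => rw [← h]
      exact Nat.le_mul_of_pos_right _ (by positivity)
    have h4 : sq2 n ≤ n := by
      conv_rhs => rw [← h]
      calc sq2 n ≤ sq2 n ^ 2 := Nat.le_self_pow (by norm_num) _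
        _ ≤ _ := Nat.le_mul_of_pos_left _ h1
    have hnN := (mem_Icc.1 hn).2
    refine ⟨mem_filter.2 ⟨mem_Icc.2 ⟨h1, h3.trans hnN⟩, squarefree_sq1 n⟩,
      mem_Icc.2 ⟨h2, h4.trans hnN⟩⟩
  have hfib : ∀ (R : Type) (_ : AddCommMonoid R) (f : ℕ → R) (b : ℕ),
      ∑ n ∈ (Icc 1 N).filter (fun n => sq2 n = b), f n =
      ∑ c ∈ ((Icc 1 N).filter Squarefree).filter (fun c => P b c), f (c * b ^ 2) := by
    intro R _ f b
    refine sum_nbij' (fun n => sq1 n) (fun c => c * b ^ 2) ?_ ?_ ?_ ?_ ?_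
    · intro n hn
      rw [mem_filter] at hn
      obtain ⟨hn, rfl⟩ := hn
      rw [mem_filter]
      refine ⟨(hle n hn).1, ?_⟩
      have h := sq1_mul_sq2 n (by have := (mem_Icc.1 hn).1; omega)
      exact ⟨by rw [h]; exact hn, by rw [h], by rw [h]⟩
    · intro c hc
      rw [mem_filter] at hc
      exact mem_filter.2 ⟨hc.2.1, hc.2.2.1⟩
    · intro n hn
      rw [mem_filter] at hn
      obtain ⟨hn, rfl⟩ := hn
      exact sq1_mul_sq2 n (by have := (mem_Icc.1 hn).1; omega)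
    · intro c hc
      rw [mem_filter] at hc
      exact hc.2.2.2
    · intro n hn
      rw [mem_filter] at hn
      obtain ⟨hn, rfl⟩ := hn
      rw [sq1_mul_sq2 n (by have := (mem_Icc.1 hn).1; omega)]
  have hall : ∀ (R : Type) (_ : AddCommMonoid R) (f : ℕ → R), ∑ n ∈ Icc 1 N, f n =
      ∑ b ∈ Icc 1 N, ∑ c ∈ ((Icc 1 N).filter Squarefree).filter (fun c => P b c),
        f (c * b ^ 2) := by
    intro R _ f
    rw [← sum_fiberwise_of_maps_to (g := sq2) (t := Icc 1 N) (fun n hn => (hle n hn).2)]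
    exact sum_congr rfl fun b _ => hfib R _ f b
  -- the character sums
  have hchar : ∀ m ∈ Osf K, ∑ n ∈ Icc 1 N, a n * (jr n m : ℂ) =
      ∑ b ∈ Icc 1 N, (jr b m : ℂ) ^ 2 *
        ∑ c ∈ (Icc 1 N).filter Squarefree, ab b c * (jr c m : ℂ) := by
    intro m _
    rw [hall ℂ inferInstance (fun n => a n * (jr n m : ℂ))]
    refine sum_congr rfl fun b _ => ?_
    rw [sum_filter, mul_sum]
    refine sum_congr rfl fun c _ => ?_
    simp only [hab]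
    split_ifs with h
    · have e1 : jr ((c * b ^ 2 : ℕ) : ℤ) m = jr c m * (jr b m * jr b m) := by
        push_cast
        rw [jr_mul_left, pow_two, jr_mul_left]
      rw [e1]
      push_cast
      ring
    · simp
  have hsum : ∑ n ∈ Icc 1 N, ‖a n‖ ^ 2 * (sq2 n : ℝ) =
      ∑ b ∈ Icc 1 N, (b : ℝ) * ∑ c ∈ (Icc 1 N).filter Squarefree, ‖ab b c‖ ^ 2 := by
    rw [hall ℝ inferInstance (fun n => ‖a n‖ ^ 2 * (sq2 n : ℝ))]
    refine sum_congr rfl fun b _ => ?_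
    rw [sum_filter, mul_sum]
    refine sum_congr rfl fun c _ => ?_
    simp only [hab]
    split_ifs with h
    · rw [h.2.1]
      ring
    · simp
  have hL : ∑ b ∈ Icc 1 N, 1 / (b : ℝ) ≤ (1 + 2 / ε) * ((K : ℝ) * N) ^ (ε / 2) := by
    have h1 : ∑ b ∈ Icc 1 N, 1 / (b : ℝ) ≤ 1 + Real.log N := by
      have := harmonic_le_one_add_log N
      rw [harmonic_eq_sum_Icc] at this
      push_cast at this
      simpa [one_div] using this
    have hN1 : (1 : ℝ) ≤ N := by exact_mod_cast hN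
    have hK1 : (1 : ℝ) ≤ K := by exact_mod_cast hK
    have hKN : (1 : ℝ) ≤ (K : ℝ) * N := by nlinarith
    have h2 : Real.log N ≤ (N : ℝ) ^ (ε / 2) / (ε / 2) :=
      Real.log_le_rpow_div (by positivity) (by linarith)
    have h3 : (N : ℝ) ^ (ε / 2) ≤ ((K : ℝ) * N) ^ (ε / 2) :=
      Real.rpow_le_rpow (by positivity) (by nlinarith) (by linarith)
    have h4 : (1 : ℝ) ≤ ((K : ℝ) * N) ^ (ε / 2) := Real.one_le_rpow hKN (by linarith)
    have h5 : (N : ℝ) ^ (ε / 2) / (ε / 2) ≤ 2 / ε * ((K : ℝ) * N) ^ (ε / 2) := by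
      rw [div_le_iff₀ (by linarith)]
      calc (N : ℝ) ^ (ε / 2) ≤ ((K : ℝ) * N) ^ (ε / 2) := h3
        _ = 2 / ε * ((K : ℝ) * N) ^ (ε / 2) * (ε / 2) := by field_simp
    calc _ ≤ 1 + Real.log N := h1
      _ ≤ ((K : ℝ) * N) ^ (ε / 2) + 2 / ε * ((K : ℝ) * N) ^ (ε / 2) := by linarith
      _ = _ := by ring
  have hb : ∀ b ∈ Icc 1 N, ∑ m ∈ Osf K, ‖(jr b m : ℂ) ^ 2 *
      ∑ c ∈ (Icc 1 N).filter Squarefree, ab b c * (jr c m : ℂ)‖ ^ 2 ≤
      4 * C * ((K : ℝ) * N) ^ (ε / 2) * (K + N) *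
        ∑ c ∈ (Icc 1 N).filter Squarefree, ‖ab b c‖ ^ 2 := by
    intro b _
    refine (sum_le_sum fun m _ => ?_).trans (m2_sqf (ε / 2) C hC H K N hK hN (ab b))
    rw [norm_mul, norm_pow, Complex.norm_real, Real.norm_eq_abs]
    have h1 := abs_jr_le b m
    have h2 : |jr b m| ^ 2 ≤ 1 := pow_le_one₀ (abs_nonneg _) h1
    have h3 : |jr (b : ℤ) m| ^ 2 * ‖∑ c ∈ (Icc 1 N).filter Squarefree, ab b c * (jr c m : ℂ)‖ ≤
        ‖∑ c ∈ (Icc 1 N).filter Squarefree, ab b c * (jr c m : ℂ)‖ :=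
      mul_le_of_le_one_left (norm_nonneg _) h2
    gcongr
  calc ∑ m ∈ Osf K, ‖∑ n ∈ Icc 1 N, a n * (jr n m : ℂ)‖ ^ 2
      ≤ ∑ m ∈ Osf K, (∑ b ∈ Icc 1 N, 1 / (b : ℝ)) * ∑ b ∈ Icc 1 N, (b : ℝ) *
        ‖(jr b m : ℂ) ^ 2 * ∑ c ∈ (Icc 1 N).filter Squarefree, ab b c * (jr c m : ℂ)‖ ^ 2 := by
        refine sum_le_sum fun m hm => ?_
        rw [hchar m hm]
        exact m2_cs N _
    _ = (∑ b ∈ Icc 1 N, 1 / (b : ℝ)) * ∑ b ∈ Icc 1 N, (b : ℝ) * ∑ m ∈ Osf K,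
        ‖(jr b m : ℂ) ^ 2 * ∑ c ∈ (Icc 1 N).filter Squarefree, ab b c * (jr c m : ℂ)‖ ^ 2 := by
        rw [← mul_sum, sum_comm]
        congr 1
        refine sum_congr rfl fun b _ => ?_
        rw [mul_sum]
    _ ≤ (1 + 2 / ε) * ((K : ℝ) * N) ^ (ε / 2) * ∑ b ∈ Icc 1 N, (b : ℝ) *
        (4 * C * ((K : ℝ) * N) ^ (ε / 2) * (K + N) *
        ∑ c ∈ (Icc 1 N).filter Squarefree, ‖ab b c‖ ^ 2) := by
        refine mul_le_mul hL (sum_le_sum fun b hb' => ?_) (by positivity) (by positivity)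
        exact mul_le_mul_of_nonneg_left (hb b hb') (by positivity)
    _ = 4 * C * (1 + 2 / ε) * (((K : ℝ) * N) ^ (ε / 2) * ((K : ℝ) * N) ^ (ε / 2)) * (K + N) *
        ∑ b ∈ Icc 1 N, (b : ℝ) * ∑ c ∈ (Icc 1 N).filter Squarefree, ‖ab b c‖ ^ 2 := by
        rw [mul_sum, mul_sum]
        refine sum_congr rfl fun b _ => ?_
        ring
    _ = _ := by
        have hK1 : (1 : ℝ) ≤ K := by exact_mod_cast hK
        have hN1 : (1 : ℝ) ≤ N := by exact_mod_cast hN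
        rw [hsum, ← Real.rpow_add (by positivity)]
        congr 3
        ring_nf

end Pool.Agent.MP0016c7.Rz
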