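import Mathlib
import Pool.Agent.Lib.MP_0016c7_nt.Rz.Defs
import Pool.Agent.Lib.MP_0016c7_nt.Rz.ArithA1
import Pool.Agent.Lib.MP_0016c7_nt.Rz.DivB
import Pool.Agent.Lib.MP_0016c7_nt.Rz2.QDefs
import Pool.Agent.Lib.MP_0016c7_nt.Rz2.Mean2

set_option autoImplicit false

/-!
Fourth moments of character sums, lower entry (D6).
-/

open Finset MeasureTheory Filter Topology
open scoped Real ContDiff

namespace Pool.Agent.MP0016c7.Rz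

private theorem fourth_jr_mul (x y : ℤ) (m : ℕ) : jr (x * y) m = jr x m * jr y m := by
  unfold jr
  split_ifs
  · rw [jacobiSym.mul_left]; push_cast; ring
  · ring

private theorem fourth_card (N j : ℕ) (hj : 1 ≤ j) :
    ((Icc 1 N ×ˢ Icc 1 N).filter (fun p : ℕ × ℕ => p.1 * p.2 = j)).card ≤ j.divisors.card := by
  apply Finset.card_le_card_of_injOn (fun p : ℕ × ℕ => p.1)
  · intro p hp
    simp only [Finset.coe_filter, Set.mem_ofPred_eq, Finset.mem_product, Finset.mem_Icc] at hp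
    simp only [Finset.mem_coe, Nat.mem_divisors]
    exact ⟨Dvd.intro _ hp.2, by omega⟩
  · intro p hp q hq hpq
    simp only [Finset.coe_filter, Set.mem_ofPred_eq, Finset.mem_product, Finset.mem_Icc] at hp hq
    simp only at hpq
    have h1 : p.1 * p.2 = p.1 * q.2 := by rw [hp.2]; rw [hpq]; exact hq.2.symm
    have h2 : p.2 = q.2 := Nat.eq_of_mul_eq_mul_left (by omega) h1
    exact Prod.ext hpq h2

private theorem fourth_harm (J : ℕ) (hJ : 1 ≤ J) (η : ℝ) (hη : 0 < η) :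
    ∑ c ∈ Icc 1 J, (1 : ℝ) / c ≤ (1 + 1 / η) * (J : ℝ) ^ η := by
  have h1 : ∑ c ∈ Icc 1 J, (1 : ℝ) / c = (harmonic J : ℝ) := by
    rw [harmonic_eq_sum_Icc]
    push_cast
    apply Finset.sum_congr rfl
    intro c _
    rw [one_div]
  rw [h1]
  have h2 := harmonic_le_one_add_log J
  have hJ' : (1 : ℝ) ≤ J := by exact_mod_cast hJ
  have h3 := Real.log_le_rpow_div (by positivity : (0 : ℝ) ≤ J) hη
  have h4 : (1 : ℝ) ≤ (J : ℝ) ^ η := Real.one_le_rpow hJ' hη.le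
  calc (harmonic J : ℝ) ≤ 1 + Real.log J := h2
    _ ≤ (J : ℝ) ^ η + (J : ℝ) ^ η / η := add_le_add h4 h3
    _ = (1 + 1 / η) * (J : ℝ) ^ η := by ring

private theorem fourth_sq2 (J : ℕ) :
    ∑ j ∈ Icc 1 J, (sq2 j : ℝ) / j ≤ (∑ c ∈ Icc 1 J, (1 : ℝ) / c) ^ 2 := by
  have hmem : ∀ j ∈ Icc 1 J, sq1 j ∈ Icc 1 J ∧ sq2 j ∈ Icc 1 J := by
    intro j hj
    rw [Finset.mem_Icc] at hj
    have e := sq1_mul_sq2 j (by omega)
    have h1 : sq1 j ∣ j := Dvd.intro _ e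
    have h2 : sq2 j ∣ j := (dvd_pow_self _ two_ne_zero).trans (Dvd.intro_left _ e)
    have hj0 : 0 < j := by omega
    have p1 := Nat.pos_of_dvd_of_pos h1 hj0
    have p2 := Nat.pos_of_dvd_of_pos h2 hj0
    have l1 := Nat.le_of_dvd hj0 h1
    have l2 := Nat.le_of_dvd hj0 h2
    constructor <;> rw [Finset.mem_Icc] <;> omega
  have hinj : Set.InjOn (fun j : ℕ => (sq1 j, sq2 j)) (Icc 1 J : Set ℕ) := by
    intro i hi j hj hij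
    rw [Finset.mem_coe, Finset.mem_Icc] at hi hj
    simp only [Prod.mk.injEq] at hij
    rw [← sq1_mul_sq2 i (by omega), ← sq1_mul_sq2 j (by omega), hij.1, hij.2]
  have h1 : ∑ j ∈ Icc 1 J, (sq2 j : ℝ) / j =
      ∑ p ∈ (Icc 1 J).image (fun j : ℕ => (sq1 j, sq2 j)), (1 : ℝ) / p.1 * (1 / p.2) := by
    rw [Finset.sum_image hinj]
    apply Finset.sum_congr rfl
    intro j hj
    have hm := hmem j hj
    rw [Finset.mem_Icc, Finset.mem_Icc] at hm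
    rw [Finset.mem_Icc] at hj
    have e := sq1_mul_sq2 j (by omega)
    have e' : (j : ℝ) = (sq1 j : ℝ) * (sq2 j : ℝ) ^ 2 := by exact_mod_cast e.symm
    have p1 : (0 : ℝ) < sq1 j := by exact_mod_cast (by omega : 0 < sq1 j)
    have p2 : (0 : ℝ) < sq2 j := by exact_mod_cast (by omega : 0 < sq2 j)
    simp only
    rw [e']
    field_simp
  rw [h1, sq, Finset.sum_mul_sum, ← Finset.sum_product']
  apply Finset.sum_le_sum_of_subset_of_nonneg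
  · intro p hp
    rw [Finset.mem_image] at hp
    obtain ⟨j, hj, rfl⟩ := hp
    rw [Finset.mem_product]
    exact hmem j hj
  · intro p _ _
    positivity

private theorem fourth_sq_eq (N : ℕ) (a : ℕ → ℂ) (m : ℕ) :
    (∑ n ∈ Icc 1 N, a n * (jr n m : ℂ)) ^ 2 =
      ∑ j ∈ Icc 1 (N ^ 2), (∑ p ∈ (Icc 1 N ×ˢ Icc 1 N).filter
        (fun p : ℕ × ℕ => p.1 * p.2 = j), a p.1 * a p.2) * (jr j m : ℂ) := by
  rw [sq, Finset.sum_mul_sum, ← Finset.sum_product']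
  have hmaps : ∀ p ∈ Icc 1 N ×ˢ Icc 1 N, p.1 * p.2 ∈ Icc 1 (N ^ 2) := by
    intro p hp
    rw [Finset.mem_product, Finset.mem_Icc, Finset.mem_Icc] at hp
    rw [Finset.mem_Icc]
    constructor
    · exact Nat.mul_pos (by omega) (by omega)
    · rw [sq]; exact Nat.mul_le_mul hp.1.2 hp.2.2
  rw [← Finset.sum_fiberwise_of_maps_to hmaps]
  apply Finset.sum_congr rfl
  intro j _
  rw [Finset.sum_mul]
  apply Finset.sum_congr rfl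
  intro p hp
  rw [Finset.mem_filter] at hp
  have e : jr (j : ℤ) m = jr (p.1 : ℤ) m * jr (p.2 : ℤ) m := by
    rw [← fourth_jr_mul, ← hp.2]; push_cast; rfl
  rw [e]
  push_cast
  ring

private theorem fourth_bj (N : ℕ) (A : ℝ) (hA : 0 ≤ A) (a : ℕ → ℂ)
    (ha : ∀ n : ℕ, 1 ≤ n → n ≤ N → ‖a n‖ ≤ A / √(n : ℝ)) (j : ℕ) (hj : 1 ≤ j) :
    ‖∑ p ∈ (Icc 1 N ×ˢ Icc 1 N).filter
        (fun p : ℕ × ℕ => p.1 * p.2 = j), a p.1 * a p.2‖ ≤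
      (j.divisors.card : ℝ) * (A ^ 2 / √(j : ℝ)) := by
  have h1 : ∀ p ∈ (Icc 1 N ×ˢ Icc 1 N).filter (fun p : ℕ × ℕ => p.1 * p.2 = j),
      ‖a p.1 * a p.2‖ ≤ A ^ 2 / √(j : ℝ) := by
    intro p hp
    rw [Finset.mem_filter, Finset.mem_product, Finset.mem_Icc, Finset.mem_Icc] at hp
    rw [norm_mul]
    have ha1 := ha p.1 hp.1.1.1 hp.1.1.2
    have ha2 := ha p.2 hp.1.2.1 hp.1.2.2
    have e : √(j : ℝ) = √(p.1 : ℝ) * √(p.2 : ℝ) := by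
      rw [← Real.sqrt_mul (by positivity), ← hp.2]; push_cast; rfl
    rw [e]
    calc ‖a p.1‖ * ‖a p.2‖ ≤ (A / √(p.1 : ℝ)) * (A / √(p.2 : ℝ)) :=
          mul_le_mul ha1 ha2 (norm_nonneg _) (by positivity)
      _ = A ^ 2 / (√(p.1 : ℝ) * √(p.2 : ℝ)) := by rw [div_mul_div_comm, sq]
  calc ‖∑ p ∈ (Icc 1 N ×ˢ Icc 1 N).filter (fun p : ℕ × ℕ => p.1 * p.2 = j), a p.1 * a p.2‖
      ≤ ∑ p ∈ (Icc 1 N ×ˢ Icc 1 N).filter (fun p : ℕ × ℕ => p.1 * p.2 = j),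
          ‖a p.1 * a p.2‖ := norm_sum_le _ _
    _ ≤ ∑ _p ∈ (Icc 1 N ×ˢ Icc 1 N).filter (fun p : ℕ × ℕ => p.1 * p.2 = j),
          A ^ 2 / √(j : ℝ) := Finset.sum_le_sum h1
    _ = (((Icc 1 N ×ˢ Icc 1 N).filter (fun p : ℕ × ℕ => p.1 * p.2 = j)).card : ℝ) *
          (A ^ 2 / √(j : ℝ)) := by rw [Finset.sum_const, nsmul_eq_mul]
    _ ≤ (j.divisors.card : ℝ) * (A ^ 2 / √(j : ℝ)) := by
        apply mul_le_mul_of_nonneg_right _ (by positivity)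
        exact_mod_cast fourth_card N j hj

theorem fourth_jr [QlsHyp] (ε : ℝ) (hε : 0 < ε) : ∃ C : ℝ, 0 < C ∧ ∀ K N : ℕ, 1 ≤ K → 1 ≤ N →
    ∀ (A : ℝ) (a : ℕ → ℂ), 0 ≤ A → (∀ n : ℕ, 1 ≤ n → n ≤ N → ‖a n‖ ≤ A / √(n : ℝ)) →
    ∑ m ∈ Osf K, ‖∑ n ∈ Icc 1 N, a n * (jr n m : ℂ)‖ ^ 4 ≤
      C * ((K : ℝ) * N) ^ ε * (K + (N : ℝ) ^ 2) * A ^ 4 := by
  obtain ⟨C₁, hC₁, hm⟩ := mean2 (ε / 4) (by positivity)
  obtain ⟨C₂, hC₂, hd⟩ := divisor_bound (ε / 16) (by positivity)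
  refine ⟨C₁ * (C₂ ^ 2 * (1 + 1 / (ε / 16)) ^ 2), by positivity, ?_⟩
  intro K N hK hN A a hA ha
  have hK' : (1 : ℝ) ≤ K := by exact_mod_cast hK
  have hN' : (1 : ℝ) ≤ N := by exact_mod_cast hN
  set b : ℕ → ℂ := fun j => ∑ p ∈ (Icc 1 N ×ˢ Icc 1 N).filter
        (fun p : ℕ × ℕ => p.1 * p.2 = j), a p.1 * a p.2 with hb
  have e1 : ∑ m ∈ Osf K, ‖∑ n ∈ Icc 1 N, a n * (jr n m : ℂ)‖ ^ 4 =
      ∑ m ∈ Osf K, ‖∑ j ∈ Icc 1 (N ^ 2), b j * (jr j m : ℂ)‖ ^ 2 := by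
    apply Finset.sum_congr rfl
    intro m _
    rw [hb, ← fourth_sq_eq N a m, norm_pow, ← pow_mul]
  rw [e1]
  have h2 := hm K (N ^ 2) hK (Nat.one_le_pow _ _ hN) b
  refine h2.trans ?_
  -- the sum of the squares of the coefficients
  have hx1 : (1 : ℝ) ≤ (N : ℝ) ^ (ε / 4) := Real.one_le_rpow hN' (by positivity)
  have h3 : ∑ j ∈ Icc 1 (N ^ 2), ‖b j‖ ^ 2 * (sq2 j : ℝ) ≤
      C₂ ^ 2 * (N : ℝ) ^ (ε / 4) * A ^ 4 * ((1 + 1 / (ε / 16)) ^ 2 * (N : ℝ) ^ (ε / 4)) := by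
    have h4 : ∀ j ∈ Icc 1 (N ^ 2), ‖b j‖ ^ 2 * (sq2 j : ℝ) ≤
        C₂ ^ 2 * (N : ℝ) ^ (ε / 4) * A ^ 4 * ((sq2 j : ℝ) / j) := by
      intro j hj
      rw [Finset.mem_Icc] at hj
      have hj0 : (0 : ℝ) < j := by exact_mod_cast (by omega : 0 < j)
      have hb1 : ‖b j‖ ≤ (j.divisors.card : ℝ) * (A ^ 2 / √(j : ℝ)) :=
        fourth_bj N A hA a ha j hj.1
      have hd1 : (j.divisors.card : ℝ) ≤ C₂ * (N : ℝ) ^ (ε / 8) := by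
        refine (hd j (by omega)).trans ?_
        apply mul_le_mul_of_nonneg_left _ hC₂.le
        have : (j : ℝ) ≤ (N : ℝ) ^ (2 : ℝ) := by
          rw [Real.rpow_two]; exact_mod_cast hj.2
        calc (j : ℝ) ^ (ε / 16) ≤ ((N : ℝ) ^ (2 : ℝ)) ^ (ε / 16) :=
              Real.rpow_le_rpow hj0.le this (by positivity)
          _ = (N : ℝ) ^ (ε / 8) := by
              rw [← Real.rpow_mul (by positivity)]; congr 1; ring
      have hb2 : ‖b j‖ ≤ C₂ * (N : ℝ) ^ (ε / 8) * (A ^ 2 / √(j : ℝ)) :=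
        hb1.trans (mul_le_mul_of_nonneg_right hd1 (by positivity))
      have hb3 : ‖b j‖ ^ 2 ≤ C₂ ^ 2 * (N : ℝ) ^ (ε / 4) * A ^ 4 / j := by
        calc ‖b j‖ ^ 2 ≤ (C₂ * (N : ℝ) ^ (ε / 8) * (A ^ 2 / √(j : ℝ))) ^ 2 :=
              pow_le_pow_left₀ (norm_nonneg _) hb2 2
          _ = C₂ ^ 2 * ((N : ℝ) ^ (ε / 8)) ^ 2 * A ^ 4 / (√(j : ℝ)) ^ 2 := by
              rw [mul_pow, mul_pow, div_pow]; ring
          _ = C₂ ^ 2 * (N : ℝ) ^ (ε / 4) * A ^ 4 / j := by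
              have e3 : ((N : ℝ) ^ (ε / 8)) ^ 2 = (N : ℝ) ^ (ε / 4) := by
                rw [← Real.rpow_natCast, ← Real.rpow_mul (by positivity)]
                congr 1
                push_cast; ring
              rw [Real.sq_sqrt hj0.le, e3]
      calc ‖b j‖ ^ 2 * (sq2 j : ℝ) ≤ C₂ ^ 2 * (N : ℝ) ^ (ε / 4) * A ^ 4 / j * (sq2 j : ℝ) :=
            mul_le_mul_of_nonneg_right hb3 (by positivity)
        _ = C₂ ^ 2 * (N : ℝ) ^ (ε / 4) * A ^ 4 * ((sq2 j : ℝ) / j) := by ring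
    have h5 : ∑ j ∈ Icc 1 (N ^ 2), (sq2 j : ℝ) / j ≤
        (1 + 1 / (ε / 16)) ^ 2 * (N : ℝ) ^ (ε / 4) := by
      refine (fourth_sq2 (N ^ 2)).trans ?_
      have h6 := fourth_harm (N ^ 2) (Nat.one_le_pow _ _ hN) (ε / 16) (by positivity)
      calc (∑ c ∈ Icc 1 (N ^ 2), (1 : ℝ) / c) ^ 2
          ≤ ((1 + 1 / (ε / 16)) * ((N ^ 2 : ℕ) : ℝ) ^ (ε / 16)) ^ 2 :=
            pow_le_pow_left₀ (Finset.sum_nonneg fun _ _ => by positivity) h6 2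
        _ = (1 + 1 / (ε / 16)) ^ 2 * (N : ℝ) ^ (ε / 4) := by
            rw [mul_pow]
            congr 1
            rw [Nat.cast_pow, ← Real.rpow_natCast (N : ℝ) 2, ← Real.rpow_mul (by positivity),
              ← Real.rpow_natCast, ← Real.rpow_mul (by positivity)]
            congr 1
            push_cast; ring
    calc ∑ j ∈ Icc 1 (N ^ 2), ‖b j‖ ^ 2 * (sq2 j : ℝ)
        ≤ ∑ j ∈ Icc 1 (N ^ 2), C₂ ^ 2 * (N : ℝ) ^ (ε / 4) * A ^ 4 * ((sq2 j : ℝ) / j) :=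
          Finset.sum_le_sum h4
      _ = C₂ ^ 2 * (N : ℝ) ^ (ε / 4) * A ^ 4 * ∑ j ∈ Icc 1 (N ^ 2), (sq2 j : ℝ) / j := by
          rw [Finset.mul_sum]
      _ ≤ _ := mul_le_mul_of_nonneg_left h5 (by positivity)
  have h7 : ((K : ℝ) * ((N ^ 2 : ℕ) : ℝ)) ^ (ε / 4) * ((N : ℝ) ^ (ε / 4) * (N : ℝ) ^ (ε / 4)) ≤
      ((K : ℝ) * N) ^ ε := by
    have e2 : ((K : ℝ) * ((N ^ 2 : ℕ) : ℝ)) ^ (ε / 4) =
        (K : ℝ) ^ (ε / 4) * (N : ℝ) ^ (ε / 2) := by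
      rw [Real.mul_rpow (by positivity) (by positivity), Nat.cast_pow,
        ← Real.rpow_natCast (N : ℝ) 2, ← Real.rpow_mul (by positivity)]
      congr 2
      push_cast; ring
    rw [e2, Real.mul_rpow (by positivity) (by positivity), mul_assoc]
    apply mul_le_mul
    · exact Real.rpow_le_rpow_of_exponent_le hK' (by linarith)
    · rw [← Real.rpow_add (by positivity), ← Real.rpow_add (by positivity)]
      apply le_of_eq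
      congr 1
      ring
    · positivity
    · positivity
  have hNc : ((N ^ 2 : ℕ) : ℝ) = (N : ℝ) ^ 2 := by push_cast; rfl
  calc C₁ * ((K : ℝ) * ((N ^ 2 : ℕ) : ℝ)) ^ (ε / 4) * (K + ((N ^ 2 : ℕ) : ℝ)) *
        ∑ j ∈ Icc 1 (N ^ 2), ‖b j‖ ^ 2 * (sq2 j : ℝ)
      ≤ C₁ * ((K : ℝ) * ((N ^ 2 : ℕ) : ℝ)) ^ (ε / 4) * (K + ((N ^ 2 : ℕ) : ℝ)) *
        (C₂ ^ 2 * (N : ℝ) ^ (ε / 4) * A ^ 4 * ((1 + 1 / (ε / 16)) ^ 2 * (N : ℝ) ^ (ε / 4))) :=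
        mul_le_mul_of_nonneg_left h3 (by positivity)
    _ = C₁ * (C₂ ^ 2 * (1 + 1 / (ε / 16)) ^ 2) * (((K : ℝ) * ((N ^ 2 : ℕ) : ℝ)) ^ (ε / 4) *
          ((N : ℝ) ^ (ε / 4) * (N : ℝ) ^ (ε / 4))) * (K + ((N ^ 2 : ℕ) : ℝ)) * A ^ 4 := by ring
    _ ≤ C₁ * (C₂ ^ 2 * (1 + 1 / (ε / 16)) ^ 2) * ((K : ℝ) * N) ^ ε *
          (K + ((N ^ 2 : ℕ) : ℝ)) * A ^ 4 := by
        gcongr
    _ = C₁ * (C₂ ^ 2 * (1 + 1 / (ε / 16)) ^ 2) * ((K : ℝ) * N) ^ ε *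
          (K + (N : ℝ) ^ 2) * A ^ 4 := by rw [hNc]

end Pool.Agent.MP0016c7.Rz
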