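import Mathlib
import Pool.Agent.Lib.MP_0016c7_nt.Rz.Defs

set_option autoImplicit false

/-!
Reciprocity (D7).
-/

open Finset MeasureTheory Filter Topology
open scoped Real ContDiff

namespace Pool.Agent.MP0016c7.Rz

/-- the character attached to `u` -/
private def rcA (u : ℤ) (b : ZMod 8) : ℤ :=
  if u = -1 then ZMod.χ₄ (b.val : ZMod 4) else if u = 2 then ZMod.χ₈ b
    else if u = -2 then ZMod.χ₈' b else if b.val % 2 = 1 then 1 else 0

/-- the reciprocity sign -/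
private def rcB (κ : ℕ) (b : ZMod 8) : ℤ :=
  if κ = 3 then ZMod.χ₄ (b.val : ZMod 4) else 1

private theorem rcA_abs (u : ℤ) (b : ZMod 8) : |rcA u b| ≤ 1 := by
  unfold rcA
  have h1 : ∀ b : ZMod 8, |ZMod.χ₄ (b.val : ZMod 4)| ≤ 1 := by decide
  have h2 : ∀ b : ZMod 8, |ZMod.χ₈ b| ≤ 1 := by decide
  have h3 : ∀ b : ZMod 8, |ZMod.χ₈' b| ≤ 1 := by decide
  split_ifs
  · exact h1 b
  · exact h2 b
  · exact h3 b
  · norm_num
  · norm_num

private theorem rcB_abs (κ : ℕ) (b : ZMod 8) : |rcB κ b| ≤ 1 := by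
  unfold rcB
  have h1 : ∀ b : ZMod 8, |ZMod.χ₄ (b.val : ZMod 4)| ≤ 1 := by decide
  split_ifs
  · exact h1 b
  · norm_num

private theorem rc_cast (n : ℕ) : (((n : ZMod 8)).val : ZMod 4) = (n : ZMod 4) := by
  rw [ZMod.val_natCast]
  have h : n % 8 % 4 = n % 4 := Nat.mod_mod_of_dvd n (by norm_num)
  rw [← ZMod.natCast_mod (n % 8) 4, h, ZMod.natCast_mod]

private theorem rcA_even (u : ℤ) (n : ℕ) (hn : ¬ Odd n) : rcA u (n : ZMod 8) = 0 := by
  unfold rcA
  have h0 : ∀ b : ZMod 8, b.val % 2 = 0 →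
      (ZMod.χ₄ (b.val : ZMod 4) = 0 ∧ ZMod.χ₈ b = 0 ∧ ZMod.χ₈' b = 0) := by decide
  have hv : ((n : ZMod 8)).val % 2 = 0 := by
    rw [ZMod.val_natCast, Nat.mod_mod_of_dvd n (by norm_num)]
    rw [Nat.not_odd_iff_even] at hn
    exact Nat.even_iff.1 hn
  obtain ⟨e1, e2, e3⟩ := h0 _ hv
  split_ifs
  · exact e1
  · exact e2
  · exact e3
  · omega
  · rfl

private theorem rcA_odd (u : ℤ) (hu : u = 1 ∨ u = -1 ∨ u = 2 ∨ u = -2) (n : ℕ) (hn : Odd n) :
    jacobiSym u n = rcA u (n : ZMod 8) := by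
  have hv : ((n : ZMod 8)).val % 2 = 1 := by
    rw [ZMod.val_natCast, Nat.mod_mod_of_dvd n (by norm_num)]
    exact Nat.odd_iff.1 hn
  rcases hu with rfl | rfl | rfl | rfl
  · rw [jacobiSym.one_left]
    unfold rcA
    rw [if_neg (by norm_num), if_neg (by norm_num), if_neg (by norm_num), if_pos hv]
  · rw [jacobiSym.at_neg_one hn]
    unfold rcA
    rw [if_pos rfl, rc_cast]
  · rw [jacobiSym.at_two hn]
    unfold rcA
    rw [if_neg (by norm_num), if_pos rfl]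
  · rw [jacobiSym.at_neg_two hn]
    unfold rcA
    rw [if_neg (by norm_num), if_neg (by norm_num), if_pos rfl]

private theorem rcB_odd (m n : ℕ) (hm : Odd m) (hn : Odd n) :
    jacobiSym m n = rcB (m % 4) (n : ZMod 8) * jacobiSym n m := by
  unfold rcB
  rcases Nat.odd_mod_four_iff.1 (Nat.odd_iff.1 hm) with h | h
  · rw [if_neg (by omega), one_mul]
    exact jacobiSym.quadratic_reciprocity_one_mod_four h hn
  · rw [if_pos h, rc_cast]
    rcases Nat.odd_mod_four_iff.1 (Nat.odd_iff.1 hn) with h' | h'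
    · rw [ZMod.χ₄_nat_one_mod_four h', one_mul]
      exact jacobiSym.quadratic_reciprocity_one_mod_four' hm h'
    · rw [ZMod.χ₄_nat_three_mod_four h', neg_one_mul]
      exact jacobiSym.quadratic_reciprocity_three_mod_four h h'

theorem jr_recip : ∃ ψ : ℤ → ℕ → ZMod 8 → ℝ, (∀ u κ b, |ψ u κ b| ≤ 1) ∧
    (∀ u : ℤ, (u = -1 ∨ u = 2 ∨ u = -2) → ∑ b : ZMod 8, ψ u 1 b = 0) ∧
    ∀ u : ℤ, (u = 1 ∨ u = -1 ∨ u = 2 ∨ u = -2) → ∀ m n : ℕ, Odd m → 0 < n →
      jr (u * m) n = ψ u (m % 4) (n : ZMod 8) * jr n m := by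
  refine ⟨fun u κ b => ((rcA u b * rcB κ b : ℤ) : ℝ), ?_, ?_, ?_⟩
  · intro u κ b
    have h : |rcA u b * rcB κ b| ≤ 1 := by
      rw [abs_mul]
      exact mul_le_one₀ (rcA_abs u b) (abs_nonneg _) (rcB_abs κ b)
    beta_reduce
    exact_mod_cast h
  · intro u hu
    have h1 : ∀ b : ZMod 8, rcB 1 b = 1 := fun b => by
      unfold rcB
      rw [if_neg (by norm_num)]
    simp only [h1, mul_one]
    rw [← Int.cast_sum]
    rw [Int.cast_eq_zero]
    rcases hu with rfl | rfl | rfl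
    · decide
    · decide
    · decide
  · intro u hu m n hm _
    beta_reduce
    by_cases hn : Odd n
    · unfold jr
      rw [if_pos hn, if_pos hm, jacobiSym.mul_left, rcA_odd u hu n hn, rcB_odd m n hm hn]
      push_cast
      ring
    · unfold jr
      rw [if_neg hn, rcA_even u n hn]
      simp

end Pool.Agent.MP0016c7.Rz
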