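import Mathlib
import Pool.Agent.Lib.MP_0016c7_nt.Rz.Defs
import Pool.Agent.Lib.MP_0016c7_nt.Rz2.QDefs
import Pool.Agent.Lib.MP_0016c7_nt.Rz2.Fourth
import Pool.Agent.Lib.MP_0016c7_nt.Rz2.Recip

set_option autoImplicit false

/-!
Fourth moments of character sums, upper entry (D8).
-/

open Finset MeasureTheory Filter Topology
open scoped Real ContDiff

namespace Pool.Agent.MP0016c7.Rz

theorem fourth_jr' [QlsHyp] (ε : ℝ) (hε : 0 < ε) : ∃ C : ℝ, 0 < C ∧ ∀ K N : ℕ, 1 ≤ K → 1 ≤ N →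
    ∀ (A : ℝ) (a : ℕ → ℂ), 0 ≤ A → (∀ n : ℕ, 1 ≤ n → n ≤ N → ‖a n‖ ≤ A / √(n : ℝ)) →
    ∀ u : ℤ, (u = 1 ∨ u = -1 ∨ u = 2 ∨ u = -2) →
    ∑ m ∈ Osf K, ‖∑ n ∈ Icc 1 N, a n * (jr (u * m) n : ℂ)‖ ^ 4 ≤
      C * ((K : ℝ) * N) ^ ε * (K + (N : ℝ) ^ 2) * A ^ 4 := by
  obtain ⟨C, hC, hf⟩ := fourth_jr ε hε
  obtain ⟨ψ, hψ, -, hr⟩ := jr_recip
  refine ⟨2 * C, by positivity, ?_⟩
  intro K N hK hN A a hA ha u hu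
  -- the coefficients for a class modulo 4
  have hco : ∀ κ : ℕ, ∀ n : ℕ, 1 ≤ n → n ≤ N →
      ‖a n * (ψ u κ (n : ZMod 8) : ℂ)‖ ≤ A / √(n : ℝ) := by
    intro κ n h1 h2
    rw [norm_mul, Complex.norm_real, Real.norm_eq_abs]
    calc ‖a n‖ * |ψ u κ (n : ZMod 8)| ≤ ‖a n‖ * 1 :=
          mul_le_mul_of_nonneg_left (hψ _ _ _) (norm_nonneg _)
      _ = ‖a n‖ := mul_one _
      _ ≤ _ := ha n h1 h2
  have hk : ∀ κ : ℕ, ∑ m ∈ Osf K, ‖∑ n ∈ Icc 1 N, a n * (ψ u κ (n : ZMod 8) : ℂ) *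
      (jr n m : ℂ)‖ ^ 4 ≤ C * ((K : ℝ) * N) ^ ε * (K + (N : ℝ) ^ 2) * A ^ 4 := by
    intro κ
    exact hf K N hK hN A (fun n => a n * (ψ u κ (n : ZMod 8) : ℂ)) hA (hco κ)
  have hm : ∀ m ∈ Osf K, ‖∑ n ∈ Icc 1 N, a n * (jr (u * m) n : ℂ)‖ ^ 4 ≤
      ‖∑ n ∈ Icc 1 N, a n * (ψ u 1 (n : ZMod 8) : ℂ) * (jr n m : ℂ)‖ ^ 4 +
      ‖∑ n ∈ Icc 1 N, a n * (ψ u 3 (n : ZMod 8) : ℂ) * (jr n m : ℂ)‖ ^ 4 := by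
    intro m hm
    have hodd : Odd m := by
      unfold Osf at hm
      exact (Finset.mem_filter.mp hm).2.1
    have e : ∑ n ∈ Icc 1 N, a n * (jr (u * m) n : ℂ) =
        ∑ n ∈ Icc 1 N, a n * (ψ u (m % 4) (n : ZMod 8) : ℂ) * (jr n m : ℂ) := by
      apply Finset.sum_congr rfl
      intro n hn
      rw [Finset.mem_Icc] at hn
      rw [hr u hu m n hodd (by omega)]
      push_cast
      ring
    rw [e]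
    have h4 : m % 4 = 1 ∨ m % 4 = 3 := by
      rcases hodd with ⟨k, rfl⟩
      omega
    rcases h4 with h | h
    · rw [h]
      exact le_add_of_nonneg_right (by positivity)
    · rw [h]
      exact le_add_of_nonneg_left (by positivity)
  calc ∑ m ∈ Osf K, ‖∑ n ∈ Icc 1 N, a n * (jr (u * m) n : ℂ)‖ ^ 4
      ≤ ∑ m ∈ Osf K, (‖∑ n ∈ Icc 1 N, a n * (ψ u 1 (n : ZMod 8) : ℂ) * (jr n m : ℂ)‖ ^ 4 +
      ‖∑ n ∈ Icc 1 N, a n * (ψ u 3 (n : ZMod 8) : ℂ) * (jr n m : ℂ)‖ ^ 4) :=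
        Finset.sum_le_sum hm
    _ = ∑ m ∈ Osf K, ‖∑ n ∈ Icc 1 N, a n * (ψ u 1 (n : ZMod 8) : ℂ) * (jr n m : ℂ)‖ ^ 4 +
      ∑ m ∈ Osf K, ‖∑ n ∈ Icc 1 N, a n * (ψ u 3 (n : ZMod 8) : ℂ) * (jr n m : ℂ)‖ ^ 4 :=
        Finset.sum_add_distrib
    _ ≤ C * ((K : ℝ) * N) ^ ε * (K + (N : ℝ) ^ 2) * A ^ 4 +
        C * ((K : ℝ) * N) ^ ε * (K + (N : ℝ) ^ 2) * A ^ 4 := add_le_add (hk 1) (hk 3)
    _ = 2 * C * ((K : ℝ) * N) ^ ε * (K + (N : ℝ) ^ 2) * A ^ 4 := by ring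

end Pool.Agent.MP0016c7.Rz
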