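import Mathlib
import Pool.Agent.Lib.MP_0016c7_nt.Rz.Defs

set_option autoImplicit false

/-!
Decay of Fourier transforms (D10).
-/

open Finset MeasureTheory Filter Topology
open scoped Real ContDiff FourierTransform

namespace Pool.Agent.MP0016c7.Rz

private lemma fd_zero (V : ℝ → ℂ) (hs : ∀ t, V t ≠ 0 → 1 / 2 < t ∧ t < 2) (n : ℕ) (t : ℝ)
    (ht : t ∉ Set.Icc (1 / 2 : ℝ) 2) : iteratedDeriv n V t = 0 := by
  by_contra h
  have h1 : t ∈ Function.support (iteratedFDeriv ℝ n V) := by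
    rw [Function.mem_support]
    intro h2
    apply h
    rw [iteratedDeriv_eq_iteratedFDeriv, h2]
    rfl
  have h2 := support_iteratedFDeriv_subset (𝕜 := ℝ) n h1
  apply ht
  refine closure_minimal ?_ isClosed_Icc h2
  intro s hs'
  exact ⟨(hs s hs').1.le, (hs s hs').2.le⟩

theorem fourier_decay (B : ℕ) : ∃ C : ℝ, 0 < C ∧ ∀ (V : ℝ → ℂ) (R : ℝ), ContDiff ℝ ∞ V →
    (∀ t, V t ≠ 0 → 1 / 2 < t ∧ t < 2) → (∀ j ≤ B, ∀ t, ‖iteratedDeriv j V t‖ ≤ R) → ∀ y : ℝ,
    ‖∫ t : ℝ, V t * Complex.exp (-(2 * π * Complex.I * (y * t)))‖ * |y| ^ B ≤ C * R := by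
  refine ⟨2, two_pos, fun V R hV hs hR y => ?_⟩
  have hR0 : 0 ≤ R := (norm_nonneg _).trans (hR B le_rfl 0)
  have hcont : ∀ n : ℕ, Continuous (iteratedDeriv n V) := fun n =>
    hV.continuous_iteratedDeriv n (by exact_mod_cast le_top)
  have hcs : ∀ n : ℕ, HasCompactSupport (iteratedDeriv n V) := fun n =>
    HasCompactSupport.intro isCompact_Icc (fun t ht => fd_zero V hs n t ht)
  have hint : ∀ n : ℕ, Integrable (iteratedDeriv n V) := fun n =>
    (hcont n).integrable_of_hasCompactSupport (hcs n)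
  have hF := Real.fourier_iteratedDeriv (f := V) (N := ⊤) (n := B) (by exact_mod_cast hV)
    (fun n _ => hint n) le_top
  have hF' := congrFun hF y
  have e1 : (𝓕 V : ℝ → ℂ) y = ∫ t : ℝ, V t * Complex.exp (-(2 * π * Complex.I * (y * t))) := by
    rw [Real.fourier_eq']
    refine integral_congr_ae (Filter.Eventually.of_forall fun t => ?_)
    simp only [RCLike.inner_apply, conj_trivial, smul_eq_mul]
    rw [mul_comm]
    congr 2
    push_cast
    ring
  have e2 : ‖(𝓕 (iteratedDeriv B V) : ℝ → ℂ) y‖ ≤ 2 * R := by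
    rw [Real.fourier_eq']
    refine (norm_integral_le_integral_norm _).trans ?_
    have h1 : ∀ t : ℝ, ‖Complex.exp (↑(-2 * π * inner ℝ t y) * Complex.I) • iteratedDeriv B V t‖
        ≤ Set.indicator (Set.Icc (1 / 2 : ℝ) 2) (fun _ => R) t := by
      intro t
      rw [norm_smul, Complex.norm_exp_ofReal_mul_I, one_mul]
      by_cases ht : t ∈ Set.Icc (1 / 2 : ℝ) 2
      · rw [Set.indicator_of_mem ht]
        exact hR B le_rfl t
      · rw [Set.indicator_of_notMem ht, fd_zero V hs B t ht, norm_zero]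
    refine (integral_mono_of_nonneg (Filter.Eventually.of_forall fun t => norm_nonneg _) ?_
      (Filter.Eventually.of_forall h1)).trans ?_
    · exact (integrable_indicator_iff measurableSet_Icc).2
        (by simp)
    · rw [integral_indicator measurableSet_Icc, setIntegral_const, measureReal_def,
        Real.volume_Icc, ENNReal.toReal_ofReal (by norm_num), smul_eq_mul]
      nlinarith
  rw [hF'] at e2
  rw [e1, norm_smul, norm_pow] at e2
  have e3 : ‖(2 * π * Complex.I * y : ℂ)‖ = 2 * π * |y| := by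
    simp [abs_of_pos Real.pi_pos]
  rw [e3, mul_pow] at e2
  have e4 : 1 ≤ (2 * π) ^ B := one_le_pow₀ (by nlinarith [Real.pi_gt_three])
  have e5 : 0 ≤ |y| ^ B := by positivity
  set N := ‖∫ t : ℝ, V t * Complex.exp (-(2 * π * Complex.I * (y * t)))‖ with hN
  have hN0 : 0 ≤ N := norm_nonneg _
  calc N * |y| ^ B ≤ (2 * π) ^ B * (N * |y| ^ B) := by
        nlinarith [mul_nonneg hN0 e5]
    _ = (2 * π) ^ B * |y| ^ B * N := by ring
    _ ≤ 2 * R := e2

end Pool.Agent.MP0016c7.Rz
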