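import Mathlib
import Pool.Agent.Lib.MP_0016c7_nt.Theta
import Pool.Agent.Lib.MP_0016c7_nt.Rz.Defs
import Pool.Agent.Lib.MP_0016c7_nt.Rz.Gauss1
import Pool.Agent.Lib.MP_0016c7_nt.Rz2.QDefs

set_option autoImplicit false

/-!
Poisson summation with a function mod 8 and a Jacobi symbol (D9).
-/

open Finset MeasureTheory Filter Topology
open scoped Real ContDiff

namespace Pool.Agent.MP0016c7.Rz

open scoped FourierTransform SchwartzMap in
private lemma p8_summ (φ : 𝓢(ℝ, ℂ)) {c : ℝ} (hc : 0 < c) :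
    Summable (fun k : ℤ => ‖φ ((k : ℝ) * c)‖) := by
  obtain ⟨C, hC0, hC⟩ := φ.decay 2 0
  have h1 : Summable (fun k : ℤ => C / c ^ 2 * (1 / (k : ℝ) ^ 2)) :=
    (Real.summable_one_div_int_pow.mpr (by norm_num)).mul_left _
  refine Summable.of_norm_bounded_eventually h1 ?_
  have h2 : ({0} : Set ℤ).Finite := Set.finite_singleton 0
  filter_upwards [h2.compl_mem_cofinite] with k hk
  have hk0 : (k : ℝ) ≠ 0 := by
    simp at hk
    exact_mod_cast hk
  have h3 := hC ((k : ℝ) * c)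
  rw [norm_iteratedFDeriv_zero] at h3
  have h4 : ‖(k : ℝ) * c‖ ^ 2 = (k : ℝ) ^ 2 * c ^ 2 := by
    rw [Real.norm_eq_abs, sq_abs]; ring
  rw [h4] at h3
  have h5 : 0 < (k : ℝ) ^ 2 * c ^ 2 := by positivity
  rw [div_mul_div_comm, le_div_iff₀ (by positivity), norm_norm]
  nlinarith

open scoped FourierTransform SchwartzMap in
private lemma p8_poisson (M : ℕ) [NeZero M] (φ : ZMod M → ℂ) (g : 𝓢(ℝ, ℂ)) :
    ∑' n : ℤ, φ (n : ZMod M) * g n =
      ∑' k : ℤ, (1 / (M : ℂ)) * 𝓕 (g : ℝ → ℂ) ((k : ℝ) / M) *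
        ∑ j : ZMod M, φ j * Complex.exp (2 * π * Complex.I * ((j.val : ℂ) * k / M)) := by
  have hM0 : (M : ℝ) ≠ 0 := by exact_mod_cast NeZero.ne M
  have hMp : (0 : ℝ) < M := by exact_mod_cast NeZero.pos M
  have hMc : (M : ℂ) ≠ 0 := by exact_mod_cast NeZero.ne M
  set e : ℝ ≃L[ℝ] ℝ := ContinuousLinearEquiv.unitsEquivAut ℝ (Units.mk0 (M : ℝ) hM0) with he
  set f : 𝓢(ℝ, ℂ) := SchwartzMap.compCLMOfContinuousLinearEquiv ℂ e g with hf
  have hfv : ∀ t : ℝ, f t = g ((M : ℝ) * t) := by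
    intro t
    rw [hf, SchwartzMap.compCLMOfContinuousLinearEquiv_apply, he]
    simp [mul_comm]
  have hft : ∀ k : ℤ, 𝓕 (f : ℝ → ℂ) (k : ℝ) = (1 / (M : ℂ)) * 𝓕 (g : ℝ → ℂ) ((k : ℝ) / M) := by
    intro k
    rw [Real.fourier_real_eq_integral_exp_smul, Real.fourier_real_eq_integral_exp_smul]
    have h3 := Measure.integral_comp_mul_left
      (fun t : ℝ => Complex.exp (((-2 * π * t * ((k : ℝ) / M) : ℝ) : ℂ) * Complex.I) • g t) (M : ℝ)
    have h4 : (fun v : ℝ => Complex.exp (((-2 * π * v * (k : ℝ) : ℝ) : ℂ) * Complex.I) • f v) =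
        fun x : ℝ => Complex.exp (((-2 * π * ((M : ℝ) * x) * ((k : ℝ) / M) : ℝ) : ℂ) * Complex.I) •
          g ((M : ℝ) * x) := by
      ext v
      rw [hfv]
      congr 4
      field_simp
    rw [h4, h3, abs_of_pos (by positivity), Complex.real_smul]
    push_cast
    ring
  have hg1 : Summable (fun n : ℤ => g (n : ℝ)) := by
    have := p8_summ g (c := 1) one_pos
    simp only [mul_one] at this
    exact this.of_norm
  have hres : ∀ j : ZMod M, HasSum (fun m : ℤ => g (((M * m + j.val : ℤ) : ℝ)))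
      (∑' k : ℤ, (1 / (M : ℂ)) * 𝓕 (g : ℝ → ℂ) ((k : ℝ) / M) *
        Complex.exp (2 * π * Complex.I * ((j.val : ℂ) * k / M))) := by
    intro j
    have hinj : Function.Injective (fun m : ℤ => (M : ℤ) * m + (j.val : ℤ)) := by
      intro x y hxy
      have hq : (M : ℤ) ≠ 0 := by exact_mod_cast (NeZero.ne M)
      have hab' : (M : ℤ) * x = (M : ℤ) * y := by
        have := hxy
        simp only at this
        linarith
      exact mul_left_cancel₀ hq hab'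
    have h1 : Summable (fun m : ℤ => g (((M * m + j.val : ℤ) : ℝ))) := hg1.comp_injective hinj
    have h2 := SchwartzMap.tsum_eq_tsum_fourier f ((j.val : ℝ) / M)
    have h3 : (fun m : ℤ => g (((M * m + j.val : ℤ) : ℝ))) =
        fun m : ℤ => f ((j.val : ℝ) / M + m) := by
      ext m
      rw [hfv]
      congr 1
      push_cast
      field_simp
      ring
    have h4 : (∑' k : ℤ, (1 / (M : ℂ)) * 𝓕 (g : ℝ → ℂ) ((k : ℝ) / M) *
        Complex.exp (2 * π * Complex.I * ((j.val : ℂ) * k / M))) =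
        ∑' m : ℤ, g (((M * m + j.val : ℤ) : ℝ)) := by
      rw [h3, h2]
      refine tsum_congr fun k => ?_
      rw [fourier_coe_apply, SchwartzMap.fourier_coe, hft]
      congr 2
      push_cast
      field_simp
    rw [h4]
    exact h1.hasSum
  have h5 := hasSum_int_residue φ (fun n : ℤ => g (n : ℝ)) _ hres
  rw [h5.tsum_eq]
  have hgs : Summable (fun k : ℤ => (1 / (M : ℂ)) * 𝓕 (g : ℝ → ℂ) ((k : ℝ) / M)) := by
    have h6 := (p8_summ (𝓕 g) (c := 1 / (M : ℝ)) (by positivity)).of_norm.mul_left (1 / (M : ℂ))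
    refine h6.congr fun k => ?_
    rw [SchwartzMap.fourier_coe, mul_one_div]
  have sTe : ∀ j : ZMod M, Summable (fun k : ℤ => φ j *
      ((1 / (M : ℂ)) * 𝓕 (g : ℝ → ℂ) ((k : ℝ) / M) *
        Complex.exp (2 * π * Complex.I * ((j.val : ℂ) * k / M)))) := by
    intro j
    refine Summable.mul_left _ ?_
    refine Summable.of_norm_bounded hgs.norm ?_
    intro k
    have h1 : (2 * π * Complex.I * ((j.val : ℂ) * k / M)) =
        ((2 * π * ((j.val : ℝ) * k / M) : ℝ) : ℂ) * Complex.I := by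
      push_cast
      ring
    rw [norm_mul, h1, Complex.norm_exp_ofReal_mul_I, mul_one]
  simp_rw [← tsum_mul_left]
  rw [← Summable.tsum_finsetSum (fun j _ => sTe j)]
  refine tsum_congr fun k => ?_
  rw [Finset.mul_sum]
  refine Finset.sum_congr rfl fun j _ => ?_
  ring

private lemma p8_sum_zmod (N : ℕ) [NeZero N] (h : ℕ → ℂ) :
    ∑ j : ZMod N, h j.val = ∑ b ∈ range N, h b := by
  refine Finset.sum_nbij (fun j => j.val) ?_ ?_ ?_ ?_
  · intro j _
    exact mem_range.mpr (ZMod.val_lt j)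
  · intro x _ y _ hxy
    exact ZMod.val_injective N hxy
  · intro b hb
    have hb' : b < N := by simpa using hb
    exact ⟨(b : ZMod N), by simp, ZMod.val_cast_of_lt hb'⟩
  · intro j _
    rfl

private lemma p8_jr_left (a b : ℤ) (m : ℕ) : jr (a * b) m = jr a m * jr b m := by
  unfold jr
  split_ifs with h
  · rw [jacobiSym.mul_left]
    push_cast
    ring
  · simp

private lemma p8_jr_mod {a b : ℤ} {m : ℕ} (h : a ≡ b [ZMOD m]) : jr a m = jr b m := by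
  unfold jr
  split_ifs with hm
  · rw [jacobiSym.mod_left' h]
  · rfl

private lemma p8_exp_add (M : ℕ) (hM : M ≠ 0) (x y : ℤ) (k : ℤ) (h : x ≡ y [ZMOD M]) :
    Complex.exp (2 * π * Complex.I * (x * k / M)) =
      Complex.exp (2 * π * Complex.I * (y * k / M)) := by
  obtain ⟨q, hq⟩ := (Int.modEq_iff_dvd).1 h
  have hy : (y : ℂ) = x + M * q := by
    have : y = x + M * q := by linarith
    rw [this]
    push_cast
    ring
  have hMc : (M : ℂ) ≠ 0 := by exact_mod_cast hM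
  have e : 2 * π * Complex.I * (y * k / M) =
      2 * π * Complex.I * (x * k / M) + ((q * k : ℤ) : ℂ) * (2 * π * Complex.I) := by
    rw [hy]
    push_cast
    field_simp
  rw [e, Complex.exp_add, Complex.exp_int_mul_two_pi_mul_I, mul_one]

/-- The finite sum mod 8. -/
private noncomputable def p8S (ψ : ZMod 8 → ℂ) (κ h : ZMod 8) : ℂ :=
  ∑ b ∈ range 8, ψ (κ * (b : ZMod 8)) * Complex.exp (2 * π * Complex.I * ((b : ℂ) * (h.val : ℂ) / 8))

private lemma p8_gauss (ψ : ZMod 8 → ℂ) (N : ℕ) (hN : Odd N) (hs : Squarefree N) (k : ℤ) :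
    ∑ b ∈ range (8 * N), (ψ (b : ZMod 8) * (jr b N : ℂ)) *
      Complex.exp (2 * π * Complex.I * ((b : ℂ) * k / ((8 * N : ℕ) : ℂ))) =
      (jr k N : ℂ) * (√(N : ℝ) : ℂ) *
        (((ZMod.χ₈ (N : ZMod 8) : ℤ) : ℂ) * (if N % 4 = 1 then 1 else Complex.I) *
          p8S ψ (N : ZMod 8) (k : ZMod 8)) := by
  have hn0 : N ≠ 0 := hN.pos.ne'
  have hnc : (N : ℂ) ≠ 0 := by exact_mod_cast hn0
  have hc : Nat.Coprime 8 N := by
    have : Nat.Coprime (2 ^ 3) N := Nat.Coprime.pow_left 3 (by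
      rw [Nat.coprime_two_left]; exact hN)
    simpa using this
  have hinj : Set.InjOn (fun q : ℕ × ℕ => (N * q.1 + 8 * q.2) % (8 * N))
      ((range 8 ×ˢ range N : Finset (ℕ × ℕ)) : Set (ℕ × ℕ)) := by
    rintro ⟨a, b⟩ hab ⟨a', b'⟩ hab' h
    simp only [coe_product, coe_range, Set.mem_prod, Set.mem_Iio] at hab hab'
    have h0 : N * a + 8 * b ≡ N * a' + 8 * b' [MOD 8 * N] := h
    have h1 : N * a ≡ N * a' [MOD 8] := by
      have h2 := h0.of_mul_right N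
      have h3 : N * a + 8 * b ≡ N * a [MOD 8] := by
        simp [Nat.ModEq]
      have h4 : N * a' + 8 * b' ≡ N * a' [MOD 8] := by
        simp [Nat.ModEq]
      exact h3.symm.trans (h2.trans h4)
    have h2 : 8 * b ≡ 8 * b' [MOD N] := by
      have h2 := h0.of_mul_left 8
      have h3 : N * a + 8 * b ≡ 8 * b [MOD N] := by
        simp [Nat.ModEq]
      have h4 : N * a' + 8 * b' ≡ 8 * b' [MOD N] := by
        simp [Nat.ModEq]
      exact h3.symm.trans (h2.trans h4)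
    have h3 : a ≡ a' [MOD 8] := Nat.ModEq.cancel_left_of_coprime (by exact hc) h1
    have h4 : b ≡ b' [MOD N] := Nat.ModEq.cancel_left_of_coprime (by exact hc.symm) h2
    rw [Prod.mk.injEq]
    exact ⟨h3.eq_of_lt_of_lt hab.1 hab'.1, h4.eq_of_lt_of_lt hab.2 hab'.2⟩
  have hmaps : ∀ q ∈ range 8 ×ˢ range N, (N * q.1 + 8 * q.2) % (8 * N) ∈ range (8 * N) := by
    intro q _
    exact mem_range.2 (Nat.mod_lt _ (by omega))
  have hsurj : Set.SurjOn (fun q : ℕ × ℕ => (N * q.1 + 8 * q.2) % (8 * N))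
      ((range 8 ×ˢ range N : Finset (ℕ × ℕ)) : Set (ℕ × ℕ)) (range (8 * N) : Finset ℕ) :=
    Finset.surjOn_of_injOn_of_card_le _ (fun q hq => by exact_mod_cast hmaps q (by exact_mod_cast hq)) hinj (by simp)
  have hsum : ∑ b ∈ range (8 * N), (ψ (b : ZMod 8) * (jr b N : ℂ)) *
      Complex.exp (2 * π * Complex.I * ((b : ℂ) * k / ((8 * N : ℕ) : ℂ))) =
      ∑ q ∈ range 8 ×ˢ range N,
      (ψ ((N * q.1 + 8 * q.2 : ℕ) : ZMod 8) * (jr ((N * q.1 + 8 * q.2 : ℕ) : ℤ) N : ℂ)) *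
        Complex.exp (2 * π * Complex.I * (((N * q.1 + 8 * q.2 : ℕ) : ℂ) * k / ((8 * N : ℕ) : ℂ))) := by
    symm
    refine Finset.sum_nbij _ hmaps hinj hsurj fun q _ => ?_
    have hmod : (((N * q.1 + 8 * q.2 : ℕ) : ℤ)) ≡
        (((N * q.1 + 8 * q.2) % (8 * N) : ℕ) : ℤ) [ZMOD ((8 * N : ℕ) : ℤ)] := by
      rw [Int.natCast_modEq_iff]
      exact (Nat.mod_modEq _ _).symm
    have hmN : (((N * q.1 + 8 * q.2 : ℕ) : ℤ)) ≡
        (((N * q.1 + 8 * q.2) % (8 * N) : ℕ) : ℤ) [ZMOD (N : ℤ)] := by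
      have := hmod
      push_cast at this ⊢
      exact this.of_mul_left 8
    have hm8 : (((N * q.1 + 8 * q.2 : ℕ) : ZMod 8)) =
        (((N * q.1 + 8 * q.2) % (8 * N) : ℕ) : ZMod 8) := by
      rw [ZMod.natCast_eq_natCast_iff]
      exact ((Nat.mod_modEq (N * q.1 + 8 * q.2) (8 * N)).symm).of_mul_right N
    rw [p8_jr_mod hmN, hm8]
    congr 1
    have := p8_exp_add (8 * N) (by omega) _ _ k hmod
    simpa only [Int.cast_natCast] using this
  have h8 : jr 8 N = ((ZMod.χ₈ (N : ZMod 8) : ℤ) : ℝ) := by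
    unfold jr
    rw [if_pos hN, show (8 : ℤ) = 2 ^ 3 by norm_num, jacobiSym.pow_left, jacobiSym.at_two hN]
    have hχ : ∀ x : ZMod 8, ZMod.χ₈ x ^ 3 = ZMod.χ₈ x := by decide
    rw [hχ]
  have hS : p8S ψ (N : ZMod 8) (k : ZMod 8) = ∑ a ∈ range 8, ψ ((N : ZMod 8) * (a : ZMod 8)) *
      Complex.exp (2 * π * Complex.I * ((a : ℂ) * k / 8)) := by
    unfold p8S
    refine Finset.sum_congr rfl fun a _ => ?_
    congr 1
    have h1 : (((k : ZMod 8).val : ℤ)) ≡ k [ZMOD (8 : ℕ)] := by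
      rw [ZMod.val_intCast]
      exact Int.mod_modEq _ _
    have h2 := p8_exp_add 8 (by norm_num) _ _ (a : ℤ) h1
    push_cast at h2 ⊢
    rw [mul_comm (a : ℂ) ((k : ZMod 8).val : ℂ), mul_comm (a : ℂ) (k : ℂ)]
    exact h2
  rw [hsum, sum_product, hS, mul_assoc ((ZMod.χ₈ (N : ZMod 8) : ℤ) : ℂ), ]
  have hg := gauss_sum_jr N hN hs k
  have hrhs : (jr k N : ℂ) * (√(N : ℝ) : ℂ) * (((ZMod.χ₈ (N : ZMod 8) : ℤ) : ℂ) *
      ((if N % 4 = 1 then 1 else Complex.I) * ∑ a ∈ range 8, ψ ((N : ZMod 8) * (a : ZMod 8)) *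
      Complex.exp (2 * π * Complex.I * ((a : ℂ) * k / 8)))) =
      (∑ a ∈ range 8, ψ ((N : ZMod 8) * (a : ZMod 8)) *
      Complex.exp (2 * π * Complex.I * ((a : ℂ) * k / 8))) *
      (((ZMod.χ₈ (N : ZMod 8) : ℤ) : ℂ) * ((jr k N : ℂ) * (√(N : ℝ) : ℂ) *
        (if N % 4 = 1 then 1 else Complex.I))) := by
    ring
  rw [hrhs, ← hg, Finset.sum_mul]
  refine sum_congr rfl fun a _ => ?_
  rw [mul_sum, mul_sum]
  refine sum_congr rfl fun b _ => ?_
  have e1 : jr ((N * a + 8 * b : ℕ) : ℤ) N = jr 8 N * jr b N := by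
    rw [← p8_jr_left]
    apply p8_jr_mod
    push_cast
    simp [Int.ModEq]
  have e2 : Complex.exp (2 * π * Complex.I * (((N * a + 8 * b : ℕ) : ℂ) * k / ((8 * N : ℕ) : ℂ))) =
      Complex.exp (2 * π * Complex.I * (a * k / 8)) *
        Complex.exp (2 * π * Complex.I * (b * k / N)) := by
    rw [← Complex.exp_add]
    congr 1
    push_cast
    field_simp
  have e3 : ((N * a + 8 * b : ℕ) : ZMod 8) = (N : ZMod 8) * (a : ZMod 8) := by
    have h0 : (8 : ZMod 8) = 0 := by decide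
    push_cast
    rw [h0]
    ring
  rw [e1, e2, e3, h8]
  push_cast
  ring

private lemma p8_case (κ : ZMod 8) : ZMod.χ₈ κ = 0 ∨ (|ZMod.χ₈ κ| = 1 ∧ IsUnit κ) := by
  revert κ
  decide

private lemma p8_norm (ψ : ZMod 8 → ℂ) (κ h : ZMod 8) :
    ‖((ZMod.χ₈ κ : ℤ) : ℂ) * (if κ.val % 4 = 1 then 1 else Complex.I) * p8S ψ κ h‖ ≤
      ∑ b : ZMod 8, ‖ψ b‖ := by
  have hε : ‖(if κ.val % 4 = 1 then (1 : ℂ) else Complex.I)‖ = 1 := by
    split_ifs <;> simp
  have hS0 : 0 ≤ ∑ b : ZMod 8, ‖ψ b‖ := Finset.sum_nonneg fun b _ => norm_nonneg _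
  have hcase := p8_case κ
  rw [norm_mul, norm_mul, hε, mul_one]
  rcases hcase with h0 | ⟨h1, hu⟩
  · rw [h0]
    simpa using hS0
  · have h2 : ‖((ZMod.χ₈ κ : ℤ) : ℂ)‖ = 1 := by
      rw [Complex.norm_intCast]
      exact_mod_cast h1
    rw [h2, one_mul]
    obtain ⟨u, rfl⟩ := hu
    have h3 : ∑ b : ZMod 8, ‖ψ b‖ = ∑ b : ZMod 8, ‖ψ ((u : ZMod 8) * b)‖ :=
      (Equiv.sum_comp u.mulLeft (fun b => ‖ψ b‖)).symm
    rw [h3]
    unfold p8S
    refine (norm_sum_le _ _).trans (le_of_eq ?_)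
    have h4 : ∀ b ∈ range 8, ‖ψ ((u : ZMod 8) * (b : ZMod 8)) *
        Complex.exp (2 * π * Complex.I * ((b : ℂ) * (h.val : ℂ) / 8))‖ =
        ‖ψ ((u : ZMod 8) * (b : ZMod 8))‖ := by
      intro b _
      have h1 : (2 * π * Complex.I * ((b : ℂ) * (h.val : ℂ) / 8)) =
          ((2 * π * ((b : ℝ) * h.val / 8) : ℝ) : ℂ) * Complex.I := by
        push_cast
        ring
      rw [norm_mul, h1, Complex.norm_exp_ofReal_mul_I, mul_one]
    rw [Finset.sum_congr rfl h4]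
    rfl

private lemma p8_zero (ψ : ZMod 8 → ℂ) (κ : ZMod 8) (hψ : ∑ b : ZMod 8, ψ b = 0) :
    ((ZMod.χ₈ κ : ℤ) : ℂ) * (if κ.val % 4 = 1 then 1 else Complex.I) * p8S ψ κ 0 = 0 := by
  have hcase : ZMod.χ₈ κ = 0 ∨ IsUnit κ := by
    revert κ
    decide
  rcases hcase with h0 | hu
  · rw [h0]
    simp
  · obtain ⟨u, rfl⟩ := hu
    have h3 : ∑ b : ZMod 8, ψ b = ∑ b : ZMod 8, ψ ((u : ZMod 8) * b) :=
      (Equiv.sum_comp u.mulLeft (fun b => ψ b)).symm
    have h4 : p8S ψ u 0 = ∑ b ∈ range 8, ψ ((u : ZMod 8) * (b : ZMod 8)) := by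
      unfold p8S
      refine Finset.sum_congr rfl fun b _ => ?_
      simp
    have h5 : ∑ b ∈ range 8, ψ ((u : ZMod 8) * (b : ZMod 8)) =
        ∑ b : ZMod 8, ψ ((u : ZMod 8) * b) := rfl
    rw [h4, h5, ← h3, hψ, mul_zero]

open scoped FourierTransform SchwartzMap in
theorem poisson8 (ψ : ZMod 8 → ℂ) : ∃ c : ZMod 8 → ZMod 8 → ℂ,
    (∀ κ h, ‖c κ h‖ ≤ ∑ b : ZMod 8, ‖ψ b‖) ∧
    (∀ N : ℕ, Odd N → ∑ b : ZMod 8, ψ b = 0 → c (N : ZMod 8) 0 = 0) ∧
    ∀ N : ℕ, Odd N → Squarefree N → ∀ g : 𝓢(ℝ, ℂ),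
      Summable (fun h : ℤ => ‖𝓕 (g : ℝ → ℂ) ((h : ℝ) / (8 * N))‖) ∧
      ∑' n : ℤ, ψ (n : ZMod 8) * (jr n N : ℂ) * g n =
        1 / (8 * (√(N : ℝ) : ℂ)) * ∑' h : ℤ, (jr h N : ℂ) * c (N : ZMod 8) (h : ZMod 8) *
          𝓕 (g : ℝ → ℂ) ((h : ℝ) / (8 * N)) := by
  refine ⟨fun κ h => ((ZMod.χ₈ κ : ℤ) : ℂ) * (if κ.val % 4 = 1 then 1 else Complex.I) *
    p8S ψ κ h, fun κ h => p8_norm ψ κ h, fun N _ hψ => p8_zero ψ _ hψ, ?_⟩
  intro N hN hs g
  have hN0 : 0 < N := hN.pos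
  have hNr : (0 : ℝ) < N := by exact_mod_cast hN0
  constructor
  · have h6 := p8_summ (𝓕 g) (c := 1 / (8 * (N : ℝ))) (by positivity)
    refine h6.congr fun k => ?_
    rw [SchwartzMap.fourier_coe, mul_one_div]
  · have hne : NeZero (8 * N) := ⟨by omega⟩
    have h1 := p8_poisson (8 * N) (fun j => ψ ((j.val : ℕ) : ZMod 8) * (jr ((j.val : ℕ) : ℤ) N : ℂ)) g
    have h2 : ∀ n : ℤ, ψ ((((n : ZMod (8 * N)).val : ℕ) : ZMod 8)) *
        (jr (((n : ZMod (8 * N)).val : ℕ) : ℤ) N : ℂ) = ψ (n : ZMod 8) * (jr n N : ℂ) := by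
      intro n
      have e1 : ((((n : ZMod (8 * N)).val : ℕ) : ℤ)) ≡ n [ZMOD ((8 * N : ℕ) : ℤ)] := by
        rw [ZMod.val_intCast]
        exact Int.mod_modEq _ _
      have e2 : ((((n : ZMod (8 * N)).val : ℕ) : ℤ)) ≡ n [ZMOD (N : ℤ)] := by
        have := e1
        push_cast at this ⊢
        exact this.of_mul_left 8
      have e3 : ((((n : ZMod (8 * N)).val : ℕ) : ℤ)) ≡ n [ZMOD ((8 : ℕ) : ℤ)] := by
        have := e1
        push_cast at this ⊢
        exact this.of_mul_right N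
      have e4 : ((((n : ZMod (8 * N)).val : ℕ) : ZMod 8)) = (n : ZMod 8) := by
        have := (ZMod.intCast_eq_intCast_iff _ _ 8).2 e3
        push_cast at this
        exact this
      rw [e4, p8_jr_mod e2]
    simp only [h2] at h1
    rw [h1, ← tsum_mul_left]
    refine tsum_congr fun k => ?_
    have h3 := p8_sum_zmod (8 * N) (fun b : ℕ => (ψ (b : ZMod 8) * (jr b N : ℂ)) *
      Complex.exp (2 * π * Complex.I * ((b : ℂ) * k / ((8 * N : ℕ) : ℂ))))
    rw [h3, p8_gauss ψ N hN hs k]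
    have h4 : (N : ZMod 8).val % 4 = N % 4 := by
      rw [ZMod.val_natCast]
      omega
    simp only [h4]
    have hsq : (√(N : ℝ) : ℂ) * (√(N : ℝ) : ℂ) = (N : ℂ) := by
      rw [← Complex.ofReal_mul, Real.mul_self_sqrt hNr.le]
      simp
    have hsq0 : (√(N : ℝ) : ℂ) ≠ 0 := by
      have : (√(N : ℝ)) ≠ 0 := (Real.sqrt_pos.mpr hNr).ne'
      exact_mod_cast this
    have hcc : (1 / ((8 * N : ℕ) : ℂ)) * (√(N : ℝ) : ℂ) = 1 / (8 * (√(N : ℝ) : ℂ)) := by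
      push_cast
      rw [← hsq]
      field_simp
    rw [← hcc]
    push_cast
    ring

end Pool.Agent.MP0016c7.Rz
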