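import Mathlib
import Pool.Agent.Lib.MP_0016c7_nt.Rz.Defs
import Pool.Agent.Lib.MP_0016c7_nt.Rz2.QDefs
import Pool.Agent.Lib.MP_0016c7_nt.Rz2.Recip
import Pool.Agent.Lib.MP_0016c7_nt.Rz2.Poisson8
import Pool.Agent.Lib.MP_0016c7_nt.Rz2.FDecay

set_option autoImplicit false

/-!
The dual sum, with separated variables (D11).
-/

open Finset MeasureTheory Filter Topology
open scoped Real ContDiff

namespace Pool.Agent.MP0016c7.Rz

private lemma db_jr_norm (k : ℤ) (N : ℕ) : ‖(jr k N : ℂ)‖ ≤ 1 := by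
  rw [Complex.norm_real, Real.norm_eq_abs]
  unfold jr
  split_ifs with h
  · rcases jacobiSym.trichotomy k N with h1 | h1 | h1 <;> rw [h1] <;> simp
  · simp

private lemma db_jr_zero {m : ℕ} (hm : 1 < m) : jr 0 m = 0 := by
  unfold jr
  split_ifs with h
  · rw [jacobiSym.zero_left hm]; simp
  · rfl

/-- tail sums -/
private lemma db_tail (B : ℕ) (hB : 2 ≤ B) (H : ℕ) (t : Finset ℤ) (ht : ∀ h ∈ t, H < h.natAbs) :
    ∑ h ∈ t, 1 / |(h : ℝ)| ^ B ≤ 4 / ((H : ℝ) + 1) ^ (B - 1) := by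
  classical
  set M := t.sup Int.natAbs with hM
  have hmaps : ∀ h ∈ t, h.natAbs ∈ Ioo H (M + 1) := by
    intro h hh
    rw [mem_Ioo]
    exact ⟨ht h hh, Nat.lt_succ_of_le (Finset.le_sup (f := Int.natAbs) hh)⟩
  rw [← sum_fiberwise_of_maps_to hmaps]
  have h1 : ∀ j ∈ Ioo H (M + 1), ∑ h ∈ t with h.natAbs = j, 1 / |(h : ℝ)| ^ B ≤
      2 * ((1 / ((H : ℝ) + 1) ^ (B - 2)) * ((j : ℝ) ^ 2)⁻¹) := by
    intro j hj
    rw [mem_Ioo] at hj
    have hjH : (H : ℝ) + 1 ≤ j := by exact_mod_cast hj.1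
    have hH0 : (0 : ℝ) < (H : ℝ) + 1 := by positivity
    have hj0 : (0 : ℝ) < j := by linarith
    have hval : ∀ h ∈ t.filter (fun h => h.natAbs = j), 1 / |(h : ℝ)| ^ B = 1 / (j : ℝ) ^ B := by
      intro h hh
      rw [mem_filter] at hh
      have : |(h : ℝ)| = (j : ℝ) := by
        rw [← hh.2, Nat.cast_natAbs, Int.cast_abs]
      rw [this]
    rw [sum_congr rfl hval, sum_const, nsmul_eq_mul]
    have hcard : (t.filter (fun h => h.natAbs = j)).card ≤ 2 := by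
      have hsub : t.filter (fun h => h.natAbs = j) ⊆ {(j : ℤ), -(j : ℤ)} := by
        intro h hh
        rw [mem_filter] at hh
        rw [mem_insert, mem_singleton]
        exact Int.natAbs_eq_iff.1 hh.2
      exact (card_le_card hsub).trans Finset.card_le_two
    have h2 : 1 / (j : ℝ) ^ B ≤ (1 / ((H : ℝ) + 1) ^ (B - 2)) * ((j : ℝ) ^ 2)⁻¹ := by
      have e : (j : ℝ) ^ B = (j : ℝ) ^ (B - 2) * (j : ℝ) ^ 2 := by
        rw [← pow_add]; congr 1; omega
      rw [e, one_div, mul_inv, one_div]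
      gcongr
    calc ((t.filter (fun h => h.natAbs = j)).card : ℝ) * (1 / (j : ℝ) ^ B)
        ≤ 2 * (1 / (j : ℝ) ^ B) := by
          gcongr
          exact_mod_cast hcard
      _ ≤ _ := by gcongr
  refine (sum_le_sum h1).trans ?_
  rw [← mul_sum, ← mul_sum]
  have h3 : ∑ j ∈ Ioo H (M + 1), ((j : ℝ) ^ 2)⁻¹ ≤ 2 / ((H : ℝ) + 1) := sum_Ioo_inv_sq_le H (M + 1)
  have hH0 : (0 : ℝ) < (H : ℝ) + 1 := by positivity
  have e : ((H : ℝ) + 1) ^ (B - 1) = ((H : ℝ) + 1) ^ (B - 2) * ((H : ℝ) + 1) := by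
    rw [← pow_succ]; congr 1; omega
  rw [e]
  calc 2 * (1 / ((H : ℝ) + 1) ^ (B - 2) * ∑ j ∈ Ioo H (M + 1), ((j : ℝ) ^ 2)⁻¹)
      ≤ 2 * (1 / ((H : ℝ) + 1) ^ (B - 2) * (2 / ((H : ℝ) + 1))) := by gcongr
    _ = 4 / (((H : ℝ) + 1) ^ (B - 2) * ((H : ℝ) + 1)) := by
      field_simp
      norm_num

/-- the Fourier transform of a dilation -/
private lemma db_fourier (V : ℝ → ℂ) {y : ℝ} (hy : 0 < y) (w : ℝ) :
    (∫ v : ℝ, Complex.exp (((-2 * π * v * w : ℝ) : ℂ) * Complex.I) • V (v / y)) =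
      (y : ℂ) * ∫ t : ℝ, V t * Complex.exp (-(2 * π * Complex.I * (((y * w : ℝ) : ℂ) * t))) := by
  have h3 := Measure.integral_comp_mul_left
    (fun t : ℝ => V t * Complex.exp (-(2 * π * Complex.I * (((y * w : ℝ) : ℂ) * t)))) (y⁻¹)
  rw [inv_inv, abs_of_pos hy, Complex.real_smul] at h3
  rw [← h3]
  refine integral_congr_ae (ae_of_all _ fun v => ?_)
  simp only [smul_eq_mul]
  rw [mul_comm]
  have e1 : v / y = y⁻¹ * v := by rw [div_eq_mul_inv, mul_comm]
  rw [e1]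
  congr 2
  have hyc : (y : ℂ) ≠ 0 := by exact_mod_cast hy.ne'
  push_cast
  field_simp

private lemma db_cs {V : ℝ → ℂ} (hVs : ∀ t, V t ≠ 0 → 1 / 2 < t ∧ t < 2) {a : ℝ} (ha : 0 < a) :
    HasCompactSupport (fun t : ℝ => V (a * t)) := by
  refine HasCompactSupport.intro (isCompact_Icc (a := (1 / 2) / a) (b := 2 / a)) ?_
  intro x hx
  by_contra h
  have := hVs _ h
  refine hx ⟨?_, ?_⟩
  · rw [div_le_iff₀ ha]; nlinarith
  · rw [le_div_iff₀ ha]; nlinarith

/-- the main term -/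
private lemma db_main {V : ℝ → ℂ} (hV : Continuous V) (hVs : ∀ t, V t ≠ 0 → 1 / 2 < t ∧ t < 2)
    {R : ℝ} (hR : ∀ t, ‖V t‖ ≤ R) {K m : ℕ} (h1 : 0 < m) (h2 : m ≤ K) (h3 : K < 2 * m)
    (y : ℝ) (s : Finset ℤ) (a : ℤ → ℂ) :
    ‖∑ h ∈ s, a h * ∫ t : ℝ, V t *
        Complex.exp (-(2 * π * Complex.I * (((y * ((h : ℝ) / (8 * m)) : ℝ) : ℂ) * t)))‖ ≤
      R * ∫ w in (1 / 2 : ℝ)..4, ‖∑ h ∈ s, a h *
        Complex.exp (-(2 * π * Complex.I * (y * h * w / (8 * K))))‖ := by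
  have hm0 : (0 : ℝ) < m := by exact_mod_cast h1
  have hK0 : (0 : ℝ) < K := lt_of_lt_of_le hm0 (by exact_mod_cast h2)
  have hmK : (m : ℝ) ≤ K := by exact_mod_cast h2
  have hKm : (K : ℝ) < 2 * m := by exact_mod_cast h3
  set q : ℝ := m / K with hq
  have hq0 : 0 < q := by positivity
  have hq1 : q ≤ 1 := by rw [hq, div_le_one hK0]; exact hmK
  have hq2 : 1 / 2 < q := by rw [hq, lt_div_iff₀ hK0]; linarith
  have hR0 : 0 ≤ R := (norm_nonneg _).trans (hR 0)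
  have hE : ∀ h : ℤ, Continuous (fun w : ℝ =>
      Complex.exp (-(2 * π * Complex.I * (y * h * w / (8 * K))))) := by
    intro h
    fun_prop
  -- substitution
  have hsub : ∀ h : ℤ, (∫ t : ℝ, V t *
      Complex.exp (-(2 * π * Complex.I * (((y * ((h : ℝ) / (8 * m)) : ℝ) : ℂ) * t)))) =
      (q : ℂ) * ∫ w : ℝ, V (q * w) * Complex.exp (-(2 * π * Complex.I * (y * h * w / (8 * K)))) := by
    intro h
    have h3 := Measure.integral_comp_mul_left
      (fun t : ℝ => V t *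
        Complex.exp (-(2 * π * Complex.I * (((y * ((h : ℝ) / (8 * m)) : ℝ) : ℂ) * t)))) q
    have h4 : (∫ w : ℝ, V (q * w) *
        Complex.exp (-(2 * π * Complex.I * (y * h * w / (8 * K))))) =
        ∫ x : ℝ, (fun t : ℝ => V t * Complex.exp (-(2 * π * Complex.I *
          (((y * ((h : ℝ) / (8 * m)) : ℝ) : ℂ) * t)))) (q * x) := by
      refine integral_congr_ae (ae_of_all _ fun w => ?_)
      simp only
      congr 2
      have hmc : (m : ℂ) ≠ 0 := by exact_mod_cast hm0.ne'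
      have hKc : (K : ℂ) ≠ 0 := by exact_mod_cast hK0.ne'
      rw [hq]
      push_cast
      field_simp
    rw [h4, h3, abs_of_pos (inv_pos.2 hq0), Complex.real_smul, ← mul_assoc]
    have : (q : ℂ) * ((q⁻¹ : ℝ) : ℂ) = 1 := by
      rw [← Complex.ofReal_mul, mul_inv_cancel₀ hq0.ne']; simp
    rw [this, one_mul]
  have hint : ∀ h : ℤ, Integrable (fun w : ℝ => V (q * w) *
      Complex.exp (-(2 * π * Complex.I * (y * h * w / (8 * K))))) := by
    intro h
    refine Continuous.integrable_of_hasCompactSupport ?_ ((db_cs hVs hq0).mul_right)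
    exact (hV.comp (by fun_prop)).mul (hE h)
  have hsum : ∑ h ∈ s, a h * ∫ t : ℝ, V t *
        Complex.exp (-(2 * π * Complex.I * (((y * ((h : ℝ) / (8 * m)) : ℝ) : ℂ) * t))) =
      (q : ℂ) * ∫ w : ℝ, V (q * w) * ∑ h ∈ s, a h *
        Complex.exp (-(2 * π * Complex.I * (y * h * w / (8 * K)))) := by
    have h5 : ∀ w : ℝ, V (q * w) * ∑ h ∈ s, a h *
        Complex.exp (-(2 * π * Complex.I * (y * h * w / (8 * K)))) =
        ∑ h ∈ s, a h * (V (q * w) *
          Complex.exp (-(2 * π * Complex.I * (y * h * w / (8 * K))))) := by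
      intro w
      rw [mul_sum]
      exact sum_congr rfl fun h _ => by ring
    simp only [h5]
    rw [integral_finsetSum _ fun h _ => (hint h).const_mul _, mul_sum]
    refine sum_congr rfl fun h _ => ?_
    rw [hsub h, integral_const_mul]
    ring
  rw [hsum, norm_mul, Complex.norm_real, Real.norm_of_nonneg hq0.le]
  set S : ℝ → ℂ := fun w => ∑ h ∈ s, a h *
    Complex.exp (-(2 * π * Complex.I * (y * h * w / (8 * K)))) with hS
  have hSc : Continuous S := by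
    rw [hS]
    exact continuous_finsetSum _ fun h _ => continuous_const.mul (hE h)
  have h6 : ‖∫ w : ℝ, V (q * w) * S w‖ ≤ ∫ w in (1 / 2 : ℝ)..4, R * ‖S w‖ := by
    refine (norm_integral_le_integral_norm _).trans ?_
    rw [intervalIntegral.integral_of_le (by norm_num), ← integral_indicator measurableSet_Ioc]
    refine integral_mono ?_ ?_ ?_
    · refine Integrable.norm ?_
      refine Continuous.integrable_of_hasCompactSupport ?_ ((db_cs hVs hq0).mul_right)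
      exact (hV.comp (by fun_prop)).mul hSc
    · rw [integrable_indicator_iff measurableSet_Ioc]
      exact (continuous_const.mul hSc.norm).integrableOn_Icc.mono_set Set.Ioc_subset_Icc_self
    · intro w
      simp only [norm_mul]
      by_cases hw : V (q * w) = 0
      · rw [hw]
        simp only [norm_zero, zero_mul]
        exact Set.indicator_nonneg (fun _ _ => mul_nonneg hR0 (norm_nonneg _)) _
      · have h7 := hVs _ hw
        have hw1 : w ∈ Set.Ioc (1 / 2 : ℝ) 4 := by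
          constructor
          · by_contra h8
            push Not at h8
            nlinarith
          · by_contra h8
            push Not at h8
            nlinarith
        rw [Set.indicator_of_mem hw1]
        exact mul_le_mul_of_nonneg_right (hR _) (norm_nonneg _)
  rw [intervalIntegral.integral_const_mul] at h6
  have hI0 : 0 ≤ R * ∫ w in (1 / 2 : ℝ)..4, ‖S w‖ := (norm_nonneg _).trans h6
  calc q * ‖∫ w : ℝ, V (q * w) * S w‖ ≤ 1 * (R * ∫ w in (1 / 2 : ℝ)..4, ‖S w‖) := by gcongr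
    _ = _ := one_mul _

open scoped FourierTransform SchwartzMap in
theorem dual_bound (B : ℕ) (hB : 2 ≤ B) : ∃ C : ℝ, 0 < C ∧ ∀ u : ℤ,
    (u = 1 ∨ u = -1 ∨ u = 2 ∨ u = -2) → ∃ c : ℕ → ℤ → ℂ, (∀ κ h, ‖c κ h‖ ≤ 8) ∧
    ∀ K m : ℕ, m ∈ OsfD K → u * m ≠ 1 → ∀ y : ℝ, 0 < y → ∀ (V : ℝ → ℂ) (R : ℝ),
    ContDiff ℝ ∞ V → (∀ t, V t ≠ 0 → 1 / 2 < t ∧ t < 2) →
    (∀ j ≤ B, ∀ t, ‖iteratedDeriv j V t‖ ≤ R) → ∀ H : ℕ,
    ‖∑ n ∈ Icc 1 ⌊2 * y⌋₊, (jr (u * m) n : ℂ) * V (n / y)‖ ≤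
      C * R * (y / √(K : ℝ)) *
        ((∫ w in (1 / 2 : ℝ)..4, ‖∑ h ∈ (Icc (-(H : ℤ)) H).filter (fun h => h ≠ 0),
            c (m % 8) h * (jr h m : ℂ) *
              Complex.exp (-(2 * π * Complex.I * (y * h * w / (8 * K))))‖) +
          (K / y) ^ B / ((H : ℝ) + 1) ^ (B - 1)) := by
  classical
  obtain ⟨ψ, hψ1, hψ2, hψ3⟩ := jr_recip
  obtain ⟨C₁, hC₁, hF⟩ := fourier_decay B
  refine ⟨1 + C₁ * 8 ^ B * 8, by positivity, fun u hu => ?_⟩
  have hP := fun κ : ℕ => poisson8 (fun b => (ψ u (κ % 4) b : ℂ))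
  choose cc hcc1 hcc2 hcc3 using hP
  have hb8 : ∀ κ : ℕ, ∀ a b : ZMod 8, ‖cc κ a b‖ ≤ 8 := by
    intro κ a b
    refine (hcc1 κ a b).trans ?_
    calc ∑ b : ZMod 8, ‖((ψ u (κ % 4) b : ℝ) : ℂ)‖ ≤ ∑ b : ZMod 8, (1 : ℝ) := by
          refine sum_le_sum fun b _ => ?_
          rw [Complex.norm_real, Real.norm_eq_abs]
          exact hψ1 _ _ _
      _ = 8 := by simp
  refine ⟨fun κ h => cc κ (κ : ZMod 8) (h : ZMod 8), fun κ h => hb8 _ _ _, ?_⟩
  intro K m hm hum y hy V R hV hVs hVb H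
  simp only [OsfD, mem_filter, mem_Icc] at hm
  obtain ⟨⟨hm1, hmK⟩, hKm, hodd, hsf⟩ := hm
  have hmr : (0 : ℝ) < m := by exact_mod_cast hm1
  have hKr : (0 : ℝ) < K := lt_of_lt_of_le hmr (by exact_mod_cast hmK)
  have hmKr : (m : ℝ) ≤ K := by exact_mod_cast hmK
  have hKmr : (K : ℝ) ≤ 2 * m := by exact_mod_cast hKm.le
  have e8 : ((m % 8 : ℕ) : ZMod 8) = (m : ZMod 8) := ZMod.natCast_mod m 8
  have e4 : m % 8 % 4 = m % 4 := Nat.mod_mod_of_dvd _ (by norm_num)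
  have hVR : ∀ t, ‖V t‖ ≤ R := fun t => by simpa using hVb 0 (Nat.zero_le _) t
  have hR0 : 0 ≤ R := (norm_nonneg _).trans (hVR 0)
  -- the coefficients
  set c : ℤ → ℂ := fun h => cc (m % 8) ((m % 8 : ℕ) : ZMod 8) (h : ZMod 8) with hc
  have hc8 : ∀ h, ‖c h‖ ≤ 8 := fun h => hb8 _ _ _
  -- the Schwartz function
  have hcs : HasCompactSupport (fun t : ℝ => V (t / y)) := by
    have e : (fun t : ℝ => V (t / y)) = fun t : ℝ => V (y⁻¹ * t) := by
      funext t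
      rw [div_eq_mul_inv, mul_comm]
    rw [e]
    exact db_cs hVs (inv_pos.2 hy)
  have hcd : ContDiff ℝ ∞ (fun t : ℝ => V (t / y)) := hV.comp (contDiff_id.div_const y)
  set g : 𝓢(ℝ, ℂ) := hcs.toSchwartzMap hcd with hg
  have hgv : ∀ t : ℝ, g t = V (t / y) := fun t => rfl
  obtain ⟨hsm, hpo⟩ := hcc3 (m % 8) m hodd hsf g
  rw [← e8] at hpo
  -- the left side
  have hA : ∑ n ∈ Icc 1 ⌊2 * y⌋₊, (jr (u * m) n : ℂ) * V (n / y) =
      ∑' n : ℤ, (ψ u (m % 8 % 4) (n : ZMod 8) : ℂ) * (jr n m : ℂ) * g n := by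
    rw [tsum_eq_sum (s := (Icc 1 ⌊2 * y⌋₊).map Nat.castEmbedding)]
    · rw [sum_map]
      refine sum_congr rfl fun n hn => ?_
      rw [mem_Icc] at hn
      rw [e4]
      simp only [Nat.castEmbedding_apply, Int.cast_natCast]
      rw [hψ3 u hu m n hodd hn.1, hgv]
      push_cast
      ring
    · intro n hn
      rw [hgv]
      by_cases h0 : V ((n : ℝ) / y) = 0
      · rw [h0, mul_zero]
      · exfalso
        have h1 := hVs _ h0
        rw [lt_div_iff₀ hy, div_lt_iff₀ hy] at h1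
        apply hn
        have hn0 : (0 : ℝ) < (n : ℝ) := by nlinarith
        have hn0' : 0 < n := by exact_mod_cast hn0
        rw [Finset.mem_map]
        refine ⟨n.toNat, ?_, by simp [Int.toNat_of_nonneg hn0'.le]⟩
        rw [mem_Icc]
        refine ⟨by omega, ?_⟩
        apply Nat.le_floor
        have : ((n.toNat : ℕ) : ℝ) = (n : ℝ) := by
          exact_mod_cast congrArg (Int.cast : ℤ → ℝ) (Int.toNat_of_nonneg hn0'.le)
        rw [this]
        exact h1.2.le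
  rw [hA, hpo]
  -- the dual side
  set Vh : ℝ → ℂ := fun ξ => ∫ t : ℝ, V t * Complex.exp (-(2 * π * Complex.I * ((ξ : ℂ) * t)))
    with hVh
  have hFg : ∀ w : ℝ, 𝓕 (g : ℝ → ℂ) w = (y : ℂ) * Vh (y * w) := by
    intro w
    rw [Real.fourier_real_eq_integral_exp_smul]
    exact db_fourier V hy w
  have hdec : ∀ ξ : ℝ, ‖Vh ξ‖ * |ξ| ^ B ≤ C₁ * R := fun ξ => hF V R hV hVs hVb ξ
  set F : ℤ → ℂ := fun h => (jr h m : ℂ) * cc (m % 8) ((m % 8 : ℕ) : ZMod 8) (h : ZMod 8) *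
    𝓕 (g : ℝ → ℂ) ((h : ℝ) / (8 * m)) with hFdef
  have hFs : Summable F := by
    refine Summable.of_norm_bounded (hsm.mul_left 8) fun h => ?_
    rw [hFdef]
    simp only [norm_mul]
    calc ‖(jr h m : ℂ)‖ * ‖cc (m % 8) ((m % 8 : ℕ) : ZMod 8) (h : ZMod 8)‖ *
          ‖𝓕 (g : ℝ → ℂ) ((h : ℝ) / (8 * m))‖ ≤ 1 * 8 * ‖𝓕 (g : ℝ → ℂ) ((h : ℝ) / (8 * m))‖ := by
          gcongr
          · exact db_jr_norm _ _
          · exact hb8 _ _ _
      _ = _ := by ring
  have hF0 : F 0 = 0 := by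
    rw [hFdef]
    simp only [Int.cast_zero]
    by_cases h1 : m = 1
    · subst h1
      have hu1 : u ≠ 1 := by
        intro h; apply hum; rw [h]; simp
      have hu2 : u = -1 ∨ u = 2 ∨ u = -2 := by tauto
      have := hcc2 (1 % 8) 1 odd_one (by
        have h3 := hψ2 u hu2
        have h4 : (1 % 8 % 4 : ℕ) = 1 := by norm_num
        rw [h4, ← Complex.ofReal_sum, h3, Complex.ofReal_zero])
      have h5 : ((1 % 8 : ℕ) : ZMod 8) = ((1 : ℕ) : ZMod 8) := by norm_num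
      rw [h5, this]
      simp
    · rw [db_jr_zero (by omega)]
      simp
  set s : Finset ℤ := Icc (-(H : ℤ)) H with hs
  have hsplit := hFs.sum_add_tsum_compl (s := s)
  rw [← hsplit]
  have hny : ‖(y : ℂ)‖ = y := by rw [Complex.norm_real, Real.norm_of_nonneg hy.le]
  -- the tail
  have hQ0 : 0 < y / (8 * m) := by positivity
  have htail : ‖∑' h : ((s : Set ℤ)ᶜ : Set ℤ), F h‖ ≤
      8 * y * (C₁ * R * (8 * m / y) ^ B) * (4 / ((H : ℝ) + 1) ^ (B - 1)) := by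
    have hb : ∀ h : ℤ, h ≠ 0 → ‖F h‖ ≤ 8 * y * (C₁ * R * (8 * m / y) ^ B) * (1 / |(h : ℝ)| ^ B) := by
      intro h hh
      have hh0 : 0 < |(h : ℝ)| := by
        rw [abs_pos]; exact_mod_cast hh
      rw [hFdef]
      simp only [norm_mul]
      rw [hFg, norm_mul, hny]
      have h6 := hdec (y * ((h : ℝ) / (8 * m)))
      have h7 : |y * ((h : ℝ) / (8 * m))| ^ B = (y / (8 * m)) ^ B * |(h : ℝ)| ^ B := by
        rw [← mul_pow]
        congr 1
        rw [show y * ((h : ℝ) / (8 * m)) = (y / (8 * m)) * h by ring, abs_mul, abs_of_pos hQ0]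
      rw [h7] at h6
      have h8 : ‖Vh (y * ((h : ℝ) / (8 * m)))‖ ≤ C₁ * R * (8 * m / y) ^ B * (1 / |(h : ℝ)| ^ B) := by
        have h9 : (8 * (m : ℝ) / y) ^ B = ((y / (8 * m)) ^ B)⁻¹ := by
          rw [← inv_pow, inv_div]
        rw [h9, mul_one_div, ← div_eq_mul_inv, div_div, le_div_iff₀ (by positivity)]
        exact h6
      calc ‖(jr h m : ℂ)‖ * ‖cc (m % 8) ((m % 8 : ℕ) : ZMod 8) (h : ZMod 8)‖ *
            (y * ‖Vh (y * ((h : ℝ) / (8 * m)))‖)
          ≤ 1 * 8 * (y * (C₁ * R * (8 * m / y) ^ B * (1 / |(h : ℝ)| ^ B))) := by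
            gcongr
            · exact db_jr_norm _ _
            · exact hb8 _ _ _
        _ = _ := by ring
    have hA0 : 0 ≤ 8 * y * (C₁ * R * (8 * m / y) ^ B) := by positivity
    have hns : Summable (fun h : ((s : Set ℤ)ᶜ : Set ℤ) => ‖F h‖) := (hFs.norm).subtype _
    refine (norm_tsum_le_tsum_norm hns).trans ?_
    refine hns.tsum_le_of_sum_le fun t => ?_
    have hmem : ∀ h : ((s : Set ℤ)ᶜ : Set ℤ), H < (h : ℤ).natAbs := by
      intro h
      have h1 := h.2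
      simp only [hs, Set.mem_compl_iff, Finset.coe_Icc, Set.mem_Icc, not_and_or, not_le] at h1
      omega
    calc ∑ h ∈ t, ‖F h‖ ≤ ∑ h ∈ t, 8 * y * (C₁ * R * (8 * m / y) ^ B) * (1 / |((h : ℤ) : ℝ)| ^ B) := by
          refine sum_le_sum fun h _ => hb _ ?_
          have := hmem h
          intro h0
          rw [h0] at this
          simp at this
      _ = 8 * y * (C₁ * R * (8 * m / y) ^ B) *
          ∑ h ∈ t.map (Function.Embedding.subtype _), 1 / |(h : ℝ)| ^ B := by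
          rw [← mul_sum, sum_map]
          rfl
      _ ≤ _ := by
          gcongr
          refine db_tail B hB H _ fun h hh => ?_
          rw [Finset.mem_map] at hh
          obtain ⟨x, _, rfl⟩ := hh
          exact hmem x
  -- the main term
  have hmain : ‖∑ h ∈ s, F h‖ ≤ y * (R * ∫ w in (1 / 2 : ℝ)..4, ‖∑ h ∈ s.filter (fun h => h ≠ 0),
      c h * (jr h m : ℂ) * Complex.exp (-(2 * π * Complex.I * (y * h * w / (8 * K))))‖) := by
    have h1 : ∑ h ∈ s, F h = ∑ h ∈ s.filter (fun h => h ≠ 0), F h := by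
      refine (sum_subset (filter_subset _ _) fun h _ hh => ?_).symm
      rw [mem_filter, not_and_or, not_not] at hh
      rcases hh with hh | hh
      · exact absurd ‹h ∈ s› hh
      · rw [hh, hF0]
    have h2 : ∑ h ∈ s.filter (fun h => h ≠ 0), F h = (y : ℂ) * ∑ h ∈ s.filter (fun h => h ≠ 0),
        (c h * (jr h m : ℂ)) * ∫ t : ℝ, V t *
        Complex.exp (-(2 * π * Complex.I * (((y * ((h : ℝ) / (8 * m)) : ℝ) : ℂ) * t))) := by
      rw [mul_sum]
      refine sum_congr rfl fun h _ => ?_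
      rw [hFdef]
      simp only
      rw [hFg]
      ring
    rw [h1, h2, norm_mul, hny]
    gcongr
    exact db_main hV.continuous hVs hVR hm1 hmK (by omega) y _ _
  -- assembly
  set I₀ : ℝ := ∫ w in (1 / 2 : ℝ)..4, ‖∑ h ∈ s.filter (fun h => h ≠ 0),
      c h * (jr h m : ℂ) * Complex.exp (-(2 * π * Complex.I * (y * h * w / (8 * K))))‖ with hI₀
  have hI0 : 0 ≤ I₀ := intervalIntegral.integral_nonneg (by norm_num) fun _ _ => norm_nonneg _
  have hsm0 : 0 < √(m : ℝ) := Real.sqrt_pos.2 hmr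
  have hsK0 : 0 < √(K : ℝ) := Real.sqrt_pos.2 hKr
  have hsmK : √(K : ℝ) ≤ 2 * √(m : ℝ) := by
    rw [Real.sqrt_le_left (by positivity), mul_pow, Real.sq_sqrt hmr.le]
    linarith
  have hH0 : (0 : ℝ) < ((H : ℝ) + 1) ^ (B - 1) := by positivity
  have hpre : ‖1 / (8 * ((√(m : ℝ) : ℝ) : ℂ))‖ = 1 / (8 * √(m : ℝ)) := by
    rw [norm_div, norm_mul, Complex.norm_real, Real.norm_of_nonneg hsm0.le]
    simp
  rw [norm_mul, hpre]
  have hpre2 : 1 / (8 * √(m : ℝ)) ≤ 1 / (4 * √(K : ℝ)) := by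
    apply one_div_le_one_div_of_le (by positivity)
    linarith
  have hmp : (8 * (m : ℝ) / y) ^ B ≤ 8 ^ B * (K / y) ^ B := by
    rw [← mul_pow]
    gcongr
    rw [mul_div_assoc]
    gcongr
  calc 1 / (8 * √(m : ℝ)) * ‖∑ h ∈ s, F h + ∑' h : ((s : Set ℤ)ᶜ : Set ℤ), F h‖
      ≤ 1 / (4 * √(K : ℝ)) * (y * (R * I₀) +
          8 * y * (C₁ * R * (8 ^ B * (K / y) ^ B)) * (4 / ((H : ℝ) + 1) ^ (B - 1))) := by
        gcongr
        refine (norm_add_le _ _).trans (add_le_add hmain (htail.trans ?_))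
        gcongr
    _ = R * (y / √(K : ℝ)) * (1 / 4 * I₀ + C₁ * 8 ^ B * 8 * ((K / y) ^ B / ((H : ℝ) + 1) ^ (B - 1))) := by
        field_simp
    _ ≤ R * (y / √(K : ℝ)) * ((1 + C₁ * 8 ^ B * 8) * I₀ +
          (1 + C₁ * 8 ^ B * 8) * ((K / y) ^ B / ((H : ℝ) + 1) ^ (B - 1))) := by
        have h1 : 0 ≤ C₁ * 8 ^ B * 8 := by positivity
        have h2 : (0 : ℝ) ≤ (K / y) ^ B / ((H : ℝ) + 1) ^ (B - 1) := by positivity
        gcongr
        · nlinarith
        · linarith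
    _ = _ := by ring

end Pool.Agent.MP0016c7.Rz
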