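import Mathlib
import Pool.Agent.Lib.MP_0016c7_nt.Rz.Defs
import Pool.Agent.Lib.MP_0016c7_nt.Rz2.QDefs
import Pool.Agent.Lib.MP_0016c7_nt.Rz2.Fourth
import Pool.Agent.Lib.MP_0016c7_nt.Rz2.Fourth2
import Pool.Agent.Lib.MP_0016c7_nt.Rz2.Dual

set_option autoImplicit false

/-!
Fourth moment of smooth character sums, all ranges (D12).
-/

open Finset MeasureTheory Filter Topology
open scoped Real ContDiff

namespace Pool.Agent.MP0016c7.Rz

private lemma fv_int_pow4 (f : ℝ → ℝ) (hf : Continuous f) :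
    (∫ w in (1 / 2 : ℝ)..4, f w) ^ 4 ≤ (7 / 2) ^ 3 * ∫ w in (1 / 2 : ℝ)..4, (f w) ^ 4 := by
  set I := ∫ w in (1 / 2 : ℝ)..4, f w with hI
  obtain ⟨A, hA⟩ : ∃ A : ℝ, A = I / (7 / 2) := ⟨_, rfl⟩
  have h1 : ∫ w in (1 / 2 : ℝ)..4, (A ^ 4 + 4 * A ^ 3 * (f w - A)) ≤
      ∫ w in (1 / 2 : ℝ)..4, (f w) ^ 4 := by
    apply intervalIntegral.integral_mono_on (by norm_num)
    · exact (by fun_prop : Continuous fun w => A ^ 4 + 4 * A ^ 3 * (f w - A)).intervalIntegrable _ _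
    · exact (by fun_prop : Continuous fun w => (f w) ^ 4).intervalIntegrable _ _
    · intro w _
      have : (f w) ^ 4 - (A ^ 4 + 4 * A ^ 3 * (f w - A)) =
          (f w - A) ^ 2 * ((f w + A) ^ 2 + 2 * A ^ 2) := by ring
      have h2 : 0 ≤ (f w - A) ^ 2 * ((f w + A) ^ 2 + 2 * A ^ 2) := by (clear * -; positivity)
      linarith
  have h2 : ∫ w in (1 / 2 : ℝ)..4, (A ^ 4 + 4 * A ^ 3 * (f w - A)) = (7 / 2) * A ^ 4 := by
    rw [intervalIntegral.integral_add, intervalIntegral.integral_const,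
      intervalIntegral.integral_const_mul, intervalIntegral.integral_sub,
      intervalIntegral.integral_const, ← hI]
    · have : I = 7 / 2 * A := by rw [hA]; ring
      rw [this]
      simp only [smul_eq_mul]
      ring
    · exact hf.intervalIntegrable _ _
    · exact intervalIntegrable_const
    · exact intervalIntegrable_const
    · exact (by fun_prop : Continuous fun w => 4 * A ^ 3 * (f w - A)).intervalIntegrable _ _
  have h3 : I = 7 / 2 * A := by rw [hA]; ring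
  rw [h3]
  rw [h2] at h1
  have : (7 / 2 * A) ^ 4 = (7 / 2) ^ 3 * (7 / 2 * A ^ 4) := by ring
  rw [this]
  exact mul_le_mul_of_nonneg_left h1 (by positivity)

private lemma fv_split (H : ℕ) (g : ℤ → ℂ) :
    ∑ h ∈ (Icc (-(H : ℤ)) H).filter (fun h => h ≠ 0), g h =
      ∑ n ∈ Icc 1 H, g (n : ℤ) + ∑ n ∈ Icc 1 H, g (-(n : ℤ)) := by
  have hset : (Icc (-(H : ℤ)) H).filter (fun h => h ≠ 0) =
      (Icc 1 H).image (fun n : ℕ => (n : ℤ)) ∪ (Icc 1 H).image (fun n : ℕ => -(n : ℤ)) := by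
    ext h
    simp only [mem_filter, mem_Icc, mem_union, mem_image]
    constructor
    · rintro ⟨⟨h1, h2⟩, h3⟩
      rcases lt_or_gt_of_ne h3 with h4 | h4
      · right
        exact ⟨h.natAbs, ⟨by omega, by omega⟩, by omega⟩
      · left
        exact ⟨h.natAbs, ⟨by omega, by omega⟩, by omega⟩
    · rintro (⟨n, ⟨h1, h2⟩, rfl⟩ | ⟨n, ⟨h1, h2⟩, rfl⟩)
      · exact ⟨⟨by omega, by omega⟩, by omega⟩
      · exact ⟨⟨by omega, by omega⟩, by omega⟩
  rw [hset, sum_union, sum_image, sum_image]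
  · intro a _ b _ h
    simpa using h
  · intro a _ b _ h
    simpa using h
  · rw [disjoint_left]
    intro x hx hy
    simp only [mem_image, mem_Icc] at hx hy
    obtain ⟨n, hn, rfl⟩ := hx
    obtain ⟨n', hn', h⟩ := hy
    omega

private lemma fv_jr_neg (h : ℤ) (m : ℕ) : jr (-h) m = jr (-1) m * jr h m := by
  unfold jr
  split_ifs
  · rw [show -h = (-1) * h by ring, jacobiSym.mul_left]
    push_cast
    ring
  · simp

private lemma fv_jr_abs (h : ℤ) (m : ℕ) : |jr h m| ≤ 1 := by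
  unfold jr
  split_ifs
  · rcases jacobiSym.trichotomy h m with h | h | h <;> rw [h] <;> norm_num
  · simp

private lemma fv_add4 (a b : ℂ) : ‖a + b‖ ^ 4 ≤ 8 * (‖a‖ ^ 4 + ‖b‖ ^ 4) := by
  have h1 : ‖a + b‖ ≤ ‖a‖ + ‖b‖ := norm_add_le a b
  have h2 : ‖a + b‖ ^ 4 ≤ (‖a‖ + ‖b‖) ^ 4 := by gcongr
  have h3 : (‖a‖ + ‖b‖) ^ 4 ≤ 8 * (‖a‖ ^ 4 + ‖b‖ ^ 4) := by
    have h4 : (‖a‖ + ‖b‖) ^ 2 ≤ 2 * (‖a‖ ^ 2 + ‖b‖ ^ 2) := by nlinarith only [sq_nonneg (‖a‖ - ‖b‖)]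
    have h5 : ((‖a‖ + ‖b‖) ^ 2) ^ 2 ≤ (2 * (‖a‖ ^ 2 + ‖b‖ ^ 2)) ^ 2 := by gcongr
    nlinarith only [h5, sq_nonneg (‖a‖ ^ 2 - ‖b‖ ^ 2)]
  linarith

private lemma fv_add4' (a b : ℝ) : (a + b) ^ 4 ≤ 8 * (a ^ 4 + b ^ 4) := by
  have h4 : (a + b) ^ 2 ≤ 2 * (a ^ 2 + b ^ 2) := by nlinarith only [sq_nonneg (a - b)]
  have h5 : ((a + b) ^ 2) ^ 2 ≤ (2 * (a ^ 2 + b ^ 2)) ^ 2 := by gcongr
  nlinarith only [h5, sq_nonneg (a ^ 2 - b ^ 2)]

private lemma fv_dual [QlsHyp] (ε : ℝ) (hε : 0 < ε) : ∃ C : ℝ, 0 < C ∧ ∀ c : ℕ → ℤ → ℂ,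
    (∀ κ h, ‖c κ h‖ ≤ 8) → ∀ K H : ℕ, 1 ≤ K → 1 ≤ H → ∀ e : ℤ → ℂ, (∀ h, ‖e h‖ ≤ 1) →
    ∑ m ∈ OsfD K, ‖∑ h ∈ (Icc (-(H : ℤ)) H).filter (fun h => h ≠ 0),
      c (m % 8) h * (jr h m : ℂ) * e h‖ ^ 4 ≤
      C * ((K : ℝ) * H) ^ ε * (K + (H : ℝ) ^ 2) * (H : ℝ) ^ 2 := by
  obtain ⟨C₁, hC₁, h₁⟩ := fourth_jr ε hε
  refine ⟨8 * (8 * (2 * (C₁ * 8 ^ 4))), by positivity, ?_⟩
  intro c hc K H hK hH e he
  have hHpos : (0 : ℝ) < H := by exact_mod_cast hH
  -- the bound for a fixed residue class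
  have hT : ∀ κ : ℕ, ∀ s : ℤ, (∑ m ∈ Osf K, ‖∑ n ∈ Icc 1 H, (c κ (s * n) * e (s * n)) *
      (jr n m : ℂ)‖ ^ 4 ≤ C₁ * ((K : ℝ) * H) ^ ε * (K + (H : ℝ) ^ 2) * (8 * √(H : ℝ)) ^ 4) := by
    intro κ s
    refine h₁ K H hK hH (8 * √(H : ℝ)) (fun n => c κ (s * n) * e (s * n)) (by positivity) ?_
    intro n hn hnH
    have hnpos : (0 : ℝ) < n := by exact_mod_cast hn
    have hsn : 0 < √(n : ℝ) := Real.sqrt_pos.mpr hnpos
    rw [le_div_iff₀ hsn]
    have h2 : √(n : ℝ) ≤ √(H : ℝ) := Real.sqrt_le_sqrt (by exact_mod_cast hnH)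
    calc ‖c κ (s * n) * e (s * n)‖ * √(n : ℝ) ≤ (8 * 1) * √(H : ℝ) := by
          rw [norm_mul]
          gcongr
          · exact hc _ _
          · exact he _
      _ = 8 * √(H : ℝ) := by ring
  have h4 : (8 * √(H : ℝ)) ^ 4 = 8 ^ 4 * (H : ℝ) ^ 2 := by
    have : √(H : ℝ) ^ 2 = H := Real.sq_sqrt hHpos.le
    calc (8 * √(H : ℝ)) ^ 4 = 8 ^ 4 * (√(H : ℝ) ^ 2) ^ 2 := by ring
      _ = _ := by rw [this]
  have hpt : ∀ κ m : ℕ, ‖∑ h ∈ (Icc (-(H : ℤ)) H).filter (fun h => h ≠ 0),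
      c κ h * (jr h m : ℂ) * e h‖ ^ 4 ≤
      8 * (‖∑ n ∈ Icc 1 H, (c κ (1 * n) * e (1 * n)) * (jr n m : ℂ)‖ ^ 4 +
        ‖∑ n ∈ Icc 1 H, (c κ ((-1) * n) * e ((-1) * n)) * (jr n m : ℂ)‖ ^ 4) := by
    intro κ m
    rw [fv_split]
    refine (fv_add4 _ _).trans ?_
    have ha : ∑ n ∈ Icc 1 H, c κ (n : ℤ) * (jr (n : ℤ) m : ℂ) * e (n : ℤ) =
        ∑ n ∈ Icc 1 H, (c κ (1 * n) * e (1 * n)) * (jr n m : ℂ) := by
      apply sum_congr rfl
      intro n _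
      rw [one_mul]
      ring
    have hb : ∑ n ∈ Icc 1 H, c κ (-(n : ℤ)) * (jr (-(n : ℤ)) m : ℂ) * e (-(n : ℤ)) =
        (jr (-1) m : ℂ) *
        ∑ n ∈ Icc 1 H, (c κ ((-1) * n) * e ((-1) * n)) * (jr n m : ℂ) := by
      rw [mul_sum]
      apply sum_congr rfl
      intro n _
      rw [fv_jr_neg, neg_one_mul]
      push_cast
      ring
    rw [ha, hb, norm_mul]
    have hj : ‖(jr (-1) m : ℂ)‖ ≤ 1 := by
      rw [Complex.norm_real, Real.norm_eq_abs]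
      exact fv_jr_abs _ _
    have : (‖(jr (-1) m : ℂ)‖ * ‖∑ n ∈ Icc 1 H, (c κ ((-1) * n) * e ((-1) * n)) *
        (jr n m : ℂ)‖) ^ 4 ≤ ‖∑ n ∈ Icc 1 H, (c κ ((-1) * n) * e ((-1) * n)) *
        (jr n m : ℂ)‖ ^ 4 := by
      gcongr
      exact mul_le_of_le_one_left (norm_nonneg _) hj
    linarith
  have hbig : ∑ m ∈ OsfD K, ‖∑ h ∈ (Icc (-(H : ℤ)) H).filter (fun h => h ≠ 0),
      c (m % 8) h * (jr h m : ℂ) * e h‖ ^ 4 ≤
      ∑ κ ∈ range 8, ∑ m ∈ Osf K, ‖∑ h ∈ (Icc (-(H : ℤ)) H).filter (fun h => h ≠ 0),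
      c κ h * (jr h m : ℂ) * e h‖ ^ 4 := by
    rw [sum_comm]
    have hsub : OsfD K ⊆ Osf K := by
      intro m hm
      simp only [OsfD, Osf, mem_filter] at hm ⊢
      exact ⟨hm.1, hm.2.2⟩
    refine (sum_le_sum_of_subset_of_nonneg hsub (fun _ _ _ => by positivity)).trans ?_
    apply sum_le_sum
    intro m _
    exact single_le_sum (f := fun κ => ‖∑ h ∈ (Icc (-(H : ℤ)) H).filter (fun h => h ≠ 0),
      c κ h * (jr h m : ℂ) * e h‖ ^ 4) (fun _ _ => by positivity)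
      (mem_range.mpr (Nat.mod_lt m (by norm_num)))
  refine hbig.trans ?_
  calc ∑ κ ∈ range 8, ∑ m ∈ Osf K, ‖∑ h ∈ (Icc (-(H : ℤ)) H).filter (fun h => h ≠ 0),
      c κ h * (jr h m : ℂ) * e h‖ ^ 4 ≤
      ∑ κ ∈ range 8, (8 * (2 * (C₁ * ((K : ℝ) * H) ^ ε * (K + (H : ℝ) ^ 2) *
        (8 ^ 4 * (H : ℝ) ^ 2)))) := by
        apply sum_le_sum
        intro κ _
        calc ∑ m ∈ Osf K, ‖∑ h ∈ (Icc (-(H : ℤ)) H).filter (fun h => h ≠ 0),
              c κ h * (jr h m : ℂ) * e h‖ ^ 4 ≤ ∑ m ∈ Osf K,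
              8 * (‖∑ n ∈ Icc 1 H, (c κ (1 * n) * e (1 * n)) * (jr n m : ℂ)‖ ^ 4 +
              ‖∑ n ∈ Icc 1 H, (c κ ((-1) * n) * e ((-1) * n)) * (jr n m : ℂ)‖ ^ 4) :=
              sum_le_sum fun m _ => hpt κ m
          _ = 8 * (∑ m ∈ Osf K, ‖∑ n ∈ Icc 1 H, (c κ (1 * n) * e (1 * n)) * (jr n m : ℂ)‖ ^ 4 +
              ∑ m ∈ Osf K, ‖∑ n ∈ Icc 1 H, (c κ ((-1) * n) * e ((-1) * n)) *
                (jr n m : ℂ)‖ ^ 4) := by rw [← mul_sum, sum_add_distrib]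
          _ ≤ _ := by
              have e1 := hT κ 1
              have e2 := hT κ (-1)
              rw [h4] at e1 e2
              linarith
    _ = _ := by
        rw [sum_const, card_range, nsmul_eq_mul]
        push_cast
        ring

set_option maxHeartbeats 1000000 in
theorem fourth_V [QlsHyp] (ε : ℝ) (hε : 0 < ε) : ∃ (C : ℝ) (B : ℕ), 0 < C ∧ ∀ X : ℝ, 2 ≤ X →
    ∀ K : ℕ, 1 ≤ K → (K : ℝ) ≤ X ^ 4 → ∀ y : ℝ, 0 < y → y ≤ X ^ 4 → ∀ u : ℤ,
    (u = 1 ∨ u = -1 ∨ u = 2 ∨ u = -2) → ∀ (V : ℝ → ℂ) (R : ℝ), ContDiff ℝ ∞ V →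
    (∀ t, V t ≠ 0 → 1 / 2 < t ∧ t < 2) → (∀ j ≤ B, ∀ t, ‖iteratedDeriv j V t‖ ≤ R) →
    ∑ m ∈ (OsfD K).filter (fun m : ℕ => u * m ≠ 1),
      ‖∑ n ∈ Icc 1 ⌊2 * y⌋₊, (jr (u * m) n : ℂ) * V (n / y)‖ ^ 4 ≤
      C * X ^ ε * R ^ 4 * K * y ^ 2 := by
  obtain ⟨e1, he1, he1ε, he11⟩ : ∃ e1 : ℝ, 0 < e1 ∧ 4 * e1 ≤ ε / 2 ∧ e1 ≤ 1 :=
    ⟨min (ε / 8) 1, by positivity, by have := min_le_left (ε / 8) 1; linarith, min_le_right _ _⟩
  obtain ⟨b, hb⟩ : ∃ b : ℕ, 2 ≤ e1 * ((b : ℝ) + 1) := by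
    refine ⟨⌈2 / e1⌉₊, ?_⟩
    have := Nat.le_ceil (2 / e1)
    have h2 : 2 = e1 * (2 / e1) := by field_simp
    calc (2 : ℝ) = e1 * (2 / e1) := h2
      _ ≤ e1 * ((⌈2 / e1⌉₊ : ℝ) + 1) := by
          apply mul_le_mul_of_nonneg_left _ he1.le
          linarith only [this]
  obtain ⟨C₁, hC₁, h₁⟩ := fourth_jr' (ε / 9) (by positivity)
  obtain ⟨C₂, hC₂, h₂⟩ := fv_dual (ε / 14) (by positivity)
  obtain ⟨C₃, hC₃, h₃⟩ := dual_bound (b + 2) (by omega)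
  refine ⟨C₁ * 20 + 8 * C₃ ^ 4 * ((7 / 2) ^ 4 * C₂ * 2 + 1), b + 2, by positivity, ?_⟩
  intro X hX K hK hKX y hy hyX u hu V R hV hVs hVb
  have hVb0 : ∀ t, ‖V t‖ ≤ R := fun t => by simpa using hVb 0 (Nat.zero_le _) t
  have hR : 0 ≤ R := le_trans (norm_nonneg _) (hVb0 0)
  have hX0 : (0 : ℝ) < X := by linarith
  have hX1 : (1 : ℝ) ≤ X := by linarith
  have hKpos : (0 : ℝ) < K := by exact_mod_cast hK
  have hK1 : (1 : ℝ) ≤ K := by exact_mod_cast hK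
  have hXε : 1 ≤ X ^ ε := Real.one_le_rpow hX1 hε.le
  have hsK : 0 < √(K : ℝ) := Real.sqrt_pos.mpr hKpos
  have hsK2 : √(K : ℝ) ^ 2 = K := Real.sq_sqrt hKpos.le
  have hsub : OsfD K ⊆ Osf K := by
    intro m hm
    simp only [OsfD, Osf, mem_filter] at hm ⊢
    exact ⟨hm.1, hm.2.2⟩
  rcases le_or_gt y (√(K : ℝ)) with hc | hc
  · -- direct use of the large sieve
    have hfin : ∑ m ∈ (OsfD K).filter (fun m : ℕ => u * m ≠ 1),
        ‖∑ n ∈ Icc 1 ⌊2 * y⌋₊, (jr (u * m) n : ℂ) * V (n / y)‖ ^ 4 ≤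
        C₁ * 20 * X ^ ε * R ^ 4 * K * y ^ 2 := by
      rcases Nat.eq_zero_or_pos ⌊2 * y⌋₊ with h0 | hpos
      · rw [h0]
        simp only [Icc_eq_empty_of_lt (by norm_num : 0 < 1), sum_empty, norm_zero]
        simp only [ne_eq, OfNat.ofNat_ne_zero, not_false_eq_true, zero_pow, sum_const_zero]
        (clear * - hC₁ hX hK hy; positivity)
      · have hN : ((⌊2 * y⌋₊ : ℕ) : ℝ) ≤ 2 * y := Nat.floor_le (by positivity)
        have hNpos : (0 : ℝ) < (⌊2 * y⌋₊ : ℕ) := by exact_mod_cast hpos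
        have hcoef : ∀ n : ℕ, 1 ≤ n → n ≤ ⌊2 * y⌋₊ → ‖V (n / y)‖ ≤ (R * √(2 * y)) / √(n : ℝ) := by
          intro n hn hnN
          have hnpos : (0 : ℝ) < n := by exact_mod_cast hn
          have hsn : 0 < √(n : ℝ) := Real.sqrt_pos.mpr hnpos
          rw [le_div_iff₀ hsn]
          have h2 : √(n : ℝ) ≤ √(2 * y) := by
            apply Real.sqrt_le_sqrt
            have : (n : ℝ) ≤ (⌊2 * y⌋₊ : ℕ) := by exact_mod_cast hnN
            linarith
          exact mul_le_mul (hVb0 _) h2 hsn.le hR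
        have h := h₁ K ⌊2 * y⌋₊ hK hpos (R * √(2 * y)) (fun n => V (n / y)) (by positivity)
          hcoef u hu
        have hle : ∑ m ∈ (OsfD K).filter (fun m : ℕ => u * m ≠ 1),
            ‖∑ n ∈ Icc 1 ⌊2 * y⌋₊, (jr (u * m) n : ℂ) * V (n / y)‖ ^ 4 ≤
            ∑ m ∈ Osf K, ‖∑ n ∈ Icc 1 ⌊2 * y⌋₊, V (n / y) * (jr (u * m) n : ℂ)‖ ^ 4 := by
          have he : ∀ m : ℕ, ∑ n ∈ Icc 1 ⌊2 * y⌋₊, (jr (u * m) n : ℂ) * V (n / y) =
              ∑ n ∈ Icc 1 ⌊2 * y⌋₊, V (n / y) * (jr (u * m) n : ℂ) := fun m =>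
            sum_congr rfl fun n _ => mul_comm _ _
          simp_rw [he]
          apply sum_le_sum_of_subset_of_nonneg ((filter_subset _ _).trans hsub)
          intro _ _ _
          positivity
        refine hle.trans (h.trans ?_)
        have hp : ((K : ℝ) * (⌊2 * y⌋₊ : ℕ)) ^ (ε / 9) ≤ X ^ ε := by
          have : (K : ℝ) * (⌊2 * y⌋₊ : ℕ) ≤ X ^ 9 := by
            calc (K : ℝ) * (⌊2 * y⌋₊ : ℕ) ≤ X ^ 4 * (2 * y) := by gcongr
              _ ≤ X ^ 4 * (X * X ^ 4) := by gcongr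
              _ = X ^ 9 := by ring
          calc ((K : ℝ) * (⌊2 * y⌋₊ : ℕ)) ^ (ε / 9) ≤ (X ^ 9) ^ (ε / 9) :=
                Real.rpow_le_rpow (by positivity) this (by positivity)
            _ = X ^ ε := by
                rw [← Real.rpow_natCast X 9, ← Real.rpow_mul hX0.le]
                congr 1
                push_cast
                ring
        have h5 : (K : ℝ) + ((⌊2 * y⌋₊ : ℕ) : ℝ) ^ 2 ≤ 5 * K := by
          have : ((⌊2 * y⌋₊ : ℕ) : ℝ) ^ 2 ≤ 4 * K := by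
            calc ((⌊2 * y⌋₊ : ℕ) : ℝ) ^ 2 ≤ (2 * y) ^ 2 := by gcongr
              _ = 4 * y ^ 2 := by ring
              _ ≤ 4 * √(K : ℝ) ^ 2 := by gcongr
              _ = 4 * K := by rw [hsK2]
          linarith
        have h6 : (R * √(2 * y)) ^ 4 = R ^ 4 * (4 * y ^ 2) := by
          have : √(2 * y) ^ 2 = 2 * y := Real.sq_sqrt (by positivity)
          calc (R * √(2 * y)) ^ 4 = R ^ 4 * (√(2 * y) ^ 2) ^ 2 := by ring
            _ = _ := by rw [this]; ring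
        rw [h6]
        calc C₁ * ((K : ℝ) * (⌊2 * y⌋₊ : ℕ)) ^ (ε / 9) * (K + ((⌊2 * y⌋₊ : ℕ) : ℝ) ^ 2) *
              (R ^ 4 * (4 * y ^ 2)) ≤ C₁ * X ^ ε * (5 * K) * (R ^ 4 * (4 * y ^ 2)) := by (clear * - hp hC₁ h5 hK hpos hX hy; gcongr)
          _ = _ := by ring
    refine hfin.trans ?_
    have : 0 ≤ (8 * C₃ ^ 4 * ((7 / 2) ^ 4 * C₂ * 2 + 1)) * X ^ ε * R ^ 4 * K * y ^ 2 := by
      (clear * - hC₃ hC₂ hX hK hy; positivity)
    linarith only [this]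
  · -- the dual range
    have hy1 : 1 ≤ y := by
      have : 1 ≤ √(K : ℝ) := Real.one_le_sqrt.mpr hK1
      linarith
    obtain ⟨H, hHdef⟩ : ∃ H : ℕ, H = ⌊(K : ℝ) / y * X ^ e1⌋₊ := ⟨_, rfl⟩
    have hXe1 : 1 ≤ X ^ e1 := Real.one_le_rpow hX1 he1.le
    have hXe1' : X ^ e1 ≤ X := by
      calc X ^ e1 ≤ X ^ (1 : ℝ) := Real.rpow_le_rpow_of_exponent_le hX1 he11
        _ = X := Real.rpow_one X
    have hHle : (H : ℝ) ≤ (K : ℝ) / y * X ^ e1 := by
      rw [hHdef]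
      exact Nat.floor_le (by positivity)
    have hHge : (K : ℝ) / y * X ^ e1 ≤ (H : ℝ) + 1 := by
      rw [hHdef]
      exact (Nat.lt_floor_add_one _).le
    have hKy : (K : ℝ) / y ≤ √(K : ℝ) := by
      rw [div_le_iff₀ hy]
      calc (K : ℝ) = √(K : ℝ) * √(K : ℝ) := by rw [← sq, hsK2]
        _ ≤ √(K : ℝ) * y := by gcongr
    have hsKX : √(K : ℝ) ≤ X ^ 2 := by
      rw [Real.sqrt_le_left (by positivity)]
      calc (K : ℝ) ≤ X ^ 4 := hKX
        _ = (X ^ 2) ^ 2 := by ring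
    obtain ⟨c, hc8, hdual⟩ := h₃ u hu
    obtain ⟨T, hT⟩ : ∃ T : ℝ, T = ((K : ℝ) / y) ^ (b + 2) / ((H : ℝ) + 1) ^ (b + 2 - 1) := ⟨_, rfl⟩
    have hT0 : 0 ≤ T := by rw [hT]; positivity
    have hTb : y / √(K : ℝ) * T ≤ 1 := by
      have hP : 0 < (K : ℝ) / y * X ^ e1 := by positivity
      have e2 : ((K : ℝ) / y * X ^ e1) ^ (b + 1) ≤ ((H : ℝ) + 1) ^ (b + 1) := by (clear * - hK hy hX hHge; gcongr)
      have e3 : T ≤ ((K : ℝ) / y) / (X ^ e1) ^ (b + 1) := by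
        rw [hT, show b + 2 - 1 = b + 1 by omega, div_le_div_iff₀ (by positivity) (by positivity)]
        calc ((K : ℝ) / y) ^ (b + 2) * (X ^ e1) ^ (b + 1) =
              (K : ℝ) / y * ((K : ℝ) / y * X ^ e1) ^ (b + 1) := by
                rw [mul_pow]
                ring
          _ ≤ (K : ℝ) / y * ((H : ℝ) + 1) ^ (b + 1) := by gcongr
      have e4 : X ^ 2 ≤ (X ^ e1) ^ (b + 1) := by
        rw [← Real.rpow_natCast (X ^ e1) (b + 1), ← Real.rpow_mul hX0.le,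
          ← Real.rpow_natCast X 2]
        apply Real.rpow_le_rpow_of_exponent_le hX1
        push_cast
        exact hb
      have e5 : 0 < (X ^ e1) ^ (b + 1) := by positivity
      calc y / √(K : ℝ) * T ≤ y / √(K : ℝ) * (((K : ℝ) / y) / (X ^ e1) ^ (b + 1)) := by (clear * - e3 hy hK; gcongr)
        _ = (K / √(K : ℝ)) / (X ^ e1) ^ (b + 1) := by field_simp
        _ = √(K : ℝ) / (X ^ e1) ^ (b + 1) := by rw [Real.div_sqrt]
        _ ≤ 1 := by
            rw [div_le_one e5]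
            exact hsKX.trans e4
    -- the integrand
    obtain ⟨f, hf⟩ : ∃ f : ℕ → ℝ → ℝ, f = fun (m : ℕ) (w : ℝ) =>
        ‖∑ h ∈ (Icc (-(H : ℤ)) H).filter (fun h => h ≠ 0), c (m % 8) h * (jr h m : ℂ) *
          Complex.exp (-(2 * π * Complex.I * (y * h * w / (8 * K))))‖ := ⟨_, rfl⟩
    have hfc : ∀ m, Continuous (f m) := by
      intro m
      rw [hf]
      fun_prop
    have hpt : ∀ m ∈ (OsfD K).filter (fun m : ℕ => u * m ≠ 1),
        ‖∑ n ∈ Icc 1 ⌊2 * y⌋₊, (jr (u * m) n : ℂ) * V (n / y)‖ ^ 4 ≤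
        8 * C₃ ^ 4 * R ^ 4 * ((y / √(K : ℝ)) ^ 4 * ((7 / 2) ^ 3 * ∫ w in (1 / 2 : ℝ)..4, (f m w) ^ 4)
          + 1) := by
      intro m hm
      rw [mem_filter] at hm
      have h := hdual K m hm.1 hm.2 y hy V R hV hVs hVb H
      have hI : (∫ w in (1 / 2 : ℝ)..4, ‖∑ h ∈ (Icc (-(H : ℤ)) H).filter (fun h => h ≠ 0),
            c (m % 8) h * (jr h m : ℂ) *
              Complex.exp (-(2 * π * Complex.I * (y * h * w / (8 * K))))‖) =
          ∫ w in (1 / 2 : ℝ)..4, f m w := by rw [hf]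
      rw [hI, ← hT] at h
      have h4 := fv_int_pow4 (f m) (hfc m)
      calc ‖∑ n ∈ Icc 1 ⌊2 * y⌋₊, (jr (u * m) n : ℂ) * V (n / y)‖ ^ 4 ≤
            (C₃ * R * (y / √(K : ℝ)) * ((∫ w in (1 / 2 : ℝ)..4, f m w) + T)) ^ 4 := by gcongr
        _ = C₃ ^ 4 * R ^ 4 * (y / √(K : ℝ) * (∫ w in (1 / 2 : ℝ)..4, f m w) +
              y / √(K : ℝ) * T) ^ 4 := by ring
        _ ≤ C₃ ^ 4 * R ^ 4 * (8 * ((y / √(K : ℝ) * (∫ w in (1 / 2 : ℝ)..4, f m w)) ^ 4 +
              (y / √(K : ℝ) * T) ^ 4)) := by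
            gcongr
            exact fv_add4' _ _
        _ ≤ C₃ ^ 4 * R ^ 4 * (8 * ((y / √(K : ℝ)) ^ 4 *
              ((7 / 2) ^ 3 * ∫ w in (1 / 2 : ℝ)..4, (f m w) ^ 4) + 1)) := by
            have e6 : (y / √(K : ℝ) * T) ^ 4 ≤ 1 := pow_le_one₀ (by positivity) hTb
            have e7 : (y / √(K : ℝ) * (∫ w in (1 / 2 : ℝ)..4, f m w)) ^ 4 ≤
                (y / √(K : ℝ)) ^ 4 * ((7 / 2) ^ 3 * ∫ w in (1 / 2 : ℝ)..4, (f m w) ^ 4) := by
              rw [mul_pow]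
              gcongr
            (clear * - e7 e6 hC₃; gcongr)
        _ = _ := by ring
    have hsumI : ∑ m ∈ (OsfD K).filter (fun m : ℕ => u * m ≠ 1),
        ∫ w in (1 / 2 : ℝ)..4, (f m w) ^ 4 ≤
        (7 / 2) * (C₂ * ((K : ℝ) * H) ^ (ε / 14) * (K + (H : ℝ) ^ 2) * (H : ℝ) ^ 2) := by
      rw [← intervalIntegral.integral_finsetSum]
      · calc ∫ w in (1 / 2 : ℝ)..4, ∑ m ∈ (OsfD K).filter (fun m : ℕ => u * m ≠ 1), (f m w) ^ 4 ≤
              ∫ w in (1 / 2 : ℝ)..4,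
                (C₂ * ((K : ℝ) * H) ^ (ε / 14) * (K + (H : ℝ) ^ 2) * (H : ℝ) ^ 2) := by
              apply intervalIntegral.integral_mono_on (by norm_num)
              · apply Continuous.intervalIntegrable
                apply continuous_finsetSum
                intro m _
                exact (hfc m).pow 4
              · exact intervalIntegrable_const
              · intro w _
                have hsub2 : ∑ m ∈ (OsfD K).filter (fun m : ℕ => u * m ≠ 1), (f m w) ^ 4 ≤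
                    ∑ m ∈ OsfD K, (f m w) ^ 4 := by
                  apply sum_le_sum_of_subset_of_nonneg (filter_subset _ _)
                  intro _ _ _
                  positivity
                refine hsub2.trans ?_
                rcases Nat.eq_zero_or_pos H with hH0 | hHpos
                · have hz : ∀ m, f m w = 0 := by
                    intro m
                    rw [hf]
                    simp only [hH0]
                    have : (Icc (-((0 : ℕ) : ℤ)) ((0 : ℕ) : ℤ)).filter (fun h => h ≠ 0) = ∅ := by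
                      decide
                    rw [this]
                    simp
                  simp only [hz, hH0]
                  simp
                · have := h₂ c hc8 K H hK hHpos
                    (fun h => Complex.exp (-(2 * π * Complex.I * (y * h * w / (8 * K))))) (by
                      intro h
                      rw [Complex.norm_exp]
                      apply le_of_eq
                      have : (-(2 * π * Complex.I * ((y : ℂ) * (h : ℂ) * (w : ℂ) /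
                          (8 * (K : ℂ))))).re = 0 := by
                        have : (-(2 * π * Complex.I * ((y : ℂ) * (h : ℂ) * (w : ℂ) /
                          (8 * (K : ℂ))))) = ((-(2 * π * (y * h * w / (8 * K))) : ℝ) : ℂ) *
                            Complex.I := by
                          push_cast
                          ring
                        rw [this, Complex.mul_re, Complex.ofReal_re, Complex.ofReal_im,
                          Complex.I_re, Complex.I_im]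
                        ring
                      rw [this, Real.exp_zero])
                  rw [hf]
                  exact this
          _ = _ := by
              rw [intervalIntegral.integral_const, smul_eq_mul]
              norm_num
      · intro m _
        exact ((hfc m).pow 4).intervalIntegrable _ _
    have hcard : (((OsfD K).filter (fun m : ℕ => u * m ≠ 1)).card : ℝ) ≤ K := by
      have : ((OsfD K).filter (fun m : ℕ => u * m ≠ 1)).card ≤ (Icc 1 K).card :=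
        card_le_card ((filter_subset _ _).trans (filter_subset _ _))
      rw [Nat.card_Icc] at this
      exact_mod_cast this
    have hmain : (y / √(K : ℝ)) ^ 4 * ((7 / 2) ^ 3 * ((7 / 2) * (C₂ * ((K : ℝ) * H) ^ (ε / 14) *
        (K + (H : ℝ) ^ 2) * (H : ℝ) ^ 2))) ≤ (7 / 2) ^ 4 * C₂ * 2 * X ^ ε * K * y ^ 2 := by
      have e1' : ((K : ℝ) * H) ^ (ε / 14) ≤ X ^ (ε / 2) := by
        have : (K : ℝ) * H ≤ X ^ 7 := by
          calc (K : ℝ) * H ≤ X ^ 4 * ((K : ℝ) / y * X ^ e1) := by (clear * - hKX hHle hX; gcongr)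
            _ ≤ X ^ 4 * (X ^ 2 * X) := by
                gcongr
                exact hKy.trans hsKX
            _ = X ^ 7 := by ring
        calc ((K : ℝ) * H) ^ (ε / 14) ≤ (X ^ 7) ^ (ε / 14) :=
              Real.rpow_le_rpow (by (clear * - hK; positivity)) this (by positivity)
          _ = X ^ (ε / 2) := by
              rw [← Real.rpow_natCast X 7, ← Real.rpow_mul hX0.le]
              congr 1
              push_cast
              ring
      have e2' : (H : ℝ) ^ 2 ≤ (K : ℝ) ^ 2 / y ^ 2 * (X ^ e1) ^ 2 := by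
        calc (H : ℝ) ^ 2 ≤ ((K : ℝ) / y * X ^ e1) ^ 2 := by (clear * - hHle; gcongr)
          _ = _ := by ring
      have e3' : (K : ℝ) + (H : ℝ) ^ 2 ≤ 2 * K * (X ^ e1) ^ 2 := by
        have g1 : (K : ℝ) ^ 2 / y ^ 2 ≤ K := by
          calc (K : ℝ) ^ 2 / y ^ 2 = ((K : ℝ) / y) ^ 2 := by ring
            _ ≤ √(K : ℝ) ^ 2 := by (clear * - hK hy hKy; gcongr)
            _ = K := hsK2
        have g2 : (1 : ℝ) ≤ (X ^ e1) ^ 2 := one_le_pow₀ hXe1
        calc (K : ℝ) + (H : ℝ) ^ 2 ≤ K * (X ^ e1) ^ 2 + K * (X ^ e1) ^ 2 := by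
              gcongr
              · exact le_mul_of_one_le_right hKpos.le g2
              · exact e2'.trans (by (clear * - g1 hX; gcongr))
          _ = _ := by ring
      have e4' : (X ^ e1) ^ 4 ≤ X ^ (ε / 2) := by
        rw [← Real.rpow_natCast (X ^ e1) 4, ← Real.rpow_mul hX0.le]
        apply Real.rpow_le_rpow_of_exponent_le hX1
        push_cast
        linarith only [he1ε]
      have e5' : (y / √(K : ℝ)) ^ 4 = y ^ 4 / (K : ℝ) ^ 2 := by
        rw [div_pow]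
        congr 1
        calc √(K : ℝ) ^ 4 = (√(K : ℝ) ^ 2) ^ 2 := by ring
          _ = _ := by rw [hsK2]
      have e6' : X ^ (ε / 2) * X ^ (ε / 2) = X ^ ε := by
        rw [← Real.rpow_add hX0]
        congr 1
        ring
      calc (y / √(K : ℝ)) ^ 4 * ((7 / 2) ^ 3 * ((7 / 2) * (C₂ * ((K : ℝ) * H) ^ (ε / 14) *
            (K + (H : ℝ) ^ 2) * (H : ℝ) ^ 2))) ≤
            (y ^ 4 / (K : ℝ) ^ 2) * ((7 / 2) ^ 3 * ((7 / 2) * (C₂ * X ^ (ε / 2) *
            (2 * K * (X ^ e1) ^ 2) * ((K : ℝ) ^ 2 / y ^ 2 * (X ^ e1) ^ 2)))) := by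
              rw [e5']
              (clear * - e1' hC₂ e3' hK hX e2' hy; gcongr)
        _ = (7 / 2) ^ 4 * C₂ * 2 * (X ^ (ε / 2) * (X ^ e1) ^ 4) * K * y ^ 2 := by
              field_simp
        _ ≤ (7 / 2) ^ 4 * C₂ * 2 * (X ^ (ε / 2) * X ^ (ε / 2)) * K * y ^ 2 := by (clear * - e4' hX hC₂ hK hy; gcongr)
        _ = _ := by rw [e6']
    calc ∑ m ∈ (OsfD K).filter (fun m : ℕ => u * m ≠ 1),
          ‖∑ n ∈ Icc 1 ⌊2 * y⌋₊, (jr (u * m) n : ℂ) * V (n / y)‖ ^ 4 ≤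
          ∑ m ∈ (OsfD K).filter (fun m : ℕ => u * m ≠ 1), 8 * C₃ ^ 4 * R ^ 4 *
          ((y / √(K : ℝ)) ^ 4 * ((7 / 2) ^ 3 * ∫ w in (1 / 2 : ℝ)..4, (f m w) ^ 4) + 1) :=
          sum_le_sum hpt
      _ = 8 * C₃ ^ 4 * R ^ 4 * ((y / √(K : ℝ)) ^ 4 * ((7 / 2) ^ 3 *
            ∑ m ∈ (OsfD K).filter (fun m : ℕ => u * m ≠ 1), ∫ w in (1 / 2 : ℝ)..4, (f m w) ^ 4) +
            ((OsfD K).filter (fun m : ℕ => u * m ≠ 1)).card) := by
          rw [← mul_sum, sum_add_distrib, ← mul_sum, ← mul_sum, sum_const, nsmul_eq_mul, mul_one]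
      _ ≤ 8 * C₃ ^ 4 * R ^ 4 * ((7 / 2) ^ 4 * C₂ * 2 * X ^ ε * K * y ^ 2 + K) := by
          have e8 : (y / √(K : ℝ)) ^ 4 * ((7 / 2) ^ 3 *
            ∑ m ∈ (OsfD K).filter (fun m : ℕ => u * m ≠ 1), ∫ w in (1 / 2 : ℝ)..4, (f m w) ^ 4) ≤
            (7 / 2) ^ 4 * C₂ * 2 * X ^ ε * K * y ^ 2 := by
            refine le_trans ?_ hmain
            (clear * - hsumI hy hK; gcongr)
          apply mul_le_mul_of_nonneg_left (add_le_add e8 hcard) (by positivity)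
      _ ≤ 8 * C₃ ^ 4 * R ^ 4 * ((7 / 2) ^ 4 * C₂ * 2 * X ^ ε * K * y ^ 2 + X ^ ε * K * y ^ 2) := by
          gcongr
          have : (1 : ℝ) ≤ y ^ 2 := one_le_pow₀ hy1
          calc (K : ℝ) = 1 * K * 1 := by ring
            _ ≤ X ^ ε * K * y ^ 2 := by (clear * - hXε hK this hX; gcongr)
      _ = (8 * C₃ ^ 4 * ((7 / 2) ^ 4 * C₂ * 2 + 1)) * X ^ ε * R ^ 4 * K * y ^ 2 := by ring
      _ ≤ _ := by
          have : 0 ≤ C₁ * 20 * X ^ ε * R ^ 4 * K * y ^ 2 := by (clear * - hC₁ hX hK hy; positivity)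
          linarith only [this]

end Pool.Agent.MP0016c7.Rz
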