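import Mathlib
import Pool.Agent.Lib.MP_0016c7_nt.Rz.Defs
import Pool.Agent.Lib.MP_0016c7_nt.Rz2.QDefs

set_option autoImplicit false

/-!
The dyadic weights (D13).
-/

open Finset MeasureTheory Filter Topology
open scoped Real ContDiff

namespace Pool.Agent.MP0016c7.Rz

theorem om_eq_one {v : ℝ} (h : v ≤ 1) : om v = 1 := by
  unfold om
  rw [Real.smoothTransition.zero_of_nonpos (by linarith)]
  ring

theorem om_eq_zero {v : ℝ} (h : 2 ≤ v) : om v = 0 := by
  unfold om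
  rw [Real.smoothTransition.one_of_one_le (by linarith)]
  ring

theorem om_mem (v : ℝ) : 0 ≤ om v ∧ om v ≤ 1 := by
  unfold om
  have h1 := Real.smoothTransition.nonneg (v - 1)
  have h2 := Real.smoothTransition.le_one (v - 1)
  constructor <;> linarith

private theorem VsBd_om_contDiff : ContDiff ℝ ∞ om := by
  unfold om
  exact contDiff_const.sub (Real.smoothTransition.contDiff.comp (contDiff_id.sub contDiff_const))

private theorem VsBd_Vz_contDiff : ContDiff ℝ ∞ Vz := by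
  unfold Vz
  exact VsBd_om_contDiff.sub (VsBd_om_contDiff.comp (contDiff_const.mul contDiff_id))

private theorem VsBd_Vz_low {v : ℝ} (h : v ≤ 1 / 2) : Vz v = 0 := by
  unfold Vz
  rw [om_eq_one (by linarith), om_eq_one (by linarith)]
  ring

private theorem VsBd_Vz_high {v : ℝ} (h : 2 ≤ v) : Vz v = 0 := by
  unfold Vz
  rw [om_eq_zero (by linarith), om_eq_zero (by linarith)]
  ring

/-- `v ^ z g(v)` for `v > 0`, zero otherwise. -/
private noncomputable def VsBdF (z : ℂ) (g : ℝ → ℂ) (v : ℝ) : ℂ :=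
  if 0 < v then (v : ℂ) ^ z * g v else 0

private theorem VsBdF_pos (z : ℂ) (g : ℝ → ℂ) {v : ℝ} (hv : 0 < v) :
    VsBdF z g v = Complex.exp ((Real.log v : ℂ) * z) * g v := by
  unfold VsBdF
  rw [if_pos hv, Complex.cpow_def_of_ne_zero (by exact_mod_cast hv.ne'),
    ← Complex.ofReal_log hv.le]

private theorem VsBdF_low (z : ℂ) (g : ℝ → ℂ) (hg : ∀ v ≤ (1 / 2 : ℝ), g v = 0) {v : ℝ}
    (hv : v ≤ 1 / 2) : VsBdF z g v = 0 := by
  unfold VsBdF
  rw [hg v hv]
  split_ifs <;> simp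

private theorem VsBdF_contDiff (z : ℂ) (g : ℝ → ℂ) (hgs : ContDiff ℝ ∞ g)
    (hg : ∀ v ≤ (1 / 2 : ℝ), g v = 0) : ContDiff ℝ ∞ (VsBdF z g) := by
  rw [contDiff_iff_contDiffAt]
  intro t
  rcases lt_or_ge t (1 / 2) with ht | ht
  · have : VsBdF z g =ᶠ[𝓝 t] fun _ => 0 := by
      filter_upwards [Iio_mem_nhds ht] with v hv
      exact VsBdF_low z g hg (le_of_lt hv)
    exact contDiffAt_const.congr_of_eventuallyEq this
  · have ht0 : 0 < t := by linarith
    have : VsBdF z g =ᶠ[𝓝 t] fun v => Complex.exp ((Real.log v : ℂ) * z) * g v := by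
      filter_upwards [Ioi_mem_nhds ht0] with v hv
      exact VsBdF_pos z g hv
    refine ContDiffAt.congr_of_eventuallyEq ?_ this
    have h1 : ContDiffAt ℝ ∞ (fun v : ℝ => (Real.log v : ℂ)) t :=
      Complex.ofRealCLM.contDiff.contDiffAt.comp t (Real.contDiffAt_log.2 ht0.ne')
    have h2 : ContDiffAt ℝ ∞ (fun v : ℝ => Complex.exp ((Real.log v : ℂ) * z)) t :=
      (h1.mul contDiffAt_const).cexp
    exact h2.mul hgs.contDiffAt

private theorem VsBdF_hasDerivAt (z : ℂ) (g : ℝ → ℂ) (hgs : ContDiff ℝ ∞ g)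
    (hg : ∀ v ≤ (1 / 2 : ℝ), g v = 0) (t : ℝ) :
    HasDerivAt (VsBdF z g) (z * VsBdF (z - 1) g t + VsBdF z (deriv g) t) t := by
  rcases lt_or_ge t (1 / 2) with ht | ht
  · have h0 : VsBdF z g =ᶠ[𝓝 t] fun _ => 0 := by
      filter_upwards [Iio_mem_nhds ht] with v hv
      exact VsBdF_low z g hg (le_of_lt hv)
    have h1 : g =ᶠ[𝓝 t] fun _ => 0 := by
      filter_upwards [Iio_mem_nhds ht] with v hv
      exact hg v (le_of_lt hv)
    have h2 : deriv g t = 0 := by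
      rw [h1.deriv_eq]; simp
    have h3 : VsBdF z (deriv g) t = 0 := by
      unfold VsBdF; rw [h2]; split_ifs <;> simp
    rw [VsBdF_low (z - 1) g hg ht.le, h3]
    have := (hasDerivAt_const t (0 : ℂ)).congr_of_eventuallyEq h0
    simpa using this
  · have ht0 : 0 < t := by linarith
    have h0 : VsBdF z g =ᶠ[𝓝 t] fun v => Complex.exp ((Real.log v : ℂ) * z) * g v := by
      filter_upwards [Ioi_mem_nhds ht0] with v hv
      exact VsBdF_pos z g hv
    have h1 : HasDerivAt (fun v : ℝ => (Real.log v : ℂ)) ((t⁻¹ : ℝ) : ℂ) t :=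
      (Real.hasDerivAt_log ht0.ne').ofReal_comp
    have h2 : HasDerivAt (fun v : ℝ => Complex.exp ((Real.log v : ℂ) * z))
        (Complex.exp ((Real.log t : ℂ) * z) * (((t⁻¹ : ℝ) : ℂ) * z)) t :=
      (h1.mul_const z).cexp
    have h3 : HasDerivAt g (deriv g t) t :=
      ((hgs.differentiable (by simp)) t).hasDerivAt
    have h4 := (h2.mul h3).congr_of_eventuallyEq h0
    refine h4.congr_deriv ?_
    rw [VsBdF_pos _ _ ht0, VsBdF_pos _ _ ht0]
    have h5 : Complex.exp ((Real.log t : ℂ) * (z - 1)) =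
        Complex.exp ((Real.log t : ℂ) * z) * ((t⁻¹ : ℝ) : ℂ) := by
      rw [mul_sub, mul_one, Complex.exp_sub]
      rw [← Complex.ofReal_exp, Real.exp_log ht0]
      push_cast
      rw [div_eq_mul_inv]
    rw [h5]
    ring

private theorem VsBdF_bound (j : ℕ) : ∀ g : ℝ → ℂ, ContDiff ℝ ∞ g →
    (∀ v ≤ (1 / 2 : ℝ), g v = 0) → (∀ v, (2 : ℝ) ≤ v → g v = 0) → ∀ M : ℝ, 0 ≤ M →
    ∃ C : ℝ, 0 ≤ C ∧ ∀ z : ℂ, -M ≤ z.re → z.re ≤ 0 → ∀ t : ℝ,
      ‖iteratedDeriv j (VsBdF z g) t‖ ≤ C * (1 + ‖z‖) ^ j := by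
  induction j with
  | zero =>
    intro g hgs hg1 hg2 M hM
    obtain ⟨G, hG⟩ : ∃ G : ℝ, ∀ v ∈ Set.Icc (1 / 2 : ℝ) 2, ‖g v‖ ≤ G :=
      isCompact_Icc.exists_bound_of_continuousOn hgs.continuous.continuousOn
    have hG0 : 0 ≤ G := le_trans (norm_nonneg _) (hG 1 ⟨by norm_num, by norm_num⟩)
    refine ⟨2 ^ M * G, by positivity, fun z hz1 hz2 t => ?_⟩
    simp only [iteratedDeriv_zero, pow_zero, mul_one]
    rcases le_or_gt t (1 / 2) with ht | ht
    · rw [VsBdF_low z g hg1 ht, norm_zero]; positivity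
    rcases le_or_gt 2 t with ht2 | ht2
    · have : VsBdF z g t = 0 := by
        unfold VsBdF; rw [hg2 t ht2]; split_ifs <;> simp
      rw [this, norm_zero]; positivity
    have ht0 : 0 < t := by linarith
    unfold VsBdF
    rw [if_pos ht0, norm_mul, Complex.norm_cpow_eq_rpow_re_of_pos ht0]
    have h1 : t ^ z.re ≤ 2 ^ M := by
      have : t ^ z.re ≤ (1 / 2 : ℝ) ^ z.re :=
        Real.rpow_le_rpow_of_nonpos (by norm_num) ht.le hz2
      refine this.trans ?_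
      rw [one_div, Real.inv_rpow (by norm_num), ← Real.rpow_neg (by norm_num)]
      exact Real.rpow_le_rpow_of_exponent_le (by norm_num) (by linarith)
    exact mul_le_mul h1 (hG t ⟨ht.le, ht2.le⟩) (norm_nonneg _) (by positivity)
  | succ j ih =>
    intro g hgs hg1 hg2 M hM
    have hgs' : ContDiff ℝ ∞ (deriv g) := (contDiff_infty_iff_deriv.1 hgs).2
    have hd1 : ∀ v ≤ (1 / 2 : ℝ), deriv g v = 0 := by
      have hcl : ∀ v < (1 / 2 : ℝ), deriv g v = 0 := by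
        intro v hv
        have h1 : g =ᶠ[𝓝 v] fun _ => 0 := by
          filter_upwards [Iio_mem_nhds hv] with u hu
          exact hg1 u (le_of_lt hu)
        rw [h1.deriv_eq]; simp
      intro v hv
      have hc : IsClosed {v : ℝ | deriv g v = 0} :=
        isClosed_eq hgs'.continuous continuous_const
      have : Set.Iio (1 / 2 : ℝ) ⊆ {v : ℝ | deriv g v = 0} := fun v hv => hcl v hv
      have h2 := hc.closure_subset_iff.2 this
      rw [closure_Iio' ⟨0, by norm_num⟩] at h2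
      exact h2 hv
    have hd2 : ∀ v, (2 : ℝ) ≤ v → deriv g v = 0 := by
      have hcl : ∀ v, (2 : ℝ) < v → deriv g v = 0 := by
        intro v hv
        have h1 : g =ᶠ[𝓝 v] fun _ => 0 := by
          filter_upwards [Ioi_mem_nhds hv] with u hu
          exact hg2 u (le_of_lt hu)
        rw [h1.deriv_eq]; simp
      intro v hv
      have hc : IsClosed {v : ℝ | deriv g v = 0} :=
        isClosed_eq hgs'.continuous continuous_const
      have : Set.Ioi (2 : ℝ) ⊆ {v : ℝ | deriv g v = 0} := fun v hv => hcl v hv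
      have h2 := hc.closure_subset_iff.2 this
      rw [closure_Ioi' ⟨3, by norm_num⟩] at h2
      exact h2 hv
    obtain ⟨C1, hC1, h1⟩ := ih g hgs hg1 hg2 (M + 1) (by linarith)
    obtain ⟨C2, hC2, h2⟩ := ih (deriv g) hgs' hd1 hd2 M hM
    refine ⟨C1 * 2 ^ j + C2, by positivity, fun z hz1 hz2 t => ?_⟩
    have hder : deriv (VsBdF z g) = fun t => z * VsBdF (z - 1) g t + VsBdF z (deriv g) t := by
      funext t
      exact (VsBdF_hasDerivAt z g hgs hg1 t).deriv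
    have hF1 := VsBdF_contDiff (z - 1) g hgs hg1
    have hF2 := VsBdF_contDiff z (deriv g) hgs' hd1
    rw [iteratedDeriv_succ', hder]
    have hadd : iteratedDeriv j (fun t => z * VsBdF (z - 1) g t + VsBdF z (deriv g) t) t =
        z * iteratedDeriv j (VsBdF (z - 1) g) t + iteratedDeriv j (VsBdF z (deriv g)) t := by
      have e1 : ContDiff ℝ j (fun t => z * VsBdF (z - 1) g t) :=
        (contDiff_const.mul hF1).of_le (by exact_mod_cast le_top)
      have e2 : ContDiff ℝ j (VsBdF z (deriv g)) := hF2.of_le (by exact_mod_cast le_top)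
      have e3 : ContDiff ℝ j (VsBdF (z - 1) g) := hF1.of_le (by exact_mod_cast le_top)
      have := iteratedDeriv_fun_add (x := t) e1.contDiffAt e2.contDiffAt
      rw [this]
      congr 1
      exact iteratedDeriv_const_mul z e3.contDiffAt
    rw [hadd]
    have b1 := h1 (z - 1) (by simp; linarith) (by simp; linarith) t
    have b2 := h2 z hz1 hz2 t
    have hz0 : 0 ≤ ‖z‖ := norm_nonneg z
    have hz3 : ‖z - 1‖ ≤ ‖z‖ + 1 := by
      calc ‖z - 1‖ ≤ ‖z‖ + ‖(1 : ℂ)‖ := norm_sub_le _ _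
        _ = ‖z‖ + 1 := by simp
    have hp : (1 + ‖z - 1‖) ^ j ≤ 2 ^ j * (1 + ‖z‖) ^ j := by
      rw [← mul_pow]
      exact pow_le_pow_left₀ (by positivity) (by linarith) j
    calc ‖z * iteratedDeriv j (VsBdF (z - 1) g) t + iteratedDeriv j (VsBdF z (deriv g)) t‖
        ≤ ‖z‖ * ‖iteratedDeriv j (VsBdF (z - 1) g) t‖ + ‖iteratedDeriv j (VsBdF z (deriv g)) t‖ := by
          refine (norm_add_le _ _).trans ?_
          rw [norm_mul]
      _ ≤ ‖z‖ * (C1 * (2 ^ j * (1 + ‖z‖) ^ j)) + C2 * (1 + ‖z‖) ^ j := by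
          refine add_le_add (mul_le_mul_of_nonneg_left (b1.trans ?_) hz0) b2
          exact mul_le_mul_of_nonneg_left hp hC1
      _ ≤ (1 + ‖z‖) * (C1 * (2 ^ j * (1 + ‖z‖) ^ j)) + (1 + ‖z‖) * (C2 * (1 + ‖z‖) ^ j) := by
          refine add_le_add (mul_le_mul_of_nonneg_right (by linarith) (by positivity)) ?_
          have : 0 ≤ C2 * (1 + ‖z‖) ^ j := by positivity
          nlinarith
      _ = (C1 * 2 ^ j + C2) * (1 + ‖z‖) ^ (j + 1) := by ring

private theorem VsBd_eq (s : ℂ) : Vs s = VsBdF (-(1 / 2 : ℂ) - s) (fun v => (Vz v : ℂ)) := by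
  funext v
  rfl

private theorem VsBd_g_contDiff : ContDiff ℝ ∞ (fun v => (Vz v : ℂ)) :=
  Complex.ofRealCLM.contDiff.comp VsBd_Vz_contDiff

theorem Vs_contDiff (s : ℂ) : ContDiff ℝ ∞ (Vs s) := by
  rw [VsBd_eq]
  exact VsBdF_contDiff _ _ VsBd_g_contDiff (fun v hv => by simp [VsBd_Vz_low hv])

theorem Vs_supp (s : ℂ) (t : ℝ) (h : Vs s t ≠ 0) : 1 / 2 < t ∧ t < 2 := by
  constructor
  · by_contra hc
    push Not at hc
    exact h (by unfold Vs; rw [VsBd_Vz_low hc]; split_ifs <;> simp)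
  · by_contra hc
    push Not at hc
    exact h (by unfold Vs; rw [VsBd_Vz_high hc]; split_ifs <;> simp)

theorem Vs_bound (B : ℕ) : ∃ C : ℝ, 0 < C ∧ ∀ s : ℂ, 0 ≤ s.re → s.re ≤ 1 → ∀ j ≤ B, ∀ t,
    ‖iteratedDeriv j (Vs s) t‖ ≤ C * (1 + ‖s‖) ^ B := by
  have hex := fun j : ℕ => VsBdF_bound j (fun v => (Vz v : ℂ)) VsBd_g_contDiff
    (fun v hv => by simp [VsBd_Vz_low hv]) (fun v hv => by simp [VsBd_Vz_high hv]) (3 / 2)
    (by norm_num)
  choose C hC0 hC using hex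
  refine ⟨(∑ j ∈ Finset.range (B + 1), C j) * 2 ^ B + 1, ?_, fun s hs0 hs1 j hj t => ?_⟩
  · have : 0 ≤ ∑ j ∈ Finset.range (B + 1), C j := Finset.sum_nonneg fun j _ => hC0 j
    positivity
  rw [VsBd_eq]
  have h1 := hC j (-(1 / 2 : ℂ) - s) (by simp; linarith) (by simp; linarith) t
  have hs : 0 ≤ ‖s‖ := norm_nonneg s
  have hz : ‖-(1 / 2 : ℂ) - s‖ ≤ 1 / 2 + ‖s‖ := by
    refine (norm_sub_le _ _).trans ?_
    rw [norm_neg]
    norm_num
  have hz0 : 0 ≤ ‖-(1 / 2 : ℂ) - s‖ := norm_nonneg _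
  have h2 : (1 + ‖-(1 / 2 : ℂ) - s‖) ^ j ≤ 2 ^ B * (1 + ‖s‖) ^ B := by
    rw [← mul_pow]
    calc (1 + ‖-(1 / 2 : ℂ) - s‖) ^ j ≤ (2 * (1 + ‖s‖)) ^ j :=
          pow_le_pow_left₀ (by positivity) (by linarith) j
      _ ≤ (2 * (1 + ‖s‖)) ^ B := pow_le_pow_right₀ (by linarith) hj
  have h3 : C j ≤ ∑ j ∈ Finset.range (B + 1), C j :=
    Finset.single_le_sum (f := C) (fun j _ => hC0 j) (Finset.mem_range.2 (by omega))
  have h4 : 0 ≤ ∑ j ∈ Finset.range (B + 1), C j := Finset.sum_nonneg fun j _ => hC0 j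
  calc ‖iteratedDeriv j (VsBdF (-(1 / 2 : ℂ) - s) fun v => (Vz v : ℂ)) t‖
      ≤ C j * (1 + ‖-(1 / 2 : ℂ) - s‖) ^ j := h1
    _ ≤ (∑ j ∈ Finset.range (B + 1), C j) * (2 ^ B * (1 + ‖s‖) ^ B) :=
        mul_le_mul h3 h2 (by positivity) h4
    _ ≤ ((∑ j ∈ Finset.range (B + 1), C j) * 2 ^ B + 1) * (1 + ‖s‖) ^ B := by
        have : 0 ≤ (1 + ‖s‖) ^ B := by positivity
        nlinarith

end Pool.Agent.MP0016c7.Rz
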