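import Mathlib
import Pool.Agent.Lib.MP_0016c7_nt.Rz.Defs
import Pool.Agent.Lib.MP_0016c7_nt.Rz.DivB
import Pool.Agent.Lib.MP_0016c7_nt.Rz2.QDefs
import Pool.Agent.Lib.MP_0016c7_nt.Rz2.FourthV
import Pool.Agent.Lib.MP_0016c7_nt.Rz2.VsBd

set_option autoImplicit false

/-!
Fourth moment of `SA` (D14).
-/

open Finset MeasureTheory Filter Topology
open scoped Real ContDiff

namespace Pool.Agent.MP0016c7.Rz

private theorem fsa_jr_abs (k : ℤ) (n : ℕ) : |jr k n| ≤ 1 := by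
  unfold jr
  split_ifs with h
  · rcases jacobiSym.trichotomy k n with h | h | h <;> rw [h] <;> simp
  · simp

private theorem fsa_jr_mul (k : ℤ) (m n : ℕ) : jr k (m * n) = jr k m * jr k n := by
  unfold jr
  by_cases hm : Odd m
  · by_cases hn : Odd n
    · rw [if_pos (hm.mul hn), if_pos hm, if_pos hn]
      have : NeZero m := ⟨hm.pos.ne'⟩
      have : NeZero n := ⟨hn.pos.ne'⟩
      rw [jacobiSym.mul_right]
      push_cast
      ring
    · rw [if_neg (fun h => hn (Nat.odd_mul.1 h).2), if_neg hn, mul_zero]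
  · rw [if_neg (fun h => hm (Nat.odd_mul.1 h).1), if_neg hm, zero_mul]

private theorem fsa_moebius (n q : ℕ) (hq : 0 < q) :
    (if Nat.Coprime n q then (1 : ℂ) else 0) =
      ∑ t ∈ q.divisors, if t ∣ n then (ArithmeticFunction.moebius t : ℂ) else 0 := by
  have h1 : ∑ t ∈ q.divisors, (if t ∣ n then (ArithmeticFunction.moebius t : ℂ) else 0) =
      ∑ t ∈ (Nat.gcd n q).divisors, (ArithmeticFunction.moebius t : ℂ) := by
    rw [← Finset.sum_filter]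
    refine Finset.sum_congr ?_ fun _ _ => rfl
    ext t
    simp only [mem_filter, Nat.mem_divisors, Nat.dvd_gcd_iff, ne_eq, Nat.gcd_eq_zero_iff]
    constructor
    · rintro ⟨⟨h1, h2⟩, h3⟩
      exact ⟨⟨h3, h1⟩, fun h => h2 h.2⟩
    · rintro ⟨⟨h1, h2⟩, h3⟩
      exact ⟨⟨h2, hq.ne'⟩, h1⟩
  rw [h1]
  have h2 := congrArg (fun f : ArithmeticFunction ℤ => f (Nat.gcd n q))
    ArithmeticFunction.moebius_mul_coe_zeta
  simp only [ArithmeticFunction.coe_mul_zeta_apply] at h2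
  rw [ArithmeticFunction.one_apply] at h2
  have h3 : ∑ t ∈ (Nat.gcd n q).divisors, (ArithmeticFunction.moebius t : ℂ) =
      ((∑ t ∈ (Nat.gcd n q).divisors, ArithmeticFunction.moebius t : ℤ) : ℂ) := by
    push_cast
    rfl
  rw [h3, h2]
  unfold Nat.Coprime
  split_ifs <;> simp

private theorem fsa_multiples (N t : ℕ) (ht : 0 < t) (c : ℕ → ℂ) :
    ∑ n ∈ (Icc 1 N).filter (fun n => t ∣ n), c n = ∑ n ∈ Icc 1 (N / t), c (t * n) := by
  symm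
  refine Finset.sum_nbij' (fun n => t * n) (fun n => n / t) ?_ ?_ ?_ ?_ ?_
  · intro n hn
    rw [mem_Icc] at hn
    rw [mem_filter, mem_Icc]
    refine ⟨⟨Nat.mul_pos ht hn.1, ?_⟩, dvd_mul_right t n⟩
    rw [Nat.le_div_iff_mul_le ht] at hn
    rw [mul_comm]
    exact hn.2
  · intro n hn
    rw [mem_filter, mem_Icc] at hn
    obtain ⟨⟨h1, h2⟩, m, rfl⟩ := hn
    rw [mem_Icc, Nat.mul_div_cancel_left _ ht, Nat.le_div_iff_mul_le ht, mul_comm m t]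
    exact ⟨Nat.pos_of_mul_pos_left h1, h2⟩
  · intro n hn
    exact Nat.mul_div_cancel_left _ ht
  · intro n hn
    rw [mem_filter] at hn
    exact Nat.mul_div_cancel' hn.2
  · intro n hn
    rfl

private theorem fsa_coprime (k : ℤ) (s : ℂ) (hs : 0 ≤ s.re) (x : ℝ) (q : ℕ) (hq : 0 < q) :
    ‖SA k s x q‖ ≤ ∑ t ∈ q.divisors, ‖SA k s (x / t) 1‖ := by
  set c : ℕ → ℂ := fun n => (jr k n : ℂ) * (n : ℂ) ^ (-(1 / 2 : ℂ) - s) * (om (n / x) : ℂ) with hc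
  have h1 : SA k s x q = ∑ t ∈ q.divisors, (ArithmeticFunction.moebius t : ℂ) *
      ∑ n ∈ (Icc 1 ⌊2 * x⌋₊).filter (fun n => t ∣ n), c n := by
    unfold SA
    rw [Finset.sum_filter]
    have : ∀ n ∈ Icc 1 ⌊2 * x⌋₊, (if Nat.Coprime n q then (jr k n : ℂ) *
        (n : ℂ) ^ (-(1 / 2 : ℂ) - s) * (om (n / x) : ℂ) else 0) =
        ∑ t ∈ q.divisors, (if t ∣ n then (ArithmeticFunction.moebius t : ℂ) else 0) * c n := by
      intro n _
      rw [← Finset.sum_mul, ← fsa_moebius n q hq]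
      split_ifs <;> simp [hc]
    rw [Finset.sum_congr rfl this, Finset.sum_comm]
    refine Finset.sum_congr rfl fun t _ => ?_
    rw [Finset.sum_filter, Finset.mul_sum]
    refine Finset.sum_congr rfl fun n _ => ?_
    split_ifs <;> simp
  rw [h1]
  refine (norm_sum_le _ _).trans (Finset.sum_le_sum fun t ht => ?_)
  have ht0 : 0 < t := Nat.pos_of_mem_divisors ht
  have ht0' : (0 : ℝ) < t := by exact_mod_cast ht0
  have ht1 : (1 : ℝ) ≤ t := by exact_mod_cast ht0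
  rw [fsa_multiples _ t ht0]
  have h2 : ∑ n ∈ Icc 1 (⌊2 * x⌋₊ / t), c (t * n) =
      ((jr k t : ℂ) * (t : ℂ) ^ (-(1 / 2 : ℂ) - s)) * SA k s (x / t) 1 := by
    unfold SA
    have h3 : (Icc 1 ⌊2 * (x / t)⌋₊).filter (fun n => Nat.Coprime n 1) =
        Icc 1 (⌊2 * x⌋₊ / t) := by
      rw [Finset.filter_true_of_mem (fun n _ => Nat.coprime_one_right n), ← mul_div_assoc,
        Nat.floor_div_natCast]
    rw [h3, Finset.mul_sum]
    refine Finset.sum_congr rfl fun n hn => ?_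
    simp only [hc]
    rw [fsa_jr_mul]
    have h4 : ((t * n : ℕ) : ℂ) ^ (-(1 / 2 : ℂ) - s) =
        (t : ℂ) ^ (-(1 / 2 : ℂ) - s) * (n : ℂ) ^ (-(1 / 2 : ℂ) - s) := by
      rw [Nat.cast_mul, ← Complex.ofReal_natCast, ← Complex.ofReal_natCast,
        Complex.mul_cpow_ofReal_nonneg (Nat.cast_nonneg _) (Nat.cast_nonneg _)]
    have h5 : ((t * n : ℕ) : ℝ) / x = (n : ℝ) / (x / t) := by
      push_cast
      rw [div_div_eq_mul_div, mul_comm]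
    rw [h4, h5]
    push_cast
    ring
  rw [h2, norm_mul, norm_mul, norm_mul]
  have h6 : ‖(ArithmeticFunction.moebius t : ℂ)‖ ≤ 1 := by
    rw [Complex.norm_intCast]
    exact_mod_cast ArithmeticFunction.abs_moebius_le_one
  have h7 : ‖(jr k t : ℂ)‖ ≤ 1 := by
    rw [Complex.norm_real]
    exact fsa_jr_abs k t
  have h8 : ‖(t : ℂ) ^ (-(1 / 2 : ℂ) - s)‖ ≤ 1 := by
    rw [← Complex.ofReal_natCast, Complex.norm_cpow_eq_rpow_re_of_pos ht0']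
    apply Real.rpow_le_one_of_one_le_of_nonpos ht1
    simp
    linarith
  have h9 : ‖(jr k t : ℂ)‖ * ‖(t : ℂ) ^ (-(1 / 2 : ℂ) - s)‖ ≤ 1 :=
    mul_le_one₀ h7 (norm_nonneg _) h8
  calc _ ≤ 1 * (1 * ‖SA k s (x / t) 1‖) := by
        refine mul_le_mul h6 (mul_le_mul_of_nonneg_right h9 (norm_nonneg _)) (by positivity)
          zero_le_one
    _ = _ := by ring

private noncomputable def fsaT (k : ℤ) (s : ℂ) (y : ℝ) : ℂ :=
  ∑ n ∈ Icc 1 ⌊2 * y⌋₊, (jr k n : ℂ) * Vs s (n / y)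

private theorem fsa_dyadic (k : ℤ) (s : ℂ) (x : ℝ) (hx : 0 < x) (J : ℕ) (hJ : x ≤ 2 ^ J) :
    SA k s x 1 = ∑ j ∈ range (J + 1),
      ((x / 2 ^ j : ℝ) : ℂ) ^ (-(1 / 2 : ℂ) - s) * fsaT k s (x / 2 ^ j) := by
  unfold SA
  rw [Finset.filter_true_of_mem (fun n _ => Nat.coprime_one_right n)]
  have h1 : ∀ n ∈ Icc 1 ⌊2 * x⌋₊, om ((n : ℝ) / x) =
      ∑ j ∈ range (J + 1), Vz ((n : ℝ) / (x / 2 ^ j)) := by
    intro n hn
    have hn1 : (1 : ℝ) ≤ n := by exact_mod_cast (mem_Icc.1 hn).1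
    have h2 := Finset.sum_range_sub' (fun j : ℕ => om ((n : ℝ) / (x / 2 ^ j))) (J + 1)
    have h3 : om ((n : ℝ) / (x / 2 ^ (J + 1))) = 0 := by
      apply om_eq_zero
      rw [div_div_eq_mul_div, le_div_iff₀ hx, pow_succ]
      nlinarith [pow_pos (show (0 : ℝ) < 2 by norm_num) J]
    rw [h3] at h2
    simp only [pow_zero, div_one, sub_zero] at h2
    rw [← h2]
    refine Finset.sum_congr rfl fun j _ => ?_
    unfold Vz
    congr 2
    rw [pow_succ]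
    field_simp
  have h4 : ∀ n ∈ Icc 1 ⌊2 * x⌋₊, (jr k n : ℂ) * (n : ℂ) ^ (-(1 / 2 : ℂ) - s) *
      (om (n / x) : ℂ) = ∑ j ∈ range (J + 1), (jr k n : ℂ) * (n : ℂ) ^ (-(1 / 2 : ℂ) - s) *
        (Vz ((n : ℝ) / (x / 2 ^ j)) : ℂ) := by
    intro n hn
    rw [h1 n hn, ← Finset.mul_sum]
    push_cast
    rfl
  rw [Finset.sum_congr rfl h4, Finset.sum_comm]
  refine Finset.sum_congr rfl fun j _ => ?_
  set y : ℝ := x / 2 ^ j with hy
  have hy0 : 0 < y := by positivity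
  have hyx : y ≤ x := by
    rw [hy]
    apply div_le_self hx.le
    exact one_le_pow₀ (by norm_num)
  unfold fsaT
  rw [Finset.mul_sum]
  have hsub : Icc 1 ⌊2 * y⌋₊ ⊆ Icc 1 ⌊2 * x⌋₊ := by
    apply Icc_subset_Icc le_rfl
    apply Nat.floor_le_floor
    linarith
  symm
  have h5 : ∑ n ∈ Icc 1 ⌊2 * y⌋₊, (y : ℂ) ^ (-(1 / 2 : ℂ) - s) *
      ((jr k n : ℂ) * Vs s ((n : ℝ) / y)) = ∑ n ∈ Icc 1 ⌊2 * y⌋₊, (jr k n : ℂ) *
        (n : ℂ) ^ (-(1 / 2 : ℂ) - s) * (Vz ((n : ℝ) / y) : ℂ) := by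
    refine Finset.sum_congr rfl fun n hn => ?_
    have hn0 : (0 : ℝ) < n := by exact_mod_cast (mem_Icc.1 hn).1
    have hv : 0 < (n : ℝ) / y := by positivity
    unfold Vs
    rw [if_pos hv]
    have h6 : (n : ℂ) ^ (-(1 / 2 : ℂ) - s) =
        (y : ℂ) ^ (-(1 / 2 : ℂ) - s) * (((n : ℝ) / y : ℝ) : ℂ) ^ (-(1 / 2 : ℂ) - s) := by
      rw [← Complex.mul_cpow_ofReal_nonneg hy0.le hv.le, ← Complex.ofReal_mul,
        mul_div_cancel₀ _ hy0.ne', Complex.ofReal_natCast]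
    rw [h6]
    ring
  rw [h5]
  apply Finset.sum_subset hsub
  intro n hn hn'
  rw [mem_Icc] at hn hn'
  have h7 : ⌊2 * y⌋₊ < n := by
    by_contra h
    exact hn' ⟨hn.1, by omega⟩
  have h8 : 2 * y < n := (Nat.floor_lt (by positivity)).1 h7
  have h9 : 2 ≤ (n : ℝ) / y := by
    rw [le_div_iff₀ hy0]
    linarith
  have h10 : Vz ((n : ℝ) / y) = 0 := by
    unfold Vz
    rw [om_eq_zero h9, om_eq_zero (by linarith), sub_zero]
  rw [h10]
  simp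

private theorem fsa_T_zero (k : ℤ) (s : ℂ) (y : ℝ) (hy : y < 1 / 2) : fsaT k s y = 0 := by
  unfold fsaT
  have : ⌊2 * y⌋₊ = 0 := by
    rw [Nat.floor_eq_zero]
    linarith
  rw [this]
  simp

private theorem fsa_term (k : ℤ) (s : ℂ) (hs : 0 ≤ s.re) (hs1 : s.re ≤ 1) (y : ℝ) (hy : 0 < y) :
    ‖(y : ℂ) ^ (-(1 / 2 : ℂ) - s) * fsaT k s y‖ ^ 4 ≤ 16 / y ^ 2 * ‖fsaT k s y‖ ^ 4 := by
  by_cases hy2 : y < 1 / 2
  · rw [fsa_T_zero k s y hy2]
    simp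
  rw [norm_mul, mul_pow]
  apply mul_le_mul_of_nonneg_right _ (by positivity)
  rw [Complex.norm_cpow_eq_rpow_re_of_pos hy]
  have h1 : (-(1 / 2 : ℂ) - s).re = -(1 / 2) + -s.re := by
    simp
    ring
  rw [h1, Real.rpow_add hy, mul_pow]
  have h2 : (y ^ (-(1 / 2 : ℝ))) ^ 4 = 1 / y ^ 2 := by
    rw [← Real.rpow_natCast, ← Real.rpow_mul hy.le]
    rw [show -(1 / 2 : ℝ) * ((4 : ℕ) : ℝ) = -((2 : ℕ) : ℝ) by norm_num, Real.rpow_neg hy.le,
      Real.rpow_natCast, one_div]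
  have h3 : y ^ (-s.re) ≤ 2 := by
    have h4 : (1 / 2 : ℝ) ≤ y := by linarith
    calc y ^ (-s.re) ≤ (1 / 2 : ℝ) ^ (-s.re) :=
          Real.rpow_le_rpow_of_nonpos (by norm_num) h4 (by linarith)
      _ = 2 ^ s.re := by
        rw [one_div, Real.inv_rpow (by norm_num), Real.rpow_neg (by norm_num), inv_inv]
      _ ≤ 2 ^ (1 : ℝ) := Real.rpow_le_rpow_of_exponent_le (by norm_num) hs1
      _ = 2 := Real.rpow_one _
  have h5 : (y ^ (-s.re)) ^ 4 ≤ 2 ^ 4 := pow_le_pow_left₀ (by positivity) h3 4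
  rw [h2]
  calc 1 / y ^ 2 * (y ^ (-s.re)) ^ 4 ≤ 1 / y ^ 2 * 2 ^ 4 :=
        mul_le_mul_of_nonneg_left h5 (by positivity)
    _ = 16 / y ^ 2 := by ring

/-- the number of dyadic pieces -/
private theorem fsa_J (ε : ℝ) (hε : 0 < ε) : ∃ C : ℝ, 0 < C ∧ ∀ X : ℝ, 2 ≤ X →
    ∃ J : ℕ, X ^ 4 ≤ 2 ^ J ∧ ((J : ℝ) + 1) ^ 4 ≤ C * X ^ ε := by
  refine ⟨(4 / Real.log 2 * (4 / ε) + 2) ^ 4, ?_, fun X hX => ?_⟩
  · have := Real.log_pos (show (1 : ℝ) < 2 by norm_num)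
    positivity
  have hX0 : 0 < X := by linarith
  have hl2 := Real.log_pos (show (1 : ℝ) < 2 by norm_num)
  have hlX : 0 ≤ Real.log X := Real.log_nonneg (by linarith)
  refine ⟨⌈4 * Real.log X / Real.log 2⌉₊, ?_, ?_⟩
  · have h1 := Nat.le_ceil (4 * Real.log X / Real.log 2)
    rw [div_le_iff₀ hl2] at h1
    rw [← Real.log_le_log_iff (by positivity) (by positivity), Real.log_pow, Real.log_pow]
    exact_mod_cast h1
  · have h2 := (Nat.ceil_lt_add_one (a := 4 * Real.log X / Real.log 2) (by positivity)).le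
    have h3 : Real.log X ≤ X ^ (ε / 4) / (ε / 4) := Real.log_le_rpow_div hX0.le (by positivity)
    have h4 : 1 ≤ X ^ (ε / 4) := Real.one_le_rpow (by linarith) (by positivity)
    have h5 : (⌈4 * Real.log X / Real.log 2⌉₊ : ℝ) + 1 ≤
        (4 / Real.log 2 * (4 / ε) + 2) * X ^ (ε / 4) := by
      calc (⌈4 * Real.log X / Real.log 2⌉₊ : ℝ) + 1 ≤ 4 * Real.log X / Real.log 2 + 1 + 1 := by
            linarith
        _ = 4 / Real.log 2 * Real.log X + 2 := by ring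
        _ ≤ 4 / Real.log 2 * (X ^ (ε / 4) / (ε / 4)) + 2 * X ^ (ε / 4) := by
            have := mul_le_mul_of_nonneg_left h3 (show 0 ≤ 4 / Real.log 2 by positivity)
            linarith
        _ = _ := by
            field_simp
    calc ((⌈4 * Real.log X / Real.log 2⌉₊ : ℝ) + 1) ^ 4 ≤
          ((4 / Real.log 2 * (4 / ε) + 2) * X ^ (ε / 4)) ^ 4 :=
          pow_le_pow_left₀ (by positivity) h5 4
      _ = (4 / Real.log 2 * (4 / ε) + 2) ^ 4 * X ^ ε := by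
          rw [mul_pow, ← Real.rpow_natCast (X ^ (ε / 4)), ← Real.rpow_mul hX0.le]
          congr 2
          push_cast
          ring

private theorem fsa_one [QlsHyp] (ε : ℝ) (hε : 0 < ε) : ∃ (C : ℝ) (B : ℕ), 0 < C ∧ ∀ X : ℝ, 2 ≤ X →
    ∀ K : ℕ, 1 ≤ K → (K : ℝ) ≤ X ^ 4 → ∀ x : ℝ, 0 < x → x ≤ X ^ 4 →
    ∀ s : ℂ, 0 ≤ s.re → s.re ≤ 1 → ∀ u : ℤ, (u = 1 ∨ u = -1 ∨ u = 2 ∨ u = -2) →
    ∑ m ∈ (OsfD K).filter (fun m : ℕ => u * m ≠ 1), ‖SA (u * m) s x 1‖ ^ 4 ≤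
      C * X ^ ε * (1 + ‖s‖) ^ B * K := by
  obtain ⟨C₁, B₁, hC₁, h1⟩ := fourth_V (ε / 2) (by positivity)
  obtain ⟨C₂, hC₂, h2⟩ := Vs_bound B₁
  obtain ⟨C₃, hC₃, h3⟩ := fsa_J (ε / 2) (by positivity)
  refine ⟨16 * C₁ * C₂ ^ 4 * C₃, B₁ * 4, by positivity, ?_⟩
  intro X hX K hK1 hK x hx hxX s hs hs1 u hu
  have hX0 : 0 < X := by linarith
  obtain ⟨J, hJ1, hJ2⟩ := h3 X hX
  have hxJ : x ≤ 2 ^ J := hxX.trans hJ1
  set R : ℝ := C₂ * (1 + ‖s‖) ^ B₁ with hR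
  have hR0 : 0 ≤ R := by positivity
  -- pointwise
  have h4 : ∀ k : ℤ, ‖SA k s x 1‖ ^ 4 ≤ ((J : ℝ) + 1) ^ 3 *
      ∑ j ∈ range (J + 1), 16 / (x / 2 ^ j) ^ 2 * ‖fsaT k s (x / 2 ^ j)‖ ^ 4 := by
    intro k
    rw [fsa_dyadic k s x hx J hxJ]
    calc _ ≤ (∑ j ∈ range (J + 1),
          ‖((x / 2 ^ j : ℝ) : ℂ) ^ (-(1 / 2 : ℂ) - s) * fsaT k s (x / 2 ^ j)‖) ^ 4 :=
          pow_le_pow_left₀ (norm_nonneg _) (norm_sum_le _ _) 4
      _ ≤ ((range (J + 1)).card : ℝ) ^ 3 * ∑ j ∈ range (J + 1),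
          ‖((x / 2 ^ j : ℝ) : ℂ) ^ (-(1 / 2 : ℂ) - s) * fsaT k s (x / 2 ^ j)‖ ^ 4 :=
          pow_sum_le_card_mul_sum_pow (fun _ _ => norm_nonneg _) 3
      _ ≤ _ := by
          rw [card_range, Nat.cast_add, Nat.cast_one]
          refine mul_le_mul_of_nonneg_left (Finset.sum_le_sum fun j _ => ?_) (by positivity)
          exact fsa_term k s hs hs1 (x / 2 ^ j) (by positivity)
  have h5 : ∀ j ∈ range (J + 1), ∑ m ∈ (OsfD K).filter (fun m : ℕ => u * m ≠ 1),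
      ‖fsaT (u * m) s (x / 2 ^ j)‖ ^ 4 ≤ C₁ * X ^ (ε / 2) * R ^ 4 * K * (x / 2 ^ j) ^ 2 := by
    intro j _
    have hy : x / 2 ^ j ≤ X ^ 4 := by
      refine (div_le_self hx.le ?_).trans hxX
      exact one_le_pow₀ (by norm_num)
    exact h1 X hX K hK1 hK (x / 2 ^ j) (by positivity) hy u hu (Vs s) R (Vs_contDiff s)
      (fun t ht => Vs_supp s t ht) (fun j hj t => h2 s hs hs1 j hj t)
  calc ∑ m ∈ (OsfD K).filter (fun m : ℕ => u * m ≠ 1), ‖SA (u * m) s x 1‖ ^ 4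
      ≤ ∑ m ∈ (OsfD K).filter (fun m : ℕ => u * m ≠ 1), ((J : ℝ) + 1) ^ 3 *
        ∑ j ∈ range (J + 1), 16 / (x / 2 ^ j) ^ 2 * ‖fsaT (u * m) s (x / 2 ^ j)‖ ^ 4 :=
        Finset.sum_le_sum fun m _ => h4 _
    _ = ((J : ℝ) + 1) ^ 3 * ∑ j ∈ range (J + 1), 16 / (x / 2 ^ j) ^ 2 *
        ∑ m ∈ (OsfD K).filter (fun m : ℕ => u * m ≠ 1), ‖fsaT (u * m) s (x / 2 ^ j)‖ ^ 4 := by
        rw [← Finset.mul_sum, Finset.sum_comm]
        congr 1
        refine Finset.sum_congr rfl fun j _ => ?_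
        rw [Finset.mul_sum]
    _ ≤ ((J : ℝ) + 1) ^ 3 * ∑ j ∈ range (J + 1), 16 * C₁ * X ^ (ε / 2) * R ^ 4 * K := by
        refine mul_le_mul_of_nonneg_left (Finset.sum_le_sum fun j hj => ?_) (by positivity)
        calc _ ≤ 16 / (x / 2 ^ j) ^ 2 * (C₁ * X ^ (ε / 2) * R ^ 4 * K * (x / 2 ^ j) ^ 2) :=
              mul_le_mul_of_nonneg_left (h5 j hj) (by positivity)
          _ = _ := by
              have : (x / 2 ^ j) ≠ 0 := by positivity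
              field_simp
    _ = ((J : ℝ) + 1) ^ 4 * (16 * C₁ * X ^ (ε / 2) * R ^ 4 * K) := by
        rw [Finset.sum_const, card_range, nsmul_eq_mul]
        push_cast
        ring
    _ ≤ (C₃ * X ^ (ε / 2)) * (16 * C₁ * X ^ (ε / 2) * R ^ 4 * K) :=
        mul_le_mul_of_nonneg_right hJ2 (by positivity)
    _ = 16 * C₁ * C₂ ^ 4 * C₃ * X ^ ε * (1 + ‖s‖) ^ (B₁ * 4) * K := by
        have h6 : X ^ ε = X ^ (ε / 2) * X ^ (ε / 2) := by
          rw [← Real.rpow_add hX0]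
          congr 1
          ring
        rw [h6, hR, mul_pow, pow_mul]
        ring

theorem fourth_SA [QlsHyp] (ε : ℝ) (hε : 0 < ε) : ∃ (C : ℝ) (B : ℕ), 0 < C ∧ ∀ X : ℝ, 2 ≤ X →
    ∀ K : ℕ, 1 ≤ K → (K : ℝ) ≤ X ^ 4 → ∀ x : ℝ, 0 < x → x ≤ X ^ 4 → ∀ q : ℕ, 0 < q →
    ∀ s : ℂ, 0 ≤ s.re → s.re ≤ 1 → ∀ u : ℤ, (u = 1 ∨ u = -1 ∨ u = 2 ∨ u = -2) →
    ∑ m ∈ (OsfD K).filter (fun m : ℕ => u * m ≠ 1), ‖SA (u * m) s x q‖ ^ 4 ≤
      C * X ^ ε * (q.divisors.card : ℝ) ^ 4 * (1 + ‖s‖) ^ B * K := by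
  obtain ⟨C, B, hC, h1⟩ := fsa_one ε hε
  refine ⟨C, B, hC, ?_⟩
  intro X hX K hK1 hK x hx hxX q hq s hs hs1 u hu
  have hX0 : 0 < X := by linarith
  have h2 : ∀ k : ℤ, ‖SA k s x q‖ ^ 4 ≤ (q.divisors.card : ℝ) ^ 3 *
      ∑ t ∈ q.divisors, ‖SA k s (x / t) 1‖ ^ 4 := by
    intro k
    calc _ ≤ (∑ t ∈ q.divisors, ‖SA k s (x / t) 1‖) ^ 4 :=
          pow_le_pow_left₀ (norm_nonneg _) (fsa_coprime k s hs x q hq) 4
      _ ≤ _ := pow_sum_le_card_mul_sum_pow (fun _ _ => norm_nonneg _) 3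
  calc ∑ m ∈ (OsfD K).filter (fun m : ℕ => u * m ≠ 1), ‖SA (u * m) s x q‖ ^ 4
      ≤ ∑ m ∈ (OsfD K).filter (fun m : ℕ => u * m ≠ 1), (q.divisors.card : ℝ) ^ 3 *
      ∑ t ∈ q.divisors, ‖SA (u * m) s (x / t) 1‖ ^ 4 := Finset.sum_le_sum fun m _ => h2 _
    _ = (q.divisors.card : ℝ) ^ 3 * ∑ t ∈ q.divisors,
        ∑ m ∈ (OsfD K).filter (fun m : ℕ => u * m ≠ 1), ‖SA (u * m) s (x / t) 1‖ ^ 4 := by
        rw [← Finset.mul_sum, Finset.sum_comm]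
    _ ≤ (q.divisors.card : ℝ) ^ 3 * ∑ t ∈ q.divisors, C * X ^ ε * (1 + ‖s‖) ^ B * K := by
        refine mul_le_mul_of_nonneg_left (Finset.sum_le_sum fun t ht => ?_) (by positivity)
        have ht0 : (0 : ℝ) < t := by exact_mod_cast Nat.pos_of_mem_divisors ht
        have ht1 : (1 : ℝ) ≤ t := by exact_mod_cast Nat.pos_of_mem_divisors ht
        exact h1 X hX K hK1 hK (x / t) (by positivity) ((div_le_self hx.le ht1).trans hxX)
          s hs hs1 u hu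
    _ = _ := by
        rw [Finset.sum_const, nsmul_eq_mul]
        ring

/-- sums over dyadic pieces -/
private theorem fsa_dyad_sum (f : ℕ → ℝ) (hf : ∀ m, 0 ≤ f m) (A : ℝ) (K₀ : ℕ)
    (u : ℤ) (h : ∀ K : ℕ, 1 ≤ K → K ≤ K₀ →
      ∑ m ∈ (OsfD K).filter (fun m : ℕ => u * m ≠ 1), f m ≤ A * K) :
    ∀ K : ℕ, 1 ≤ K → K ≤ K₀ → ∑ m ∈ (Osf K).filter (fun m : ℕ => u * m ≠ 1), f m / m ≤
      ((Nat.log 2 K : ℝ) + 1) * (2 * A) := by
  intro K
  induction K using Nat.strong_induction_on with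
  | _ K ih =>
    intro hK1 hK
    have hK0 : (0 : ℝ) < K := by exact_mod_cast hK1
    have h1 : ∑ m ∈ (OsfD K).filter (fun m : ℕ => u * m ≠ 1), f m / m ≤ 2 * A := by
      calc _ ≤ ∑ m ∈ (OsfD K).filter (fun m : ℕ => u * m ≠ 1), 2 / (K : ℝ) * f m := by
            refine Finset.sum_le_sum fun m hm => ?_
            rw [mem_filter, OsfD, mem_filter, mem_Icc] at hm
            have hm1 : (0 : ℝ) < m := by exact_mod_cast hm.1.1.1
            have hm2 : (K : ℝ) < 2 * m := by exact_mod_cast hm.1.2.1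
            rw [div_eq_mul_inv, mul_comm (f m)]
            apply mul_le_mul_of_nonneg_right _ (hf m)
            rw [inv_eq_one_div, div_le_div_iff₀ hm1 hK0]
            linarith
        _ ≤ 2 / (K : ℝ) * (A * K) := by
            rw [← Finset.mul_sum]
            exact mul_le_mul_of_nonneg_left (h K hK1 hK) (by positivity)
        _ = 2 * A := by field_simp
    have hsplit : ∑ m ∈ (Osf K).filter (fun m : ℕ => u * m ≠ 1), f m / m =
        ∑ m ∈ (OsfD K).filter (fun m : ℕ => u * m ≠ 1), f m / m +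
        ∑ m ∈ (Osf (K / 2)).filter (fun m : ℕ => u * m ≠ 1), f m / m := by
      rw [← Finset.sum_union]
      · refine Finset.sum_congr ?_ fun _ _ => rfl
        ext m
        simp only [mem_union, mem_filter, Osf, OsfD, mem_Icc]
        constructor
        · rintro ⟨⟨⟨a1, a2⟩, a3, a4⟩, a5⟩
          by_cases h : K < 2 * m
          · left
            exact ⟨⟨⟨a1, a2⟩, h, a3, a4⟩, a5⟩
          · right
            exact ⟨⟨⟨a1, by omega⟩, a3, a4⟩, a5⟩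
        · rintro (⟨⟨⟨a1, a2⟩, h, a3, a4⟩, a5⟩ | ⟨⟨⟨a1, a2⟩, a3, a4⟩, a5⟩)
          · exact ⟨⟨⟨a1, a2⟩, a3, a4⟩, a5⟩
          · exact ⟨⟨⟨a1, by omega⟩, a3, a4⟩, a5⟩
      · rw [Finset.disjoint_left]
        intro m hm hm'
        simp only [mem_filter, Osf, OsfD, mem_Icc] at hm hm'
        omega
    rw [hsplit]
    by_cases hK2 : K < 2
    · have hK3 : K = 1 := by omega
      subst hK3
      have h2 : ∑ m ∈ (Osf (1 / 2)).filter (fun m : ℕ => u * m ≠ 1), f m / m = 0 := by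
        simp [Osf]
      rw [h2]
      simp only [Nat.log_one_right, Nat.cast_zero, zero_add, one_mul, add_zero]
      exact h1
    · have h3 := ih (K / 2) (by omega) (by omega) (by omega)
      have h4 : Nat.log 2 K = Nat.log 2 (K / 2) + 1 := by
        rw [Nat.log_of_one_lt_of_le (by norm_num) (by omega)]
      rw [h4]
      push_cast
      linarith

/-- the weighted form over all `m ≤ K` -/
theorem fourth_SA' [QlsHyp] (ε : ℝ) (hε : 0 < ε) : ∃ (C : ℝ) (B : ℕ), 0 < C ∧ ∀ X : ℝ, 2 ≤ X →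
    ∀ K : ℕ, 1 ≤ K → (K : ℝ) ≤ X ^ 4 → ∀ x : ℝ, 0 < x → x ≤ X ^ 4 → ∀ q : ℕ, 0 < q →
    ∀ s : ℂ, 0 ≤ s.re → s.re ≤ 1 → ∀ u : ℤ, (u = 1 ∨ u = -1 ∨ u = 2 ∨ u = -2) →
    ∑ m ∈ (Osf K).filter (fun m : ℕ => u * m ≠ 1), ‖SA (u * m) s x q‖ ^ 4 / m ≤
      C * X ^ ε * (q.divisors.card : ℝ) ^ 4 * (1 + ‖s‖) ^ B := by
  obtain ⟨C, B, hC, h1⟩ := fourth_SA (ε / 2) (by positivity)
  obtain ⟨C₃, hC₃, h3⟩ := fsa_J (ε / 2) (by positivity)
  refine ⟨2 * C * C₃, B, by positivity, ?_⟩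
  intro X hX K hK1 hK x hx hxX q hq s hs hs1 u hu
  have hX0 : 0 < X := by linarith
  obtain ⟨J, hJ1, hJ2⟩ := h3 X hX
  have hlog : ((Nat.log 2 K : ℕ) : ℝ) + 1 ≤ C₃ * X ^ (ε / 2) := by
    have h4 : Nat.log 2 K ≤ J := by
      have h5 : K ≤ 2 ^ J := by
        have : (K : ℝ) ≤ ((2 ^ J : ℕ) : ℝ) := by
          push_cast
          exact hK.trans hJ1
        exact_mod_cast this
      calc Nat.log 2 K ≤ Nat.log 2 (2 ^ J) := Nat.log_mono_right h5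
        _ = J := Nat.log_pow (by norm_num) J
    have h6 : ((Nat.log 2 K : ℕ) : ℝ) ≤ J := by exact_mod_cast h4
    have h7 : (1 : ℝ) ≤ (J : ℝ) + 1 := by
      have : (0 : ℝ) ≤ J := Nat.cast_nonneg _
      linarith
    calc _ ≤ (J : ℝ) + 1 := by linarith
      _ ≤ ((J : ℝ) + 1) ^ 4 := le_self_pow₀ h7 (by norm_num)
      _ ≤ _ := hJ2
  set A : ℝ := C * X ^ (ε / 2) * (q.divisors.card : ℝ) ^ 4 * (1 + ‖s‖) ^ B with hA
  have hA0 : 0 ≤ A := by positivity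
  have h8 := fsa_dyad_sum (fun m => ‖SA (u * m) s x q‖ ^ 4) (fun m => by positivity) A K u
    (fun K' hK' hK'' => h1 X hX K' hK' ((by exact_mod_cast hK'' : (K' : ℝ) ≤ K).trans hK) x hx hxX
      q hq s hs hs1 u hu) K hK1 le_rfl
  calc _ ≤ ((Nat.log 2 K : ℝ) + 1) * (2 * A) := h8
    _ ≤ (C₃ * X ^ (ε / 2)) * (2 * A) := mul_le_mul_of_nonneg_right hlog (by positivity)
    _ = _ := by
        have h6 : X ^ ε = X ^ (ε / 2) * X ^ (ε / 2) := by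
          rw [← Real.rpow_add hX0]
          congr 1
          ring
        rw [h6, hA]
        ring

end Pool.Agent.MP0016c7.Rz
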