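import Mathlib
import Pool.Agent.Lib.MP_0016c7_nt.Rz.Defs
import Pool.Agent.Lib.MP_0016c7_nt.Rz.DefsC
import Pool.Agent.Lib.MP_0016c7_nt.Rz.ArithA1
import Pool.Agent.Lib.MP_0016c7_nt.Rz.ArithA2
import Pool.Agent.Lib.MP_0016c7_nt.Rz2.QDefs

set_option autoImplicit false

/-!
Expansion of `gg` (D1).
-/

open Finset MeasureTheory Filter Topology
open scoped Real ContDiff

namespace Pool.Agent.MP0016c7.Rz


/-- completely multiplicative -/
private theorem gx_jr_mul (k : ℤ) (m n : ℕ) : jr k (m * n) = jr k m * jr k n := by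
  unfold jr
  by_cases hm : Odd m
  · by_cases hn : Odd n
    · have h1 : NeZero m := ⟨by rintro rfl; simp at hm⟩
      have h2 : NeZero n := ⟨by rintro rfl; simp at hn⟩
      rw [if_pos (hm.mul hn), if_pos hm, if_pos hn, jacobiSym.mul_right]
      push_cast; ring
    · rw [if_neg (fun h => hn (Nat.odd_mul.1 h).2), if_neg hn, mul_zero]
  · rw [if_neg (fun h => hm (Nat.odd_mul.1 h).1), if_neg hm, zero_mul]

private theorem gx_jr_one (k : ℤ) : jr k 1 = 1 := by
  unfold jr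
  rw [if_pos odd_one, jacobiSym.one_right]; norm_num

private theorem gx_jr_pow (k : ℤ) (p i : ℕ) : jr k (p ^ i) = jr k p ^ i := by
  induction i with
  | zero => simp [gx_jr_one]
  | succ i ih => rw [pow_succ, gx_jr_mul, ih, pow_succ]

private theorem gx_sq1_eq {a b : ℕ} (ha : Squarefree a) (hb : b ≠ 0) : sq1 (a * b ^ 2) = a := by
  have ha0 : a ≠ 0 := ha.ne_zero
  have hb2 : b ^ 2 ≠ 0 := pow_ne_zero 2 hb
  have hfac : ∀ p, (a * b ^ 2).factorization p = a.factorization p + 2 * b.factorization p := by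
    intro p
    rw [Nat.factorization_mul ha0 hb2, Nat.factorization_pow]
    simp
  unfold sq1
  conv_rhs => rw [← Nat.prod_primeFactors_of_squarefree ha]
  have : (a * b ^ 2).primeFactors.filter (fun p => Odd ((a * b ^ 2).factorization p)) = a.primeFactors := by
    ext p
    rw [mem_filter, hfac]
    constructor
    · rintro ⟨hp, ho⟩
      rw [Nat.mem_primeFactors] at hp ⊢
      refine ⟨hp.1, ?_, ha0⟩
      have h1 : a.factorization p ≠ 0 := by
        intro h0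
        rw [h0, zero_add] at ho
        exact (Nat.not_odd_iff_even.2 (even_two_mul _)) ho
      exact Nat.dvd_of_factorization_pos h1
    · intro hp
      have hp' := Nat.mem_primeFactors.1 hp
      refine ⟨Nat.mem_primeFactors.2 ⟨hp'.1, hp'.2.1.mul_right _, mul_ne_zero ha0 hb2⟩, ?_⟩
      have h1 : a.factorization p ≤ 1 := ha.natFactorization_le_one p
      have h2 : 0 < a.factorization p := hp'.1.factorization_pos_of_dvd ha0 hp'.2.1
      have h3 : a.factorization p = 1 := by omega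
      rw [h3]
      exact ⟨b.factorization p, by ring⟩
  rw [this]

private theorem gx_sq2_eq {a b : ℕ} (ha : Squarefree a) (hb : b ≠ 0) : sq2 (a * b ^ 2) = b := by
  have ha0 : a ≠ 0 := ha.ne_zero
  have h := sq1_mul_sq2 (a * b ^ 2) (mul_ne_zero ha0 (pow_ne_zero 2 hb))
  rw [gx_sq1_eq ha hb] at h
  have h2 := Nat.eq_of_mul_eq_mul_left (Nat.pos_of_ne_zero ha0) h
  exact Nat.pow_left_injective two_ne_zero h2

private theorem gx_sq1_pow {p : ℕ} (hp : p.Prime) (j : ℕ) :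
    sq1 (p ^ j) = if Odd j then p else 1 := by
  split_ifs with h
  · obtain ⟨i, rfl⟩ := h
    have : p ^ (2 * i + 1) = p * (p ^ i) ^ 2 := by ring
    rw [this, gx_sq1_eq hp.squarefree (pow_ne_zero _ hp.ne_zero)]
  · obtain ⟨i, rfl⟩ := (Nat.not_odd_iff_even.1 h)
    have : p ^ (i + i) = 1 * (p ^ i) ^ 2 := by ring
    rw [this, gx_sq1_eq squarefree_one (pow_ne_zero _ hp.ne_zero)]

private theorem gx_sq2_pow {p : ℕ} (hp : p.Prime) (j : ℕ) :
    sq2 (p ^ j) = p ^ (j / 2) := by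
  by_cases h : Odd j
  · obtain ⟨i, rfl⟩ := h
    have : p ^ (2 * i + 1) = p * (p ^ i) ^ 2 := by ring
    rw [this, gx_sq2_eq hp.squarefree (pow_ne_zero _ hp.ne_zero)]
    congr 1; omega
  · obtain ⟨i, rfl⟩ := (Nat.not_odd_iff_even.1 h)
    have : p ^ (i + i) = 1 * (p ^ i) ^ 2 := by ring
    rw [this, gx_sq2_eq squarefree_one (pow_ne_zero _ hp.ne_zero)]
    congr 1; omega

/-- the three arithmetic functions -/
private noncomputable def gxX (k : ℤ) : ArithmeticFunction ℝ := ⟨fun n => jr k n, by simp [jr]⟩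

private noncomputable def gx1 : ArithmeticFunction ℝ :=
  ⟨fun n => if n = 0 then 0 else if sq1 n = 1 then (ArithmeticFunction.moebius (sq2 n) : ℝ) else 0, by simp⟩

private noncomputable def gx2 (k : ℤ) (f : ℕ) : ArithmeticFunction ℝ :=
  ⟨fun n => if n = 0 then 0 else if sq1 n * sq2 n ∣ f then
    (ArithmeticFunction.moebius (sq1 n) : ℝ) * jr k (sq1 n) * (sq2 n : ℝ) else 0, by simp⟩

private theorem gxX_mul (k : ℤ) : (gxX k).IsMultiplicative := by
  refine ⟨gx_jr_one k, ?_⟩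
  intro m n _
  exact gx_jr_mul k m n

private theorem gx_sq1_one : sq1 1 = 1 := by simp [sq1]
private theorem gx_sq2_one : sq2 1 = 1 := by simp [sq2]

private theorem gx_sq1_dvd {n : ℕ} (hn : n ≠ 0) : sq1 n ∣ n := Dvd.intro _ (sq1_mul_sq2 n hn)
private theorem gx_sq2_dvd {n : ℕ} (hn : n ≠ 0) : sq2 n ∣ n :=
  (dvd_pow_self _ two_ne_zero).trans (Dvd.intro_left (sq1 n) (sq1_mul_sq2 n hn))

private theorem gx1_mul : gx1.IsMultiplicative := by
  refine ⟨by simp [gx1, gx_sq1_one, gx_sq2_one], ?_⟩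
  intro m n h
  show (if m * n = 0 then (0 : ℝ) else if sq1 (m * n) = 1 then
      (ArithmeticFunction.moebius (sq2 (m * n)) : ℝ) else 0) =
    (if m = 0 then (0 : ℝ) else if sq1 m = 1 then (ArithmeticFunction.moebius (sq2 m) : ℝ) else 0) *
    (if n = 0 then (0 : ℝ) else if sq1 n = 1 then (ArithmeticFunction.moebius (sq2 n) : ℝ) else 0)
  by_cases hm : m = 0
  · simp [hm]
  by_cases hn : n = 0
  · simp [hn]
  rw [if_neg (mul_ne_zero hm hn), if_neg hm, if_neg hn, sq1_mul h, sq2_mul h]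
  have hc : Nat.Coprime (sq2 m) (sq2 n) :=
    Nat.Coprime.coprime_dvd_left (gx_sq2_dvd hm) (h.coprime_dvd_right (gx_sq2_dvd hn))
  by_cases h1 : sq1 m = 1
  · by_cases h2 : sq1 n = 1
    · rw [if_pos (by rw [h1, h2]), if_pos h1, if_pos h2,
        ArithmeticFunction.isMultiplicative_moebius.map_mul_of_coprime hc]
      push_cast; ring
    · rw [if_neg (fun h => h2 (Nat.eq_one_of_mul_eq_one_left h)), if_neg h2, mul_zero]
  · rw [if_neg (fun h => h1 (Nat.eq_one_of_mul_eq_one_right h)), if_neg h1, zero_mul]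

private theorem gx2_mul (k : ℤ) (f : ℕ) : (gx2 k f).IsMultiplicative := by
  refine ⟨by simp [gx2, gx_sq1_one, gx_sq2_one, gx_jr_one], ?_⟩
  intro m n h
  show (if m * n = 0 then (0 : ℝ) else if sq1 (m * n) * sq2 (m * n) ∣ f then
      (ArithmeticFunction.moebius (sq1 (m * n)) : ℝ) * jr k (sq1 (m * n)) * (sq2 (m * n) : ℝ) else 0) =
    (if m = 0 then (0 : ℝ) else if sq1 m * sq2 m ∣ f then
      (ArithmeticFunction.moebius (sq1 m) : ℝ) * jr k (sq1 m) * (sq2 m : ℝ) else 0) *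
    (if n = 0 then (0 : ℝ) else if sq1 n * sq2 n ∣ f then
      (ArithmeticFunction.moebius (sq1 n) : ℝ) * jr k (sq1 n) * (sq2 n : ℝ) else 0)
  by_cases hm : m = 0
  · simp [hm]
  by_cases hn : n = 0
  · simp [hn]
  rw [if_neg (mul_ne_zero hm hn), if_neg hm, if_neg hn, sq1_mul h, sq2_mul h]
  have hc1 : Nat.Coprime (sq1 m) (sq1 n) :=
    Nat.Coprime.coprime_dvd_left (gx_sq1_dvd hm) (h.coprime_dvd_right (gx_sq1_dvd hn))
  have hc2 : Nat.Coprime (sq2 m) (sq2 n) :=
    Nat.Coprime.coprime_dvd_left (gx_sq2_dvd hm) (h.coprime_dvd_right (gx_sq2_dvd hn))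
  have hc12 : Nat.Coprime (sq1 m) (sq2 n) :=
    Nat.Coprime.coprime_dvd_left (gx_sq1_dvd hm) (h.coprime_dvd_right (gx_sq2_dvd hn))
  have hc21 : Nat.Coprime (sq2 m) (sq1 n) :=
    Nat.Coprime.coprime_dvd_left (gx_sq2_dvd hm) (h.coprime_dvd_right (gx_sq1_dvd hn))
  have hc : Nat.Coprime (sq1 m * sq2 m) (sq1 n * sq2 n) :=
    Nat.Coprime.mul_left (hc1.mul_right hc12) (hc21.mul_right hc2)
  have hre : sq1 m * sq1 n * (sq2 m * sq2 n) = (sq1 m * sq2 m) * (sq1 n * sq2 n) := by ring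
  rw [hre]
  have hd : (sq1 m * sq2 m) * (sq1 n * sq2 n) ∣ f ↔ (sq1 m * sq2 m ∣ f ∧ sq1 n * sq2 n ∣ f) :=
    ⟨fun h => ⟨(Dvd.intro _ rfl).trans h, (Dvd.intro_left _ rfl).trans h⟩,
      fun h => hc.mul_dvd_of_dvd_of_dvd h.1 h.2⟩
  by_cases h1 : sq1 m * sq2 m ∣ f
  · by_cases h2 : sq1 n * sq2 n ∣ f
    · rw [if_pos (hd.2 ⟨h1, h2⟩), if_pos h1, if_pos h2,
        ArithmeticFunction.isMultiplicative_moebius.map_mul_of_coprime hc1, gx_jr_mul]
      push_cast; ring
    · rw [if_neg (fun h => h2 (hd.1 h).2), if_neg h2, mul_zero]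
  · rw [if_neg (fun h => h1 (hd.1 h).1), if_neg h1, zero_mul]


/-- `EDv` and division -/
private theorem gx_EE (k : ℤ) {x y N : ℕ} (_hx : x ≠ 0) (hy : y ≠ 0) (hN : N ≠ 0) :
    EDv k (x * y) N = if y ∣ N then EDv k x (N / y) else 0 := by
  unfold EDv
  by_cases h : y ∣ N
  · rw [if_pos h]
    obtain ⟨M, rfl⟩ := h
    rw [Nat.mul_div_cancel_left _ (Nat.pos_of_ne_zero hy)]
    by_cases h2 : x ∣ M
    · have : x * y ∣ y * M := by rw [mul_comm]; exact mul_dvd_mul_left y h2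
      rw [if_pos this, if_pos h2, mul_comm x y, Nat.mul_div_mul_left _ _ (Nat.pos_of_ne_zero hy)]
    · have : ¬ (x * y ∣ y * M) := by
        rw [mul_comm x y]
        intro h3
        exact h2 (Nat.dvd_of_mul_dvd_mul_left (Nat.pos_of_ne_zero hy) h3)
      rw [if_neg this, if_neg h2]
  · rw [if_neg h, if_neg (fun h2 => h ((Dvd.intro_left _ rfl).trans h2))]

/-- the inner sum -/
private theorem gx_inner (k : ℤ) {n B : ℕ} (hn : n ≠ 0) (hB : n ≤ B ^ 2) :
    ∑ g ∈ Icc 1 B, (ArithmeticFunction.moebius g : ℝ) * EDv k (g ^ 2) n = (gx1 * gxX k) n := by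
  rw [ArithmeticFunction.mul_apply, Nat.sum_divisorsAntidiagonal (fun x y => gx1 x * gxX k y)]
  have e1 : ∑ g ∈ Icc 1 B, (ArithmeticFunction.moebius g : ℝ) * EDv k (g ^ 2) n =
      ∑ g ∈ (Icc 1 B).filter (fun g => g ^ 2 ∣ n),
        (ArithmeticFunction.moebius g : ℝ) * jr k (n / g ^ 2) := by
    rw [Finset.sum_filter]
    refine Finset.sum_congr rfl fun g _ => ?_
    unfold EDv
    split_ifs <;> simp
  have e2 : ∑ i ∈ n.divisors, gx1 i * gxX k (n / i) =
      ∑ i ∈ n.divisors.filter (fun i => sq1 i = 1),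
        (ArithmeticFunction.moebius (sq2 i) : ℝ) * jr k (n / i) := by
    rw [Finset.sum_filter]
    refine Finset.sum_congr rfl fun i hi => ?_
    have hi0 : i ≠ 0 := by
      rintro rfl
      simp at hi
    show (if i = 0 then (0 : ℝ) else if sq1 i = 1 then
      (ArithmeticFunction.moebius (sq2 i) : ℝ) else 0) * jr k (n / i) = _
    rw [if_neg hi0]
    split_ifs <;> simp
  rw [e1, e2]
  refine Finset.sum_nbij' (fun g => g ^ 2) (fun i => sq2 i) ?_ ?_ ?_ ?_ ?_
  · intro g hg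
    rw [mem_filter, mem_Icc] at hg
    have hg0 : g ≠ 0 := by omega
    rw [mem_filter, Nat.mem_divisors]
    refine ⟨⟨hg.2, hn⟩, ?_⟩
    have := gx_sq1_eq squarefree_one hg0
    rwa [one_mul] at this
  · intro i hi
    rw [mem_filter, Nat.mem_divisors] at hi
    have hi0 : i ≠ 0 := by
      rintro rfl
      exact hn (Nat.eq_zero_of_zero_dvd hi.1.1)
    have e := sq1_mul_sq2 i hi0
    rw [hi.2, one_mul] at e
    rw [mem_filter, mem_Icc, e]
    refine ⟨⟨?_, ?_⟩, hi.1.1⟩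
    · rcases Nat.eq_zero_or_pos (sq2 i) with h | h
      · rw [h] at e; exact absurd e.symm hi0
      · exact h
    · have h1 : sq2 i ^ 2 ≤ B ^ 2 := by
        rw [e]
        exact (Nat.le_of_dvd (Nat.pos_of_ne_zero hn) hi.1.1).trans hB
      exact (Nat.pow_le_pow_iff_left two_ne_zero).1 h1
  · intro g hg
    rw [mem_filter, mem_Icc] at hg
    have hg0 : g ≠ 0 := by omega
    have := gx_sq2_eq squarefree_one hg0
    rwa [one_mul] at this
  · intro i hi
    rw [mem_filter, Nat.mem_divisors] at hi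
    have hi0 : i ≠ 0 := by
      rintro rfl
      exact hn (Nat.eq_zero_of_zero_dvd hi.1.1)
    have e := sq1_mul_sq2 i hi0
    rw [hi.2, one_mul] at e
    exact e
  · intro g hg
    rw [mem_filter, mem_Icc] at hg
    have hg0 : g ≠ 0 := by omega
    have := gx_sq2_eq squarefree_one hg0
    rw [one_mul] at this
    rw [this]

/-- the whole triple sum is a Dirichlet convolution -/
private theorem gx_rhs (k : ℤ) {f N B : ℕ} (hf : 0 < f) (hN : N ≠ 0) (hB : N ≤ B ^ 2) :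
    ∑ a ∈ f.divisors, ∑ b ∈ (f / a).divisors, ∑ g ∈ Icc 1 B,
      (ArithmeticFunction.moebius g : ℝ) * (ArithmeticFunction.moebius a : ℝ) * jr k a * b *
        EDv k (g ^ 2 * (a * b ^ 2)) N = (gx2 k f * (gx1 * gxX k)) N := by
  rw [ArithmeticFunction.mul_apply,
    Nat.sum_divisorsAntidiagonal (fun x y => gx2 k f x * (gx1 * gxX k) y)]
  have e0 : ∀ a ∈ f.divisors, ∀ b ∈ (f / a).divisors, ∑ g ∈ Icc 1 B,
      (ArithmeticFunction.moebius g : ℝ) * (ArithmeticFunction.moebius a : ℝ) * jr k a * b *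
        EDv k (g ^ 2 * (a * b ^ 2)) N = if Squarefree a ∧ a * b ^ 2 ∣ N then
          (ArithmeticFunction.moebius a : ℝ) * jr k a * b * (gx1 * gxX k) (N / (a * b ^ 2)) else 0 := by
    intro a ha b hb
    have ha0 : a ≠ 0 := by rintro rfl; simp at ha
    have hb0 : b ≠ 0 := by
      rintro rfl
      rw [Nat.mem_divisors] at hb
      exact hb.2 (Nat.eq_zero_of_zero_dvd hb.1)
    by_cases hs : Squarefree a
    · by_cases hd : a * b ^ 2 ∣ N
      · rw [if_pos ⟨hs, hd⟩]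
        have hq0 : N / (a * b ^ 2) ≠ 0 := by
          obtain ⟨M, rfl⟩ := hd
          rw [Nat.mul_div_cancel_left _ (by positivity)]
          exact right_ne_zero_of_mul hN
        rw [← gx_inner k hq0 ((Nat.div_le_self _ _).trans hB), Finset.mul_sum]
        refine Finset.sum_congr rfl fun g hg => ?_
        rw [mem_Icc] at hg
        rw [gx_EE k (pow_ne_zero 2 (by omega)) (by positivity) hN, if_pos hd]
        ring
      · rw [if_neg (fun h => hd h.2)]
        refine Finset.sum_eq_zero fun g hg => ?_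
        rw [mem_Icc] at hg
        rw [gx_EE k (pow_ne_zero 2 (by omega)) (by positivity) hN, if_neg hd, mul_zero]
    · rw [if_neg (fun h => hs h.1)]
      refine Finset.sum_eq_zero fun g hg => ?_
      rw [ArithmeticFunction.moebius_eq_zero_of_not_squarefree hs]
      simp
  rw [Finset.sum_congr rfl fun a ha => Finset.sum_congr rfl fun b hb => e0 a ha b hb]
  have e1 : ∑ a ∈ f.divisors, ∑ b ∈ (f / a).divisors, (if Squarefree a ∧ a * b ^ 2 ∣ N then
          (ArithmeticFunction.moebius a : ℝ) * jr k a * b * (gx1 * gxX k) (N / (a * b ^ 2)) else 0) =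
      ∑ x ∈ (f.divisors.sigma (fun a => (f / a).divisors)).filter
        (fun x => Squarefree x.1 ∧ x.1 * x.2 ^ 2 ∣ N),
        (ArithmeticFunction.moebius x.1 : ℝ) * jr k x.1 * x.2 * (gx1 * gxX k) (N / (x.1 * x.2 ^ 2)) := by
    rw [Finset.sum_filter, Finset.sum_sigma]
  have e2 : ∑ i ∈ N.divisors, gx2 k f i * (gx1 * gxX k) (N / i) =
      ∑ i ∈ N.divisors.filter (fun i => sq1 i * sq2 i ∣ f),
        (ArithmeticFunction.moebius (sq1 i) : ℝ) * jr k (sq1 i) * (sq2 i : ℝ) *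
          (gx1 * gxX k) (N / i) := by
    rw [Finset.sum_filter]
    refine Finset.sum_congr rfl fun i hi => ?_
    have hi0 : i ≠ 0 := by
      rintro rfl
      simp at hi
    show (if i = 0 then (0 : ℝ) else if sq1 i * sq2 i ∣ f then
      (ArithmeticFunction.moebius (sq1 i) : ℝ) * jr k (sq1 i) * (sq2 i : ℝ) else 0) * _ = _
    rw [if_neg hi0]
    split_ifs <;> simp
  rw [e1, e2]
  refine Finset.sum_nbij' (fun x => x.1 * x.2 ^ 2) (fun i => (⟨sq1 i, sq2 i⟩ : (_ : ℕ) × ℕ)) ?_ ?_ ?_ ?_ ?_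
  · rintro ⟨a, b⟩ hx
    rw [mem_filter, mem_sigma, Nat.mem_divisors, Nat.mem_divisors] at hx
    obtain ⟨⟨⟨h1, h2⟩, h3, h4⟩, h5, h6⟩ := hx
    have hb0 : b ≠ 0 := by rintro rfl; exact h4 (Nat.eq_zero_of_zero_dvd h3)
    rw [mem_filter, Nat.mem_divisors]
    refine ⟨⟨h6, hN⟩, ?_⟩
    show sq1 (a * b ^ 2) * sq2 (a * b ^ 2) ∣ f
    rw [gx_sq1_eq h5 hb0, gx_sq2_eq h5 hb0]
    obtain ⟨c, hc⟩ := h1
    rw [hc] at h3 ⊢
    have ha0 : 0 < a := by
      rcases Nat.eq_zero_or_pos a with h | h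
      · rw [h] at hc; simp at hc; omega
      · exact h
    simp only at h3
    rw [Nat.mul_div_cancel_left _ ha0] at h3
    exact mul_dvd_mul_left a h3
  · intro i hi
    rw [mem_filter, Nat.mem_divisors] at hi
    have hi0 : i ≠ 0 := by
      rintro rfl
      exact hN (Nat.eq_zero_of_zero_dvd hi.1.1)
    have e := sq1_mul_sq2 i hi0
    rw [mem_filter, mem_sigma, Nat.mem_divisors, Nat.mem_divisors]
    refine ⟨⟨⟨(Dvd.intro _ rfl).trans hi.2, hf.ne'⟩, ?_, ?_⟩, squarefree_sq1 i, ?_⟩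
    · show sq2 i ∣ f / sq1 i
      exact Nat.dvd_div_of_mul_dvd hi.2
    · show f / sq1 i ≠ 0
      have h1 : sq1 i ∣ f := (Dvd.intro _ rfl).trans hi.2
      obtain ⟨c, hc⟩ := h1
      have h3 : 0 < sq1 i := Nat.pos_of_ne_zero (squarefree_sq1 i).ne_zero
      rw [hc, Nat.mul_div_cancel_left _ h3]
      rintro rfl
      simp at hc; omega
    · show sq1 i * sq2 i ^ 2 ∣ N
      rw [e]; exact hi.1.1
  · rintro ⟨a, b⟩ hx
    rw [mem_filter, mem_sigma, Nat.mem_divisors, Nat.mem_divisors] at hx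
    obtain ⟨⟨⟨h1, h2⟩, h3, h4⟩, h5, h6⟩ := hx
    have hb0 : b ≠ 0 := by rintro rfl; exact h4 (Nat.eq_zero_of_zero_dvd h3)
    show (⟨sq1 (a * b ^ 2), sq2 (a * b ^ 2)⟩ : (_ : ℕ) × ℕ) = ⟨a, b⟩
    rw [gx_sq1_eq h5 hb0, gx_sq2_eq h5 hb0]
  · intro i hi
    rw [mem_filter, Nat.mem_divisors] at hi
    have hi0 : i ≠ 0 := by
      rintro rfl
      exact hN (Nat.eq_zero_of_zero_dvd hi.1.1)
    exact sq1_mul_sq2 i hi0
  · rintro ⟨a, b⟩ hx
    rw [mem_filter, mem_sigma, Nat.mem_divisors, Nat.mem_divisors] at hx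
    obtain ⟨⟨⟨h1, h2⟩, h3, h4⟩, h5, h6⟩ := hx
    have hb0 : b ≠ 0 := by rintro rfl; exact h4 (Nat.eq_zero_of_zero_dvd h3)
    show (ArithmeticFunction.moebius a : ℝ) * jr k a * b * (gx1 * gxX k) (N / (a * b ^ 2)) =
      (ArithmeticFunction.moebius (sq1 (a * b ^ 2)) : ℝ) * jr k (sq1 (a * b ^ 2)) *
        (sq2 (a * b ^ 2) : ℝ) * (gx1 * gxX k) (N / (a * b ^ 2))
    rw [gx_sq1_eq h5 hb0, gx_sq2_eq h5 hb0]


private theorem gx1_pow {p : ℕ} (hp : p.Prime) (j : ℕ) :
    gx1 (p ^ j) = if j = 0 then 1 else if j = 2 then -1 else 0 := by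
  show (if p ^ j = 0 then (0 : ℝ) else if sq1 (p ^ j) = 1 then
    (ArithmeticFunction.moebius (sq2 (p ^ j)) : ℝ) else 0) = _
  rw [if_neg (pow_ne_zero _ hp.ne_zero), gx_sq1_pow hp, gx_sq2_pow hp]
  by_cases ho : Odd j
  · rw [if_pos ho, if_neg hp.one_lt.ne']
    have h1 : j ≠ 0 := by rintro rfl; simp at ho
    have h2 : j ≠ 2 := by rintro rfl; exact absurd ho (by decide)
    rw [if_neg h1, if_neg h2]
  · rw [if_neg ho, if_pos rfl]
    obtain ⟨i, rfl⟩ := Nat.not_odd_iff_even.1 ho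
    have e : (i + i) / 2 = i := by omega
    rw [e]
    rcases i with _ | _ | i
    · simp
    · simp [ArithmeticFunction.moebius_apply_prime hp]
    · rw [ArithmeticFunction.moebius_eq_zero_of_not_squarefree]
      · rw [if_neg (by omega), if_neg (by omega)]; simp
      · intro hs
        have := (Nat.squarefree_pow_iff hp.one_lt.ne' (by omega)).1 hs
        omega

private theorem gx2_pow (k : ℤ) {f p : ℕ} (hf : f ≠ 0) (hp : p.Prime) (j : ℕ) :
    gx2 k f (p ^ j) = if Odd j then (if j / 2 + 1 ≤ f.factorization p then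
      -jr k p * (p : ℝ) ^ (j / 2) else 0) else (if j / 2 ≤ f.factorization p then
      (p : ℝ) ^ (j / 2) else 0) := by
  show (if p ^ j = 0 then (0 : ℝ) else if sq1 (p ^ j) * sq2 (p ^ j) ∣ f then
    (ArithmeticFunction.moebius (sq1 (p ^ j)) : ℝ) * jr k (sq1 (p ^ j)) * (sq2 (p ^ j) : ℝ) else 0) = _
  rw [if_neg (pow_ne_zero _ hp.ne_zero), gx_sq1_pow hp, gx_sq2_pow hp]
  by_cases ho : Odd j
  · rw [if_pos ho, if_pos ho, ← pow_succ', ArithmeticFunction.moebius_apply_prime hp]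
    have hd := hp.pow_dvd_iff_le_factorization (k := j / 2 + 1) hf
    by_cases h1 : j / 2 + 1 ≤ f.factorization p
    · rw [if_pos (hd.2 h1), if_pos h1]; push_cast; ring
    · rw [if_neg (fun h => h1 (hd.1 h)), if_neg h1]
  · rw [if_neg ho, if_neg ho, one_mul, gx_jr_one]
    have hd := hp.pow_dvd_iff_le_factorization (k := j / 2) hf
    by_cases h1 : j / 2 ≤ f.factorization p
    · rw [if_pos (hd.2 h1), if_pos h1]; simp
    · rw [if_neg (fun h => h1 (hd.1 h)), if_neg h1]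

private noncomputable def gxG (k : ℤ) (f p i : ℕ) : ℝ := (gx2 k f * gxX k) (p ^ i)

private theorem gxG_eq (k : ℤ) {f p : ℕ} (hp : p.Prime) (i : ℕ) :
    gxG k f p i = ∑ j ∈ range (i + 1), gx2 k f (p ^ j) * jr k p ^ (i - j) := by
  unfold gxG
  rw [ArithmeticFunction.mul_apply,
    Nat.sum_divisorsAntidiagonal (fun x y => gx2 k f x * gxX k y), Nat.sum_divisors_prime_pow hp]
  refine Finset.sum_congr rfl fun j hj => ?_
  rw [mem_range] at hj
  rw [Nat.pow_div (by omega) hp.pos]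
  show _ * jr k (p ^ (i - j)) = _
  rw [gx_jr_pow]

private theorem gxG_succ (k : ℤ) {f p : ℕ} (hp : p.Prime) (i : ℕ) :
    gxG k f p (i + 1) = jr k p * gxG k f p i + gx2 k f (p ^ (i + 1)) := by
  rw [gxG_eq k hp, gxG_eq k hp, Finset.sum_range_succ, Finset.mul_sum]
  congr 1
  · refine Finset.sum_congr rfl fun j hj => ?_
    rw [mem_range] at hj
    have : i + 1 - j = (i - j) + 1 := by omega
    rw [this, pow_succ]; ring
  · simp

private theorem gxG_val (k : ℤ) {f p : ℕ} (hf : f ≠ 0) (hp : p.Prime) (m : ℕ) :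
    gxG k f p (2 * m) = (if m ≤ f.factorization p then (p : ℝ) ^ m else
      (p : ℝ) ^ (f.factorization p) * jr k p ^ (2 * (m - f.factorization p))) ∧
    gxG k f p (2 * m + 1) = (if m < f.factorization p then 0 else
      (p : ℝ) ^ (f.factorization p) * jr k p ^ (2 * (m - f.factorization p) + 1)) := by
  have hodd : ∀ m, gxG k f p (2 * m) = (if m ≤ f.factorization p then (p : ℝ) ^ m else
      (p : ℝ) ^ (f.factorization p) * jr k p ^ (2 * (m - f.factorization p))) →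
      gxG k f p (2 * m + 1) = (if m < f.factorization p then 0 else
      (p : ℝ) ^ (f.factorization p) * jr k p ^ (2 * (m - f.factorization p) + 1)) := by
    intro m h
    rw [gxG_succ k hp, h, gx2_pow k hf hp, if_pos (show Odd (2 * m + 1) from ⟨m, rfl⟩)]
    have e : (2 * m + 1) / 2 = m := by omega
    rw [e]
    rcases lt_trichotomy m (f.factorization p) with h1 | h1 | h1
    · rw [if_pos h1.le, if_pos h1, if_pos (by omega)]; ring
    · rw [if_pos h1.le, if_neg (by omega), if_neg (by omega), h1]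
      simp; ring
    · rw [if_neg (by omega), if_neg (by omega), if_neg (by omega), pow_succ]; ring
  induction m with
  | zero =>
    have h0 : gxG k f p (2 * 0) = (if 0 ≤ f.factorization p then (p : ℝ) ^ 0 else
      (p : ℝ) ^ (f.factorization p) * jr k p ^ (2 * (0 - f.factorization p))) := by
      rw [if_pos (Nat.zero_le _), gxG_eq k hp]
      have := gx2_pow k hf hp 0
      simp at this ⊢
      simp [this]
    exact ⟨h0, hodd 0 h0⟩
  | succ m ih =>
    have h0 : gxG k f p (2 * (m + 1)) = (if m + 1 ≤ f.factorization p then (p : ℝ) ^ (m + 1) else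
      (p : ℝ) ^ (f.factorization p) * jr k p ^ (2 * (m + 1 - f.factorization p))) := by
      have e1 : 2 * (m + 1) = 2 * m + 1 + 1 := by ring
      have ho : ¬ Odd (2 * m + 1 + 1) := by
        rw [Nat.not_odd_iff_even]; exact ⟨m + 1, by ring⟩
      have e2 : (2 * m + 1 + 1) / 2 = m + 1 := by omega
      rw [e1, gxG_succ k hp, ih.2, gx2_pow k hf hp, if_neg ho, e2]
      rcases lt_or_ge m (f.factorization p) with h1 | h1
      · rw [if_pos h1, if_pos (by omega), if_pos (by omega)]; ring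
      · rw [if_neg (by omega), if_neg (by omega), if_neg (by omega)]
        have : m + 1 - f.factorization p = (m - f.factorization p) + 1 := by omega
        rw [this]
        have e3 : 2 * (m - f.factorization p + 1) = 2 * (m - f.factorization p) + 1 + 1 := by ring
        rw [e3, pow_succ _ (2 * (m - f.factorization p) + 1)]; ring
    exact ⟨h0, hodd (m + 1) h0⟩

private theorem gx_R_pow (k : ℤ) {f p : ℕ} (hp : p.Prime) (B : ℕ) :
    (gx2 k f * (gx1 * gxX k)) (p ^ B) = gxG k f p B - if 2 ≤ B then gxG k f p (B - 2) else 0 := by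
  have e : gx2 k f * (gx1 * gxX k) = gx1 * (gx2 k f * gxX k) := by ring
  rw [e, ArithmeticFunction.mul_apply,
    Nat.sum_divisorsAntidiagonal (fun x y => gx1 x * (gx2 k f * gxX k) y),
    Nat.sum_divisors_prime_pow hp]
  have e2 : ∀ j ∈ range (B + 1), gx1 (p ^ j) * (gx2 k f * gxX k) (p ^ B / p ^ j) =
      (if j = 0 then 1 else if j = 2 then -1 else 0) * gxG k f p (B - j) := by
    intro j hj
    rw [mem_range] at hj
    rw [Nat.pow_div (by omega) hp.pos, gx1_pow hp]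
    rfl
  rw [Finset.sum_congr rfl e2]
  rcases B with _ | _ | B
  · simp
  · simp [Finset.sum_range_succ]
  · rw [if_pos (by omega), Finset.sum_range_succ', Finset.sum_range_succ', Finset.sum_range_succ']
    have : ∑ j ∈ range B, (if j + 1 + 1 + 1 = 0 then (1 : ℝ) else if j + 1 + 1 + 1 = 2 then -1 else 0) *
        gxG k f p (B + 1 + 1 - (j + 1 + 1 + 1)) = 0 := by
      refine Finset.sum_eq_zero fun j _ => ?_
      rw [if_neg (by omega), if_neg (by omega), zero_mul]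
    rw [this]
    simp
    ring


private theorem gx_dvd0 {k₀ : ℤ} (hk : Squarefree k₀) {f p : ℕ} (hf : f ≠ 0) (hp : p.Prime)
    (j : ℕ) : ((p ^ j : ℕ) : ℤ) ^ 2 ∣ k₀ * (f : ℤ) ^ 2 ↔ j ≤ f.factorization p := by
  have hpz : Prime (p : ℤ) := Nat.prime_iff_prime_int.1 hp
  have hp0 : (p : ℤ) ≠ 0 := hpz.ne_zero
  obtain ⟨f', hf', hff⟩ : ∃ f' : ℕ, ¬ p ∣ f' ∧ f = p ^ (f.factorization p) * f' :=
    ⟨f / p ^ f.factorization p, Nat.not_dvd_ordCompl hp hf, (Nat.ordProj_mul_ordCompl_eq_self f p).symm⟩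
  constructor
  · intro h
    by_contra hlt
    push Not at hlt
    obtain ⟨d, hd⟩ : ∃ d, j = f.factorization p + (d + 1) := ⟨j - f.factorization p - 1, by omega⟩
    have h1 : ((p : ℤ) ^ (f.factorization p)) ^ 2 * (p : ℤ) ^ 2 ∣
        ((p : ℤ) ^ (f.factorization p)) ^ 2 * (k₀ * (f' : ℤ) ^ 2) := by
      refine Dvd.dvd.trans ?_ (h.trans (dvd_of_eq ?_))
      · rw [hd]
        refine ⟨(p : ℤ) ^ (2 * d), ?_⟩
        push_cast; ring
      · conv_lhs => rw [hff]
        push_cast; ring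
    have h2 : (p : ℤ) ^ 2 ∣ k₀ * (f' : ℤ) ^ 2 :=
      (mul_dvd_mul_iff_left (pow_ne_zero _ (pow_ne_zero _ hp0))).1 h1
    have hc : IsCoprime ((p : ℤ) ^ 2) ((f' : ℤ) ^ 2) := by
      apply IsCoprime.pow
      exact Nat.isCoprime_iff_coprime.2 ((Nat.Prime.coprime_iff_not_dvd hp).2 hf')
    have h3 : (p : ℤ) ^ 2 ∣ k₀ := hc.dvd_of_dvd_mul_right h2
    have h4 := hk (p : ℤ) (by rw [← sq]; exact h3)
    exact hpz.not_isUnit h4
  · intro h
    refine Dvd.dvd.mul_left ?_ k₀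
    refine pow_dvd_pow_of_dvd ?_ 2
    have : p ^ j ∣ f := (hp.pow_dvd_iff_le_factorization hf).2 h
    exact_mod_cast this

private theorem gx_dvd1 {k₀ : ℤ} (hk : Squarefree k₀) {f p : ℕ} (hf : f ≠ 0) (hp : p.Prime)
    (j : ℕ) : ((p ^ j : ℕ) : ℤ) ^ 2 ∣ k₀ * (f : ℤ) ^ 2 * (p : ℤ) ↔
      j ≤ f.factorization p ∨ (j = f.factorization p + 1 ∧ (p : ℤ) ∣ k₀) := by
  have hpz : Prime (p : ℤ) := Nat.prime_iff_prime_int.1 hp
  have hp0 : (p : ℤ) ≠ 0 := hpz.ne_zero
  obtain ⟨f', hf', hff⟩ : ∃ f' : ℕ, ¬ p ∣ f' ∧ f = p ^ (f.factorization p) * f' :=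
    ⟨f / p ^ f.factorization p, Nat.not_dvd_ordCompl hp hf, (Nat.ordProj_mul_ordCompl_eq_self f p).symm⟩
  have hc : IsCoprime (p : ℤ) ((f' : ℤ) ^ 2) := by
    apply IsCoprime.pow_right
    exact Nat.isCoprime_iff_coprime.2 ((Nat.Prime.coprime_iff_not_dvd hp).2 hf')
  constructor
  · intro h
    by_cases hle : j ≤ f.factorization p
    · exact Or.inl hle
    right
    push Not at hle
    obtain ⟨d, hd⟩ : ∃ d, j = f.factorization p + (d + 1) := ⟨j - f.factorization p - 1, by omega⟩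
    have h1 : ((p : ℤ) ^ (f.factorization p)) ^ 2 * p * (p : ℤ) ^ (2 * d + 1) ∣
        ((p : ℤ) ^ (f.factorization p)) ^ 2 * p * (k₀ * (f' : ℤ) ^ 2) := by
      refine (dvd_of_eq ?_).trans (h.trans (dvd_of_eq ?_))
      · rw [hd]
        push_cast; ring
      · conv_lhs => rw [hff]
        push_cast; ring
    have h2 : (p : ℤ) ^ (2 * d + 1) ∣ k₀ * (f' : ℤ) ^ 2 :=
      (mul_dvd_mul_iff_left (mul_ne_zero (pow_ne_zero _ (pow_ne_zero _ hp0)) hp0)).1 h1
    have h3 : (p : ℤ) ^ (2 * d + 1) ∣ k₀ := (hc.pow_left).dvd_of_dvd_mul_right h2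
    have h5 : (p : ℤ) ∣ k₀ := (dvd_pow_self _ (by omega)).trans h3
    refine ⟨?_, h5⟩
    rcases Nat.eq_zero_or_pos d with h0 | h0
    · omega
    · exfalso
      have h6 : (p : ℤ) * p ∣ k₀ := by
        refine Dvd.dvd.trans ?_ h3
        refine ⟨(p : ℤ) ^ (2 * d - 1), ?_⟩
        rw [← sq, ← pow_add]
        congr 1; omega
      exact hpz.not_isUnit (hk (p : ℤ) h6)
  · rintro (h | ⟨h, c, hc⟩)
    · exact Dvd.dvd.mul_right ((gx_dvd0 hk hf hp j).2 h) _
    · rw [h]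
      refine ⟨c * (f' : ℤ) ^ 2, ?_⟩
      conv_lhs => rw [hff, hc]
      push_cast; ring

private theorem gx_jr_sq {k₀ : ℤ} {p : ℕ} (hp : p.Prime) (ho : Odd p) :
    jr k₀ p ^ 2 = if (p : ℤ) ∣ k₀ then 0 else 1 := by
  have : Fact p.Prime := ⟨hp⟩
  unfold jr
  rw [if_pos ho, ← jacobiSym.legendreSym.to_jacobiSym]
  split_ifs with h
  · rw [(legendreSym.eq_zero_iff p k₀).2 ((ZMod.intCast_zmod_eq_zero_iff_dvd k₀ p).2 h)]
    norm_num
  · have h1 : ((k₀ : ℤ) : ZMod p) ≠ 0 := fun h2 => h ((ZMod.intCast_zmod_eq_zero_iff_dvd k₀ p).1 h2)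
    have := legendreSym.sq_one p h1
    exact_mod_cast this

private theorem gx_jr_dvd {k₀ : ℤ} {p : ℕ} (hp : p.Prime) (ho : Odd p) (h : (p : ℤ) ∣ k₀) :
    jr k₀ p = 0 := by
  have := gx_jr_sq (k₀ := k₀) hp ho
  rw [if_pos h] at this
  exact pow_eq_zero_iff two_ne_zero |>.1 this

/-- the value of `jr` at the first term -/
private theorem gx_jr_val {k₀ : ℤ} {f p : ℕ} (hf : f ≠ 0) (hp : p.Prime)
    (ho : Odd p) (j : ℕ) (hj : j ≤ f.factorization p) :
    jr (k₀ * (f : ℤ) ^ 2 / ((p ^ j : ℕ) : ℤ) ^ 2) p = if j = f.factorization p then jr k₀ p else 0 := by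
  have hpz : Prime (p : ℤ) := Nat.prime_iff_prime_int.1 hp
  have hp0 : (p : ℤ) ≠ 0 := hpz.ne_zero
  obtain ⟨c, hc⟩ : p ^ j ∣ f := (hp.pow_dvd_iff_le_factorization hf).2 hj
  have e1 : k₀ * (f : ℤ) ^ 2 / ((p ^ j : ℕ) : ℤ) ^ 2 = k₀ * (c : ℤ) ^ 2 := by
    apply Int.ediv_eq_of_eq_mul_right
    · push_cast; exact pow_ne_zero _ (pow_ne_zero _ hp0)
    · rw [hc]; push_cast; ring
  rw [e1]
  split_ifs with h
  · have hcp : ¬ p ∣ c := by
      intro hd
      have h1 : p ^ (j + 1) ∣ f := by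
        rw [hc, pow_succ]; exact mul_dvd_mul_left _ hd
      have := (hp.pow_dvd_iff_le_factorization hf).1 h1
      omega
    unfold jr
    rw [if_pos ho, if_pos ho, jacobiSym.mul_left, jacobiSym.sq_one', mul_one]
    rw [Int.gcd_natCast_natCast]
    exact ((Nat.Prime.coprime_iff_not_dvd hp).2 hcp).symm
  · apply gx_jr_dvd hp ho
    have h1 : p ∣ c := by
      have h2 : p ^ (j + 1) ∣ f := (hp.pow_dvd_iff_le_factorization hf).2 (by omega)
      rw [hc, pow_succ] at h2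
      exact Nat.dvd_of_mul_dvd_mul_left (pow_pos hp.pos j) h2
    have h2 : (p : ℤ) ∣ (c : ℤ) := by exact_mod_cast h1
    exact Dvd.dvd.mul_left (h2.trans (dvd_pow_self _ two_ne_zero)) _

/-- the value of `gg` at a prime power, in terms of `s = sq1` -/
private theorem gx_gg_pow {k₀ : ℤ} (hk : Squarefree k₀) {f p : ℕ} (hf : f ≠ 0) (hp : p.Prime)
    (j s : ℕ) :
    (∑ e ∈ (p ^ j).divisors.filter (fun e : ℕ => ((p ^ j : ℕ) : ℤ) ^ 2 ∣ k₀ * (f : ℤ) ^ 2 * (e : ℤ)),
      (ArithmeticFunction.moebius e : ℝ) / e *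
        jr (k₀ * (f : ℤ) ^ 2 * (e : ℤ) ^ 2 / ((p ^ j : ℕ) : ℤ) ^ 2) s) =
      (if j ≤ f.factorization p then
        jr (k₀ * (f : ℤ) ^ 2 / ((p ^ j : ℕ) : ℤ) ^ 2) s else 0) -
      (if 1 ≤ j ∧ (j ≤ f.factorization p ∨ (j = f.factorization p + 1 ∧ (p : ℤ) ∣ k₀)) then
        jr (k₀ * (f : ℤ) ^ 2 * (p : ℤ) ^ 2 / ((p ^ j : ℕ) : ℤ) ^ 2) s / p else 0) := by
  rw [Finset.sum_filter, Nat.sum_divisors_prime_pow hp]
  have ht : ∀ i, 2 ≤ i → (if ((p ^ j : ℕ) : ℤ) ^ 2 ∣ k₀ * (f : ℤ) ^ 2 * ((p ^ i : ℕ) : ℤ) then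
      (ArithmeticFunction.moebius (p ^ i) : ℝ) / ((p ^ i : ℕ) : ℝ) *
        jr (k₀ * (f : ℤ) ^ 2 * ((p ^ i : ℕ) : ℤ) ^ 2 / ((p ^ j : ℕ) : ℤ) ^ 2) s else 0) = 0 := by
    intro i hi
    have : ArithmeticFunction.moebius (p ^ i) = 0 := by
      rw [ArithmeticFunction.moebius_eq_zero_of_not_squarefree]
      intro hs
      have := (Nat.squarefree_pow_iff hp.one_lt.ne' (by omega)).1 hs
      omega
    rw [this]
    simp
  have h0 := gx_dvd0 hk hf hp j
  have h1 := gx_dvd1 hk hf hp j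
  rcases j with _ | j
  · simp
  · rw [Finset.sum_range_succ', Finset.sum_range_succ']
    have e : ∑ i ∈ range j, (if ((p ^ (j + 1) : ℕ) : ℤ) ^ 2 ∣
        k₀ * (f : ℤ) ^ 2 * ((p ^ (i + 1 + 1) : ℕ) : ℤ) then
      (ArithmeticFunction.moebius (p ^ (i + 1 + 1)) : ℝ) / ((p ^ (i + 1 + 1) : ℕ) : ℝ) *
        jr (k₀ * (f : ℤ) ^ 2 * ((p ^ (i + 1 + 1) : ℕ) : ℤ) ^ 2 / ((p ^ (j + 1) : ℕ) : ℤ) ^ 2) s
        else 0) = 0 := Finset.sum_eq_zero fun i _ => ht _ (by omega)
    rw [e]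
    have e1 : (p ^ (0 + 1) : ℕ) = p := by ring
    have e0 : (p ^ 0 : ℕ) = 1 := by ring
    rw [e1, e0, ArithmeticFunction.moebius_apply_prime hp, ArithmeticFunction.moebius_apply_one]
    have c0 : (((p ^ (j + 1) : ℕ) : ℤ) ^ 2 ∣ k₀ * (f : ℤ) ^ 2 * ((1 : ℕ) : ℤ)) ↔
        j + 1 ≤ f.factorization p := by
      rw [Nat.cast_one, mul_one]; exact h0
    have m1 : k₀ * (f : ℤ) ^ 2 * ((1 : ℕ) : ℤ) ^ 2 = k₀ * (f : ℤ) ^ 2 := by
      rw [Nat.cast_one]; ring
    rw [m1]
    by_cases a0 : j + 1 ≤ f.factorization p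
    · rw [if_pos (c0.2 a0), if_pos a0, if_pos (h1.2 (Or.inl a0)),
        if_pos ⟨by omega, Or.inl a0⟩]
      push_cast
      ring
    · rw [if_neg (fun h => a0 (c0.1 h)), if_neg a0]
      by_cases a1 : (j + 1 ≤ f.factorization p ∨ (j + 1 = f.factorization p + 1 ∧ (p : ℤ) ∣ k₀))
      · rw [if_pos (h1.2 a1), if_pos ⟨by omega, a1⟩]
        push_cast
        ring
      · rw [if_neg (fun h => a1 (h1.1 h)), if_neg (fun h => a1 h.2)]
        ring


private theorem gx_cube {x : ℝ} (hx : x ^ 2 = 0 ∨ x ^ 2 = 1) : x ^ 3 = x := by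
  rcases hx with h | h
  · have : x = 0 := pow_eq_zero_iff two_ne_zero |>.1 h
    rw [this]; ring
  · calc x ^ 3 = x ^ 2 * x := by ring
      _ = x := by rw [h, one_mul]

private theorem gx_pow_add_two {x : ℝ} (hx : x ^ 2 = 0 ∨ x ^ 2 = 1) (n : ℕ) (hn : 1 ≤ n) :
    x ^ (n + 2) = x ^ n := by
  obtain ⟨m, rfl⟩ : ∃ m, n = m + 1 := ⟨n - 1, by omega⟩
  calc x ^ (m + 1 + 2) = x ^ m * x ^ 3 := by ring
    _ = x ^ (m + 1) := by rw [gx_cube hx]; ring

private theorem gx_prime_pow {k₀ : ℤ} (hk : Squarefree k₀) {f p : ℕ} (hf : f ≠ 0) (hp : p.Prime)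
    (ho : Odd p) (B : ℕ) :
    √((p ^ B : ℕ) : ℝ) * gg (k₀ * (f : ℤ) ^ 2) (p ^ B) = (gx2 k₀ f * (gx1 * gxX k₀)) (p ^ B) := by
  rw [gx_R_pow k₀ hp]
  unfold gg
  rw [gx_sq2_pow hp, gx_gg_pow hk hf hp, gx_sq1_pow hp]
  have hp0 : (p : ℝ) ≠ 0 := by exact_mod_cast hp.ne_zero
  have hp1 : (0 : ℝ) < p := by exact_mod_cast hp.pos
  have hxsq := gx_jr_sq (k₀ := k₀) hp ho
  have hx : jr k₀ p ^ 2 = 0 ∨ jr k₀ p ^ 2 = 1 := by
    rw [hxsq]; split_ifs <;> simp
  have hval := gx_jr_val (k₀ := k₀) hf hp ho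
  rcases Nat.even_or_odd' B with ⟨j, rfl | rfl⟩
  · -- even exponent
    have hnodd : ¬ Odd (2 * j) := by rw [Nat.not_odd_iff_even]; exact even_two_mul j
    have e1 : 2 * j / 2 = j := by omega
    rw [if_neg hnodd, e1, Nat.cast_one, Real.sqrt_one, div_one]
    have es : √((p ^ (2 * j) : ℕ) : ℝ) = (p : ℝ) ^ j := by
      push_cast
      rw [pow_mul', Real.sqrt_sq (by positivity)]
    rw [es, gx_jr_one, gx_jr_one]
    have g1 := (gxG_val k₀ hf hp j).1
    rcases Nat.eq_zero_or_pos j with hj0 | hj0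
    · subst hj0
      have : gxG k₀ f p (2 * 0) = 1 := by rw [g1, if_pos (Nat.zero_le _)]; simp
      rw [this, if_pos (Nat.zero_le _), if_neg (by omega), if_neg (by omega)]
      simp
    · have g2 := (gxG_val k₀ hf hp (j - 1)).1
      have e2 : 2 * (j - 1) = 2 * j - 2 := by omega
      rw [e2] at g2
      rw [if_pos (show 2 ≤ 2 * j by omega), g1, g2]
      have hpj : (p : ℝ) ^ j = (p : ℝ) ^ (j - 1) * p := by
        rw [← pow_succ]; congr 1; omega
      rcases lt_trichotomy j (f.factorization p + 1) with h1 | h1 | h1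
      · have h2 : j ≤ f.factorization p := by omega
        rw [if_pos h2, if_pos ⟨hj0, Or.inl h2⟩, if_pos h2, if_pos (by omega), hpj]
        field_simp
      · have h2 : ¬ (j ≤ f.factorization p) := by omega
        rw [if_neg h2, if_neg h2, if_pos (show j - 1 ≤ f.factorization p by omega)]
        have e3 : 2 * (j - f.factorization p) = 2 := by omega
        have e4 : j - 1 = f.factorization p := by omega
        rw [e3, hxsq, hpj, e4]
        by_cases hd : (p : ℤ) ∣ k₀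
        · rw [if_pos ⟨hj0, Or.inr ⟨h1, hd⟩⟩, if_pos hd]
          field_simp
          ring
        · rw [if_neg (by rintro ⟨_, h3 | h3⟩; exact h2 h3; exact hd h3.2), if_neg hd]
          ring
      · have h2 : ¬ (j ≤ f.factorization p) := by omega
        rw [if_neg h2, if_neg h2, if_neg (show ¬ (j - 1 ≤ f.factorization p) by omega),
          if_neg (by rintro ⟨_, h3 | h3⟩; exact h2 h3; omega)]
        have e3 : 2 * (j - f.factorization p) = 2 * (j - 1 - f.factorization p) + 2 := by omega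
        rw [e3, gx_pow_add_two hx _ (by omega)]
        ring
  · -- odd exponent
    have hodd : Odd (2 * j + 1) := ⟨j, rfl⟩
    have e1 : (2 * j + 1) / 2 = j := by omega
    rw [if_pos hodd, e1]
    have es : √((p ^ (2 * j + 1) : ℕ) : ℝ) = (p : ℝ) ^ j * √(p : ℝ) := by
      push_cast
      rw [pow_succ, Real.sqrt_mul (by positivity), pow_mul', Real.sqrt_sq (by positivity)]
    have hsp : √(p : ℝ) ≠ 0 := (Real.sqrt_pos.2 hp1).ne'
    rw [es]
    have hz : (if 1 ≤ j ∧ (j ≤ f.factorization p ∨ (j = f.factorization p + 1 ∧ (p : ℤ) ∣ k₀)) then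
        jr (k₀ * (f : ℤ) ^ 2 * (p : ℤ) ^ 2 / ((p ^ j : ℕ) : ℤ) ^ 2) p / p else 0) = 0 := by
      split_ifs with h
      · have hd := (gx_dvd1 hk hf hp j).2 h.2
        obtain ⟨c, hc⟩ := hd
        have e2 : k₀ * (f : ℤ) ^ 2 * (p : ℤ) ^ 2 / ((p ^ j : ℕ) : ℤ) ^ 2 = c * p := by
          apply Int.ediv_eq_of_eq_mul_right
          · push_cast; exact pow_ne_zero _ (pow_ne_zero _ (by exact_mod_cast hp.ne_zero))
          · calc k₀ * (f : ℤ) ^ 2 * (p : ℤ) ^ 2 = (k₀ * (f : ℤ) ^ 2 * (p : ℤ)) * p := by ring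
              _ = _ := by rw [hc]; ring
        rw [e2, gx_jr_dvd hp ho (Dvd.intro_left _ rfl), zero_div]
      · rfl
    rw [hz, sub_zero]
    have g1 := (gxG_val k₀ hf hp j).2
    rcases Nat.eq_zero_or_pos j with hj0 | hj0
    · subst hj0
      rw [if_neg (show ¬ (2 ≤ 2 * 0 + 1) by omega), sub_zero, g1, if_pos (Nat.zero_le _),
        hval 0 (Nat.zero_le _)]
      rcases Nat.eq_zero_or_pos (f.factorization p) with h0 | h0
      · rw [h0]; simp
        field_simp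
      · rw [if_neg (by omega), if_pos h0]; simp
    · have g2 := (gxG_val k₀ hf hp (j - 1)).2
      have e2 : 2 * (j - 1) + 1 = 2 * j + 1 - 2 := by omega
      rw [e2] at g2
      rw [if_pos (show 2 ≤ 2 * j + 1 by omega), g1, g2]
      rcases lt_trichotomy j (f.factorization p) with h1 | h1 | h1
      · rw [if_pos h1.le, hval j h1.le, if_neg h1.ne, if_pos h1, if_pos (by omega)]
        simp
      · rw [if_pos h1.le, hval j h1.le, if_pos h1, if_neg (by omega), if_pos (by omega), ← h1]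
        simp
        field_simp
      · rw [if_neg (by omega), if_neg (by omega), if_neg (by omega)]
        have e3 : 2 * (j - f.factorization p) + 1 = 2 * (j - 1 - f.factorization p) + 1 + 2 := by omega
        rw [e3, gx_pow_add_two hx _ (by omega)]
        simp

private theorem gx_all {k₀ : ℤ} (hk : Squarefree k₀) {f : ℕ} (hf : f ≠ 0) (N : ℕ) (hN : Odd N) :
    √(N : ℝ) * gg (k₀ * (f : ℤ) ^ 2) N = (gx2 k₀ f * (gx1 * gxX k₀)) N := by
  induction N using Nat.recOnPosPrimePosCoprime with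
  | prime_pow p n hp hn =>
    have ho : Odd p := by
      rcases hp.eq_two_or_odd' with h | h
      · exfalso
        rw [h] at hN
        exact (Nat.not_odd_iff_even.2 ((Nat.even_pow' hn.ne').2 even_two)) hN
      · exact h
    exact gx_prime_pow hk hf hp ho n
  | zero => simp at hN
  | one =>
    have hm := ((gx2_mul k₀ f).mul (gx1_mul.mul (gxX_mul k₀))).1
    rw [hm]
    unfold gg
    rw [gx_sq2_one, gx_sq1_one]
    simp [jr, jacobiSym.one_right]
  | coprime a b ha hb hab iha ihb =>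
    have ho := Nat.odd_mul.1 hN
    rw [gg_mul _ hab ho.1 ho.2,
      ((gx2_mul k₀ f).mul (gx1_mul.mul (gxX_mul k₀))).map_mul_of_coprime hab,
      ← iha ho.1, ← ihb ho.2]
    push_cast
    rw [Real.sqrt_mul (Nat.cast_nonneg _)]
    ring

theorem gg_expand (k₀ : ℤ) (hk : Squarefree k₀) (f N B : ℕ) (hf : 0 < f) (hN : Odd N)
    (hB : N ≤ B ^ 2) :
    gg (k₀ * (f : ℤ) ^ 2) N = (∑ a ∈ f.divisors, ∑ b ∈ (f / a).divisors, ∑ g ∈ Icc 1 B,
      (ArithmeticFunction.moebius g : ℝ) * (ArithmeticFunction.moebius a : ℝ) * jr k₀ a * b *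
        EDv k₀ (g ^ 2 * (a * b ^ 2)) N) / √(N : ℝ) := by
  have hN0 : N ≠ 0 := by rintro rfl; simp at hN
  have hs : √(N : ℝ) ≠ 0 := (Real.sqrt_pos.2 (by exact_mod_cast Nat.pos_of_ne_zero hN0)).ne'
  rw [gx_rhs k₀ hf hN0 hB, ← gx_all hk hf.ne' N hN]
  field_simp

end Pool.Agent.MP0016c7.Rz
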