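import Mathlib
import Pool.Agent.Lib.MP_0016c7_nt.Rz.Defs
import Pool.Agent.Lib.MP_0016c7_nt.Rz2.QDefs

set_option autoImplicit false

/-!
Splitting a divisor over four variables (D2).
-/

open Finset MeasureTheory Filter Topology
open scoped Real ContDiff

namespace Pool.Agent.MP0016c7.Rz

private lemma s4_jr_mul (k : ℤ) (m n : ℕ) : jr k (m * n) = jr k m * jr k n := by
  unfold jr
  by_cases hm : Odd m
  · by_cases hn : Odd n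
    · have h0 : NeZero m := ⟨by rintro rfl; exact absurd hm (by decide)⟩
      have h1 : NeZero n := ⟨by rintro rfl; exact absurd hn (by decide)⟩
      rw [if_pos hm, if_pos hn, if_pos (hm.mul hn), jacobiSym.mul_right]
      push_cast
      ring
    · rw [if_neg hn, if_neg (fun h => hn (Nat.odd_mul.1 h).2), mul_zero]
  · rw [if_neg hm, if_neg (fun h => hm (Nat.odd_mul.1 h).1), zero_mul]

private lemma s4_jr_one (k : ℤ) : jr k 1 = 1 := by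
  unfold jr
  rw [if_pos odd_one, jacobiSym.one_right]
  norm_num

/-- one variable -/
private lemma s4_EE (k₀ : ℤ) (D R δ m : ℕ) (hD : 0 < D) (hR : 0 < R) (hδ : δ ∣ D)
    (hm : Nat.Coprime m (D / δ)) :
    EDv k₀ D (δ * m * R) = jr k₀ m * EDv k₀ (D / δ) R := by
  obtain ⟨e, rfl⟩ := hδ
  have hδ0 : 0 < δ := Nat.pos_of_mul_pos_right hD |> fun _ => by
    rcases Nat.eq_zero_or_pos δ with h | h
    · subst h; simp at hD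
    · exact h
  have he0 : 0 < e := by
    rcases Nat.eq_zero_or_pos e with h | h
    · subst h; simp at hD
    · exact h
  rw [Nat.mul_div_cancel_left _ hδ0] at hm ⊢
  unfold EDv
  have h1 : δ * e ∣ δ * m * R ↔ e ∣ R := by
    rw [mul_assoc, Nat.mul_dvd_mul_iff_left hδ0]
    constructor
    · intro h
      exact (Nat.Coprime.dvd_of_dvd_mul_left hm.symm h)
    · intro h
      exact Dvd.dvd.mul_left h m
  by_cases h : e ∣ R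
  · rw [if_pos (h1.2 h), if_pos h, ← s4_jr_mul]
    obtain ⟨f, rfl⟩ := h
    congr 1
    rw [Nat.mul_div_cancel_left _ he0]
    apply Nat.div_eq_of_eq_mul_right hD
    ring
  · rw [if_neg (fun k => h (h1.1 k)), if_neg h, mul_zero]

theorem split_one (k₀ : ℤ) (a : ℕ → ℂ) (M D R : ℕ) (hD : 0 < D) (hR : 0 < R) :
    ∑ n ∈ Icc 1 M, a n * (EDv k₀ D (n * R) : ℂ) =
      ∑ δ ∈ D.divisors, SS k₀ a M δ (D / δ) * (EDv k₀ (D / δ) R : ℂ) := by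
  classical
  rw [← Finset.sum_fiberwise_of_maps_to (s := Icc 1 M) (t := D.divisors) (g := fun n => D.gcd n)
    (fun n _ => Nat.mem_divisors.2 ⟨Nat.gcd_dvd_left _ _, hD.ne'⟩)]
  refine Finset.sum_congr rfl fun δ hδ => ?_
  have hδD : δ ∣ D := (Nat.mem_divisors.1 hδ).1
  have hδ0 : 0 < δ := Nat.pos_of_dvd_of_pos hδD hD
  unfold SS
  rw [Finset.sum_mul]
  refine Finset.sum_bij' (fun n _ => n / δ) (fun m _ => δ * m) ?_ ?_ ?_ ?_ ?_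
  · intro n hn
    rw [mem_filter, mem_Icc] at hn
    obtain ⟨⟨h1, h2⟩, h3⟩ := hn
    have hdn : δ ∣ n := h3 ▸ Nat.gcd_dvd_right D n
    rw [mem_filter, mem_Icc]
    refine ⟨⟨Nat.div_pos (Nat.le_of_dvd h1 hdn) hδ0, Nat.div_le_div_right h2⟩, ?_⟩
    have := Nat.coprime_div_gcd_div_gcd (m := D) (n := n) (by rw [h3]; exact hδ0)
    rw [h3] at this
    exact this.symm
  · intro m hm
    rw [mem_filter, mem_Icc] at hm
    obtain ⟨⟨h1, h2⟩, h3⟩ := hm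
    rw [mem_filter, mem_Icc]
    refine ⟨⟨Nat.mul_pos hδ0 h1, ?_⟩, ?_⟩
    · calc δ * m ≤ δ * (M / δ) := Nat.mul_le_mul_left _ h2
        _ ≤ M := Nat.mul_div_le _ _
    · obtain ⟨e, rfl⟩ := hδD
      rw [Nat.mul_div_cancel_left _ hδ0] at h3
      show Nat.gcd (δ * e) (δ * m) = δ
      rw [Nat.gcd_mul_left, h3.symm.gcd_eq_one, mul_one]
  · intro n hn
    rw [mem_filter, mem_Icc] at hn
    have hdn : δ ∣ n := hn.2 ▸ Nat.gcd_dvd_right D n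
    exact Nat.mul_div_cancel' hdn
  · intro m _
    exact Nat.mul_div_cancel_left _ hδ0
  · intro n hn
    rw [mem_filter, mem_Icc] at hn
    obtain ⟨⟨h1, h2⟩, h3⟩ := hn
    have hdn : δ ∣ n := h3 ▸ Nat.gcd_dvd_right D n
    have hcop : Nat.Coprime (n / δ) (D / δ) := by
      have := Nat.coprime_div_gcd_div_gcd (m := D) (n := n) (by rw [h3]; exact hδ0)
      rw [h3] at this
      exact this.symm
    have e1 := s4_EE k₀ D R δ (n / δ) hD hR hδD hcop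
    rw [Nat.mul_div_cancel' hdn] at e1
    rw [e1, Nat.mul_div_cancel' hdn]
    push_cast
    ring

private lemma s4_last (k₀ : ℤ) (a : ℕ → ℂ) (M D : ℕ) (hD : 0 < D) :
    ∑ n ∈ Icc 1 M, a n * (EDv k₀ D n : ℂ) = SS k₀ a M D 1 := by
  have h := split_one k₀ a M D 1 hD one_pos
  simp only [mul_one] at h
  rw [h, Finset.sum_eq_single D]
  · rw [Nat.div_self hD]
    unfold EDv
    rw [if_pos (dvd_refl 1), Nat.div_self one_pos, s4_jr_one]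
    simp
  · intro δ hδ hne
    have hδD : δ ∣ D := (Nat.mem_divisors.1 hδ).1
    unfold EDv
    rw [if_neg]
    · simp
    · intro h1
      have h2 : D / δ = 1 := Nat.dvd_one.1 h1
      exact hne (Nat.eq_of_dvd_of_div_eq_one hδD h2)
  · intro h1
    exact absurd (Nat.mem_divisors_self D hD.ne') h1

theorem split_four (k₀ : ℤ) (a₁ a₂ a₃ a₄ : ℕ → ℂ) (Z M D : ℕ) (hD : 0 < D) :
    ∑ l₁ ∈ Icc 1 Z, ∑ l₂ ∈ Icc 1 Z, ∑ n₁ ∈ Icc 1 M, ∑ n₂ ∈ Icc 1 M,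
      a₁ l₁ * a₂ l₂ * a₃ n₁ * a₄ n₂ * (EDv k₀ D (l₁ * l₂ * n₁ * n₂) : ℂ) =
    ∑ δ₁ ∈ D.divisors, ∑ δ₂ ∈ (D / δ₁).divisors, ∑ δ₃ ∈ (D / δ₁ / δ₂).divisors,
      SS k₀ a₁ Z δ₁ (D / δ₁) * SS k₀ a₂ Z δ₂ (D / δ₁ / δ₂) *
        SS k₀ a₃ M δ₃ (D / δ₁ / δ₂ / δ₃) * SS k₀ a₄ M (D / δ₁ / δ₂ / δ₃) 1 := by
  classical
  have hpos : ∀ {E δ : ℕ}, 0 < E → δ ∈ E.divisors → 0 < E / δ := by
    intro E δ hE hδ
    have := (Nat.mem_divisors.1 hδ).1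
    exact Nat.div_pos (Nat.le_of_dvd hE this) (Nat.pos_of_dvd_of_pos this hE)
  -- three variables
  have h3 : ∀ (E : ℕ), 0 < E → ∑ n₁ ∈ Icc 1 M, ∑ n₂ ∈ Icc 1 M,
      a₃ n₁ * a₄ n₂ * (EDv k₀ E (n₁ * n₂) : ℂ) =
      ∑ δ₃ ∈ E.divisors, SS k₀ a₃ M δ₃ (E / δ₃) * SS k₀ a₄ M (E / δ₃) 1 := by
    intro E hE
    rw [Finset.sum_comm]
    have : ∀ n₂ ∈ Icc 1 M, ∑ n₁ ∈ Icc 1 M, a₃ n₁ * a₄ n₂ * (EDv k₀ E (n₁ * n₂) : ℂ) =
        ∑ δ₃ ∈ E.divisors, SS k₀ a₃ M δ₃ (E / δ₃) * (a₄ n₂ * (EDv k₀ (E / δ₃) n₂ : ℂ)) := by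
      intro n₂ hn₂
      have := split_one k₀ a₃ M E n₂ hE (mem_Icc.1 hn₂).1
      calc ∑ n₁ ∈ Icc 1 M, a₃ n₁ * a₄ n₂ * (EDv k₀ E (n₁ * n₂) : ℂ)
          = a₄ n₂ * ∑ n₁ ∈ Icc 1 M, a₃ n₁ * (EDv k₀ E (n₁ * n₂) : ℂ) := by
            rw [Finset.mul_sum]
            exact Finset.sum_congr rfl fun _ _ => by ring
        _ = _ := by
            rw [this, Finset.mul_sum]
            exact Finset.sum_congr rfl fun _ _ => by ring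
    rw [Finset.sum_congr rfl this, Finset.sum_comm]
    refine Finset.sum_congr rfl fun δ hδ => ?_
    rw [← Finset.mul_sum, s4_last _ _ _ _ (hpos hE hδ)]
  have h2 : ∀ (E : ℕ), 0 < E → ∑ l₂ ∈ Icc 1 Z, ∑ n₁ ∈ Icc 1 M, ∑ n₂ ∈ Icc 1 M,
      a₂ l₂ * a₃ n₁ * a₄ n₂ * (EDv k₀ E (l₂ * n₁ * n₂) : ℂ) =
      ∑ δ₂ ∈ E.divisors, ∑ δ₃ ∈ (E / δ₂).divisors, SS k₀ a₂ Z δ₂ (E / δ₂) *
        (SS k₀ a₃ M δ₃ (E / δ₂ / δ₃) * SS k₀ a₄ M (E / δ₂ / δ₃) 1) := by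
    intro E hE
    rw [Finset.sum_comm]
    have : ∀ n₁ ∈ Icc 1 M, ∑ l₂ ∈ Icc 1 Z, ∑ n₂ ∈ Icc 1 M,
        a₂ l₂ * a₃ n₁ * a₄ n₂ * (EDv k₀ E (l₂ * n₁ * n₂) : ℂ) =
        ∑ δ₂ ∈ E.divisors, ∑ n₂ ∈ Icc 1 M, SS k₀ a₂ Z δ₂ (E / δ₂) *
          (a₃ n₁ * a₄ n₂ * (EDv k₀ (E / δ₂) (n₁ * n₂) : ℂ)) := by
      intro n₁ hn₁
      rw [Finset.sum_comm, Finset.sum_comm (s := E.divisors)]
      refine Finset.sum_congr rfl fun n₂ hn₂ => ?_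
      have := split_one k₀ a₂ Z E (n₁ * n₂) hE (Nat.mul_pos (mem_Icc.1 hn₁).1 (mem_Icc.1 hn₂).1)
      calc ∑ l₂ ∈ Icc 1 Z, a₂ l₂ * a₃ n₁ * a₄ n₂ * (EDv k₀ E (l₂ * n₁ * n₂) : ℂ)
          = a₃ n₁ * a₄ n₂ * ∑ l₂ ∈ Icc 1 Z, a₂ l₂ * (EDv k₀ E (l₂ * (n₁ * n₂)) : ℂ) := by
            rw [Finset.mul_sum]
            exact Finset.sum_congr rfl fun _ _ => by rw [mul_assoc _ n₁ n₂]; ring
        _ = _ := by
            rw [this, Finset.mul_sum]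
            exact Finset.sum_congr rfl fun _ _ => by ring
    rw [Finset.sum_congr rfl this, Finset.sum_comm]
    refine Finset.sum_congr rfl fun δ hδ => ?_
    rw [← Finset.mul_sum, ← h3 _ (hpos hE hδ), Finset.mul_sum]
    refine Finset.sum_congr rfl fun n₁ _ => ?_
    rw [Finset.mul_sum]
  have this : ∀ l₂ ∈ Icc 1 Z, ∑ l₁ ∈ Icc 1 Z, ∑ n₁ ∈ Icc 1 M, ∑ n₂ ∈ Icc 1 M,
      a₁ l₁ * a₂ l₂ * a₃ n₁ * a₄ n₂ * (EDv k₀ D (l₁ * l₂ * n₁ * n₂) : ℂ) =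
      ∑ δ₁ ∈ D.divisors, ∑ n₁ ∈ Icc 1 M, ∑ n₂ ∈ Icc 1 M, SS k₀ a₁ Z δ₁ (D / δ₁) *
        (a₂ l₂ * a₃ n₁ * a₄ n₂ * (EDv k₀ (D / δ₁) (l₂ * n₁ * n₂) : ℂ)) := by
    intro l₂ hl₂
    rw [Finset.sum_comm, Finset.sum_comm (s := D.divisors)]
    refine Finset.sum_congr rfl fun n₁ hn₁ => ?_
    rw [Finset.sum_comm, Finset.sum_comm (s := D.divisors)]
    refine Finset.sum_congr rfl fun n₂ hn₂ => ?_
    have := split_one k₀ a₁ Z D (l₂ * n₁ * n₂) hD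
      (Nat.mul_pos (Nat.mul_pos (mem_Icc.1 hl₂).1 (mem_Icc.1 hn₁).1) (mem_Icc.1 hn₂).1)
    calc ∑ l₁ ∈ Icc 1 Z, a₁ l₁ * a₂ l₂ * a₃ n₁ * a₄ n₂ * (EDv k₀ D (l₁ * l₂ * n₁ * n₂) : ℂ)
        = a₂ l₂ * a₃ n₁ * a₄ n₂ *
            ∑ l₁ ∈ Icc 1 Z, a₁ l₁ * (EDv k₀ D (l₁ * (l₂ * n₁ * n₂)) : ℂ) := by
          rw [Finset.mul_sum]
          refine Finset.sum_congr rfl fun l₁ _ => ?_
          rw [show l₁ * (l₂ * n₁ * n₂) = l₁ * l₂ * n₁ * n₂ by ring]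
          ring
      _ = _ := by
          rw [this, Finset.mul_sum]
          exact Finset.sum_congr rfl fun _ _ => by ring
  rw [Finset.sum_comm, Finset.sum_congr rfl this, Finset.sum_comm]
  refine Finset.sum_congr rfl fun δ hδ => ?_
  have e1 : ∑ l₂ ∈ Icc 1 Z, ∑ n₁ ∈ Icc 1 M, ∑ n₂ ∈ Icc 1 M, SS k₀ a₁ Z δ (D / δ) *
        (a₂ l₂ * a₃ n₁ * a₄ n₂ * (EDv k₀ (D / δ) (l₂ * n₁ * n₂) : ℂ)) =
      SS k₀ a₁ Z δ (D / δ) * ∑ l₂ ∈ Icc 1 Z, ∑ n₁ ∈ Icc 1 M, ∑ n₂ ∈ Icc 1 M,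
        a₂ l₂ * a₃ n₁ * a₄ n₂ * (EDv k₀ (D / δ) (l₂ * n₁ * n₂) : ℂ) := by
    simp only [Finset.mul_sum]
  rw [e1, h2 _ (hpos hD hδ), Finset.mul_sum]
  refine Finset.sum_congr rfl fun δ₂ _ => ?_
  rw [Finset.mul_sum]
  refine Finset.sum_congr rfl fun δ₃ _ => ?_
  ring

end Pool.Agent.MP0016c7.Rz
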