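import Mathlib
import Pool.Agent.Lib.MP_0016c7_nt.Rz.Defs
import Pool.Agent.Lib.MP_0016c7_nt.Rz.DefsC
import Pool.Agent.Lib.MP_0016c7_nt.Rz.Lap
import Pool.Agent.Lib.MP_0016c7_nt.Rz.GhL
import Pool.Agent.Lib.MP_0016c7_nt.Rz.KLr
import Pool.Agent.Lib.MP_0016c7_nt.Rz2.QDefs

set_option autoImplicit false

/-!
The weights `Wt` are separable (D18).
-/

open Finset MeasureTheory Filter Topology
open scoped Real ContDiff

namespace Pool.Agent.MP0016c7.Rz

private lemma sw_cs {f : ℝ → ℝ} {b₁ b₂ : ℝ} (hf : Bump f b₁ b₂) : HasCompactSupport f := by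
  refine HasCompactSupport.intro (K := Set.Icc b₁ b₂) isCompact_Icc fun x hx => ?_
  by_contra h0
  have := hf.supp x h0
  exact hx ⟨this.1.le, this.2.le⟩

private lemma sw_rhat_cont {ρ : ℝ → ℝ} {a b : ℝ} (hρ : Bump ρ a b) (c : ℝ) :
    Continuous (fun x : ℝ => rhat ρ (c + Complex.I * x)) := by
  unfold rhat
  have hρc : Continuous ρ := hρ.smooth.continuous
  refine continuous_of_dominated (bound := fun y => ‖ρ y * Real.exp (-c * y)‖)
    (fun x => ?_) (fun x => ae_of_all _ fun y => ?_) ?_ (ae_of_all _ fun y => ?_)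
  · exact Continuous.aestronglyMeasurable (by fun_prop)
  · rw [norm_mul, norm_mul, Complex.norm_real, Complex.norm_exp, Real.norm_eq_abs (Real.exp _),
      Real.abs_exp]
    apply le_of_eq
    congr 2
    simp
  · have h1 : Continuous (fun y => ρ y * Real.exp (-c * y)) := by fun_prop
    exact (h1.integrable_of_hasCompactSupport (sw_cs hρ).mul_right).norm
  · fun_prop

private lemma sw_hhat_cont {ρ : ℝ → ℝ} {a b : ℝ} (hρ : Bump ρ a b) (c : ℝ) :
    Continuous (fun x : ℝ => hhat ρ (c + Complex.I * x)) := by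
  unfold hhat
  have hρc : Continuous ρ := hρ.smooth.continuous
  refine continuous_of_dominated (bound := fun y => ‖ρ y * Real.exp (c * y)‖)
    (fun x => ?_) (fun x => ae_of_all _ fun y => ?_) ?_ (ae_of_all _ fun y => ?_)
  · exact Continuous.aestronglyMeasurable (by fun_prop)
  · rw [norm_mul, norm_mul, Complex.norm_real, Complex.norm_exp, Real.norm_eq_abs (Real.exp _),
      Real.abs_exp]
    apply le_of_eq
    congr 2
    simp
  · have h1 : Continuous (fun y => ρ y * Real.exp (c * y)) := by fun_prop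
    exact (h1.integrable_of_hasCompactSupport (sw_cs hρ).mul_right).norm
  · fun_prop

private lemma sw_exp_int {b : ℝ} (hb : 0 < b) :
    Integrable (fun x : ℝ => Real.exp (b * x - π * Real.exp (2 * x))) := by
  have hc : Continuous (fun x : ℝ => Real.exp (b * x - π * Real.exp (2 * x))) := by fun_prop
  rw [← integrableOn_univ, ← Set.Iic_union_Ioi (a := (0 : ℝ))]
  refine IntegrableOn.union ?_ ?_
  · refine Integrable.mono' (integrableOn_exp_mul_Iic hb 0) hc.aestronglyMeasurable ?_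
    refine ae_of_all _ fun x => ?_
    rw [Real.norm_eq_abs, Real.abs_exp]
    apply Real.exp_le_exp.2
    have := mul_pos Real.pi_pos (Real.exp_pos (2 * x))
    linarith
  · have h1 : IntegrableOn (fun x : ℝ => Real.exp ((b + 1) ^ 2) * Real.exp (-1 * x))
        (Set.Ioi 0) := (integrableOn_exp_mul_Ioi (by norm_num) 0).const_mul _
    refine Integrable.mono' h1 hc.aestronglyMeasurable ?_
    refine (ae_restrict_iff' measurableSet_Ioi).2 (ae_of_all _ fun x hx => ?_)
    have hx0 : (0 : ℝ) < x := hx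
    rw [Real.norm_eq_abs, Real.abs_exp, ← Real.exp_add]
    apply Real.exp_le_exp.2
    have h2 := Real.quadratic_le_exp_of_nonneg (x := 2 * x) (by linarith)
    have h3 : (1 : ℝ) < π := by linarith [Real.pi_gt_three]
    have h4 : Real.exp (2 * x) ≤ π * Real.exp (2 * x) := by
      have := Real.exp_pos (2 * x)
      nlinarith
    nlinarith [sq_nonneg (b + 1 - x)]

private lemma sw_Gh_cont {a : ℝ} (ha : a = 0 ∨ a = 1) {c L : ℝ} (hc : 0 ≤ c) (hL : 0 < L) :
    Continuous (fun x : ℝ => Gh a L (c + Complex.I * x)) := by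
  unfold Gh
  refine Continuous.div_const ?_ _
  have hk : Continuous (fun t : ℝ => kap a t) := by
    unfold kap
    fun_prop
  have hki : Integrable (fun x : ℝ => kap a x * Real.exp (c * (x / L))) := by
    have hb : 0 < a + 1 / 2 + c / L := by
      have : 0 ≤ c / L := by positivity
      rcases ha with rfl | rfl <;> linarith
    refine (sw_exp_int hb).congr (ae_of_all _ fun x => ?_)
    unfold kap
    simp only
    rw [← Real.exp_add]
    congr 1
    field_simp
    ring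
  refine continuous_of_dominated (bound := fun t => kap a t * Real.exp (c * (t / L)))
    (fun x => ?_) (fun x => ae_of_all _ fun t => ?_) hki
    (ae_of_all _ fun t => ?_)
  · exact Continuous.aestronglyMeasurable (by fun_prop)
  · have h0 : 0 ≤ kap a t := (Real.exp_pos _).le
    rw [norm_mul, Complex.norm_real, Real.norm_of_nonneg h0, Complex.norm_exp]
    apply le_of_eq
    congr 2
    simp
  · fun_prop

/-- the cut-off function -/
private noncomputable def swPsi (θ₁ δ t : ℝ) : ℝ :=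
  (1 - Real.smoothTransition ((t - θ₁ - δ) / δ)) * Real.smoothTransition (t + 3)

private lemma swPsi_bump {θ₁ δ : ℝ} (hδ : 0 < δ) : Bump (swPsi θ₁ δ) (-3) (θ₁ + 2 * δ) := by
  constructor
  · unfold swPsi
    refine ContDiff.mul (contDiff_const.sub ?_) ?_
    · exact (Real.smoothTransition.contDiff (n := ⊤)).comp
        (((contDiff_id.sub contDiff_const).sub contDiff_const).div_const δ)
    · exact (Real.smoothTransition.contDiff (n := ⊤)).comp (contDiff_id.add contDiff_const)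
  · intro t ht
    unfold swPsi at ht
    constructor
    · by_contra h0
      push Not at h0
      rw [Real.smoothTransition.zero_of_nonpos (x := t + 3) (by linarith), mul_zero] at ht
      exact ht rfl
    · by_contra h0
      push Not at h0
      rw [Real.smoothTransition.one_of_one_le (x := (t - θ₁ - δ) / δ), sub_self, zero_mul] at ht
      · exact ht rfl
      · rw [le_div_iff₀ hδ]
        linarith

private lemma sw_decay {f : ℝ → ℂ} {C : ℝ} {B : ℕ} (h : ∀ t : ℝ, ‖f t‖ * (1 + |t|) ^ ((B + 2 : ℕ) : ℝ) ≤ C)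
    (t : ℝ) : ‖f t‖ * (1 + |t|) ^ B ≤ C * (1 + t ^ 2)⁻¹ := by
  have h1 := h t
  rw [Real.rpow_natCast, pow_add] at h1
  have h2 : 1 + t ^ 2 ≤ (1 + |t|) ^ 2 := by
    nlinarith [abs_nonneg t, sq_abs t]
  rw [← div_eq_mul_inv, le_div_iff₀ (by positivity)]
  refine le_trans ?_ h1
  rw [mul_assoc]
  gcongr

private lemma sw_wtc {c L : ℝ} {ρ h : ℝ → ℝ} {CG : ℝ}
    (hG : ∀ t : ℝ, ‖Gh c L ((1 : ℝ) + Complex.I * t)‖ ≤ CG) (x y : ℝ) :
    ‖wtc c L ρ h ((1 : ℝ) + Complex.I * x) (3 + Complex.I * y)‖ ≤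
      ‖rhat ρ ((1 : ℝ) + Complex.I * x)‖ * CG * ‖hhat h ((3 : ℝ) + Complex.I * y)‖ := by
  unfold wtc
  have e3 : ((3 : ℝ) : ℂ) = 3 := by norm_num
  rw [e3, norm_mul, norm_mul]
  have h8 : 8 ≤ ‖((3 + Complex.I * y : ℂ) ^ 2 - ((1 : ℝ) + Complex.I * x) ^ 2)‖ := by
    have e : ((3 + Complex.I * y : ℂ) ^ 2 - ((1 : ℝ) + Complex.I * x) ^ 2) =
        ((3 + Complex.I * y) - ((1 : ℝ) + Complex.I * x)) *
          ((3 + Complex.I * y) + ((1 : ℝ) + Complex.I * x)) := by ring
    rw [e, norm_mul]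
    have h1 : 2 ≤ ‖((3 + Complex.I * y : ℂ) - ((1 : ℝ) + Complex.I * x))‖ := by
      have := Complex.re_le_norm ((3 + Complex.I * y : ℂ) - ((1 : ℝ) + Complex.I * x))
      have e2 : ((3 + Complex.I * y : ℂ) - ((1 : ℝ) + Complex.I * x)).re = 2 := by
        simp
        norm_num
      rwa [e2] at this
    have h2 : 4 ≤ ‖((3 + Complex.I * y : ℂ) + ((1 : ℝ) + Complex.I * x))‖ := by
      have := Complex.re_le_norm ((3 + Complex.I * y : ℂ) + ((1 : ℝ) + Complex.I * x))
      have e2 : ((3 + Complex.I * y : ℂ) + ((1 : ℝ) + Complex.I * x)).re = 4 := by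
        simp
        norm_num
      rwa [e2] at this
    nlinarith
  have h3 : ‖2 * hhat h (3 + Complex.I * y) /
      ((3 + Complex.I * y) ^ 2 - ((1 : ℝ) + Complex.I * x) ^ 2)‖ ≤
      ‖hhat h (3 + Complex.I * y)‖ := by
    rw [norm_div, norm_mul, div_le_iff₀ (by linarith)]
    have : ‖(2 : ℂ)‖ = 2 := by simp
    rw [this]
    nlinarith [norm_nonneg (hhat h (3 + Complex.I * y))]
  exact mul_le_mul (mul_le_mul_of_nonneg_left (hG x) (norm_nonneg _)) h3 (norm_nonneg _)
    (mul_nonneg (norm_nonneg _) ((norm_nonneg _).trans (hG x)))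

theorem sepW_Wt (θ₁ δ : ℝ) (hθ₁ : 0 < θ₁) (hδ : 0 < δ) (hθ : θ₁ + 3 * δ < 1 / 2) (c : ℝ)
    (hc : c = 0 ∨ c = 1) {ρ h : ℝ → ℝ} (hρ : Bump ρ (-(δ / 2)) (δ / 2)) (hh : Bump h 0 θ₁) (B : ℕ) :
    ∃ C X₀ : ℝ, 0 < C ∧ ∀ X : ℝ, X₀ ≤ X → ∀ Y ∈ Set.Icc (-1 : ℝ) (1 / 2 + δ),
      SepW B C (Wt c ρ h X θ₁ δ Y) := by
  obtain ⟨C1, hC1, h1⟩ := rhat_decay hρ 1 ((B + 2 : ℕ) : ℝ)
  obtain ⟨C2, hC2, h2⟩ := hhat_decay hh 3 ((B + 2 : ℕ) : ℝ)
  have hΨ : Bump (swPsi θ₁ δ) (-3) (θ₁ + 2 * δ) := swPsi_bump hδ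
  obtain ⟨C3, hC3, h3⟩ := rhat_decay hΨ 0 ((B + 2 : ℕ) : ℝ)
  obtain ⟨CG, L₀, hCG, hG⟩ := Gh_bound c hc 1
  set φ : ℝ → ℝ := fun t => (1 + t ^ 2)⁻¹ with hφ
  have hφi : Integrable φ := integrable_inv_one_add_sq
  have hφ0 : ∀ t, 0 ≤ φ t := fun t => by simp only [hφ]; positivity
  set K : ℝ := C1 * CG * C2 * Real.exp 1 * C3 with hK
  have hK0 : 0 < K := by positivity
  set I3 : ℝ := ∫ p : ℝ × ℝ × ℝ, φ p.1 * (φ p.2.1 * φ p.2.2) with hI3
  have hI30 : 0 ≤ I3 := integral_nonneg fun p => mul_nonneg (hφ0 _) (mul_nonneg (hφ0 _) (hφ0 _))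
  refine ⟨K * I3 + 1, Real.exp (max 100 L₀), by positivity, ?_⟩
  intro X hX Y hY
  have hXpos : 0 < X := (Real.exp_pos _).trans_le hX
  set L : ℝ := Real.log X with hL
  have hLmax : max 100 L₀ ≤ L := (Real.le_log_iff_exp_le hXpos).2 hX
  have hL100 : 100 ≤ L := (le_max_left _ _).trans hLmax
  have hL0 : 0 < L := by linarith
  have hGL : ∀ t : ℝ, ‖Gh c L ((1 : ℝ) + Complex.I * t)‖ ≤ CG := hG L ((le_max_right _ _).trans hLmax)
  have hpi3 := Real.pi_gt_three
  -- the functions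
  set w : ℝ × ℝ × ℝ → ℂ := fun p => ((1 / (2 * π)) ^ 3 : ℝ) *
    wtc c L ρ h ((1 : ℝ) + Complex.I * p.1) (3 + Complex.I * p.2.1) *
    Complex.exp ((1 + Complex.I * p.1) * Y) *
    (rhat (swPsi θ₁ δ) ((0 : ℝ) + Complex.I * p.2.2) * Complex.exp (-(Complex.I * p.2.2) * Y))
    with hw
  set u : ℝ × ℝ × ℝ → ℂ := fun p => (1 + Complex.I * p.1 - Complex.I * p.2.2) / L with hu
  set v : ℝ × ℝ × ℝ → ℂ := fun p => (3 + Complex.I * p.2.1 - Complex.I * p.2.2) / L with hv
  have hwc : Continuous w := by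
    have c1 : Continuous (fun p : ℝ × ℝ × ℝ => rhat ρ ((1 : ℝ) + Complex.I * p.1)) :=
      (sw_rhat_cont hρ 1).comp continuous_fst
    have c2 : Continuous (fun p : ℝ × ℝ × ℝ => Gh c L ((1 : ℝ) + Complex.I * p.1)) :=
      (sw_Gh_cont hc (c := 1) (by norm_num) hL0).comp continuous_fst
    have c3 : Continuous (fun p : ℝ × ℝ × ℝ => hhat h (3 + Complex.I * p.2.1)) := by
      have := (sw_hhat_cont hh 3).comp
        ((continuous_fst.comp continuous_snd : Continuous fun p : ℝ × ℝ × ℝ => p.2.1))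
      have e3 : ((3 : ℝ) : ℂ) = 3 := by norm_num
      simpa only [e3, Function.comp_def] using this
    have c4 : Continuous (fun p : ℝ × ℝ × ℝ =>
        rhat (swPsi θ₁ δ) ((0 : ℝ) + Complex.I * p.2.2)) :=
      (sw_rhat_cont hΨ 0).comp (continuous_snd.comp continuous_snd)
    have c5 : Continuous (fun p : ℝ × ℝ × ℝ =>
        ((3 + Complex.I * p.2.1 : ℂ) ^ 2 - ((1 : ℝ) + Complex.I * p.1) ^ 2)⁻¹) := by
      refine Continuous.inv₀ (by fun_prop) fun p h0 => ?_
      have e : ((3 + Complex.I * p.2.1 : ℂ) ^ 2 - ((1 : ℝ) + Complex.I * p.1) ^ 2) =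
        ((3 + Complex.I * p.2.1) - ((1 : ℝ) + Complex.I * p.1)) *
          ((3 + Complex.I * p.2.1) + ((1 : ℝ) + Complex.I * p.1)) := by ring
      rw [e] at h0
      rcases mul_eq_zero.1 h0 with h0 | h0
      · have := congrArg Complex.re h0
        simp at this
        norm_num at this
      · have := congrArg Complex.re h0
        simp at this
        norm_num at this
    have c6 : Continuous (fun p : ℝ × ℝ × ℝ =>
        wtc c L ρ h ((1 : ℝ) + Complex.I * p.1) (3 + Complex.I * p.2.1)) := by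
      unfold wtc
      simp only [div_eq_mul_inv]
      exact (c1.mul c2).mul ((continuous_const.mul c3).mul c5)
    have c7 : Continuous (fun p : ℝ × ℝ × ℝ => Complex.exp ((1 + Complex.I * p.1) * Y)) := by
      fun_prop
    have c8 : Continuous (fun p : ℝ × ℝ × ℝ => Complex.exp (-(Complex.I * p.2.2) * Y)) := by
      fun_prop
    exact ((continuous_const.mul c6).mul c7).mul (c4.mul c8)
  have huc : Continuous u := by
    simp only [hu]
    fun_prop
  have hvc : Continuous v := by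
    simp only [hv]
    fun_prop
  -- the bound for `w`
  have hwb : ∀ p : ℝ × ℝ × ℝ, ‖w p‖ * (1 + ‖p‖) ^ B ≤ K * (φ p.1 * (φ p.2.1 * φ p.2.2)) := by
    rintro ⟨x, y, ξ⟩
    have n1 : ‖w (x, y, ξ)‖ ≤ (‖rhat ρ ((1 : ℝ) + Complex.I * x)‖ * CG *
        ‖hhat h ((3 : ℝ) + Complex.I * y)‖) * Real.exp 1 *
        ‖rhat (swPsi θ₁ δ) ((0 : ℝ) + Complex.I * ξ)‖ := by
      simp only [hw]
      rw [norm_mul, norm_mul, norm_mul, norm_mul, Complex.norm_real, Complex.norm_exp,
        Complex.norm_exp]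
      have e1 : ((1 + Complex.I * x) * Y : ℂ).re = Y := by simp
      have e2 : (-(Complex.I * ξ) * Y : ℂ).re = 0 := by simp
      rw [e1, e2, Real.exp_zero, mul_one]
      have e3 : ‖(1 / (2 * π)) ^ 3‖ ≤ 1 := by
        rw [norm_pow, Real.norm_eq_abs, abs_of_pos (by positivity)]
        refine pow_le_one₀ (by positivity) ?_
        rw [div_le_one (by positivity)]
        linarith
      have e4 : Real.exp Y ≤ Real.exp 1 := Real.exp_le_exp.2 (by linarith [hY.2])
      have e5 := sw_wtc (ρ := ρ) (h := h) hGL x y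
      have e6 : ‖(1 / (2 * π)) ^ 3‖ *
          ‖wtc c L ρ h ((1 : ℝ) + Complex.I * x) (3 + Complex.I * y)‖ ≤
          ‖rhat ρ ((1 : ℝ) + Complex.I * x)‖ * CG * ‖hhat h ((3 : ℝ) + Complex.I * y)‖ := by
        calc _ ≤ 1 * ‖wtc c L ρ h ((1 : ℝ) + Complex.I * x) (3 + Complex.I * y)‖ :=
              mul_le_mul_of_nonneg_right e3 (norm_nonneg _)
          _ ≤ _ := by rw [one_mul]; exact e5
      refine mul_le_mul_of_nonneg_right ?_ (norm_nonneg _)
      exact mul_le_mul e6 e4 (Real.exp_pos _).le (by positivity)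
    have n2 : (1 + ‖((x, y, ξ) : ℝ × ℝ × ℝ)‖) ^ B ≤
        (1 + |x|) ^ B * (1 + |y|) ^ B * (1 + |ξ|) ^ B := by
      rw [← mul_pow, ← mul_pow]
      refine pow_le_pow_left₀ (by positivity) ?_ B
      have hx := abs_nonneg x
      have hy := abs_nonneg y
      have hξ := abs_nonneg ξ
      have hn : ‖((x, y, ξ) : ℝ × ℝ × ℝ)‖ ≤ |x| + |y| + |ξ| := by
        rw [Prod.norm_def, Prod.norm_def]
        simp only [Real.norm_eq_abs]
        refine max_le (by linarith) (max_le (by linarith) (by linarith))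
      nlinarith [mul_nonneg hx hy, mul_nonneg hx hξ, mul_nonneg hy hξ,
        mul_nonneg (mul_nonneg hx hy) hξ]
    have d1 := sw_decay h1 x
    have d2 := sw_decay h2 y
    have d3 := sw_decay h3 ξ
    calc ‖w (x, y, ξ)‖ * (1 + ‖((x, y, ξ) : ℝ × ℝ × ℝ)‖) ^ B ≤
        ((‖rhat ρ ((1 : ℝ) + Complex.I * x)‖ * CG *
        ‖hhat h ((3 : ℝ) + Complex.I * y)‖) * Real.exp 1 *
        ‖rhat (swPsi θ₁ δ) ((0 : ℝ) + Complex.I * ξ)‖) *
        ((1 + |x|) ^ B * (1 + |y|) ^ B * (1 + |ξ|) ^ B) :=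
          mul_le_mul n1 n2 (by positivity) (by positivity)
      _ = (CG * Real.exp 1) * (‖rhat ρ ((1 : ℝ) + Complex.I * x)‖ * (1 + |x|) ^ B) *
          (‖hhat h ((3 : ℝ) + Complex.I * y)‖ * (1 + |y|) ^ B) *
          (‖rhat (swPsi θ₁ δ) ((0 : ℝ) + Complex.I * ξ)‖ * (1 + |ξ|) ^ B) := by ring
      _ ≤ (CG * Real.exp 1) * (C1 * (1 + x ^ 2)⁻¹) * (C2 * (1 + y ^ 2)⁻¹) *
          (C3 * (1 + ξ ^ 2)⁻¹) := by
          refine mul_le_mul (mul_le_mul (mul_le_mul_of_nonneg_left d1 (by positivity)) d2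
            (by positivity) (by positivity)) d3 (by positivity) (by positivity)
      _ = K * (φ x * (φ y * φ ξ)) := by
          simp only [hφ, hK]
          ring
  have hφφ : Integrable (fun p : ℝ × ℝ × ℝ => φ p.1 * (φ p.2.1 * φ p.2.2)) :=
    hφi.mul_prod (hφi.mul_prod hφi)
  have hwi : Integrable (fun p => ‖w p‖ * (1 + ‖p‖) ^ B) := by
    refine (hφφ.const_mul K).mono' ?_ (ae_of_all _ fun p => ?_)
    · exact (hwc.norm.mul ((continuous_const.add continuous_norm).pow B)).aestronglyMeasurable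
    · rw [Real.norm_of_nonneg (by positivity)]
      exact hwb p
  refine ⟨w, u, v, hwc.measurable, huc.measurable, hvc.measurable, ?_, ?_, hwi, ?_, ?_⟩
  · rintro ⟨x, y, ξ⟩
    have e1 : (u (x, y, ξ)).re = 1 / L := by
      simp only [hu]
      rw [Complex.div_ofReal_re]
      simp
    have hx : |x| ≤ ‖((x, y, ξ) : ℝ × ℝ × ℝ)‖ := norm_fst_le ((x, y, ξ) : ℝ × ℝ × ℝ)
    have hξ : |ξ| ≤ ‖((x, y, ξ) : ℝ × ℝ × ℝ)‖ :=
      (norm_snd_le ((y, ξ) : ℝ × ℝ)).trans (norm_snd_le ((x, y, ξ) : ℝ × ℝ × ℝ))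
    refine ⟨by rw [e1]; positivity, ?_, ?_⟩
    · rw [e1, div_le_one hL0]
      linarith
    · simp only [hu]
      rw [norm_div, Complex.norm_real, Real.norm_of_nonneg hL0.le]
      have e2 : ‖(1 + Complex.I * x - Complex.I * ξ : ℂ)‖ ≤ 1 + |x| + |ξ| := by
        refine (norm_sub_le _ _).trans ?_
        refine add_le_add ((norm_add_le _ _).trans ?_) ?_
        · simp
        · simp
      rw [div_le_iff₀ hL0]
      have hn : 0 ≤ ‖((x, y, ξ) : ℝ × ℝ × ℝ)‖ := norm_nonneg _
      nlinarith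
  · rintro ⟨x, y, ξ⟩
    have e1 : (v (x, y, ξ)).re = 3 / L := by
      simp only [hv]
      rw [Complex.div_ofReal_re]
      simp
    rw [e1]
    positivity
  · have h4 := integral_mono hwi (hφφ.const_mul K) hwb
    rw [integral_const_mul] at h4
    linarith
  · intro l n hl hn
    have hn0 : (n : ℂ) ≠ 0 := by exact_mod_cast (by omega : n ≠ 0)
    have hl0 : (l : ℂ) ≠ 0 := by exact_mod_cast (by omega : l ≠ 0)
    set z : ℝ := Y - Real.log n / L with hz
    set uu : ℝ := Real.log l / L with huu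
    set vv : ℝ := (Real.log n + Real.log l) / L - Y with hvv
    set A : ℝ → ℝ → ℂ := fun x y => wtc c L ρ h ((1 : ℝ) + Complex.I * x) (3 + Complex.I * y) *
        Complex.exp (((1 : ℝ) + Complex.I * x) * z - (3 + Complex.I * y) * uu) with hA
    set b : ℝ → ℂ := fun ξ => rhat (swPsi θ₁ δ) ((0 : ℝ) + Complex.I * ξ) *
      Complex.exp (((0 : ℝ) + Complex.I * ξ) * vv) with hb
    have hkL : (kL c ρ h L z uu : ℂ) = 1 / (2 * π) ^ 2 * ∫ x : ℝ, ∫ y : ℝ, A x y :=
      kL_repr c hc hρ hh 1 (by norm_num) (by norm_num) L hL100 z uu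
    have hbv : 1 / (2 * π) * ∫ ξ : ℝ, b ξ = (swPsi θ₁ δ vv : ℂ) := (laplace_inv hΨ 0 vv).2
    have hpt : ∀ p : ℝ × ℝ × ℝ, w p * (n : ℂ) ^ (-(u p)) * (l : ℂ) ^ (-(v p)) =
        ((1 / (2 * π)) ^ 3 : ℝ) * (A p.1 p.2.1 * b p.2.2) := by
      rintro ⟨x, y, ξ⟩
      simp only [hw, hA, hb, hu, hv]
      rw [Complex.cpow_def_of_ne_zero hn0, Complex.cpow_def_of_ne_zero hl0, ← Complex.natCast_log,
        ← Complex.natCast_log]
      have e1 : Complex.exp ((1 + Complex.I * x) * Y) * Complex.exp (-(Complex.I * ξ) * Y) *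
          Complex.exp ((Real.log n : ℂ) * -((1 + Complex.I * x - Complex.I * ξ) / L)) *
          Complex.exp ((Real.log l : ℂ) * -((3 + Complex.I * y - Complex.I * ξ) / L)) =
          Complex.exp (((1 : ℝ) + Complex.I * x) * z - (3 + Complex.I * y) * uu) *
            Complex.exp (((0 : ℝ) + Complex.I * ξ) * vv) := by
        rw [← Complex.exp_add, ← Complex.exp_add, ← Complex.exp_add, ← Complex.exp_add]
        congr 1
        have hLc : (L : ℂ) ≠ 0 := by exact_mod_cast hL0.ne'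
        rw [hz, huu, hvv]
        push_cast
        field_simp
        ring
      linear_combination (((1 / (2 * π)) ^ 3 : ℝ) : ℂ) *
        wtc c L ρ h ((1 : ℝ) + Complex.I * x) (3 + Complex.I * y) *
        rhat (swPsi θ₁ δ) ((0 : ℝ) + Complex.I * ξ) * e1
    have hfi : Integrable (fun p : ℝ × ℝ × ℝ =>
        ((1 / (2 * π)) ^ 3 : ℝ) * (A p.1 p.2.1 * b p.2.2) : ℝ × ℝ × ℝ → ℂ) := by
      simp only [← hpt]
      refine hwi.mono' ?_ (ae_of_all _ fun p => ?_)
      · have m1 : Measurable (fun p => (n : ℂ) ^ (-(u p))) := by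
          exact (measurable_const.pow huc.measurable.neg)
        have m2 : Measurable (fun p => (l : ℂ) ^ (-(v p))) := by
          exact (measurable_const.pow hvc.measurable.neg)
        exact ((hwc.measurable.mul m1).mul m2).aestronglyMeasurable
      · have hnr : (1 : ℝ) ≤ n := by exact_mod_cast hn
        have hlr : (1 : ℝ) ≤ l := by exact_mod_cast hl
        obtain ⟨x, y, ξ⟩ := p
        have e1 : (-(u (x, y, ξ))).re ≤ 0 := by
          have : (u (x, y, ξ)).re = 1 / L := by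
            simp only [hu]
            rw [Complex.div_ofReal_re]
            simp
          rw [Complex.neg_re, this]
          have : 0 < 1 / L := by positivity
          linarith
        have e2 : (-(v (x, y, ξ))).re ≤ 0 := by
          have : (v (x, y, ξ)).re = 3 / L := by
            simp only [hv]
            rw [Complex.div_ofReal_re]
            simp
          rw [Complex.neg_re, this]
          have : 0 < 3 / L := by positivity
          linarith
        rw [norm_mul, norm_mul, Complex.norm_natCast_cpow_of_pos (by omega),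
          Complex.norm_natCast_cpow_of_pos (by omega)]
        have f1 := Real.rpow_le_one_of_one_le_of_nonpos hnr e1
        have f2 := Real.rpow_le_one_of_one_le_of_nonpos hlr e2
        have f3 : (1 : ℝ) ≤ (1 + ‖((x, y, ξ) : ℝ × ℝ × ℝ)‖) ^ B :=
          one_le_pow₀ (by linarith [norm_nonneg ((x, y, ξ) : ℝ × ℝ × ℝ)])
        have f4 : (0 : ℝ) ≤ (n : ℝ) ^ (-(u (x, y, ξ))).re := by positivity
        have f5 : (0 : ℝ) ≤ (l : ℝ) ^ (-(v (x, y, ξ))).re := by positivity
        calc ‖w (x, y, ξ)‖ * (n : ℝ) ^ (-(u (x, y, ξ))).re * (l : ℝ) ^ (-(v (x, y, ξ))).re ≤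
            ‖w (x, y, ξ)‖ * 1 * 1 := by
              refine mul_le_mul (mul_le_mul_of_nonneg_left f1 (norm_nonneg _)) f2 f5
                (by positivity)
          _ = ‖w (x, y, ξ)‖ * 1 := by ring
          _ ≤ _ := mul_le_mul_of_nonneg_left f3 (norm_nonneg _)
    simp only [hpt]
    have hprod : ∫ p : ℝ × ℝ × ℝ, ((1 / (2 * π)) ^ 3 : ℝ) * (A p.1 p.2.1 * b p.2.2) =
        ∫ x : ℝ, ∫ q : ℝ × ℝ, ((1 / (2 * π)) ^ 3 : ℝ) * (A x q.1 * b q.2) :=
      integral_prod _ hfi
    rw [hprod]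
    have h5 : ∀ x : ℝ, ∫ q : ℝ × ℝ, ((1 / (2 * π)) ^ 3 : ℝ) * (A x q.1 * b q.2) =
        ((1 / (2 * π)) ^ 3 : ℝ) * ((∫ y : ℝ, A x y) * ∫ ξ : ℝ, b ξ) := by
      intro x
      rw [integral_const_mul]
      congr 1
      exact integral_prod_mul (A x) b
    simp only [h5]
    rw [integral_const_mul, integral_mul_const]
    have hWt : Wt c ρ h X θ₁ δ Y l n = kL c ρ h L z uu * swPsi θ₁ δ vv := by
      unfold Wt swPsi
      have h6 : Real.smoothTransition (vv + 3) = 1 := by
        refine Real.smoothTransition.one_of_one_le ?_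
        have h7 : 0 ≤ Real.log n := Real.log_natCast_nonneg n
        have h8 : 0 ≤ Real.log l := Real.log_natCast_nonneg l
        have h9 : 0 ≤ (Real.log n + Real.log l) / L := by positivity
        have := hY.2
        rw [hvv]
        linarith
      rw [h6, mul_one]
    rw [hWt]
    push_cast
    rw [hkL, ← hbv]
    have hpi : (π : ℂ) ≠ 0 := by exact_mod_cast Real.pi_ne_zero
    push_cast
    field_simp

end Pool.Agent.MP0016c7.Rz
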