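import Pool.Agent.Lib.MP_0016c7_nt.Rz2.QlsH
import Pool.Agent.Lib.MP_0016c7_nt.Qls.QZ3

set_option autoImplicit false

/-!
The quadratic large sieve (Heath-Brown); interface to `Qls/QZ3.lean` (owner helper29) (D4).
-/

open Finset MeasureTheory Filter Topology
open scoped Real ContDiff

namespace Pool.Agent.MP0016c7.Rz

/-- The quadratic large sieve holds. -/
theorem qlsHyp : QlsHyp := ⟨fun ε hε => qls ε hε⟩

end Pool.Agent.MP0016c7.Rz
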