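import Mathlib
import Pool.Agent.Lib.MP_0016c7_nt.Rz.Defs
import Pool.Agent.Lib.MP_0016c7_nt.Rz.DefsC
import Pool.Agent.Lib.MP_0016c7_nt.Rz.DefsE
import Pool.Agent.Lib.MP_0016c7_nt.Rz.DefsF
import Pool.Agent.Lib.MP_0016c7_nt.Rz2.DefsG
import Pool.Agent.Lib.MP_0016c7_nt.Rz.Ker1
import Pool.Agent.Lib.MP_0016c7_nt.Rz.Ker2
import Pool.Agent.Lib.MP_0016c7_nt.Rz.Ker3
import Pool.Agent.Lib.MP_0016c7_nt.Rz.Ker4
import Pool.Agent.Lib.MP_0016c7_nt.Rz.Sm1

set_option autoImplicit false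

/-!
Basic properties of the process of a family.
-/

open Finset MeasureTheory Filter Topology
open scoped Real ContDiff

namespace Pool.Agent.MP0016c7.Rz

private theorem ys1_bump_deriv {ρ : ℝ → ℝ} {a b : ℝ} (hρ : Bump ρ a b) : Bump (deriv ρ) a b := by
  have hs := (contDiff_infty_iff_deriv.1 hρ.smooth)
  refine ⟨hs.2, ?_⟩
  intro t ht
  have hd : HasDerivAt ρ (deriv ρ t) t := (hs.1 t).hasDerivAt
  constructor
  · by_contra hc
    push Not at hc
    apply ht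
    have hz : ∀ s ∈ Set.Iic t, ρ s = 0 := by
      intro s hs'
      by_contra h0
      exact absurd (hρ.supp s h0).1 (not_lt.2 (le_trans hs' hc))
    have h1 : HasDerivWithinAt ρ 0 (Set.Iic t) t :=
      (hasDerivWithinAt_const t (Set.Iic t) (0 : ℝ)).congr hz (hz t (Set.self_mem_Iic))
    exact (uniqueDiffWithinAt_Iic t).eq_deriv _ hd.hasDerivWithinAt h1
  · by_contra hc
    push Not at hc
    apply ht
    have hz : ∀ s ∈ Set.Ici t, ρ s = 0 := by
      intro s hs'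
      by_contra h0
      exact absurd (hρ.supp s h0).2 (not_lt.2 (le_trans hc hs'))
    have h1 : HasDerivWithinAt ρ 0 (Set.Ici t) t :=
      (hasDerivWithinAt_const t (Set.Ici t) (0 : ℝ)).congr hz (hz t (Set.self_mem_Ici))
    exact (uniqueDiffWithinAt_Ici t).eq_deriv _ hd.hasDerivWithinAt h1

private theorem ys1_coef_bd (k : ℤ) (p : ℕ × ℕ) :
    |(ArithmeticFunction.moebius p.2 : ℝ) * jr k (p.1 * p.2) / √((p.1 : ℝ) * p.2)| ≤ 1 := by
  by_cases h0 : p.1 * p.2 = 0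
  · have : (p.1 : ℝ) * p.2 = 0 := by exact_mod_cast h0
    rw [this]
    simp
  · have h1 : 1 ≤ p.1 * p.2 := Nat.one_le_iff_ne_zero.2 h0
    have h1' : (1 : ℝ) ≤ (p.1 : ℝ) * p.2 := by exact_mod_cast h1
    have hs : 1 ≤ √((p.1 : ℝ) * p.2) := Real.one_le_sqrt.2 h1'
    have hm : |(ArithmeticFunction.moebius p.2 : ℝ)| ≤ 1 := by
      exact_mod_cast (ArithmeticFunction.abs_moebius_le_one (n := p.2))
    have hj : |jr k (p.1 * p.2)| ≤ 1 := by
      unfold jr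
      split_ifs
      · rcases jacobiSym.trichotomy k (p.1 * p.2) with h | h | h <;> rw [h] <;> simp
      · simp
    rw [abs_div, abs_mul, abs_of_nonneg (Real.sqrt_nonneg _)]
    rw [div_le_one (by linarith)]
    calc _ ≤ (1 : ℝ) * 1 := mul_le_mul hm hj (abs_nonneg _) zero_le_one
      _ ≤ _ := by linarith

private theorem ys1_bound {ρ h : ℝ → ℝ} {δ θ : ℝ} (hδ : 0 < δ) (hρ : Bump ρ (-(δ / 2)) (δ / 2))
    (hh : Bump h 0 θ) (c : ℝ) (hc : c = 0 ∨ c = 1) (k : ℤ) (L : ℝ) (hL : 0 < L) (T : ℝ) :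
    ∃ v : ℕ × ℕ → ℝ, Summable v ∧ ∀ (p : ℕ × ℕ) (Y : ℝ), Y ≤ T →
      ‖(ArithmeticFunction.moebius p.2 : ℝ) * jr k (p.1 * p.2) / √((p.1 : ℝ) * p.2) *
        kL c ρ h L (Y - Real.log p.1 / L) (Real.log p.2 / L)‖ ≤ v p := by
  obtain ⟨C₁, hC₁, hk1⟩ := abs_kL_le hρ hh c hc
  obtain ⟨C₂, hC₂, hk2⟩ := kL_tail hδ hρ hh c hc
  set B : ℝ := Real.exp (2 * (T + θ + δ) * L) with hB
  have hBpos : 0 < B := Real.exp_pos _
  set q : ℝ := Real.exp (-(1 / B)) with hq
  have hq1 : q < 1 := by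
    have h1 : 0 < 1 / B := by positivity
    have h2 : Real.exp (-(1 / B)) < Real.exp 0 := Real.exp_lt_exp.2 (by linarith)
    rw [Real.exp_zero] at h2
    exact h2
  have hq0 : 0 < q := Real.exp_pos _
  set N : ℕ := ⌈Real.exp (θ * L)⌉₊ with hN
  set f : ℕ → ℝ := fun n => (C₁ * Real.exp 1 + C₂) * q ^ n with hf
  set g : ℕ → ℝ := fun l => if l ≤ N then 1 else 0 with hg
  have hfs : Summable f := (summable_geometric_of_lt_one hq0.le hq1).mul_left _
  have hgs : Summable g := by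
    apply summable_of_ne_finset_zero (s := Finset.range (N + 1))
    intro b hb
    have : ¬ b ≤ N := by
      intro h
      exact hb (Finset.mem_range.2 (Nat.lt_succ_of_le h))
    simp [hg, this]
  have hf0 : ∀ n, 0 ≤ f n := fun n => by
    simp only [hf]
    positivity
  have hg0 : ∀ n, 0 ≤ g n := fun n => by
    simp only [hg]
    split_ifs <;> norm_num
  refine ⟨fun p => f p.1 * g p.2, Summable.mul_of_nonneg hfs hgs hf0 hg0, ?_⟩
  rintro ⟨n, l⟩ Y hY
  simp only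
  have hfg0 : 0 ≤ f n * g l := mul_nonneg (hf0 n) (hg0 l)
  rcases Nat.eq_zero_or_pos n with hn | hn
  · subst hn
    have : jr k (0 * l) = 0 := by simp [jr]
    rw [this]
    simpa using hfg0
  rcases Nat.eq_zero_or_pos l with hl | hl
  · subst hl
    simpa using hfg0
  have hn' : (1 : ℝ) ≤ n := by exact_mod_cast hn
  have hl' : (1 : ℝ) ≤ l := by exact_mod_cast hl
  rcases le_or_gt θ (Real.log l / L) with hlθ | hlθ
  · rw [kL_eq_zero hh c L _ _ hlθ]
    simpa using hfg0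
  have hlN : l ≤ N := by
    have h1 : Real.log l < θ * L := (div_lt_iff₀ hL).1 hlθ
    have h2 : (l : ℝ) < Real.exp (θ * L) := by
      rw [← Real.log_lt_iff_lt_exp (by linarith)]
      exact h1
    have h3 : (l : ℝ) ≤ N := h2.le.trans (Nat.le_ceil _)
    exact_mod_cast h3
  have hgl : g l = 1 := by simp [hg, hlN]
  rw [hgl, mul_one, Real.norm_eq_abs, abs_mul]
  refine le_trans (mul_le_of_le_one_left (abs_nonneg _) (ys1_coef_bd k (n, l))) ?_
  have hexpn : Real.exp (-((n : ℝ) / B)) = q ^ n := by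
    rw [hq, ← Real.exp_nat_mul]
    congr 1
    ring
  have hlogl : 0 ≤ Real.log l := Real.log_nonneg hl'
  have hlogn : 0 ≤ Real.log n := Real.log_nonneg hn'
  rcases le_or_gt (θ + δ) (Real.log l / L - (Y - Real.log n / L)) with ht | ht
  · -- tail
    have h1 := hk2 L (Y - Real.log n / L) (Real.log l / L) hL ht
    refine h1.trans ?_
    have h2 : (n : ℝ) / B ≤
        Real.exp (2 * (Real.log l / L - (Y - Real.log n / L) - θ - δ / 2) * L) := by
      have e1 : (n : ℝ) = Real.exp (Real.log n) := (Real.exp_log (by linarith)).symm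
      have e2 : 2 * (Real.log l / L - (Y - Real.log n / L) - θ - δ / 2) * L =
          2 * Real.log l + 2 * Real.log n - 2 * (Y + θ + δ / 2) * L := by
        field_simp
        ring
      rw [e2]
      calc (n : ℝ) / B = Real.exp (Real.log n - 2 * (T + θ + δ) * L) := by
            rw [Real.exp_sub, ← e1]
        _ ≤ _ := by
            rw [Real.exp_le_exp]
            have : (Y + θ + δ / 2) * L ≤ (T + θ + δ) * L :=
              mul_le_mul_of_nonneg_right (by linarith) hL.le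
            nlinarith
    calc C₂ * Real.exp (-Real.exp (2 * (Real.log l / L - (Y - Real.log n / L) - θ - δ / 2) * L))
        ≤ C₂ * Real.exp (-((n : ℝ) / B)) := by
          apply mul_le_mul_of_nonneg_left _ hC₂.le
          rw [Real.exp_le_exp]
          linarith
      _ = C₂ * q ^ n := by rw [hexpn]
      _ ≤ f n := by
          simp only [hf]
          have : 0 ≤ C₁ * Real.exp 1 * q ^ n := by positivity
          nlinarith
  · -- small n
    have h1 := hk1 L (Y - Real.log n / L) (Real.log l / L) hL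
    refine h1.trans ?_
    have h2 : (n : ℝ) ≤ B := by
      have h3 : Real.log n / L < T + θ + δ := by
        have : 0 ≤ Real.log l / L := div_nonneg hlogl hL.le
        linarith
      have h4 : Real.log n < (T + θ + δ) * L := (div_lt_iff₀ hL).1 h3
      have h5 : (n : ℝ) ≤ Real.exp ((T + θ + δ) * L) := by
        rw [← Real.log_le_iff_le_exp (by linarith)]
        exact h4.le
      refine h5.trans ?_
      rw [hB, Real.exp_le_exp]
      nlinarith
    have h3 : Real.exp (-1) ≤ q ^ n := by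
      rw [← hexpn, Real.exp_le_exp]
      have : (n : ℝ) / B ≤ 1 := (div_le_one hBpos).2 h2
      linarith
    calc C₁ = C₁ * Real.exp 1 * Real.exp (-1) := by
          rw [mul_assoc, ← Real.exp_add]; simp
      _ ≤ C₁ * Real.exp 1 * q ^ n := mul_le_mul_of_nonneg_left h3 (by positivity)
      _ ≤ f n := by
          simp only [hf]
          have : 0 ≤ C₂ * q ^ n := by positivity
          nlinarith

private theorem ys1_sum : Summable fun p : ℕ × ℕ => 1 / (p.1 : ℝ) ^ 2 * (1 / (p.2 : ℝ) ^ 2) := by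
  have h : Summable fun n : ℕ => 1 / (n : ℝ) ^ 2 := Real.summable_one_div_nat_pow.2 one_lt_two
  exact Summable.mul_of_nonneg (f := fun n : ℕ => 1 / (n : ℝ) ^ 2)
    (g := fun n : ℕ => 1 / (n : ℝ) ^ 2) h h (fun n => by positivity) (fun n => by positivity)

/-- uniform bound of the process below a height -/
private theorem ys1_ytil_bd {ρ h : ℝ → ℝ} {δ θ : ℝ} (hδ : 0 < δ)
    (hρ : Bump ρ (-(δ / 2)) (δ / 2)) (hh : Bump h 0 θ) (c : ℝ) (hc : c = 0 ∨ c = 1) (σ : ℤ)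
    (X : ℝ) (hX : 1 < X) (d : ℕ) (T : ℝ) :
    ∃ M : ℝ, 0 ≤ M ∧ ∀ Y ≤ T, |ytil c σ ρ h X d Y| ≤ M := by
  obtain ⟨v, hv, hvb⟩ := ys1_bound hδ hρ hh c hc (2 * σ * d) (Real.log X) (Real.log_pos hX) T
  refine ⟨∑' p, v p, tsum_nonneg fun p => (norm_nonneg _).trans (hvb p T le_rfl),
    fun Y hY => ?_⟩
  rw [← Real.norm_eq_abs]
  unfold ytil
  exact tsum_of_norm_bounded hv.hasSum (fun p => hvb p Y hY)

private theorem ys1_q : 0 < (1 : ℝ) / √2 ∧ (1 : ℝ) / √2 < 3 / 4 := by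
  have h2 : (0 : ℝ) < √2 := Real.sqrt_pos.2 (by norm_num)
  refine ⟨by positivity, ?_⟩
  rw [div_lt_iff₀ h2]
  have : (4 / 3 : ℝ) < √2 := by
    rw [Real.lt_sqrt (by norm_num)]
    norm_num
  linarith

private theorem ys1_coef {ε : ℤ} (hε : ε = 0 ∨ ε = 1 ∨ ε = -1) (j : ℕ) :
    |(ε : ℝ) ^ j / √2 ^ j| ≤ (1 / √2) ^ j := by
  have h2 : (0 : ℝ) < √2 := Real.sqrt_pos.2 (by norm_num)
  have h1 : |(ε : ℝ)| ≤ 1 := by
    rcases hε with h | h | h <;> subst h <;> norm_num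
  rw [abs_div, abs_pow, abs_pow, abs_of_pos h2, div_pow, one_pow]
  exact div_le_div_of_nonneg_right (pow_le_one₀ (abs_nonneg _) h1) (by positivity)

theorem ytil_small {ρ h : ℝ → ℝ} {δ θ : ℝ} (hδ : 0 < δ) (hθ : 0 < θ) (hθ1 : θ + 3 * δ < 1 / 2)
    (hρ : Bump ρ (-(δ / 2)) (δ / 2)) (hh : Bump h 0 θ) (c : ℝ) (hc : c = 0 ∨ c = 1) (σ : ℤ) :
    ∃ X₀ : ℝ, ∀ X : ℝ, X₀ ≤ X → ∀ Y : ℝ, Y ≤ -1 → ∀ d : ℕ,
      |ytil c σ ρ h X d Y| ≤ X ^ (-30 : ℝ) := by
  obtain ⟨C, hC, h2⟩ := kL_tail hδ hρ hh c hc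
  set Z := ∑' p : ℕ × ℕ, 1 / (p.1 : ℝ) ^ 2 * (1 / (p.2 : ℝ) ^ 2) with hZ
  have hZ0 : 0 ≤ Z := tsum_nonneg fun p => by positivity
  have l2 : ∀ᶠ X : ℝ in atTop, C * Z * (X ^ (30 : ℝ) * Real.exp (-(1 / 2) * X)) ≤ 1 := by
    have a1 : Tendsto (fun x : ℝ => x ^ (30 : ℝ) * Real.exp (-(1 / 2) * x)) atTop (𝓝 0) :=
      tendsto_rpow_mul_exp_neg_mul_atTop_nhds_zero 30 (1 / 2) (by norm_num)
    have a3 := a1.const_mul (C * Z)
    rw [mul_zero] at a3
    exact (a3.eventually (gt_mem_nhds (zero_lt_one (α := ℝ)))).mono fun X hX => le_of_lt hX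
  obtain ⟨X₁, hX₁⟩ := eventually_atTop.1 l2
  refine ⟨max X₁ 2, fun X hX Y hY d => ?_⟩
  have hX2 : 2 ≤ X := le_trans (le_max_right _ _) hX
  have hX0 : 0 < X := by linarith
  have k2 := hX₁ X (le_trans (le_max_left _ _) hX)
  have hL : 0 < Real.log X := Real.log_pos (by linarith)
  set L := Real.log X with hLdef
  have key : ∀ p : ℕ × ℕ, ‖(ArithmeticFunction.moebius p.2 : ℝ) * jr (2 * σ * d) (p.1 * p.2) /
      √((p.1 : ℝ) * p.2) * kL c ρ h L (Y - Real.log p.1 / L) (Real.log p.2 / L)‖ ≤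
      C * Real.exp (-(1 / 2) * X) * (1 / (p.1 : ℝ) ^ 2 * (1 / (p.2 : ℝ) ^ 2)) := by
    rintro ⟨n, l⟩
    simp only
    have hnn : 0 ≤ C * Real.exp (-(1 / 2) * X) * (1 / (n : ℝ) ^ 2 * (1 / (l : ℝ) ^ 2)) := by
      positivity
    rcases Nat.eq_zero_or_pos n with hn | hn
    · subst hn
      have : jr (2 * σ * d) (0 * l) = 0 := by simp [jr]
      rw [this]
      simp
    rcases Nat.eq_zero_or_pos l with hl | hl
    · subst hl
      simp
    have hn1 : (1 : ℝ) ≤ n := by exact_mod_cast hn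
    have hl1 : (1 : ℝ) ≤ l := by exact_mod_cast hl
    have hn0 : (0 : ℝ) < n := by linarith
    have hl0 : (0 : ℝ) < l := by linarith
    set m : ℝ := (n : ℝ) * l with hm
    have hm1 : 1 ≤ m := by nlinarith
    have hm0 : 0 < m := by linarith
    have hlm : Real.log m = Real.log n + Real.log l := Real.log_mul hn0.ne' hl0.ne'
    have hlogm : 0 ≤ Real.log m := Real.log_nonneg hm1
    have huz : Real.log l / L - (Y - Real.log n / L) = Real.log m / L - Y := by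
      rw [hlm, add_div]; ring
    have hml : 0 ≤ Real.log m / L := div_nonneg hlogm hL.le
    rw [norm_mul, Real.norm_eq_abs, Real.norm_eq_abs]
    refine le_trans (mul_le_of_le_one_left (abs_nonneg _) (ys1_coef_bd _ (n, l))) ?_
    have b0 := h2 L (Y - Real.log n / L) (Real.log l / L) hL (by rw [huz]; linarith)
    refine b0.trans ?_
    rw [huz, mul_assoc C (Real.exp (-(1 / 2) * X))]
    apply mul_le_mul_of_nonneg_left _ hC.le
    have b1 : m ^ 2 * X ≤ Real.exp (2 * (Real.log m / L - Y - θ - δ / 2) * L) := by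
      have e1 : m ^ 2 * X = Real.exp (2 * Real.log m + L) := by
        rw [Real.exp_add, two_mul, Real.exp_add, Real.exp_log hm0, hLdef, Real.exp_log hX0]
        ring
      rw [e1]
      apply Real.exp_le_exp.2
      have e2 : 2 * (Real.log m / L - Y - θ - δ / 2) * L =
          2 * Real.log m + 2 * (-Y - θ - δ / 2) * L := by
        field_simp
        ring
      rw [e2]
      nlinarith
    have b2 : Real.exp (-Real.exp (2 * (Real.log m / L - Y - θ - δ / 2) * L)) ≤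
        Real.exp (-(1 / 2) * X) * Real.exp (-m ^ 2) := by
      rw [← Real.exp_add]
      apply Real.exp_le_exp.2
      nlinarith [sq_nonneg m, mul_le_mul hm1 hm1 (by norm_num) hm0.le]
    refine b2.trans ?_
    apply mul_le_mul_of_nonneg_left _ (Real.exp_pos _).le
    have b3 : 1 / (n : ℝ) ^ 2 * (1 / (l : ℝ) ^ 2) = (m ^ 2)⁻¹ := by
      rw [hm]
      field_simp
    rw [b3, Real.exp_neg]
    apply inv_anti₀ (by positivity)
    have := Real.add_one_le_exp (m ^ 2)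
    linarith
  have hsum : Summable fun p : ℕ × ℕ => C * Real.exp (-(1 / 2) * X) *
      (1 / (p.1 : ℝ) ^ 2 * (1 / (p.2 : ℝ) ^ 2)) := ys1_sum.mul_left _
  have hb : ‖ytil c σ ρ h X d Y‖ ≤ ∑' p : ℕ × ℕ, C * Real.exp (-(1 / 2) * X) *
      (1 / (p.1 : ℝ) ^ 2 * (1 / (p.2 : ℝ) ^ 2)) := by
    unfold ytil
    exact tsum_of_norm_bounded hsum.hasSum key
  rw [Real.norm_eq_abs, tsum_mul_left, ← hZ] at hb
  refine hb.trans ?_
  rw [Real.rpow_neg hX0.le, ← one_div, le_div_iff₀ (Real.rpow_pos_of_pos hX0 _)]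
  calc C * Real.exp (-(1 / 2) * X) * Z * X ^ (30 : ℝ)
      = C * Z * (X ^ (30 : ℝ) * Real.exp (-(1 / 2) * X)) := by ring
    _ ≤ 1 := k2

theorem yS_summable {ρ h : ℝ → ℝ} {δ θ : ℝ} (hδ : 0 < δ)
    (hρ : Bump ρ (-(δ / 2)) (δ / 2)) (hh : Bump h 0 θ) (c : ℝ) (hc : c = 0 ∨ c = 1) (ε σ : ℤ)
    (hε : ε = 0 ∨ ε = 1 ∨ ε = -1) (X : ℝ) (hX : 1 < X) (d : ℕ) (Y : ℝ) :
    Summable (fun j : ℕ => (ε : ℝ) ^ j / √2 ^ j *
      ytil c σ ρ h X (2 * d) (Y - j * Real.log 2 / Real.log X)) := by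
  obtain ⟨M, hM0, hM⟩ := ys1_ytil_bd hδ hρ hh c hc σ X hX (2 * d) Y
  have hL : 0 < Real.log X := Real.log_pos hX
  have h2 : 0 < Real.log 2 := Real.log_pos (by norm_num)
  refine Summable.of_norm_bounded
    ((summable_geometric_of_lt_one ys1_q.1.le (ys1_q.2.trans (by norm_num))).mul_right M)
    (fun j => ?_)
  rw [norm_mul, Real.norm_eq_abs, Real.norm_eq_abs]
  refine mul_le_mul (ys1_coef hε j) (hM _ ?_) (abs_nonneg _) (pow_nonneg ys1_q.1.le _)
  have : 0 ≤ (j : ℝ) * Real.log 2 / Real.log X := by positivity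
  linarith

theorem hasDerivAt_yS {ρ h : ℝ → ℝ} {δ θ : ℝ} (hδ : 0 < δ) (hρ : Bump ρ (-(δ / 2)) (δ / 2))
    (hh : Bump h 0 θ) (c : ℝ) (hc : c = 0 ∨ c = 1) (ε σ : ℤ) (hε : ε = 0 ∨ ε = 1 ∨ ε = -1)
    (X : ℝ) (hX : 1 < X) (d : ℕ) (Y : ℝ) :
    HasDerivAt (fun Y => yS c ε σ ρ h X d Y) (yS c ε σ (deriv ρ) h X d Y) Y := by
  obtain ⟨M, hM0, hM⟩ := ys1_ytil_bd hδ (ys1_bump_deriv hρ) hh c hc σ X hX (2 * d) (Y + 1)
  have hL : 0 < Real.log X := Real.log_pos hX
  have h2 : 0 < Real.log 2 := Real.log_pos (by norm_num)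
  unfold yS
  apply HasDerivAt.const_mul
  refine hasDerivAt_tsum_of_isPreconnected (𝕜 := ℝ) (t := Set.Ioo (Y - 1) (Y + 1)) (y₀ := Y)
    (u := fun j : ℕ => (1 / √2) ^ j * M)
    (g := fun (j : ℕ) (Y : ℝ) => (ε : ℝ) ^ j / √2 ^ j *
      ytil c σ ρ h X (2 * d) (Y - j * Real.log 2 / Real.log X))
    (g' := fun (j : ℕ) (Y : ℝ) => (ε : ℝ) ^ j / √2 ^ j *
      ytil c σ (deriv ρ) h X (2 * d) (Y - j * Real.log 2 / Real.log X))
    ((summable_geometric_of_lt_one ys1_q.1.le (ys1_q.2.trans (by norm_num))).mul_right M)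
    isOpen_Ioo isPreconnected_Ioo ?_ ?_ ?_ ?_ ?_
  · intro j y _
    have := (hasDerivAt_ytil hδ hρ hh c hc σ X hX (2 * d)
      (y - j * Real.log 2 / Real.log X)).comp_sub_const y (j * Real.log 2 / Real.log X)
    exact this.const_mul _
  · intro j y hy
    rw [norm_mul, Real.norm_eq_abs, Real.norm_eq_abs]
    refine mul_le_mul (ys1_coef hε j) (hM _ ?_) (abs_nonneg _) (pow_nonneg ys1_q.1.le _)
    have : 0 ≤ (j : ℝ) * Real.log 2 / Real.log X := by positivity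
    have := hy.2
    linarith
  · exact ⟨by linarith, by linarith⟩
  · exact yS_summable hδ hρ hh c hc ε σ hε X hX d Y
  · exact ⟨by linarith, by linarith⟩

theorem yS_bound {ρ h : ℝ → ℝ} {δ θ : ℝ} (hδ : 0 < δ) (hθ : 0 < θ) (hθ1 : θ + 3 * δ < 1 / 2)
    (hρ : Bump ρ (-(δ / 2)) (δ / 2)) (hh : Bump h 0 θ) (c : ℝ) (hc : c = 0 ∨ c = 1) (ε σ : ℤ)
    (hε : ε = 0 ∨ ε = 1 ∨ ε = -1) :
    ∃ X₀ : ℝ, ∀ X : ℝ, X₀ ≤ X → ∀ Y ∈ Set.Icc (-1 : ℝ) (1 / 2 + δ), ∀ d : ℕ,
      |yS c ε σ ρ h X d Y| ≤ X ^ 21 := by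
  obtain ⟨X₁, h1⟩ := ytil_small hδ hθ hθ1 hρ hh c hc σ
  obtain ⟨X₂, h2⟩ := ytil_trunc hδ hθ hθ1 hρ hh c hc σ
  refine ⟨max (max X₁ X₂) 8, fun X hX Y hY d => ?_⟩
  have hX1 : X₁ ≤ X := (le_max_left _ _).trans ((le_max_left _ _).trans hX)
  have hX2 : X₂ ≤ X := (le_max_right _ _).trans ((le_max_left _ _).trans hX)
  have hX8 : 8 ≤ X := (le_max_right _ _).trans hX
  have hX0 : 0 < X := by linarith
  have hL : 0 < Real.log X := Real.log_pos (by linarith)
  have hl2 : 0 < Real.log 2 := Real.log_pos (by norm_num)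
  have hb : ∀ y : ℝ, y ≤ 1 / 2 + δ → |ytil c σ ρ h X (2 * d) y| ≤ X ^ 20 := by
    intro y hy
    rcases le_or_gt (-1) y with h' | h'
    · exact (h2 X hX2 y ⟨h', hy⟩ (2 * d)).1
    · refine (h1 X hX1 y h'.le (2 * d)).trans ?_
      have e1 : X ^ (-30 : ℝ) ≤ 1 := Real.rpow_le_one_of_one_le_of_nonpos (by linarith)
        (by norm_num)
      exact e1.trans (one_le_pow₀ (by linarith))
  have hq := ys1_q
  have hgs := summable_geometric_of_lt_one hq.1.le (hq.2.trans (by norm_num))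
  have hsum : ‖∑' j : ℕ, (ε : ℝ) ^ j / √2 ^ j *
      ytil c σ ρ h X (2 * d) (Y - j * Real.log 2 / Real.log X)‖ ≤
      ∑' j : ℕ, (1 / √2 : ℝ) ^ j * X ^ 20 := by
    refine tsum_of_norm_bounded (hgs.mul_right (X ^ 20)).hasSum (fun j => ?_)
    rw [norm_mul, Real.norm_eq_abs, Real.norm_eq_abs]
    refine mul_le_mul (ys1_coef hε j) (hb _ ?_) (abs_nonneg _) (pow_nonneg hq.1.le _)
    have : 0 ≤ (j : ℝ) * Real.log 2 / Real.log X := by positivity
    have := hY.2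
    linarith
  rw [tsum_mul_right, tsum_geometric_of_lt_one hq.1.le (hq.2.trans (by norm_num)),
    Real.norm_eq_abs] at hsum
  have h4 : (1 - 1 / √2 : ℝ)⁻¹ ≤ 4 := by
    rw [inv_le_comm₀ (by linarith) (by norm_num)]
    linarith
  have h5 : |1 - (ε : ℝ) / √2| ≤ 2 := by
    have e1 : |(ε : ℝ) / √2| ≤ 1 := by
      have := ys1_coef hε 1
      rw [pow_one, pow_one, pow_one] at this
      linarith
    have := abs_le.1 e1
    rw [abs_le]
    constructor <;> linarith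
  unfold yS
  rw [abs_mul]
  calc |1 - (ε : ℝ) / √2| * |∑' j : ℕ, (ε : ℝ) ^ j / √2 ^ j *
        ytil c σ ρ h X (2 * d) (Y - j * Real.log 2 / Real.log X)|
      ≤ 2 * ((1 - 1 / √2 : ℝ)⁻¹ * X ^ 20) :=
        mul_le_mul h5 hsum (abs_nonneg _) (by norm_num)
    _ ≤ 2 * (4 * X ^ 20) := by
        have : 0 ≤ X ^ 20 := by positivity
        nlinarith
    _ = 8 * X ^ 20 := by ring
    _ ≤ X * X ^ 20 := mul_le_mul_of_nonneg_right hX8 (by positivity)
    _ = X ^ 21 := by ring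

end Pool.Agent.MP0016c7.Rz
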