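import Mathlib
import Pool.Agent.Lib.MP_0016c7_nt.Rz.Defs
import Pool.Agent.Lib.MP_0016c7_nt.Rz.DefsC
import Pool.Agent.Lib.MP_0016c7_nt.Rz.DefsE
import Pool.Agent.Lib.MP_0016c7_nt.Rz.DefsF
import Pool.Agent.Lib.MP_0016c7_nt.Rz2.DefsG
import Pool.Agent.Lib.MP_0016c7_nt.Rz.Rt0

set_option autoImplicit false

/-!
The primitive quadratic characters of the families.
-/

open Finset MeasureTheory Filter Topology
open scoped Real ContDiff

namespace Pool.Agent.MP0016c7.Rz

private lemma g28_jr_mul (a : ℤ) (m n : ℕ) : jr a (m * n) = jr a m * jr a n := by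
  unfold jr
  by_cases hm : Odd m
  · by_cases hn : Odd n
    · rw [if_pos hm, if_pos hn, if_pos (hm.mul hn), jacobiSym.mul_right' a hm.pos.ne' hn.pos.ne']
      push_cast
      ring
    · rw [if_neg hn, if_neg (fun h => hn (Nat.odd_mul.1 h).2), mul_zero]
  · rw [if_neg hm, if_neg (fun h => hm (Nat.odd_mul.1 h).1), zero_mul]

private lemma g28_mod (a : ℤ) (M : ℕ) (hM : M = 4 * a.natAbs) (n : ℕ) :
    jr a (n % M) = jr a n := by
  have h2 : Odd (n % M) ↔ Odd n := by
    rw [Nat.odd_iff, Nat.odd_iff, Nat.mod_mod_of_dvd _ ⟨2 * a.natAbs, by omega⟩]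
  unfold jr
  by_cases hn : Odd n
  · rw [if_pos hn, if_pos (h2.2 hn), hM, ← jacobiSym.mod_right a hn]
  · rw [if_neg hn, if_neg (fun h => hn (h2.1 h))]

private lemma g28_cop {a : ℤ} {n : ℕ} (ho : Odd n) (h : a.gcd n = 1) :
    Nat.Coprime n (4 * a.natAbs) := by
  refine Nat.Coprime.mul_right ?_ ?_
  · have : Nat.Coprime n (2 ^ 2) := Nat.Coprime.pow_right 2 (Nat.coprime_two_right.2 ho)
    exact this
  · rw [Int.gcd_eq_natAbs, Int.natAbs_natCast] at h
    exact (Nat.coprime_comm.1 h)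

private noncomputable def g28ψ (a : ℤ) (N : ℕ) (hN : N = 4 * a.natAbs) (hN1 : 1 < N) :
    DirichletCharacter ℂ N where
  toFun x := (jr a x.val : ℂ)
  map_one' := by
    have : Fact (1 < N) := ⟨hN1⟩
    rw [ZMod.val_one]
    simp [jr]
  map_mul' x y := by
    rw [ZMod.val_mul, g28_mod a N hN, g28_jr_mul]
    push_cast
    rfl
  map_nonunit' x hx := by
    have : NeZero N := ⟨by omega⟩
    have h1 : ¬ Nat.Coprime x.val N := by
      intro h
      apply hx
      have := (ZMod.isUnit_iff_coprime x.val N).2 h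
      rwa [ZMod.natCast_zmod_val] at this
    show (jr a x.val : ℂ) = 0
    unfold jr
    split_ifs with ho
    · have : NeZero x.val := ⟨ho.pos.ne'⟩
      have h2 : jacobiSym a x.val = 0 := by
        rw [jacobiSym.eq_zero_iff_not_coprime]
        intro h
        apply h1
        have h9 := g28_cop ho h
        rw [← hN] at h9
        exact h9
      rw [h2]
      simp
    · simp

private lemma g28ψ_nat (a : ℤ) (N : ℕ) (hN : N = 4 * a.natAbs) (hN1 : 1 < N) (n : ℕ) :
    g28ψ a N hN hN1 n = (jr a n : ℂ) := by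
  show (jr a (n : ZMod N).val : ℂ) = _
  rw [ZMod.val_natCast, g28_mod a N hN]

private lemma g28_jr_sq (a : ℤ) (n : ℕ) (h : Nat.Coprime n (4 * a.natAbs)) : jr a n ^ 2 = 1 := by
  have ho : Odd n := by
    have h1 : Nat.Coprime n 4 := h.coprime_mul_right_right
    have h2 : Nat.Coprime n 2 := Nat.Coprime.coprime_dvd_right (by norm_num) h1
    exact Nat.coprime_two_right.1 h2
  have hg : a.gcd n = 1 := by
    rw [Int.gcd_eq_natAbs, Int.natAbs_natCast]
    exact (h.coprime_mul_left_right).symm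
  unfold jr
  rw [if_pos ho]
  have := jacobiSym.sq_one hg
  exact_mod_cast this

private lemma g28ψ_sq (a : ℤ) (N : ℕ) (hN : N = 4 * a.natAbs) (hN1 : 1 < N) (u : (ZMod N)ˣ) :
    (g28ψ a N hN hN1).toUnitHom u ^ 2 = 1 := by
  have : NeZero N := ⟨by omega⟩
  ext
  rw [Units.val_pow_eq_pow_val, MulChar.coe_toUnitHom, Units.val_one]
  show ((jr a (u : ZMod N).val : ℝ) : ℂ) ^ 2 = 1
  have h := g28_jr_sq a (u : ZMod N).val (by rw [← hN]; exact ZMod.val_coe_unit_coprime u)
  exact_mod_cast h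

private lemma g28_ker {N D : ℕ} [NeZero N] (h : D ∣ N) (u : (ZMod N)ˣ) :
    u ∈ (ZMod.unitsMap h).ker ↔ (u : ZMod N).val ≡ 1 [MOD D] := by
  rw [MonoidHom.mem_ker, Units.ext_iff, ZMod.unitsMap_val, ← ZMod.natCast_val, Units.val_one,
    ← Nat.cast_one, ZMod.natCast_eq_natCast_iff]

private lemma g28_unit_eq {N : ℕ} [NeZero N] (u v : (ZMod N)ˣ)
    (h : (u : ZMod N).val ≡ (v : ZMod N).val [MOD N]) : u = v := by
  ext
  have := (ZMod.natCast_eq_natCast_iff _ _ _).2 h
  rwa [ZMod.natCast_zmod_val, ZMod.natCast_zmod_val] at this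

private lemma g28_cyclic {N D p : ℕ} [NeZero N] [hp : Fact p.Prime] (hN : N = p * D)
    (hc : p.Coprime D) (h : D ∣ N) (hN1 : 1 < N) : IsCyclic (ZMod.unitsMap h).ker := by
  have hpN : p ∣ N := ⟨D, hN⟩
  have : Fact (1 < N) := ⟨hN1⟩
  refine isCyclic_of_injective ((ZMod.unitsMap hpN).comp (ZMod.unitsMap h).ker.subtype) ?_
  rw [injective_iff_map_eq_one]
  rintro ⟨u, hu⟩ h1
  have h2 : u ∈ (ZMod.unitsMap hpN).ker := h1
  rw [g28_ker] at hu h2
  have h3 : (u : ZMod N).val ≡ 1 [MOD p * D] := (Nat.modEq_and_modEq_iff_modEq_mul hc).1 ⟨h2, hu⟩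
  rw [← hN] at h3
  have h4 : u = 1 := by
    apply g28_unit_eq
    rw [Units.val_one, ZMod.val_one]
    exact h3
  exact Subtype.ext h4

private lemma g28_cyc {G : Type*} [CommGroup G] (K : Subgroup G) [IsCyclic K] (f g : G →* ℂˣ)
    (hf : ∀ u, f u ^ 2 = 1) (hg : ∀ u, g u ^ 2 = 1) (hf1 : ∃ u ∈ K, f u ≠ 1)
    (hg1 : ∃ u ∈ K, g u ≠ 1) (u : G) (hu : u ∈ K) : f u * g u = 1 := by
  obtain ⟨x, hx⟩ := IsCyclic.exists_generator (α := K)
  have gen : ∀ v ∈ K, ∃ n : ℤ, v = (x : G) ^ n := by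
    intro v hv
    obtain ⟨n, hn⟩ := Subgroup.mem_zpowers_iff.1 (hx ⟨v, hv⟩)
    refine ⟨n, ?_⟩
    have := congrArg Subtype.val hn
    simpa using this.symm
  have key : ∀ h : G →* ℂˣ, (∀ u, h u ^ 2 = 1) → (∃ u ∈ K, h u ≠ 1) → h x = -1 := by
    rintro h h2 ⟨v, hv, hv1⟩
    have h3 : h x ≠ 1 := by
      intro h1
      apply hv1
      obtain ⟨n, rfl⟩ := gen v hv
      rw [map_zpow, h1, one_zpow]
    have h4 : ((h x : ℂˣ) : ℂ) * ((h x : ℂˣ) : ℂ) = 1 := by
      have := congrArg Units.val (h2 x)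
      rw [Units.val_pow_eq_pow_val, Units.val_one] at this
      rw [← sq, this]
    rcases mul_self_eq_one_iff.1 h4 with h5 | h5
    · exact absurd (Units.ext h5) h3
    · ext
      rw [h5]
      simp
  obtain ⟨n, rfl⟩ := gen u hu
  rw [map_zpow, map_zpow, ← mul_zpow, key f hf hf1, key g hg hg1]
  simp

private lemma g28_one (a : ℤ) (n : ℕ) (ho : Odd n) (h1 : 1 < 4 * a.natAbs)
    (h : n ≡ 1 [MOD 4 * a.natAbs]) : jacobiSym a n = 1 := by
  rw [jacobiSym.mod_right a ho, h, Nat.mod_eq_of_lt h1, jacobiSym.one_right]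

private lemma g28_natAbs' {d : ℕ} {σ : ℤ} (hσ : σ = 1 ∨ σ = -1) : (σ * (d : ℤ)).natAbs = d := by
  rw [Int.natAbs_mul, Int.natAbs_natCast]
  rcases hσ with rfl | rfl <;> simp

private lemma g28_natAbs {d : ℕ} {σ : ℤ} (hσ : σ = 1 ∨ σ = -1) :
    4 * d = 4 * (σ * d : ℤ).natAbs := by
  rw [g28_natAbs' hσ]

/-- the value at the unit `2 d + 1` -/
private lemma g28_val2 {d : ℕ} (hd : Odd d) {σ : ℤ} (hσ : σ = 1 ∨ σ = -1) :
    jr (σ * d) (2 * d + 1) = if (σ * d) % 4 = 1 then 1 else -1 := by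
  have ho : Odd (2 * d + 1) := ⟨d, rfl⟩
  have hd0 := hd.pos
  have h3m : (2 * d + 1) % 4 = 3 := by
    have := Nat.odd_iff.1 hd
    omega
  have h2 : jacobiSym σ (2 * d + 1) = σ := by
    rcases hσ with rfl | rfl
    · exact jacobiSym.one_left _
    · rw [jacobiSym.at_neg_one ho, ZMod.χ₄_nat_three_mod_four h3m]
  have h3 : jacobiSym ((2 * d + 1 : ℕ) : ℤ) d = 1 := by
    have h31 : jacobiSym ((2 * d + 1 : ℕ) : ℤ) d = jacobiSym 1 d := by
      apply jacobiSym.mod_left'
      have : ((2 * d + 1 : ℕ) : ℤ) = 1 + d * 2 := by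
        push_cast
        ring
      rw [this, Int.add_mul_emod_self_left]
    rw [h31, jacobiSym.one_left]
  unfold jr
  rw [if_pos ho, jacobiSym.mul_left, h2]
  have hd4 : d % 4 = 1 ∨ d % 4 = 3 := by
    have := Nat.odd_iff.1 hd
    omega
  rcases hd4 with h | h
  · rw [jacobiSym.quadratic_reciprocity_one_mod_four h ho, h3]
    rcases hσ with rfl | rfl
    · rw [if_pos (by omega)]; norm_num
    · rw [if_neg (by omega)]; norm_num
  · rw [jacobiSym.quadratic_reciprocity_three_mod_four h h3m, h3]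
    rcases hσ with rfl | rfl
    · rw [if_neg (by omega)]; norm_num
    · rw [if_pos (by omega)]; norm_num

private lemma g28_valneg {d : ℕ} (hd : Odd d) {σ : ℤ} (hσ : σ = 1 ∨ σ = -1) :
    jr (σ * d) (4 * d - 1) = σ := by
  have hd0 := hd.pos
  have ho : Odd (4 * d - 1) := ⟨2 * d - 1, by omega⟩
  have h2 : jacobiSym σ (4 * d - 1) = σ := by
    rcases hσ with rfl | rfl
    · exact jacobiSym.one_left _
    · rw [jacobiSym.at_neg_one ho, ZMod.χ₄_nat_three_mod_four (by omega)]
  have h3 : jacobiSym ((4 * d - 1 : ℕ) : ℤ) d = jacobiSym (-1) d := by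
    apply jacobiSym.mod_left'
    have : ((4 * d - 1 : ℕ) : ℤ) = -1 + d * 4 := by
      rw [Nat.cast_sub (by omega)]
      push_cast
      ring
    rw [this, Int.add_mul_emod_self_left]
  have h4 : jacobiSym d (4 * d - 1) = 1 := by
    have hd4 : d % 4 = 1 ∨ d % 4 = 3 := by
      have := Nat.odd_iff.1 hd
      omega
    rcases hd4 with h | h
    · rw [jacobiSym.quadratic_reciprocity_one_mod_four h ho, h3, jacobiSym.at_neg_one hd,
        ZMod.χ₄_nat_one_mod_four h]
    · rw [jacobiSym.quadratic_reciprocity_three_mod_four h (by omega), h3,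
        jacobiSym.at_neg_one hd, ZMod.χ₄_nat_three_mod_four h]
      norm_num
  unfold jr
  rw [if_pos ho, jacobiSym.mul_left, h2, h4]
  norm_num

/-- the value at `d + 2` in the classes `1` and `5` modulo `8` -/
private lemma g28_valtwo {d : ℕ} (hd : Odd d) {σ : ℤ} (hσ : σ = 1 ∨ σ = -1)
    (h8 : (σ * d) % 8 = 1 ∨ (σ * d) % 8 = 5) :
    jr (σ * d) (d + 2) = if (σ * d) % 8 = 1 then 1 else -1 := by
  have hd0 := hd.pos
  have hdm := Nat.odd_iff.1 hd
  have ho : Odd (d + 2) := by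
    rw [Nat.odd_iff]; omega
  have h3 : jacobiSym ((d + 2 : ℕ) : ℤ) d = jacobiSym 2 d := by
    apply jacobiSym.mod_left'
    have : ((d + 2 : ℕ) : ℤ) = 2 + d * 1 := by
      push_cast
      ring
    rw [this, Int.add_mul_emod_self_left]
  have h4 : jacobiSym d (d + 2) = jacobiSym 2 d := by
    have hd4 : d % 4 = 1 ∨ d % 4 = 3 := by omega
    rcases hd4 with h | h
    · rw [jacobiSym.quadratic_reciprocity_one_mod_four h ho, h3]
    · rw [jacobiSym.quadratic_reciprocity_one_mod_four' hd (by omega), h3]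
  have h2 : jacobiSym σ (d + 2) = 1 := by
    rcases hσ with rfl | rfl
    · exact jacobiSym.one_left _
    · rw [jacobiSym.at_neg_one ho, ZMod.χ₄_nat_one_mod_four (by omega)]
  unfold jr
  rw [if_pos ho, jacobiSym.mul_left, h2, h4, jacobiSym.at_two hd, ZMod.χ₈_nat_mod_eight]
  rcases hσ with rfl | rfl
  · rcases h8 with h | h
    · rw [if_pos h]
      have : d % 8 = 1 := by omega
      rw [this]; norm_num
    · rw [if_neg (by omega)]
      have : d % 8 = 5 := by omega
      rw [this]; norm_num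
  · rcases h8 with h | h
    · rw [if_pos h]
      have : d % 8 = 7 := by omega
      rw [this]; norm_num
    · rw [if_neg (by omega)]
      have : d % 8 = 3 := by omega
      rw [this]; norm_num

/-- the character `jr` is not trivial on the `p`-component -/
private lemma g28_valp {p e : ℕ} [hp : Fact p.Prime] (hp2 : p ≠ 2) (he : Odd e)
    (hc : p.Coprime (4 * e)) {σ : ℤ} (hσ : σ = 1 ∨ σ = -1) :
    ∃ n : ℕ, n ≡ 1 [MOD 4 * e] ∧ Nat.Coprime n (4 * (p * e)) ∧
      jr (σ * ((p * e : ℕ) : ℤ)) n = -1 := by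
  have hpo : Odd p := hp.out.odd_of_ne_two hp2
  have hF : ringChar (ZMod p) ≠ 2 := by rwa [ZMod.ringChar_zmod_n]
  obtain ⟨a, ha⟩ := quadraticChar_exists_neg_one hF
  obtain ⟨n, hn1, hn2⟩ := Nat.chineseRemainder hc a.val 1
  have he0 := he.pos
  have ho : Odd n := by
    have h1 : n ≡ 1 [MOD 2] := hn2.of_dvd ⟨2 * e, by ring⟩
    rw [Nat.odd_iff]
    exact h1
  have h4 : n % 4 = 1 := by
    have h1 : n ≡ 1 [MOD 4] := hn2.of_dvd ⟨e, by ring⟩
    exact h1
  have hcast : ((n : ℤ) : ZMod p) = a := by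
    have h1 : (n : ZMod p) = (a.val : ZMod p) := (ZMod.natCast_eq_natCast_iff _ _ _).2 hn1
    rw [Int.cast_natCast, h1, ZMod.natCast_zmod_val]
  have h5 : jacobiSym n p = -1 := by
    rw [← jacobiSym.legendreSym.to_jacobiSym]
    unfold legendreSym
    rw [hcast, ha]
  have h6 : jacobiSym p n = -1 := by
    rw [← jacobiSym.quadratic_reciprocity_one_mod_four h4 hpo, h5]
  have h7 : (σ * (e : ℤ)).natAbs = e := g28_natAbs' hσ
  have h8 : jacobiSym (σ * e) n = 1 := by
    refine g28_one _ _ ho (by rw [h7]; omega) ?_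
    rw [h7]
    exact hn2
  have h9 : jacobiSym (σ * ((p * e : ℕ) : ℤ)) n = -1 := by
    have : (σ * ((p * e : ℕ) : ℤ)) = (σ * e) * p := by
      push_cast
      ring
    rw [this, jacobiSym.mul_left, h8, h6]
    norm_num
  refine ⟨n, hn2, ?_, ?_⟩
  · have hne : jacobiSym (σ * ((p * e : ℕ) : ℤ)) n ≠ 0 := by
      rw [h9]
      norm_num
    have hg : (σ * ((p * e : ℕ) : ℤ)).gcd n = 1 := by
      by_contra hcon
      have : NeZero n := ⟨ho.pos.ne'⟩
      exact hne (jacobiSym.eq_zero_iff_not_coprime.2 hcon)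
    have := g28_cop ho hg
    rwa [← g28_natAbs hσ] at this
  · unfold jr
    rw [if_pos ho, h9]
    norm_num

/-- the common part: a character modulo `4 d` with large conductor is the Jacobi symbol -/
private lemma g28_main (d : ℕ) (hd : Odd d) (hs : Squarefree d) (σ : ℤ) (hσ : σ = 1 ∨ σ = -1)
    [NeZero (4 * d)] (χ : DirichletCharacter ℂ (4 * d)) (h2 : χ ^ 2 = 1) (hN1 : 1 < 4 * d)
    (hcond : d ∣ χ.conductor) (u0 : (ZMod (4 * d))ˣ) (hu0 : (u0 : ZMod (4 * d)).val = 2 * d + 1)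
    (hχu0 : χ u0 = if (σ * d) % 4 = 1 then 1 else -1) (u : (ZMod (4 * d))ˣ) :
    χ u = (jr (σ * d) (u : ZMod (4 * d)).val : ℂ) := by
  have hd0 := hd.pos
  have hN := g28_natAbs (d := d) hσ
  have hfact : Fact (1 < 4 * d) := ⟨hN1⟩
  set ψ := g28ψ (σ * d) (4 * d) hN hN1 with hψ
  have hψsq : ∀ u, ψ.toUnitHom u ^ 2 = 1 := g28ψ_sq _ _ hN hN1
  have hχsq : ∀ u, χ.toUnitHom u ^ 2 = 1 := by
    intro u
    ext
    rw [Units.val_pow_eq_pow_val, MulChar.coe_toUnitHom, Units.val_one]
    have := congrArg (fun f : DirichletCharacter ℂ (4 * d) => f (u : ZMod (4 * d))) h2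
    simp only [MulChar.pow_apply_coe, MulChar.one_apply_coe] at this
    exact this
  set η := χ * ψ with hη
  have hηu : ∀ u, η.toUnitHom u = χ.toUnitHom u * ψ.toUnitHom u := by
    intro u
    ext
    simp [hη]
  have hcp : ∀ p : ℕ, p.Prime → p ∣ d → ¬ p ∣ η.conductor := by
    intro p hpp hpd hdiv
    have : Fact p.Prime := ⟨hpp⟩
    obtain ⟨e, he⟩ := hpd
    have hpodd : Odd p := by
      rw [he] at hd
      exact (Nat.odd_mul.1 hd).1
    have heodd : Odd e := by
      rw [he] at hd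
      exact (Nat.odd_mul.1 hd).2
    have hp2 : p ≠ 2 := by
      rintro rfl
      exact absurd hpodd (by decide)
    have hpe : p.Coprime e := by
      rw [he] at hs
      exact Nat.coprime_of_squarefree_mul hs
    have hc : p.Coprime (4 * e) := by
      refine Nat.Coprime.mul_right ?_ hpe
      have : Nat.Coprime p (2 ^ 2) := Nat.Coprime.pow_right 2 (Nat.coprime_two_right.2 hpodd)
      exact this
    have hNe : 4 * d = p * (4 * e) := by
      rw [he]
      ring
    have hD : 4 * e ∣ 4 * d := ⟨p, by rw [hNe]; ring⟩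
    have hcyc := g28_cyclic hNe hc hD hN1
    have hχ1 : ∃ u ∈ (ZMod.unitsMap hD).ker, χ.toUnitHom u ≠ 1 := by
      by_contra hcon
      push Not at hcon
      have h1 : χ.FactorsThrough (4 * e) := by
        rw [DirichletCharacter.factorsThrough_iff_ker_unitsMap hD]
        intro u hu
        exact hcon u hu
      have h3 := DirichletCharacter.conductor_dvd_of_mem_conductorSet χ (d := 4 * e) h1
      have h4 : p ∣ 4 * e := ((Dvd.intro e he.symm).trans hcond).trans h3
      have h6 : p ∣ 1 := by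
        rw [← hc]
        exact Nat.dvd_gcd dvd_rfl h4
      exact hpp.one_lt.ne' (Nat.dvd_one.1 h6)
    obtain ⟨m, hm1, hm2, hm3⟩ := g28_valp hp2 heodd hc hσ
    rw [← he] at hm2 hm3
    have hψ1 : ∃ u ∈ (ZMod.unitsMap hD).ker, ψ.toUnitHom u ≠ 1 := by
      refine ⟨ZMod.unitOfCoprime m hm2, ?_, ?_⟩
      · rw [g28_ker, ZMod.coe_unitOfCoprime, ZMod.val_natCast]
        exact ((Nat.mod_modEq m (4 * d)).of_dvd hD).trans hm1
      · intro h
        have h3 := congrArg Units.val h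
        rw [MulChar.coe_toUnitHom, ZMod.coe_unitOfCoprime, Units.val_one, hψ, g28ψ_nat, hm3] at h3
        norm_num at h3
    have h3 : η.FactorsThrough (4 * e) := by
      rw [DirichletCharacter.factorsThrough_iff_ker_unitsMap hD]
      intro u hu
      rw [MonoidHom.mem_ker, hηu]
      exact g28_cyc _ _ _ hχsq hψsq hχ1 hψ1 u hu
    have h4 := DirichletCharacter.conductor_dvd_of_mem_conductorSet η (d := 4 * e) h3
    have h5 := hdiv.trans h4
    have h6 : p ∣ 1 := by
      rw [← hc]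
      exact Nat.dvd_gcd dvd_rfl h5
    exact hpp.one_lt.ne' (Nat.dvd_one.1 h6)
  have hcd4 : η.conductor ∣ 4 := by
    refine Nat.Coprime.dvd_of_dvd_mul_right ?_ η.conductor_dvd_level
    rw [Nat.coprime_iff_gcd_eq_one]
    by_contra hcon
    obtain ⟨p, hpp, hpdvd⟩ := Nat.exists_prime_and_dvd hcon
    exact hcp p hpp (hpdvd.trans (Nat.gcd_dvd_right _ _)) (hpdvd.trans (Nat.gcd_dvd_left _ _))
  have h4N : 4 ∣ 4 * d := ⟨d, rfl⟩
  have hf4 : η.FactorsThrough 4 :=
    (DirichletCharacter.mem_conductorSet_iff_conductor_dvd η h4N).2 hcd4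
  rw [DirichletCharacter.factorsThrough_iff_ker_unitsMap h4N] at hf4
  have hηu0 : η.toUnitHom u0 = 1 := by
    ext
    rw [MulChar.coe_toUnitHom, Units.val_one, hη, MulChar.mul_apply, hχu0]
    have h7 : ψ (u0 : ZMod (4 * d)) = ((jr (σ * d) (u0 : ZMod (4 * d)).val : ℝ) : ℂ) := rfl
    rw [h7, hu0, g28_val2 hd hσ]
    split_ifs <;> simp
  have hη1 : ∀ u, η.toUnitHom u = 1 := by
    intro u
    have hodd : Odd (u : ZMod (4 * d)).val := by
      have h3 := ZMod.val_coe_unit_coprime u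
      have h5 : Nat.Coprime (u : ZMod (4 * d)).val 2 :=
        Nat.Coprime.coprime_dvd_right ⟨2 * d, by ring⟩ h3
      exact Nat.coprime_two_right.1 h5
    have h4 : (u : ZMod (4 * d)).val % 4 = 1 ∨ (u : ZMod (4 * d)).val % 4 = 3 := by
      have := Nat.odd_iff.1 hodd
      omega
    rcases h4 with h4 | h4
    · have h5 : u ∈ (ZMod.unitsMap h4N).ker := by
        rw [g28_ker]
        exact h4
      exact hf4 h5
    · have h5 : u0 * u ∈ (ZMod.unitsMap h4N).ker := by
        rw [g28_ker, Units.val_mul, ZMod.val_mul]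
        have h6 : ((u0 : ZMod (4 * d)).val * (u : ZMod (4 * d)).val) % (4 * d) ≡
            (u0 : ZMod (4 * d)).val * (u : ZMod (4 * d)).val [MOD 4] :=
          (Nat.mod_modEq _ _).of_dvd h4N
        refine h6.trans ?_
        have h7 : (u0 : ZMod (4 * d)).val % 4 = 3 := by
          rw [hu0]
          have := Nat.odd_iff.1 hd
          omega
        show ((u0 : ZMod (4 * d)).val * (u : ZMod (4 * d)).val) % 4 = 1 % 4
        rw [Nat.mul_mod, h7, h4]
      have h6 : η.toUnitHom (u0 * u) = 1 := hf4 h5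
      rw [map_mul, hηu0, one_mul] at h6
      exact h6
  have h3 := hη1 u
  rw [hηu] at h3
  have h4 : χ.toUnitHom u = ψ.toUnitHom u := by
    have h5 := hψsq u
    calc χ.toUnitHom u = χ.toUnitHom u * (ψ.toUnitHom u ^ 2) := by rw [h5, mul_one]
      _ = (χ.toUnitHom u * ψ.toUnitHom u) * ψ.toUnitHom u := by rw [sq, mul_assoc]
      _ = ψ.toUnitHom u := by rw [h3, one_mul]
  have h5 := congrArg Units.val h4
  rw [MulChar.coe_toUnitHom, MulChar.coe_toUnitHom] at h5
  exact h5

/-- values at odd numbers of a character modulo `k d`, `k = 1, 4` -/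
private lemma g28_odd (d κ : ℕ) (hd : Odd d) (hs : Squarefree d) (σ : ℤ) (hσ : σ = 1 ∨ σ = -1)
    (hκ : (κ = 4 ∧ (σ * d) % 4 = 3) ∨ (κ = 1 ∧ (σ * d) % 4 = 1)) [NeZero (κ * d)]
    (χ : DirichletCharacter ℂ (κ * d)) (hp : χ.IsPrimitive) (h2 : χ ^ 2 = 1) (n : ℕ)
    (hn : Odd n) : χ n = (jr (σ * d) n : ℂ) := by
  have hd0 := hd.pos
  have hN1 : 1 < 4 * d := by omega
  have hne : NeZero (4 * d) := ⟨by omega⟩
  have hfact : Fact (1 < 4 * d) := ⟨hN1⟩
  have hκ4 : κ * d ∣ 4 * d := by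
    rcases hκ with ⟨rfl, -⟩ | ⟨rfl, -⟩
    · exact dvd_rfl
    · exact ⟨4, by ring⟩
  set χ' := DirichletCharacter.changeLevel hκ4 χ with hχ'
  have hχ'u : ∀ u : (ZMod (4 * d))ˣ, χ' u = χ ((u : ZMod (4 * d)).val : ZMod (κ * d)) := by
    intro u
    rw [hχ', DirichletCharacter.changeLevel_eq_cast_of_dvd]
    congr 1
    rw [ZMod.natCast_val]
  have hc : χ'.conductor = κ * d := by
    rw [hχ', DirichletCharacter.conductor_changeLevel]
    exact hp
  have h2' : χ' ^ 2 = 1 := by
    rw [hχ', ← map_pow, h2, map_one]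
  have hcop : Nat.Coprime (2 * d + 1) (4 * d) := by
    have h1 : Nat.Coprime (2 * d + 1) 4 := by
      have : Nat.Coprime (2 * d + 1) (2 ^ 2) :=
        Nat.Coprime.pow_right 2 (Nat.coprime_two_right.2 ⟨d, rfl⟩)
      exact this
    have h3 : Nat.Coprime (2 * d + 1) d := by
      have : Nat.Coprime (1 + 2 * d) d := by
        rw [Nat.coprime_add_mul_right_left]
        exact Nat.coprime_one_left d
      rwa [Nat.add_comm] at this
    exact Nat.Coprime.mul_right h1 h3
  set u0 := ZMod.unitOfCoprime (2 * d + 1) hcop with hu0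
  have hu0v : (u0 : ZMod (4 * d)).val = 2 * d + 1 := by
    rw [hu0, ZMod.coe_unitOfCoprime, ZMod.val_natCast, Nat.mod_eq_of_lt (by omega)]
  have hχu0 : χ' u0 = if (σ * d) % 4 = 1 then 1 else -1 := by
    rcases hκ with ⟨hk, hm⟩ | ⟨hk, hm⟩
    · rw [if_neg (by omega)]
      have hdd : d ∣ 4 * d := ⟨4, by ring⟩
      have hnf : ∃ u ∈ (ZMod.unitsMap hdd).ker, χ'.toUnitHom u ≠ 1 := by
        by_contra hcon
        push Not at hcon
        have h1 : χ'.FactorsThrough d := by
          rw [DirichletCharacter.factorsThrough_iff_ker_unitsMap hdd]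
          intro u hu
          exact hcon u hu
        have h3 := DirichletCharacter.conductor_dvd_of_mem_conductorSet χ' (d := d) h1
        rw [hc, hk] at h3
        exact absurd (Nat.le_of_dvd hd0 h3) (by omega)
      obtain ⟨v, hv, hv1⟩ := hnf
      rw [g28_ker] at hv
      have hodd : Odd (v : ZMod (4 * d)).val := by
        have h3 := ZMod.val_coe_unit_coprime v
        have h5 : Nat.Coprime (v : ZMod (4 * d)).val 2 :=
          Nat.Coprime.coprime_dvd_right ⟨2 * d, by ring⟩ h3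
        exact Nat.coprime_two_right.1 h5
      have hlt : (v : ZMod (4 * d)).val < 4 * d := ZMod.val_lt _
      have hvv : (v : ZMod (4 * d)).val = 1 ∨ (v : ZMod (4 * d)).val = 2 * d + 1 := by
        rcases Nat.lt_or_ge 1 d with h1 | h1
        · have h6 : (v : ZMod (4 * d)).val % d = 1 := by
            have : 1 % d = 1 := Nat.mod_eq_of_lt h1
            rw [← this]
            exact hv
          have h7 := Nat.div_add_mod (v : ZMod (4 * d)).val d
          have h8 : (v : ZMod (4 * d)).val / d < 4 := by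
            rw [Nat.div_lt_iff_lt_mul (by omega)]
            exact hlt
          rw [h6] at h7
          obtain ⟨m, hm'⟩ := hodd
          obtain ⟨m', hm''⟩ := hd
          generalize (v : ZMod (4 * d)).val / d = q at h7 h8
          have hq : q = 0 ∨ q = 1 ∨ q = 2 ∨ q = 3 := by omega
          rcases hq with rfl | rfl | rfl | rfl
          · left; omega
          · exfalso; omega
          · right; omega
          · exfalso; omega
        · have hd1 : d = 1 := by omega
          obtain ⟨m, hm'⟩ := hodd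
          omega
      have hvu : v = u0 := by
        apply g28_unit_eq
        rcases hvv with h | h
        · exfalso
          apply hv1
          have : v = 1 := by
            apply g28_unit_eq
            rw [h, Units.val_one, ZMod.val_one]
          rw [this, map_one]
        · rw [h, hu0v]
      rw [hvu] at hv1
      have h6 : χ' u0 * χ' u0 = 1 := by
        have := congrArg (fun f : DirichletCharacter ℂ (4 * d) => f (u0 : ZMod (4 * d))) h2'
        simp only [MulChar.pow_apply_coe, MulChar.one_apply_coe] at this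
        rw [← sq]; exact this
      rcases mul_self_eq_one_iff.1 h6 with h7 | h7
      · exfalso
        apply hv1
        ext
        rw [MulChar.coe_toUnitHom, h7, Units.val_one]
      · exact h7
    · rw [if_pos hm, hχ'u, hu0v]
      have h8 : ((2 * d + 1 : ℕ) : ZMod (κ * d)) = 1 := by
        have h9 : ((d : ℕ) : ZMod (κ * d)) = 0 := by
          rw [ZMod.natCast_eq_zero_iff, hk, one_mul]
        push_cast
        rw [h9]
        simp
      rw [h8, map_one]
  have hdc : d ∣ χ'.conductor := by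
    rw [hc]; exact Dvd.intro_left κ rfl
  by_cases hcn : Nat.Coprime n (4 * d)
  · have h3 := g28_main d hd hs σ hσ χ' h2' hN1 hdc u0 hu0v hχu0 (ZMod.unitOfCoprime n hcn)
    rw [hχ'u, ZMod.coe_unitOfCoprime, ZMod.val_natCast, g28_mod _ _ (g28_natAbs hσ)] at h3
    rw [← h3]
    congr 1
    have h4 : ((n % (4 * d) : ℕ) : ZMod (κ * d)) = ((n : ℕ) : ZMod (κ * d)) := by
      rw [ZMod.natCast_eq_natCast_iff]
      exact (Nat.mod_modEq _ _).of_dvd hκ4
    rw [h4]
  · have h4 : ¬ Nat.Coprime n d := by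
      intro h
      apply hcn
      refine Nat.Coprime.mul_right ?_ h
      have : Nat.Coprime n (2 ^ 2) := Nat.Coprime.pow_right 2 (Nat.coprime_two_right.2 hn)
      exact this
    have h5 : χ n = 0 := by
      apply χ.map_nonunit
      intro h
      rw [ZMod.isUnit_iff_coprime] at h
      exact h4 (Nat.Coprime.coprime_dvd_right (Dvd.intro_left κ rfl) h)
    have h6 : jacobiSym (σ * d) n = 0 := by
      have : NeZero n := ⟨hn.pos.ne'⟩
      rw [jacobiSym.eq_zero_iff_not_coprime]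
      intro h
      apply h4
      rw [Int.gcd_eq_natAbs, Int.natAbs_natCast, g28_natAbs' hσ] at h
      exact (Nat.coprime_comm.1 h)
    rw [h5]
    unfold jr
    rw [if_pos hn, h6]
    simp

theorem char_eqG {m c ε : ℤ} {κ : ℕ} (hf : Fam m c ε κ) (σ : ℤ) (hσ : σ = 1 ∨ σ = -1) (d : ℕ)
    (hd : Odd d) (hs : Squarefree d) (hR : (σ * d) % m = c) [NeZero (κ * d)]
    (χ : DirichletCharacter ℂ (κ * d)) (hp : χ.IsPrimitive) (h2 : χ ^ 2 = 1) :
    (∀ n : ℕ, Odd n → χ n = (jr (σ * d) n : ℂ)) ∧ χ 2 = (ε : ℂ) ∧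
      ((σ = 1 ∧ χ.Even) ∨ (σ = -1 ∧ χ.Odd)) := by
  have hd0 := hd.pos
  have hκ : (κ = 4 ∧ (σ * d) % 4 = 3) ∨ (κ = 1 ∧ (σ * d) % 4 = 1) := by
    rcases hf with ⟨rfl, rfl, rfl, rfl⟩ | ⟨rfl, rfl, rfl, rfl⟩ | ⟨rfl, rfl, rfl, rfl⟩
    · exact Or.inl ⟨rfl, hR⟩
    · exact Or.inr ⟨rfl, by omega⟩
    · exact Or.inr ⟨rfl, by omega⟩
  have hodd := g28_odd d κ hd hs σ hσ hκ χ hp h2
  refine ⟨hodd, ?_, ?_⟩
  · rcases hf with ⟨rfl, rfl, rfl, rfl⟩ | ⟨rfl, rfl, rfl, rfl⟩ | ⟨rfl, rfl, rfl, rfl⟩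
    · have h3 : χ ((2 : ℕ) : ZMod (4 * d)) = 0 := by
        apply χ.map_nonunit
        intro h
        rw [ZMod.isUnit_iff_coprime] at h
        have h4 : Nat.Coprime 2 2 := Nat.Coprime.coprime_dvd_right ⟨2 * d, by ring⟩ h
        exact absurd h4 (by decide)
      rw [Nat.cast_ofNat] at h3
      rw [h3]
      simp
    · have h3 : (2 : ZMod (1 * d)) = ((d + 2 : ℕ) : ZMod (1 * d)) := by
        have h9 : ((d : ℕ) : ZMod (1 * d)) = 0 := by
          rw [ZMod.natCast_eq_zero_iff, one_mul]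
        push_cast
        rw [h9]
        simp
      rw [h3, hodd (d + 2) (by rw [Nat.odd_iff]; have := Nat.odd_iff.1 hd; omega),
        g28_valtwo hd hσ (Or.inl hR), if_pos hR]
      simp
    · have h3 : (2 : ZMod (1 * d)) = ((d + 2 : ℕ) : ZMod (1 * d)) := by
        have h9 : ((d : ℕ) : ZMod (1 * d)) = 0 := by
          rw [ZMod.natCast_eq_zero_iff, one_mul]
        push_cast
        rw [h9]
        simp
      rw [h3, hodd (d + 2) (by rw [Nat.odd_iff]; have := Nat.odd_iff.1 hd; omega),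
        g28_valtwo hd hσ (Or.inr hR), if_neg (by omega)]
      simp
  · have h3 : (-1 : ZMod (κ * d)) = ((4 * d - 1 : ℕ) : ZMod (κ * d)) := by
      have h9 : ((4 * d : ℕ) : ZMod (κ * d)) = 0 := by
        rw [ZMod.natCast_eq_zero_iff]
        rcases hκ with ⟨rfl, -⟩ | ⟨rfl, -⟩
        · exact dvd_rfl
        · exact ⟨4, by ring⟩
      rw [Nat.cast_sub (by omega), h9]
      simp
    have h4 : χ (-1) = (σ : ℂ) := by
      rw [h3, hodd (4 * d - 1) ⟨2 * d - 1, by omega⟩, g28_valneg hd hσ]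
      simp
    rcases hσ with rfl | rfl
    · left
      refine ⟨rfl, ?_⟩
      unfold DirichletCharacter.Even
      rw [h4]; simp
    · right
      refine ⟨rfl, ?_⟩
      unfold DirichletCharacter.Odd
      rw [h4]; simp

end Pool.Agent.MP0016c7.Rz
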