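import Mathlib
import Pool.Agent.Lib.MP_0016c7_nt.Rz.Defs
import Pool.Agent.Lib.MP_0016c7_nt.Rz.DefsC
import Pool.Agent.Lib.MP_0016c7_nt.Rz.DefsE
import Pool.Agent.Lib.MP_0016c7_nt.Rz.DefsF
import Pool.Agent.Lib.MP_0016c7_nt.Rz2.DefsG
import Pool.Agent.Lib.MP_0016c7_nt.Rz.Gauss0
import Pool.Agent.Lib.MP_0016c7_nt.Rz.Gauss1
import Pool.Agent.Lib.MP_0016c7_nt.Rz.Rt1
import Pool.Agent.Lib.MP_0016c7_nt.Rz2.CharG

set_option autoImplicit false

/-!
The Gauss sums of the families.
-/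

open Finset MeasureTheory Filter Topology
open scoped Real ContDiff

namespace Pool.Agent.MP0016c7.Rz

private theorem gG_exp (u : ℕ) : Complex.exp (2 * π * Complex.I * (u / 4)) =
    Complex.I ^ u := by
  have h1 : Complex.exp (2 * π * Complex.I / 4) = Complex.I := by
    rw [show (2 * π * Complex.I / 4 : ℂ) = π / 2 * Complex.I by ring]
    exact Complex.exp_pi_div_two_mul_I
  calc Complex.exp (2 * π * Complex.I * (u / 4))
      = Complex.exp (u * (2 * π * Complex.I / 4)) := by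
        congr 1
        ring
    _ = Complex.exp (2 * π * Complex.I / 4) ^ u := Complex.exp_nat_mul _ _
    _ = Complex.I ^ u := by rw [h1]

/-- the coefficients modulo 4 -/
private def gGc (σ : ℤ) (u : ℕ) : ℤ :=
  if u % 4 = 1 then -σ else if u % 4 = 3 then σ else 0

private theorem gG_sum (σ : ℤ) :
    ∑ u ∈ range 4, (gGc σ u : ℂ) * Complex.exp (2 * π * Complex.I * (u / 4)) =
      -2 * (σ : ℂ) * Complex.I := by
  simp only [gG_exp, sum_range_succ, range_zero, sum_empty]
  simp only [gGc]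
  norm_num
  ring

private theorem gG_val (d : ℕ) (hd : Odd d) (σ : ℤ) (hσ : σ = 1 ∨ σ = -1)
    (hR : (σ * d) % 4 = 3) (u v : ℕ) :
    jr (σ * d) (d * u + 4 * v) = (gGc σ u : ℝ) * jr v d := by
  rcases Nat.even_or_odd u with hu | hu
  · have h1 : ¬ Odd (d * u + 4 * v) := by
      rw [Nat.not_odd_iff_even]
      exact (hu.mul_left d).add ((show Even 4 by decide).mul_right v)
    unfold jr
    rw [if_neg h1]
    have h2 : u % 2 = 0 := Nat.even_iff.1 hu
    unfold gGc
    rw [if_neg (by omega), if_neg (by omega), Int.cast_zero, zero_mul]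
  have hn : Odd (d * u + 4 * v) := (hd.mul hu).add_even ((show Even 4 by decide).mul_right v)
  set n := d * u + 4 * v with hndef
  have hn4 : n % 4 = (d % 4 * u) % 4 := by
    rw [hndef, Nat.add_mul_mod_self_left, Nat.mod_mul_mod]
  have hu2 : u % 4 = 1 ∨ u % 4 = 3 := by
    have := Nat.odd_iff.1 hu
    omega
  have e3 : jacobiSym n d = jacobiSym v d := by
    have h1 : ((n : ℕ) : ℤ) % (d : ℕ) = (4 * v : ℤ) % (d : ℕ) := by
      rw [hndef]
      push_cast
      rw [Int.add_comm, Int.add_mul_emod_self_left]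
    rw [jacobiSym.mod_left' h1, show (4 * v : ℤ) = 2 ^ 2 * v by ring, jacobiSym.mul_left,
      jacobiSym.pow_left, jacobiSym.sq_one, one_mul]
    have h2 : Nat.gcd 2 d = 1 := (Nat.coprime_two_left (n := d)).2 hd
    simpa [Int.gcd] using h2
  have e4 : jr v d = ((jacobiSym v d : ℤ) : ℝ) := by
    unfold jr
    rw [if_pos hd]
  have e1 : jr (σ * d) n = ((jacobiSym σ n * jacobiSym d n : ℤ) : ℝ) := by
    unfold jr
    rw [if_pos hn, jacobiSym.mul_left]
  rcases hσ with rfl | rfl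
  · have hd4 : d % 4 = 3 := by omega
    have hnu : n % 4 = (3 * u) % 4 := by rw [hn4, hd4]
    rw [e1, e4, jacobiSym.one_left, one_mul]
    rcases hu2 with h | h
    · have h1 : n % 4 = 3 := by omega
      rw [jacobiSym.quadratic_reciprocity_three_mod_four hd4 h1, e3]
      unfold gGc
      rw [if_pos h]
      push_cast
      ring
    · have h1 : n % 4 = 1 := by omega
      rw [jacobiSym.quadratic_reciprocity_one_mod_four' hd h1, e3]
      unfold gGc
      rw [if_neg (by omega), if_pos h]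
      push_cast
      ring
  · have hd4 : d % 4 = 1 := by omega
    have hnu : n % 4 = u % 4 := by rw [hn4, hd4, one_mul]
    rw [e1, e4, jacobiSym.quadratic_reciprocity_one_mod_four hd4 hn, e3,
      jacobiSym.at_neg_one hn, ZMod.χ₄_nat_eq_if_mod_four]
    have hno : ¬ n % 2 = 0 := by
      have := Nat.odd_iff.1 hn
      omega
    rw [if_neg hno]
    rcases hu2 with h | h
    · unfold gGc
      rw [if_pos (by omega), if_pos h]
      push_cast
      ring
    · unfold gGc
      rw [if_neg (by omega), if_neg (by omega), if_pos h]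
      push_cast
      ring

/-- the Gauss sum modulo `4 d` -/
private theorem gG_four (d : ℕ) (hd : Odd d) (hs : Squarefree d) [NeZero (4 * d)] (σ : ℤ)
    (hσ : σ = 1 ∨ σ = -1) (hR : (σ * d) % 4 = 3) (χ : DirichletCharacter ℂ (4 * d))
    (hχ : ∀ n : ℕ, χ n = (jr (σ * d) n : ℂ)) :
    gaussSum χ ZMod.stdAddChar = (√(4 * d : ℝ) : ℂ) * (if σ = 1 then 1 else Complex.I) := by
  have hd0 : 0 < d := hd.pos
  have hdr : (0 : ℝ) < d := by exact_mod_cast hd0
  have hdc : (d : ℂ) ≠ 0 := by exact_mod_cast hd0.ne'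
  have hcop : Nat.Coprime 4 d := by
    have h1 : Nat.Coprime 2 d := (Nat.coprime_two_left (n := d)).2 hd
    have h2 : Nat.Coprime (2 ^ 2) d := Nat.Coprime.pow_left 2 h1
    simpa using h2
  -- the sum over pairs
  have hinj : Set.InjOn (fun p : ℕ × ℕ => ((d * p.1 + 4 * p.2 : ℕ) : ZMod (4 * d)))
      ((range 4 ×ˢ range d : Finset (ℕ × ℕ)) : Set (ℕ × ℕ)) := by
    rintro ⟨u, v⟩ hp ⟨u', v'⟩ hp' h
    simp only [coe_product, Set.mem_prod, mem_coe, mem_range] at hp hp'
    have h1 : d * u + 4 * v ≡ d * u' + 4 * v' [MOD 4 * d] :=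
      (ZMod.natCast_eq_natCast_iff _ _ _).1 h
    have h2 : d * u ≡ d * u' [MOD 4] := by
      have h3 := h1.of_mul_right d
      unfold Nat.ModEq at h3 ⊢
      rwa [Nat.add_mul_mod_self_left, Nat.add_mul_mod_self_left] at h3
    have h4 : 4 * v ≡ 4 * v' [MOD d] := by
      have h3 := h1.of_mul_left 4
      unfold Nat.ModEq at h3 ⊢
      rwa [Nat.mul_add_mod, Nat.mul_add_mod] at h3
    have h5 : u = u' := Nat.ModEq.eq_of_lt_of_lt (Nat.ModEq.cancel_left_of_coprime hcop h2)
      hp.1 hp'.1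
    have h6 : v = v' := Nat.ModEq.eq_of_lt_of_lt
      (Nat.ModEq.cancel_left_of_coprime hcop.symm h4) hp.2 hp'.2
    rw [h5, h6]
  have hsum : ∀ f : ZMod (4 * d) → ℂ, ∑ a, f a =
      ∑ p ∈ range 4 ×ˢ range d, f ((d * p.1 + 4 * p.2 : ℕ) : ZMod (4 * d)) := by
    intro f
    symm
    refine Finset.sum_nbij (fun p : ℕ × ℕ => ((d * p.1 + 4 * p.2 : ℕ) : ZMod (4 * d)))
      (fun _ _ => mem_univ _) hinj ?_ (fun _ _ => rfl)
    refine Finset.surjOn_of_injOn_of_card_le _ (fun _ _ => mem_coe.2 (mem_univ _)) hinj ?_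
    rw [card_univ, ZMod.card, card_product, card_range, card_range]
  have hterm : ∀ p ∈ range 4 ×ˢ range d, χ ((d * p.1 + 4 * p.2 : ℕ) : ZMod (4 * d)) *
      ZMod.stdAddChar ((d * p.1 + 4 * p.2 : ℕ) : ZMod (4 * d)) =
      ((gGc σ p.1 : ℂ) * Complex.exp (2 * π * Complex.I * (p.1 / 4))) *
      ((jr p.2 d : ℂ) * Complex.exp (2 * π * Complex.I * (p.2 * (1 : ℤ) / d))) := by
    rintro ⟨u, v⟩ -
    have h1 := ZMod.stdAddChar_coe (N := 4 * d) ((d * u + 4 * v : ℕ) : ℤ)
    rw [Int.cast_natCast] at h1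
    simp only
    rw [h1, hχ, gG_val d hd σ hσ hR u v]
    have h2 : (2 * π * Complex.I * (((d * u + 4 * v : ℕ) : ℤ) : ℂ) / ((4 * d : ℕ) : ℂ)) =
        2 * π * Complex.I * (u / 4) + 2 * π * Complex.I * (v * ((1 : ℤ) : ℂ) / d) := by
      push_cast
      field_simp
    rw [h2, Complex.exp_add]
    push_cast
    ring
  unfold gaussSum
  rw [hsum, Finset.sum_congr rfl hterm, Finset.sum_product]
  simp only
  simp only [← Finset.mul_sum]
  rw [← Finset.sum_mul, gG_sum σ]
  have hg := gauss_sum_jr d hd hs 1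
  have hj1 : jr 1 d = 1 := by
    unfold jr
    rw [if_pos hd, jacobiSym.one_left, Int.cast_one]
  rw [hj1] at hg
  have hg' : ∑ i ∈ range d, (jr i d : ℂ) * Complex.exp (2 * π * Complex.I * (i * ((1 : ℤ) : ℂ) / d)) =
      ((1 : ℝ) : ℂ) * (√(d : ℝ) : ℂ) * (if d % 4 = 1 then 1 else Complex.I) := hg
  rw [hg']
  have h8 : √(4 * d : ℝ) = 2 * √(d : ℝ) := by
    rw [Real.sqrt_mul (by norm_num), show (4 : ℝ) = 2 ^ 2 by norm_num,
      Real.sqrt_sq (by norm_num)]
  rw [h8]
  rcases hσ with rfl | rfl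
  · have hd4 : ¬ d % 4 = 1 := by omega
    rw [if_neg hd4, if_pos rfl]
    push_cast
    linear_combination (-(2 * (√(d : ℝ) : ℂ))) * Complex.I_sq
  · have hd4 : d % 4 = 1 := by omega
    rw [if_pos hd4, if_neg (by norm_num)]
    push_cast
    ring

/-- the Gauss sum modulo `d` -/
private theorem gG_one (D d : ℕ) (hD : d = D) (hd : Odd d) (hs : Squarefree d) [NeZero D] (σ : ℤ)
    (hσ : σ = 1 ∨ σ = -1) (hR : (σ * d) % 4 = 1) (χ : DirichletCharacter ℂ D)
    (hχ : ∀ n : ℕ, Odd n → χ n = (jr (σ * d) n : ℂ)) :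
    gaussSum χ ZMod.stdAddChar = (√(d : ℝ) : ℂ) * (if σ = 1 then 1 else Complex.I) := by
  subst hD
  have hodd : ∀ n : ℕ, Odd n → χ n = (jr n d : ℂ) := by
    intro n hn
    rw [hχ n hn]
    congr 1
    have e4 : jr n d = ((jacobiSym n d : ℤ) : ℝ) := by
      unfold jr
      rw [if_pos hd]
    have e1 : jr (σ * d) n = ((jacobiSym σ n * jacobiSym d n : ℤ) : ℝ) := by
      unfold jr
      rw [if_pos hn, jacobiSym.mul_left]
    rw [e1, e4]
    congr 1
    rcases hσ with rfl | rfl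
    · have hd4 : d % 4 = 1 := by omega
      rw [jacobiSym.one_left, one_mul, jacobiSym.quadratic_reciprocity_one_mod_four hd4 hn]
    · have hd4 : d % 4 = 3 := by omega
      rw [jacobiSym.at_neg_one hn, ZMod.χ₄_nat_eq_if_mod_four]
      have hno : ¬ n % 2 = 0 := by
        have := Nat.odd_iff.1 hn
        omega
      rw [if_neg hno]
      rcases Nat.odd_mod_four_iff.1 (Nat.odd_iff.1 hn) with h | h
      · rw [if_pos h, one_mul, jacobiSym.quadratic_reciprocity_one_mod_four' hd h]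
      · rw [if_neg (by omega), jacobiSym.quadratic_reciprocity_three_mod_four hd4 h]
        ring
  have hall : ∀ n : ℕ, χ n = (jr n d : ℂ) := by
    intro n
    rcases Nat.even_or_odd n with hn | hn
    · have h1 := hodd (n + d) (hn.add_odd hd)
      have h2 : ((n + d : ℕ) : ZMod d) = (n : ZMod d) := by
        push_cast
        rw [ZMod.natCast_self, add_zero]
      rw [h2] at h1
      rw [h1]
      congr 1
      unfold jr
      rw [if_pos hd, if_pos hd]
      congr 1
      apply jacobiSym.mod_left'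
      push_cast
      rw [Int.add_emod_right]
    · exact hodd n hn
  have hsum : ∀ f : ZMod d → ℂ, ∑ a, f a = ∑ b ∈ range d, f (b : ZMod d) := by
    intro f
    symm
    refine Finset.sum_nbij' (fun b => (b : ZMod d)) (fun x => x.val) ?_ ?_ ?_ ?_ ?_
    · simp
    · intro x _
      simpa using ZMod.val_lt x
    · intro b hb
      exact ZMod.val_natCast_of_lt (mem_range.1 hb)
    · intro x _
      exact ZMod.natCast_zmod_val x
    · simp
  unfold gaussSum
  rw [hsum]
  have hg := gauss_sum_jr d hd hs 1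
  have hj1 : jr 1 d = 1 := by
    unfold jr
    rw [if_pos hd, jacobiSym.one_left, Int.cast_one]
  rw [hj1] at hg
  have hterm : ∀ b ∈ range d, χ (b : ZMod d) * ZMod.stdAddChar (b : ZMod d) =
      (jr b d : ℂ) * Complex.exp (2 * π * Complex.I * (b * (1 : ℤ) / d)) := by
    intro b _
    have h1 := ZMod.stdAddChar_coe (N := d) (b : ℤ)
    rw [Int.cast_natCast] at h1
    rw [h1, hall]
    congr 2
    push_cast
    ring
  rw [Finset.sum_congr rfl hterm]
  have hg' : ∑ i ∈ range d, (jr i d : ℂ) * Complex.exp (2 * π * Complex.I * (i * ((1 : ℤ) : ℂ) / d)) =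
      ((1 : ℝ) : ℂ) * (√(d : ℝ) : ℂ) * (if d % 4 = 1 then 1 else Complex.I) := hg
  rw [hg']
  rcases hσ with rfl | rfl
  · have hd4 : d % 4 = 1 := by omega
    rw [if_pos hd4, if_pos rfl, Complex.ofReal_one, one_mul]
  · have hd4 : ¬ d % 4 = 1 := by omega
    rw [if_neg hd4, if_neg (by norm_num), Complex.ofReal_one, one_mul]

theorem gaussG {m c ε : ℤ} {κ : ℕ} (hf : Fam m c ε κ) (σ : ℤ) (hσ : σ = 1 ∨ σ = -1) (d : ℕ)
    (hd : Odd d) (hs : Squarefree d) (hR : (σ * d) % m = c) [NeZero (κ * d)]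
    (χ : DirichletCharacter ℂ (κ * d)) (hp : χ.IsPrimitive) (h2 : χ ^ 2 = 1) :
    gaussSum χ ZMod.stdAddChar = (√(κ * d : ℝ) : ℂ) * (if σ = 1 then 1 else Complex.I) := by
  obtain ⟨h1, hε, -⟩ := char_eqG hf σ hσ d hd hs hR χ hp h2
  rcases hf with ⟨rfl, rfl, rfl, rfl⟩ | ⟨rfl, rfl, rfl, rfl⟩ | ⟨rfl, rfl, rfl, rfl⟩
  · have hall : ∀ n : ℕ, χ n = (jr (σ * d) n : ℂ) := by
      intro n
      rcases Nat.even_or_odd n with hn | hn
      · obtain ⟨k, rfl⟩ := hn.two_dvd
        have h3 : χ ((2 * k : ℕ) : ZMod (4 * d)) = 0 := by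
          push_cast
          rw [map_mul, hε]
          simp
        rw [h3]
        unfold jr
        rw [if_neg (by rw [Nat.not_odd_iff_even]; exact even_two_mul k)]
        simp
      · exact h1 n hn
    have := gG_four d hd hs σ hσ hR χ hall
    simpa using this
  · have hR' : (σ * d) % 4 = 1 := by omega
    have := gG_one (1 * d) d (one_mul d).symm hd hs σ hσ hR' χ h1
    simpa using this
  · have hR' : (σ * d) % 4 = 1 := by omega
    have := gG_one (1 * d) d (one_mul d).symm hd hs σ hσ hR' χ h1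
    simpa using this

end Pool.Agent.MP0016c7.Rz
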