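import Mathlib
import Pool.Agent.Lib.MP_0016c7_nt.Rz.Defs
import Pool.Agent.Lib.MP_0016c7_nt.Rz.FtS
import Pool.Agent.Lib.MP_0016c7_nt.Rz.ErrD5

set_option autoImplicit false

/-!
Mellin transform of `Ft` with arbitrary decay (D17).
-/

open Finset MeasureTheory Filter Topology
open scoped Real ContDiff

namespace Pool.Agent.MP0016c7.Rz

open ErrD5 in
open scoped SchwartzMap FourierTransform in
theorem Ft_mellin' {F : ℝ → ℝ} {a b : ℝ} (hF : Bump F a b) (σ : ℤ) :
    ∃ f : ℝ → ℂ, (∀ B : ℕ, Integrable (fun τ => ‖f τ‖ * (1 + |τ|) ^ B)) ∧ Continuous f ∧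
      ∀ t : ℝ, 0 < t → (Ft F σ t : ℂ) =
        ∫ τ : ℝ, f τ * (t : ℂ) ^ (-(1 / 2 : ℂ) - Complex.I * τ) := by
  obtain ⟨ψ, hψ⟩ := Ft_schwartz hF σ
  obtain ⟨φ, hφ⟩ := schwartz_exp ψ
  set Ψ : SchwartzMap ℝ ℂ := 𝓕 φ with hΨ
  have hpi : (0 : ℝ) < 2 * π := by positivity
  have hne : (-(1 / (2 * π)) : ℝ) ≠ 0 := by
    have : (1 / (2 * π) : ℝ) ≠ 0 := by positivity
    exact neg_ne_zero.2 this
  refine ⟨fun τ => (1 / (2 * π) : ℝ) * Ψ (-(1 / (2 * π)) * τ), ?_, ?_, ?_⟩
  · intro B
    have H : Integrable (fun v : ℝ => ‖((1 / (2 * π) : ℝ) : ℂ) * Ψ v‖ * (1 + |2 * π * v|) ^ B) := by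
      have i0 := SchwartzMap.integrable_pow_mul volume Ψ 0
      have i1 := SchwartzMap.integrable_pow_mul volume Ψ B
      have I : Integrable (fun v : ℝ => (1 / (2 * π)) * 2 ^ B * (‖v‖ ^ 0 * ‖Ψ v‖ +
          (2 * π) ^ B * (‖v‖ ^ B * ‖Ψ v‖))) :=
        (i0.add (i1.const_mul ((2 * π) ^ B))).const_mul _
      refine I.mono' ?_ (Eventually.of_forall fun v => ?_)
      · refine Continuous.aestronglyMeasurable ?_
        have := Ψ.continuous
        fun_prop
      · rw [norm_mul, norm_norm, norm_mul, Complex.norm_real, Real.norm_eq_abs,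
          Real.norm_eq_abs, abs_of_pos (by positivity : (0 : ℝ) < 1 / (2 * π)),
          abs_of_nonneg (by positivity : (0 : ℝ) ≤ (1 + |2 * π * v|) ^ B), abs_mul,
          abs_of_pos hpi, pow_zero, one_mul, Real.norm_eq_abs]
        have h1 : (1 + 2 * π * |v|) ^ B ≤ 2 ^ B * (1 + (2 * π * |v|) ^ B) := by
          have h2 : (0 : ℝ) ≤ 2 * π * |v| := by positivity
          rcases le_total (2 * π * |v|) 1 with h3 | h3
          · have h4 : (1 + 2 * π * |v|) ^ B ≤ 2 ^ B := by
              gcongr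
              linarith
            have h5 : (0 : ℝ) ≤ 2 ^ B * (2 * π * |v|) ^ B := by positivity
            nlinarith
          · have h4 : (1 + 2 * π * |v|) ^ B ≤ (2 * (2 * π * |v|)) ^ B := by
              gcongr
              linarith
            rw [mul_pow] at h4
            have h5 : (0 : ℝ) ≤ (2 : ℝ) ^ B := by positivity
            nlinarith
        have h6 : 0 ≤ 1 / (2 * π) * ‖Ψ v‖ := by positivity
        have h7 := mul_le_mul_of_nonneg_left h1 h6
        rw [mul_pow (2 * π)] at h7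
        refine h7.trans (le_of_eq ?_)
        ring
    have H2 := H.comp_mul_left' hne
    refine H2.congr (Eventually.of_forall fun τ => ?_)
    simp only
    have e0 : |2 * π * (-(1 / (2 * π)) * τ)| = |τ| := by
      rw [show 2 * π * (-(1 / (2 * π)) * τ) = -τ by field_simp, abs_neg]
    rw [e0]
  · have := Ψ.continuous
    fun_prop
  · intro t ht
    have hx := hφ (Real.log t)
    rw [Real.exp_log ht, hψ] at hx
    have hinv : φ (Real.log t) = 𝓕⁻ (Ψ : ℝ → ℂ) (Real.log t) := by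
      have h1 : 𝓕⁻ (𝓕 (φ : ℝ → ℂ)) = φ :=
        φ.continuous.fourierInv_fourier_eq φ.integrable (by
          rw [← SchwartzMap.fourier_coe]; exact (𝓕 φ).integrable)
      rw [hΨ, SchwartzMap.fourier_coe, h1]
    rw [Real.fourierInv_eq'] at hinv
    have hcomp := Measure.integral_comp_mul_left
      (fun v : ℝ => Complex.exp (↑(2 * π * inner ℝ v (Real.log t)) * Complex.I) • Ψ v)
      (-(1 / (2 * π)))
    rw [show |(-(1 / (2 * π)))⁻¹| = 2 * π by
      rw [abs_inv, abs_neg, abs_of_pos (by positivity)]; field_simp] at hcomp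
    have hE : (Real.exp (Real.log t / 2) : ℂ) ≠ 0 := by exact_mod_cast (Real.exp_pos _).ne'
    have key : (Ft F σ t : ℂ) = (Real.exp (Real.log t / 2) : ℂ)⁻¹ * φ (Real.log t) := by
      rw [hx]
      push_cast
      field_simp
    rw [key, hinv]
    have h3 : (∫ v : ℝ, Complex.exp (↑(2 * π * inner ℝ v (Real.log t)) * Complex.I) • Ψ v) =
        ((1 / (2 * π) : ℝ) : ℂ) * ∫ τ : ℝ, Complex.exp (↑(2 * π *
          inner ℝ (-(1 / (2 * π)) * τ) (Real.log t)) * Complex.I) • Ψ (-(1 / (2 * π)) * τ) := by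
      rw [hcomp]
      rw [Complex.real_smul, ← mul_assoc]
      have : ((1 / (2 * π) : ℝ) : ℂ) * ((2 * π : ℝ) : ℂ) = 1 := by
        rw [← Complex.ofReal_mul]
        rw [show (1 / (2 * π) : ℝ) * (2 * π) = 1 by field_simp]
        simp
      rw [this, one_mul]
    rw [h3, ← mul_assoc, ← integral_const_mul]
    congr 1
    funext τ
    have e1 : (t : ℂ) ^ (-(1 / 2 : ℂ) - Complex.I * τ) =
        (Real.exp (Real.log t / 2) : ℂ)⁻¹ *
          Complex.exp (↑(2 * π * inner ℝ (-(1 / (2 * π)) * τ) (Real.log t)) * Complex.I) := by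
      rw [Complex.cpow_def_of_ne_zero (by exact_mod_cast ht.ne'), ← Complex.ofReal_log ht.le,
        Complex.ofReal_exp, ← Complex.exp_neg, ← Complex.exp_add]
      congr 1
      have e2 : 2 * π * inner ℝ (-(1 / (2 * π)) * τ) (Real.log t) = - τ * Real.log t := by
        simp only [RCLike.inner_apply, conj_trivial]
        field_simp
      rw [e2]
      push_cast
      ring
    rw [e1, smul_eq_mul]
    ring

end Pool.Agent.MP0016c7.Rz
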