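import Mathlib
import Pool.Agent.Lib.MP_0016c7_nt.Rz.Defs
import Pool.Agent.Lib.MP_0016c7_nt.Rz.DefsC
import Pool.Agent.Lib.MP_0016c7_nt.Rz.DefsE
import Pool.Agent.Lib.MP_0016c7_nt.Rz.DefsF
import Pool.Agent.Lib.MP_0016c7_nt.Rz2.DefsG
import Pool.Agent.Lib.MP_0016c7_nt.Rz.Ker1
import Pool.Agent.Lib.MP_0016c7_nt.Rz.KerPhi
import Pool.Agent.Lib.MP_0016c7_nt.Rz.DetL
import Pool.Agent.Lib.MP_0016c7_nt.Rz2.YS1

set_option autoImplicit false

/-!
The deterministic range, families.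
-/

open Finset MeasureTheory Filter Topology
open scoped Real ContDiff

namespace Pool.Agent.MP0016c7.Rz

/-! ### The alternating geometric average -/

private lemma ds_a_sq : (1 / √2 : ℝ) ^ 2 = 1 / 2 := by
  rw [div_pow, Real.sq_sqrt (by norm_num)]
  norm_num

private lemma ds_a_pos : (0 : ℝ) < 1 / √2 := by positivity

private lemma ds_a_lt : (1 / √2 : ℝ) < 1 := by
  have h := ds_a_sq
  have h1 := ds_a_pos
  nlinarith only [h, h1]

private lemma ds_abs_eps {ε : ℤ} (hε : ε = 0 ∨ ε = 1 ∨ ε = -1) : |(ε : ℝ)| ≤ 1 := by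
  rcases hε with h | h | h <;> rw [h] <;> norm_num

private lemma ds_coef {ε : ℤ} (hε : ε = 0 ∨ ε = 1 ∨ ε = -1) (j : ℕ) :
    |(ε : ℝ) ^ j / √2 ^ j| ≤ (1 / √2) ^ j := by
  rw [abs_div, abs_pow, abs_of_nonneg (by positivity : (0 : ℝ) ≤ √2 ^ j), div_pow, one_pow]
  gcongr
  exact pow_le_one₀ (abs_nonneg _) (ds_abs_eps hε)

private lemma ds_summable_geo : Summable (fun j : ℕ => (1 / √2 : ℝ) ^ j) :=
  summable_geometric_of_lt_one ds_a_pos.le ds_a_lt

private lemma ds_tsum_geo : ∑' j : ℕ, (1 / √2 : ℝ) ^ j = (1 - 1 / √2)⁻¹ :=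
  tsum_geometric_of_lt_one ds_a_pos.le ds_a_lt

private lemma ds_const {ε : ℤ} (hε : ε = 0 ∨ ε = 1 ∨ ε = -1) :
    |1 - (ε : ℝ) / √2| * (1 - 1 / √2)⁻¹ ≤ 6 := by
  have h1 : |1 - (ε : ℝ) / √2| ≤ 1 + 1 / √2 := by
    have h2 : |(ε : ℝ) / √2| ≤ 1 / √2 := by
      rw [abs_div, abs_of_nonneg (Real.sqrt_nonneg 2)]
      gcongr
      exact ds_abs_eps hε
    calc |1 - (ε : ℝ) / √2| ≤ |(1 : ℝ)| + |(ε : ℝ) / √2| := abs_sub _ _
      _ ≤ 1 + 1 / √2 := by rw [abs_one]; linarith only [h2]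
  have h3 : 0 < 1 - 1 / √2 := by linarith only [ds_a_lt]
  rw [← div_eq_mul_inv, div_le_iff₀ h3]
  refine h1.trans ?_
  have h4 := ds_a_sq
  have h5 := ds_a_pos
  nlinarith only [h4, h3, h5]

private lemma ds_low {ε : ℤ} (hε : ε = 0 ∨ ε = 1 ∨ ε = -1) (f : ℕ → ℝ) (hf : Antitone f)
    (h0 : ∀ j, 0 ≤ f j) (M : ℕ) :
    (1 - (1 / 2) ^ M) * f (2 * M) ≤ (1 - (ε : ℝ) / √2) * ∑' j : ℕ, (ε : ℝ) ^ j / √2 ^ j * f j := by
  have hM0 : (0 : ℝ) ≤ (1 / 2) ^ M := by positivity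
  rcases eq_or_ne ε 0 with h | h
  · have e1 : ∑' j : ℕ, (ε : ℝ) ^ j / √2 ^ j * f j = f 0 := by
      rw [tsum_eq_single 0]
      · simp
      · intro j hj
        rw [h]
        simp [hj]
    rw [e1, h]
    simp only [Int.cast_zero, zero_div, sub_zero, one_mul]
    have h1 : f (2 * M) ≤ f 0 := hf (Nat.zero_le _)
    have h2 := h0 (2 * M)
    nlinarith only [h1, hM0, h2]
  · have hε2 : (ε : ℝ) ^ 2 = 1 := by
      rcases hε with h1 | h1 | h1
      · exact absurd h1 h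
      · rw [h1]; norm_num
      · rw [h1]; norm_num
    obtain ⟨a, ha⟩ : ∃ a : ℝ, a = 1 / √2 := ⟨_, rfl⟩
    have ha2 : a ^ 2 = 1 / 2 := by rw [ha]; exact ds_a_sq
    have ha0 : 0 < a := by rw [ha]; exact ds_a_pos
    have ha1 : a < 1 := by rw [ha]; exact ds_a_lt
    have hg : ∀ j : ℕ, (ε : ℝ) ^ j / √2 ^ j * f j = ((ε : ℝ) * a) ^ j * f j := by
      intro j
      rw [ha, mul_pow, div_pow, one_pow]
      ring
    have hb2 : ((ε : ℝ) * a) ^ 2 = 1 / 2 := by rw [mul_pow, hε2, ha2]; ring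
    simp_rw [hg]
    have hsum : Summable (fun j : ℕ => ((ε : ℝ) * a) ^ j * f j) := by
      refine ((summable_geometric_of_lt_one ha0.le ha1).mul_right (f 0)).of_norm_bounded ?_
      intro j
      rw [norm_mul, norm_pow, norm_mul, Real.norm_of_nonneg ha0.le, Real.norm_of_nonneg (h0 j)]
      have h1 : ‖(ε : ℝ)‖ * a ≤ a := by
        have := ds_abs_eps hε
        rw [Real.norm_eq_abs]
        nlinarith only [ha0, this]
      have h2 : f j ≤ f 0 := hf (Nat.zero_le _)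
      have h3 := h0 j
      (clear * - ha0 h1 h2 h3; gcongr)
    have he : Summable (fun m : ℕ => ((ε : ℝ) * a) ^ (2 * m) * f (2 * m)) :=
      hsum.comp_injective (i := fun m : ℕ => 2 * m) (fun x y hxy => by simpa using hxy)
    have ho : Summable (fun m : ℕ => ((ε : ℝ) * a) ^ (2 * m + 1) * f (2 * m + 1)) :=
      hsum.comp_injective (i := fun m : ℕ => 2 * m + 1) (fun x y hxy => by simpa using hxy)
    rw [← tsum_even_add_odd (f := fun j : ℕ => ((ε : ℝ) * a) ^ j * f j) he ho, ← he.tsum_add ho,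
      ← tsum_mul_left]
    have hca : (1 - (ε : ℝ) / √2) = 1 - (ε : ℝ) * a := by rw [ha]; ring
    rw [hca]
    have hterm : ∀ m : ℕ, (1 - (ε : ℝ) * a) * (((ε : ℝ) * a) ^ (2 * m) * f (2 * m) +
        ((ε : ℝ) * a) ^ (2 * m + 1) * f (2 * m + 1)) =
        (1 / 2) ^ m * ((1 - (ε : ℝ) * a) * (f (2 * m) + (ε : ℝ) * a * f (2 * m + 1))) := by
      intro m
      rw [pow_succ, pow_mul, hb2]
      ring
    have hpair : ∀ m : ℕ, 1 / 2 * f (2 * m + 1) ≤
        (1 - (ε : ℝ) * a) * (f (2 * m) + (ε : ℝ) * a * f (2 * m + 1)) := by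
      intro m
      have h1 : f (2 * m + 1) ≤ f (2 * m) := hf (by omega)
      have h2 := h0 (2 * m + 1)
      have h3 : 0 < 1 - (ε : ℝ) * a := by
        rcases hε with h' | h' | h'
        · exact absurd h' h
        · rw [h']; push_cast; linarith only [ha1]
        · rw [h']; push_cast; linarith only [ha0, ha1]
      have h4 : (1 - (ε : ℝ) * a) * (1 + (ε : ℝ) * a) = 1 / 2 := by
        have : (1 - (ε : ℝ) * a) * (1 + (ε : ℝ) * a) = 1 - ((ε : ℝ) * a) ^ 2 := by ring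
        rw [this, hb2]
        norm_num
      have h5 : (1 - (ε : ℝ) * a) * (f (2 * m) + (ε : ℝ) * a * f (2 * m + 1)) =
          (1 - (ε : ℝ) * a) * (f (2 * m) - f (2 * m + 1)) +
          ((1 - (ε : ℝ) * a) * (1 + (ε : ℝ) * a)) * f (2 * m + 1) := by ring
      rw [h5, h4]
      have h6 : 0 ≤ (1 - (ε : ℝ) * a) * (f (2 * m) - f (2 * m + 1)) :=
        mul_nonneg h3.le (by linarith only [h1])
      linarith only [h6]
    have hs2 : Summable (fun m : ℕ => (1 - (ε : ℝ) * a) * (((ε : ℝ) * a) ^ (2 * m) * f (2 * m) +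
        ((ε : ℝ) * a) ^ (2 * m + 1) * f (2 * m + 1))) := (he.add ho).mul_left _
    have hfin : ∑ m ∈ Finset.range M, (1 / 2 : ℝ) ^ m * (1 / 2 * f (2 * M)) =
        (1 - (1 / 2) ^ M) * f (2 * M) := by
      rw [← Finset.sum_mul, geom_sum_eq (by norm_num)]
      ring
    rw [← hfin]
    refine le_trans (Finset.sum_le_sum fun m hm => ?_) (hs2.sum_le_tsum (Finset.range M) ?_)
    · rw [hterm m]
      have hm' := Finset.mem_range.mp hm
      have h1 : f (2 * M) ≤ f (2 * m + 1) := hf (by omega)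
      have h2 := hpair m
      exact mul_le_mul_of_nonneg_left (by linarith only [h1, h2]) (by positivity)
    · intro m _
      rw [hterm m]
      have h2 := hpair m
      have h3 := h0 (2 * m + 1)
      exact mul_nonneg (by positivity) (by linarith only [h2, h3])

/-! ### The averaged function `Φ` -/

/-- The function replacing `kpPhi` for the families. -/
noncomputable def dsPhi (ε σ : ℤ) (d : ℕ) (h : ℝ → ℝ) (L t : ℝ) : ℝ :=
  (1 - (ε : ℝ) / √2) * ∑' j : ℕ, (ε : ℝ) ^ j / √2 ^ j *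
    kpPhi σ (2 * d) h L (t + j * (Real.log 2 / L))

private lemma ds_term_le {h : ℝ → ℝ} {θ L : ℝ} (hh : Bump h 0 θ) (hL : 0 < L) {ε : ℤ}
    (hε : ε = 0 ∨ ε = 1 ∨ ε = -1) (σ : ℤ) (d : ℕ) (t : ℝ) (j : ℕ) :
    |(ε : ℝ) ^ j / √2 ^ j * kpPhi σ (2 * d) h L (t + j * (Real.log 2 / L))| ≤
      (1 / √2) ^ j * (2 * (∫ x, |h x|) * Real.exp (3 * θ * L) * Real.exp (-2 * t * L)) := by
  have hI : 0 ≤ ∫ x, |h x| := integral_nonneg fun x => abs_nonneg _
  rw [abs_mul]
  have h1 := abs_kpPhi_le hh hL σ (2 * d) (t + j * (Real.log 2 / L))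
  have h2 : Real.exp (-2 * (t + j * (Real.log 2 / L)) * L) ≤ Real.exp (-2 * t * L) := by
    apply Real.exp_le_exp.mpr
    have h3 : 0 ≤ (j : ℝ) * (Real.log 2 / L) * L := by
      have := Real.log_pos (by norm_num : (1 : ℝ) < 2)
      positivity
    nlinarith only [h3]
  refine mul_le_mul (ds_coef hε j) (h1.trans ?_) (abs_nonneg _) (by positivity)
  (clear * - h2; gcongr)

private lemma ds_summable {h : ℝ → ℝ} {θ L : ℝ} (hh : Bump h 0 θ) (hL : 0 < L) {ε : ℤ}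
    (hε : ε = 0 ∨ ε = 1 ∨ ε = -1) (σ : ℤ) (d : ℕ) (t : ℝ) :
    Summable (fun j : ℕ => (ε : ℝ) ^ j / √2 ^ j *
      kpPhi σ (2 * d) h L (t + j * (Real.log 2 / L))) :=
  (ds_summable_geo.mul_right _).of_norm_bounded (fun j => by
    rw [Real.norm_eq_abs]
    exact ds_term_le hh hL hε σ d t j)

private lemma abs_dsPhi_le {h : ℝ → ℝ} {θ L : ℝ} (hh : Bump h 0 θ) (hL : 0 < L) {ε : ℤ}
    (hε : ε = 0 ∨ ε = 1 ∨ ε = -1) (σ : ℤ) (d : ℕ) (t : ℝ) :
    |dsPhi ε σ d h L t| ≤ 12 * (∫ x, |h x|) * Real.exp (3 * θ * L) * Real.exp (-2 * t * L) := by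
  have hI : 0 ≤ ∫ x, |h x| := integral_nonneg fun x => abs_nonneg _
  unfold dsPhi
  rw [abs_mul]
  have h1 := tsum_of_norm_bounded ((ds_summable_geo.mul_right
    (2 * (∫ x, |h x|) * Real.exp (3 * θ * L) * Real.exp (-2 * t * L))).hasSum) (fun j => by
    rw [Real.norm_eq_abs]
    exact ds_term_le hh hL hε σ d t j)
  rw [Real.norm_eq_abs, tsum_mul_right, ds_tsum_geo] at h1
  calc _ ≤ |1 - (ε : ℝ) / √2| * ((1 - 1 / √2)⁻¹ *
        (2 * (∫ x, |h x|) * Real.exp (3 * θ * L) * Real.exp (-2 * t * L))) :=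
        mul_le_mul_of_nonneg_left h1 (abs_nonneg _)
    _ = (|1 - (ε : ℝ) / √2| * (1 - 1 / √2)⁻¹) *
        (2 * (∫ x, |h x|) * Real.exp (3 * θ * L) * Real.exp (-2 * t * L)) := by ring
    _ ≤ 6 * (2 * (∫ x, |h x|) * Real.exp (3 * θ * L) * Real.exp (-2 * t * L)) :=
        mul_le_mul_of_nonneg_right (ds_const hε) (by positivity)
    _ = _ := by ring

private lemma continuous_dsPhi {h : ℝ → ℝ} {θ L : ℝ} (hh : Bump h 0 θ) (hL : 0 < L) {ε : ℤ}
    (hε : ε = 0 ∨ ε = 1 ∨ ε = -1) (σ : ℤ) (d : ℕ) : Continuous (dsPhi ε σ d h L) := by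
  rw [continuous_iff_continuousAt]
  intro t₀
  have h1 : ContinuousOn (dsPhi ε σ d h L) (Set.Ioi (t₀ - 1)) := by
    unfold dsPhi
    refine ContinuousOn.mul continuousOn_const ?_
    refine continuousOn_tsum (u := fun j : ℕ => (1 / √2) ^ j *
      (2 * (∫ x, |h x|) * Real.exp (3 * θ * L) * Real.exp (-2 * (t₀ - 1) * L))) (fun j => ?_)
      (ds_summable_geo.mul_right _) ?_
    · exact (continuous_const.mul ((continuous_kpPhi hh hL σ (2 * d)).comp
        (by fun_prop))).continuousOn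
    · intro j t ht
      rw [Real.norm_eq_abs]
      refine (ds_term_le hh hL hε σ d t j).trans ?_
      have hI : 0 ≤ ∫ x, |h x| := integral_nonneg fun x => abs_nonneg _
      have ht' : t₀ - 1 < t := ht
      have h3 : Real.exp (-2 * t * L) ≤ Real.exp (-2 * (t₀ - 1) * L) := by
        apply Real.exp_le_exp.mpr
        nlinarith only [hL, ht']
      (clear * - h3; gcongr)
  exact h1.continuousAt (Ioi_mem_nhds (by linarith))

private lemma ds_HH_anti {h : ℝ → ℝ} {a θ : ℝ} (hh : Bump h a θ) (hn : ∀ t, 0 ≤ h t) {x y : ℝ}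
    (hxy : x ≤ y) : HH h y ≤ HH h x := by
  unfold HH
  exact setIntegral_mono_set hh.integrable.integrableOn (ae_of_all _ fun t => hn t)
    (LE.le.eventuallyLE (Set.Ioi_subset_Ioi hxy))

private lemma dsPhi_low {h : ℝ → ℝ} {θ L : ℝ} (hh : Bump h 0 θ) (hhn : ∀ t, 0 ≤ h t) (hL : 0 < L)
    {ε : ℤ} (hε : ε = 0 ∨ ε = 1 ∨ ε = -1) (σ : ℤ) (d : ℕ) {t : ℝ} (ht : 0 ≤ t) (M : ℕ) :
    (1 - (1 / 2) ^ M) * HH h (t + (2 * M : ℕ) * (Real.log 2 / L)) ≤ dsPhi ε σ d h L t := by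
  have hlog : 0 < Real.log 2 / L := div_pos (Real.log_pos (by norm_num)) hL
  have e1 : dsPhi ε σ d h L t = (1 - (ε : ℝ) / √2) * ∑' j : ℕ, (ε : ℝ) ^ j / √2 ^ j *
      HH h (t + j * (Real.log 2 / L)) := by
    unfold dsPhi
    congr 1
    refine tsum_congr fun j => ?_
    rw [kpPhi_of_nonneg hh hL (by (clear * - ht hL; positivity))]
  rw [e1]
  exact ds_low hε (fun j => HH h (t + j * (Real.log 2 / L)))
    (fun i j hij => ds_HH_anti hh hhn (by
      have : (i : ℝ) ≤ j := by exact_mod_cast hij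
      have := mul_le_mul_of_nonneg_right this hlog.le
      linarith only [this]))
    (fun j => HH_nonneg hhn _) M

/-! ### The generic lower bound -/

/-- The integrand for a general function `P`. -/
noncomputable def dsF (c : ℝ) (ρ P : ℝ → ℝ) (L Y : ℝ) (z : ℝ × ℝ) : ℝ :=
  kap c z.1 * ρ z.2 * P (z.2 - Y - z.1 / L)

/-- The process for a general function `P`. -/
noncomputable def dsT (c : ℝ) (ρ P : ℝ → ℝ) (L Y : ℝ) : ℝ :=
  (∫ z, dsF c ρ P L Y z ∂(volume.prod volume)) / Gam0 c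

private lemma ds_absF {c : ℝ} {ρ P : ℝ → ℝ} {L K : ℝ} (hL : 0 < L)
    (hP : ∀ t, |P t| ≤ K * Real.exp (-2 * t * L)) (Y : ℝ) (z : ℝ × ℝ) :
    |dsF c ρ P L Y z| ≤ K * ((kap c z.1 * Real.exp (2 * z.1)) *
      (|ρ z.2| * Real.exp (2 * L * (Y - z.2)))) := by
  unfold dsF
  rw [abs_mul, abs_mul, abs_of_pos (kap_pos c z.1)]
  have h1 := hP (z.2 - Y - z.1 / L)
  rw [kp_exp_identity hL] at h1
  have h2 := (kap_pos c z.1).le
  calc kap c z.1 * |ρ z.2| * |P (z.2 - Y - z.1 / L)| ≤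
      kap c z.1 * |ρ z.2| * (K * (Real.exp (2 * z.1) * Real.exp (2 * L * (Y - z.2)))) := by
        (clear * - h1 h2; gcongr)
    _ = _ := by ring

private lemma ds_intF {c : ℝ} (hc : 0 ≤ c) {ρ P : ℝ → ℝ} {a b L K : ℝ} (hρ : Bump ρ a b)
    (hL : 0 < L) (hPc : Continuous P) (hP : ∀ t, |P t| ≤ K * Real.exp (-2 * t * L)) (Y : ℝ) :
    Integrable (dsF c ρ P L Y) (volume.prod volume) := by
  refine ((integrable_kp_majorant hc (k := 2) (by norm_num) hρ L Y).const_mul K).mono'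
    ?_ (ae_of_all _ fun z => ?_)
  · refine Continuous.aestronglyMeasurable ?_
    unfold dsF
    refine (((continuous_kap c).comp continuous_fst).mul (hρ.continuous'.comp continuous_snd)).mul ?_
    exact hPc.comp (by fun_prop)
  · rw [Real.norm_eq_abs]
    exact ds_absF hL hP Y z

private lemma ds_meas {c : ℝ} {ρ P : ℝ → ℝ} {a b L : ℝ} (hρ : Bump ρ a b)
    (hPc : Continuous P) (B : ℝ) :
    StronglyMeasurable (fun v => dsT c ρ P L (B - v)) := by
  have h2 : Continuous (fun w : ℝ × (ℝ × ℝ) => dsF c ρ P L (B - w.1) w.2) := by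
    unfold dsF
    refine (((continuous_kap c).comp (by fun_prop)).mul (hρ.continuous'.comp (by fun_prop))).mul ?_
    exact hPc.comp (by fun_prop)
  have h3 := StronglyMeasurable.integral_prod_right
    (f := fun (v : ℝ) (z : ℝ × ℝ) => dsF c ρ P L (B - v) z)
    (ν := (volume.prod volume : Measure (ℝ × ℝ))) h2.stronglyMeasurable
  exact StronglyMeasurable.div h3 stronglyMeasurable_const

private lemma ds_upper {c : ℝ} (hc : 0 ≤ c) {ρ P : ℝ → ℝ} {a b L K : ℝ} (hρ : Bump ρ a b)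
    (hL : 0 < L) (hP : ∀ t, |P t| ≤ K * Real.exp (-2 * t * L)) :
    ∃ C : ℝ, ∀ Y : ℝ, |dsT c ρ P L Y| ≤ C * Real.exp (2 * L * Y) := by
  have hG := Gam0_pos hc
  refine ⟨(∫ z : ℝ × ℝ, K *
      ((kap c z.1 * Real.exp (2 * z.1)) * (|ρ z.2| * Real.exp (2 * L * (0 - z.2))))
      ∂(volume.prod volume)) / Gam0 c, fun Y => ?_⟩
  unfold dsT
  rw [abs_div, abs_of_pos hG, div_mul_eq_mul_div]
  gcongr
  rw [← integral_mul_const]
  have h1 := norm_integral_le_of_norm_le (f := dsF c ρ P L Y)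
    (((integrable_kp_majorant hc (k := 2) (by norm_num) hρ L 0).const_mul K).mul_const
      (Real.exp (2 * L * Y)))
    (ae_of_all _ fun z => by
      rw [Real.norm_eq_abs]
      refine (ds_absF hL hP Y z).trans (le_of_eq ?_)
      have : Real.exp (2 * L * (Y - z.2)) = Real.exp (2 * L * (0 - z.2)) * Real.exp (2 * L * Y) := by
        rw [← Real.exp_add]
        congr 1
        ring
      rw [this]
      ring)
  rwa [Real.norm_eq_abs] at h1

private lemma ds_Hid_nonneg {θ₀ : ℝ} (hθ₀ : 0 < θ₀) (x : ℝ) : 0 ≤ Hid θ₀ x := by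
  unfold Hid
  split_ifs with h
  · exact le_rfl
  · push Not at h
    have h1 : max x 0 ≤ θ₀ := max_le h.le hθ₀.le
    have h2 : 0 ≤ max x 0 := le_max_right _ _
    nlinarith only [h1, hθ₀, h2]

private lemma ds_Hid_anti {θ₀ : ℝ} (hθ₀ : 0 < θ₀) {x y : ℝ} (hxy : x ≤ y) :
    Hid θ₀ y ≤ Hid θ₀ x := by
  by_cases hy : θ₀ ≤ y
  · have : Hid θ₀ y = 0 := by unfold Hid; rw [if_pos hy]
    rw [this]
    exact ds_Hid_nonneg hθ₀ x
  · have hx : ¬ θ₀ ≤ x := fun h => hy (h.trans hxy)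
    unfold Hid
    rw [if_neg hy, if_neg hx]
    push Not at hy hx
    have h1 : max y 0 ≤ θ₀ := max_le hy.le hθ₀.le
    have h2 : 0 ≤ max x 0 := le_max_right _ _
    have h3 : max x 0 ≤ max y 0 := max_le_max_right 0 hxy
    nlinarith only [h3, h2]

private lemma ds_Hid_zero {θ₀ x : ℝ} (h : θ₀ ≤ x) : Hid θ₀ x = 0 := by
  unfold Hid
  rw [if_pos h]

private lemma ds_cosh {α L v : ℝ} (hα : |α| ≤ 1 / 2) (hL : 0 < L) (hv : 0 ≤ v) :
    Real.cosh (α * L * v) ≤ Real.exp (L * v / 2) := by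
  have h1 : Real.cosh (α * L * v) ≤ Real.exp |α * L * v| := by
    rw [Real.cosh_eq]
    have h2 : Real.exp (α * L * v) ≤ Real.exp |α * L * v| := Real.exp_le_exp.mpr (le_abs_self _)
    have h3 : Real.exp (-(α * L * v)) ≤ Real.exp |α * L * v| :=
      Real.exp_le_exp.mpr (neg_le_abs _)
    linarith only [h2, h3]
  refine h1.trans (Real.exp_le_exp.mpr ?_)
  rw [abs_mul, abs_mul, abs_of_pos hL, abs_of_nonneg hv]
  have : |α| * L * v ≤ 1 / 2 * L * v := by (clear * - hα hL hv; gcongr)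
  linarith only [this]

/-- The pointwise lower bound. -/
private lemma ds_pointwise {ρ h P : ℝ → ℝ} {δ θ θ₀ : ℝ} (hδ : 0 < δ) (hθ₀ : 0 < θ₀)
    (hρ : Bump ρ (-(δ / 2)) (δ / 2)) (hhn : ∀ t, 0 ≤ h t)
    (hH : ∀ t, Hid θ₀ (t - 2 * δ) ≤ HH h t) {L : ℝ} (hL : 0 < L) {K₀ τ s : ℝ} (hK₀ : 0 ≤ K₀)
    (hτ : τ ≤ 1) (hs : s ≤ 3 * δ / 8)
    (hP : ∀ t, |P t| ≤ K₀ * Real.exp (3 * θ * L) * Real.exp (-2 * t * L))
    (hPl : ∀ t, 0 ≤ t → (1 - τ) * HH h (t + s) ≤ P t)
    {k : ℝ} (hk : 0 ≤ k) {b v : ℝ} (hb1 : 1 / 2 ≤ b) (hb2 : b ≤ 1 / 2 + δ / 8)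
    (hv : 1 / 2 + δ < v) (x y : ℝ) (hy : ρ y ≠ 0) :
    (1 - τ) * Hid θ₀ (v - (1 / 2 + δ)) * (1 - 8 / (δ * L) * |x|) -
      K₀ * Real.exp (3 * θ * L) * Real.exp (-(k * L * (v - (1 / 2 + δ) + 3 * δ / 8))) *
        Real.exp ((2 + k) * x) ≤ P (y - (b - v) - x / L) := by
  obtain ⟨hy1, hy2⟩ := hρ.supp y hy
  set t := y - (b - v) - x / L with ht
  have hHn : 0 ≤ (1 - τ) * Hid θ₀ (v - (1 / 2 + δ)) :=
    mul_nonneg (by linarith only [hτ]) (ds_Hid_nonneg hθ₀ (v - (1 / 2 + δ)))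
  have hE : 0 ≤ K₀ * Real.exp (3 * θ * L) *
      Real.exp (-(k * L * (v - (1 / 2 + δ) + 3 * δ / 8))) * Real.exp ((2 + k) * x) := by positivity
  by_cases hx : |x| ≤ δ * L / 8
  · -- the main range
    have hxL : |x / L| ≤ δ / 8 := by
      rw [abs_div, abs_of_pos hL, div_le_iff₀ hL]
      linarith only [hx]
    have hxL' := abs_le.mp hxL
    have ht0 : 0 ≤ t := by
      rw [ht]
      linarith only [hδ, hb2, hv, hy1, hxL', hxL'.2]
    have h1 : (1 - τ) * Hid θ₀ (v - (1 / 2 + δ)) ≤ P t := by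
      refine le_trans ?_ (hPl t ht0)
      refine mul_le_mul_of_nonneg_left ?_ (by linarith only [hτ])
      refine le_trans (ds_Hid_anti hθ₀ ?_) (hH (t + s))
      rw [ht]
      linarith only [hs, hb1, hy2, hxL', hxL'.1]
    have h2 : 0 ≤ 8 / (δ * L) * |x| := by (clear * - hδ hL; positivity)
    nlinarith only [hE, h1, hHn, h2]
  · push Not at hx
    have h2 : 1 - 8 / (δ * L) * |x| ≤ 0 := by
      have h3 : 1 ≤ 8 / (δ * L) * |x| := by
        rw [div_mul_eq_mul_div, le_div_iff₀ (by positivity)]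
        linarith only [hx]
      linarith only [h3]
    have h4 : (1 - τ) * Hid θ₀ (v - (1 / 2 + δ)) * (1 - 8 / (δ * L) * |x|) ≤ 0 :=
      mul_nonpos_of_nonneg_of_nonpos hHn h2
    rcases le_or_gt 0 t with h0 | h0
    · have h5 := hPl t h0
      have h6 : 0 ≤ (1 - τ) * HH h (t + s) := mul_nonneg (by linarith only [hτ]) (HH_nonneg hhn (t + s))
      linarith only [hE, h4, h5, h6]
    · have h1 := hP t
      have h5 : Real.exp (-2 * t * L) ≤
          Real.exp (-(k * L * (v - (1 / 2 + δ) + 3 * δ / 8))) * Real.exp ((2 + k) * x) := by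
        rw [← Real.exp_add]
        apply Real.exp_le_exp.mpr
        have h6 : -2 * t * L = 2 * x - 2 * (L * (y - (b - v))) := by
          rw [ht]
          field_simp
          ring
        have h7 : L * (y - (b - v)) < x := by
          have h4 : y - (b - v) < x / L := by linarith only [h0]
          rw [lt_div_iff₀ hL] at h4
          linarith only [h4]
        have h8 : L * (v - (1 / 2 + δ) + 3 * δ / 8) ≤ L * (y - (b - v)) := by
          apply mul_le_mul_of_nonneg_left _ hL.le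
          linarith only [hb2, hy1]
        have h9 : 0 ≤ L * (v - (1 / 2 + δ) + 3 * δ / 8) := mul_nonneg hL.le (by linarith only [hδ, hv])
        have h10 : k * (L * (v - (1 / 2 + δ) + 3 * δ / 8)) ≤ k * x :=
          mul_le_mul_of_nonneg_left (by linarith only [h7, h8]) hk
        rw [h6]
        nlinarith only [h8, h9, h10]
      have h6 : K₀ * Real.exp (3 * θ * L) * Real.exp (-2 * t * L) ≤
          K₀ * Real.exp (3 * θ * L) *
            (Real.exp (-(k * L * (v - (1 / 2 + δ) + 3 * δ / 8))) * Real.exp ((2 + k) * x)) := by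
        (clear * - h5 hK₀; gcongr)
      have h7 := (abs_le.mp h1).1
      linarith only [h4, h6, h7]

/-- The lower bound for the process. -/
private lemma ds_lower {ρ h P : ℝ → ℝ} {δ θ θ₀ : ℝ} (hδ : 0 < δ) (hθ₀ : 0 < θ₀)
    (hρ : Bump ρ (-(δ / 2)) (δ / 2)) (hρn : ∀ y, 0 ≤ ρ y)
    (hρ1 : ∫ y, ρ y = 1) (hhn : ∀ t, 0 ≤ h t)
    (hH : ∀ t, Hid θ₀ (t - 2 * δ) ≤ HH h t) {c : ℝ} (hc : 0 ≤ c) {L : ℝ} (hL : 0 < L)
    {K₀ τ s : ℝ} (hK₀ : 0 ≤ K₀) (hτ : τ ≤ 1) (hs : s ≤ 3 * δ / 8) (hPc : Continuous P)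
    (hP : ∀ t, |P t| ≤ K₀ * Real.exp (3 * θ * L) * Real.exp (-2 * t * L))
    (hPl : ∀ t, 0 ≤ t → (1 - τ) * HH h (t + s) ≤ P t)
    {k : ℝ} (hk : 0 ≤ k) {b v : ℝ} (hb1 : 1 / 2 ≤ b) (hb2 : b ≤ 1 / 2 + δ / 8)
    (hv : 1 / 2 + δ < v) :
    (1 - τ) * Hid θ₀ (v - (1 / 2 + δ)) * (1 - 8 / (δ * L) * (∫ x, kap c x * |x|) / Gam0 c) -
      K₀ * Real.exp (3 * θ * L) *
        Real.exp (-(k * L * (v - (1 / 2 + δ) + 3 * δ / 8))) *
        (∫ x, kap c x * Real.exp ((2 + k) * x)) / Gam0 c ≤ dsT c ρ P L (b - v) := by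
  have hG := Gam0_pos hc
  unfold dsT
  set Hv := (1 - τ) * Hid θ₀ (v - (1 / 2 + δ)) with hHv
  set E := K₀ * Real.exp (3 * θ * L) *
        Real.exp (-(k * L * (v - (1 / 2 + δ) + 3 * δ / 8))) with hE
  have hρi := hρ.integrable
  have hi0 : Integrable (fun z : ℝ × ℝ => kap c z.1 * ρ z.2) (volume.prod volume) :=
    (integrable_kap hc).mul_prod hρi
  have hi1 : Integrable (fun z : ℝ × ℝ => (kap c z.1 * |z.1|) * ρ z.2) (volume.prod volume) :=
    (integrable_kap_mul_abs hc).mul_prod hρi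
  have hi2 : Integrable (fun z : ℝ × ℝ => (kap c z.1 * Real.exp ((2 + k) * z.1)) * ρ z.2)
      (volume.prod volume) := (integrable_kap_mul_exp hc (by positivity)).mul_prod hρi
  have hmono : ∫ z : ℝ × ℝ, (Hv * (kap c z.1 * ρ z.2) - Hv * (8 / (δ * L)) *
        ((kap c z.1 * |z.1|) * ρ z.2) - E * ((kap c z.1 * Real.exp ((2 + k) * z.1)) * ρ z.2))
        ∂(volume.prod volume) ≤ ∫ z, dsF c ρ P L (b - v) z ∂(volume.prod volume) := by
    refine integral_mono (((hi0.const_mul Hv).sub (hi1.const_mul (Hv * (8 / (δ * L))))).sub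
      (hi2.const_mul E)) (ds_intF hc hρ hL hPc hP (b - v)) fun z => ?_
    simp only [dsF]
    by_cases hy : ρ z.2 = 0
    · rw [hy]; simp
    · have h1 := ds_pointwise hδ hθ₀ hρ hhn hH hL hK₀ hτ hs hP hPl hk hb1 hb2 hv z.1 z.2 hy
      rw [← hHv, ← hE] at h1
      have h2 : 0 ≤ kap c z.1 * ρ z.2 := mul_nonneg (kap_pos c z.1).le (hρn z.2)
      calc _ = kap c z.1 * ρ z.2 * (Hv * (1 - 8 / (δ * L) * |z.1|) -
            E * Real.exp ((2 + k) * z.1)) := by ring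
        _ ≤ _ := mul_le_mul_of_nonneg_left h1 h2
  have hval : ∫ z : ℝ × ℝ, (Hv * (kap c z.1 * ρ z.2) - Hv * (8 / (δ * L)) *
        ((kap c z.1 * |z.1|) * ρ z.2) - E * ((kap c z.1 * Real.exp ((2 + k) * z.1)) * ρ z.2))
        ∂(volume.prod volume) = Hv * Gam0 c - Hv * (8 / (δ * L)) * (∫ x, kap c x * |x|) -
          E * (∫ x, kap c x * Real.exp ((2 + k) * x)) := by
    have e1 : ∫ z : ℝ × ℝ, (Hv * (kap c z.1 * ρ z.2) - Hv * (8 / (δ * L)) *
        ((kap c z.1 * |z.1|) * ρ z.2) - E * ((kap c z.1 * Real.exp ((2 + k) * z.1)) * ρ z.2))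
        ∂(volume.prod volume) = (∫ z : ℝ × ℝ, (Hv * (kap c z.1 * ρ z.2) - Hv * (8 / (δ * L)) *
        ((kap c z.1 * |z.1|) * ρ z.2)) ∂(volume.prod volume)) -
        ∫ z : ℝ × ℝ, E * ((kap c z.1 * Real.exp ((2 + k) * z.1)) * ρ z.2) ∂(volume.prod volume) :=
      integral_sub ((hi0.const_mul Hv).sub (hi1.const_mul (Hv * (8 / (δ * L))))) (hi2.const_mul E)
    rw [e1, integral_sub (hi0.const_mul Hv) (hi1.const_mul (Hv * (8 / (δ * L)))),
      integral_const_mul, integral_const_mul, integral_const_mul,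
      integral_prod_mul (fun x => kap c x) ρ, integral_prod_mul (fun x => kap c x * |x|) ρ,
      integral_prod_mul (fun x => kap c x * Real.exp ((2 + k) * x)) ρ, hρ1]
    simp only [mul_one]
    rfl
  rw [hval] at hmono
  rw [le_div_iff₀ hG]
  refine le_trans (le_of_eq ?_) hmono
  field_simp

/-- The generic lower bound in the deterministic range. -/
theorem ds_core {ρ h : ℝ → ℝ} {δ θ θ₀ : ℝ} (hδ : 0 < δ) (hδ4 : δ ≤ 1 / 100) (hθ₀ : 0 < θ₀)
    (hθ : θ₀ ≤ θ) (hρ : Bump ρ (-(δ / 2)) (δ / 2)) (hρn : ∀ y, 0 ≤ ρ y)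
    (hρ1 : ∫ y, ρ y = 1) (hhn : ∀ t, 0 ≤ h t)
    (hH : ∀ t, Hid θ₀ (t - 2 * δ) ≤ HH h t)
    {c : ℝ} (hc0 : 0 ≤ c) {K₀ : ℝ} (hK₀ : 0 ≤ K₀) (ε : ℝ) (hε : 0 < ε) (hε1 : ε ≤ 1) :
    ∃ X₀ : ℝ, ∀ X : ℝ, X₀ ≤ X → ∀ P : ℝ → ℝ, Continuous P →
      (∀ t, |P t| ≤ K₀ * Real.exp (3 * θ * Real.log X) * Real.exp (-2 * t * Real.log X)) →
      ∀ s : ℝ, s ≤ 3 * δ / 8 → (∀ t, 0 ≤ t → (1 - ε / 2) * HH h (t + s) ≤ P t) →
      ∀ b : ℝ, 1 / 2 ≤ b → b ≤ 1 / 2 + δ / 8 → ∀ α : ℝ, |α| ≤ 1 / 2 →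
      (1 - ε) * (∫ v in Set.Ioc (1 / 2 + δ) (1 / 2 + δ + θ₀), Real.cosh (α * Real.log X * v) *
        Hid θ₀ (v - (1 / 2 + δ))) - ε ≤
      ∫ v in Set.Ioi (1 / 2 + δ), Real.cosh (α * Real.log X * v) *
        dsT c ρ P (Real.log X) (b - v) := by
  set k : ℝ := (8 * θ + 6) / δ with hkdef
  have hθ' : 0 < θ := hθ₀.trans_le hθ
  have hk : 0 ≤ k := by positivity
  have hk1 : 600 ≤ k := by
    rw [hkdef, le_div_iff₀ hδ]
    linarith only [hδ4, hθ₀, hθ]
  have hkδ : k * δ = 8 * θ + 6 := by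
    rw [hkdef]
    field_simp
  have hG := Gam0_pos hc0
  set A₁ := ∫ x, kap c x * |x| with hA₁
  set A₂ := ∫ x, kap c x * Real.exp ((2 + k) * x) with hA₂
  have hA₁0 : 0 ≤ A₁ := integral_nonneg fun x => mul_nonneg (kap_pos c x).le (abs_nonneg _)
  have hA₂0 : 0 ≤ A₂ := integral_nonneg fun x => mul_nonneg (kap_pos c x).le (Real.exp_pos _).le
  have hlog : Tendsto Real.log atTop atTop := Real.tendsto_log_atTop
  have hinv : Tendsto (fun X : ℝ => (Real.log X)⁻¹) atTop (𝓝 0) :=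
    tendsto_inv_atTop_zero.comp hlog
  have hexp : Tendsto (fun X : ℝ => Real.exp (-Real.log X)) atTop (𝓝 0) :=
    (Real.tendsto_exp_neg_atTop_nhds_zero).comp hlog
  have e1 : ∀ᶠ X : ℝ in atTop, 8 / δ * A₁ / Gam0 c * (Real.log X)⁻¹ < ε / 2 := by
    have := hinv.const_mul (8 / δ * A₁ / Gam0 c)
    rw [mul_zero] at this
    exact this.eventually (gt_mem_nhds (by positivity))
  have e2 : ∀ᶠ X : ℝ in atTop, K₀ * A₂ / Gam0 c * Real.exp (-Real.log X) < ε := by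
    have := hexp.const_mul (K₀ * A₂ / Gam0 c)
    rw [mul_zero] at this
    exact this.eventually (gt_mem_nhds hε)
  have e4 : ∀ᶠ X : ℝ in atTop, 1 ≤ Real.log X := hlog.eventually_ge_atTop 1
  obtain ⟨X₀, hX₀⟩ := eventually_atTop.mp ((e1.and e2).and e4)
  refine ⟨X₀, fun X hX P hPc hP s hs hPl b hb1 hb2 α hα => ?_⟩
  obtain ⟨⟨f1, f2⟩, f4⟩ := hX₀ X hX
  have hL : 0 < Real.log X := by linarith only [hδ, hδ4, f4]
  set L := Real.log X with hLdef
  set V : ℝ := 1 / 2 + δ with hV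
  have hV0 : 0 < V := by rw [hV]; linarith only [hδ, hδ4]
  have hV1 : V ≤ 1 := by rw [hV]; linarith only [hδ, hδ4]
  -- lower bound for the process
  have hlow : ∀ v ∈ Set.Ioi V, (1 - ε) * Hid θ₀ (v - V) - K₀ * A₂ / Gam0 c *
      Real.exp (3 * θ * L - k * L * (v - V + 3 * δ / 8)) ≤ dsT c ρ P L (b - v) := by
    intro v hv
    have h1 := ds_lower hδ hθ₀ hρ hρn hρ1 hhn hH hc0 hL hK₀ (τ := ε / 2) (by linarith only [hδ, hδ4, hε1]) hs hPc hP
      hPl hk hb1 hb2 hv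
    refine le_trans ?_ h1
    rw [← hA₁, ← hA₂, ← hV]
    have h2 := ds_Hid_nonneg hθ₀ (v - V)
    have h3 : 8 / (δ * L) * A₁ / Gam0 c ≤ ε / 2 := by
      refine le_trans (le_of_eq ?_) f1.le
      field_simp
    have h3' : 0 ≤ 8 / (δ * L) * A₁ / Gam0 c := by (clear * - hδ f4 hA₁0 hG; positivity)
    have h4 : Real.exp (3 * θ * L - k * L * (v - V + 3 * δ / 8)) =
        Real.exp (3 * θ * L) * Real.exp (-(k * L * (v - V + 3 * δ / 8))) := by
      rw [← Real.exp_add]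
      congr 1
    rw [h4]
    have h5 : (1 - ε) * Hid θ₀ (v - V) ≤
        (1 - ε / 2) * Hid θ₀ (v - V) * (1 - 8 / (δ * L) * A₁ / Gam0 c) := by
      have h7 : 1 - ε ≤ (1 - ε / 2) * (1 - 8 / (δ * L) * A₁ / Gam0 c) := by nlinarith only [h3, hδ, hδ4, hε, h3']
      calc (1 - ε) * Hid θ₀ (v - V) ≤
          ((1 - ε / 2) * (1 - 8 / (δ * L) * A₁ / Gam0 c)) * Hid θ₀ (v - V) :=
            mul_le_mul_of_nonneg_right h7 h2
        _ = _ := by ring
    have h6 : K₀ * A₂ / Gam0 c * (Real.exp (3 * θ * L) *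
        Real.exp (-(k * L * (v - V + 3 * δ / 8)))) =
        K₀ * Real.exp (3 * θ * L) * Real.exp (-(k * L * (v - V + 3 * δ / 8))) * A₂ /
          Gam0 c := by ring
    rw [h6]
    linarith only [h5]
  -- the majorant of the error
  set K := K₀ * A₂ / Gam0 c with hK
  have hK0 : 0 ≤ K := by (clear * - hK₀ hA₂0 hG; positivity)
  set K' := K * Real.exp (3 * θ * L + k * L * V - 3 * k * L * δ / 8) with hK'
  have hkL : 0 < (k - 1 / 2) * L := mul_pos (by linarith only [hδ, hδ4, hk1]) hL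
  have hlow2 : ∀ v ∈ Set.Ioi V, (1 - ε) * (Real.cosh (α * L * v) * Hid θ₀ (v - V)) -
      K' * Real.exp (-((k - 1 / 2) * L) * v) ≤
      Real.cosh (α * L * v) * dsT c ρ P L (b - v) := by
    intro v hv
    have hv0 : 0 ≤ v := hV0.le.trans (le_of_lt hv)
    have h1 := mul_le_mul_of_nonneg_left (hlow v hv) (Real.cosh_pos (α * L * v)).le
    have h2 := ds_cosh hα hL hv0
    have h3 : Real.cosh (α * L * v) * (K * Real.exp (3 * θ * L - k * L * (v - V + 3 * δ / 8))) ≤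
        K' * Real.exp (-((k - 1 / 2) * L) * v) := by
      calc Real.cosh (α * L * v) * (K * Real.exp (3 * θ * L - k * L * (v - V + 3 * δ / 8))) ≤
          Real.exp (L * v / 2) * (K * Real.exp (3 * θ * L - k * L * (v - V + 3 * δ / 8))) := by
            (clear * - h2 hK₀ hA₂0 hG; gcongr)
        _ = K * (Real.exp (L * v / 2) * Real.exp (3 * θ * L - k * L * (v - V + 3 * δ / 8))) := by
            ring
        _ = K * (Real.exp (3 * θ * L + k * L * V - 3 * k * L * δ / 8) *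
              Real.exp (-((k - 1 / 2) * L) * v)) := by
            rw [← Real.exp_add, ← Real.exp_add]
            congr 2
            ring
        _ = _ := by rw [hK']; ring
    linarith only [h1, h3]
  -- integrability
  have hHm : Measurable (fun v : ℝ => Hid θ₀ (v - V)) := by
    have : Antitone (fun v : ℝ => Hid θ₀ (v - V)) := fun x y hxy => ds_Hid_anti hθ₀ (by linarith only [hxy])
    exact this.measurable
  have hch : Continuous (fun v : ℝ => Real.cosh (α * L * v)) :=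
    Real.continuous_cosh.comp (by fun_prop)
  have hunion : Set.Ioi V = Set.Ioc V (V + θ₀) ∪ Set.Ioi (V + θ₀) :=
    (Set.Ioc_union_Ioi_eq_Ioi (by linarith only [hθ₀])).symm
  have hdisj : Disjoint (Set.Ioc V (V + θ₀)) (Set.Ioi (V + θ₀)) := by
    rw [Set.disjoint_left]
    intro x hx hx'
    exact absurd hx.2 (not_le.mpr hx')
  have hi1 : IntegrableOn (fun v : ℝ => Real.cosh (α * L * v) * Hid θ₀ (v - V))
      (Set.Ioc V (V + θ₀)) := by
    refine Measure.integrableOn_of_bounded (M := Real.exp (L * (V + θ₀) / 2) * Hid θ₀ 0)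
      (by simp) (hch.measurable.mul hHm).aestronglyMeasurable ?_
    refine (ae_restrict_iff' measurableSet_Ioc).mpr (ae_of_all _ fun v hv => ?_)
    have hv0 : 0 ≤ v := hV0.le.trans hv.1.le
    rw [Real.norm_of_nonneg (mul_nonneg (Real.cosh_pos _).le (ds_Hid_nonneg hθ₀ _))]
    have h1 := ds_cosh hα hL hv0
    have h2 : Real.exp (L * v / 2) ≤ Real.exp (L * (V + θ₀) / 2) := by
      apply Real.exp_le_exp.mpr
      have := mul_le_mul_of_nonneg_left hv.2 hL.le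
      linarith only [this]
    have h3 : Hid θ₀ (v - V) ≤ Hid θ₀ 0 := ds_Hid_anti hθ₀ (by linarith only [hv, hv.1])
    exact mul_le_mul (h1.trans h2) h3 (ds_Hid_nonneg hθ₀ _) (Real.exp_pos _).le
  have hi2 : IntegrableOn (fun v : ℝ => Real.cosh (α * L * v) * Hid θ₀ (v - V))
      (Set.Ioi (V + θ₀)) := by
    have h0 : IntegrableOn (fun _ : ℝ => (0 : ℝ)) (Set.Ioi (V + θ₀)) := integrableOn_zero
    refine h0.congr_fun (fun v hv => ?_) measurableSet_Ioi
    have : V + θ₀ < v := hv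
    rw [ds_Hid_zero (by linarith only [this]), mul_zero]
  have hi3 : IntegrableOn (fun v : ℝ => Real.cosh (α * L * v) * Hid θ₀ (v - V)) (Set.Ioi V) := by
    rw [hunion]
    exact hi1.union hi2
  have hi4 : IntegrableOn (fun v : ℝ => Real.exp (-((k - 1 / 2) * L) * v)) (Set.Ioi V) :=
    exp_neg_integrableOn_Ioi V hkL
  have hi5 : IntegrableOn (fun v : ℝ => Real.cosh (α * L * v) * dsT c ρ P L (b - v))
      (Set.Ioi V) := by
    obtain ⟨C, hC⟩ := ds_upper hc0 hρ hL hP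
    have h1 : IntegrableOn (fun v : ℝ => C * Real.exp (2 * L * b) * Real.exp (-(3 / 2 * L) * v))
        (Set.Ioi V) := (exp_neg_integrableOn_Ioi V (by positivity)).const_mul _
    refine h1.mono' ?_ ?_
    · exact (hch.stronglyMeasurable.mul (ds_meas hρ hPc b)).aestronglyMeasurable
    · refine (ae_restrict_iff' measurableSet_Ioi).mpr (ae_of_all _ fun v hv => ?_)
      have hv0 : 0 ≤ v := hV0.le.trans (le_of_lt hv)
      rw [norm_mul, Real.norm_of_nonneg (Real.cosh_pos _).le, Real.norm_eq_abs]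
      have h2 := ds_cosh hα hL hv0
      have h3 := hC (b - v)
      calc Real.cosh (α * L * v) * |dsT c ρ P L (b - v)| ≤
          Real.exp (L * v / 2) * (C * Real.exp (2 * L * (b - v))) :=
            mul_le_mul h2 h3 (abs_nonneg _) (Real.exp_pos _).le
        _ = C * (Real.exp (L * v / 2) * Real.exp (2 * L * (b - v))) := by ring
        _ = C * (Real.exp (2 * L * b) * Real.exp (-(3 / 2 * L) * v)) := by
            rw [← Real.exp_add, ← Real.exp_add]
            congr 2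
            ring
        _ = _ := by ring
  have hfinal := setIntegral_mono_on ((hi3.const_mul (1 - ε)).sub (hi4.const_mul K')) hi5
    measurableSet_Ioi hlow2
  simp only [Pi.sub_apply] at hfinal
  rw [integral_sub (hi3.const_mul (1 - ε)) (hi4.const_mul K'), integral_const_mul,
    integral_const_mul] at hfinal
  have hv1 : ∫ v in Set.Ioi V, Real.cosh (α * L * v) * Hid θ₀ (v - V) =
      ∫ v in Set.Ioc V (V + θ₀), Real.cosh (α * L * v) * Hid θ₀ (v - V) := by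
    rw [hunion, setIntegral_union hdisj measurableSet_Ioi hi1 hi2]
    have : ∫ v in Set.Ioi (V + θ₀), Real.cosh (α * L * v) * Hid θ₀ (v - V) = 0 := by
      rw [setIntegral_congr_fun (g := fun _ => (0 : ℝ)) measurableSet_Ioi]
      · simp
      · intro v hv
        have : V + θ₀ < v := hv
        simp only
        rw [ds_Hid_zero (by linarith only [this]), mul_zero]
    rw [this, add_zero]
  have hv2 : K' * ∫ v in Set.Ioi V, Real.exp (-((k - 1 / 2) * L) * v) ≤ ε := by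
    have h1 := integral_exp_mul_Ioi (a := -((k - 1 / 2) * L)) (by linarith only [hkL]) V
    rw [h1]
    have h2 : -Real.exp (-((k - 1 / 2) * L) * V) / (-((k - 1 / 2) * L)) =
        Real.exp (-((k - 1 / 2) * L) * V) / ((k - 1 / 2) * L) := by
      rw [neg_div_neg_eq]
    rw [h2]
    have h3 : (1 : ℝ) ≤ (k - 1 / 2) * L := by nlinarith only [hδ4, hθ, hkδ, hδ, hθ₀, hk, f4, hk1]
    have h4 : Real.exp (-((k - 1 / 2) * L) * V) / ((k - 1 / 2) * L) ≤
        Real.exp (-((k - 1 / 2) * L) * V) := div_le_self (Real.exp_pos _).le h3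
    have hK'0 : 0 ≤ K' := by (clear * - hK₀ hA₂0 hG; positivity)
    calc K' * (Real.exp (-((k - 1 / 2) * L) * V) / ((k - 1 / 2) * L)) ≤
        K' * Real.exp (-((k - 1 / 2) * L) * V) := by (clear * - h4 hK₀ hA₂0 hG; gcongr)
      _ = K * (Real.exp (3 * θ * L + k * L * V - 3 * k * L * δ / 8) *
            Real.exp (-((k - 1 / 2) * L) * V)) := by rw [hK']; ring
      _ = K * Real.exp (L * (V / 2 + 3 * θ - 3 * (k * δ) / 8)) := by
          rw [← Real.exp_add]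
          congr 2
          ring
      _ ≤ K * Real.exp (-L) := by
          have : Real.exp (L * (V / 2 + 3 * θ - 3 * (k * δ) / 8)) ≤ Real.exp (-L) := by
            apply Real.exp_le_exp.mpr
            rw [hkδ]
            have h5 : V / 2 + 3 * θ - 3 * (8 * θ + 6) / 8 ≤ -1 := by linarith only [hδ, hδ4, hV]
            have h6 := mul_le_mul_of_nonneg_left h5 hL.le
            linarith only [h6]
          (clear * - this hK₀ hA₂0 hG; gcongr)
      _ ≤ ε := f2.le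
  rw [hv1] at hfinal
  linarith only [hfinal, hv2]

/-! ### The representation of `yS` -/

private lemma yS_eq_dsT {c : ℝ} (hc : 0 ≤ c) {ρ h : ℝ → ℝ} {a b θ X : ℝ} (hρ : Bump ρ a b)
    (hh : Bump h 0 θ) (hX : 1 < X) {ε : ℤ} (hε : ε = 0 ∨ ε = 1 ∨ ε = -1) (σ : ℤ) (d : ℕ) (Y : ℝ) :
    yS c ε σ ρ h X d Y = dsT c ρ (dsPhi ε σ d h (Real.log X)) (Real.log X) Y := by
  have hL : 0 < Real.log X := Real.log_pos hX
  set L := Real.log X with hLdef
  have hI : 0 ≤ ∫ x, |h x| := integral_nonneg fun x => abs_nonneg _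
  have hterm : ∀ j : ℕ, (ε : ℝ) ^ j / √2 ^ j *
      ytil c σ ρ h X (2 * d) (Y - j * Real.log 2 / Real.log X) =
      (∫ z : ℝ × ℝ, kap c z.1 * ρ z.2 * ((ε : ℝ) ^ j / √2 ^ j *
        kpPhi σ (2 * d) h L (z.2 - Y - z.1 / L + j * (Real.log 2 / L)))
        ∂(volume.prod volume)) / Gam0 c := by
    intro j
    rw [(ytil_eq_kpF hc hρ hh hX σ (2 * d) _).2, ← hLdef, ← mul_div_assoc, ← integral_const_mul]
    congr 1
    refine integral_congr_ae (ae_of_all _ fun z => ?_)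
    simp only [kpF]
    have h1 : z.2 - (Y - j * Real.log 2 / L) - z.1 / L =
        z.2 - Y - z.1 / L + j * (Real.log 2 / L) := by ring
    rw [h1]
    ring
  have hsum : HasSum (fun j : ℕ => ∫ z : ℝ × ℝ, kap c z.1 * ρ z.2 * ((ε : ℝ) ^ j / √2 ^ j *
        kpPhi σ (2 * d) h L (z.2 - Y - z.1 / L + j * (Real.log 2 / L)))
        ∂(volume.prod volume))
      (∫ z : ℝ × ℝ, kap c z.1 * ρ z.2 * (∑' j : ℕ, (ε : ℝ) ^ j / √2 ^ j *
        kpPhi σ (2 * d) h L (z.2 - Y - z.1 / L + j * (Real.log 2 / L)))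
        ∂(volume.prod volume)) := by
    refine hasSum_integral_of_dominated_convergence (fun j z => (1 / √2) ^ j *
      (2 * (∫ x, |h x|) * Real.exp (3 * θ * L) *
        ((kap c z.1 * Real.exp (2 * z.1)) * (|ρ z.2| * Real.exp (2 * L * (Y - z.2)))))) ?_ ?_ ?_ ?_ ?_
    · intro j
      refine Continuous.aestronglyMeasurable ?_
      refine (((continuous_kap c).comp continuous_fst).mul
        (hρ.continuous'.comp continuous_snd)).mul ?_
      exact continuous_const.mul ((continuous_kpPhi hh hL σ (2 * d)).comp (by fun_prop))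
    · intro j
      refine ae_of_all _ fun z => ?_
      rw [Real.norm_eq_abs, abs_mul, abs_mul, abs_of_pos (kap_pos c z.1)]
      have h1 := ds_term_le hh hL hε σ d (z.2 - Y - z.1 / L) j
      rw [kp_exp_identity hL] at h1
      have h2 := (kap_pos c z.1).le
      calc kap c z.1 * |ρ z.2| * |(ε : ℝ) ^ j / √2 ^ j *
            kpPhi σ (2 * d) h L (z.2 - Y - z.1 / L + j * (Real.log 2 / L))| ≤
          kap c z.1 * |ρ z.2| * ((1 / √2) ^ j * (2 * (∫ x, |h x|) * Real.exp (3 * θ * L) *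
            (Real.exp (2 * z.1) * Real.exp (2 * L * (Y - z.2))))) := by
            (clear * - h1 h2; gcongr)
        _ = _ := by ring
    · exact ae_of_all _ fun z => ds_summable_geo.mul_right _
    · simp_rw [tsum_mul_right]
      exact ((integrable_kp_majorant hc (k := 2) (by norm_num) hρ L Y).const_mul _).const_mul _
    · refine ae_of_all _ fun z => ?_
      exact (ds_summable hh hL hε σ d _).hasSum.mul_left _
  have hsum2 := hsum.div_const (Gam0 c)
  have hsum3 := hsum2.congr_fun (fun p => (hterm p))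
  unfold yS
  rw [hsum3.tsum_eq]
  unfold dsT
  rw [← mul_div_assoc, ← integral_const_mul]
  congr 1
  refine integral_congr_ae (ae_of_all _ fun z => ?_)
  simp only [dsF, dsPhi]
  ring

theorem det_lowerS {ρ h : ℝ → ℝ} {δ θ θ₀ : ℝ} (hδ : 0 < δ) (hδ4 : δ ≤ 1 / 100) (hθ₀ : 0 < θ₀)
    (hθ : θ₀ ≤ θ) (hθ2 : θ < 1 / 2) (hρ : Bump ρ (-(δ / 2)) (δ / 2)) (hρn : ∀ y, 0 ≤ ρ y)
    (hρ1 : ∫ y, ρ y = 1) (hh : Bump h 0 θ) (hhn : ∀ t, 0 ≤ h t)
    (hH : ∀ t, Hid θ₀ (t - 2 * δ) ≤ HH h t)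
    (c : ℝ) (hc : c = 0 ∨ c = 1) (ε σ : ℤ) (hε : ε = 0 ∨ ε = 1 ∨ ε = -1) (κ : ℕ)
    (hκ : κ = 1 ∨ κ = 4) (ε' : ℝ) (hε' : 0 < ε') :
    ∃ X₀ : ℝ, ∀ X : ℝ, X₀ ≤ X → ∀ d : ℕ, X < d → (d : ℝ) ≤ 2 * X → ∀ α : ℝ, |α| ≤ 1 / 2 →
      (1 - ε') * (∫ v in Set.Ioc (1 / 2 + δ) (1 / 2 + δ + θ₀), Real.cosh (α * Real.log X * v) *
        Hid θ₀ (v - (1 / 2 + δ))) - ε' ≤
      ∫ v in Set.Ioi (1 / 2 + δ), Real.cosh (α * Real.log X * v) *
        yS c ε σ ρ h X d (Real.log (κ * d) / (2 * Real.log X) - v) := by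
  have hc0 : 0 ≤ c := by rcases hc with h | h <;> rw [h] <;> norm_num
  have hI : 0 ≤ ∫ x, |h x| := integral_nonneg fun x => abs_nonneg _
  -- the effective precision
  obtain ⟨e, he⟩ : ∃ e : ℝ, e = min ε' 1 := ⟨_, rfl⟩
  have he0 : 0 < e := by rw [he]; exact lt_min hε' one_pos
  have he1 : e ≤ 1 := by rw [he]; exact min_le_right _ _
  have hee : e ≤ ε' := by rw [he]; exact min_le_left _ _
  obtain ⟨M, hM⟩ := exists_pow_lt_of_lt_one (show (0 : ℝ) < e / 2 by positivity)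
    (by norm_num : (1 / 2 : ℝ) < 1)
  obtain ⟨X₁, hX₁⟩ := ds_core (θ := θ) hδ hδ4 hθ₀ hθ hρ hρn hρ1 hhn hH hc0
    (K₀ := 12 * ∫ x, |h x|) (by positivity) e he0 he1
  have hlog : Tendsto Real.log atTop atTop := Real.tendsto_log_atTop
  have hinv : Tendsto (fun X : ℝ => (Real.log X)⁻¹) atTop (𝓝 0) :=
    tendsto_inv_atTop_zero.comp hlog
  have e3 : ∀ᶠ X : ℝ in atTop, Real.log 8 / 2 * (Real.log X)⁻¹ < δ / 8 := by
    have := hinv.const_mul (Real.log 8 / 2)
    rw [mul_zero] at this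
    exact this.eventually (gt_mem_nhds (by positivity))
  have e5 : ∀ᶠ X : ℝ in atTop, (2 * M : ℕ) * Real.log 2 * (Real.log X)⁻¹ < 3 * δ / 8 := by
    have := hinv.const_mul ((2 * M : ℕ) * Real.log 2)
    rw [mul_zero] at this
    exact this.eventually (gt_mem_nhds (by positivity))
  obtain ⟨X₂, hX₂⟩ := eventually_atTop.mp ((e3.and e5).and (eventually_gt_atTop (1 : ℝ)))
  refine ⟨max X₁ X₂, fun X hX d hd1 hd2 α hα => ?_⟩
  obtain ⟨⟨f3, f5⟩, hX1⟩ := hX₂ X (le_trans (le_max_right _ _) hX)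
  have hX0 : 0 < X := by linarith
  have hL : 0 < Real.log X := Real.log_pos hX1
  have hκr : (1 : ℝ) ≤ κ ∧ (κ : ℝ) ≤ 4 := by
    rcases hκ with h | h <;> rw [h] <;> norm_num
  have hd0 : (0 : ℝ) < d := by linarith only [hδ, hδ4, hd1, hX1]
  have hκ0 : (0 : ℝ) < κ := by linarith only [hδ, hδ4, hκr, hκr.1]
  have hb1 : 1 / 2 ≤ Real.log (κ * d) / (2 * Real.log X) := by
    rw [le_div_iff₀ (by positivity)]
    have h1 : Real.log X ≤ Real.log (κ * d) := Real.log_le_log hX0 (by nlinarith only [hd1, hκr])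
    linarith only [h1]
  have hb2 : Real.log (κ * d) / (2 * Real.log X) ≤ 1 / 2 + δ / 8 := by
    rw [div_le_iff₀ (by positivity)]
    have h1 : Real.log (κ * d) ≤ Real.log (8 * X) :=
      Real.log_le_log (mul_pos hκ0 hd0) (by nlinarith only [hd2, hκr, hκr.2])
    rw [Real.log_mul (by norm_num) hX0.ne'] at h1
    have h2 : Real.log 8 / 2 ≤ δ / 8 * Real.log X := by
      have := mul_lt_mul_of_pos_right f3 hL
      rw [mul_assoc, inv_mul_cancel₀ hL.ne', mul_one] at this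
      exact this.le
    have h3 : (1 / 2 + δ / 8) * (2 * Real.log X) = Real.log X + 2 * (δ / 8 * Real.log X) := by ring
    rw [h3]
    linarith only [h1, h2]
  have hs : (2 * M : ℕ) * (Real.log 2 / Real.log X) ≤ 3 * δ / 8 := by
    refine le_trans (le_of_eq ?_) f5.le
    field_simp
  have h1 := hX₁ X (le_trans (le_max_left _ _) hX) (dsPhi ε σ d h (Real.log X))
    (continuous_dsPhi hh hL hε σ d) (fun t => abs_dsPhi_le hh hL hε σ d t)
    ((2 * M : ℕ) * (Real.log 2 / Real.log X)) hs (fun t ht => by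
      refine le_trans ?_ (dsPhi_low hh hhn hL hε σ d ht M)
      refine mul_le_mul_of_nonneg_right ?_ (HH_nonneg hhn _)
      linarith only [hM]) _ hb1 hb2 α hα
  have h2 : ∀ v : ℝ, yS c ε σ ρ h X d (Real.log (κ * d) / (2 * Real.log X) - v) =
      dsT c ρ (dsPhi ε σ d h (Real.log X)) (Real.log X)
        (Real.log (κ * d) / (2 * Real.log X) - v) := fun v => yS_eq_dsT hc0 hρ hh hX1 hε σ d _
  simp_rw [h2]
  refine le_trans ?_ h1
  have h3 : 0 ≤ ∫ v in Set.Ioc (1 / 2 + δ) (1 / 2 + δ + θ₀), Real.cosh (α * Real.log X * v) *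
        Hid θ₀ (v - (1 / 2 + δ)) :=
    setIntegral_nonneg measurableSet_Ioc fun v _ =>
      mul_nonneg (Real.cosh_pos _).le (ds_Hid_nonneg hθ₀ _)
  nlinarith only [hee, hδ, hδ4, h3]

end Pool.Agent.MP0016c7.Rz
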