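import Mathlib
import Pool.Agent.Lib.MP_0016c7_nt.Rz.Defs
import Pool.Agent.Lib.MP_0016c7_nt.Rz.DefsC
import Pool.Agent.Lib.MP_0016c7_nt.Rz.DefsE
import Pool.Agent.Lib.MP_0016c7_nt.Rz.DefsF
import Pool.Agent.Lib.MP_0016c7_nt.Rz2.DefsG
import Pool.Agent.Lib.MP_0016c7_nt.Rz.BBm
import Pool.Agent.Lib.MP_0016c7_nt.Rz.BBi
import Pool.Agent.Lib.MP_0016c7_nt.Rz.BBs

set_option autoImplicit false

/-!
The Mellin kernels of the families are admissible.
-/

open Finset MeasureTheory Filter Topology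
open scoped Real ContDiff

namespace Pool.Agent.MP0016c7.Rz

/-! ### powers with a small exponent -/

private theorem bcg_four : (4 : ℝ) ^ (1 / 8 : ℝ) ≤ 6 / 5 := by
  have h1 : (4 : ℝ) ^ (1 / 8 : ℝ) ≤ ((6 / 5 : ℝ) ^ 8) ^ (1 / 8 : ℝ) :=
    Real.rpow_le_rpow (by norm_num) (by norm_num) (by norm_num)
  refine h1.trans (le_of_eq ?_)
  rw [← Real.rpow_natCast, ← Real.rpow_mul (by norm_num)]
  norm_num

private theorem bcg_cpow {x : ℝ} (hx : 1 ≤ x) (hx4 : x ≤ 4) {z : ℂ} (hz : |z.re| ≤ 1 / 8) :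
    ‖(x : ℂ) ^ z‖ ≤ 6 / 5 ∧ ‖(x : ℂ) ^ z - 1‖ ≤ 5 * ‖z‖ := by
  have hx0 : 0 < x := by linarith
  have h1 : ‖(x : ℂ) ^ z‖ ≤ 6 / 5 := by
    rw [Complex.norm_cpow_eq_rpow_re_of_pos hx0]
    calc x ^ z.re ≤ x ^ (1 / 8 : ℝ) :=
          Real.rpow_le_rpow_of_exponent_le hx ((le_abs_self _).trans hz)
      _ ≤ (4 : ℝ) ^ (1 / 8 : ℝ) := Real.rpow_le_rpow hx0.le hx4 (by norm_num)
      _ ≤ 6 / 5 := bcg_four
  refine ⟨h1, ?_⟩
  have hlog0 : 0 ≤ Real.log x := Real.log_nonneg hx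
  have hlog2 : Real.log x ≤ 2 := by
    have h2 : Real.log x ≤ Real.log 4 := Real.log_le_log hx0 hx4
    have h3 : Real.log 4 = 2 * Real.log 2 := by
      rw [show (4 : ℝ) = 2 ^ 2 by norm_num, Real.log_pow]; norm_num
    have h4 := Real.log_two_lt_d9
    linarith
  have hw : (x : ℂ) ^ z = Complex.exp (Real.log x * z) := by
    rw [Complex.cpow_def_of_ne_zero (by exact_mod_cast hx0.ne'), Complex.ofReal_log hx0.le]
  have hwn : ‖(Real.log x : ℂ) * z‖ ≤ 2 * ‖z‖ := by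
    rw [norm_mul, Complex.norm_real, Real.norm_of_nonneg hlog0]
    exact mul_le_mul_of_nonneg_right hlog2 (norm_nonneg _)
  by_cases h5 : ‖(Real.log x : ℂ) * z‖ ≤ 1
  · have h6 := Complex.norm_exp_sub_one_le h5
    rw [hw]
    have := norm_nonneg z
    linarith
  · have h6 : ‖(x : ℂ) ^ z - 1‖ ≤ ‖(x : ℂ) ^ z‖ + ‖(1 : ℂ)‖ := norm_sub_le _ _
    rw [norm_one] at h6
    push Not at h5
    linarith

private theorem bcg_four' {z : ℂ} (hz : |z.re| ≤ 1 / 8) :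
    ‖(4 : ℂ) ^ z‖ ≤ 6 / 5 ∧ ‖(4 : ℂ) ^ z - 1‖ ≤ 5 * ‖z‖ := by
  have := bcg_cpow (x := 4) (by norm_num) (by norm_num) hz
  rwa [Complex.ofReal_ofNat] at this

private theorem bcg_two' {z : ℂ} (hz : |z.re| ≤ 1 / 8) :
    ‖(2 : ℂ) ^ z‖ ≤ 6 / 5 ∧ ‖(2 : ℂ) ^ z - 1‖ ≤ 5 * ‖z‖ := by
  have := bcg_cpow (x := 2) (by norm_num) (by norm_num) hz
  rwa [Complex.ofReal_ofNat] at this

private theorem bcg_half {z : ℂ} (hz : |z.re| ≤ 1 / 8) : ‖(4 : ℂ) ^ z / 2‖ ≤ 3 / 5 := by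
  rw [norm_div, Complex.norm_ofNat]
  have := (bcg_four' hz).1
  linarith

private theorem bcg_den {z : ℂ} (hz : |z.re| ≤ 1 / 8) : 2 / 5 ≤ ‖1 - (4 : ℂ) ^ z / 2‖ := by
  have h1 := norm_sub_norm_le (1 : ℂ) ((4 : ℂ) ^ z / 2)
  rw [norm_one] at h1
  have := bcg_half hz
  linarith

private theorem bcg_den0 {z : ℂ} (hz : |z.re| ≤ 1 / 8) : 1 - (4 : ℂ) ^ z / 2 ≠ 0 := by
  intro h
  have := bcg_den hz
  rw [h, norm_zero] at this
  linarith

/-- the geometric factor -/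
private noncomputable def bcgG (z : ℂ) : ℂ := ((4 : ℂ) ^ z / 2) / (1 - (4 : ℂ) ^ z / 2)

private theorem bcgG_norm {z : ℂ} (hz : |z.re| ≤ 1 / 8) : ‖bcgG z‖ ≤ 3 / 2 := by
  unfold bcgG
  rw [norm_div, div_le_iff₀ (by linarith [bcg_den hz])]
  have h1 := bcg_half hz
  have h2 := bcg_den hz
  linarith

/-- the multiplier -/
private noncomputable def bcgM (ε : ℤ) (z : ℂ) : ℂ :=
  if ε = 0 then (2 : ℂ) ^ z
    else bcgG z * ((√2 : ℂ) * ε * ((4 : ℂ) ^ z - 1) + (2 : ℂ) ^ z)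

private theorem bcg_eq (F : ℝ → ℝ) (σ ε : ℤ) (z : ℂ) :
    bG F σ ε z = bb F σ z * bcgM ε z := rfl

private theorem bcg_sqrt : ‖((√2 : ℝ) : ℂ)‖ ≤ 3 / 2 := by
  rw [Complex.norm_real, Real.norm_of_nonneg (Real.sqrt_nonneg _)]
  rw [Real.sqrt_le_left (by norm_num)]
  norm_num

private theorem bcg_eps {ε : ℤ} (hε : ε = 0 ∨ ε = 1 ∨ ε = -1) : ‖(ε : ℂ)‖ ≤ 1 := by
  rcases hε with h | h | h <;> subst h <;> simp

private theorem bcgM_norm {ε : ℤ} (hε : ε = 0 ∨ ε = 1 ∨ ε = -1) {z : ℂ} (hz : |z.re| ≤ 1 / 8) :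
    ‖bcgM ε z‖ ≤ 7 := by
  unfold bcgM
  split_ifs with h
  · linarith [(bcg_two' hz).1]
  · rw [norm_mul]
    have h1 := bcgG_norm hz
    have h2 : ‖(4 : ℂ) ^ z - 1‖ ≤ 11 / 5 := by
      have h3 := norm_sub_le ((4 : ℂ) ^ z) 1
      rw [norm_one] at h3
      linarith [(bcg_four' hz).1]
    have h4 : ‖((√2 : ℝ) : ℂ) * ε * ((4 : ℂ) ^ z - 1)‖ ≤ 3 / 2 * 1 * (11 / 5) := by
      rw [norm_mul, norm_mul]
      exact mul_le_mul (mul_le_mul bcg_sqrt (bcg_eps hε) (norm_nonneg _) (by norm_num)) h2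
        (norm_nonneg _) (by norm_num)
    have h5 := norm_add_le (((√2 : ℝ) : ℂ) * ε * ((4 : ℂ) ^ z - 1)) ((2 : ℂ) ^ z)
    have h6 := (bcg_two' hz).1
    have h7 : ‖((√2 : ℝ) : ℂ) * ε * ((4 : ℂ) ^ z - 1) + (2 : ℂ) ^ z‖ ≤ 9 / 2 := by linarith
    calc ‖bcgG z‖ * ‖((√2 : ℝ) : ℂ) * ε * ((4 : ℂ) ^ z - 1) + (2 : ℂ) ^ z‖
        ≤ 3 / 2 * (9 / 2) := mul_le_mul h1 h7 (norm_nonneg _) (by norm_num)
      _ ≤ 7 := by norm_num

private theorem bcgM_sub {ε : ℤ} (hε : ε = 0 ∨ ε = 1 ∨ ε = -1) {z : ℂ} (hz : |z.re| ≤ 1 / 8) :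
    ‖bcgM ε z - 1‖ ≤ 40 * ‖z‖ := by
  unfold bcgM
  have hz0 := norm_nonneg z
  split_ifs with h
  · linarith [(bcg_two' hz).2]
  · have hd := bcg_den0 hz
    have hd2 := bcg_den hz
    obtain ⟨u4, u4'⟩ := bcg_four' hz
    obtain ⟨u2, u2'⟩ := bcg_two' hz
    unfold bcgG
    set u : ℂ := (4 : ℂ) ^ z with hu
    set v : ℂ := (2 : ℂ) ^ z with hv
    have h1 : u / 2 / (1 - u / 2) * (((√2 : ℝ) : ℂ) * ε * (u - 1) + v) - 1 =
        (((√2 : ℝ) : ℂ) * ε * u * (u - 1) + u * (v - 1) + 2 * (u - 1)) /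
          (2 * (1 - u / 2)) := by
      have hd3 : 2 - u ≠ 0 := by
        intro h3
        apply hd
        have : 1 - u / 2 = (2 - u) / 2 := by ring
        rw [this, h3, zero_div]
      have hd4 : 1 - u / 2 = (2 - u) / 2 := by ring
      rw [hd4]
      field_simp
      ring
    rw [h1, norm_div, norm_mul, Complex.norm_ofNat, div_le_iff₀ (by linarith)]
    have a1 : ‖((√2 : ℝ) : ℂ) * ε * u * (u - 1)‖ ≤ 3 / 2 * 1 * (6 / 5) * (5 * ‖z‖) := by
      rw [norm_mul, norm_mul, norm_mul]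
      exact mul_le_mul (mul_le_mul (mul_le_mul bcg_sqrt (bcg_eps hε) (norm_nonneg _)
        (by norm_num)) u4 (norm_nonneg _) (by norm_num)) u4' (norm_nonneg _) (by norm_num)
    have a2 : ‖u * (v - 1)‖ ≤ 6 / 5 * (5 * ‖z‖) := by
      rw [norm_mul]
      exact mul_le_mul u4 u2' (norm_nonneg _) (by norm_num)
    have a3 : ‖2 * (u - 1)‖ ≤ 2 * (5 * ‖z‖) := by
      rw [norm_mul, Complex.norm_ofNat]
      exact mul_le_mul_of_nonneg_left u4' (by norm_num)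
    have a4 := norm_add_le (((√2 : ℝ) : ℂ) * ε * u * (u - 1) + u * (v - 1)) (2 * (u - 1))
    have a5 := norm_add_le (((√2 : ℝ) : ℂ) * ε * u * (u - 1)) (u * (v - 1))
    have a6 : 40 * ‖z‖ * (4 / 5) ≤ 40 * ‖z‖ * (2 * ‖1 - u / 2‖) :=
      mul_le_mul_of_nonneg_left (by linarith) (by positivity)
    linarith

/-! ### the vertical line -/

private theorem bcg_re (c t : ℝ) : ((c : ℂ) + Complex.I * t).re = c := by simp

private theorem bcg_im (c t : ℝ) : ((c : ℂ) + Complex.I * t).im = t := by simp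

private theorem bcg_ne {c : ℝ} (hc : 0 < c) (t : ℝ) : (c : ℂ) + Complex.I * t ≠ 0 := by
  intro h0
  have := congrArg Complex.re h0
  rw [bcg_re, Complex.zero_re] at this
  exact hc.ne' this

private theorem bcg_int {F : ℝ → ℝ} {a b : ℝ} (ha : 0 < a) (hF : Bump F a b)
    (hF0 : 0 < ∫ t, F t) (σ : ℤ) {c : ℝ} (hc : 0 < c) (hc1 : c ≤ 1) {φ : ℝ → ℂ}
    (hφ : Continuous φ) {M : ℝ} (hM : ∀ t, ‖φ t‖ ≤ M) :
    Integrable (fun t : ℝ => bb F σ (c + Complex.I * t) * φ t / (c + Complex.I * t)) := by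
  obtain ⟨C, hC0, hC⟩ := bb_bound ha hF hF0 σ 2
  have hcont : Continuous fun t : ℝ =>
      bb F σ (c + Complex.I * t) * φ t / (c + Complex.I * t) :=
    ((continuous_bb ha hF hF0 σ c (by rw [abs_of_pos hc]; exact hc1)).mul hφ).div
      (by fun_prop) (bcg_ne hc)
  refine (integrable_inv_one_add_sq.const_mul (C * M / c)).mono' hcont.aestronglyMeasurable
    (Eventually.of_forall fun t => ?_)
  have hM0 : 0 ≤ M := (norm_nonneg _).trans (hM t)
  have h1 := (hC (c + Complex.I * t) (by rw [bcg_re, abs_of_pos hc]; exact hc1)).1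
  have h2 : |t| ≤ ‖(c : ℂ) + Complex.I * t‖ := by
    have := Complex.abs_im_le_norm ((c : ℂ) + Complex.I * t)
    rwa [bcg_im] at this
  have h3 : c ≤ ‖(c : ℂ) + Complex.I * t‖ := by
    have := Complex.abs_re_le_norm ((c : ℂ) + Complex.I * t)
    rwa [bcg_re, abs_of_pos hc] at this
  have h4 : 1 + t ^ 2 ≤ (1 + ‖(c : ℂ) + Complex.I * t‖) ^ (2 : ℝ) := by
    rw [Real.rpow_two]
    have h5 : t ^ 2 = |t| ^ 2 := (sq_abs t).symm
    nlinarith [abs_nonneg t, norm_nonneg ((c : ℂ) + Complex.I * t)]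
  have h6 : ‖bb F σ (c + Complex.I * t)‖ ≤ C * (1 + t ^ 2)⁻¹ := by
    rw [← div_eq_mul_inv, le_div_iff₀ (by positivity)]
    exact (mul_le_mul_of_nonneg_left h4 (norm_nonneg _)).trans h1
  rw [norm_div, norm_mul]
  calc ‖bb F σ (c + Complex.I * t)‖ * ‖φ t‖ / ‖(c : ℂ) + Complex.I * t‖
      ≤ (C * (1 + t ^ 2)⁻¹) * M / c :=
        div_le_div₀ (by positivity) (mul_le_mul h6 (hM t) (norm_nonneg _) (by positivity)) hc h3
    _ = C * M / c * (1 + t ^ 2)⁻¹ := by ring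

private theorem bcg_ycont {y : ℝ} (hy : 0 < y) (c : ℝ) :
    Continuous fun t : ℝ => (y : ℂ) ^ (-(c + Complex.I * t : ℂ)) := by
  refine Continuous.const_cpow (by fun_prop) (Or.inl ?_)
  exact_mod_cast hy.ne'

private theorem bcg_ynorm {y : ℝ} (hy : 0 < y) (c t : ℝ) :
    ‖(y : ℂ) ^ (-(c + Complex.I * t : ℂ))‖ = y ^ (-c) := by
  rw [Complex.norm_cpow_eq_rpow_re_of_pos hy]
  simp

private theorem bcg_4cont (c : ℝ) : Continuous fun t : ℝ => (4 : ℂ) ^ (c + Complex.I * t : ℂ) :=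
  Continuous.const_cpow (by fun_prop) (Or.inl (by norm_num))

private theorem bcg_2cont (c : ℝ) : Continuous fun t : ℝ => (2 : ℂ) ^ (c + Complex.I * t : ℂ) :=
  Continuous.const_cpow (by fun_prop) (Or.inl (by norm_num))

private theorem bcg_Gcont {c : ℝ} (hc : |c| ≤ 1 / 8) :
    Continuous fun t : ℝ => bcgG (c + Complex.I * t) := by
  unfold bcgG
  refine ((bcg_4cont c).div_const 2).div (continuous_const.sub ((bcg_4cont c).div_const 2))
    fun t => bcg_den0 ?_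
  rw [bcg_re]
  exact hc

private theorem bcg_Mcont (ε : ℤ) {c : ℝ} (hc : |c| ≤ 1 / 8) :
    Continuous fun t : ℝ => bcgM ε (c + Complex.I * t) := by
  unfold bcgM
  split_ifs with h
  · exact bcg_2cont c
  · exact (bcg_Gcont hc).mul ((continuous_const.mul ((bcg_4cont c).sub continuous_const)).add
      (bcg_2cont c))

private theorem bcg_shift {x y : ℝ} (hx : 0 < x) (hy : 0 < y) (z : ℂ) :
    ((y / x : ℝ) : ℂ) ^ (-z) = (y : ℂ) ^ (-z) * (x : ℂ) ^ z := by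
  have hx' : (x : ℂ) ≠ 0 := by exact_mod_cast hx.ne'
  have hy' : (y : ℂ) ≠ 0 := by exact_mod_cast hy.ne'
  have hyx : ((y / x : ℝ) : ℂ) ≠ 0 := by exact_mod_cast (div_pos hy hx).ne'
  rw [Complex.cpow_def_of_ne_zero hx', Complex.cpow_def_of_ne_zero hy',
    Complex.cpow_def_of_ne_zero hyx, ← Complex.exp_add, ← Complex.ofReal_log hx.le,
    ← Complex.ofReal_log hy.le, ← Complex.ofReal_log (div_pos hy hx).le,
    Real.log_div hy.ne' hx.ne', Complex.ofReal_sub]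
  congr 1
  ring

private theorem bcg_powz (k : ℕ) (z : ℂ) : (((4 : ℝ) ^ k : ℝ) : ℂ) ^ z = ((4 : ℂ) ^ z) ^ k := by
  have h4 : (4 : ℂ) ≠ 0 := by norm_num
  have hk : (((4 : ℝ) ^ k : ℝ) : ℂ) ≠ 0 := by
    exact_mod_cast (pow_pos (by norm_num : (0 : ℝ) < 4) k).ne'
  rw [Complex.cpow_def_of_ne_zero h4, Complex.cpow_def_of_ne_zero hk, ← Complex.exp_nat_mul,
    ← Complex.ofReal_log (by positivity), Real.log_pow, Complex.ofReal_mul,
    Complex.ofReal_natCast, Complex.ofReal_log (by norm_num), Complex.ofReal_ofNat]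
  congr 1
  ring

private theorem bcg_SB {F : ℝ → ℝ} {a b : ℝ} (ha : 0 < a) (hF : Bump F a b)
    (hF0 : 0 < ∫ t, F t) (σ : ℤ) {c : ℝ} (hc : 0 < c) (hc1 : c ≤ 1 / 8) {y : ℝ} (hy : 0 < y) :
    (SB F σ y : ℂ) = 1 / (2 * π) * ∫ t : ℝ, bb F σ (c + Complex.I * t) *
      (bcgG (c + Complex.I * t) * (y : ℂ) ^ (-(c + Complex.I * t : ℂ))) /
        (c + Complex.I * t) := by
  have hc8 : |c| ≤ 1 / 8 := by rw [abs_of_pos hc]; exact hc1
  have hre : ∀ t : ℝ, |((c : ℂ) + Complex.I * t).re| ≤ 1 / 8 := fun t => by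
    rw [bcg_re]; exact hc8
  set T : ℕ → ℝ → ℂ := fun i t => bb F σ (c + Complex.I * t) *
    (((4 : ℂ) ^ (c + Complex.I * t : ℂ) / 2) ^ (i + 1) *
      (y : ℂ) ^ (-(c + Complex.I * t : ℂ))) / (c + Complex.I * t) with hT
  set θ : ℝ := (4 : ℝ) ^ c / 2 with hθ
  have hθ0 : 0 ≤ θ := by positivity
  have hθn : ∀ t : ℝ, ‖(4 : ℂ) ^ (c + Complex.I * t : ℂ) / 2‖ = θ := by
    intro t
    have h1 : ‖(4 : ℂ) ^ (c + Complex.I * t : ℂ)‖ = (4 : ℝ) ^ c := by
      have := Complex.norm_cpow_eq_rpow_re_of_pos (show (0 : ℝ) < 4 by norm_num)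
        (c + Complex.I * t : ℂ)
      rw [bcg_re, Complex.ofReal_ofNat] at this
      exact this
    rw [norm_div, h1, Complex.norm_ofNat]
  have hθ1 : θ < 1 := by
    have := bcg_half (hre 0)
    rw [hθn] at this
    linarith
  -- the terms
  have hterm : ∀ i : ℕ, (((1 / 2 : ℝ) ^ (i + 1) * BB F σ (y / 4 ^ (i + 1)) : ℝ) : ℂ) =
      1 / (2 * π) * ∫ t : ℝ, T i t := by
    intro i
    rw [Complex.ofReal_mul, BB_inversion ha hF hF0 σ c hc (by linarith) (y / 4 ^ (i + 1))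
      (by positivity), ← mul_assoc, mul_comm (((1 / 2 : ℝ) ^ (i + 1) : ℝ) : ℂ), mul_assoc,
      ← integral_const_mul]
    congr 2
    funext t
    rw [hT]
    simp only
    rw [bcg_shift (by positivity) hy, bcg_powz]
    push_cast
    rw [div_pow, div_pow, one_pow]
    ring
  have hTint : ∀ i, Integrable (T i) := by
    intro i
    refine bcg_int ha hF hF0 σ hc (by linarith)
      (φ := fun t : ℝ => ((4 : ℂ) ^ (c + Complex.I * t : ℂ) / 2) ^ (i + 1) *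
        (y : ℂ) ^ (-(c + Complex.I * t : ℂ))) ?_ (M := θ ^ (i + 1) * y ^ (-c)) fun t => ?_
    · exact (((bcg_4cont c).div_const 2).pow _).mul (bcg_ycont hy c)
    · rw [norm_mul, norm_pow, hθn, bcg_ynorm hy]
  have hTnorm : ∀ i, ∫ t : ℝ, ‖T i t‖ = θ ^ (i + 1) * ∫ t : ℝ,
      ‖bb F σ (c + Complex.I * t) * (y : ℂ) ^ (-(c + Complex.I * t : ℂ)) /
        (c + Complex.I * t)‖ := by
    intro i
    rw [← integral_const_mul]
    congr 1
    funext t
    rw [hT]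
    simp only
    rw [norm_div, norm_mul, norm_mul, norm_pow, hθn, norm_div, norm_mul]
    ring
  have hsum : Summable fun i => ∫ t : ℝ, ‖T i t‖ := by
    simp_rw [hTnorm]
    refine Summable.mul_right _ ?_
    simp_rw [pow_succ]
    exact (summable_geometric_of_lt_one hθ0 hθ1).mul_right _
  have h1 := hasSum_integral_of_summable_integral_norm hTint hsum
  have h2 : ∀ t : ℝ, ∑' i, T i t = bb F σ (c + Complex.I * t) *
      (bcgG (c + Complex.I * t) * (y : ℂ) ^ (-(c + Complex.I * t : ℂ))) /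
        (c + Complex.I * t) := by
    intro t
    have h3 : ‖(4 : ℂ) ^ (c + Complex.I * t : ℂ) / 2‖ < 1 := by rw [hθn]; exact hθ1
    have h4 := (hasSum_geometric_of_norm_lt_one h3).mul_left
      (bb F σ (c + Complex.I * t) * ((4 : ℂ) ^ (c + Complex.I * t : ℂ) / 2) *
        (y : ℂ) ^ (-(c + Complex.I * t : ℂ)) / (c + Complex.I * t))
    have h5 : (fun i => T i t) = fun i => bb F σ (c + Complex.I * t) *
        ((4 : ℂ) ^ (c + Complex.I * t : ℂ) / 2) * (y : ℂ) ^ (-(c + Complex.I * t : ℂ)) /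
          (c + Complex.I * t) * ((4 : ℂ) ^ (c + Complex.I * t : ℂ) / 2) ^ i := by
      funext i
      rw [hT]
      simp only
      rw [pow_succ]
      ring
    rw [h5, h4.tsum_eq]
    unfold bcgG
    ring
  simp_rw [h2] at h1
  unfold SB
  rw [Complex.ofReal_tsum]
  simp_rw [hterm]
  rw [tsum_mul_left, h1.tsum_eq]

theorem BC_bG {F : ℝ → ℝ} {a b : ℝ} (ha : 0 < a) (hF : Bump F a b) (hF0 : 0 < ∫ t, F t) (σ ε : ℤ)
    (hε : ε = 0 ∨ ε = 1 ∨ ε = -1) : BC (bG F σ ε) (BG F σ ε) := by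
  refine ⟨fun A => ?_, fun c hc => ?_, fun c hc hc1 y hy => ?_⟩
  · obtain ⟨C, hC0, hC⟩ := bb_bound ha hF hF0 σ A
    refine ⟨7 * C + 40, by positivity, fun z hz => ?_⟩
    obtain ⟨h1, h2⟩ := hC z (by linarith)
    have h3 := bcgM_norm hε hz
    have h4 := bcgM_sub hε hz
    have hz0 := norm_nonneg z
    rw [bcg_eq]
    constructor
    · rw [norm_mul]
      have h5 : 0 ≤ ‖bb F σ z‖ * (1 + ‖z‖) ^ A := by positivity
      calc ‖bb F σ z‖ * ‖bcgM ε z‖ * (1 + ‖z‖) ^ A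
          = ‖bcgM ε z‖ * (‖bb F σ z‖ * (1 + ‖z‖) ^ A) := by ring
        _ ≤ 7 * C := mul_le_mul h3 h1 h5 (by norm_num)
        _ ≤ 7 * C + 40 := by linarith
    · have h5 : bb F σ z * bcgM ε z - 1 = (bb F σ z - 1) * bcgM ε z + (bcgM ε z - 1) := by ring
      rw [h5]
      refine (norm_add_le _ _).trans ?_
      rw [norm_mul]
      have h6 : ‖bb F σ z - 1‖ * ‖bcgM ε z‖ ≤ C * ‖z‖ * 7 :=
        mul_le_mul h2 h3 (norm_nonneg _) (by positivity)
      linarith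
  · have h1 := (continuous_bb ha hF hF0 σ c (by linarith)).mul (bcg_Mcont ε hc)
    exact h1
  · by_cases h0 : ε = 0
    · have h1 : BG F σ ε y = BB F σ (y / 2) := by
        unfold BG
        rw [if_pos h0]
      rw [h1, BB_inversion ha hF hF0 σ c hc (by linarith) (y / 2) (by positivity)]
      congr 2
      funext t
      have h2 : bG F σ ε (c + Complex.I * t) =
          bb F σ (c + Complex.I * t) * (2 : ℂ) ^ (c + Complex.I * t : ℂ) := by
        rw [bcg_eq, bcgM, if_pos h0]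
      rw [h2, bcg_shift (by norm_num) hy, Complex.ofReal_ofNat]
      ring
    · have hc8 : |c| ≤ 1 / 8 := by rw [abs_of_pos hc]; exact hc1
      have hre : ∀ t : ℝ, |((c : ℂ) + Complex.I * t).re| ≤ 1 / 8 := fun t => by
        rw [bcg_re]; exact hc8
      have h1 : BG F σ ε y = √2 * ε * (SB F σ (y / 4) - SB F σ y) + SB F σ (y / 2) := by
        unfold BG
        rw [if_neg h0]
      have hint : ∀ x : ℝ, 0 < x → Integrable (fun t : ℝ => bb F σ (c + Complex.I * t) *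
          (bcgG (c + Complex.I * t) * (x : ℂ) ^ (-(c + Complex.I * t : ℂ))) /
            (c + Complex.I * t)) := by
        intro x hx
        refine bcg_int ha hF hF0 σ hc (by linarith)
          (φ := fun t : ℝ => bcgG (c + Complex.I * t) * (x : ℂ) ^ (-(c + Complex.I * t : ℂ)))
          ((bcg_Gcont hc8).mul (bcg_ycont hx c)) (M := 3 / 2 * x ^ (-c)) fun t => ?_
        rw [norm_mul, bcg_ynorm hx]
        exact mul_le_mul_of_nonneg_right (bcgG_norm (hre t)) (by positivity)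
      have i4 := hint (y / 4) (by positivity)
      have i1 := hint y hy
      have i2 := hint (y / 2) (by positivity)
      rw [h1]
      push_cast
      have e4 := bcg_SB ha hF hF0 σ hc hc1 (y := y / 4) (by positivity)
      have e1 := bcg_SB ha hF hF0 σ hc hc1 hy
      have e2 := bcg_SB ha hF hF0 σ hc hc1 (y := y / 2) (by positivity)
      rw [e4, e1, e2]
      have key : ∫ t : ℝ, bG F σ ε (c + Complex.I * t) *
          (y : ℂ) ^ (-(c + Complex.I * t : ℂ)) / (c + Complex.I * t) =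
          ((√2 : ℝ) : ℂ) * ε * ((∫ t : ℝ, bb F σ (c + Complex.I * t) *
            (bcgG (c + Complex.I * t) * ((y / 4 : ℝ) : ℂ) ^ (-(c + Complex.I * t : ℂ))) /
              (c + Complex.I * t)) - ∫ t : ℝ, bb F σ (c + Complex.I * t) *
            (bcgG (c + Complex.I * t) * (y : ℂ) ^ (-(c + Complex.I * t : ℂ))) /
              (c + Complex.I * t)) + ∫ t : ℝ, bb F σ (c + Complex.I * t) *
            (bcgG (c + Complex.I * t) * ((y / 2 : ℝ) : ℂ) ^ (-(c + Complex.I * t : ℂ))) /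
              (c + Complex.I * t) := by
        rw [← integral_sub i4 i1, ← integral_const_mul, ← integral_add _ i2]
        · congr 1
          funext t
          have h2 : bG F σ ε (c + Complex.I * t) = bb F σ (c + Complex.I * t) *
              (bcgG (c + Complex.I * t) * (((√2 : ℝ) : ℂ) * ε *
                ((4 : ℂ) ^ (c + Complex.I * t : ℂ) - 1) +
                  (2 : ℂ) ^ (c + Complex.I * t : ℂ))) := by
            rw [bcg_eq, bcgM, if_neg h0]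
          rw [h2, bcg_shift (by norm_num) hy, bcg_shift (by norm_num) hy,
            Complex.ofReal_ofNat, Complex.ofReal_ofNat]
          ring
        · exact (i4.sub i1).const_mul _
      rw [key]
      ring

end Pool.Agent.MP0016c7.Rz
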