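import Mathlib
import Pool.Agent.Lib.MP_0016c7_nt.Rz.Defs
import Pool.Agent.Lib.MP_0016c7_nt.Rz.DefsC
import Pool.Agent.Lib.MP_0016c7_nt.Rz.DefsE
import Pool.Agent.Lib.MP_0016c7_nt.Rz.DefsF
import Pool.Agent.Lib.MP_0016c7_nt.Rz2.DefsG
import Pool.Agent.Lib.MP_0016c7_nt.Rz2.NSc

set_option autoImplicit false

/-!
The error term hypothesis for general coefficients (proved in `Rz2/ErrGd.lean`).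
-/

open Finset MeasureTheory Filter Topology
open scoped Real ContDiff

namespace Pool.Agent.MP0016c7.Rz

/-- The error terms with general coefficients are negligible for the mollifier length `θ₁`. -/
def ErrG (θ₁ δ : ℝ) : Prop :=
  ∀ (F : ℝ → ℝ) (a b : ℝ), 0 < a → Bump F a b → ∀ σ : ℤ, (σ = 1 ∨ σ = -1) →
  ∀ r : ℕ, Odd r → ∀ c₀ : ℝ, (c₀ = 0 ∨ c₀ = 1) →
  ∀ (ρ₁ ρ₂ h : ℝ → ℝ), Bump ρ₁ (-(δ / 2)) (δ / 2) → Bump ρ₂ (-(δ / 2)) (δ / 2) → Bump h 0 θ₁ →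
  ∀ C₀ : ℝ, 0 < C₀ → ∀ ε : ℝ, 0 < ε → ∃ X₀ : ℝ, ∀ X : ℝ, X₀ ≤ X →
    ∀ Y₁ ∈ Set.Icc (-1 : ℝ) (1 / 2 + δ), ∀ Y₂ ∈ Set.Icc (-1 : ℝ) (1 / 2 + δ), ∀ c : ℤ → ℝ,
    (∀ k, |c k| ≤ 2) → ∀ Y : ℝ, X / C₀ ≤ Y → Y ≤ C₀ * X →
    |quad (Wt c₀ ρ₁ h X θ₁ δ Y₁) (Wt c₀ ρ₂ h X θ₁ δ Y₂) r ⌊X ^ 2⌋₊ (NSc F σ c Y)| ≤ ε

end Pool.Agent.MP0016c7.Rz
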