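import Mathlib
import Pool.Agent.Lib.MP_0016c7_nt.Rz.Defs
import Pool.Agent.Lib.MP_0016c7_nt.Rz.DefsC
import Pool.Agent.Lib.MP_0016c7_nt.Rz.DefsE
import Pool.Agent.Lib.MP_0016c7_nt.Rz.DefsF
import Pool.Agent.Lib.MP_0016c7_nt.Rz2.DefsG
import Pool.Agent.Lib.MP_0016c7_nt.Rz.MMr
import Pool.Agent.Lib.MP_0016c7_nt.Rz.ArithA7
import Pool.Agent.Lib.MP_0016c7_nt.Rz.BBm
import Pool.Agent.Lib.MP_0016c7_nt.Rz.BBs

set_option autoImplicit false

/-!
The Mellin representation of the main terms of the families.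
-/

open Finset MeasureTheory Filter Topology
open scoped Real ContDiff

namespace Pool.Agent.MP0016c7.Rz

private theorem mgr_sq1_pos (N : ℕ) : 0 < sq1 N := by
  unfold sq1
  exact Finset.prod_pos (fun p hp => (Nat.prime_of_mem_primeFactors (Finset.mem_filter.1 hp).1).pos)

private theorem mgr_kernel {F : ℝ → ℝ} {a b : ℝ} (ha : 0 < a) (hF : Bump F a b)
    (hF0 : 0 < ∫ t, F t) (σ : ℤ) (c : ℝ) (hc : 0 < c) (hc1 : c ≤ 1) (Y : ℝ) (hY : 0 < Y) :
    Integrable (fun t : ℝ => bb F σ (c + Complex.I * t) * ((Y : ℝ) : ℂ) ^ (-(c + Complex.I * t : ℂ)) /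
      (c + Complex.I * t)) := by
  have hcont : Continuous (fun t : ℝ => bb F σ (c + Complex.I * t) *
      ((Y : ℝ) : ℂ) ^ (-(c + Complex.I * t : ℂ)) / (c + Complex.I * t)) := by
    apply Continuous.div
    · apply Continuous.mul (continuous_bb ha hF hF0 σ c (by rw [abs_of_pos hc]; exact hc1))
      apply Continuous.const_cpow
      · fun_prop
      · left
        exact_mod_cast hY.ne'
    · fun_prop
    · intro t h0
      have := congrArg Complex.re h0
      simp at this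
      linarith
  obtain ⟨C, hC, hb⟩ := bb_bound ha hF hF0 σ 2
  have hdom : Integrable (fun t : ℝ => (C * Y ^ (-c) / c) * (1 + t ^ 2)⁻¹) :=
    integrable_inv_one_add_sq.const_mul _
  refine hdom.mono' hcont.aestronglyMeasurable (Filter.Eventually.of_forall fun t => ?_)
  have hre : ((c : ℂ) + Complex.I * t).re = c := by simp
  have him : ((c : ℂ) + Complex.I * t).im = t := by simp
  have h1 := (hb (c + Complex.I * t) (by rw [hre, abs_of_pos hc]; exact hc1)).1
  have h2 : |t| ≤ ‖(c : ℂ) + Complex.I * t‖ := by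
    have := Complex.abs_im_le_norm ((c : ℂ) + Complex.I * t)
    rwa [him] at this
  have h3 : c ≤ ‖(c : ℂ) + Complex.I * t‖ := by
    have := Complex.re_le_norm ((c : ℂ) + Complex.I * t)
    rwa [hre] at this
  have h4 : ‖bb F σ (c + Complex.I * t)‖ ≤ C * (1 + t ^ 2)⁻¹ := by
    rw [← div_eq_mul_inv, le_div_iff₀ (by positivity)]
    refine le_trans ?_ h1
    apply mul_le_mul_of_nonneg_left _ (norm_nonneg _)
    rw [Real.rpow_two]
    have h5 : t ^ 2 ≤ ‖(c : ℂ) + Complex.I * t‖ ^ 2 := by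
      rw [← sq_abs t]
      exact pow_le_pow_left₀ (abs_nonneg t) h2 2
    nlinarith [norm_nonneg ((c : ℂ) + Complex.I * t)]
  have h6 : ‖((Y : ℝ) : ℂ) ^ (-(c + Complex.I * t : ℂ))‖ = Y ^ (-c) := by
    rw [Complex.norm_cpow_eq_rpow_re_of_pos hY]
    simp
  rw [norm_div, norm_mul, h6]
  have hYc : 0 < Y ^ (-c) := Real.rpow_pos_of_pos hY _
  calc ‖bb F σ (c + Complex.I * t)‖ * Y ^ (-c) / ‖(c : ℂ) + Complex.I * t‖
      ≤ (C * (1 + t ^ 2)⁻¹) * Y ^ (-c) / c := by
        apply div_le_div₀ (by positivity) (mul_le_mul_of_nonneg_right h4 hYc.le) hc h3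
    _ = (C * Y ^ (-c) / c) * (1 + t ^ 2)⁻¹ := by ring

/-- the integrand at the height `Y` -/
private noncomputable def mgr_K (F : ℝ → ℝ) (σ : ℤ) (Y : ℝ) (N : ℕ) (c t : ℝ) : ℂ :=
  bb F σ (c + Complex.I * t) * (((Y / 2 : ℝ)) : ℂ) ^ (-(c + Complex.I * t : ℂ)) *
        bz (c + Complex.I * t) N / (c + Complex.I * t)

private theorem mgr_K_int {F : ℝ → ℝ} {a b : ℝ} (ha : 0 < a) (hF : Bump F a b)
    (hF0 : 0 < ∫ t, F t) (σ : ℤ) (N : ℕ) (c : ℝ) (hc : 0 < c) (hc1 : c ≤ 1) (Y : ℝ) (hY : 0 < Y) :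
    Integrable (fun t : ℝ => mgr_K F σ Y N c t) := by
  have hq : 0 < sq1 N := mgr_sq1_pos N
  have hint : ∀ e ∈ (sq1 N).divisors, Integrable (fun t : ℝ =>
      (ArithmeticFunction.moebius e : ℂ) * ((((sq1 N : ℝ) / (e : ℝ) ^ 2 : ℝ) : ℂ) ^
        (c + Complex.I * t : ℂ) *
        (bb F σ (c + Complex.I * t) * ((Y / 2 : ℝ) : ℂ) ^ (-(c + Complex.I * t : ℂ)) /
          (c + Complex.I * t)))) := by
    intro e he
    have he0 : (0 : ℝ) < e := by exact_mod_cast Nat.pos_of_mem_divisors he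
    have hqR : (0 : ℝ) < sq1 N := by exact_mod_cast hq
    have hpos : (0 : ℝ) < (sq1 N : ℝ) / (e : ℝ) ^ 2 := by positivity
    apply Integrable.const_mul
    have hk := mgr_kernel ha hF hF0 σ c hc hc1 (Y / 2) (by positivity)
    apply hk.bdd_mul (c := ((sq1 N : ℝ) / (e : ℝ) ^ 2) ^ c)
    · apply Continuous.aestronglyMeasurable
      apply Continuous.const_cpow
      · fun_prop
      · left
        exact_mod_cast hpos.ne'
    · filter_upwards with t
      rw [Complex.norm_cpow_eq_rpow_re_of_pos hpos]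
      simp
  have h1 := (integrable_finsetSum _ hint).const_mul ((rhoN N : ℂ) / (√(sq1 N : ℝ) : ℂ))
  refine h1.congr (Filter.Eventually.of_forall fun t => ?_)
  simp only [mgr_K, bz]
  rw [Finset.mul_sum, Finset.mul_sum, Finset.mul_sum, Finset.sum_div]
  apply Finset.sum_congr rfl
  intro e _
  ring

/-- the integral with an additional factor -/
private noncomputable def mgr_J (F : ℝ → ℝ) (σ : ℤ) (Y : ℝ) (N : ℕ) (c : ℝ) (w : ℂ → ℂ) : ℂ :=
  ((∫ t, F t : ℝ) : ℂ) * (bz 0 N * w 0 - 1 / 2 * (1 / (2 * π)) * ∫ t : ℝ,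
    w (c + Complex.I * t) * mgr_K F σ Y N c t)

private theorem mgr_MM {F : ℝ → ℝ} {a b : ℝ} (ha : 0 < a) (hF : Bump F a b)
    (hF0 : 0 < ∫ t, F t) (σ : ℤ) (N : ℕ) (hN : Odd N) (c : ℝ) (hc : 0 < c) (hc1 : c ≤ 1) (Y : ℝ)
    (hY : 0 < Y) (k : ℝ) (hk : 0 < k) :
    (MM F σ (Y / k) N : ℂ) = mgr_J F σ Y N c (fun z => (k : ℂ) ^ z) := by
  rw [MM_repr ha hF hF0 σ N hN (Y / k) (by positivity) c hc hc1, mgr_J]
  congr 2
  · simp
  · congr 1
    apply integral_congr_ae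
    filter_upwards with t
    simp only [mgr_K]
    have e1 : ((Y / k / 2 : ℝ) : ℂ) ^ (-(c + Complex.I * t : ℂ)) =
        (k : ℂ) ^ (c + Complex.I * t : ℂ) * ((Y / 2 : ℝ) : ℂ) ^ (-(c + Complex.I * t : ℂ)) := by
      have e3 : (Y / k / 2 : ℝ) = k⁻¹ * (Y / 2) := by
        field_simp
      rw [e3, Complex.ofReal_mul, Complex.mul_cpow_ofReal_nonneg (by positivity) (by positivity),
        Complex.ofReal_inv, Complex.inv_cpow, Complex.cpow_neg, inv_inv]
      rw [Complex.arg_ofReal_of_nonneg (by positivity)]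
      exact Real.pi_pos.ne
    rw [e1]
    ring

/-- bounded factors keep integrability -/
private theorem mgr_wint {F : ℝ → ℝ} {a b : ℝ} (ha : 0 < a) (hF : Bump F a b)
    (hF0 : 0 < ∫ t, F t) (σ : ℤ) (N : ℕ) (c : ℝ) (hc : 0 < c) (hc1 : c ≤ 1) (Y : ℝ) (hY : 0 < Y)
    (k : ℝ) (hk : 0 < k) :
    Integrable (fun t : ℝ => (k : ℂ) ^ (c + Complex.I * t : ℂ) * mgr_K F σ Y N c t) := by
  apply (mgr_K_int ha hF hF0 σ N c hc hc1 Y hY).bdd_mul (c := k ^ c)
  · apply Continuous.aestronglyMeasurable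
    apply Continuous.const_cpow
    · fun_prop
    · left
      exact_mod_cast hk.ne'
  · filter_upwards with t
    rw [Complex.norm_cpow_eq_rpow_re_of_pos hk]
    simp

private theorem mgr_four {c : ℝ} (hc : 0 < c) (hc1 : c ≤ 1 / 8) :
    0 ≤ (4 : ℝ) ^ c / 2 ∧ (4 : ℝ) ^ c / 2 < 1 := by
  have h1 : (4 : ℝ) ^ c < (4 : ℝ) ^ (1 / 2 : ℝ) :=
    Real.rpow_lt_rpow_of_exponent_lt (by norm_num) (by linarith)
  have h2 : (4 : ℝ) ^ (1 / 2 : ℝ) = 2 := by
    rw [← Real.sqrt_eq_rpow, show (4 : ℝ) = 2 ^ 2 by norm_num]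
    exact Real.sqrt_sq (by norm_num)
  rw [h2] at h1
  have h3 : (0 : ℝ) < (4 : ℝ) ^ c := Real.rpow_pos_of_pos (by norm_num) c
  constructor
  · positivity
  · linarith

private theorem mgr_norm4 (c t : ℝ) :
    ‖(4 : ℂ) ^ (c + Complex.I * t : ℂ) / 2‖ = (4 : ℝ) ^ c / 2 := by
  rw [norm_div]
  have : ‖(4 : ℂ) ^ (c + Complex.I * t : ℂ)‖ = (4 : ℝ) ^ c := by
    have h := Complex.norm_cpow_eq_rpow_re_of_pos (show (0 : ℝ) < 4 by norm_num)
      (c + Complex.I * t : ℂ)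
    simpa using h
  rw [this]
  norm_num

private theorem mgr_pow4 (z : ℂ) (n : ℕ) :
    (((4 : ℝ) ^ n : ℝ) : ℂ) ^ z = ((4 : ℂ) ^ z) ^ n := by
  induction n with
  | zero => simp
  | succ n ih =>
    rw [pow_succ, Complex.ofReal_mul, Complex.mul_cpow_ofReal_nonneg (by positivity) (by norm_num),
      ih, pow_succ]
    norm_num

/-- the factor of `AA` -/
private noncomputable def mgr_S (z : ℂ) : ℂ := ((4 : ℂ) ^ z / 2) / (1 - (4 : ℂ) ^ z / 2)

private theorem mgr_S_zero : mgr_S 0 = 1 := by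
  unfold mgr_S
  rw [Complex.cpow_zero]
  norm_num

private theorem mgr_AA {F : ℝ → ℝ} {a b : ℝ} (ha : 0 < a) (hF : Bump F a b)
    (hF0 : 0 < ∫ t, F t) (σ : ℤ) (N : ℕ) (hN : Odd N) (c : ℝ) (hc : 0 < c) (hc1 : c ≤ 1 / 8) (Y : ℝ)
    (hY : 0 < Y) (k : ℝ) (hk : 0 < k) :
    Integrable (fun t : ℝ => (k : ℂ) ^ (c + Complex.I * t : ℂ) * mgr_S (c + Complex.I * t) *
      mgr_K F σ Y N c t) ∧
    (AA F σ (Y / k) N : ℂ) = mgr_J F σ Y N c (fun z => (k : ℂ) ^ z * mgr_S z) := by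
  obtain ⟨hq0, hq1⟩ := mgr_four hc hc1
  have hc1' : c ≤ 1 := by linarith
  set f : ℕ → ℝ → ℂ := fun i t => (k : ℂ) ^ (c + Complex.I * t : ℂ) *
    ((4 : ℂ) ^ (c + Complex.I * t : ℂ) / 2) ^ (i + 1) * mgr_K F σ Y N c t with hf
  have hKint := mgr_K_int ha hF hF0 σ N c hc hc1' Y hY
  have hfint : ∀ i, Integrable (f i) := by
    intro i
    apply hKint.bdd_mul (c := k ^ c * ((4 : ℝ) ^ c / 2) ^ (i + 1))
    · apply Continuous.aestronglyMeasurable
      apply Continuous.mul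
      · apply Continuous.const_cpow
        · fun_prop
        · left
          exact_mod_cast hk.ne'
      · apply Continuous.pow
        apply Continuous.div_const
        apply Continuous.const_cpow
        · fun_prop
        · left
          norm_num
    · filter_upwards with t
      rw [norm_mul, norm_pow, mgr_norm4, Complex.norm_cpow_eq_rpow_re_of_pos hk]
      simp
  have hnorm : ∀ i t, ‖f i t‖ = (k ^ c * ((4 : ℝ) ^ c / 2) ^ (i + 1)) * ‖mgr_K F σ Y N c t‖ := by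
    intro i t
    simp only [hf]
    rw [norm_mul, norm_mul, norm_pow, mgr_norm4, Complex.norm_cpow_eq_rpow_re_of_pos hk]
    simp
  have hsum : Summable (fun i => ∫ t, ‖f i t‖) := by
    have e1 : (fun i => ∫ t, ‖f i t‖) = fun i : ℕ => ((4 : ℝ) ^ c / 2) ^ i *
        (k ^ c * ((4 : ℝ) ^ c / 2) * ∫ t, ‖mgr_K F σ Y N c t‖) := by
      funext i
      rw [integral_congr_ae (Filter.Eventually.of_forall (hnorm i)), integral_const_mul]
      ring
    rw [e1]
    exact (summable_geometric_of_lt_one hq0 hq1).mul_right _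
  have htsum : ∀ t, HasSum (fun i => f i t) ((k : ℂ) ^ (c + Complex.I * t : ℂ) *
      mgr_S (c + Complex.I * t) * mgr_K F σ Y N c t) := by
    intro t
    have h1 : ‖(4 : ℂ) ^ (c + Complex.I * t : ℂ) / 2‖ < 1 := by rw [mgr_norm4]; exact hq1
    have h2 := (hasSum_geometric_of_norm_lt_one h1).mul_left
      ((k : ℂ) ^ (c + Complex.I * t : ℂ) * ((4 : ℂ) ^ (c + Complex.I * t : ℂ) / 2) *
        mgr_K F σ Y N c t)
    have e2 : (k : ℂ) ^ (c + Complex.I * t : ℂ) * ((4 : ℂ) ^ (c + Complex.I * t : ℂ) / 2) *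
        mgr_K F σ Y N c t * (1 - (4 : ℂ) ^ (c + Complex.I * t : ℂ) / 2)⁻¹ =
        (k : ℂ) ^ (c + Complex.I * t : ℂ) *
      mgr_S (c + Complex.I * t) * mgr_K F σ Y N c t := by
      unfold mgr_S
      rw [div_eq_mul_inv _ (1 - _)]
      ring
    rw [e2] at h2
    refine h2.congr_fun fun i => ?_
    simp only [hf]
    ring
  have hHS := hasSum_integral_of_summable_integral_norm hfint hsum
  have e3 : (fun t => ∑' i, f i t) = fun t : ℝ => (k : ℂ) ^ (c + Complex.I * t : ℂ) *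
      mgr_S (c + Complex.I * t) * mgr_K F σ Y N c t := funext fun t => (htsum t).tsum_eq
  rw [e3] at hHS
  constructor
  · have hS : Continuous (fun t : ℝ => (k : ℂ) ^ (c + Complex.I * t : ℂ) *
        mgr_S (c + Complex.I * t)) := by
      unfold mgr_S
      have h4 : Continuous (fun t : ℝ => (4 : ℂ) ^ (c + Complex.I * t : ℂ)) := by
        apply Continuous.const_cpow
        · fun_prop
        · left
          norm_num
      apply Continuous.mul
      · apply Continuous.const_cpow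
        · fun_prop
        · left
          exact_mod_cast hk.ne'
      · apply Continuous.div
        · exact h4.div_const _
        · exact continuous_const.sub (h4.div_const _)
        · intro t h0
          have h5 : (4 : ℂ) ^ (c + Complex.I * t : ℂ) / 2 = 1 := (sub_eq_zero.1 h0).symm
          have h6 := mgr_norm4 c t
          rw [h5, norm_one] at h6
          linarith
    apply hKint.bdd_mul (c := k ^ c * (((4 : ℝ) ^ c / 2) / (1 - (4 : ℝ) ^ c / 2)))
    · exact hS.aestronglyMeasurable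
    · filter_upwards with t
      rw [norm_mul, Complex.norm_cpow_eq_rpow_re_of_pos hk]
      have h7 : ‖mgr_S (c + Complex.I * t)‖ ≤ ((4 : ℝ) ^ c / 2) / (1 - (4 : ℝ) ^ c / 2) := by
        unfold mgr_S
        rw [norm_div, mgr_norm4]
        apply div_le_div_of_nonneg_left hq0 (by linarith)
        have h8 := norm_sub_norm_le (1 : ℂ) ((4 : ℂ) ^ (c + Complex.I * t : ℂ) / 2)
        rw [mgr_norm4, norm_one] at h8
        exact h8
      have h9 : ((c : ℂ) + Complex.I * t).re = c := by simp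
      rw [h9]
      exact mul_le_mul_of_nonneg_left h7 (Real.rpow_nonneg hk.le _)
  · have hMM : ∀ i : ℕ, (((1 / 2 : ℝ) ^ (i + 1) * MM F σ (Y / k / 4 ^ (i + 1)) N : ℝ) : ℂ) =
        ((∫ t, F t : ℝ) : ℂ) * (bz 0 N * (1 / 2 : ℂ) ^ (i + 1) - 1 / 2 * (1 / (2 * π)) *
          ∫ t : ℝ, f i t) := by
      intro i
      have e4 : Y / k / 4 ^ (i + 1) = Y / (k * 4 ^ (i + 1)) := by rw [div_div]
      rw [e4, Complex.ofReal_mul, mgr_MM ha hF hF0 σ N hN c hc hc1' Y hY (k * 4 ^ (i + 1))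
        (by positivity), mgr_J]
      have e5 : ∫ t : ℝ, f i t = (1 / 2 : ℂ) ^ (i + 1) * ∫ t : ℝ,
          ((k * 4 ^ (i + 1) : ℝ) : ℂ) ^ (c + Complex.I * t : ℂ) * mgr_K F σ Y N c t := by
        rw [← integral_const_mul]
        apply integral_congr_ae
        filter_upwards with t
        simp only [hf]
        have e6 : ((k * 4 ^ (i + 1) : ℝ) : ℂ) ^ (c + Complex.I * t : ℂ) =
            (k : ℂ) ^ (c + Complex.I * t : ℂ) * ((4 : ℂ) ^ (c + Complex.I * t : ℂ)) ^ (i + 1) := by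
          rw [Complex.ofReal_mul, Complex.mul_cpow_ofReal_nonneg hk.le (by positivity)]
          congr 1
          exact mgr_pow4 _ (i + 1)
        rw [e6, div_pow]
        have : ((1 : ℂ) / 2) ^ (i + 1) = 1 / 2 ^ (i + 1) := by rw [div_pow, one_pow]
        rw [this]
        ring
      rw [e5]
      push_cast
      rw [Complex.cpow_zero]
      ring
    have hgeo : HasSum (fun i : ℕ => (1 / 2 : ℂ) ^ (i + 1)) 1 := by
      have h1 := (hasSum_geometric_of_norm_lt_one (ξ := (1 / 2 : ℂ)) (by norm_num)).mul_left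
        (1 / 2 : ℂ)
      have e7 : (1 / 2 : ℂ) * (1 - 1 / 2)⁻¹ = 1 := by norm_num
      rw [e7] at h1
      refine h1.congr_fun fun i => ?_
      rw [pow_succ]
      ring
    have hfin := ((hgeo.mul_left (bz 0 N)).sub
      (hHS.mul_left (1 / 2 * (1 / (2 * (π : ℂ)))))).mul_left ((∫ t, F t : ℝ) : ℂ)
    have hfin2 : HasSum (fun i : ℕ => (((1 / 2 : ℝ) ^ (i + 1) *
        MM F σ (Y / k / 4 ^ (i + 1)) N : ℝ) : ℂ))
        (((∫ t, F t : ℝ) : ℂ) * (bz 0 N * 1 - 1 / 2 * (1 / (2 * π)) * ∫ t : ℝ,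
          (k : ℂ) ^ (c + Complex.I * t : ℂ) * mgr_S (c + Complex.I * t) *
            mgr_K F σ Y N c t)) :=
      hfin.congr_fun fun i => hMM i
    unfold AA mgr_J
    rw [Complex.ofReal_tsum, hfin2.tsum_eq]
    beta_reduce
    rw [mgr_S_zero, Complex.cpow_zero]
    simp only [mul_one]

private theorem mgr_one (F : ℝ → ℝ) (σ : ℤ) (N : ℕ) (Y : ℝ) :
    AA F σ (Y / 1) N = AA F σ Y N := by
  rw [div_one]

theorem MG_repr {F : ℝ → ℝ} {a b : ℝ} (ha : 0 < a) (hF : Bump F a b) (hF0 : 0 < ∫ t, F t) (σ ε : ℤ)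
    (hε : ε = 0 ∨ ε = 1 ∨ ε = -1) (Y : ℝ) (hY : 0 < Y) :
    MRep (bG F σ ε) (∫ t, F t) Y (MG F σ ε Y) := by
  intro N hN c hc hc1
  have hc1' : c ≤ 1 := by linarith
  by_cases h0 : ε = 0
  · have h1 := mgr_MM ha hF hF0 σ N hN c hc hc1' Y hY 2 (by norm_num)
    unfold MG
    rw [if_pos h0, h1, mgr_J]
    rw [Complex.cpow_zero, mul_one]
    congr 3
    apply integral_congr_ae
    filter_upwards with t
    simp only [mgr_K, bG]
    rw [if_pos h0]
    push_cast
    ring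
  · obtain ⟨i4, j4⟩ := mgr_AA ha hF hF0 σ N hN c hc hc1 Y hY 4 (by norm_num)
    obtain ⟨i1, j1⟩ := mgr_AA ha hF hF0 σ N hN c hc hc1 Y hY 1 (by norm_num)
    obtain ⟨i2, j2⟩ := mgr_AA ha hF hF0 σ N hN c hc hc1 Y hY 2 (by norm_num)
    rw [mgr_one] at j1
    have e1 : (∫ t : ℝ, bG F σ ε (c + Complex.I * t) *
        (((Y / 2 : ℝ)) : ℂ) ^ (-(c + Complex.I * t : ℂ)) *
        bz (c + Complex.I * t) N / (c + Complex.I * t)) =
        (√2 : ℂ) * ε * ((∫ t : ℝ, ((4 : ℝ) : ℂ) ^ (c + Complex.I * t : ℂ) *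
          mgr_S (c + Complex.I * t) * mgr_K F σ Y N c t) -
          ∫ t : ℝ, ((1 : ℝ) : ℂ) ^ (c + Complex.I * t : ℂ) *
          mgr_S (c + Complex.I * t) * mgr_K F σ Y N c t) +
        ∫ t : ℝ, ((2 : ℝ) : ℂ) ^ (c + Complex.I * t : ℂ) *
          mgr_S (c + Complex.I * t) * mgr_K F σ Y N c t := by
      have i5 : Integrable (fun t : ℝ => (√2 : ℂ) * ε *
          (((4 : ℝ) : ℂ) ^ (c + Complex.I * t : ℂ) *
          mgr_S (c + Complex.I * t) * mgr_K F σ Y N c t -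
          ((1 : ℝ) : ℂ) ^ (c + Complex.I * t : ℂ) *
          mgr_S (c + Complex.I * t) * mgr_K F σ Y N c t)) := (i4.sub i1).const_mul _
      rw [← integral_sub i4 i1, ← integral_const_mul, ← integral_add i5 i2]
      apply integral_congr_ae
      filter_upwards with t
      simp only [mgr_K, bG]
      rw [if_neg h0]
      unfold mgr_S
      push_cast
      rw [Complex.one_cpow]
      ring
    rw [e1]
    unfold MG
    rw [if_neg h0]
    push_cast
    rw [j4, j1, j2]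
    unfold mgr_J
    beta_reduce
    rw [mgr_S_zero, Complex.cpow_zero, Complex.cpow_zero, Complex.cpow_zero]
    push_cast
    ring

private theorem mgr_rho (N : ℕ) : 0 ≤ rhoN N ∧ rhoN N ≤ 1 := by
  unfold rhoN
  have h1 : ∀ p ∈ (sq2 N).primeFactors.filter (fun p => ¬ p ∣ sq1 N),
      0 ≤ 1 - 1 / (p : ℝ) ∧ 1 - 1 / (p : ℝ) ≤ 1 := by
    intro p hp
    have hp2 : 2 ≤ p := (Nat.prime_of_mem_primeFactors (Finset.mem_filter.1 hp).1).two_le
    have hp3 : (2 : ℝ) ≤ p := by exact_mod_cast hp2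
    have h2 : 1 / (p : ℝ) ≤ 1 := by
      rw [div_le_one (by linarith)]
      linarith
    have h3 : 0 ≤ 1 / (p : ℝ) := by positivity
    constructor <;> linarith
  exact ⟨Finset.prod_nonneg fun p hp => (h1 p hp).1,
    Finset.prod_le_one (fun p hp => (h1 p hp).1) fun p hp => (h1 p hp).2⟩

private theorem mgr_MM_le {F : ℝ → ℝ} {a b : ℝ} (ha : 0 < a) (hF : Bump F a b)
    (hF0 : 0 < ∫ t, F t) (σ : ℤ) :
    ∃ C : ℝ, 0 ≤ C ∧ ∀ N : ℕ, Odd N → ∀ Y : ℝ, 0 < Y → |MM F σ Y N| ≤ C * N := by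
  obtain ⟨C, hC, hb⟩ := BB_le ha hF hF0 σ
  refine ⟨(∫ t, F t) * (1 + C / 2), by positivity, fun N hN Y hY => ?_⟩
  rw [MM_eq ha hF hF0 σ N hN Y hY, abs_mul, abs_of_pos hF0, mul_assoc]
  apply mul_le_mul_of_nonneg_left _ hF0.le
  obtain ⟨hr0, hr1⟩ := mgr_rho N
  have hN0 : N ≠ 0 := by
    rintro rfl
    simp at hN
  have hN1 : (1 : ℝ) ≤ N := by exact_mod_cast Nat.one_le_iff_ne_zero.2 hN0
  have hq : 1 ≤ sq1 N := mgr_sq1_pos N
  have hqR : (1 : ℝ) ≤ sq1 N := by exact_mod_cast hq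
  have hqN : sq1 N ≤ N := by
    have h1 := sq1_mul_sq2 N hN0
    exact Nat.le_of_dvd (Nat.pos_of_ne_zero hN0) ⟨_, h1.symm⟩
  have hqN' : (sq1 N : ℝ) ≤ N := by exact_mod_cast hqN
  have hs : (1 : ℝ) ≤ √(sq1 N : ℝ) := by
    rw [Real.one_le_sqrt]
    exact hqR
  have h1 : |(if sq1 N = 1 then rhoN N else 0)| ≤ N := by
    split_ifs
    · rw [abs_of_nonneg hr0]
      linarith
    · rw [abs_zero]
      linarith
  have h2 : |rhoN N / √(sq1 N : ℝ)| ≤ 1 := by
    rw [abs_of_nonneg (by positivity)]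
    rw [div_le_one (by linarith)]
    linarith
  have h3 : |∑ e ∈ (sq1 N).divisors,
      (ArithmeticFunction.moebius e : ℝ) * BB F σ ((e : ℝ) ^ 2 * Y / (2 * (sq1 N : ℝ)))| ≤
      C * N := by
    calc |∑ e ∈ (sq1 N).divisors,
      (ArithmeticFunction.moebius e : ℝ) * BB F σ ((e : ℝ) ^ 2 * Y / (2 * (sq1 N : ℝ)))|
        ≤ ∑ e ∈ (sq1 N).divisors, |(ArithmeticFunction.moebius e : ℝ) *
          BB F σ ((e : ℝ) ^ 2 * Y / (2 * (sq1 N : ℝ)))| := Finset.abs_sum_le_sum_abs _ _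
      _ ≤ ∑ _e ∈ (sq1 N).divisors, C := by
          apply Finset.sum_le_sum
          intro e he
          have he0 : (0 : ℝ) < e := by exact_mod_cast Nat.pos_of_mem_divisors he
          rw [abs_mul]
          have h4 : |(ArithmeticFunction.moebius e : ℝ)| ≤ 1 := by
            have := ArithmeticFunction.abs_moebius_le_one (n := e)
            exact_mod_cast this
          have h5 := (hb ((e : ℝ) ^ 2 * Y / (2 * (sq1 N : ℝ))) (by positivity)).1
          calc |(ArithmeticFunction.moebius e : ℝ)| *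
              |BB F σ ((e : ℝ) ^ 2 * Y / (2 * (sq1 N : ℝ)))| ≤ 1 * C :=
                mul_le_mul h4 h5 (abs_nonneg _) (by norm_num)
            _ = C := one_mul _
      _ = ((sq1 N).divisors.card : ℝ) * C := by
          rw [Finset.sum_const, nsmul_eq_mul]
      _ ≤ C * N := by
          have h6 : (sq1 N).divisors.card ≤ sq1 N := Nat.card_divisors_le_self _
          have h7 : ((sq1 N).divisors.card : ℝ) ≤ sq1 N := by exact_mod_cast h6
          nlinarith
  calc |(if sq1 N = 1 then rhoN N else 0) - 1 / 2 * (rhoN N / √(sq1 N : ℝ) *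
        ∑ e ∈ (sq1 N).divisors,
        (ArithmeticFunction.moebius e : ℝ) * BB F σ ((e : ℝ) ^ 2 * Y / (2 * (sq1 N : ℝ))))|
      ≤ |(if sq1 N = 1 then rhoN N else 0)| + |1 / 2 * (rhoN N / √(sq1 N : ℝ) *
        ∑ e ∈ (sq1 N).divisors,
        (ArithmeticFunction.moebius e : ℝ) * BB F σ ((e : ℝ) ^ 2 * Y / (2 * (sq1 N : ℝ))))| :=
        abs_sub _ _
    _ ≤ N + 1 / 2 * (1 * (C * N)) := by
        apply add_le_add h1
        rw [abs_mul, abs_mul, abs_of_pos (by norm_num : (0 : ℝ) < 1 / 2)]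
        apply mul_le_mul_of_nonneg_left _ (by norm_num)
        exact mul_le_mul h2 h3 (abs_nonneg _) (by norm_num)
    _ = (1 + C / 2) * N := by ring

private theorem mgr_AA_le {F : ℝ → ℝ} (σ : ℤ) {C : ℝ} {N : ℕ}
    (h : ∀ Y : ℝ, 0 < Y → |MM F σ Y N| ≤ C * N) (Y : ℝ) (hY : 0 < Y) :
    |AA F σ Y N| ≤ C * N := by
  unfold AA
  have hgeo : HasSum (fun i : ℕ => (1 / 2 : ℝ) ^ (i + 1) * (C * N)) (C * N) := by
    have h1 := (hasSum_geometric_two).mul_left (1 / 2 * (C * N))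
    have e7 : 1 / 2 * (C * N) * 2 = C * N := by ring
    rw [e7] at h1
    refine h1.congr_fun fun i => ?_
    rw [pow_succ]
    ring
  rw [← Real.norm_eq_abs]
  apply tsum_of_norm_bounded hgeo
  intro i
  rw [Real.norm_eq_abs, abs_mul, abs_of_nonneg (by positivity)]
  exact mul_le_mul_of_nonneg_left (h _ (by positivity)) (by positivity)

theorem abs_MG_le {F : ℝ → ℝ} {a b : ℝ} (ha : 0 < a) (hF : Bump F a b) (hF0 : 0 < ∫ t, F t)
    (σ ε : ℤ) (hε : ε = 0 ∨ ε = 1 ∨ ε = -1) :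
    ∃ C : ℝ, ∀ N : ℕ, Odd N → ∀ Y : ℝ, 0 < Y → |MG F σ ε Y N| ≤ C * N := by
  obtain ⟨C, hC0, hC⟩ := mgr_MM_le ha hF hF0 σ
  refine ⟨(√2 * 2 + 1) * C, fun N hN Y hY => ?_⟩
  have hM := hC N hN
  have hCN : 0 ≤ C * N := by positivity
  have hs : 0 ≤ √(2 : ℝ) := Real.sqrt_nonneg 2
  unfold MG
  split_ifs with h0
  · have h1 := hM (Y / 2) (by positivity)
    nlinarith [mul_nonneg hs hCN]
  · have h1 := mgr_AA_le σ hM (Y / 4) (by positivity)
    have h2 := mgr_AA_le σ hM Y hY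
    have h3 := mgr_AA_le σ hM (Y / 2) (by positivity)
    have hε1 : |(ε : ℝ)| ≤ 1 := by
      rcases hε with h | h | h <;> rw [h] <;> norm_num
    calc |√2 * ε * (AA F σ (Y / 4) N - AA F σ Y N) + AA F σ (Y / 2) N|
        ≤ |√2 * ε * (AA F σ (Y / 4) N - AA F σ Y N)| + |AA F σ (Y / 2) N| := abs_add_le _ _
      _ ≤ √2 * 1 * (C * N + C * N) + C * N := by
          apply add_le_add _ h3
          rw [abs_mul, abs_mul, abs_of_nonneg hs]
          apply mul_le_mul
          · exact mul_le_mul_of_nonneg_left hε1 hs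
          · exact (abs_sub _ _).trans (add_le_add h1 h2)
          · exact abs_nonneg _
          · positivity
      _ = (√2 * 2 + 1) * C * N := by ring

end Pool.Agent.MP0016c7.Rz
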