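import Mathlib
import Pool.Agent.Lib.MP_0016c7_nt.Rz.Defs
import Pool.Agent.Lib.MP_0016c7_nt.Rz.DefsC
import Pool.Agent.Lib.MP_0016c7_nt.Rz.DefsE
import Pool.Agent.Lib.MP_0016c7_nt.Rz.DefsF
import Pool.Agent.Lib.MP_0016c7_nt.Rz2.DefsG
import Pool.Agent.Lib.MP_0016c7_nt.Rz.FtS

set_option autoImplicit false

/-!
The Fresnel integral of the transform.
-/

open Finset MeasureTheory Filter Topology
open scoped Real ContDiff

namespace Pool.Agent.MP0016c7.Rz

private theorem fres_cont {F : ℝ → ℝ} {a b : ℝ} (hF : Bump F a b) (σ : ℤ) :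
    Continuous (Ft F σ) := by
  obtain ⟨φ, hφ⟩ := Ft_schwartz hF σ
  have h : (Ft F σ) = fun ξ => φ ξ := funext fun ξ => (hφ ξ).symm
  rw [h]
  exact φ.continuous

private theorem fres_bound {F : ℝ → ℝ} {a b : ℝ} (hF : Bump F a b) (σ : ℤ) :
    ∃ C : ℝ, ∀ ξ : ℝ, |Ft F σ ξ| * (1 + |ξ|) ≤ C := by
  obtain ⟨φ, hφ⟩ := Ft_schwartz hF σ
  obtain ⟨C0, -, h0⟩ := φ.decay 0 0
  obtain ⟨C1, -, h1⟩ := φ.decay 1 0
  refine ⟨C0 + C1, fun ξ => ?_⟩
  have e0 := h0 ξ
  have e1 := h1 ξ
  rw [norm_iteratedFDeriv_zero, hφ, pow_zero, one_mul, Real.norm_eq_abs] at e0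
  rw [norm_iteratedFDeriv_zero, hφ, Real.norm_eq_abs, Real.norm_eq_abs, pow_one] at e1
  nlinarith

private theorem fres_int {F : ℝ → ℝ} {a b : ℝ} (hF : Bump F a b) (σ : ℤ) :
    Integrable (fun u : ℝ => Ft F σ (u ^ 2)) := by
  obtain ⟨C, hC⟩ := fres_bound hF σ
  refine Integrable.mono' (integrable_inv_one_add_sq.const_mul C)
    ((fres_cont hF σ).comp (by fun_prop : Continuous fun u : ℝ => u ^ 2)).aestronglyMeasurable
    (ae_of_all _ fun u => ?_)
  rw [Real.norm_eq_abs]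
  have h := hC (u ^ 2)
  rw [abs_of_nonneg (sq_nonneg u)] at h
  rw [← div_eq_mul_inv, le_div_iff₀ (by positivity)]
  exact h

private theorem fres_inner (σ : ℤ) {η : ℝ} (hη : 0 < η) (t : ℝ) :
    ∫ u : ℝ, Real.exp (-η * u ^ 2) * (Real.cos (2 * π * u ^ 2 * t) +
        σ * Real.sin (2 * π * u ^ 2 * t)) =
      ((π / (η + (2 * π * t : ℝ) * Complex.I : ℂ)) ^ (1 / 2 : ℂ)).re -
        σ * ((π / (η + (2 * π * t : ℝ) * Complex.I : ℂ)) ^ (1 / 2 : ℂ)).im := by
  have hre : 0 < (η + (2 * π * t : ℝ) * Complex.I : ℂ).re := by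
    rw [Complex.add_re, Complex.re_ofReal_mul, Complex.I_re, Complex.ofReal_re]
    linarith
  have hint := integrable_cexp_neg_mul_sq hre
  rw [← integral_gaussian_complex hre]
  have h := ContinuousLinearMap.integral_comp_comm (Complex.reCLM - (σ : ℝ) • Complex.imCLM) hint
  have h2 : (Complex.reCLM - (σ : ℝ) • Complex.imCLM)
      (∫ x : ℝ, Complex.exp (-(η + (2 * π * t : ℝ) * Complex.I : ℂ) * (x : ℂ) ^ 2)) =
      (∫ x : ℝ, Complex.exp (-(η + (2 * π * t : ℝ) * Complex.I : ℂ) * (x : ℂ) ^ 2)).re -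
      σ * (∫ x : ℝ, Complex.exp (-(η + (2 * π * t : ℝ) * Complex.I : ℂ) * (x : ℂ) ^ 2)).im := by
    simp only [sub_apply, smul_apply, Complex.reCLM_apply, Complex.imCLM_apply, smul_eq_mul]
  rw [← h2, ← h]
  refine integral_congr_ae (ae_of_all _ fun u => ?_)
  simp only [sub_apply, smul_apply, Complex.reCLM_apply, Complex.imCLM_apply, smul_eq_mul]
  have e : -(η + (2 * π * t : ℝ) * Complex.I : ℂ) * (u : ℂ) ^ 2 =
      ((-η * u ^ 2 : ℝ) : ℂ) + ((-(2 * π * u ^ 2 * t) : ℝ) : ℂ) * Complex.I := by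
    push_cast
    ring
  rw [e, Complex.exp_add, ← Complex.ofReal_exp, Complex.re_ofReal_mul, Complex.im_ofReal_mul,
    Complex.exp_ofReal_mul_I_re, Complex.exp_ofReal_mul_I_im, Real.cos_neg, Real.sin_neg]
  ring

private theorem fres_swap {F : ℝ → ℝ} {a b : ℝ} (hF : Bump F a b) (σ : ℤ) {η : ℝ}
    (hη : 0 < η) :
    ∫ u : ℝ, Real.exp (-η * u ^ 2) * Ft F σ (u ^ 2) =
      ∫ t : ℝ, F t * (((π / (η + (2 * π * t : ℝ) * Complex.I : ℂ)) ^ (1 / 2 : ℂ)).re -
        σ * ((π / (η + (2 * π * t : ℝ) * Complex.I : ℂ)) ^ (1 / 2 : ℂ)).im) := by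
  have hcs : HasCompactSupport F := by
    refine HasCompactSupport.intro (isCompact_Icc (a := a) (b := b)) fun x hx => ?_
    by_contra h
    exact hx ⟨(hF.supp x h).1.le, (hF.supp x h).2.le⟩
  have hFi : Integrable (fun t => |F t| * (1 + |(σ : ℝ)|)) :=
    (hF.smooth.continuous.integrable_of_hasCompactSupport hcs).abs.mul_const _
  have hprod : Integrable (Function.uncurry fun (u t : ℝ) => Real.exp (-η * u ^ 2) *
      (F t * (Real.cos (2 * π * u ^ 2 * t) + σ * Real.sin (2 * π * u ^ 2 * t))))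
      (volume.prod volume) := by
    refine Integrable.mono' ((integrable_exp_neg_mul_sq hη).mul_prod hFi) ?_
      (ae_of_all _ fun p => ?_)
    · have hc := hF.smooth.continuous
      exact (by fun_prop : Continuous (Function.uncurry fun (u t : ℝ) => Real.exp (-η * u ^ 2) *
        (F t * (Real.cos (2 * π * u ^ 2 * t) +
          σ * Real.sin (2 * π * u ^ 2 * t))))).aestronglyMeasurable
    · obtain ⟨u, t⟩ := p
      simp only [Function.uncurry_apply_pair]
      rw [Real.norm_eq_abs, abs_mul, abs_mul, abs_of_pos (Real.exp_pos _)]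
      have h1 : |Real.cos (2 * π * u ^ 2 * t) + σ * Real.sin (2 * π * u ^ 2 * t)| ≤
          1 + |(σ : ℝ)| := by
        refine (abs_add_le _ _).trans (add_le_add (Real.abs_cos_le_one _) ?_)
        rw [abs_mul]
        exact mul_le_of_le_one_right (abs_nonneg _) (Real.abs_sin_le_one _)
      gcongr
  calc ∫ u : ℝ, Real.exp (-η * u ^ 2) * Ft F σ (u ^ 2)
      = ∫ u : ℝ, ∫ t : ℝ, Real.exp (-η * u ^ 2) *
        (F t * (Real.cos (2 * π * u ^ 2 * t) + σ * Real.sin (2 * π * u ^ 2 * t))) := by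
        refine integral_congr_ae (ae_of_all _ fun u => ?_)
        simp only
        rw [integral_const_mul]
        rfl
    _ = ∫ t : ℝ, ∫ u : ℝ, Real.exp (-η * u ^ 2) *
        (F t * (Real.cos (2 * π * u ^ 2 * t) + σ * Real.sin (2 * π * u ^ 2 * t))) :=
        integral_integral_swap hprod
    _ = _ := by
        refine integral_congr_ae (ae_of_all _ fun t => ?_)
        simp only
        rw [← fres_inner σ hη t, ← integral_const_mul]
        refine integral_congr_ae (ae_of_all _ fun u => ?_)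
        simp only
        ring

private theorem fres_pt (σ : ℤ) {t : ℝ} (ht : 0 < t) :
    Tendsto (fun η : ℝ => ((π / (η + (2 * π * t : ℝ) * Complex.I : ℂ)) ^ (1 / 2 : ℂ)).re -
        σ * ((π / (η + (2 * π * t : ℝ) * Complex.I : ℂ)) ^ (1 / 2 : ℂ)).im) (𝓝[>] 0)
      (𝓝 ((1 + σ) / 2 / √t)) := by
  have hst : 0 < √t := Real.sqrt_pos.2 ht
  have hpt : (2 * π * t : ℝ) ≠ 0 := by positivity
  have hw : ((((0 : ℝ) : ℂ) + (2 * π * t : ℝ) * Complex.I : ℂ)) ≠ 0 := by
    intro h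
    have := congrArg Complex.im h
    simp at this
    exact hpt (by rcases this with h | h; all_goals simp_all)
  set w : ℂ := ((1 / (2 * √t) : ℝ) : ℂ) - ((1 / (2 * √t) : ℝ) : ℂ) * Complex.I with hwd
  have hwre : w.re = 1 / (2 * √t) := by
    rw [hwd, Complex.sub_re, Complex.re_ofReal_mul, Complex.I_re, Complex.ofReal_re]
    ring
  have hwim : w.im = -(1 / (2 * √t)) := by
    rw [hwd, Complex.sub_im, Complex.im_ofReal_mul, Complex.I_im, Complex.ofReal_im]
    ring
  have hsq : (π / (((0 : ℝ) : ℂ) + (2 * π * t : ℝ) * Complex.I : ℂ) : ℂ) = w ^ 2 := by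
    rw [div_eq_iff hw]
    have h1 : w ^ 2 = ((-(2 * (1 / (2 * √t)) ^ 2) : ℝ) : ℂ) * Complex.I := by
      rw [hwd]
      push_cast
      ring_nf
      rw [Complex.I_sq]
      ring
    rw [h1]
    have h2 : (2 * (1 / (2 * √t)) ^ 2 : ℝ) = 1 / (2 * t) := by
      rw [div_pow, mul_pow, Real.sq_sqrt ht.le]
      field_simp
    rw [h2]
    have h3 : (((-(1 / (2 * t)) : ℝ) : ℂ) * Complex.I) *
        ((((0 : ℝ) : ℂ) + (2 * π * t : ℝ) * Complex.I : ℂ)) =
        ((-(1 / (2 * t)) * (2 * π * t) : ℝ) : ℂ) * (Complex.I * Complex.I) := by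
      push_cast
      ring
    rw [h3, Complex.I_mul_I]
    have h4 : (-(1 / (2 * t)) * (2 * π * t) : ℝ) = -π := by
      field_simp
    rw [h4]
    push_cast
    ring
  have hval : (π / (((0 : ℝ) : ℂ) + (2 * π * t : ℝ) * Complex.I : ℂ) : ℂ) ^ (1 / 2 : ℂ) = w := by
    rw [hsq, one_div]
    exact Complex.sq_cpow_two_inv (by rw [hwre]; positivity)
  have hslit : (π / (((0 : ℝ) : ℂ) + (2 * π * t : ℝ) * Complex.I : ℂ) : ℂ) ∈ Complex.slitPlane := by
    rw [hsq]
    refine Or.inr ?_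
    rw [sq, Complex.mul_im, hwre, hwim]
    have : (1 / (2 * √t)) * (-(1 / (2 * √t))) + (-(1 / (2 * √t))) * (1 / (2 * √t)) =
        -(2 * (1 / (2 * √t)) ^ 2) := by ring
    rw [this]
    have : 0 < (1 / (2 * √t)) ^ 2 := by positivity
    linarith
  have hcont : ContinuousAt (fun η : ℝ => (π / (η + (2 * π * t : ℝ) * Complex.I : ℂ)) ^
      (1 / 2 : ℂ)) 0 := by
    refine ContinuousAt.cpow ?_ continuousAt_const hslit
    exact ContinuousAt.div (by fun_prop) (by fun_prop) hw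
  have hK : Tendsto (fun η : ℝ => (π / (η + (2 * π * t : ℝ) * Complex.I : ℂ)) ^
      (1 / 2 : ℂ)) (𝓝[>] 0) (𝓝 w) := by
    have := hcont.tendsto
    rw [hval] at this
    exact this.mono_left nhdsWithin_le_nhds
  have h1 := (Complex.continuous_re.tendsto w).comp hK
  have h2 := (Complex.continuous_im.tendsto w).comp hK
  have h3 := h1.sub (h2.const_mul (σ : ℝ))
  rw [hwre, hwim] at h3
  have e : (1 / (2 * √t)) - (σ : ℝ) * (-(1 / (2 * √t))) = (1 + σ) / 2 / √t := by
    field_simp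
    ring
  rw [e] at h3
  exact h3

theorem fresnel_Ft {F : ℝ → ℝ} {a b : ℝ} (ha : 0 < a) (hF : Bump F a b) (σ : ℤ) :
    Integrable (fun u : ℝ => Ft F σ (u ^ 2)) ∧
    ∫ u : ℝ, Ft F σ (u ^ 2) = (1 + σ) / 2 * ∫ t : ℝ, F t / √t := by
  refine ⟨fres_int hF σ, ?_⟩
  have hcs : HasCompactSupport F := by
    refine HasCompactSupport.intro (isCompact_Icc (a := a) (b := b)) fun x hx => ?_
    by_contra h
    exact hx ⟨(hF.supp x h).1.le, (hF.supp x h).2.le⟩
  have hFi : Integrable F := hF.smooth.continuous.integrable_of_hasCompactSupport hcs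
  have hL : Tendsto (fun η : ℝ => ∫ u : ℝ, Real.exp (-η * u ^ 2) * Ft F σ (u ^ 2)) (𝓝[>] 0)
      (𝓝 (∫ u : ℝ, Ft F σ (u ^ 2))) := by
    refine tendsto_integral_filter_of_dominated_convergence (fun u => |Ft F σ (u ^ 2)|) ?_ ?_
      (fres_int hF σ).abs ?_
    · refine Eventually.of_forall fun η => ?_
      have hc := fres_cont hF σ
      exact (by fun_prop : Continuous fun u : ℝ =>
        Real.exp (-η * u ^ 2) * Ft F σ (u ^ 2)).aestronglyMeasurable
    · filter_upwards [self_mem_nhdsWithin] with η hη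
      have hη' : 0 < η := hη
      refine ae_of_all _ fun u => ?_
      rw [Real.norm_eq_abs, abs_mul, abs_of_pos (Real.exp_pos _)]
      refine mul_le_of_le_one_left (abs_nonneg _) (Real.exp_le_one_iff.2 ?_)
      nlinarith [sq_nonneg u]
    · refine ae_of_all _ fun u => ?_
      have h : Tendsto (fun η : ℝ => Real.exp (-η * u ^ 2) * Ft F σ (u ^ 2)) (𝓝 0)
          (𝓝 (Real.exp (-0 * u ^ 2) * Ft F σ (u ^ 2))) :=
        (by fun_prop : Continuous fun η : ℝ =>
          Real.exp (-η * u ^ 2) * Ft F σ (u ^ 2)).tendsto 0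
      rw [neg_zero, zero_mul, Real.exp_zero, one_mul] at h
      exact h.mono_left nhdsWithin_le_nhds
  have hR : Tendsto (fun η : ℝ => ∫ t : ℝ, F t *
      (((π / (η + (2 * π * t : ℝ) * Complex.I : ℂ)) ^ (1 / 2 : ℂ)).re -
        σ * ((π / (η + (2 * π * t : ℝ) * Complex.I : ℂ)) ^ (1 / 2 : ℂ)).im)) (𝓝[>] 0)
      (𝓝 (∫ t : ℝ, F t * ((1 + σ) / 2 / √t))) := by
    refine tendsto_integral_filter_of_dominated_convergence
      (fun t => |F t| * ((1 / (2 * a)) ^ (1 / 2 : ℝ) * (1 + |(σ : ℝ)|))) ?_ ?_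
      (hFi.abs.mul_const _) ?_
    · refine Eventually.of_forall fun η => ?_
      have hK : Measurable fun t : ℝ => (π / (η + (2 * π * t : ℝ) * Complex.I : ℂ)) ^
          (1 / 2 : ℂ) := Measurable.pow_const (by fun_prop) _
      have hFm : Measurable F := hF.smooth.continuous.measurable
      exact (hFm.mul ((Complex.measurable_re.comp hK).sub
        ((Complex.measurable_im.comp hK).const_mul (σ : ℝ)))).aestronglyMeasurable
    · filter_upwards [self_mem_nhdsWithin] with η hη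
      have hη' : 0 < η := hη
      refine ae_of_all _ fun t => ?_
      rw [Real.norm_eq_abs, abs_mul]
      by_cases hFt : F t = 0
      · rw [hFt, abs_zero, zero_mul, zero_mul]
      have hat : a < t := (hF.supp t hFt).1
      refine mul_le_mul_of_nonneg_left ?_ (abs_nonneg _)
      set K := (π / (η + (2 * π * t : ℝ) * Complex.I : ℂ)) ^ (1 / 2 : ℂ) with hKd
      have hKn : ‖K‖ ≤ (1 / (2 * a)) ^ (1 / 2 : ℝ) := by
        have e : (1 / 2 : ℂ) = ((1 / 2 : ℝ) : ℂ) := by push_cast; rfl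
        rw [hKd, e, Complex.norm_cpow_real]
        refine Real.rpow_le_rpow (norm_nonneg _) ?_ (by norm_num)
        rw [norm_div, Complex.norm_real, Real.norm_eq_abs, abs_of_pos Real.pi_pos]
        have h1 : 2 * π * t ≤ ‖(η + (2 * π * t : ℝ) * Complex.I : ℂ)‖ := by
          have h2 := Complex.abs_im_le_norm (η + (2 * π * t : ℝ) * Complex.I : ℂ)
          have h3 : (η + (2 * π * t : ℝ) * Complex.I : ℂ).im = 2 * π * t := by
            rw [Complex.add_im, Complex.im_ofReal_mul, Complex.I_im, Complex.ofReal_im]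
            ring
          rw [h3] at h2
          exact (le_abs_self _).trans h2
        have h4 : 2 * π * a ≤ ‖(η + (2 * π * t : ℝ) * Complex.I : ℂ)‖ := by
          refine le_trans ?_ h1
          have := Real.pi_pos
          nlinarith
        calc π / ‖(η + (2 * π * t : ℝ) * Complex.I : ℂ)‖ ≤ π / (2 * π * a) := by
              have := Real.pi_pos
              gcongr
          _ = 1 / (2 * a) := by
              field_simp
      have h5 : |K.re| ≤ (1 / (2 * a)) ^ (1 / 2 : ℝ) := (Complex.abs_re_le_norm K).trans hKn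
      have h6 : |K.im| ≤ (1 / (2 * a)) ^ (1 / 2 : ℝ) := (Complex.abs_im_le_norm K).trans hKn
      calc |K.re - σ * K.im| ≤ |K.re| + |σ * K.im| := abs_sub _ _
        _ = |K.re| + |(σ : ℝ)| * |K.im| := by rw [abs_mul]
        _ ≤ (1 / (2 * a)) ^ (1 / 2 : ℝ) + |(σ : ℝ)| * (1 / (2 * a)) ^ (1 / 2 : ℝ) := by gcongr
        _ = _ := by ring
    · refine ae_of_all _ fun t => ?_
      by_cases hFt : F t = 0
      · simp only [hFt, zero_mul]
        exact tendsto_const_nhds
      · exact (fres_pt σ (ha.trans (hF.supp t hFt).1)).const_mul (F t)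
  have hEq : (fun η : ℝ => ∫ u : ℝ, Real.exp (-η * u ^ 2) * Ft F σ (u ^ 2)) =ᶠ[𝓝[>] 0]
      (fun η : ℝ => ∫ t : ℝ, F t *
      (((π / (η + (2 * π * t : ℝ) * Complex.I : ℂ)) ^ (1 / 2 : ℂ)).re -
        σ * ((π / (η + (2 * π * t : ℝ) * Complex.I : ℂ)) ^ (1 / 2 : ℂ)).im)) := by
    filter_upwards [self_mem_nhdsWithin] with η hη
    exact fres_swap hF σ hη
  have hfin := tendsto_nhds_unique (hL.congr' hEq) hR
  rw [hfin, ← integral_const_mul]
  refine integral_congr_ae (ae_of_all _ fun t => ?_)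
  simp only
  ring

end Pool.Agent.MP0016c7.Rz
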