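import Mathlib
import Pool.Agent.Lib.MP_0016c7_nt.Rz.Defs
import Pool.Agent.Lib.MP_0016c7_nt.Rz.DefsC
import Pool.Agent.Lib.MP_0016c7_nt.Rz.DefsE
import Pool.Agent.Lib.MP_0016c7_nt.Rz.DefsF
import Pool.Agent.Lib.MP_0016c7_nt.Rz2.DefsG
import Pool.Agent.Lib.MP_0016c7_nt.Rz.ArithA7
import Pool.Agent.Lib.MP_0016c7_nt.Rz.ArithA4
import Pool.Agent.Lib.MP_0016c7_nt.Rz.FtS
import Pool.Agent.Lib.MP_0016c7_nt.Rz.BBs
import Pool.Agent.Lib.MP_0016c7_nt.Rz2.Fres

set_option autoImplicit false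

/-!
The unsigned sum over squares and its pole.
-/

open Finset MeasureTheory Filter Topology
open scoped Real ContDiff

namespace Pool.Agent.MP0016c7.Rz

/-- The pole of the unsigned sum over squares. -/
noncomputable def pol (F : ℝ → ℝ) (σ : ℤ) (Y : ℝ) (N : ℕ) : ℝ :=
  (∏ p ∈ N.primeFactors, (1 - 1 / (p : ℝ))) * ((1 + σ) / 2 * ∫ t : ℝ, F t / √t) / √(2 * Y)

private lemma aR_dvd {b j e : ℕ} (hb : b ≠ 0) (he : Squarefree e)
    (h : (b : ℤ) ^ 2 ∣ (j : ℤ) ^ 2 * (e : ℤ)) : b ∣ j := by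
  have h' : b ^ 2 ∣ j ^ 2 * e := by exact_mod_cast h
  obtain ⟨b', j', hc, hb', hj'⟩ := Nat.exists_coprime b j
  have hg : 0 < Nat.gcd b j := Nat.gcd_pos_of_pos_left _ (Nat.pos_of_ne_zero hb)
  set g := Nat.gcd b j with hgdef
  have h2 : g ^ 2 * b' ^ 2 ∣ g ^ 2 * (j' ^ 2 * e) := by
    have e1 : g ^ 2 * b' ^ 2 = b ^ 2 := by rw [hb']; ring
    have e2 : g ^ 2 * (j' ^ 2 * e) = j ^ 2 * e := by rw [hj']; ring
    rw [e1, e2]; exact h'
  have h3 : b' ^ 2 ∣ j' ^ 2 * e := Nat.dvd_of_mul_dvd_mul_left (by positivity) h2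
  have h4 : b' ^ 2 ∣ e := (Nat.Coprime.pow 2 2 hc).dvd_of_dvd_mul_left h3
  have h5 : IsUnit b' := he b' (by rw [← sq]; exact h4)
  have h6 : b' = 1 := Nat.isUnit_iff.1 h5
  rw [hj', hb', h6, one_mul]
  exact dvd_mul_left _ _

private lemma aR_jac (x : ℤ) (n : ℕ) (hn : n ≠ 0) :
    ((jacobiSym (x ^ 2) n : ℤ) : ℝ) = if Nat.Coprime x.natAbs n then 1 else 0 := by
  split_ifs with h
  · have : x.gcd n = 1 := by simpa [Int.gcd, Nat.Coprime] using h
    rw [jacobiSym.sq_one' this]; norm_num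
  · have h1 : x.gcd n ≠ 1 := by
      intro h'; exact h (by simpa [Int.gcd, Nat.Coprime] using h')
    rw [jacobiSym.pow_left, jacobiSym.eq_zero_iff.2 ⟨hn, h1⟩]; norm_num

private lemma aR_rho (a b : ℕ) (hb : b ≠ 0) :
    ∑ e ∈ b.divisors, (ArithmeticFunction.moebius e : ℝ) / e *
      (if Nat.Coprime e a then 1 else 0) =
    ∏ p ∈ b.primeFactors.filter (fun p => ¬ p ∣ a), (1 - 1 / (p : ℝ)) := by
  classical
  set P := b.primeFactors.filter (fun p => ¬ p ∣ a) with hP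
  have hPp : ∀ p ∈ P, p.Prime := fun p hp => Nat.prime_of_mem_primeFactors (mem_filter.1 hp).1
  set n := ∏ p ∈ P, p with hn
  have hnP : n.primeFactors = P := Nat.primeFactors_prod hPp
  have hn0 : n ≠ 0 := Finset.prod_ne_zero_iff.2 fun p hp => (hPp p hp).ne_zero
  have hsq : Squarefree n := by
    rw [hn]
    refine Finset.squarefree_prod_of_pairwise_isCoprime ?_ ?_
    · intro p hp q hq hpq
      exact Nat.coprime_iff_isRelPrime.1 ((Nat.coprime_primes (hPp p hp) (hPp q hq)).2 hpq)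
    · intro p hp
      exact (hPp p hp).prime.irreducible.squarefree
  let f : ArithmeticFunction ℝ := ⟨fun n => (n : ℝ)⁻¹, by simp⟩
  have hf : f.IsMultiplicative := by
    refine ⟨by simp [f], ?_⟩
    intro m n _
    simp [f, mul_comm]
  have hprod := hf.prodPrimeFactors_one_sub_of_squarefree f hsq
  rw [hnP] at hprod
  have e1 : ∏ p ∈ P, (1 - 1 / (p : ℝ)) = ∏ p ∈ P, (1 - f p) := by
    refine Finset.prod_congr rfl fun p _ => ?_
    simp [f]
  rw [e1, hprod]
  have hnb : n ∣ b := by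
    rw [hn]
    refine dvd_trans (Finset.prod_dvd_prod_of_subset _ _ _ (Finset.filter_subset _ _))
      (Nat.prod_primeFactors_dvd b)
  have hna : Nat.Coprime n a := by
    rw [hn]
    refine Nat.Coprime.prod_left fun p hp => ?_
    exact (Nat.Prime.coprime_iff_not_dvd (hPp p hp)).2 (mem_filter.1 hp).2
  symm
  have hsub : n.divisors ⊆ b.divisors := Nat.divisors_subset_of_dvd hb hnb
  rw [← Finset.sum_subset hsub]
  · refine Finset.sum_congr rfl fun e he => ?_
    have : Nat.Coprime e a := Nat.Coprime.coprime_dvd_left (Nat.dvd_of_mem_divisors he) hna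
    rw [if_pos this]
    simp [f, div_eq_mul_inv]
  · intro e he he'
    by_cases hc : Nat.Coprime e a
    · by_cases hs : Squarefree e
      · exfalso
        apply he'
        rw [Nat.mem_divisors]
        refine ⟨?_, hn0⟩
        rw [← Nat.prod_primeFactors_of_squarefree hs, hn]
        refine Finset.prod_dvd_prod_of_subset _ _ _ fun p hp => ?_
        have hpp := Nat.prime_of_mem_primeFactors hp
        have hpe := Nat.dvd_of_mem_primeFactors hp
        rw [hP, mem_filter]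
        refine ⟨Nat.mem_primeFactors.2 ⟨hpp, hpe.trans (Nat.dvd_of_mem_divisors he), hb⟩, ?_⟩
        intro hpa
        exact Nat.Prime.not_coprime_iff_dvd.2 ⟨p, hpp, hpe, hpa⟩ hc
      · have : ArithmeticFunction.moebius e = 0 := by
          by_contra h
          exact hs (ArithmeticFunction.moebius_ne_zero_iff_squarefree.1 h)
        rw [this]; simp
    · rw [if_neg hc, mul_zero]

private lemma aR_b_ne (N : ℕ) (hN : N ≠ 0) : sq2 N ≠ 0 := by
  intro h
  have := sq1_mul_sq2 N hN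
  rw [h] at this; simp at this; exact hN this.symm

private lemma aR_a_ne (N : ℕ) (hN : N ≠ 0) : sq1 N ≠ 0 := by
  intro h
  have := sq1_mul_sq2 N hN
  rw [h] at this; simp at this; exact hN this.symm

private lemma aR_a_odd (N : ℕ) (hN : Odd N) : Odd (sq1 N) := by
  have h0 : N ≠ 0 := by rintro rfl; simp at hN
  have := sq1_mul_sq2 N h0
  rw [← this] at hN
  exact (Nat.odd_mul.1 hN).1

private lemma aR_b_odd (N : ℕ) (hN : Odd N) : Odd (sq2 N) := by
  have h0 : N ≠ 0 := by rintro rfl; simp at hN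
  have := sq1_mul_sq2 N h0
  rw [← this] at hN
  exact (Nat.odd_pow_iff (by norm_num)).1 (Nat.odd_mul.1 hN).2

private lemma aR_gg (N : ℕ) (hN : Odd N) (j : ℕ) :
    gg ((j : ℤ) ^ 2) N =
      if sq2 N ∣ j ∧ Nat.Coprime (j / sq2 N) (sq1 N) then rhoN N / √(sq1 N : ℝ) else 0 := by
  classical
  have h0 : N ≠ 0 := by rintro rfl; simp at hN
  have hb := aR_b_ne N h0
  have ha := aR_a_ne N h0
  have hao := aR_a_odd N hN
  unfold gg
  set b := sq2 N with hbdef
  set a := sq1 N with hadef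
  by_cases hbj : b ∣ j
  · obtain ⟨m, rfl⟩ := hbj
    have hm : b * m / b = m := Nat.mul_div_cancel_left m (Nat.pos_of_ne_zero hb)
    rw [hm]
    have hbz : (b : ℤ) ≠ 0 := by exact_mod_cast hb
    have hfil : b.divisors.filter (fun e : ℕ => ((b : ℕ) : ℤ) ^ 2 ∣ ((b * m : ℕ) : ℤ) ^ 2 * (e : ℤ))
        = b.divisors := by
      refine Finset.filter_true_of_mem fun e _ => ?_
      push_cast
      rw [mul_pow, mul_assoc]
      exact dvd_mul_right _ _
    rw [hfil]
    have hterm : ∀ e ∈ b.divisors, (ArithmeticFunction.moebius e : ℝ) / e *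
        jr (((b * m : ℕ) : ℤ) ^ 2 * (e : ℤ) ^ 2 / ((b : ℕ) : ℤ) ^ 2) a =
        (if Nat.Coprime m a then 1 else 0) * ((ArithmeticFunction.moebius e : ℝ) / e *
          (if Nat.Coprime e a then 1 else 0)) := by
      intro e _
      have hq : ((b * m : ℕ) : ℤ) ^ 2 * (e : ℤ) ^ 2 / ((b : ℕ) : ℤ) ^ 2 = ((m * e : ℕ) : ℤ) ^ 2 := by
        push_cast
        have : ((b : ℤ) * m) ^ 2 * (e : ℤ) ^ 2 = (b : ℤ) ^ 2 * ((m : ℤ) * e) ^ 2 := by ring
        rw [this]
        exact Int.mul_ediv_cancel_left _ (pow_ne_zero _ hbz)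
      rw [hq]
      unfold jr
      rw [if_pos hao, aR_jac _ _ ha]
      have : Nat.Coprime (((m * e : ℕ) : ℤ)).natAbs a ↔ Nat.Coprime m a ∧ Nat.Coprime e a := by
        rw [Int.natAbs_natCast]
        exact Nat.coprime_mul_iff_left
      rw [if_congr this rfl rfl]
      by_cases h1 : Nat.Coprime m a
      · by_cases h2 : Nat.Coprime e a
        · rw [if_pos ⟨h1, h2⟩, if_pos h1, if_pos h2]; ring
        · rw [if_neg (fun h => h2 h.2), if_pos h1, if_neg h2]; ring
      · rw [if_neg (fun h => h1 h.1), if_neg h1]; ring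
    rw [Finset.sum_congr rfl hterm, ← Finset.mul_sum, aR_rho a b hb]
    by_cases h1 : Nat.Coprime m a
    · rw [if_pos h1, if_pos ⟨dvd_mul_right b m, h1⟩, one_mul]
      rfl
    · rw [if_neg h1, if_neg (fun h => h1 h.2), zero_mul, zero_div]
  · rw [if_neg (fun h => hbj h.1)]
    rw [Finset.sum_eq_zero, zero_div]
    intro e he
    rw [mem_filter] at he
    have : ArithmeticFunction.moebius e = 0 := by
      by_contra h
      exact hbj (aR_dvd hb (ArithmeticFunction.moebius_ne_zero_iff_squarefree.1 h) he.2)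
    rw [this]; simp

private lemma aR_rho_bd (N : ℕ) (hN : Odd N) : 0 ≤ rhoN N ∧ rhoN N / √(sq1 N : ℝ) ≤ 1 ∧
    0 ≤ rhoN N / √(sq1 N : ℝ) := by
  have h0 : N ≠ 0 := by rintro rfl; simp at hN
  have ha := aR_a_ne N h0
  have hpos : ∀ p ∈ (sq2 N).primeFactors.filter (fun p => ¬ p ∣ sq1 N), (0:ℝ) ≤ 1 - 1 / (p : ℝ) := by
    intro p hp
    have hp' := (Nat.prime_of_mem_primeFactors (mem_filter.1 hp).1).one_lt
    have : (1:ℝ) < p := by exact_mod_cast hp'
    rw [sub_nonneg, div_le_one (by linarith)]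
    exact this.le
  have h1 : 0 ≤ rhoN N := Finset.prod_nonneg hpos
  have h2 : rhoN N ≤ 1 := by
    refine Finset.prod_le_one hpos fun p _ => ?_
    have : (0:ℝ) ≤ 1 / (p : ℝ) := by positivity
    linarith
  have h3 : (1:ℝ) ≤ √(sq1 N : ℝ) := by
    rw [Real.one_le_sqrt]
    exact_mod_cast Nat.one_le_iff_ne_zero.2 ha
  refine ⟨h1, ?_, by positivity⟩
  rw [div_le_one (by linarith)]
  linarith

private lemma aR_Ft_bd {F : ℝ → ℝ} {a b : ℝ} (hF : Bump F a b) (σ : ℤ) :
    ∃ C : ℝ, 0 ≤ C ∧ (∀ ξ, |Ft F σ ξ| ≤ C) ∧ ∀ ξ, |ξ| * |Ft F σ ξ| ≤ C := by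
  obtain ⟨φ, hφ⟩ := Ft_schwartz hF σ
  obtain ⟨C0, hC0⟩ := φ.decay 0 0
  obtain ⟨C1, hC1⟩ := φ.decay 1 0
  refine ⟨max C0 C1, ?_, ?_, ?_⟩
  · have := hC0.2 0
    simp at this
    exact (abs_nonneg _).trans (this.trans (le_max_left _ _))
  · intro ξ
    have := hC0.2 ξ
    simp [hφ] at this
    exact this.trans (le_max_left _ _)
  · intro ξ
    have := hC1.2 ξ
    simp [hφ] at this
    exact this.trans (le_max_right _ _)

private lemma aR_summable {F : ℝ → ℝ} {a b : ℝ} (hF : Bump F a b) (σ : ℤ) (y : ℝ) (hy : 0 < y) :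
    Summable (fun m : ℕ => |Ft F σ ((m : ℝ) ^ 2 * y)|) := by
  obtain ⟨C, hC, -, h1⟩ := aR_Ft_bd hF σ
  rw [← summable_nat_add_iff 1]
  have hs : Summable (fun m : ℕ => C / y * (1 / ((m + 1 : ℕ) : ℝ) ^ 2)) := by
    refine Summable.mul_left _ ?_
    exact (summable_nat_add_iff (f := fun m : ℕ => 1 / (m : ℝ) ^ 2) 1).2
        (Real.summable_one_div_nat_pow.2 (by norm_num))
  refine Summable.of_nonneg_of_le (fun m => abs_nonneg _) (fun m => ?_) hs
  have hm : (0:ℝ) < ((m + 1 : ℕ) : ℝ) := by positivity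
  have := h1 (((m + 1 : ℕ) : ℝ) ^ 2 * y)
  rw [abs_of_pos (by positivity)] at this
  rw [← mul_le_mul_iff_right₀ (show (0:ℝ) < ((m + 1 : ℕ) : ℝ) ^ 2 * y by positivity)]
  refine this.trans (le_of_eq ?_)
  field_simp

private lemma aR_moeb (n a : ℕ) (hn : n ≠ 0) (ha : a ≠ 0) :
    ∑ e ∈ a.divisors, (if e ∣ n then (ArithmeticFunction.moebius e : ℝ) else 0) =
      if Nat.Coprime n a then 1 else 0 := by
  classical
  have h1 : a.divisors.filter (fun e => e ∣ n) = (Nat.gcd n a).divisors := by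
    ext e
    simp only [mem_filter, Nat.mem_divisors]
    constructor
    · rintro ⟨⟨h1, h2⟩, h3⟩
      exact ⟨Nat.dvd_gcd h3 h1, Nat.gcd_ne_zero_left hn⟩
    · rintro ⟨h1, h2⟩
      exact ⟨⟨h1.trans (Nat.gcd_dvd_right _ _), ha⟩, h1.trans (Nat.gcd_dvd_left _ _)⟩
  rw [← Finset.sum_filter, h1]
  have h2 := congrArg (fun f : ArithmeticFunction ℤ => f (Nat.gcd n a))
    ArithmeticFunction.moebius_mul_coe_zeta
  simp only [ArithmeticFunction.coe_mul_zeta_apply, ArithmeticFunction.one_apply] at h2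
  have h3 : ((∑ e ∈ (Nat.gcd n a).divisors, ArithmeticFunction.moebius e : ℤ) : ℝ) =
      ((if Nat.gcd n a = 1 then 1 else 0 : ℤ) : ℝ) := by rw [h2]
  push_cast at h3
  rw [h3]

/-- The alternating sums over the multiples of `e`. -/
private lemma aR_mult (g : ℕ → ℝ) (e : ℕ) (he : e ≠ 0) :
    ∑' m : ℕ, (if e ∣ m + 1 then g (m + 1) else 0) = ∑' m : ℕ, g (e * (m + 1)) := by
  have hinj : Function.Injective (fun m : ℕ => e * (m + 1) - 1) := by
    intro m m' h
    have h1 : 1 ≤ e * (m + 1) := Nat.one_le_iff_ne_zero.2 (by positivity)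
    have h2 : 1 ≤ e * (m' + 1) := Nat.one_le_iff_ne_zero.2 (by positivity)
    simp only at h
    have h3 : e * (m + 1) = e * (m' + 1) := by omega
    have := Nat.eq_of_mul_eq_mul_left (Nat.pos_of_ne_zero he) h3
    omega
  rw [← hinj.tsum_eq]
  · refine tsum_congr fun m => ?_
    have h1 : 1 ≤ e * (m + 1) := Nat.one_le_iff_ne_zero.2 (by positivity)
    have h2 : e * (m + 1) - 1 + 1 = e * (m + 1) := by omega
    simp only [h2]
    rw [if_pos (dvd_mul_right _ _)]
  · intro m hm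
    rw [Function.mem_support] at hm
    have hd : e ∣ m + 1 := by
      by_contra h
      rw [if_neg h] at hm
      exact hm rfl
    obtain ⟨c, hc⟩ := hd
    have hc0 : c ≠ 0 := by rintro rfl; simp at hc
    refine ⟨c - 1, ?_⟩
    have : c - 1 + 1 = c := by omega
    simp only [this, ← hc]
    omega


/-! ### Riemann sums of a Schwartz function on the half line -/

private lemma aR_decay (φ : SchwartzMap ℝ ℝ) : ∃ D : ℝ, 0 ≤ D ∧ ∀ t : ℝ, |φ t| * (1 + t ^ 2) ≤ D := by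
  obtain ⟨C0, hC0⟩ := φ.decay 0 0
  obtain ⟨C1, hC1⟩ := φ.decay 2 0
  have h0 : ∀ t : ℝ, |φ t| ≤ C0 := fun t => by simpa using hC0.2 t
  have h1 : ∀ t : ℝ, t ^ 2 * |φ t| ≤ C1 := fun t => by simpa using hC1.2 t
  refine ⟨C0 + C1, ?_, fun t => ?_⟩
  · have := h0 0
    have h2 := h1 0
    have h3 := abs_nonneg (φ 0)
    norm_num at h2
    linarith
  · have := h0 t
    have h2 := h1 t
    nlinarith

private lemma aR_sq32 (x : ℝ) (hx : 0 ≤ x) : x * √x ≤ 1 + x ^ 2 := by
  have h1 : 0 ≤ √x := Real.sqrt_nonneg x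
  have h2 : √x * √x = x := Real.mul_self_sqrt hx
  rcases le_total x 1 with h | h
  · have : √x ≤ 1 := by
      rw [Real.sqrt_le_one]
      exact h
    nlinarith [sq_nonneg x]
  · have : √x ≤ x := by
      rw [Real.sqrt_le_left hx]
      nlinarith
    nlinarith

private lemma aR_sum32 : Summable (fun m : ℕ => 1 / (((m + 1 : ℕ) : ℝ) * √((m + 1 : ℕ) : ℝ))) := by
  have h := (summable_nat_add_iff 1).2
    (Real.summable_one_div_nat_rpow.2 (by norm_num : (1 : ℝ) < 3 / 2))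
  refine h.congr fun m => ?_
  have hm : (0 : ℝ) < ((m + 1 : ℕ) : ℝ) := by positivity
  rw [show (3 / 2 : ℝ) = 1 + 1 / 2 by norm_num, Real.rpow_add hm, Real.rpow_one,
    ← Real.sqrt_eq_rpow]

private lemma aR_riemann (ψ : SchwartzMap ℝ ℝ) :
    ∃ C : ℝ, 0 ≤ C ∧ ∀ h : ℝ, 0 < h →
      |h * ∑' m : ℕ, ψ (((m + 1 : ℕ) : ℝ) * h) - ∫ u in Set.Ioi (0 : ℝ), ψ u| ≤
        C * (h ^ 2 + √h) := by
  obtain ⟨D, hD, hDb⟩ := aR_decay (SchwartzMap.derivCLM ℝ ℝ ψ)
  have hD' : ∀ t : ℝ, |deriv ψ t| * (1 + t ^ 2) ≤ D := hDb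
  obtain ⟨E, hE, hEb⟩ := aR_decay ψ
  have hZ := aR_sum32
  set Z := ∑' m : ℕ, 1 / (((m + 1 : ℕ) : ℝ) * √((m + 1 : ℕ) : ℝ)) with hZd
  have hZ0 : 0 ≤ Z := tsum_nonneg fun m => by positivity
  refine ⟨D * (1 + Z), by positivity, fun h hh => ?_⟩
  have hcont : Continuous ψ := ψ.continuous
  set a : ℕ → ℝ := fun m => h * ψ (((m + 1 : ℕ) : ℝ) * h) with ha
  set I : ℕ → ℝ := fun m => ∫ u in ((m : ℕ) : ℝ) * h..((m + 1 : ℕ) : ℝ) * h, ψ u with hI
  set T : ℕ → ℝ := fun m => a m - I m with hT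
  have hasum : Summable (fun m : ℕ => ψ (((m + 1 : ℕ) : ℝ) * h)) := by
    have hs : Summable (fun m : ℕ => E / h ^ 2 * (1 / ((m + 1 : ℕ) : ℝ) ^ 2)) := by
      refine Summable.mul_left _ ?_
      exact (summable_nat_add_iff (f := fun m : ℕ => 1 / (m : ℝ) ^ 2) 1).2
        (Real.summable_one_div_nat_pow.2 (by norm_num))
    refine Summable.of_norm_bounded hs fun m => ?_
    have hm : (0 : ℝ) < ((m + 1 : ℕ) : ℝ) := by positivity
    have h1 := hEb (((m + 1 : ℕ) : ℝ) * h)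
    rw [Real.norm_eq_abs]
    have h2 : |ψ (((m + 1 : ℕ) : ℝ) * h)| * (((m + 1 : ℕ) : ℝ) * h) ^ 2 ≤ E := by
      nlinarith [abs_nonneg (ψ (((m + 1 : ℕ) : ℝ) * h))]
    rw [div_mul_div_comm, mul_one, le_div_iff₀ (by positivity)]
    calc |ψ (((m + 1 : ℕ) : ℝ) * h)| * (h ^ 2 * ((m + 1 : ℕ) : ℝ) ^ 2)
        = |ψ (((m + 1 : ℕ) : ℝ) * h)| * (((m + 1 : ℕ) : ℝ) * h) ^ 2 := by ring
      _ ≤ E := h2
  -- the error of one cell
  have hcell : ∀ m : ℕ, |T m| ≤ h ^ 2 * (D / (1 + ((m : ℝ) * h) ^ 2)) := by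
    intro m
    have hle : ((m : ℕ) : ℝ) * h ≤ ((m + 1 : ℕ) : ℝ) * h := by
      push_cast
      nlinarith
    have hlen : ((m + 1 : ℕ) : ℝ) * h - ((m : ℕ) : ℝ) * h = h := by
      push_cast
      ring
    have hm0 : 0 ≤ (m : ℝ) * h := by positivity
    have e1 : T m = ∫ u in ((m : ℕ) : ℝ) * h..((m + 1 : ℕ) : ℝ) * h,
        (ψ (((m + 1 : ℕ) : ℝ) * h) - ψ u) := by
      rw [intervalIntegral.integral_sub (by simp) (hcont.intervalIntegrable _ _),
        intervalIntegral.integral_const, hlen, smul_eq_mul]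
    have e2 : ∀ u ∈ Set.uIoc (((m : ℕ) : ℝ) * h) (((m + 1 : ℕ) : ℝ) * h),
        ‖ψ (((m + 1 : ℕ) : ℝ) * h) - ψ u‖ ≤ D / (1 + ((m : ℝ) * h) ^ 2) * h := by
      intro u hu
      rw [Set.uIoc_of_le hle] at hu
      have h1 := Convex.norm_image_sub_le_of_norm_deriv_le (f := ψ)
        (s := Set.Icc (((m : ℕ) : ℝ) * h) (((m + 1 : ℕ) : ℝ) * h))
        (C := D / (1 + ((m : ℝ) * h) ^ 2)) (x := u) (y := ((m + 1 : ℕ) : ℝ) * h)
        (fun x _ => ψ.differentiableAt) (fun x hx => by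
          rw [Real.norm_eq_abs, le_div_iff₀ (by positivity)]
          refine le_trans ?_ (hD' x)
          refine mul_le_mul_of_nonneg_left ?_ (abs_nonneg _)
          have := hx.1
          nlinarith) (convex_Icc _ _) ⟨hu.1.le, hu.2⟩ ⟨hle, le_rfl⟩
      refine h1.trans ?_
      refine mul_le_mul_of_nonneg_left ?_ (by positivity)
      rw [Real.norm_eq_abs, abs_of_nonneg (by linarith [hu.2])]
      linarith [hu.1]
    have e3 := intervalIntegral.norm_integral_le_of_norm_le_const e2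
    rw [← e1, hlen, abs_of_pos hh, Real.norm_eq_abs] at e3
    calc |T m| ≤ D / (1 + ((m : ℝ) * h) ^ 2) * h * h := e3
      _ = h ^ 2 * (D / (1 + ((m : ℝ) * h) ^ 2)) := by ring
  have hcell' : ∀ m : ℕ, |T (m + 1)| ≤
      D * √h * (1 / (((m + 1 : ℕ) : ℝ) * √((m + 1 : ℕ) : ℝ))) := by
    intro m
    refine (hcell (m + 1)).trans ?_
    have hm : (0 : ℝ) < ((m + 1 : ℕ) : ℝ) := by positivity
    set x : ℝ := ((m + 1 : ℕ) : ℝ) with hx
    have hxh : 0 < x * h := by positivity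
    have h1 := aR_sq32 (x * h) hxh.le
    have h2 : √(x * h) = √x * √h := Real.sqrt_mul hm.le h
    have hsx : 0 < √x := Real.sqrt_pos.2 hm
    have hsh : 0 < √h := Real.sqrt_pos.2 hh
    have h3 : √h * √h = h := Real.mul_self_sqrt hh.le
    rw [h2] at h1
    rw [mul_one_div, mul_div_assoc', div_le_div_iff₀ (by positivity) (by positivity)]
    have h4 : h ^ 2 * D * (x * √x) = D * √h * ((x * h) * (√x * √h)) := by
      have : h ^ 2 = h * (√h * √h) := by rw [h3]; ring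
      rw [this]
      ring
    rw [h4]
    exact mul_le_mul_of_nonneg_left h1 (by positivity)
  have hTs : Summable (fun m => |T m|) := by
    rw [← summable_nat_add_iff 1]
    exact Summable.of_nonneg_of_le (fun m => abs_nonneg _) hcell' (hZ.mul_left _)
  have hTsum : |∑' m, T m| ≤ D * (1 + Z) * (h ^ 2 + √h) := by
    have h1 : |∑' m, T m| ≤ ∑' m, |T m| := by
      have := norm_tsum_le_tsum_norm (f := T) (by simpa using hTs)
      simpa using this
    refine h1.trans ?_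
    rw [hTs.tsum_eq_zero_add]
    have h2 : |T 0| ≤ D * h ^ 2 := by
      have := hcell 0
      norm_num at this
      linarith
    have h3 : ∑' m : ℕ, |T (m + 1)| ≤ D * √h * Z := by
      rw [hZd, ← tsum_mul_left]
      exact Summable.tsum_le_tsum hcell' ((summable_nat_add_iff (f := fun m : ℕ => |T m|) 1).2 hTs) (hZ.mul_left _)
    have h4 : 0 ≤ √h := Real.sqrt_nonneg h
    have h5 : 0 ≤ D * Z * h ^ 2 := by positivity
    have h6 : 0 ≤ D * √h := by positivity
    nlinarith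
  -- comparison of the sums
  have hTs' : Summable T := hTs.of_abs
  have ha' : Summable a := hasum.mul_left h
  have hIa : ∀ m, I m = a m - T m := fun m => by simp only [hT]; ring
  have hsumI : HasSum I (∑' m, a m - ∑' m, T m) := by
    refine (ha'.hasSum.sub hTs'.hasSum).congr_fun ?_
    intro m
    exact (hIa m)
  have h1 := hsumI.tendsto_sum_nat
  have h2 : Tendsto (fun n : ℕ => ∑ m ∈ Finset.range n, I m) atTop
      (𝓝 (∫ u in Set.Ioi (0 : ℝ), ψ u)) := by
    have h3 : ∀ n : ℕ, ∑ m ∈ Finset.range n, I m = ∫ u in (0 : ℝ)..((n : ℕ) : ℝ) * h, ψ u := by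
      intro n
      have := intervalIntegral.sum_integral_adjacent_intervals (f := ψ) (μ := volume)
        (a := fun m : ℕ => ((m : ℕ) : ℝ) * h) (n := n)
        (fun m _ => hcont.intervalIntegrable _ _)
      simpa [hI] using this
    simp only [h3]
    refine intervalIntegral_tendsto_integral_Ioi 0 ψ.integrable.integrableOn ?_
    exact tendsto_natCast_atTop_atTop.atTop_mul_const hh
  have h4 := tendsto_nhds_unique h1 h2
  have h5 : h * ∑' m : ℕ, ψ (((m + 1 : ℕ) : ℝ) * h) = ∑' m, a m := by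
    rw [ha, tsum_mul_left]
  rw [h5, ← h4]
  have h6 : ∑' m, a m - (∑' m, a m - ∑' m, T m) = ∑' m, T m := by ring
  rw [h6]
  exact hTsum

/-! ### The unsigned sum -/

private lemma aR_gg_bd (N : ℕ) (hN : Odd N) (j : ℕ) : |gg ((j : ℤ) ^ 2) N| ≤ 1 := by
  obtain ⟨_, hr1, hr0⟩ := aR_rho_bd N hN
  rw [aR_gg N hN j]
  split_ifs
  · rw [abs_of_nonneg hr0]; exact hr1
  · simp

private lemma aR_sumA {F : ℝ → ℝ} {a b : ℝ} (hF : Bump F a b) (σ : ℤ) (N : ℕ) (hN : Odd N)
    (Y : ℝ) (hY : 0 < Y) :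
    Summable (fun j : ℕ => |gg ((j : ℤ) ^ 2) N * Ft F σ ((j : ℝ) ^ 2 * Y / (2 * N))|) := by
  have h0 : N ≠ 0 := by rintro rfl; simp at hN
  have hNr : (0 : ℝ) < N := by exact_mod_cast Nat.pos_of_ne_zero h0
  refine Summable.of_nonneg_of_le (fun j => abs_nonneg _) (fun j => ?_)
    (aR_summable hF σ (Y / (2 * N)) (by positivity))
  rw [abs_mul, mul_div_assoc]
  exact mul_le_of_le_one_left (abs_nonneg _) (aR_gg_bd N hN j)

private lemma aR_gg_two (N : ℕ) (hN : Odd N) (j : ℕ) :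
    gg (((2 * j : ℕ) : ℤ) ^ 2) N = gg ((j : ℤ) ^ 2) N := by
  have h0 : N ≠ 0 := by rintro rfl; simp at hN
  have hb := aR_b_ne N h0
  have hbo := aR_b_odd N hN
  have hao := aR_a_odd N hN
  rw [aR_gg N hN, aR_gg N hN]
  have hc2 : Nat.Coprime (sq2 N) 2 := (Nat.coprime_two_right).2 hbo
  have h1 : sq2 N ∣ 2 * j ↔ sq2 N ∣ j := hc2.dvd_mul_left
  refine if_congr ?_ rfl rfl
  rw [h1]
  refine and_congr_right fun h => ?_
  rw [Nat.mul_div_assoc 2 h, Nat.coprime_mul_iff_left]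
  exact ⟨fun h' => h'.2, fun h' => ⟨(Nat.coprime_two_left).2 hao, h'⟩⟩

theorem AR_step {F : ℝ → ℝ} {a b : ℝ} (ha : 0 < a) (hF : Bump F a b) (σ : ℤ) (N : ℕ)
    (hN : Odd N) (Y : ℝ) (hY : 0 < Y) :
    AR F σ Y N = 1 / 2 * MM F σ (Y / 4) N + 1 / 2 * AR F σ (Y / 4) N := by
  have hs := aR_sumA hF σ N hN (Y / 4) (by positivity)
  set f : ℕ → ℝ := fun j => gg ((j : ℤ) ^ 2) N * Ft F σ ((j : ℝ) ^ 2 * (Y / 4) / (2 * N)) with hf
  have hfs : Summable f := hs.of_abs
  have hms : Summable (fun j : ℕ => (-1 : ℝ) ^ j * f j) := by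
    refine Summable.of_norm_bounded (g := fun j => |f j|) hs fun j => ?_
    rw [norm_mul, norm_pow, norm_neg, norm_one, one_pow, one_mul, Real.norm_eq_abs]
  have e1 : MM F σ (Y / 4) N = ∑' j : ℕ, (-1 : ℝ) ^ j * f j := by
    unfold MM
    refine tsum_congr fun j => ?_
    simp only [hf]
    ring
  have e2 : AR F σ (Y / 4) N = ∑' j : ℕ, f j := rfl
  have e3 : AR F σ Y N = ∑' j : ℕ, f (2 * j) := by
    unfold AR
    refine tsum_congr fun j => ?_
    simp only [hf]
    rw [aR_gg_two N hN j]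
    congr 2
    push_cast
    ring
  have e4 : ∑' j : ℕ, ((-1 : ℝ) ^ j * f j + f j) = 2 * ∑' j : ℕ, f (2 * j) := by
    have hinj : Function.Injective (fun j : ℕ => 2 * j) := fun x y h => by
      simp only at h
      omega
    rw [← hinj.tsum_eq, ← tsum_mul_left]
    · refine tsum_congr fun j => ?_
      rw [pow_mul]
      norm_num
      ring
    · intro j hj
      rw [Function.mem_support] at hj
      rcases Nat.even_or_odd j with h | h
      · obtain ⟨c, hc⟩ := h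
        exact ⟨c, by simp only; omega⟩
      · exfalso
        apply hj
        rw [h.neg_one_pow]
        ring
  rw [hms.tsum_add hfs, ← e1, ← e2, ← e3] at e4
  linarith

/-- Expansion of the unsigned sum. -/
private lemma aR_expand {F : ℝ → ℝ} {a b : ℝ} (hF : Bump F a b) (σ : ℤ)
    (N : ℕ) (hN : Odd N) (Y : ℝ) (hY : 0 < Y) :
    AR F σ Y N = rhoN N / √(sq1 N : ℝ) * ((if sq1 N = 1 then Ft F σ 0 else 0) +
      ∑ e ∈ (sq1 N).divisors, (ArithmeticFunction.moebius e : ℝ) *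
        ∑' m : ℕ, Ft F σ (((e * (m + 1) : ℕ) : ℝ) ^ 2 * (Y / (2 * (sq1 N : ℝ))))) := by
  classical
  have h0 : N ≠ 0 := by rintro rfl; simp at hN
  have hb := aR_b_ne N h0
  have ha0 := aR_a_ne N h0
  have hNab := sq1_mul_sq2 N h0
  have hgg := aR_gg N hN
  set A := sq1 N with hA
  set B := sq2 N with hB
  have hAr : (0:ℝ) < A := by exact_mod_cast Nat.pos_of_ne_zero ha0
  have hBr : (0:ℝ) < B := by exact_mod_cast Nat.pos_of_ne_zero hb
  have hNr : (N : ℝ) = A * B ^ 2 := by exact_mod_cast hNab.symm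
  set y : ℝ := Y / (2 * A) with hy
  have hy0 : 0 < y := by positivity
  set K : ℝ := rhoN N / √(A : ℝ) with hK
  set g : ℕ → ℝ := fun m => Ft F σ ((m : ℝ) ^ 2 * y) with hg
  have hgs : Summable (fun m => |g m|) := aR_summable hF σ y hy0
  -- step 1: reindex
  have step1 : AR F σ Y N = ∑' m : ℕ, (if Nat.Coprime m A then K else 0) * g m := by
    unfold AR
    have hinj : Function.Injective (fun m : ℕ => B * m) := fun m m' h =>
      Nat.eq_of_mul_eq_mul_left (Nat.pos_of_ne_zero hb) h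
    rw [← hinj.tsum_eq]
    · refine tsum_congr fun m => ?_
      rw [hgg (B * m)]
      have h1 : B * m / B = m := Nat.mul_div_cancel_left m (Nat.pos_of_ne_zero hb)
      have h2 : ((B * m : ℕ) : ℝ) ^ 2 * Y / (2 * N) = (m : ℝ) ^ 2 * y := by
        rw [hNr, hy]; push_cast; field_simp
      rw [h1, h2]
      by_cases h4 : Nat.Coprime m A
      · rw [if_pos ⟨dvd_mul_right _ _, h4⟩, if_pos h4]
      · rw [if_neg (fun h => h4 h.2), if_neg h4]
    · intro j hj
      rw [Function.mem_support] at hj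
      have hd : B ∣ j := by
        by_contra h
        rw [hgg j, if_neg (fun h' => h h'.1)] at hj
        simp at hj
      obtain ⟨c, hc⟩ := hd
      exact ⟨c, hc.symm⟩
  have hsum1 : Summable (fun m : ℕ => (if Nat.Coprime m A then K else 0) * g m) := by
    refine Summable.of_norm_bounded (g := fun m => |K| * |g m|) (hgs.mul_left _) fun m => ?_
    rw [norm_mul, Real.norm_eq_abs, Real.norm_eq_abs]
    refine mul_le_mul_of_nonneg_right ?_ (abs_nonneg _)
    split_ifs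
    · exact le_rfl
    · simp
  rw [step1, hsum1.tsum_eq_zero_add]
  have hg0 : g 0 = Ft F σ 0 := by
    simp only [hg]
    norm_num
  have hc0 : Nat.Coprime 0 A ↔ A = 1 := Nat.coprime_zero_left A
  -- the shifted sum
  have hsh : Summable (fun m : ℕ => |g (m + 1)|) :=
    (summable_nat_add_iff (f := fun m : ℕ => |g m|) 1).2 hgs
  have step2 : ∑' m : ℕ, (if Nat.Coprime (m + 1) A then K else 0) * g (m + 1) =
      K * ∑ e ∈ A.divisors, (ArithmeticFunction.moebius e : ℝ) * ∑' m : ℕ, g (e * (m + 1)) := by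
    have e1 : ∀ m : ℕ, (if Nat.Coprime (m + 1) A then K else 0) * g (m + 1) =
        ∑ e ∈ A.divisors, K * ((ArithmeticFunction.moebius e : ℝ) *
          (if e ∣ m + 1 then g (m + 1) else 0)) := by
      intro m
      have := aR_moeb (m + 1) A (Nat.succ_ne_zero m) ha0
      have e2 : (if Nat.Coprime (m + 1) A then K else 0) =
          K * (if Nat.Coprime (m + 1) A then 1 else 0) := by split_ifs <;> simp
      rw [e2, ← this, Finset.mul_sum, Finset.sum_mul]
      refine Finset.sum_congr rfl fun e _ => ?_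
      split_ifs <;> ring
    rw [tsum_congr e1, Summable.tsum_finsetSum]
    · rw [Finset.mul_sum]
      refine Finset.sum_congr rfl fun e he => ?_
      have he0 : e ≠ 0 := (Nat.pos_of_mem_divisors he).ne'
      rw [tsum_mul_left, tsum_mul_left, aR_mult g e he0]
    · intro e _
      refine Summable.mul_left _ (Summable.mul_left _ ?_)
      refine Summable.of_norm_bounded (g := fun m => |g (m + 1)|) hsh fun m => ?_
      split_ifs
      · exact le_rfl
      · simp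
  rw [step2, hg0, if_congr hc0 rfl rfl]
  by_cases h6 : A = 1
  · rw [if_pos h6, if_pos h6]
    ring
  · rw [if_neg h6, if_neg h6]
    ring

private lemma aR_prod (N : ℕ) (hN : Odd N) :
    rhoN N * ∏ p ∈ (sq1 N).primeFactors, (1 - 1 / (p : ℝ)) =
      ∏ p ∈ N.primeFactors, (1 - 1 / (p : ℝ)) := by
  classical
  have h0 : N ≠ 0 := by rintro rfl; simp at hN
  have hb := aR_b_ne N h0
  have ha0 := aR_a_ne N h0
  have hNab := sq1_mul_sq2 N h0
  unfold rhoN
  have hdis : Disjoint ((sq2 N).primeFactors.filter (fun p => ¬ p ∣ sq1 N))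
      (sq1 N).primeFactors := by
    rw [Finset.disjoint_left]
    intro p hp hp'
    exact (mem_filter.1 hp).2 (Nat.dvd_of_mem_primeFactors hp')
  rw [← Finset.prod_union hdis]
  congr 1
  ext p
  simp only [Finset.mem_union, Finset.mem_filter, Nat.mem_primeFactors]
  constructor
  · rintro (⟨⟨h1, h2, h3⟩, h4⟩ | ⟨h1, h2, h3⟩)
    · refine ⟨h1, ?_, h0⟩
      rw [← hNab]
      exact Dvd.dvd.mul_left (h2.trans (dvd_pow_self _ two_ne_zero)) _
    · refine ⟨h1, ?_, h0⟩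
      rw [← hNab]
      exact Dvd.dvd.mul_right h2 _
  · rintro ⟨h1, h2, -⟩
    by_cases h3 : p ∣ sq1 N
    · exact Or.inr ⟨h1, h3, ha0⟩
    · refine Or.inl ⟨⟨h1, ?_, hb⟩, h3⟩
      rw [← hNab] at h2
      rcases (Nat.Prime.dvd_mul h1).1 h2 with h4 | h4
      · exact absurd h4 h3
      · exact h1.dvd_of_dvd_pow h4

private lemma aR_phi (A : ℕ) (hA : A ≠ 0) :
    ∑ e ∈ A.divisors, (ArithmeticFunction.moebius e : ℝ) / e =
      ∏ p ∈ A.primeFactors, (1 - 1 / (p : ℝ)) := by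
  have h := aR_rho 1 A hA
  simp only [Nat.coprime_one_right_eq_true, if_true, mul_one] at h
  rw [h]
  refine Finset.prod_congr ?_ fun _ _ => rfl
  refine Finset.filter_true_of_mem fun p hp => ?_
  have := (Nat.prime_of_mem_primeFactors hp).one_lt
  intro h1
  have := Nat.le_of_dvd one_pos h1
  omega

theorem AR_lim {F : ℝ → ℝ} {a b : ℝ} (ha : 0 < a) (hF : Bump F a b) (σ : ℤ) (N : ℕ)
    (hN : Odd N) (Y : ℝ) (hY : 0 < Y) :
    Tendsto (fun i : ℕ => (1 / 2 : ℝ) ^ i * AR F σ (Y / 4 ^ i) N) atTop (𝓝 (pol F σ Y N)) := by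
  classical
  have h0 : N ≠ 0 := by rintro rfl; simp at hN
  have ha0 := aR_a_ne N h0
  obtain ⟨ψ, hψ⟩ := BBs.exists_sq hF σ
  obtain ⟨C, hC, hCb⟩ := aR_riemann ψ
  set A := sq1 N with hA
  have hAr : (0:ℝ) < A := by exact_mod_cast Nat.pos_of_ne_zero ha0
  set J := ∫ u in Set.Ioi (0 : ℝ), ψ u with hJ
  set y : ℝ := Y / (2 * A) with hy
  have hy0 : 0 < y := by positivity
  have hsy : 0 < √y := Real.sqrt_pos.2 hy0
  set K : ℝ := rhoN N / √(A : ℝ) with hK
  -- the Riemann sums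
  set R : ℝ → ℝ := fun h => h * ∑' m : ℕ, ψ (((m + 1 : ℕ) : ℝ) * h) with hR
  have hRlim : ∀ c : ℝ, 0 < c → Tendsto (fun i : ℕ => R (c * (1 / 2 : ℝ) ^ i)) atTop (𝓝 J) := by
    intro c hc
    have h1 : Tendsto (fun i : ℕ => c * (1 / 2 : ℝ) ^ i) atTop (𝓝 0) := by
      have := (tendsto_pow_atTop_nhds_zero_of_lt_one (r := (1 / 2 : ℝ)) (by norm_num)
        (by norm_num)).const_mul c
      simpa using this
    have h2 : Tendsto (fun x : ℝ => C * (x ^ 2 + √x)) (𝓝 0) (𝓝 0) := by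
      have : Continuous (fun x : ℝ => C * (x ^ 2 + √x)) := by fun_prop
      have h3 := this.tendsto 0
      simpa using h3
    rw [tendsto_iff_norm_sub_tendsto_zero]
    refine squeeze_zero (fun i => norm_nonneg _) (fun i => ?_) (h2.comp h1)
    exact hCb _ (by positivity)
  -- the expansion
  have hexp : ∀ i : ℕ, (1 / 2 : ℝ) ^ i * AR F σ (Y / 4 ^ i) N =
      K * ((1 / 2 : ℝ) ^ i * (if A = 1 then Ft F σ 0 else 0) +
        ∑ e ∈ A.divisors, (ArithmeticFunction.moebius e : ℝ) *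
          (1 / (e * √y) * R (e * √y * (1 / 2 : ℝ) ^ i))) := by
    intro i
    rw [aR_expand hF σ N hN (Y / 4 ^ i) (by positivity)]
    rw [← hA, ← hK]
    rw [mul_left_comm, mul_add, Finset.mul_sum]
    congr 2
    refine Finset.sum_congr rfl fun e he => ?_
    have he0 : e ≠ 0 := (Nat.pos_of_mem_divisors he).ne'
    have her : (0 : ℝ) < e := by exact_mod_cast Nat.pos_of_ne_zero he0
    rw [mul_left_comm]
    congr 1
    simp only [hR]
    have e1 : 1 / (e * √y) * (e * √y * (1 / 2 : ℝ) ^ i *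
        ∑' m : ℕ, ψ (((m + 1 : ℕ) : ℝ) * (e * √y * (1 / 2 : ℝ) ^ i))) =
        (1 / 2 : ℝ) ^ i * ∑' m : ℕ, ψ (((m + 1 : ℕ) : ℝ) * (e * √y * (1 / 2 : ℝ) ^ i)) := by
      field_simp
    rw [e1]
    congr 1
    refine tsum_congr fun m => ?_
    rw [hψ]
    congr 1
    have h4 : (4 : ℝ) ^ i = (2 ^ i) ^ 2 := by
      rw [← pow_mul, mul_comm i 2, pow_mul]
      norm_num
    have h5 : √y ^ 2 = y := Real.sq_sqrt hy0.le
    push_cast
    rw [mul_pow, mul_pow, mul_pow, mul_pow, h5, hy, h4, one_div, inv_pow]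
    field_simp
  simp only [hexp]
  have hlim : Tendsto (fun i : ℕ => K * ((1 / 2 : ℝ) ^ i * (if A = 1 then Ft F σ 0 else 0) +
        ∑ e ∈ A.divisors, (ArithmeticFunction.moebius e : ℝ) *
          (1 / (e * √y) * R (e * √y * (1 / 2 : ℝ) ^ i)))) atTop
      (𝓝 (K * (0 * (if A = 1 then Ft F σ 0 else 0) +
        ∑ e ∈ A.divisors, (ArithmeticFunction.moebius e : ℝ) * (1 / (e * √y) * J)))) := by
    refine Tendsto.const_mul _ (Tendsto.add ?_ ?_)
    · exact (tendsto_pow_atTop_nhds_zero_of_lt_one (r := (1 / 2 : ℝ)) (by norm_num)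
        (by norm_num)).mul_const _
    · refine tendsto_finsetSum _ fun e he => ?_
      have he0 : e ≠ 0 := (Nat.pos_of_mem_divisors he).ne'
      have her : (0 : ℝ) < e := by exact_mod_cast Nat.pos_of_ne_zero he0
      exact ((hRlim (e * √y) (by positivity)).const_mul _).const_mul _
  convert hlim using 2
  -- the value of the limit
  have hI := (fresnel_Ft ha hF σ).2
  have hJ2 : ∫ u : ℝ, Ft F σ (u ^ 2) = 2 * J := by
    rw [hJ, ← integral_comp_abs (f := fun x => ψ x)]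
    refine integral_congr_ae (ae_of_all _ fun u => ?_)
    simp only
    rw [hψ, sq_abs]
  rw [hI] at hJ2
  have hphi := aR_phi A ha0
  have hsum : ∑ e ∈ A.divisors, (ArithmeticFunction.moebius e : ℝ) * (1 / (e * √y) * J) =
      (∏ p ∈ A.primeFactors, (1 - 1 / (p : ℝ))) * (J / √y) := by
    rw [← hphi, Finset.sum_mul]
    refine Finset.sum_congr rfl fun e he => ?_
    have he0 : e ≠ 0 := (Nat.pos_of_mem_divisors he).ne'
    have her : (0 : ℝ) < e := by exact_mod_cast Nat.pos_of_ne_zero he0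
    field_simp
  rw [hsum, zero_mul, zero_add]
  unfold pol
  rw [← aR_prod N hN, hJ2, ← hA, hK, hy]
  have h1 : √(Y / (2 * (A : ℝ))) = √Y / (√2 * √(A : ℝ)) := by
    rw [Real.sqrt_div hY.le, Real.sqrt_mul (by norm_num)]
  have h2 : √(2 * Y) = √2 * √Y := Real.sqrt_mul (by norm_num) Y
  rw [h1, h2]
  have h3 : √2 * √2 = (2 : ℝ) := Real.mul_self_sqrt (by norm_num)
  have h4 : 0 < √Y := Real.sqrt_pos.2 hY
  have h5 : 0 < √(A : ℝ) := Real.sqrt_pos.2 hAr
  have h6 : (0 : ℝ) < √2 := by positivity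
  have h7 : √2 ^ 2 = (2 : ℝ) := Real.sq_sqrt (by norm_num)
  field_simp
  rw [h7]
  ring

theorem AR_eq {F : ℝ → ℝ} {a b : ℝ} (ha : 0 < a) (hF : Bump F a b) (hF0 : 0 < ∫ t, F t) (σ : ℤ)
    (N : ℕ) (hN : Odd N) (Y : ℝ) (hY : 0 < Y) :
    AR F σ Y N = AA F σ Y N + pol F σ Y N := by
  classical
  have h0 : N ≠ 0 := by rintro rfl; simp at hN
  have ha0 := aR_a_ne N h0
  -- partial sums
  have hpart : ∀ n : ℕ, AR F σ Y N =
      ∑ i ∈ Finset.range n, (1 / 2 : ℝ) ^ (i + 1) * MM F σ (Y / 4 ^ (i + 1)) N +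
        (1 / 2 : ℝ) ^ n * AR F σ (Y / 4 ^ n) N := by
    intro n
    induction n with
    | zero => simp
    | succ n ih =>
      rw [Finset.sum_range_succ]
      have h1 := AR_step ha hF σ N hN (Y / 4 ^ n) (by positivity)
      have h2 : Y / 4 ^ n / 4 = Y / 4 ^ (n + 1) := by
        rw [pow_succ]
        field_simp
      rw [h2] at h1
      rw [ih, h1]
      ring
  -- boundedness of `MM`
  obtain ⟨C, hC, hCb⟩ := BB_le ha hF hF0 σ
  have hbd : ∃ D : ℝ, ∀ Y' : ℝ, 0 < Y' → |MM F σ Y' N| ≤ D := by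
    refine ⟨|∫ t, F t| * (|if sq1 N = 1 then rhoN N else 0| +
      1 / 2 * (|rhoN N / √(sq1 N : ℝ)| * ∑ e ∈ (sq1 N).divisors,
        |(ArithmeticFunction.moebius e : ℝ)| * C)), fun Y' hY' => ?_⟩
    rw [MM_eq ha hF hF0 σ N hN Y' hY', abs_mul]
    refine mul_le_mul_of_nonneg_left ?_ (abs_nonneg _)
    refine (abs_sub _ _).trans (add_le_add le_rfl ?_)
    rw [abs_mul, abs_mul, abs_of_pos (by norm_num : (0 : ℝ) < 1 / 2)]
    refine mul_le_mul_of_nonneg_left (mul_le_mul_of_nonneg_left ?_ (abs_nonneg _)) (by norm_num)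
    refine (Finset.abs_sum_le_sum_abs _ _).trans (Finset.sum_le_sum fun e he => ?_)
    rw [abs_mul]
    refine mul_le_mul_of_nonneg_left ?_ (abs_nonneg _)
    have he0 : e ≠ 0 := (Nat.pos_of_mem_divisors he).ne'
    have her : (0 : ℝ) < e := by exact_mod_cast Nat.pos_of_ne_zero he0
    have hAr : (0 : ℝ) < (sq1 N : ℝ) := by exact_mod_cast Nat.pos_of_ne_zero ha0
    exact (hCb _ (by positivity)).1
  obtain ⟨D, hD⟩ := hbd
  have hsum : Summable (fun i : ℕ => (1 / 2 : ℝ) ^ (i + 1) * MM F σ (Y / 4 ^ (i + 1)) N) := by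
    have hg : Summable (fun i : ℕ => (1 / 2 : ℝ) ^ (i + 1) * D) := by
      refine Summable.mul_right D ?_
      exact (summable_nat_add_iff (f := fun i : ℕ => (1 / 2 : ℝ) ^ i) 1).2
        (summable_geometric_of_lt_one (by norm_num) (by norm_num))
    refine Summable.of_norm_bounded hg fun i => ?_
    rw [norm_mul, norm_pow, Real.norm_eq_abs, Real.norm_eq_abs,
      abs_of_pos (by norm_num : (0 : ℝ) < 1 / 2)]
    exact mul_le_mul_of_nonneg_left (hD _ (by positivity)) (by positivity)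
  have h1 := hsum.hasSum.tendsto_sum_nat
  have h2 := AR_lim ha hF σ N hN Y hY
  have h3 := h1.add h2
  have h4 : Tendsto (fun n : ℕ => ∑ i ∈ Finset.range n,
      (1 / 2 : ℝ) ^ (i + 1) * MM F σ (Y / 4 ^ (i + 1)) N +
        (1 / 2 : ℝ) ^ n * AR F σ (Y / 4 ^ n) N) atTop (𝓝 (AR F σ Y N)) := by
    refine tendsto_const_nhds.congr fun n => ?_
    exact hpart n
  exact tendsto_nhds_unique h4 h3

end Pool.Agent.MP0016c7.Rz
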