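import Mathlib
import Pool.Agent.Lib.MP_0016c7_nt.Rz.Defs
import Pool.Agent.Lib.MP_0016c7_nt.Rz.DefsC
import Pool.Agent.Lib.MP_0016c7_nt.Rz.DefsE
import Pool.Agent.Lib.MP_0016c7_nt.Rz.DefsF
import Pool.Agent.Lib.MP_0016c7_nt.Rz2.DefsG
import Pool.Agent.Lib.MP_0016c7_nt.Rz.Poisson1
import Pool.Agent.Lib.MP_0016c7_nt.Rz.Poisson2
import Pool.Agent.Lib.MP_0016c7_nt.Rz.FtS

set_option autoImplicit false

/-!
Poisson summation over a residue class modulo 8.
-/

open Finset MeasureTheory Filter Topology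
open scoped Real ContDiff

namespace Pool.Agent.MP0016c7.Rz

private theorem pc_jr_mul (a b : ℤ) (n : ℕ) : jr (a * b) n = jr a n * jr b n := by
  unfold jr
  split_ifs
  · rw [jacobiSym.mul_left]
    push_cast
    ring
  · simp

private theorem pc_jr_abs (k : ℤ) (n : ℕ) : |jr k n| ≤ 1 := by
  unfold jr
  split_ifs
  · rcases jacobiSym.trichotomy k n with h | h | h <;> rw [h] <;> norm_num
  · simp

private theorem pc_jr_mod {a b : ℤ} {m : ℕ} (h : a ≡ b [ZMOD m]) : jr a m = jr b m := by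
  unfold jr
  split_ifs with hm
  · rw [jacobiSym.mod_left' h]
  · rfl

private theorem pc_jr_sq_one {k : ℤ} {n : ℕ} (hn : Odd n) (h : IsCoprime k (n : ℤ)) :
    jr k n ^ 2 = 1 := by
  unfold jr
  rw [if_pos hn]
  have := jacobiSym.sq_one (a := k) (b := n) (by
    rw [← Int.isCoprime_iff_gcd_eq_one]; exact h)
  exact_mod_cast this

private theorem pc_two_cop {N : ℕ} (hN : Odd N) : IsCoprime (2 : ℤ) (N : ℤ) := by
  have := (Nat.coprime_two_left (n := N)).2 hN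
  exact_mod_cast Nat.isCoprime_iff_coprime.2 this

private theorem pc_odd12 {N : ℕ} (hN : Odd N) : Odd (sq1 N) ∧ Odd (sq2 N) := by
  have hNAB := sq1_mul_sq2 N hN.pos.ne'
  rw [← hNAB] at hN
  exact ⟨(Nat.odd_mul.1 hN).1, (Nat.odd_pow_iff (by norm_num)).1 (Nat.odd_mul.1 hN).2⟩

/-- Periodicity of `gg`. -/
private theorem pc_gg_add {N : ℕ} (hN : Odd N) (k m : ℤ) : gg (k + N * m) N = gg k N := by
  have hNAB := sq1_mul_sq2 N hN.pos.ne'
  obtain ⟨hA, hB⟩ := pc_odd12 hN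
  unfold gg
  generalize sq1 N = A at *
  generalize sq2 N = B at *
  have hNc : (N : ℤ) = A * B ^ 2 := by
    rw [← hNAB]
    push_cast
    ring
  have hB0 : (B : ℤ) ^ 2 ≠ 0 := pow_ne_zero _ (by exact_mod_cast hB.pos.ne')
  congr 1
  have hfil : B.divisors.filter (fun e : ℕ => ((B : ℕ) : ℤ) ^ 2 ∣ (k + N * m) * (e : ℤ)) =
      B.divisors.filter (fun e : ℕ => ((B : ℕ) : ℤ) ^ 2 ∣ k * (e : ℤ)) := by
    apply Finset.filter_congr
    intro e _
    have h1 : (k + N * m) * (e : ℤ) = k * e + (B : ℤ) ^ 2 * (A * m * e) := by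
      rw [hNc]
      ring
    rw [h1]
    exact (Int.dvd_add_left (Dvd.intro _ rfl))
  rw [hfil]
  refine Finset.sum_congr rfl fun e he => ?_
  have hdvd := (mem_filter.1 he).2
  obtain ⟨t, ht⟩ := hdvd
  congr 1
  apply pc_jr_mod
  have h2 : (k + N * m) * (e : ℤ) ^ 2 / ((B : ℕ) : ℤ) ^ 2 = t * e + A * (m * e ^ 2) := by
    apply Int.ediv_eq_of_eq_mul_right hB0
    have : (k + N * m) * (e : ℤ) ^ 2 = (k * e) * e + N * m * e ^ 2 := by ring
    rw [this, ht, hNc]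
    ring
  have h3 : k * (e : ℤ) ^ 2 / ((B : ℕ) : ℤ) ^ 2 = t * e := by
    apply Int.ediv_eq_of_eq_mul_right hB0
    have : k * (e : ℤ) ^ 2 = (k * e) * e := by ring
    rw [this, ht]
    ring
  rw [h2, h3]
  simp [Int.ModEq]

/-- Multiplication by an integer coprime to `N`. -/
private theorem pc_gg_mul {N : ℕ} (hN : Odd N) (u : ℤ) (hu : IsCoprime u (N : ℤ)) (k : ℤ) :
    gg (u * k) N = jr u N * gg k N := by
  have hNAB := sq1_mul_sq2 N hN.pos.ne'
  obtain ⟨hA, hB⟩ := pc_odd12 hN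
  have hB0 : (((sq2 N : ℕ) : ℤ)) ^ 2 ≠ 0 := pow_ne_zero _ (by exact_mod_cast hB.pos.ne')
  have hNc : (N : ℤ) = (sq1 N : ℤ) * (sq2 N : ℤ) ^ 2 := by
    have : (((sq1 N * sq2 N ^ 2 : ℕ)) : ℤ) = (N : ℤ) := by rw [hNAB]
    push_cast at this
    exact this.symm
  have huB : IsCoprime u ((sq2 N : ℤ) ^ 2) := by
    rw [hNc] at hu
    exact hu.of_mul_right_right
  have hjr : jr u N = jr u (sq1 N) := by
    have h1 : jr u N = jr u (sq1 N) * jr u (sq2 N) ^ 2 := by
      have : NeZero (sq1 N) := ⟨hA.pos.ne'⟩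
      have : NeZero (sq2 N) := ⟨hB.pos.ne'⟩
      have h0 : jr u (sq1 N * sq2 N ^ 2) = jr u (sq1 N) * jr u (sq2 N) ^ 2 := by
        unfold jr
        rw [if_pos (hA.mul hB.pow), if_pos hA, if_pos hB, jacobiSym.mul_right,
          jacobiSym.pow_right]
        push_cast
        ring
      rwa [hNAB] at h0
    rw [h1, pc_jr_sq_one hB (by
      rw [sq] at huB
      exact huB.of_mul_right_left), mul_one]
  rw [hjr]
  unfold gg
  rw [← mul_div_assoc, Finset.mul_sum]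
  congr 1
  have hfil : (sq2 N).divisors.filter (fun e : ℕ => ((sq2 N : ℕ) : ℤ) ^ 2 ∣ (u * k) * (e : ℤ)) =
      (sq2 N).divisors.filter (fun e : ℕ => ((sq2 N : ℕ) : ℤ) ^ 2 ∣ k * (e : ℤ)) := by
    apply Finset.filter_congr
    intro e _
    rw [mul_assoc]
    constructor
    · intro h
      exact huB.symm.dvd_of_dvd_mul_left h
    · intro h
      exact h.mul_left u
  rw [hfil]
  refine Finset.sum_congr rfl fun e he => ?_
  have hdvd := (mem_filter.1 he).2
  obtain ⟨t, ht⟩ := hdvd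
  have h2 : (u * k) * (e : ℤ) ^ 2 / ((sq2 N : ℕ) : ℤ) ^ 2 = u * (t * e) := by
    apply Int.ediv_eq_of_eq_mul_right hB0
    have : (u * k) * (e : ℤ) ^ 2 = (k * e) * (u * e) := by ring
    rw [this, ht]
    ring
  have h3 : k * (e : ℤ) ^ 2 / ((sq2 N : ℕ) : ℤ) ^ 2 = t * e := by
    apply Int.ediv_eq_of_eq_mul_right hB0
    have : k * (e : ℤ) ^ 2 = (k * e) * e := by ring
    rw [this, ht]
    ring
  rw [h2, h3, pc_jr_mul]
  ring

private theorem pc_split (x : ℤ) {A B : ℕ} (hA : Odd A) (hB : Odd B) :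
    jr x (A * B ^ 2) = jr x A * (if Int.gcd x B = 1 then 1 else 0) := by
  have hAB : Odd (A * B ^ 2) := hA.mul hB.pow
  have : NeZero A := ⟨hA.pos.ne'⟩
  have : NeZero B := ⟨hB.pos.ne'⟩
  unfold jr
  rw [if_pos hAB, if_pos hA, jacobiSym.mul_right, jacobiSym.pow_right]
  split_ifs with h
  · rw [jacobiSym.sq_one h, mul_one, mul_one]
  · rw [jacobiSym.eq_zero_iff_not_coprime.2 h]
    norm_num

private theorem pc_moebius (d : ℕ) {B : ℕ} (hB : B ≠ 0) :
    (∑ e ∈ B.divisors, if e ∣ d then (ArithmeticFunction.moebius e : ℝ) else 0) =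
      if Nat.gcd d B = 1 then 1 else 0 := by
  rw [← Finset.sum_filter]
  have h1 : B.divisors.filter (fun e => e ∣ d) = (Nat.gcd d B).divisors := by
    ext e
    simp only [mem_filter, Nat.mem_divisors, Nat.dvd_gcd_iff]
    constructor
    · rintro ⟨⟨h1, -⟩, h2⟩
      exact ⟨⟨h2, h1⟩, fun h => hB (Nat.eq_zero_of_gcd_eq_zero_right h)⟩
    · rintro ⟨⟨h1, h2⟩, -⟩
      exact ⟨⟨h2, hB⟩, h1⟩
  rw [h1]
  have h2 : (∑ e ∈ (Nat.gcd d B).divisors, ArithmeticFunction.moebius e) =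
      if Nat.gcd d B = 1 then 1 else 0 := by
    rw [← ArithmeticFunction.coe_mul_zeta_apply, ArithmeticFunction.moebius_mul_coe_zeta,
      ArithmeticFunction.one_apply]
  have h3 : ((∑ e ∈ (Nat.gcd d B).divisors, ArithmeticFunction.moebius e : ℤ) : ℝ) =
      ((if Nat.gcd d B = 1 then 1 else 0 : ℤ) : ℝ) := by rw [h2]
  push_cast at h3
  rw [h3]

private theorem pc_tsum_dvd (g : ℕ → ℝ) {e : ℕ} (he : e ≠ 0) :
    ∑' d, (if e ∣ d then g d else 0) = ∑' m, g (e * m) := by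
  have hinj : Function.Injective (fun m : ℕ => e * m) := fun m n h =>
    Nat.eq_of_mul_eq_mul_left (Nat.pos_of_ne_zero he) h
  rw [← hinj.tsum_eq (f := fun d => if e ∣ d then g d else 0)]
  · refine tsum_congr fun m => ?_
    rw [if_pos (Dvd.intro m rfl)]
  · intro d hd
    rw [Function.mem_support] at hd
    by_cases h : e ∣ d
    · obtain ⟨m, rfl⟩ := h
      exact ⟨m, rfl⟩
    · rw [if_neg h] at hd
      exact absurd rfl hd

/-- Summation over an arithmetic progression of integers. -/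
private theorem pc_tsum_ap (g : ℤ → ℝ) {e : ℤ} (he : e ≠ 0) (r : ℤ) :
    ∑' d, (if e ∣ d - r then g d else 0) = ∑' m, g (e * m + r) := by
  have hinj : Function.Injective (fun m : ℤ => e * m + r) := fun m n h =>
    mul_left_cancel₀ he (add_right_cancel h)
  rw [← hinj.tsum_eq (f := fun d => if e ∣ d - r then g d else 0)]
  · refine tsum_congr fun m => ?_
    rw [if_pos ⟨m, by ring⟩]
  · intro d hd
    rw [Function.mem_support] at hd
    by_cases h : e ∣ d - r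
    · obtain ⟨m, hm⟩ := h
      exact ⟨m, by simp only; linarith⟩
    · rw [if_neg h] at hd
      exact absurd rfl hd

private theorem pc_summable_ite {α : Type*} {f : α → ℝ} (hf : Summable f) (p : α → Prop)
    [DecidablePred p] : Summable fun x => if p x then f x else 0 := by
  refine Summable.of_norm_bounded hf.norm fun x => ?_
  split_ifs
  · exact le_rfl
  · rw [norm_zero]
    exact norm_nonneg _

private theorem pc_fin {F : ℝ → ℝ} {a b : ℝ} (hF : Bump F a b) {Y : ℝ} (hY : 0 < Y)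
    (c : ℕ → ℝ) : Summable (fun d : ℕ => F (d / Y) * c d) := by
  apply summable_of_hasFiniteSupport
  refine (Set.finite_Iic ⌊b * Y⌋₊).subset fun d hd => ?_
  rw [Function.mem_support] at hd
  have h1 : F (d / Y) ≠ 0 := fun h => hd (by rw [h, zero_mul])
  have h2 := (hF.supp _ h1).2
  rw [div_lt_iff₀ hY] at h2
  exact Nat.le_floor h2.le

private theorem pc_gcd (σ : ℤ) (hσ : σ = 1 ∨ σ = -1) (d : ℕ) {B : ℕ} :
    Int.gcd (σ * d) B = 1 ↔ Nat.gcd d B = 1 := by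
  have h1 : Int.gcd (σ * d) B = Nat.gcd d B := by
    rw [Int.gcd, Int.natAbs_natCast]
    congr 1
    rcases hσ with rfl | rfl
    · rw [one_mul, Int.natAbs_natCast]
    · rw [neg_one_mul, Int.natAbs_neg, Int.natAbs_natCast]
  rw [h1]

/-- Poisson summation over all `d`. -/
private theorem pc_all {F : ℝ → ℝ} {a b : ℝ} (ha : 0 < a) (hF : Bump F a b) (σ : ℤ)
    (hσ : σ = 1 ∨ σ = -1) (N : ℕ) (hN : Odd N) (Y : ℝ) (hY : 0 < Y) :
    Summable (fun k : ℤ => gg k N * Ft F σ ((k : ℝ) * Y / N)) ∧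
    ∑' d : ℕ, F (d / Y) * jr (σ * d) N =
      Y * ∑' k : ℤ, gg k N * Ft F σ ((k : ℝ) * Y / N) := by
  classical
  have hsum0 : Summable (fun k : ℤ => gg k N * Ft F σ ((k : ℝ) * Y / N)) := by
    have h1 := (poisson_odd ha hF σ hσ N hN (2 * Y) (by positivity)).1
    refine h1.congr fun k => ?_
    congr 2
    rw [show (k : ℝ) * (2 * Y) = 2 * ((k : ℝ) * Y) by ring, mul_div_mul_left _ _ two_ne_zero]
  refine ⟨hsum0, ?_⟩
  have hN0 : N ≠ 0 := hN.pos.ne'
  have hNAB := sq1_mul_sq2 N hN0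
  have hsA := squarefree_sq1 N
  obtain ⟨hA, hB⟩ := pc_odd12 hN
  unfold gg
  generalize hAd : sq1 N = A at *
  generalize hBd : sq2 N = B at *
  have hB0 : B ≠ 0 := hB.pos.ne'
  have hNr : (0 : ℝ) < N := by exact_mod_cast hN.pos
  have hAr : (0 : ℝ) < A := by exact_mod_cast hA.pos
  have hBr : (0 : ℝ) < B := by exact_mod_cast hB.pos
  have hsAr : (0 : ℝ) < √(A : ℝ) := Real.sqrt_pos.2 hAr
  have hNc : (N : ℝ) = A * B ^ 2 := by
    rw [← hNAB]
    push_cast
    ring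
  -- summability of the transform
  have hS : Summable fun k : ℤ => Ft F σ ((k : ℝ) * Y / N) := by
    have h1 := (poisson_sqf ha hF σ hσ 1 odd_one squarefree_one (Y / N)
      (by positivity)).1
    refine h1.congr fun k => ?_
    congr 1
    push_cast
    field_simp
  -- the terms
  have hT : ∀ e : ℕ, Summable fun k : ℤ =>
      (if (B : ℤ) ^ 2 ∣ k * (e : ℤ) then (ArithmeticFunction.moebius e : ℝ) / e *
        jr (k * (e : ℤ) ^ 2 / (B : ℤ) ^ 2) A else 0) / √(A : ℝ) *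
        Ft F σ ((k : ℝ) * Y / N) := by
    intro e
    refine Summable.of_norm_bounded (hS.norm.mul_left
      (|(ArithmeticFunction.moebius e : ℝ) / e| / √(A : ℝ))) fun k => ?_
    rw [norm_mul]
    refine mul_le_mul_of_nonneg_right ?_ (norm_nonneg _)
    rw [norm_div, Real.norm_of_nonneg hsAr.le]
    refine div_le_div_of_nonneg_right ?_ hsAr.le
    split_ifs
    · rw [norm_mul, Real.norm_eq_abs]
      calc _ ≤ |(ArithmeticFunction.moebius e : ℝ) / e| * 1 :=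
            mul_le_mul_of_nonneg_left (pc_jr_abs _ _) (abs_nonneg _)
        _ = _ := mul_one _
    · rw [norm_zero]
      exact abs_nonneg _
  have hexp : ∀ k : ℤ, (∑ e ∈ B.divisors.filter (fun e : ℕ => (B : ℤ) ^ 2 ∣ k * (e : ℤ)),
      (ArithmeticFunction.moebius e : ℝ) / e * jr (k * (e : ℤ) ^ 2 / (B : ℤ) ^ 2) A) /
        √(A : ℝ) * Ft F σ ((k : ℝ) * Y / N) =
      ∑ e ∈ B.divisors, (if (B : ℤ) ^ 2 ∣ k * (e : ℤ) then (ArithmeticFunction.moebius e : ℝ) / e *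
        jr (k * (e : ℤ) ^ 2 / (B : ℤ) ^ 2) A else 0) / √(A : ℝ) *
        Ft F σ ((k : ℝ) * Y / N) := by
    intro k
    rw [Finset.sum_filter, Finset.sum_div, Finset.sum_mul]
  -- the left hand side
  have hL : ∀ d : ℕ, F (d / Y) * jr (σ * d) N =
      ∑ e ∈ B.divisors, (ArithmeticFunction.moebius e : ℝ) *
        (if e ∣ d then F (d / Y) * jr (σ * d) A else 0) := by
    intro d
    have h1 : jr (σ * d) N = jr (σ * d) A *
        ∑ e ∈ B.divisors, if e ∣ d then (ArithmeticFunction.moebius e : ℝ) else 0 := by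
      rw [pc_moebius d hB0, ← hNAB, pc_split _ hA hB]
      congr 1
      simp only [pc_gcd σ hσ d]
    rw [h1, ← mul_assoc, Finset.mul_sum]
    refine Finset.sum_congr rfl fun e _ => ?_
    split_ifs
    · ring
    · ring
  have hLs : ∀ e : ℕ, Summable fun d : ℕ => (ArithmeticFunction.moebius e : ℝ) *
        (if e ∣ d then F (d / Y) * jr (σ * d) A else 0) := fun e =>
    (pc_summable_ite (pc_fin hF hY _) _).mul_left _
  rw [tsum_congr hL, tsum_congr hexp, Summable.tsum_finsetSum fun e _ => hLs e,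
    Summable.tsum_finsetSum fun e _ => hT e, Finset.mul_sum]
  refine Finset.sum_congr rfl fun e he => ?_
  rw [Nat.mem_divisors] at he
  obtain ⟨c, hc⟩ := he.1
  have heo : Odd e := by
    rw [hc] at hB
    exact (Nat.odd_mul.1 hB).1
  have hco : Odd c := by
    rw [hc] at hB
    exact (Nat.odd_mul.1 hB).2
  have he0 : e ≠ 0 := heo.pos.ne'
  have her : (0 : ℝ) < e := by exact_mod_cast heo.pos
  have hcr : (0 : ℝ) < c := by exact_mod_cast hco.pos
  rw [tsum_mul_left, pc_tsum_dvd (fun d => F (d / Y) * jr (σ * d) A) he0]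
  obtain ⟨s1, t1⟩ := poisson_sqf ha hF σ hσ A hA hsA (Y / e) (by positivity)
  have e1 : ∑' m : ℕ, F (((e * m : ℕ) : ℝ) / Y) * jr (σ * (e * m : ℕ)) A =
      jr e A * ∑' d : ℕ, F (d / (Y / e)) * jr (σ * d) A := by
    rw [← tsum_mul_left]
    refine tsum_congr fun m => ?_
    have h1 : ((e * m : ℕ) : ℝ) / Y = (m : ℝ) / (Y / e) := by
      push_cast
      field_simp
    have h2 : (σ * ((e * m : ℕ) : ℤ)) = (e : ℤ) * (σ * m) := by
      push_cast
      ring
    rw [h1, h2, pc_jr_mul]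
    ring
  rw [e1, t1]
  -- the right hand side
  have hBc : (B : ℤ) = e * c := by
    rw [hc]
    push_cast
    ring
  have heZ : (e : ℤ) ≠ 0 := by exact_mod_cast he0
  have hcZ : (c : ℤ) ≠ 0 := by exact_mod_cast hco.pos.ne'
  have hdvd : ∀ k : ℤ, (B : ℤ) ^ 2 ∣ k * (e : ℤ) ↔ ((e : ℤ) * c ^ 2) ∣ k - 0 := by
    intro k
    rw [hBc, sub_zero]
    constructor
    · rintro ⟨t, ht⟩
      refine ⟨t, mul_right_cancel₀ heZ ?_⟩
      rw [ht]
      ring
    · rintro ⟨t, rfl⟩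
      exact ⟨t, by ring⟩
  have h2 : ∑' k : ℤ, ((if (B : ℤ) ^ 2 ∣ k * (e : ℤ) then
        (ArithmeticFunction.moebius e : ℝ) / e *
        jr (k * (e : ℤ) ^ 2 / (B : ℤ) ^ 2) A else 0) / √(A : ℝ) *
        Ft F σ ((k : ℝ) * Y / N)) =
      ∑' k : ℤ, (if ((e : ℤ) * c ^ 2) ∣ k - 0 then
        ((ArithmeticFunction.moebius e : ℝ) / e *
        jr (k * (e : ℤ) ^ 2 / (B : ℤ) ^ 2) A / √(A : ℝ) *
        Ft F σ ((k : ℝ) * Y / N)) else 0) := by
    refine tsum_congr fun k => ?_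
    simp only [hdvd]
    split_ifs
    · rfl
    · ring
  have hec : (e : ℤ) * c ^ 2 ≠ 0 := mul_ne_zero heZ (pow_ne_zero _ hcZ)
  rw [h2, pc_tsum_ap _ hec]
  rw [← tsum_mul_left, ← tsum_mul_left, ← tsum_mul_left, ← tsum_mul_left]
  refine tsum_congr fun k => ?_
  have h4 : ((e : ℤ) * c ^ 2 * k + 0) * (e : ℤ) ^ 2 / (B : ℤ) ^ 2 = (e : ℤ) * k := by
    rw [hBc]
    apply Int.ediv_eq_of_eq_mul_left (pow_ne_zero _ (mul_ne_zero heZ hcZ))
    ring
  have h5 : (((e : ℤ) * c ^ 2 * k + 0 : ℤ) : ℝ) * Y / N = (k : ℝ) * (Y / e) / A := by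
    have hBr' : (B : ℝ) = e * c := by
      rw [hc]
      push_cast
      ring
    rw [hNc, hBr']
    push_cast
    field_simp
    ring
  rw [h4, h5, pc_jr_mul]
  field_simp


private theorem pc_int {F : ℝ → ℝ} {a b : ℝ} (hF : Bump F a b) {g : ℝ → ℝ} (hg : Continuous g) :
    Integrable (fun t => F t * g t) := by
  refine Continuous.integrable_of_hasCompactSupport (hF.smooth.continuous.mul hg) ?_
  have h : HasCompactSupport F := by
    refine HasCompactSupport.intro (isCompact_Icc (a := a) (b := b)) ?_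
    intro x hx
    by_contra h
    have := hF.supp x h
    exact hx ⟨this.1.le, this.2.le⟩
  exact h.mul_right

private theorem pc_bump {F : ℝ → ℝ} {a b : ℝ} (hF : Bump F a b) (p q : ℝ) :
    Bump (fun t => F t * Real.cos (p * t - q)) a b := by
  constructor
  · refine hF.smooth.mul (Real.contDiff_cos.comp ?_)
    exact (contDiff_const.mul contDiff_id).sub contDiff_const
  · intro t ht
    exact hF.supp t (left_ne_zero_of_mul ht)

/-- The transform of the twisted function. -/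
private theorem pc_ft_twist {F : ℝ → ℝ} {a b : ℝ} (hF : Bump F a b) (σ : ℤ)
    (hσ : σ = 1 ∨ σ = -1) (η θ ξ : ℝ) :
    Ft (fun t => F t * Real.cos (σ * (2 * π * η) * t - θ)) σ ξ =
      Real.cos θ / 2 * (Ft F σ (ξ + η) + Ft F σ (ξ - η)) +
      Real.sin θ / 2 * (Ft F σ (-ξ + η) - Ft F σ (-ξ - η)) := by
  have hσ2 : (σ : ℝ) * σ = 1 := by
    rcases hσ with rfl | rfl <;> norm_num
  unfold Ft
  have hi : ∀ x : ℝ, Integrable (fun t => F t * (Real.cos (2 * π * x * t) +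
      σ * Real.sin (2 * π * x * t))) := fun x => pc_int hF (by fun_prop)
  have hi1 : Integrable (fun t => Real.cos θ / 2 *
      (F t * (Real.cos (2 * π * (ξ + η) * t) + σ * Real.sin (2 * π * (ξ + η) * t)) +
        F t * (Real.cos (2 * π * (ξ - η) * t) + σ * Real.sin (2 * π * (ξ - η) * t)))) :=
    ((hi _).add (hi _)).const_mul _
  have hi2 : Integrable (fun t => Real.sin θ / 2 *
      (F t * (Real.cos (2 * π * (-ξ + η) * t) + σ * Real.sin (2 * π * (-ξ + η) * t)) -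
        F t * (Real.cos (2 * π * (-ξ - η) * t) + σ * Real.sin (2 * π * (-ξ - η) * t)))) :=
    ((hi _).sub (hi _)).const_mul _
  rw [← integral_add (hi _) (hi _), ← integral_sub (hi _) (hi _), ← integral_const_mul,
    ← integral_const_mul, ← integral_add hi1 hi2]
  congr 1
  ext t
  have hc : Real.cos (σ * (2 * π * η) * t) = Real.cos (2 * π * η * t) := by
    rcases hσ with rfl | rfl
    · norm_num
    · rw [show (((-1 : ℤ)) : ℝ) * (2 * π * η) * t = -(2 * π * η * t) by push_cast; ring,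
        Real.cos_neg]
  have hs : Real.sin (σ * (2 * π * η) * t) = σ * Real.sin (2 * π * η * t) := by
    rcases hσ with rfl | rfl
    · norm_num
    · rw [show (((-1 : ℤ)) : ℝ) * (2 * π * η) * t = -(2 * π * η * t) by push_cast; ring,
        Real.sin_neg]
      push_cast
      ring
  simp only []
  rw [Real.cos_sub, hc, hs]
  have e1 : 2 * π * (ξ + η) * t = 2 * π * ξ * t + 2 * π * η * t := by ring
  have e2 : 2 * π * (ξ - η) * t = 2 * π * ξ * t - 2 * π * η * t := by ring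
  have e3 : 2 * π * (-ξ + η) * t = 2 * π * η * t - 2 * π * ξ * t := by ring
  have e4 : 2 * π * (-ξ - η) * t = -(2 * π * ξ * t + 2 * π * η * t) := by ring
  rw [e1, e2, e3, e4, Real.cos_neg, Real.sin_neg]
  simp only [Real.cos_add, Real.cos_sub, Real.sin_add, Real.sin_sub]
  generalize Real.cos (2 * π * ξ * t) = cb
  generalize Real.sin (2 * π * ξ * t) = sb
  generalize Real.cos (2 * π * η * t) = cy
  generalize Real.sin (2 * π * η * t) = sy
  generalize Real.cos θ = ct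
  generalize Real.sin θ = st
  linear_combination (F t * st * sy * sb) * hσ2

private theorem pc_per {v : ℤ → ℝ} (hv : ∀ j, v (j + 8) = v j) (x y : ℤ) (h : (8 : ℤ) ∣ x - y) :
    v x = v y := by
  have hn : ∀ (n : ℕ) (x : ℤ), v (x + 8 * n) = v x := by
    intro n
    induction n with
    | zero => intro x; simp
    | succ n ih =>
      intro x
      have : x + 8 * ((n + 1 : ℕ) : ℤ) = (x + 8 * n) + 8 := by push_cast; ring
      rw [this, hv, ih]
  obtain ⟨q, hq⟩ := h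
  rcases le_total 0 q with h0 | h0
  · obtain ⟨n, rfl⟩ := Int.eq_ofNat_of_zero_le h0
    have : x = y + 8 * n := by linarith
    rw [this, hn]
  · obtain ⟨n, hn'⟩ := Int.eq_ofNat_of_zero_le (neg_nonneg.2 h0)
    have : y = x + 8 * n := by linarith
    rw [this, hn]

private theorem pc_sel {v : ℤ → ℝ} (hv : ∀ j, v (j + 8) = v j) {N : ℤ} (hN : Odd N) (h : ℤ) :
    ∑ j ∈ range 8, v j * (if (8 : ℤ) ∣ h - j * N then 1 else 0) = v (h * N) := by
  have hN2 : (8 : ℤ) ∣ N * N - 1 := by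
    obtain ⟨m, rfl⟩ := hN
    have : (2 * m + 1) * (2 * m + 1) - 1 = 4 * (m * (m + 1)) := by ring
    rw [this]
    obtain ⟨r, hr⟩ := Int.even_mul_succ_self m
    exact ⟨r, by rw [hr]; ring⟩
  have hj0 : ∃ j0 : ℕ, j0 < 8 ∧ (8 : ℤ) ∣ h * N - j0 := by
    refine ⟨((h * N) % 8).toNat, ?_, ?_⟩ <;> omega
  obtain ⟨j0, hj0, hj0'⟩ := hj0
  rw [Finset.sum_eq_single j0]
  · have : (8 : ℤ) ∣ h - j0 * N := by
      obtain ⟨s, hs⟩ := hN2
      obtain ⟨t, ht⟩ := hj0'
      refine ⟨t * N - h * s, ?_⟩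
      linear_combination N * ht - h * hs
    rw [if_pos this, mul_one]
    apply pc_per hv
    rw [← dvd_neg]
    simpa using hj0'
  · intro j hj hne
    have : ¬ (8 : ℤ) ∣ h - j * N := by
      intro hd
      apply hne
      have h1 : (8 : ℤ) ∣ (j : ℤ) - j0 := by
        obtain ⟨s, hs⟩ := hN2
        obtain ⟨t, ht⟩ := hj0'
        obtain ⟨r, hr⟩ := hd
        refine ⟨-(j * s) - r * N + t, ?_⟩
        linear_combination (-(j : ℤ)) * hs - N * hr + ht
      have h2 := mem_range.1 hj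
      omega
    rw [if_neg this, mul_zero]
  · intro h1
    exact absurd (mem_range.2 hj0) h1

/-- Values of the cosine at the multiples of `π / 4`. -/
private theorem pc_cos (x : ℤ) : Real.cos (π * x / 4) =
    if x % 8 = 0 then 1 else if x % 8 = 1 then √2 / 2 else if x % 8 = 2 then 0 else
    if x % 8 = 3 then -(√2 / 2) else if x % 8 = 4 then -1 else if x % 8 = 5 then -(√2 / 2) else
    if x % 8 = 6 then 0 else √2 / 2 := by
  have hx : x = x % 8 + (x / 8) * 8 := by omega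
  have h1 : Real.cos (π * x / 4) = Real.cos (π * ((x % 8 : ℤ) : ℝ) / 4) := by
    have h2 : π * (x : ℝ) / 4 = π * ((x % 8 : ℤ) : ℝ) / 4 + ((x / 8 : ℤ) : ℝ) * (2 * π) := by
      have h3 : (x : ℝ) = ((x % 8 : ℤ) : ℝ) + ((x / 8 : ℤ) : ℝ) * 8 := by exact_mod_cast hx
      rw [h3]
      ring
    rw [h2, Real.cos_add_int_mul_two_pi]
  rw [h1]
  have h8 : x % 8 = 0 ∨ x % 8 = 1 ∨ x % 8 = 2 ∨ x % 8 = 3 ∨ x % 8 = 4 ∨ x % 8 = 5 ∨
    x % 8 = 6 ∨ x % 8 = 7 := by omega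
  rcases h8 with h | h | h | h | h | h | h | h <;> rw [h]
  · norm_num
  · norm_num [Real.cos_pi_div_four]
  · have : π * ((2 : ℤ) : ℝ) / 4 = π / 2 := by push_cast; ring
    rw [this]
    norm_num
  · have : π * ((3 : ℤ) : ℝ) / 4 = π - π / 4 := by push_cast; ring
    rw [this, Real.cos_pi_sub, Real.cos_pi_div_four]
    norm_num
  · have : π * ((4 : ℤ) : ℝ) / 4 = π := by push_cast; ring
    rw [this]
    norm_num
  · have : π * ((5 : ℤ) : ℝ) / 4 = π / 4 + π := by push_cast; ring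
    rw [this, Real.cos_add_pi, Real.cos_pi_div_four]
    norm_num
  · have : π * ((6 : ℤ) : ℝ) / 4 = π / 2 + π := by push_cast; ring
    rw [this, Real.cos_add_pi]
    norm_num
  · have : π * ((7 : ℤ) : ℝ) / 4 = 2 * π - π / 4 := by push_cast; ring
    rw [this, Real.cos_two_pi_sub, Real.cos_pi_div_four]
    norm_num

/-- Values of the sine at the multiples of `π / 4`. -/
private theorem pc_sin (x : ℤ) : Real.sin (π * x / 4) =
    if x % 8 = 0 then 0 else if x % 8 = 1 then √2 / 2 else if x % 8 = 2 then 1 else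
    if x % 8 = 3 then √2 / 2 else if x % 8 = 4 then 0 else if x % 8 = 5 then -(√2 / 2) else
    if x % 8 = 6 then -1 else -(√2 / 2) := by
  have h1 : Real.sin (π * x / 4) = Real.cos (π * ((x - 2 : ℤ) : ℝ) / 4) := by
    have : π * ((x - 2 : ℤ) : ℝ) / 4 = π * x / 4 - π / 2 := by push_cast; ring
    rw [this, Real.cos_sub_pi_div_two]
  rw [h1, pc_cos]
  have h8 : x % 8 = 0 ∨ x % 8 = 1 ∨ x % 8 = 2 ∨ x % 8 = 3 ∨ x % 8 = 4 ∨ x % 8 = 5 ∨
    x % 8 = 6 ∨ x % 8 = 7 := by omega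
  rcases h8 with h | h | h | h | h | h | h | h
  · have h2 : (x - 2) % 8 = 6 := by omega
    rw [h, h2]; norm_num
  · have h2 : (x - 2) % 8 = 7 := by omega
    rw [h, h2]; norm_num
  · have h2 : (x - 2) % 8 = 0 := by omega
    rw [h, h2]; norm_num
  · have h2 : (x - 2) % 8 = 1 := by omega
    rw [h, h2]; norm_num
  · have h2 : (x - 2) % 8 = 2 := by omega
    rw [h, h2]; norm_num
  · have h2 : (x - 2) % 8 = 3 := by omega
    rw [h, h2]; norm_num
  · have h2 : (x - 2) % 8 = 4 := by omega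
    rw [h, h2]; norm_num
  · have h2 : (x - 2) % 8 = 5 := by omega
    rw [h, h2]; norm_num

private theorem pc_ind (m : ℤ) : ∑ j ∈ range 8, Real.cos (π * ((j * m : ℤ) : ℝ) / 4) =
    if (8 : ℤ) ∣ m then 8 else 0 := by
  simp only [pc_cos]
  have h8 : m % 8 = 0 ∨ m % 8 = 1 ∨ m % 8 = 2 ∨ m % 8 = 3 ∨ m % 8 = 4 ∨ m % 8 = 5 ∨
    m % 8 = 6 ∨ m % 8 = 7 := by omega
  have hd : (8 : ℤ) ∣ m ↔ m % 8 = 0 := by omega
  simp only [hd, Finset.sum_range_succ, Finset.sum_range_zero, Int.mul_emod _ m]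
  rcases h8 with h | h | h | h | h | h | h | h <;> rw [h] <;> norm_num

private theorem pc_jr_two {N : ℕ} (hN : Odd N) : jr 2 N =
    if N % 8 = 1 ∨ N % 8 = 7 then 1 else -1 := by
  unfold jr
  rw [if_pos hN, jacobiSym.at_two hN, ZMod.χ₈_nat_eq_if_mod_eight]
  have : N % 2 ≠ 0 := by
    have := Nat.odd_iff.1 hN
    omega
  rw [if_neg this]
  split_ifs <;> norm_num

private theorem pc_jr_neg {N : ℕ} (hN : Odd N) : jr (-1) N = if N % 4 = 1 then 1 else -1 := by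
  unfold jr
  rw [if_pos hN, jacobiSym.at_neg_one hN]
  split_ifs with h
  · rw [ZMod.χ₄_nat_one_mod_four h]
    norm_num
  · have h3 : N % 4 = 3 := by
      have := Nat.odd_iff.1 hN
      omega
    rw [ZMod.χ₄_nat_three_mod_four h3]
    norm_num

/-- The finite identity. -/
private theorem pc_coef {N : ℕ} (hN : Odd N) (c : ℤ) (hc : Odd c) (h : ℤ) :
    jr 2 N * (Real.cos (π * ((h * N * c : ℤ) : ℝ) / 4) +
      jr (-1) N * Real.sin (π * ((h * N * c : ℤ) : ℝ) / 4)) =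
    √2 * t8 (c * h) + jr 2 N * (if (2 : ℤ) ∣ h then t4 c (h / 2) else 0) +
      jr 2 N * (if (8 : ℤ) ∣ h then 1 else 0) := by
  rw [pc_cos, pc_sin, pc_jr_two hN, pc_jr_neg hN]
  unfold t8 t4
  have hn : N % 8 = 1 ∨ N % 8 = 3 ∨ N % 8 = 5 ∨ N % 8 = 7 := by
    have := Nat.odd_iff.1 hN
    omega
  have hc8 : c % 8 = 1 ∨ c % 8 = 3 ∨ c % 8 = 5 ∨ c % 8 = 7 := by
    have := Int.odd_iff.1 hc
    omega
  have h8 : h % 8 = 0 ∨ h % 8 = 1 ∨ h % 8 = 2 ∨ h % 8 = 3 ∨ h % 8 = 4 ∨ h % 8 = 5 ∨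
    h % 8 = 6 ∨ h % 8 = 7 := by omega
  have e1 : (h * N * c) % 8 = ((h % 8) * (((N % 8 : ℕ) : ℤ)) % 8 * (c % 8)) % 8 := by
    push_cast
    rw [Int.mul_emod (h * N) c, Int.mul_emod h N]
  have e2 : (c * h) % 8 = ((c % 8) * (h % 8)) % 8 := Int.mul_emod _ _ _
  have e3 : (c * (h / 2)) % 4 = ((c % 8) * ((h / 2) % 4)) % 4 := by
    rw [Int.mul_emod, Int.mul_emod (c % 8)]
    have : c % 4 = c % 8 % 4 := by omega
    rw [this, Int.emod_emod_of_dvd (h / 2) (dvd_refl 4)]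
  have e4 : N % 4 = N % 8 % 4 := by omega
  rw [e1, e2, e3, e4]
  have hd2 : (2 : ℤ) ∣ h ↔ h % 8 % 2 = 0 := by omega
  have hd8 : (8 : ℤ) ∣ h ↔ h % 8 = 0 := by omega
  simp only [hd2, hd8]
  rcases h8 with h8 | h8 | h8 | h8 | h8 | h8 | h8 | h8
  · have h9 : (h / 2) % 4 = 0 := by omega
    rw [h8, h9]
    rcases hn with hn | hn | hn | hn <;> rw [hn] <;>
    rcases hc8 with hc8 | hc8 | hc8 | hc8 <;> rw [hc8] <;> norm_num
  · rw [h8]
    rcases hn with hn | hn | hn | hn <;> rw [hn] <;>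
    rcases hc8 with hc8 | hc8 | hc8 | hc8 <;> rw [hc8] <;> norm_num <;> ring
  · have h9 : (h / 2) % 4 = 1 := by omega
    rw [h8, h9]
    rcases hn with hn | hn | hn | hn <;> rw [hn] <;>
    rcases hc8 with hc8 | hc8 | hc8 | hc8 <;> rw [hc8] <;> norm_num
  · rw [h8]
    rcases hn with hn | hn | hn | hn <;> rw [hn] <;>
    rcases hc8 with hc8 | hc8 | hc8 | hc8 <;> rw [hc8] <;> norm_num <;> ring
  · have h9 : (h / 2) % 4 = 2 := by omega
    rw [h8, h9]
    rcases hn with hn | hn | hn | hn <;> rw [hn] <;>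
    rcases hc8 with hc8 | hc8 | hc8 | hc8 <;> rw [hc8] <;> norm_num
  · rw [h8]
    rcases hn with hn | hn | hn | hn <;> rw [hn] <;>
    rcases hc8 with hc8 | hc8 | hc8 | hc8 <;> rw [hc8] <;> norm_num <;> ring
  · have h9 : (h / 2) % 4 = 3 := by omega
    rw [h8, h9]
    rcases hn with hn | hn | hn | hn <;> rw [hn] <;>
    rcases hc8 with hc8 | hc8 | hc8 | hc8 <;> rw [hc8] <;> norm_num
  · rw [h8]
    rcases hn with hn | hn | hn | hn <;> rw [hn] <;>
    rcases hc8 with hc8 | hc8 | hc8 | hc8 <;> rw [hc8] <;> norm_num <;> ring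

/-- The sum over a shifted progression. -/
private theorem pc_U {F : ℝ → ℝ} {a b : ℝ} (ha : 0 < a) (hF : Bump F a b) (σ : ℤ)
    (hσ : σ = 1 ∨ σ = -1) {N : ℕ} (hN : Odd N) {Y : ℝ} (hY : 0 < Y) (s : ℤ) :
    Summable (fun k : ℤ => gg k N * Ft F σ ((k : ℝ) * Y / N + s * Y / 8)) ∧
    ∑' k : ℤ, gg k N * Ft F σ ((k : ℝ) * Y / N + s * Y / 8) =
      jr 2 N * ∑' h : ℤ, (if (8 : ℤ) ∣ h - s * N then
        gg h N * Ft F σ ((h : ℝ) * Y / (8 * N)) else 0) := by
  have hNr : (0 : ℝ) < N := by exact_mod_cast hN.pos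
  have h22 : jr 2 N * jr 2 N = 1 := by
    have := pc_jr_sq_one hN (pc_two_cop hN)
    rwa [sq] at this
  have h8 : jr 8 N = jr 2 N := by
    have : (8 : ℤ) = 2 * (2 * 2) := by norm_num
    rw [this, pc_jr_mul, pc_jr_mul]
    linear_combination jr 2 N * h22
  have hcop8 : IsCoprime (8 : ℤ) (N : ℤ) := by
    have h := pc_two_cop hN
    have : (8 : ℤ) = 2 * (2 * 2) := by norm_num
    rw [this]
    exact IsCoprime.mul_left h (IsCoprime.mul_left h h)
  have hterm : ∀ k : ℤ, gg k N * Ft F σ ((k : ℝ) * Y / N + s * Y / 8) =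
      jr 2 N * (gg (8 * k + s * N) N * Ft F σ (((8 * k + s * N : ℤ) : ℝ) * Y / (8 * N))) := by
    intro k
    have h1 : gg (8 * k + s * N) N = jr 2 N * gg k N := by
      rw [mul_comm s (N : ℤ), pc_gg_add hN, pc_gg_mul hN 8 hcop8, h8]
    have h2 : ((8 * k + s * N : ℤ) : ℝ) * Y / (8 * N) = (k : ℝ) * Y / N + s * Y / 8 := by
      push_cast
      field_simp
    rw [h1, h2]
    linear_combination (-(gg k N * Ft F σ ((k : ℝ) * Y / N + s * Y / 8))) * h22
  have hsum : Summable (fun h : ℤ => gg h N * Ft F σ ((h : ℝ) * Y / (8 * N))) := by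
    have h1 := (pc_all ha hF σ hσ N hN (Y / 8) (by positivity)).1
    refine h1.congr fun k => ?_
    congr 2
    field_simp
  have hinj : Function.Injective (fun k : ℤ => 8 * k + s * N) := by
    intro x y h
    simp only at h
    omega
  refine ⟨?_, ?_⟩
  · simp_rw [hterm]
    exact (hsum.comp_injective hinj).mul_left _
  · simp_rw [hterm]
    rw [tsum_mul_left, pc_tsum_ap (fun h : ℤ => gg h N * Ft F σ ((h : ℝ) * Y / (8 * N)))
      (by norm_num) (s * N)]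

private theorem pc_V {F : ℝ → ℝ} {a b : ℝ} (ha : 0 < a) (hF : Bump F a b) (σ : ℤ)
    (hσ : σ = 1 ∨ σ = -1) {N : ℕ} (hN : Odd N) {Y : ℝ} (hY : 0 < Y) (s : ℤ) :
    Summable (fun k : ℤ => gg k N * Ft F σ (-((k : ℝ) * Y / N) + s * Y / 8)) ∧
    ∑' k : ℤ, gg k N * Ft F σ (-((k : ℝ) * Y / N) + s * Y / 8) =
      jr (-1) N * ∑' k : ℤ, gg k N * Ft F σ ((k : ℝ) * Y / N + s * Y / 8) := by
  have hcop : IsCoprime (-1 : ℤ) (N : ℤ) := isCoprime_one_left.neg_left
  obtain ⟨h1, -⟩ := pc_U ha hF σ hσ hN hY s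
  have hterm : ∀ k : ℤ, gg (-k) N * Ft F σ (-(((-k : ℤ) : ℝ) * Y / N) + s * Y / 8) =
      jr (-1) N * (gg k N * Ft F σ ((k : ℝ) * Y / N + s * Y / 8)) := by
    intro k
    have h2 : gg (-k) N = jr (-1) N * gg k N := by
      rw [← pc_gg_mul hN (-1) hcop]
      congr 1
      ring
    have h3 : -(((-k : ℤ) : ℝ) * Y / N) + s * Y / 8 = (k : ℝ) * Y / N + s * Y / 8 := by
      push_cast
      ring
    rw [h2, h3]
    ring
  refine ⟨?_, ?_⟩
  · rw [← (Equiv.neg ℤ).summable_iff]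
    refine (h1.mul_left (jr (-1) N)).congr fun k => ?_
    simp only [Function.comp, Equiv.neg_apply]
    exact (hterm k).symm
  · rw [← (Equiv.neg ℤ).tsum_eq, ← tsum_mul_left]
    refine tsum_congr fun k => ?_
    simp only [Equiv.neg_apply]
    exact hterm k

private theorem pc_cos_per (c : ℤ) (j : ℤ) : Real.cos (π * (((j + 8) * c : ℤ) : ℝ) / 4) =
    Real.cos (π * ((j * c : ℤ) : ℝ) / 4) := by
  have : π * (((j + 8) * c : ℤ) : ℝ) / 4 = π * ((j * c : ℤ) : ℝ) / 4 + (c : ℝ) * (2 * π) := by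
    push_cast
    ring
  rw [this, Real.cos_add_int_mul_two_pi]

private theorem pc_sin_per (c : ℤ) (j : ℤ) : Real.sin (π * (((j + 8) * c : ℤ) : ℝ) / 4) =
    Real.sin (π * ((j * c : ℤ) : ℝ) / 4) := by
  have : π * (((j + 8) * c : ℤ) : ℝ) / 4 = π * ((j * c : ℤ) : ℝ) / 4 + (c : ℝ) * (2 * π) := by
    push_cast
    ring
  rw [this, Real.sin_add_int_mul_two_pi]

/-- The sum over a class modulo 8, with one sum on the dual side. -/
private theorem pc_class {F : ℝ → ℝ} {a b : ℝ} (ha : 0 < a) (hF : Bump F a b) (σ : ℤ)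
    (hσ : σ = 1 ∨ σ = -1) {N : ℕ} (hN : Odd N) (c : ℤ) {Y : ℝ} (hY : 0 < Y) :
    ∑' d : ℕ, (if (8 : ℤ) ∣ σ * d - c then F (d / Y) * jr (σ * d) N else 0) =
      Y / 8 * ∑' h : ℤ, (jr 2 N * (Real.cos (π * ((h * N * c : ℤ) : ℝ) / 4) +
        jr (-1) N * Real.sin (π * ((h * N * c : ℤ) : ℝ) / 4))) *
        (gg h N * Ft F σ ((h : ℝ) * Y / (8 * N))) := by
  have hNr : (0 : ℝ) < N := by exact_mod_cast hN.pos
  have hNZ : Odd (N : ℤ) := by exact_mod_cast hN
  have hsum : Summable (fun h : ℤ => gg h N * Ft F σ ((h : ℝ) * Y / (8 * N))) := by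
    have h1 := (pc_all ha hF σ hσ N hN (Y / 8) (by positivity)).1
    refine h1.congr fun k => ?_
    congr 2
    field_simp
  set f : ℤ → ℝ := fun h => gg h N * Ft F σ ((h : ℝ) * Y / (8 * N)) with hf
  set G : ℕ → ℝ → ℝ := fun j t => F t * Real.cos (σ * (2 * π * (j * Y / 8)) * t -
    π * ((j * c : ℤ) : ℝ) / 4) with hG
  have hGb : ∀ j, Bump (G j) a b := fun j => pc_bump hF _ _
  -- left side
  have hL : ∀ d : ℕ, (if (8 : ℤ) ∣ σ * d - c then F (d / Y) * jr (σ * d) N else 0) =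
      ∑ j ∈ range 8, (1 / 8) * (G j (d / Y) * jr (σ * d) N) := by
    intro d
    have h1 := pc_ind (σ * d - c)
    have h2 : ∀ j ∈ range 8, (1 / 8) * (G j (d / Y) * jr (σ * d) N) =
        (1 / 8 * (F (d / Y) * jr (σ * d) N)) *
          Real.cos (π * ((j * (σ * d - c) : ℤ) : ℝ) / 4) := by
      intro j _
      have h3 : σ * (2 * π * (j * Y / 8)) * (d / Y) - π * ((j * c : ℤ) : ℝ) / 4 =
          π * ((j * (σ * d - c) : ℤ) : ℝ) / 4 := by
        push_cast
        field_simp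
        ring
      simp only [hG]
      rw [h3]
      ring
    rw [Finset.sum_congr rfl h2, ← Finset.mul_sum, h1]
    split_ifs
    · ring
    · ring
  have hLs : ∀ j ∈ range 8, Summable (fun d : ℕ => (1 / 8) * (G j (d / Y) * jr (σ * d) N)) :=
    fun j _ => (pc_fin (hGb j) hY _).mul_left _
  rw [tsum_congr hL, Summable.tsum_finsetSum hLs]
  -- each twisted sum
  have hV : ∀ s : ℤ, HasSum (fun h : ℤ => if (8 : ℤ) ∣ h - s * N then f h else 0)
      (∑' h : ℤ, if (8 : ℤ) ∣ h - s * N then f h else 0) :=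
    fun s => (pc_summable_ite hsum _).hasSum
  have hj : ∀ j ∈ range 8, ∑' d : ℕ, (1 / 8) * (G j (d / Y) * jr (σ * d) N) =
      Y / 8 * ∑' h : ℤ, (jr 2 N * (Real.cos (π * ((j * c : ℤ) : ℝ) / 4) / 2 *
        ((if (8 : ℤ) ∣ h - j * N then f h else 0) + (if (8 : ℤ) ∣ h - (-j) * N then f h else 0)) +
        jr (-1) N * (Real.sin (π * ((j * c : ℤ) : ℝ) / 4) / 2 *
        ((if (8 : ℤ) ∣ h - j * N then f h else 0) -
          (if (8 : ℤ) ∣ h - (-j) * N then f h else 0))))) := by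
    intro j _
    rw [tsum_mul_left, (pc_all ha (hGb j) σ hσ N hN Y hY).2]
    have h1 : ∀ k : ℤ, gg k N * Ft (G j) σ ((k : ℝ) * Y / N) =
        Real.cos (π * ((j * c : ℤ) : ℝ) / 4) / 2 *
          (gg k N * Ft F σ ((k : ℝ) * Y / N + ((j : ℤ) : ℝ) * Y / 8) +
            gg k N * Ft F σ ((k : ℝ) * Y / N + ((-(j : ℤ) : ℤ) : ℝ) * Y / 8)) +
        Real.sin (π * ((j * c : ℤ) : ℝ) / 4) / 2 *
          (gg k N * Ft F σ (-((k : ℝ) * Y / N) + ((j : ℤ) : ℝ) * Y / 8) -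
            gg k N * Ft F σ (-((k : ℝ) * Y / N) + ((-(j : ℤ) : ℤ) : ℝ) * Y / 8)) := by
      intro k
      have h2 := pc_ft_twist hF σ hσ ((j : ℝ) * Y / 8) (π * ((j * c : ℤ) : ℝ) / 4)
        ((k : ℝ) * Y / N)
      rw [hG]
      simp only
      rw [h2]
      have e1 : (k : ℝ) * Y / N - (j : ℝ) * Y / 8 =
          (k : ℝ) * Y / N + ((-(j : ℤ) : ℤ) : ℝ) * Y / 8 := by
        push_cast
        ring
      have e2 : -((k : ℝ) * Y / N) - (j : ℝ) * Y / 8 =
          -((k : ℝ) * Y / N) + ((-(j : ℤ) : ℤ) : ℝ) * Y / 8 := by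
        push_cast
        ring
      rw [e1, e2]
      push_cast
      ring
    obtain ⟨u1, u1'⟩ := pc_U ha hF σ hσ hN hY (j : ℤ)
    obtain ⟨u2, u2'⟩ := pc_U ha hF σ hσ hN hY (-(j : ℤ))
    obtain ⟨v1, v1'⟩ := pc_V ha hF σ hσ hN hY (j : ℤ)
    obtain ⟨v2, v2'⟩ := pc_V ha hF σ hσ hN hY (-(j : ℤ))
    have h3 : ∑' k : ℤ, gg k N * Ft (G j) σ ((k : ℝ) * Y / N) =
        Real.cos (π * ((j * c : ℤ) : ℝ) / 4) / 2 *
          (∑' k : ℤ, gg k N * Ft F σ ((k : ℝ) * Y / N + ((j : ℤ) : ℝ) * Y / 8) +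
            ∑' k : ℤ, gg k N * Ft F σ ((k : ℝ) * Y / N + ((-(j : ℤ) : ℤ) : ℝ) * Y / 8)) +
        Real.sin (π * ((j * c : ℤ) : ℝ) / 4) / 2 *
          (∑' k : ℤ, gg k N * Ft F σ (-((k : ℝ) * Y / N) + ((j : ℤ) : ℝ) * Y / 8) -
            ∑' k : ℤ, gg k N * Ft F σ (-((k : ℝ) * Y / N) + ((-(j : ℤ) : ℤ) : ℝ) * Y / 8)) := by
      rw [tsum_congr h1]
      exact (((u1.hasSum.add u2.hasSum).mul_left _).add
        ((v1.hasSum.sub v2.hasSum).mul_left _)).tsum_eq
    have h4 := ((((hV j).add (hV (-j))).mul_left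
      (Real.cos (π * ((j * c : ℤ) : ℝ) / 4) / 2)).add
      ((((hV j).sub (hV (-j))).mul_left
        (Real.sin (π * ((j * c : ℤ) : ℝ) / 4) / 2)).mul_left (jr (-1) N))).mul_left (jr 2 N)
    rw [h4.tsum_eq, h3, v1', v2', u1', u2']
    ring
  rw [Finset.sum_congr rfl hj, ← Finset.mul_sum]
  congr 1
  rw [← Summable.tsum_finsetSum]
  · refine tsum_congr fun h => ?_
    have hc1 := pc_sel (v := fun j => Real.cos (π * ((j * c : ℤ) : ℝ) / 4))
      (fun j => pc_cos_per c j) hNZ h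
    have hc2 := pc_sel (v := fun j => Real.cos (π * ((j * c : ℤ) : ℝ) / 4))
      (fun j => pc_cos_per c j) hNZ (-h)
    have hs1 := pc_sel (v := fun j => Real.sin (π * ((j * c : ℤ) : ℝ) / 4))
      (fun j => pc_sin_per c j) hNZ h
    have hs2 := pc_sel (v := fun j => Real.sin (π * ((j * c : ℤ) : ℝ) / 4))
      (fun j => pc_sin_per c j) hNZ (-h)
    have e1 : Real.cos (π * ((-h * N * c : ℤ) : ℝ) / 4) =
        Real.cos (π * ((h * N * c : ℤ) : ℝ) / 4) := by
      rw [← Real.cos_neg]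
      congr 1
      push_cast
      ring
    have e2 : Real.sin (π * ((-h * N * c : ℤ) : ℝ) / 4) =
        -Real.sin (π * ((h * N * c : ℤ) : ℝ) / 4) := by
      rw [← Real.sin_neg]
      congr 1
      push_cast
      ring
    simp only [e1, e2] at hc1 hc2 hs1 hs2
    have hneg : ∀ j : ℕ, ((8 : ℤ) ∣ h - (-(j : ℤ)) * N) ↔ ((8 : ℤ) ∣ -h - (j : ℤ) * N) := by
      intro j
      rw [← dvd_neg]
      have : -(h - (-(j : ℤ)) * N) = -h - j * N := by ring
      rw [this]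
    have hterm : ∀ j ∈ range 8, (jr 2 N * (Real.cos (π * ((j * c : ℤ) : ℝ) / 4) / 2 *
        ((if (8 : ℤ) ∣ h - j * N then f h else 0) + (if (8 : ℤ) ∣ h - (-j) * N then f h else 0)) +
        jr (-1) N * (Real.sin (π * ((j * c : ℤ) : ℝ) / 4) / 2 *
        ((if (8 : ℤ) ∣ h - j * N then f h else 0) -
          (if (8 : ℤ) ∣ h - (-j) * N then f h else 0))))) =
        jr 2 N / 2 * f h * (Real.cos (π * ((j * c : ℤ) : ℝ) / 4) *
          (if (8 : ℤ) ∣ h - j * N then 1 else 0)) +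
        jr 2 N / 2 * f h * (Real.cos (π * ((j * c : ℤ) : ℝ) / 4) *
          (if (8 : ℤ) ∣ -h - j * N then 1 else 0)) +
        jr 2 N * jr (-1) N / 2 * f h * (Real.sin (π * ((j * c : ℤ) : ℝ) / 4) *
          (if (8 : ℤ) ∣ h - j * N then 1 else 0)) -
        jr 2 N * jr (-1) N / 2 * f h * (Real.sin (π * ((j * c : ℤ) : ℝ) / 4) *
          (if (8 : ℤ) ∣ -h - j * N then 1 else 0)) := by
      intro j _
      simp only [hneg]
      split_ifs <;> ring
    rw [Finset.sum_congr rfl hterm, Finset.sum_sub_distrib, Finset.sum_add_distrib,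
      Finset.sum_add_distrib, ← Finset.mul_sum, ← Finset.mul_sum, ← Finset.mul_sum,
      ← Finset.mul_sum, hc1, hc2, hs1, hs2]
    ring
  · intro j _
    exact (((((hV j).add (hV (-j))).mul_left
      (Real.cos (π * ((j * c : ℤ) : ℝ) / 4) / 2)).add
      ((((hV j).sub (hV (-j))).mul_left
        (Real.sin (π * ((j * c : ℤ) : ℝ) / 4) / 2)).mul_left (jr (-1) N))).mul_left
          (jr 2 N)).summable

private theorem pc_bdd {f : ℤ → ℝ} (hf : Summable f) (v : ℤ → ℝ) (hv : ∀ k, |v k| ≤ 1) :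
    Summable (fun k => v k * f k) := by
  refine Summable.of_norm_bounded hf.norm fun k => ?_
  rw [norm_mul]
  calc ‖v k‖ * ‖f k‖ ≤ 1 * ‖f k‖ := mul_le_mul_of_nonneg_right (hv k) (norm_nonneg _)
    _ = ‖f k‖ := one_mul _

private theorem pc_t8_abs (m : ℤ) : |t8 m| ≤ 1 := by
  unfold t8
  split_ifs <;> norm_num

private theorem pc_t4_abs (m k : ℤ) : |t4 m k| ≤ 1 := by
  unfold t4
  split_ifs <;> norm_num

/-- The sum over a class modulo 8 in the final form. -/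
private theorem pc_final {F : ℝ → ℝ} {a b : ℝ} (ha : 0 < a) (hF : Bump F a b) (σ : ℤ)
    (hσ : σ = 1 ∨ σ = -1) (N : ℕ) (hN : Odd N) (c : ℤ) (hc : Odd c) (Y : ℝ) (hY : 0 < Y) :
    ∑' d : ℕ, (if (8 : ℤ) ∣ σ * d - c then F (d / Y) * jr (σ * d) N else 0) =
      Y / 8 * (√2 * ∑' k : ℤ, t8 (c * k) * (gg k N * Ft F σ ((k : ℝ) * Y / (8 * N))) +
        ∑' k : ℤ, t4 c k * (gg k N * Ft F σ ((k : ℝ) * Y / (4 * N))) +
        ∑' k : ℤ, gg k N * Ft F σ ((k : ℝ) * Y / N)) := by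
  have hNr : (0 : ℝ) < N := by exact_mod_cast hN.pos
  have h22 : jr 2 N * jr 2 N = 1 := by
    have := pc_jr_sq_one hN (pc_two_cop hN)
    rwa [sq] at this
  have h8 : jr 8 N = jr 2 N := by
    have : (8 : ℤ) = 2 * (2 * 2) := by norm_num
    rw [this, pc_jr_mul, pc_jr_mul]
    linear_combination jr 2 N * h22
  have hcop2 := pc_two_cop hN
  have hcop8 : IsCoprime (8 : ℤ) (N : ℤ) := by
    have : (8 : ℤ) = 2 * (2 * 2) := by norm_num
    rw [this]
    exact IsCoprime.mul_left hcop2 (IsCoprime.mul_left hcop2 hcop2)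
  have hsum : Summable (fun h : ℤ => gg h N * Ft F σ ((h : ℝ) * Y / (8 * N))) := by
    have h1 := (pc_all ha hF σ hσ N hN (Y / 8) (by positivity)).1
    refine h1.congr fun k => ?_
    congr 2
    field_simp
  rw [pc_class ha hF σ hσ hN c hY]
  congr 1
  set f : ℤ → ℝ := fun h => gg h N * Ft F σ ((h : ℝ) * Y / (8 * N)) with hf
  have h1 : ∀ h : ℤ, (jr 2 N * (Real.cos (π * ((h * N * c : ℤ) : ℝ) / 4) +
        jr (-1) N * Real.sin (π * ((h * N * c : ℤ) : ℝ) / 4))) *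
        (gg h N * Ft F σ ((h : ℝ) * Y / (8 * N))) =
      √2 * (t8 (c * h) * f h) + (if (2 : ℤ) ∣ h - 0 then jr 2 N * t4 c (h / 2) * f h else 0) +
        (if (8 : ℤ) ∣ h - 0 then jr 2 N * f h else 0) := by
    intro h
    rw [pc_coef hN c hc h, sub_zero]
    split_ifs <;> ring
  have s1 : Summable (fun h : ℤ => t8 (c * h) * f h) :=
    pc_bdd hsum (fun h => t8 (c * h)) (fun h => pc_t8_abs _)
  have s2 : Summable (fun h : ℤ => if (2 : ℤ) ∣ h - 0 then jr 2 N * t4 c (h / 2) * f h else 0) := by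
    refine pc_summable_ite (?_ : Summable fun h : ℤ => jr 2 N * t4 c (h / 2) * f h)
      (fun h : ℤ => (2 : ℤ) ∣ h - 0)
    simp_rw [mul_assoc]
    exact (pc_bdd hsum (fun h => t4 c (h / 2)) (fun h => pc_t4_abs _ _)).mul_left _
  have s3 : Summable (fun h : ℤ => if (8 : ℤ) ∣ h - 0 then jr 2 N * f h else 0) :=
    pc_summable_ite (hsum.mul_left _) _
  rw [tsum_congr h1, ((s1.mul_left _).add s2).tsum_add s3, (s1.mul_left _).tsum_add s2,
    tsum_mul_left, pc_tsum_ap (fun h : ℤ => jr 2 N * t4 c (h / 2) * f h) (by norm_num) 0,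
    pc_tsum_ap (fun h : ℤ => jr 2 N * f h) (by norm_num) 0]
  have t2 : ∀ m : ℤ, jr 2 N * t4 c ((2 * m + 0) / 2) * f (2 * m + 0) =
      t4 c m * (gg m N * Ft F σ ((m : ℝ) * Y / (4 * N))) := by
    intro m
    have e1 : (2 * m + 0) / 2 = m := by omega
    have e2 : ((2 * m + 0 : ℤ) : ℝ) * Y / (8 * N) = (m : ℝ) * Y / (4 * N) := by
      push_cast
      field_simp
      ring
    rw [hf]
    simp only
    rw [e1, e2, add_zero, pc_gg_mul hN 2 hcop2]
    linear_combination (t4 c m * gg m N * Ft F σ ((m : ℝ) * Y / (4 * N))) * h22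
  have t3 : ∀ m : ℤ, jr 2 N * f (8 * m + 0) = gg m N * Ft F σ ((m : ℝ) * Y / N) := by
    intro m
    have e2 : ((8 * m + 0 : ℤ) : ℝ) * Y / (8 * N) = (m : ℝ) * Y / N := by
      push_cast
      field_simp
      ring
    rw [hf]
    simp only
    rw [e2, add_zero, pc_gg_mul hN 8 hcop8, h8]
    linear_combination (gg m N * Ft F σ ((m : ℝ) * Y / N)) * h22
  rw [tsum_congr t2, tsum_congr t3]

private theorem pc_sums {F : ℝ → ℝ} {a b : ℝ} (ha : 0 < a) (hF : Bump F a b) (σ : ℤ)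
    (hσ : σ = 1 ∨ σ = -1) (N : ℕ) (hN : Odd N) (Y : ℝ) (hY : 0 < Y) (q : ℝ) (hq : 0 < q) :
    Summable (fun k : ℤ => gg k N * Ft F σ ((k : ℝ) * Y / (q * N))) := by
  have hNr : (0 : ℝ) < N := by exact_mod_cast hN.pos
  have h1 := (pc_all ha hF σ hσ N hN (Y / q) (by positivity)).1
  refine h1.congr fun k => ?_
  congr 2
  field_simp

theorem poisson8c {F : ℝ → ℝ} {a b : ℝ} (ha : 0 < a) (hF : Bump F a b) (σ : ℤ)
    (hσ : σ = 1 ∨ σ = -1) (N : ℕ) (hN : Odd N) (c : ℤ) (hc : c % 8 = c) (hc2 : c % 2 = 1)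
    (Y : ℝ) (hY : 0 < Y) :
    ∑' d : ℕ, (if (σ * d) % 8 = c then F (d / Y) * jr (σ * d) N else 0) =
      Y / 8 * ∑' k : ℤ, gg k N * (√2 * t8 (c * k) * Ft F σ ((k : ℝ) * Y / (8 * N)) +
        t4 c k * Ft F σ ((k : ℝ) * Y / (4 * N)) + Ft F σ ((k : ℝ) * Y / N)) := by
  have h0 : ∀ d : ℕ, ((σ * d) % 8 = c) ↔ (8 : ℤ) ∣ σ * d - c := by
    intro d
    omega
  simp only [h0]
  rw [pc_final ha hF σ hσ N hN c (Int.odd_iff.2 hc2) Y hY]
  congr 1
  have s1 : Summable (fun k : ℤ => t8 (c * k) * (gg k N * Ft F σ ((k : ℝ) * Y / (8 * N)))) :=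
    pc_bdd (pc_sums ha hF σ hσ N hN Y hY 8 (by norm_num)) (fun k => t8 (c * k))
      (fun k => pc_t8_abs _)
  have s2 : Summable (fun k : ℤ => t4 c k * (gg k N * Ft F σ ((k : ℝ) * Y / (4 * N)))) :=
    pc_bdd (pc_sums ha hF σ hσ N hN Y hY 4 (by norm_num)) (fun k => t4 c k)
      (fun k => pc_t4_abs _ _)
  have s3 : Summable (fun k : ℤ => gg k N * Ft F σ ((k : ℝ) * Y / N)) :=
    (pc_all ha hF σ hσ N hN Y hY).1
  rw [← tsum_mul_left, ← (s1.mul_left _).tsum_add s2, ← ((s1.mul_left _).add s2).tsum_add s3]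
  refine tsum_congr fun k => ?_
  ring

theorem poisson4c {F : ℝ → ℝ} {a b : ℝ} (ha : 0 < a) (hF : Bump F a b) (σ : ℤ)
    (hσ : σ = 1 ∨ σ = -1) (N : ℕ) (hN : Odd N) (Y : ℝ) (hY : 0 < Y) :
    ∑' d : ℕ, (if (σ * d) % 4 = 3 then F (d / Y) * jr (σ * d) N else 0) =
      Y / 4 * ∑' k : ℤ, (if k % 4 = 0 then 1 else t4 3 k) * gg k N *
        Ft F σ ((k : ℝ) * Y / (4 * N)) := by
  have hNr : (0 : ℝ) < N := by exact_mod_cast hN.pos
  have hcop2 := pc_two_cop hN
  have h22 : jr 2 N * jr 2 N = 1 := by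
    have := pc_jr_sq_one hN hcop2
    rwa [sq] at this
  have hcop4 : IsCoprime (4 : ℤ) (N : ℤ) := by
    have : (4 : ℤ) = 2 * 2 := by norm_num
    rw [this]
    exact IsCoprime.mul_left hcop2 hcop2
  have h4 : jr 4 N = 1 := by
    have : (4 : ℤ) = 2 * 2 := by norm_num
    rw [this, pc_jr_mul, h22]
  have hterm : ∀ d : ℕ, (if (σ * d) % 4 = 3 then F (d / Y) * jr (σ * d) N else 0) =
      (if (8 : ℤ) ∣ σ * d - 3 then F (d / Y) * jr (σ * d) N else 0) +
        (if (8 : ℤ) ∣ σ * d - 7 then F (d / Y) * jr (σ * d) N else 0) := by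
    intro d
    generalize σ * (d : ℤ) = m
    by_cases h : m % 4 = 3
    · have h3 : m % 8 = 3 ∨ m % 8 = 7 := by omega
      rcases h3 with h3 | h3
      · have e1 : (8 : ℤ) ∣ m - 3 := by omega
        have e2 : ¬ (8 : ℤ) ∣ m - 7 := by omega
        rw [if_pos h, if_pos e1, if_neg e2, add_zero]
      · have e1 : ¬ (8 : ℤ) ∣ m - 3 := by omega
        have e2 : (8 : ℤ) ∣ m - 7 := by omega
        rw [if_pos h, if_neg e1, if_pos e2, zero_add]
    · have e1 : ¬ (8 : ℤ) ∣ m - 3 := by omega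
      have e2 : ¬ (8 : ℤ) ∣ m - 7 := by omega
      rw [if_neg h, if_neg e1, if_neg e2, add_zero]
  have hs : ∀ c : ℤ, Summable (fun d : ℕ =>
      if (8 : ℤ) ∣ σ * d - c then F (d / Y) * jr (σ * d) N else 0) :=
    fun c => pc_summable_ite (pc_fin hF hY _) _
  rw [tsum_congr hterm, (hs 3).tsum_add (hs 7), pc_final ha hF σ hσ N hN 3 (by decide) Y hY,
    pc_final ha hF σ hσ N hN 7 (by decide) Y hY]
  have s8 : ∀ c : ℤ, Summable (fun k : ℤ => t8 (c * k) *
      (gg k N * Ft F σ ((k : ℝ) * Y / (8 * N)))) := fun c =>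
    pc_bdd (pc_sums ha hF σ hσ N hN Y hY 8 (by norm_num)) (fun k => t8 (c * k))
      (fun k => pc_t8_abs _)
  have h8 : ∑' k : ℤ, t8 (7 * k) * (gg k N * Ft F σ ((k : ℝ) * Y / (8 * N))) =
      -∑' k : ℤ, t8 (3 * k) * (gg k N * Ft F σ ((k : ℝ) * Y / (8 * N))) := by
    rw [← tsum_neg]
    refine tsum_congr fun k => ?_
    have : t8 (7 * k) = -t8 (3 * k) := by
      unfold t8
      have h8 : k % 8 = 0 ∨ k % 8 = 1 ∨ k % 8 = 2 ∨ k % 8 = 3 ∨ k % 8 = 4 ∨ k % 8 = 5 ∨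
        k % 8 = 6 ∨ k % 8 = 7 := by omega
      rw [Int.mul_emod 7 k, Int.mul_emod 3 k]
      rcases h8 with h | h | h | h | h | h | h | h <;> rw [h] <;> norm_num
    rw [this]
    ring
  have h47 : ∀ k : ℤ, t4 7 k = t4 3 k := by
    intro k
    unfold t4
    have : (7 * k) % 4 = (3 * k) % 4 := by omega
    rw [this]
  have s4 : Summable (fun k : ℤ => gg k N * Ft F σ ((k : ℝ) * Y / (4 * N))) :=
    pc_sums ha hF σ hσ N hN Y hY 4 (by norm_num)
  have s4' : Summable (fun k : ℤ => t4 3 k * (gg k N * Ft F σ ((k : ℝ) * Y / (4 * N)))) :=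
    pc_bdd s4 (fun k => t4 3 k) (fun k => pc_t4_abs _ _)
  have h3 : ∑' k : ℤ, gg k N * Ft F σ ((k : ℝ) * Y / N) =
      ∑' k : ℤ, (if (4 : ℤ) ∣ k - 0 then gg k N * Ft F σ ((k : ℝ) * Y / (4 * N)) else 0) := by
    rw [pc_tsum_ap (fun k : ℤ => gg k N * Ft F σ ((k : ℝ) * Y / (4 * N))) (by norm_num) 0]
    refine tsum_congr fun k => ?_
    have e2 : ((4 * k + 0 : ℤ) : ℝ) * Y / (4 * N) = (k : ℝ) * Y / N := by
      push_cast
      field_simp
      ring
    rw [e2, add_zero, pc_gg_mul hN 4 hcop4, h4, one_mul]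
  have s3 : Summable (fun k : ℤ =>
      if (4 : ℤ) ∣ k - 0 then gg k N * Ft F σ ((k : ℝ) * Y / (4 * N)) else 0) :=
    pc_summable_ite s4 _
  simp only [h47]
  rw [h8, h3]
  have hfin : ∑' k : ℤ, (if k % 4 = 0 then 1 else t4 3 k) * gg k N *
        Ft F σ ((k : ℝ) * Y / (4 * N)) =
      ∑' k : ℤ, t4 3 k * (gg k N * Ft F σ ((k : ℝ) * Y / (4 * N))) +
      ∑' k : ℤ, (if (4 : ℤ) ∣ k - 0 then gg k N * Ft F σ ((k : ℝ) * Y / (4 * N)) else 0) := by
    rw [← s4'.tsum_add s3]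
    refine tsum_congr fun k => ?_
    by_cases h : k % 4 = 0
    · have e1 : (4 : ℤ) ∣ k - 0 := by omega
      have e2 : t4 3 k = 0 := by
        unfold t4
        have h1 : ¬ (3 * k) % 4 = 1 := by omega
        have h2 : ¬ (3 * k) % 4 = 3 := by omega
        have h3 : ¬ k % 4 = 2 := by omega
        rw [if_neg h1, if_neg h2, if_neg h3]
      rw [if_pos h, if_pos e1, e2]
      ring
    · have e1 : ¬ (4 : ℤ) ∣ k - 0 := by omega
      rw [if_neg h, if_neg e1]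
      ring
  rw [hfin]
  ring

end Pool.Agent.MP0016c7.Rz
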