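import Mathlib
import Pool.Agent.Lib.MP_0016c7_nt.Rz.Defs
import Pool.Agent.Lib.MP_0016c7_nt.Rz.DefsC
import Pool.Agent.Lib.MP_0016c7_nt.Rz.DefsE
import Pool.Agent.Lib.MP_0016c7_nt.Rz.DefsF
import Pool.Agent.Lib.MP_0016c7_nt.Rz2.DefsG
import Pool.Agent.Lib.MP_0016c7_nt.Rz2.Pois8c
import Pool.Agent.Lib.MP_0016c7_nt.Rz.Poisson3
import Pool.Agent.Lib.MP_0016c7_nt.Rz2.NSc

set_option autoImplicit false

/-!
Splitting into the squares and the nonsquares.
-/

open Finset MeasureTheory Filter Topology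
open scoped Real ContDiff

namespace Pool.Agent.MP0016c7.Rz

private theorem psp_gg4 (k : ℤ) (N : ℕ) (hN : Odd N) : gg (4 * k) N = gg k N := by
  have hN0 : N ≠ 0 := hN.pos.ne'
  have hNAB := sq1_mul_sq2 N hN0
  unfold gg
  generalize sq1 N = A at *
  generalize sq2 N = B at *
  have hA : Odd A := by
    rw [← hNAB] at hN
    exact (Nat.odd_mul.1 hN).1
  have hB : Odd B := by
    rw [← hNAB] at hN
    exact (Nat.odd_pow_iff (by norm_num)).1 (Nat.odd_mul.1 hN).2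
  have hcop : IsCoprime ((B : ℤ) ^ 2) 4 := by
    have h1 : IsCoprime (B : ℤ) (2 : ℤ) := by
      have : Nat.Coprime B 2 := (Nat.coprime_two_right).2 hB
      exact_mod_cast Nat.isCoprime_iff_coprime.2 this
    have h2 := (h1.pow_left (m := 2)).pow_right (n := 2)
    norm_num at h2
    exact h2
  have hd : ∀ e : ℕ, (B : ℤ) ^ 2 ∣ 4 * k * (e : ℤ) ↔ (B : ℤ) ^ 2 ∣ k * (e : ℤ) := by
    intro e
    rw [mul_assoc]
    exact ⟨fun h => hcop.dvd_of_dvd_mul_left h, fun h => h.mul_left 4⟩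
  have hjr4 : ∀ x : ℤ, jr (4 * x) A = jr x A := by
    intro x
    unfold jr
    rw [if_pos hA, if_pos hA, jacobiSym.mul_left]
    have h1 : jacobiSym 4 A = 1 := by
      have h2 : (4 : ℤ) = 2 ^ 2 := by norm_num
      rw [h2, jacobiSym.pow_left]
      apply jacobiSym.sq_one
      have h3 : Nat.gcd 2 A = 1 := (Nat.coprime_two_left (n := A)).2 hA
      simpa [Int.gcd] using h3
    rw [h1, one_mul]
  congr 1
  refine Finset.sum_congr ?_ ?_
  · ext e
    rw [mem_filter, mem_filter, hd]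
  · intro e he
    rw [mem_filter] at he
    congr 1
    obtain ⟨t, ht⟩ := he.2
    by_cases hB0 : (B : ℤ) ^ 2 = 0
    · simp [hB0, hjr4]
    have h1 : 4 * k * (e : ℤ) ^ 2 = (B : ℤ) ^ 2 * (4 * (t * e)) := by
      calc 4 * k * (e : ℤ) ^ 2 = 4 * (k * e) * e := by ring
        _ = _ := by rw [ht]; ring
    have h2 : k * (e : ℤ) ^ 2 = (B : ℤ) ^ 2 * (t * e) := by
      calc k * (e : ℤ) ^ 2 = (k * e) * e := by ring
        _ = _ := by rw [ht]; ring
    rw [h1, h2, Int.mul_ediv_cancel_left _ hB0, Int.mul_ediv_cancel_left _ hB0, hjr4]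

private theorem psp_sum {F : ℝ → ℝ} {a b : ℝ} (ha : 0 < a) (hF : Bump F a b) (σ : ℤ)
    (hσ : σ = 1 ∨ σ = -1) (N : ℕ) (hN : Odd N) (Z : ℝ) (hZ : 0 < Z) (c : ℤ → ℝ) (C : ℝ)
    (hc : ∀ k, |c k| ≤ C) :
    Summable (fun k : ℤ => c k * gg k N * Ft F σ ((k : ℝ) * Z / (2 * N))) := by
  obtain ⟨h1, _⟩ := poisson_odd ha hF σ hσ N hN Z hZ
  refine Summable.of_norm_bounded (h1.norm.mul_left C) fun k => ?_
  rw [mul_assoc, norm_mul]
  exact mul_le_mul_of_nonneg_right (hc k) (norm_nonneg _)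

private theorem psp_split {F : ℝ → ℝ} {a b : ℝ} (ha : 0 < a) (hF : Bump F a b) (σ : ℤ)
    (hσ : σ = 1 ∨ σ = -1) (N : ℕ) (hN : Odd N) (Z : ℝ) (hZ : 0 < Z) (c : ℤ → ℝ) (C : ℝ)
    (hc : ∀ k, |c k| ≤ C) :
    ∑' k : ℤ, c k * gg k N * Ft F σ ((k : ℝ) * Z / (2 * N)) =
      ∑' j : ℕ, c ((j : ℤ) ^ 2) * (gg ((j : ℤ) ^ 2) N * Ft F σ ((j : ℝ) ^ 2 * Z / (2 * N))) +
        NSc F σ c Z N := by
  classical
  set u : ℤ → ℝ := fun k => c k * gg k N * Ft F σ ((k : ℝ) * Z / (2 * N))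
    with hu
  have hus : Summable u := psp_sum ha hF σ hσ N hN Z hZ c C hc
  have hs1 : Summable fun k : ℤ => if IsSquare k then u k else 0 := by
    refine Summable.of_norm_bounded hus.norm fun k => ?_
    split_ifs
    · exact le_rfl
    · rw [norm_zero]
      exact norm_nonneg _
  have hs2 : Summable fun k : ℤ => if IsSquare k then 0 else u k := by
    refine Summable.of_norm_bounded hus.norm fun k => ?_
    split_ifs
    · rw [norm_zero]
      exact norm_nonneg _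
    · exact le_rfl
  have h3 : ∑' k : ℤ, u k = ∑' k : ℤ, (if IsSquare k then u k else 0) +
      ∑' k : ℤ, (if IsSquare k then 0 else u k) := by
    rw [← hs1.tsum_add hs2]
    refine tsum_congr fun k => ?_
    split_ifs <;> ring
  have hinj : Function.Injective (fun j : ℕ => (j : ℤ) ^ 2) := by
    intro i j hij
    have h4 : ((i ^ 2 : ℕ) : ℤ) = ((j ^ 2 : ℕ) : ℤ) := by
      push_cast
      exact hij
    exact Nat.pow_left_injective (n := 2) (by norm_num) (by exact_mod_cast h4)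
  have h4 : ∑' k : ℤ, (if IsSquare k then u k else 0) =
      ∑' j : ℕ, c ((j : ℤ) ^ 2) * (gg ((j : ℤ) ^ 2) N *
        Ft F σ ((j : ℝ) ^ 2 * Z / (2 * N))) := by
    rw [← hinj.tsum_eq (f := fun k : ℤ => if IsSquare k then u k else 0)]
    · refine tsum_congr fun j => ?_
      have h5 : IsSquare ((j : ℤ) ^ 2) := IsSquare.sq _
      simp only [if_pos h5, hu]
      push_cast
      ring
    · intro k hk
      rw [Function.mem_support] at hk
      by_cases h : IsSquare k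
      · obtain ⟨r, rfl⟩ := h
        refine ⟨r.natAbs, ?_⟩
        simp only
        rw [Int.natCast_natAbs, sq_abs, pow_two]
      · rw [if_neg h] at hk
        exact absurd rfl hk
  have h5 : ∑' k : ℤ, (if IsSquare k then 0 else u k) = NSc F σ c Z N := by
    unfold NSc
    refine tsum_congr fun k => ?_
    by_cases h : IsSquare k
    · simp only [if_pos h]
    · simp only [if_neg h]
      rfl
  rw [h3, h4, h5]

private theorem psp_odd {g : ℕ → ℝ} (hg : Summable g) :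
    ∑' m, (if Odd m then g m else 0) = ∑' m, g m - ∑' m, g (2 * m) := by
  have h1 : ∑' m, g (2 * m) = ∑' d, (if 2 ∣ d then g d else 0) := by
    have hinj : Function.Injective (fun m : ℕ => 2 * m) := fun m n h =>
      Nat.eq_of_mul_eq_mul_left (by norm_num) h
    rw [← hinj.tsum_eq (f := fun d => if 2 ∣ d then g d else 0)]
    · refine tsum_congr fun m => ?_
      rw [if_pos (Dvd.intro m rfl)]
    · intro d hd
      rw [Function.mem_support] at hd
      by_cases h : 2 ∣ d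
      · obtain ⟨m, rfl⟩ := h
        exact ⟨m, rfl⟩
      · rw [if_neg h] at hd
        exact absurd rfl hd
  have h2 : Summable fun d : ℕ => if 2 ∣ d then g d else 0 := by
    refine Summable.of_norm_bounded hg.norm fun x => ?_
    split_ifs
    · exact le_rfl
    · rw [norm_zero]
      exact norm_nonneg _
  rw [h1, ← hg.tsum_sub h2]
  refine tsum_congr fun m => ?_
  by_cases h : Odd m
  · rw [if_pos h, if_neg (fun h' => (Nat.not_even_iff_odd.2 h) (even_iff_two_dvd.2 h')), sub_zero]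
  · rw [if_neg h, if_pos (even_iff_two_dvd.1 (Nat.not_odd_iff_even.1 h)), sub_self]

private theorem psp_AR {F : ℝ → ℝ} {a b : ℝ} (ha : 0 < a) (hF : Bump F a b) (σ : ℤ)
    (hσ : σ = 1 ∨ σ = -1) (N : ℕ) (hN : Odd N) (Z : ℝ) (hZ : 0 < Z) :
    ∑' j : ℕ, (if Odd j then gg ((j : ℤ) ^ 2) N * Ft F σ ((j : ℝ) ^ 2 * Z / (2 * N)) else 0) =
      AR F σ Z N - AR F σ (4 * Z) N := by
  have hs := psp_sum ha hF σ hσ N hN Z hZ (fun _ => 1) 1 (fun _ => by simp)
  have hinj : Function.Injective (fun j : ℕ => (j : ℤ) ^ 2) := by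
    intro i j hij
    have h4 : ((i ^ 2 : ℕ) : ℤ) = ((j ^ 2 : ℕ) : ℤ) := by
      push_cast
      exact hij
    exact Nat.pow_left_injective (n := 2) (by norm_num) (by exact_mod_cast h4)
  have hs2 : Summable fun j : ℕ => gg ((j : ℤ) ^ 2) N *
      Ft F σ ((j : ℝ) ^ 2 * Z / (2 * N)) := by
    refine (hs.comp_injective hinj).congr fun j => ?_
    simp only [Function.comp]
    push_cast
    rw [one_mul]
  rw [psp_odd hs2]
  unfold AR
  congr 1
  refine tsum_congr fun j => ?_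
  have h1 : ((2 * j : ℕ) : ℤ) ^ 2 = 4 * (j : ℤ) ^ 2 := by
    push_cast
    ring
  have h2 : ((2 * j : ℕ) : ℝ) ^ 2 * Z / (2 * N) = (j : ℝ) ^ 2 * (4 * Z) / (2 * N) := by
    push_cast
    ring
  rw [h1, h2, psp_gg4 _ N hN]

private theorem psp_sq_odd {j : ℕ} (hj : Odd j) : ((j : ℤ) ^ 2) % 8 = 1 := by
  obtain ⟨t, rfl⟩ := hj
  have h1 : ((2 * t + 1 : ℕ) : ℤ) ^ 2 = 4 * ((t : ℤ) * (t + 1)) + 1 := by
    push_cast
    ring
  obtain ⟨s, hs⟩ : ∃ s : ℤ, (t : ℤ) * (t + 1) = 2 * s := by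
    obtain ⟨s, hs⟩ := Int.even_mul_succ_self (t : ℤ)
    exact ⟨s, by rw [hs]; ring⟩
  rw [h1, hs]
  omega

private theorem psp_sq_even {j : ℕ} (hj : ¬ Odd j) : ∃ t : ℤ, (j : ℤ) ^ 2 = 4 * t := by
  rw [Nat.not_odd_iff_even] at hj
  obtain ⟨s, rfl⟩ := hj
  exact ⟨(s : ℤ) ^ 2, by push_cast; ring⟩

private theorem psp_t4_le (m k : ℤ) : |t4 m k| ≤ 1 := by
  unfold t4
  split_ifs <;> norm_num

private theorem psp_t8_le (m : ℤ) : |t8 m| ≤ 1 := by
  unfold t8
  split_ifs <;> norm_num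

open Classical in
theorem psplit4 {F : ℝ → ℝ} {a b : ℝ} (ha : 0 < a) (hF : Bump F a b) (σ : ℤ)
    (hσ : σ = 1 ∨ σ = -1) (N : ℕ) (hN : Odd N) (Y : ℝ) (hY : 0 < Y) :
    4 / Y * ∑' d : ℕ, (if (σ * d) % 4 = 3 then F (d / Y) * jr (σ * d) N else 0) =
      MM F σ (Y / 2) N + NSc F σ (fun k => if k % 4 = 0 then 1 else t4 3 k) (Y / 2) N := by
  rw [poisson4c ha hF σ hσ N hN Y hY, ← mul_assoc]
  have h0 : 4 / Y * (Y / 4) = 1 := by field_simp
  rw [h0, one_mul]
  have h1 : ∀ k : ℤ, (if k % 4 = 0 then 1 else t4 3 k) * gg k N *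
      Ft F σ ((k : ℝ) * Y / (4 * N)) = (fun k : ℤ => if k % 4 = 0 then (1 : ℝ) else t4 3 k) k *
        gg k N * Ft F σ ((k : ℝ) * (Y / 2) / (2 * N)) := by
    intro k
    have h2 : (k : ℝ) * Y / (4 * N) = (k : ℝ) * (Y / 2) / (2 * N) := by
      field_simp
      norm_num
    rw [h2]
  rw [tsum_congr h1, psp_split ha hF σ hσ N hN (Y / 2) (by positivity) _ 1 (fun k => ?_)]
  · congr 1
    unfold MM
    refine tsum_congr fun j => ?_
    have h2 : (if ((j : ℤ) ^ 2) % 4 = 0 then (1 : ℝ) else t4 3 ((j : ℤ) ^ 2)) = (-1) ^ j := by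
      by_cases hj : Odd j
      · have h3 := psp_sq_odd hj
        rw [hj.neg_one_pow, if_neg (by omega)]
        unfold t4
        rw [if_neg (by omega), if_pos (by omega)]
      · obtain ⟨t, ht⟩ := psp_sq_even hj
        rw [(Nat.not_odd_iff_even.1 hj).neg_one_pow, ht, if_pos (by omega)]
    rw [h2]
    ring
  · split_ifs
    · norm_num
    · exact psp_t4_le 3 k

open Classical in
theorem psplit8 {F : ℝ → ℝ} {a b : ℝ} (ha : 0 < a) (hF : Bump F a b) (σ : ℤ)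
    (hσ : σ = 1 ∨ σ = -1) (N : ℕ) (hN : Odd N) (c ε : ℤ) (hc : (c = 1 ∧ ε = 1) ∨ (c = 5 ∧ ε = -1))
    (Y : ℝ) (hY : 0 < Y) :
    8 / Y * ∑' d : ℕ, (if (σ * d) % 8 = c then F (d / Y) * jr (σ * d) N else 0) =
      (√2 * ε * (AR F σ (Y / 4) N - AR F σ Y N) + AR F σ (Y / 2) N) +
      NSc F σ (fun k => √2 * t8 (c * k)) (Y / 4) N + NSc F σ (fun k => t4 c k) (Y / 2) N +
      NSc F σ (fun _ => 1) (2 * Y) N := by
  have hc8 : c % 8 = c := by
    rcases hc with ⟨h, _⟩ | ⟨h, _⟩ <;> rw [h] <;> rfl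
  have hc2 : c % 2 = 1 := by
    rcases hc with ⟨h, _⟩ | ⟨h, _⟩ <;> rw [h] <;> rfl
  rw [poisson8c ha hF σ hσ N hN c hc8 hc2 Y hY, ← mul_assoc]
  have h0 : 8 / Y * (Y / 8) = 1 := by field_simp
  rw [h0, one_mul]
  have b1 : ∀ k : ℤ, |(fun k : ℤ => √2 * t8 (c * k)) k| ≤ √2 := by
    intro k
    simp only
    rw [abs_mul, abs_of_nonneg (Real.sqrt_nonneg 2)]
    calc √2 * |t8 (c * k)| ≤ √2 * 1 :=
          mul_le_mul_of_nonneg_left (psp_t8_le _) (Real.sqrt_nonneg 2)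
      _ = √2 := mul_one _
  have b2 : ∀ k : ℤ, |(fun k : ℤ => t4 c k) k| ≤ 1 := fun k => psp_t4_le c k
  have b3 : ∀ k : ℤ, |(fun _ : ℤ => (1 : ℝ)) k| ≤ 1 := fun k => by simp
  have s1 := psp_sum ha hF σ hσ N hN (Y / 4) (by positivity) _ _ b1
  have s2 := psp_sum ha hF σ hσ N hN (Y / 2) (by positivity) _ _ b2
  have s3 := psp_sum ha hF σ hσ N hN (2 * Y) (by positivity) _ _ b3
  have e1 := psp_split ha hF σ hσ N hN (Y / 4) (by positivity) _ _ b1
  have e2 := psp_split ha hF σ hσ N hN (Y / 2) (by positivity) _ _ b2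
  have e3 := psp_split ha hF σ hσ N hN (2 * Y) (by positivity) _ _ b3
  have h1 : ∀ k : ℤ, gg k N * (√2 * t8 (c * k) * Ft F σ ((k : ℝ) * Y / (8 * N)) +
        t4 c k * Ft F σ ((k : ℝ) * Y / (4 * N)) + Ft F σ ((k : ℝ) * Y / N)) =
      (fun k : ℤ => √2 * t8 (c * k)) k * gg k N * Ft F σ ((k : ℝ) * (Y / 4) / (2 * N)) +
      (fun k : ℤ => t4 c k) k * gg k N * Ft F σ ((k : ℝ) * (Y / 2) / (2 * N)) +
      (fun _ : ℤ => (1 : ℝ)) k * gg k N * Ft F σ ((k : ℝ) * (2 * Y) / (2 * N)) := by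
    intro k
    have h2 : (k : ℝ) * Y / (8 * N) = (k : ℝ) * (Y / 4) / (2 * N) := by
      ring
    have h3 : (k : ℝ) * Y / (4 * N) = (k : ℝ) * (Y / 2) / (2 * N) := by
      ring
    have h4 : (k : ℝ) * Y / N = (k : ℝ) * (2 * Y) / (2 * N) := by
      field_simp
    rw [h2, h3, h4]
    ring
  rw [tsum_congr h1, (s1.add s2).tsum_add s3, s1.tsum_add s2, e1, e2, e3]
  have f1 : ∑' j : ℕ, (fun k : ℤ => √2 * t8 (c * k)) ((j : ℤ) ^ 2) * (gg ((j : ℤ) ^ 2) N *
      Ft F σ ((j : ℝ) ^ 2 * (Y / 4) / (2 * N))) =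
      √2 * ε * (AR F σ (Y / 4) N - AR F σ Y N) := by
    have h5 := psp_AR ha hF σ hσ N hN (Y / 4) (by positivity)
    rw [show 4 * (Y / 4) = Y by ring] at h5
    rw [← h5, ← tsum_mul_left]
    refine tsum_congr fun j => ?_
    by_cases hj : Odd j
    · have h6 := psp_sq_odd hj
      have h7 : t8 (c * (j : ℤ) ^ 2) = ε := by
        unfold t8
        rcases hc with ⟨h, h'⟩ | ⟨h, h'⟩
        · rw [h, h', if_pos (by omega)]
          norm_num
        · rw [h, h', if_neg (by omega), if_pos (by omega)]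
          norm_num
      rw [if_pos hj]
      simp only
      rw [h7]
    · obtain ⟨t, ht⟩ := psp_sq_even hj
      have h7 : t8 (c * (j : ℤ) ^ 2) = 0 := by
        unfold t8
        rw [ht]
        rcases hc with ⟨h, h'⟩ | ⟨h, h'⟩
        · rw [h, if_neg (by omega), if_neg (by omega)]
        · rw [h, if_neg (by omega), if_neg (by omega)]
      rw [if_neg hj]
      simp only
      rw [h7]
      ring
  have f2 : ∑' j : ℕ, (fun k : ℤ => t4 c k) ((j : ℤ) ^ 2) * (gg ((j : ℤ) ^ 2) N *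
      Ft F σ ((j : ℝ) ^ 2 * (Y / 2) / (2 * N))) = AR F σ (Y / 2) N - AR F σ (2 * Y) N := by
    have h5 := psp_AR ha hF σ hσ N hN (Y / 2) (by positivity)
    rw [show 4 * (Y / 2) = 2 * Y by ring] at h5
    rw [← h5]
    refine tsum_congr fun j => ?_
    by_cases hj : Odd j
    · have h6 := psp_sq_odd hj
      have h7 : t4 c ((j : ℤ) ^ 2) = 1 := by
        unfold t4
        rcases hc with ⟨h, h'⟩ | ⟨h, h'⟩
        · rw [h, if_pos (by omega)]
        · rw [h, if_pos (by omega)]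
      rw [if_pos hj]
      simp only
      rw [h7, one_mul]
    · obtain ⟨t, ht⟩ := psp_sq_even hj
      have h7 : t4 c ((j : ℤ) ^ 2) = 0 := by
        unfold t4
        rw [ht]
        rcases hc with ⟨h, h'⟩ | ⟨h, h'⟩
        · rw [h, if_neg (by omega), if_neg (by omega), if_neg (by omega)]
        · rw [h, if_neg (by omega), if_neg (by omega), if_neg (by omega)]
      rw [if_neg hj]
      simp only
      rw [h7, zero_mul]
  have f3 : ∑' j : ℕ, (fun _ : ℤ => (1 : ℝ)) ((j : ℤ) ^ 2) * (gg ((j : ℤ) ^ 2) N *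
      Ft F σ ((j : ℝ) ^ 2 * (2 * Y) / (2 * N))) = AR F σ (2 * Y) N := by
    unfold AR
    refine tsum_congr fun j => ?_
    simp only [one_mul]
  rw [f1, f2, f3]
  ring

end Pool.Agent.MP0016c7.Rz
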