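import Mathlib
import Pool.Agent.Lib.MP_0016c7_nt.Rz.Defs
import Pool.Agent.Lib.MP_0016c7_nt.Rz.DefsC
import Pool.Agent.Lib.MP_0016c7_nt.Rz.DefsE
import Pool.Agent.Lib.MP_0016c7_nt.Rz.DefsF
import Pool.Agent.Lib.MP_0016c7_nt.Rz2.DefsG
import Pool.Agent.Lib.MP_0016c7_nt.Rz2.ARlim
import Pool.Agent.Lib.MP_0016c7_nt.Qls.QJr

set_option autoImplicit false

/-!
The sum over perfect squares in the residue class.
-/

open Finset MeasureTheory Filter Topology
open scoped Real ContDiff

namespace Pool.Agent.MP0016c7.Rz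

private theorem sqs_moebius (d : ℕ) {B : ℕ} (hB : B ≠ 0) :
    ∑ e ∈ B.divisors, (if e ∣ d then (ArithmeticFunction.moebius e : ℝ) else 0) =
      if Nat.Coprime d B then 1 else 0 := by
  rw [← Finset.sum_filter]
  have h1 : B.divisors.filter (fun e => e ∣ d) = (Nat.gcd d B).divisors := by
    ext e
    simp only [Finset.mem_filter, Nat.mem_divisors]
    constructor
    · rintro ⟨⟨h1, h2⟩, h3⟩
      exact ⟨Nat.dvd_gcd h3 h1, fun h => hB (Nat.eq_zero_of_gcd_eq_zero_right h)⟩
    · rintro ⟨h1, h2⟩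
      exact ⟨⟨h1.trans (Nat.gcd_dvd_right _ _), hB⟩, h1.trans (Nat.gcd_dvd_left _ _)⟩
  rw [h1]
  have h2 : ∑ e ∈ (Nat.gcd d B).divisors, (ArithmeticFunction.moebius e : ℤ) =
      if Nat.gcd d B = 1 then 1 else 0 := by
    rw [← ArithmeticFunction.coe_mul_zeta_apply, ArithmeticFunction.moebius_mul_coe_zeta,
      ArithmeticFunction.one_apply]
  have h3 : ∑ e ∈ (Nat.gcd d B).divisors, (ArithmeticFunction.moebius e : ℝ) =
      ((if Nat.gcd d B = 1 then 1 else 0 : ℤ) : ℝ) := by
    rw [← h2]; push_cast; rfl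
  rw [h3]
  unfold Nat.Coprime
  split_ifs <;> simp

private noncomputable def sqsf : ArithmeticFunction ℝ := ⟨fun e => 1 / (e : ℝ), by simp⟩

private theorem sqsf_apply (e : ℕ) : sqsf e = 1 / (e : ℝ) := rfl

private theorem sqsf_mult : sqsf.IsMultiplicative := by
  constructor
  · simp [sqsf_apply]
  · intro m n _
    simp only [sqsf_apply]
    push_cast
    ring

private theorem sqs_prod {n : ℕ} (hn : Squarefree n) :
    ∑ e ∈ n.divisors, (ArithmeticFunction.moebius e : ℝ) * (1 / (e : ℝ)) =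
      ∏ p ∈ n.primeFactors, (1 - 1 / (p : ℝ)) := by
  have := sqsf_mult.prodPrimeFactors_one_sub_of_squarefree sqsf hn
  simp only [sqsf_apply] at this
  exact this.symm

/-- The radical of `N`. -/
private theorem sqs_rad {N : ℕ} (hN : N ≠ 0) : ∃ R : ℕ, Squarefree R ∧ R ∣ N ∧
    R.primeFactors = N.primeFactors := by
  refine ⟨∏ p ∈ N.primeFactors, p, ?_, Nat.prod_primeFactors_dvd N,
    Nat.primeFactors_prod_primeFactors N⟩
  apply Finset.squarefree_prod_of_pairwise_isCoprime
  · intro p hp q hq hpq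
    have hp' := Nat.prime_of_mem_primeFactors hp
    have hq' := Nat.prime_of_mem_primeFactors hq
    exact Nat.coprime_iff_isRelPrime.1 ((Nat.coprime_primes hp' hq').2 hpq)
  · intro p hp
    exact (Nat.prime_of_mem_primeFactors hp).prime.squarefree

private theorem sqs_cop {N R m : ℕ} (hN : N ≠ 0) (hR : R ≠ 0)
    (h : R.primeFactors = N.primeFactors) : Nat.Coprime m N ↔ Nat.Coprime m R := by
  by_cases hm : m = 0
  · subst hm
    rw [Nat.coprime_zero_left, Nat.coprime_zero_left]
    constructor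
    · intro h1
      rw [h1, Nat.primeFactors_one, Nat.primeFactors_eq_empty] at h
      tauto
    · intro h1
      rw [h1, Nat.primeFactors_one] at h
      have := Nat.primeFactors_eq_empty.1 h.symm
      tauto
  · rw [← Nat.disjoint_primeFactors hm hN, ← Nat.disjoint_primeFactors hm hR, h]

/-- one cell -/
private theorem sqs_cell {φ φ' : ℝ → ℝ} (h : ∀ x, HasDerivAt φ (φ' x) x) (hc : Continuous φ')
    (p x : ℝ) (hx : x ∈ Set.Icc p (p + 2)) :
    |φ x - 1 / 2 * ∫ u in p..(p + 2), φ u| ≤ ∫ u in p..(p + 2), |φ' u| := by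
  have hcφ : Continuous φ := continuous_iff_continuousAt.2 (fun x => (h x).continuousAt)
  have hle : p ≤ p + 2 := by linarith
  have e1 : φ x - 1 / 2 * ∫ u in p..(p + 2), φ u =
      1 / 2 * ∫ u in p..(p + 2), (φ x - φ u) := by
    rw [intervalIntegral.integral_sub (by simp) (hcφ.intervalIntegrable _ _),
      intervalIntegral.integral_const]
    simp only [add_sub_cancel_left, smul_eq_mul]
    ring
  have hpt : ∀ u ∈ Set.Icc p (p + 2), |φ x - φ u| ≤ ∫ v in p..(p + 2), |φ' v| := by
    intro u hu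
    have e2 : φ x - φ u = ∫ v in u..x, φ' v :=
      (intervalIntegral.integral_eq_sub_of_hasDerivAt (fun y _ => h y)
        (hc.intervalIntegrable _ _)).symm
    rw [e2]
    have e5 := intervalIntegral.norm_integral_le_abs_integral_norm (f := φ') (a := u) (b := x)
      (μ := volume)
    simp only [Real.norm_eq_abs] at e5
    calc |∫ v in u..x, φ' v| ≤ abs (∫ v in u..x, |φ' v|) := e5
      _ ≤ ∫ v in p..(p + 2), |φ' v| := by
          have hsub : Set.uIoc u x ⊆ Set.uIoc p (p + 2) := by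
            apply Set.uIoc_subset_uIoc_of_uIcc_subset_uIcc
            apply Set.uIcc_subset_uIcc
            · rw [Set.uIcc_of_le hle]; exact hu
            · rw [Set.uIcc_of_le hle]; exact hx
          have := intervalIntegral.abs_integral_mono_interval hsub
            (ae_of_all _ (fun v => abs_nonneg (φ' v))) (hc.abs.intervalIntegrable (μ := volume) _ _)
          refine this.trans (le_of_eq ?_)
          exact abs_of_nonneg (intervalIntegral.integral_nonneg hle (fun v _ => abs_nonneg _))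
  rw [e1, abs_mul, abs_of_pos (by norm_num : (0 : ℝ) < 1 / 2)]
  have e3 : |∫ u in p..(p + 2), (φ x - φ u)| ≤ (∫ v in p..(p + 2), |φ' v|) * |p + 2 - p| := by
    have := intervalIntegral.norm_integral_le_of_norm_le_const (a := p) (b := p + 2)
      (C := ∫ v in p..(p + 2), |φ' v|) (f := fun u => φ x - φ u) (by
        intro u hu
        rw [Set.uIoc_of_le hle] at hu
        rw [Real.norm_eq_abs]
        exact hpt u ⟨hu.1.le, hu.2⟩)
    rwa [Real.norm_eq_abs] at this
  have e4 : |p + 2 - p| = 2 := by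
    rw [add_sub_cancel_left]; norm_num
  rw [e4] at e3
  linarith

/-- the sum over odd numbers of `F (c l²)` -/
private theorem sqs_odd {F : ℝ → ℝ} {a b : ℝ} (ha : 0 < a) (hF : Bump F a b) {c : ℝ} (hc : 0 < c) :
    |∑' j : ℕ, F (c * (2 * (j : ℝ) + 1) ^ 2) - 1 / (4 * √c) * ∫ t : ℝ, F t / √t| ≤
      ∫ t : ℝ, |deriv F t| := by
  have hFd : Differentiable ℝ F := hF.smooth.differentiable (by simp)
  have hF'c : Continuous (deriv F) := hF.smooth.continuous_deriv (by simp)
  have hFz : ∀ t, t ≤ a ∨ b ≤ t → F t = 0 := by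
    intro t ht
    by_contra h
    have := hF.supp t h
    rcases ht with ht | ht <;> linarith
  have hcsupp : HasCompactSupport F := by
    apply HasCompactSupport.intro (isCompact_Icc (a := a) (b := b))
    intro t ht
    apply hFz
    by_contra h
    push Not at h
    exact ht ⟨h.1.le, h.2.le⟩
  have hF'supp : Function.support (deriv F) ⊆ Set.Icc a b := by
    refine (support_deriv_subset).trans ?_
    apply closure_minimal _ isClosed_Icc
    intro t ht
    have := hF.supp t ht
    exact ⟨this.1.le, this.2.le⟩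
  have hF'int : Integrable (fun t => |deriv F t|) :=
    (hF'c.integrable_of_hasCompactSupport hcsupp.deriv).abs
  -- choose `n`
  obtain ⟨n, hn⟩ : ∃ n : ℕ, (max a b + 1) / c + 1 ≤ (n : ℝ) := exists_nat_ge _
  have hn1 : 1 ≤ (n : ℝ) := by
    have : 0 ≤ (max a b + 1) / c := by
      have := le_max_left a b
      positivity
    linarith
  have hcn : b < c * (2 * (n : ℝ)) ^ 2 ∧ a < c * (2 * (n : ℝ)) ^ 2 := by
    have h1 : (max a b + 1) / c ≤ (n : ℝ) := by linarith
    rw [div_le_iff₀ hc] at h1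
    have h2 : (n : ℝ) * c ≤ c * (2 * (n : ℝ)) ^ 2 := by
      nlinarith [mul_pos hc (by linarith : (0 : ℝ) < n)]
    have h3 := le_max_left a b
    have h4 := le_max_right a b
    constructor <;> linarith
  -- reduce to a finite sum
  have hfin : ∑' j : ℕ, F (c * (2 * (j : ℝ) + 1) ^ 2) =
      ∑ j ∈ Finset.range n, F (c * (2 * (j : ℝ) + 1) ^ 2) := by
    apply tsum_eq_sum
    intro j hj
    rw [Finset.mem_range, not_lt] at hj
    apply hFz
    right
    have hj' : (n : ℝ) ≤ j := by exact_mod_cast hj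
    have : c * (2 * (n : ℝ)) ^ 2 ≤ c * (2 * (j : ℝ) + 1) ^ 2 := by
      apply mul_le_mul_of_nonneg_left _ hc.le
      apply pow_le_pow_left₀ (by positivity)
      linarith
    linarith [hcn.1]
  set φ : ℝ → ℝ := fun u => F (c * u ^ 2) with hφ
  set φ' : ℝ → ℝ := fun u => deriv F (c * u ^ 2) * (2 * c * u) with hφ'
  have hsq : ∀ u : ℝ, HasDerivAt (fun u : ℝ => c * u ^ 2) (2 * c * u) u := by
    intro u
    have := (hasDerivAt_pow 2 u).const_mul c
    refine this.congr_deriv ?_
    simp only [Nat.add_one_sub_one, pow_one, Nat.cast_ofNat]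
    ring
  have hφd : ∀ u, HasDerivAt φ (φ' u) u := by
    intro u
    exact (hFd (c * u ^ 2)).hasDerivAt.comp u (hsq u)
  have hφ'c : Continuous φ' := by
    simp only [hφ']
    fun_prop
  have hcells : ∀ m : ℕ, |∑ j ∈ Finset.range m, φ (2 * (j : ℝ) + 1) -
      1 / 2 * ∫ u in (0 : ℝ)..(2 * (m : ℝ)), φ u| ≤ ∫ u in (0 : ℝ)..(2 * (m : ℝ)), |φ' u| := by
    intro m
    have hφc : Continuous φ := continuous_iff_continuousAt.2 (fun x => (hφd x).continuousAt)
    induction m with
    | zero => simp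
    | succ m ih =>
      rw [Finset.sum_range_succ]
      have e1 : ∫ u in (0 : ℝ)..(2 * ((m + 1 : ℕ) : ℝ)), φ u =
          (∫ u in (0 : ℝ)..(2 * (m : ℝ)), φ u) + ∫ u in (2 * (m : ℝ))..(2 * (m : ℝ) + 2), φ u := by
        rw [intervalIntegral.integral_add_adjacent_intervals (hφc.intervalIntegrable _ _)
          (hφc.intervalIntegrable _ _)]
        congr 1
        push_cast
        ring
      have e2 : ∫ u in (0 : ℝ)..(2 * ((m + 1 : ℕ) : ℝ)), |φ' u| =
          (∫ u in (0 : ℝ)..(2 * (m : ℝ)), |φ' u|) +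
            ∫ u in (2 * (m : ℝ))..(2 * (m : ℝ) + 2), |φ' u| := by
        rw [intervalIntegral.integral_add_adjacent_intervals (hφ'c.abs.intervalIntegrable _ _)
          (hφ'c.abs.intervalIntegrable _ _)]
        congr 1
        push_cast
        ring
      rw [e1, e2]
      have e3 := sqs_cell hφd hφ'c (2 * (m : ℝ)) (2 * (m : ℝ) + 1)
        ⟨by linarith, by linarith⟩
      calc |∑ j ∈ Finset.range m, φ (2 * (j : ℝ) + 1) + φ (2 * (m : ℝ) + 1) -
            1 / 2 * ((∫ u in (0 : ℝ)..(2 * (m : ℝ)), φ u) +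
              ∫ u in (2 * (m : ℝ))..(2 * (m : ℝ) + 2), φ u)|
          = |(∑ j ∈ Finset.range m, φ (2 * (j : ℝ) + 1) -
              1 / 2 * ∫ u in (0 : ℝ)..(2 * (m : ℝ)), φ u) + (φ (2 * (m : ℝ) + 1) -
              1 / 2 * ∫ u in (2 * (m : ℝ))..(2 * (m : ℝ) + 2), φ u)| := by
            congr 1; ring
        _ ≤ _ := (abs_add_le _ _).trans (add_le_add ih e3)
  have hsubst : ∀ g : ℝ → ℝ, Continuous g →
      ∫ u in (0 : ℝ)..(2 * (n : ℝ)), g (c * u ^ 2) * (2 * c * u) =
        ∫ t in (0 : ℝ)..(c * (2 * (n : ℝ)) ^ 2), g t := by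
    intro g hg
    have := intervalIntegral.integral_comp_mul_deriv (a := 0) (b := 2 * (n : ℝ))
      (f := fun u : ℝ => c * u ^ 2) (f' := fun u => 2 * c * u) (g := g)
      (fun u _ => hsq u) (by fun_prop) hg
    simp only [Function.comp_apply] at this
    have e0 : c * (0 : ℝ) ^ 2 = 0 := by ring
    rw [this, e0]
  have hpos2n : (0 : ℝ) ≤ 2 * (n : ℝ) := by positivity
  -- total variation
  have hTV : ∫ u in (0 : ℝ)..(2 * (n : ℝ)), |φ' u| = ∫ t : ℝ, |deriv F t| := by
    have e1 : ∫ u in (0 : ℝ)..(2 * (n : ℝ)), |φ' u| =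
        ∫ u in (0 : ℝ)..(2 * (n : ℝ)), (fun t => |deriv F t|) (c * u ^ 2) * (2 * c * u) := by
      apply intervalIntegral.integral_congr
      intro u hu
      rw [Set.uIcc_of_le hpos2n] at hu
      simp only [hφ']
      rw [abs_mul, abs_of_nonneg (by have := hu.1; positivity : (0 : ℝ) ≤ 2 * c * u)]
    rw [e1, hsubst _ hF'c.abs]
    apply intervalIntegral.integral_eq_integral_of_support_subset
    intro t ht
    have ht' : t ∈ Set.Icc a b := by
      apply hF'supp
      rw [Function.mem_support] at ht ⊢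
      intro h
      exact ht (by rw [h, abs_zero])
    exact ⟨by linarith [ht'.1], by linarith [ht'.2, hcn.1]⟩
  -- main term
  have hGc : Continuous (fun t : ℝ => F t / √t) := by
    rw [continuous_iff_continuousAt]
    intro t
    by_cases ht : 0 < t
    · apply ContinuousAt.div hFd.continuous.continuousAt Real.continuous_sqrt.continuousAt
      exact (Real.sqrt_pos.2 ht).ne'
    · push Not at ht
      have : (fun t : ℝ => F t / √t) =ᶠ[𝓝 t] (fun _ => 0) := by
        filter_upwards [Iio_mem_nhds (by linarith : t < a)] with s hs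
        rw [hFz s (Or.inl (le_of_lt hs)), zero_div]
      exact ContinuousAt.congr continuousAt_const this.symm
  have hmain : 1 / 2 * ∫ u in (0 : ℝ)..(2 * (n : ℝ)), φ u =
      1 / (4 * √c) * ∫ t : ℝ, F t / √t := by
    have hsc : 0 < √c := Real.sqrt_pos.2 hc
    have e1 : ∫ u in (0 : ℝ)..(2 * (n : ℝ)), φ u =
        1 / (2 * √c) * ∫ u in (0 : ℝ)..(2 * (n : ℝ)),
          (fun t => F t / √t) (c * u ^ 2) * (2 * c * u) := by
      rw [← intervalIntegral.integral_const_mul]
      apply intervalIntegral.integral_congr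
      intro u hu
      rw [Set.uIcc_of_le hpos2n] at hu
      simp only [hφ]
      rcases eq_or_lt_of_le hu.1 with h0 | h0
      · rw [← h0]
        have : F (c * 0 ^ 2) = 0 := hFz _ (Or.inl (by simpa using ha.le))
        rw [this]
        simp
      · rw [Real.sqrt_mul hc.le, Real.sqrt_sq h0.le]
        have e2 : 1 / (2 * √c) * (F (c * u ^ 2) / (√c * u) * (2 * c * u)) =
            F (c * u ^ 2) * (c / (√c * √c)) := by
          field_simp
        rw [e2, Real.mul_self_sqrt hc.le, div_self hc.ne', mul_one]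
    rw [e1, hsubst _ hGc]
    have e3 : ∫ t in (0 : ℝ)..(c * (2 * (n : ℝ)) ^ 2), F t / √t = ∫ t : ℝ, F t / √t := by
      apply intervalIntegral.integral_eq_integral_of_support_subset
      intro t ht
      rw [Function.mem_support] at ht
      have ht' : F t ≠ 0 := by
        intro h
        exact ht (by rw [h, zero_div])
      have := hF.supp t ht'
      exact ⟨by linarith [this.1], by linarith [this.2, hcn.1]⟩
    rw [e3]
    ring
  rw [hfin, ← hmain, ← hTV]
  exact hcells n

open Classical in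
theorem sq_sum {F : ℝ → ℝ} {a b : ℝ} (ha : 0 < a) (hF : Bump F a b) :
    ∃ C : ℝ, ∀ N : ℕ, Odd N → ∀ Y : ℝ, 1 ≤ Y →
      |∑' d : ℕ, (if IsSquare (d : ℤ) ∧ Odd d then F (d / Y) * jr d N else 0) -
        √Y / 4 * (∏ p ∈ N.primeFactors, (1 - 1 / (p : ℝ))) * ∫ t : ℝ, F t / √t| ≤
      C * N.divisors.card := by
  refine ⟨∫ t : ℝ, |deriv F t|, ?_⟩
  intro N hN Y hY
  have hN0 : N ≠ 0 := by rintro rfl; simp at hN
  have hY0 : 0 < Y := by linarith
  obtain ⟨R, hRs, hRN, hRp⟩ := sqs_rad hN0
  have hR0 : R ≠ 0 := hRs.ne_zero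
  have hRodd : Odd R := hN.of_dvd_nat hRN
  have hFz : ∀ t, t ≤ a ∨ b ≤ t → F t = 0 := by
    intro t ht
    by_contra h
    have := hF.supp t h
    rcases ht with ht | ht <;> linarith
  -- reindex by square roots
  have h1 : ∑' d : ℕ, (if IsSquare (d : ℤ) ∧ Odd d then F (d / Y) * jr d N else 0) =
      ∑' m : ℕ, (if Odd m ∧ Nat.Coprime m R then F ((m : ℝ) ^ 2 / Y) else 0) := by
    have hinj : Function.Injective (fun m : ℕ => m ^ 2) := fun x y h =>
      Nat.pow_left_injective (n := 2) (by norm_num) h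
    have hsupp : Function.support (fun d : ℕ =>
        (if IsSquare (d : ℤ) ∧ Odd d then F (d / Y) * jr d N else 0)) ⊆
        Set.range (fun m : ℕ => m ^ 2) := by
      intro d hd
      rw [Function.mem_support] at hd
      by_cases hs : IsSquare (d : ℤ) ∧ Odd d
      · obtain ⟨r, hr⟩ := hs.1
        refine ⟨r.natAbs, ?_⟩
        have : ((r.natAbs ^ 2 : ℕ) : ℤ) = d := by
          rw [Nat.cast_pow, Int.natCast_natAbs, sq_abs, hr, sq]
        exact_mod_cast this
      · rw [if_neg hs] at hd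
        exact absurd rfl hd
    rw [← hinj.tsum_eq hsupp]
    apply tsum_congr
    intro m
    have e1 : (IsSquare (((m ^ 2 : ℕ)) : ℤ) ∧ Odd (m ^ 2)) ↔ Odd m := by
      constructor
      · rintro ⟨-, h⟩
        exact (Nat.odd_pow_iff (by norm_num)).1 h
      · intro h
        exact ⟨⟨(m : ℤ), by push_cast; ring⟩, h.pow⟩
    have e2 : jr ((m ^ 2 : ℕ) : ℤ) N = if Nat.Coprime m R then 1 else 0 := by
      have e3 : (((m ^ 2 : ℕ)) : ℤ) = 1 * (m : ℤ) ^ 2 := by push_cast; ring
      rw [e3, jr_mul_sq 1 m hN, jr_one_left hN]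
      by_cases hc : Nat.Coprime m N
      · rw [if_pos hc, if_pos ((sqs_cop hN0 hR0 hRp).1 hc)]
      · rw [if_neg hc, if_neg (fun h => hc ((sqs_cop hN0 hR0 hRp).2 h))]
    by_cases hm : Odd m
    · rw [if_pos (e1.2 hm), e2]
      by_cases hc : Nat.Coprime m R
      · rw [if_pos hc, if_pos ⟨hm, hc⟩, mul_one]
        push_cast
        rfl
      · rw [if_neg hc, if_neg (fun h => hc h.2), mul_zero]
    · rw [if_neg (fun h => hm (e1.1 h)), if_neg (fun h => hm h.1)]
  -- Moebius
  have h2 : ∑' m : ℕ, (if Odd m ∧ Nat.Coprime m R then F ((m : ℝ) ^ 2 / Y) else 0) =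
      ∑ e ∈ R.divisors, (ArithmeticFunction.moebius e : ℝ) *
        ∑' j : ℕ, F ((e : ℝ) ^ 2 / Y * (2 * (j : ℝ) + 1) ^ 2) := by
    have hterm : ∀ m : ℕ, (if Odd m ∧ Nat.Coprime m R then F ((m : ℝ) ^ 2 / Y) else 0) =
        ∑ e ∈ R.divisors, (ArithmeticFunction.moebius e : ℝ) *
          (if Odd m ∧ e ∣ m then F ((m : ℝ) ^ 2 / Y) else 0) := by
      intro m
      by_cases hm : Odd m
      · have e1 : ∑ e ∈ R.divisors, (ArithmeticFunction.moebius e : ℝ) *
            (if Odd m ∧ e ∣ m then F ((m : ℝ) ^ 2 / Y) else 0) = F ((m : ℝ) ^ 2 / Y) *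
            ∑ e ∈ R.divisors, (if e ∣ m then (ArithmeticFunction.moebius e : ℝ) else 0) := by
          rw [Finset.mul_sum]
          apply Finset.sum_congr rfl
          intro e _
          by_cases he : e ∣ m
          · rw [if_pos ⟨hm, he⟩, if_pos he]; ring
          · rw [if_neg (fun h => he h.2), if_neg he]; ring
        rw [e1, sqs_moebius m hR0]
        by_cases hc : Nat.Coprime m R
        · rw [if_pos ⟨hm, hc⟩, if_pos hc, mul_one]
        · rw [if_neg (fun h => hc h.2), if_neg hc, mul_zero]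
      · rw [if_neg (fun h => hm h.1)]
        symm
        apply Finset.sum_eq_zero
        intro e _
        rw [if_neg (fun h => hm h.1), mul_zero]
    rw [tsum_congr hterm]
    obtain ⟨n, hn⟩ : ∃ n : ℕ, b * Y + 1 ≤ (n : ℝ) := exists_nat_ge _
    have hfs : ∀ e ∈ R.divisors, Summable (fun m : ℕ => (ArithmeticFunction.moebius e : ℝ) *
          (if Odd m ∧ e ∣ m then F ((m : ℝ) ^ 2 / Y) else 0)) := by
      intro e _
      apply summable_of_ne_finset_zero (s := Finset.range (n + 1))
      intro m hm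
      rw [Finset.mem_range, not_lt] at hm
      have hm1 : (n : ℝ) + 1 ≤ m := by exact_mod_cast hm
      have : F ((m : ℝ) ^ 2 / Y) = 0 := by
        apply hFz
        right
        rw [le_div_iff₀ hY0]
        have hn0 : (0 : ℝ) ≤ n := Nat.cast_nonneg n
        nlinarith
      rw [this, ite_self, mul_zero]
    rw [Summable.tsum_finsetSum hfs]
    apply Finset.sum_congr rfl
    intro e he
    have heR : e ∣ R := Nat.dvd_of_mem_divisors he
    have he0 : 0 < e := Nat.pos_of_mem_divisors he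
    have heodd : Odd e := hRodd.of_dvd_nat heR
    rw [tsum_mul_left]
    congr 1
    have hinj : Function.Injective (fun j : ℕ => e * (2 * j + 1)) := by
      intro x y h
      have := Nat.eq_of_mul_eq_mul_left he0 h
      omega
    have hsupp : Function.support (fun m : ℕ =>
        (if Odd m ∧ e ∣ m then F ((m : ℝ) ^ 2 / Y) else 0)) ⊆
        Set.range (fun j : ℕ => e * (2 * j + 1)) := by
      intro m hm
      rw [Function.mem_support] at hm
      by_cases hs : Odd m ∧ e ∣ m
      · obtain ⟨ho, ⟨l, rfl⟩⟩ := hs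
        obtain ⟨j, hj⟩ := (Nat.odd_mul.1 ho).2
        exact ⟨j, by simp only; rw [hj]⟩
      · rw [if_neg hs] at hm
        exact absurd rfl hm
    rw [← hinj.tsum_eq hsupp]
    apply tsum_congr
    intro j
    have ho : Odd (e * (2 * j + 1)) := heodd.mul ⟨j, rfl⟩
    rw [if_pos ⟨ho, Dvd.intro _ rfl⟩]
    congr 1
    push_cast
    ring
  rw [h1, h2, ← hRp, ← sqs_prod hRs]
  have h3 : √Y / 4 * (∑ e ∈ R.divisors, (ArithmeticFunction.moebius e : ℝ) * (1 / (e : ℝ))) *
      ∫ t : ℝ, F t / √t = ∑ e ∈ R.divisors, (ArithmeticFunction.moebius e : ℝ) *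
        (1 / (4 * √((e : ℝ) ^ 2 / Y)) * ∫ t : ℝ, F t / √t) := by
    rw [Finset.mul_sum, Finset.sum_mul]
    apply Finset.sum_congr rfl
    intro e he
    have he0 : (0 : ℝ) < e := by exact_mod_cast Nat.pos_of_mem_divisors he
    have hsY : 0 < √Y := Real.sqrt_pos.2 hY0
    rw [Real.sqrt_div (by positivity), Real.sqrt_sq he0.le]
    field_simp
  rw [h3, ← Finset.sum_sub_distrib]
  have hC : 0 ≤ ∫ t : ℝ, |deriv F t| := integral_nonneg (fun t => abs_nonneg _)
  calc |∑ e ∈ R.divisors, ((ArithmeticFunction.moebius e : ℝ) *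
          ∑' j : ℕ, F ((e : ℝ) ^ 2 / Y * (2 * (j : ℝ) + 1) ^ 2) -
          (ArithmeticFunction.moebius e : ℝ) *
            (1 / (4 * √((e : ℝ) ^ 2 / Y)) * ∫ t : ℝ, F t / √t))|
      ≤ ∑ e ∈ R.divisors, |(ArithmeticFunction.moebius e : ℝ) *
          ∑' j : ℕ, F ((e : ℝ) ^ 2 / Y * (2 * (j : ℝ) + 1) ^ 2) -
          (ArithmeticFunction.moebius e : ℝ) *
            (1 / (4 * √((e : ℝ) ^ 2 / Y)) * ∫ t : ℝ, F t / √t)| :=
        Finset.abs_sum_le_sum_abs _ _
    _ ≤ ∑ e ∈ R.divisors, ∫ t : ℝ, |deriv F t| := by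
        apply Finset.sum_le_sum
        intro e he
        have he0 : (0 : ℝ) < e := by exact_mod_cast Nat.pos_of_mem_divisors he
        rw [← mul_sub, abs_mul]
        have hmu : |(ArithmeticFunction.moebius e : ℝ)| ≤ 1 := by
          exact_mod_cast ArithmeticFunction.abs_moebius_le_one
        have := sqs_odd ha hF (c := (e : ℝ) ^ 2 / Y) (by positivity)
        calc |(ArithmeticFunction.moebius e : ℝ)| * _ ≤ 1 * ∫ t : ℝ, |deriv F t| :=
              mul_le_mul hmu this (abs_nonneg _) zero_le_one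
          _ = _ := one_mul _
    _ = (∫ t : ℝ, |deriv F t|) * R.divisors.card := by
        rw [Finset.sum_const, nsmul_eq_mul, mul_comm]
    _ ≤ (∫ t : ℝ, |deriv F t|) * N.divisors.card := by
        apply mul_le_mul_of_nonneg_left _ hC
        exact_mod_cast Finset.card_le_card (Nat.divisors_subset_of_dvd hN0 hRN)

end Pool.Agent.MP0016c7.Rz
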