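import Mathlib
import Pool.Agent.Lib.MP_0016c7_nt.Rz.Defs
import Pool.Agent.Lib.MP_0016c7_nt.Rz.DefsC
import Pool.Agent.Lib.MP_0016c7_nt.Rz.DefsE
import Pool.Agent.Lib.MP_0016c7_nt.Rz.DefsF
import Pool.Agent.Lib.MP_0016c7_nt.Rz2.DefsG
import Pool.Agent.Lib.MP_0016c7_nt.Rz2.PSplit
import Pool.Agent.Lib.MP_0016c7_nt.Rz2.ARlim
import Pool.Agent.Lib.MP_0016c7_nt.Rz2.SqSum
import Pool.Agent.Lib.MP_0016c7_nt.Rz2.NSc

set_option autoImplicit false

/-!
The final splitting of the averages.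
-/

open Finset MeasureTheory Filter Topology
open scoped Real ContDiff

namespace Pool.Agent.MP0016c7.Rz

private lemma prs_t4 (m k : ℤ) : |t4 m k| ≤ 1 := by
  unfold t4
  split_ifs <;> simp

private lemma prs_t8 (m : ℤ) : |t8 m| ≤ 1 := by
  unfold t8
  split_ifs <;> simp

private lemma prs_NSc_zero (F : ℝ → ℝ) (σ : ℤ) (Y : ℝ) (N : ℕ) : NSc F σ (fun _ => 0) Y N = 0 := by
  unfold NSc
  simp

private lemma prs_mod4 (k : ℤ) : (k * k) % 4 = 0 ∨ (k * k) % 4 = 1 := by
  have h : k % 4 = 0 ∨ k % 4 = 1 ∨ k % 4 = 2 ∨ k % 4 = 3 := by omega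
  rcases h with h | h | h | h <;> rw [Int.mul_emod, h] <;> norm_num

private lemma prs_mod8 (k : ℤ) : (k * k) % 8 = 0 ∨ (k * k) % 8 = 1 ∨ (k * k) % 8 = 4 := by
  have h : k % 8 = 0 ∨ k % 8 = 1 ∨ k % 8 = 2 ∨ k % 8 = 3 ∨ k % 8 = 4 ∨ k % 8 = 5 ∨ k % 8 = 6 ∨
      k % 8 = 7 := by omega
  rcases h with h | h | h | h | h | h | h | h <;> rw [Int.mul_emod, h] <;> norm_num

private lemma prs_summable {F : ℝ → ℝ} {a b : ℝ} (hF : Bump F a b) {Y : ℝ} (hY : 0 < Y)
    (g : ℕ → ℝ) (P : ℕ → Prop) [DecidablePred P] :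
    Summable (fun d : ℕ => if P d then F (d / Y) * g d else 0) := by
  refine summable_of_finite_support ?_
  refine (Set.finite_Iic ⌊b * Y⌋₊).subset ?_
  intro d hd
  rw [Function.mem_support] at hd
  have h1 : F (d / Y) ≠ 0 := by
    intro h0
    apply hd
    simp [h0]
  have h2 := (hF.supp _ h1).2
  rw [div_lt_iff₀ hY] at h2
  exact Nat.le_floor h2.le

private lemma prs_pol (F : ℝ → ℝ) (σ ε : ℤ) {Y : ℝ} (hY : 0 < Y) (N : ℕ) :
    √2 * ε * (pol F σ (Y / 4) N - pol F σ Y N) + pol F σ (Y / 2) N =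
      (1 + ε) * ((∏ p ∈ N.primeFactors, (1 - 1 / (p : ℝ))) *
        ((1 + σ) / 2 * ∫ t : ℝ, F t / √t)) / √Y := by
  unfold pol
  set P := (∏ p ∈ N.primeFactors, (1 - 1 / (p : ℝ))) * ((1 + σ) / 2 * ∫ t : ℝ, F t / √t) with hP
  have h2 : 0 < √2 := by positivity
  have hs : 0 < √Y := Real.sqrt_pos.2 hY
  have hss : √2 * √2 = 2 := Real.mul_self_sqrt (by norm_num)
  have e1 : √(2 * (Y / 4)) = √Y / √2 := by
    rw [show 2 * (Y / 4) = Y / 2 by ring, Real.sqrt_div hY.le]
  have e2 : √(2 * Y) = √2 * √Y := Real.sqrt_mul (by norm_num) Y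
  have e3 : √(2 * (Y / 2)) = √Y := by
    rw [show 2 * (Y / 2) = Y by ring]
  rw [e1, e2, e3]
  field_simp
  have h3 : √2 ^ 2 = 2 := by rw [sq]; exact hss
  rw [h3]
  ring

open Classical in
private lemma prs_eight {F : ℝ → ℝ} {a b : ℝ} (ha : 0 < a) (hF : Bump F a b) (hF0 : 0 < ∫ t, F t)
    (σ : ℤ) (hσ : σ = 1 ∨ σ = -1) (c ε : ℤ) (hc : (c = 1 ∧ ε = 1) ∨ (c = 5 ∧ ε = -1)) (N : ℕ)
    (hN : Odd N) (Y : ℝ) (hY : 0 < Y) :
    PR F 8 c σ Y N = MG F σ ε Y N + NSc F σ (fun k => √2 * t8 (c * k)) (Y / 4) N +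
      NSc F σ (fun k => t4 c k) (Y / 2) N + NSc F σ (fun _ => 1) (2 * Y) N +
      ((1 + ε) * ((∏ p ∈ N.primeFactors, (1 - 1 / (p : ℝ))) *
        ((1 + σ) / 2 * ∫ t : ℝ, F t / √t)) / √Y -
      8 / Y * ∑' d : ℕ, (if (σ * d) % 8 = c ∧ IsSquare (σ * (d : ℤ)) then
        F (d / Y) * jr (σ * d) N else 0)) := by
  have hε : ε ≠ 0 := by rcases hc with ⟨_, h⟩ | ⟨_, h⟩ <;> rw [h] <;> norm_num
  have h1 := psplit8 ha hF σ hσ N hN c ε hc Y hY
  rw [AR_eq ha hF hF0 σ N hN (Y / 4) (by positivity), AR_eq ha hF hF0 σ N hN Y hY,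
    AR_eq ha hF hF0 σ N hN (Y / 2) (by positivity)] at h1
  have h2 : MG F σ ε Y N = √2 * ε * (AA F σ (Y / 4) N - AA F σ Y N) + AA F σ (Y / 2) N := by
    unfold MG
    rw [if_neg hε]
  have h3 := prs_pol F σ ε hY N
  have h4 : ∑' d : ℕ, (if (σ * d) % 8 = c then F (d / Y) * jr (σ * d) N else 0) =
      (∑' d : ℕ, if Rf 8 c σ d then F (d / Y) * jr (σ * d) N else 0) +
      ∑' d : ℕ, (if (σ * d) % 8 = c ∧ IsSquare (σ * (d : ℤ)) then
        F (d / Y) * jr (σ * d) N else 0) := by
    rw [← (prs_summable hF hY _ _).tsum_add (prs_summable hF hY _ _)]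
    refine tsum_congr fun d => ?_
    unfold Rf
    by_cases p1 : (σ * (d : ℤ)) % 8 = c
    · by_cases p2 : IsSquare (σ * (d : ℤ))
      · simp [p1, p2]
      · simp [p1, p2]
    · simp [p1]
  have h5 : PR F 8 c σ Y N = 8 / Y * ∑' d : ℕ, if Rf 8 c σ d then F (d / Y) * jr (σ * d) N
      else 0 := by
    unfold PR
    push_cast
    rfl
  rw [h4, mul_add] at h1
  rw [h5, h2, ← h3]
  linarith

theorem PR_split {F : ℝ → ℝ} {a b : ℝ} (ha : 0 < a) (hF : Bump F a b) (hF0 : 0 < ∫ t, F t) (σ : ℤ)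
    (hσ : σ = 1 ∨ σ = -1) {m c ε : ℤ} {κ : ℕ} (hf : Fam m c ε κ) :
    ∃ (c₁ c₂ c₃ : ℤ → ℝ) (C : ℝ), 0 ≤ C ∧ (∀ k, |c₁ k| ≤ 2) ∧ (∀ k, |c₂ k| ≤ 2) ∧
      (∀ k, |c₃ k| ≤ 2) ∧ ∀ N : ℕ, Odd N → ∀ Y : ℝ, 1 ≤ Y →
      |PR F m c σ Y N - (MG F σ ε Y N + NSc F σ c₁ (Y / 4) N + NSc F σ c₂ (Y / 2) N +
        NSc F σ c₃ (2 * Y) N)| ≤ C * N.divisors.card / Y := by
  classical
  have hs2 : √2 ≤ 2 := by
    have : √2 ≤ √4 := Real.sqrt_le_sqrt (by norm_num)
    rw [show (4 : ℝ) = 2 ^ 2 by norm_num, Real.sqrt_sq (by norm_num)] at this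
    exact this
  by_cases h4 : m = 4
  · subst h4
    rcases hf with ⟨_, rfl, rfl, rfl⟩ | ⟨h, _⟩ | ⟨h, _⟩
    · refine ⟨fun _ => 0, fun k => if k % 4 = 0 then 1 else t4 3 k, fun _ => 0, 0, le_rfl,
        fun k => by simp, fun k => ?_, fun k => by simp, fun N hN Y hY => ?_⟩
      · simp only
        split_ifs
        · norm_num
        · exact (prs_t4 3 k).trans (by norm_num)
      · have hY0 : 0 < Y := by linarith
        have h1 := psplit4 ha hF σ hσ N hN Y hY0
        have h2 : PR F 4 3 σ Y N =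
            4 / Y * ∑' d : ℕ, (if (σ * d) % 4 = 3 then F (d / Y) * jr (σ * d) N else 0) := by
          unfold PR
          push_cast
          congr 1
          refine tsum_congr fun d => ?_
          unfold Rf
          by_cases p1 : (σ * (d : ℤ)) % 4 = 3
          · have p2 : ¬ IsSquare (σ * (d : ℤ)) := by
              rintro ⟨k, hk⟩
              rw [hk] at p1
              have := prs_mod4 k
              omega
            simp [p1, p2]
          · simp [p1]
        have h3 : MG F σ 0 Y N = MM F σ (Y / 2) N := by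
          unfold MG
          rw [if_pos rfl]
        rw [h2, h1, h3, prs_NSc_zero, prs_NSc_zero]
        simp
    · norm_num at h
    · norm_num at h
  · obtain ⟨hm8, hc⟩ : m = 8 ∧ ((c = 1 ∧ ε = 1) ∨ (c = 5 ∧ ε = -1)) := by
      rcases hf with ⟨h, _⟩ | ⟨h, h', h'', _⟩ | ⟨h, h', h'', _⟩
      · exact absurd h h4
      · exact ⟨h, Or.inl ⟨h', h''⟩⟩
      · exact ⟨h, Or.inr ⟨h', h''⟩⟩
    subst hm8
    obtain ⟨C, hC⟩ := sq_sum ha hF
    refine ⟨fun k => √2 * t8 (c * k), fun k => t4 c k, fun _ => 1, 8 * |C|, by positivity,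
      fun k => ?_, fun k => (prs_t4 c k).trans (by norm_num), fun k => by norm_num,
      fun N hN Y hY => ?_⟩
    · simp only
      rw [abs_mul, abs_of_nonneg (Real.sqrt_nonneg 2)]
      calc √2 * |t8 (c * k)| ≤ 2 * 1 := mul_le_mul hs2 (prs_t8 _) (abs_nonneg _) (by norm_num)
        _ = 2 := by norm_num
    · have hY0 : 0 < Y := by linarith
      rw [prs_eight ha hF hF0 σ hσ c ε hc N hN Y hY0]
      set T := ∑' d : ℕ, (if (σ * d) % 8 = c ∧ IsSquare (σ * (d : ℤ)) then
        F (d / Y) * jr (σ * d) N else 0) with hT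
      have e0 : ∀ x y z w v : ℝ, x + y + z + w + v - (x + y + z + w) = v := by
        intros
        ring
      rw [e0]
      by_cases hcase : σ = 1 ∧ c = 1
      · obtain ⟨rfl, rfl⟩ := hcase
        have hε : ε = 1 := by
          rcases hc with ⟨_, h⟩ | ⟨h, _⟩
          · exact h
          · norm_num at h
        subst hε
        have h1 := hC N hN Y hY
        have h2 : T = ∑' d : ℕ, (if IsSquare (d : ℤ) ∧ Odd d then F (d / Y) * jr d N else 0) := by
          rw [hT]
          refine tsum_congr fun d => ?_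
          rw [one_mul]
          by_cases p2 : IsSquare (d : ℤ)
          · by_cases p3 : Odd d
            · have p1 : (d : ℤ) % 8 = 1 := by
                obtain ⟨k, hk⟩ := p2
                have h8 := prs_mod8 k
                obtain ⟨j, hj⟩ := p3
                rw [← hk] at h8
                omega
              rw [if_pos ⟨p1, p2⟩, if_pos ⟨p2, p3⟩]
            · have p1 : ¬ (d : ℤ) % 8 = 1 := by
                intro h
                apply p3
                rw [Nat.odd_iff]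
                omega
              rw [if_neg (fun h => p1 h.1), if_neg (fun h => p3 h.2)]
          · rw [if_neg (fun h => p2 h.2), if_neg (fun h => p2 h.1)]
        rw [h2]
        set S := ∑' d : ℕ, (if IsSquare (d : ℤ) ∧ Odd d then F (d / Y) * jr d N else 0) with hS
        set P := ∏ p ∈ N.primeFactors, (1 - 1 / (p : ℝ)) with hP
        set I := ∫ t : ℝ, F t / √t with hI
        have hsY : 0 < √Y := Real.sqrt_pos.2 hY0
        have hYY : √Y * √Y = Y := Real.mul_self_sqrt hY0.le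
        have e1 : ((1 + ((1 : ℤ) : ℝ)) * (P * ((1 + ((1 : ℤ) : ℝ)) / 2 * I)) / √Y - 8 / Y * S) =
            -(8 / Y) * (S - √Y / 4 * P * I) := by
          have e2 : 1 / √Y = √Y / Y := by
            rw [div_eq_div_iff hsY.ne' hY0.ne', one_mul, hYY]
          push_cast
          have e3 : (1 + 1) * (P * ((1 + 1) / 2 * I)) / √Y = 2 * P * I * (1 / √Y) := by ring
          rw [e3, e2]
          ring
        rw [e1, abs_mul, abs_neg, abs_of_pos (by positivity : 0 < 8 / Y)]
        calc 8 / Y * |S - √Y / 4 * P * I| ≤ 8 / Y * (C * N.divisors.card) :=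
              mul_le_mul_of_nonneg_left h1 (by positivity)
          _ ≤ 8 / Y * (|C| * N.divisors.card) := by
              refine mul_le_mul_of_nonneg_left (mul_le_mul_of_nonneg_right (le_abs_self C) ?_) ?_
              · exact Nat.cast_nonneg _
              · positivity
          _ = 8 * |C| * N.divisors.card / Y := by ring
      · have hT0 : T = 0 := by
          rw [hT]
          have : ∀ d : ℕ, (if (σ * d) % 8 = c ∧ IsSquare (σ * (d : ℤ)) then
              F (d / Y) * jr (σ * d) N else 0) = 0 := by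
            intro d
            rw [if_neg]
            rintro ⟨p1, k, hk⟩
            have h8 := prs_mod8 k
            rw [← hk] at h8
            rcases hσ with rfl | rfl
            · apply hcase
              refine ⟨rfl, ?_⟩
              rcases hc with ⟨h, _⟩ | ⟨h, _⟩
              · exact h
              · omega
            · have h0 := mul_self_nonneg k
              rw [← hk] at h0
              have hd0 : (0 : ℤ) ≤ d := Int.natCast_nonneg d
              have hd : (d : ℤ) = 0 := by linarith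
              rw [hd] at p1
              rcases hc with ⟨h, _⟩ | ⟨h, _⟩ <;> omega
          rw [tsum_congr this, tsum_zero]
        have hz : (1 + (ε : ℝ)) * ((∏ p ∈ N.primeFactors, (1 - 1 / (p : ℝ))) *
            ((1 + (σ : ℝ)) / 2 * ∫ t : ℝ, F t / √t)) / √Y = 0 := by
          rcases hc with ⟨h, h'⟩ | ⟨h, h'⟩
          · have : σ = -1 := by
              rcases hσ with h0 | h0
              · exact absurd ⟨h0, h⟩ hcase
              · exact h0
            rw [this]
            push_cast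
            norm_num
          · rw [h']
            push_cast
            norm_num
        rw [hT0, hz]
        simp only [mul_zero, sub_self, abs_zero]
        positivity

end Pool.Agent.MP0016c7.Rz
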