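import Mathlib
import Pool.Agent.Lib.MP_0016c7_nt.Rz.Defs
import Pool.Agent.Lib.MP_0016c7_nt.Rz.DefsC
import Pool.Agent.Lib.MP_0016c7_nt.Rz.DefsE
import Pool.Agent.Lib.MP_0016c7_nt.Rz.DefsF
import Pool.Agent.Lib.MP_0016c7_nt.Rz2.DefsG
import Pool.Agent.Lib.MP_0016c7_nt.Rz.LipWt
import Pool.Agent.Lib.MP_0016c7_nt.Rz.DivB

set_option autoImplicit false

/-!
Negligible quadruple sums.
-/

open Finset MeasureTheory Filter Topology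
open scoped Real ContDiff

namespace Pool.Agent.MP0016c7.Rz

private theorem qe_harm (M : ℕ) : ∑ n ∈ Icc 1 M, 1 / (n : ℝ) ≤ 1 + Real.log M := by
  have h1 := harmonic_le_one_add_log M
  rw [harmonic_eq_sum_Icc] at h1
  push_cast at h1
  refine le_trans (le_of_eq ?_) h1
  refine Finset.sum_congr rfl fun i _ => ?_
  rw [one_div]

private theorem qe_sum (M : ℕ) (B : ℝ) (G : ℕ → ℕ → ℕ → ℕ → ℝ)
    (h : ∀ n₁ ∈ Icc 1 M, ∀ l₁ ∈ Icc 1 M, ∀ n₂ ∈ Icc 1 M, ∀ l₂ ∈ Icc 1 M,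
      |G n₁ l₁ n₂ l₂| ≤ B * (1 / (n₁ : ℝ)) * (1 / (l₁ : ℝ)) * (1 / (n₂ : ℝ)) * (1 / (l₂ : ℝ))) :
    |∑ n₁ ∈ Icc 1 M, ∑ l₁ ∈ Icc 1 M, ∑ n₂ ∈ Icc 1 M, ∑ l₂ ∈ Icc 1 M, G n₁ l₁ n₂ l₂| ≤
      B * (∑ n ∈ Icc 1 M, 1 / (n : ℝ)) ^ 4 := by
  have h1 : |∑ n₁ ∈ Icc 1 M, ∑ l₁ ∈ Icc 1 M, ∑ n₂ ∈ Icc 1 M, ∑ l₂ ∈ Icc 1 M, G n₁ l₁ n₂ l₂| ≤
      ∑ n₁ ∈ Icc 1 M, ∑ l₁ ∈ Icc 1 M, ∑ n₂ ∈ Icc 1 M, ∑ l₂ ∈ Icc 1 M,
        B * (1 / (n₁ : ℝ)) * (1 / (l₁ : ℝ)) * (1 / (n₂ : ℝ)) * (1 / (l₂ : ℝ)) := by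
    refine (Finset.abs_sum_le_sum_abs _ _).trans (Finset.sum_le_sum fun n₁ hn₁ => ?_)
    refine (Finset.abs_sum_le_sum_abs _ _).trans (Finset.sum_le_sum fun l₁ hl₁ => ?_)
    refine (Finset.abs_sum_le_sum_abs _ _).trans (Finset.sum_le_sum fun n₂ hn₂ => ?_)
    refine (Finset.abs_sum_le_sum_abs _ _).trans (Finset.sum_le_sum fun l₂ hl₂ => ?_)
    exact h n₁ hn₁ l₁ hl₁ n₂ hn₂ l₂ hl₂
  refine h1.trans (le_of_eq ?_)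
  simp only [← Finset.mul_sum, ← Finset.sum_mul]
  ring

theorem quad_err {δ θ : ℝ} (hδ : 0 < δ) (hθ : 0 < θ) (hθ1 : θ + 3 * δ < 1 / 2)
    (r : ℕ) (hr : Odd r) (c : ℝ) (hc : c = 0 ∨ c = 1)
    {ρ₁ ρ₂ h : ℝ → ℝ} (hρ₁ : Bump ρ₁ (-(δ / 2)) (δ / 2)) (hρ₂ : Bump ρ₂ (-(δ / 2)) (δ / 2))
    (hh : Bump h 0 θ) (C₀ : ℝ) (ε : ℝ) (hε : 0 < ε) :
    ∃ X₀ : ℝ, ∀ X : ℝ, X₀ ≤ X → ∀ E : ℕ → ℝ,
      (∀ N : ℕ, Odd N → |E N| ≤ C₀ * N.divisors.card / X) →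
      ∀ Y₁ ∈ Set.Icc (-1 : ℝ) (1 / 2 + δ), ∀ Y₂ ∈ Set.Icc (-1 : ℝ) (1 / 2 + δ),
      |quad (Wt c ρ₁ h X θ δ Y₁) (Wt c ρ₂ h X θ δ Y₂) r ⌊X ^ 2⌋₊ E| ≤ ε := by
  obtain ⟨C₁, X₁, hC₁, hW₁⟩ := lipW_Wt θ δ hθ hδ hθ1 c hc hρ₁ hh
  obtain ⟨C₂, X₂, hC₂, hW₂⟩ := lipW_Wt θ δ hθ hδ hθ1 c hc hρ₂ hh
  obtain ⟨κ, hκ⟩ : ∃ κ : ℝ, κ = 1 / 2 - (θ + 3 * δ) := ⟨_, rfl⟩
  have hκ0 : 0 < κ := by linarith
  have hκ1 : κ < 1 / 2 := by linarith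
  obtain ⟨D, hD, hdiv⟩ := divisor_bound (κ / 4) (by positivity)
  obtain ⟨K, hK⟩ : ∃ K : ℝ, K = C₁ * C₂ * (|C₀| * D) * (1 + 32 / κ) ^ 4 := ⟨_, rfl⟩
  have hlim : Tendsto (fun X : ℝ => K * X ^ (-(κ / 4))) atTop (𝓝 0) := by
    simpa using (tendsto_rpow_neg_atTop (by positivity : 0 < κ / 4)).const_mul K
  obtain ⟨X₃, hX₃⟩ := eventually_atTop.mp (hlim.eventually (gt_mem_nhds hε))
  refine ⟨max (max X₁ X₂) (max X₃ 1), fun X hX E hE Y₁ hY₁ Y₂ hY₂ => ?_⟩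
  have hXX₁ : X₁ ≤ X := le_trans (le_trans (le_max_left _ _) (le_max_left _ _)) hX
  have hXX₂ : X₂ ≤ X := le_trans (le_trans (le_max_right _ _) (le_max_left _ _)) hX
  have hXX₃ : X₃ ≤ X := le_trans (le_trans (le_max_left _ _) (le_max_right _ _)) hX
  have hX1 : 1 ≤ X := le_trans (le_trans (le_max_right _ _) (le_max_right _ _)) hX
  have hX0 : 0 < X := by linarith
  have hW₁' := hW₁ X hXX₁ Y₁ hY₁
  have hW₂' := hW₂ X hXX₂ Y₂ hY₂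
  have hfin := (hX₃ X hXX₃).le
  obtain ⟨Z, hZ⟩ : ∃ Z : ℝ, Z = X ^ (1 / 2 + (θ + 3 * δ)) := ⟨_, rfl⟩
  have hZ' : Z = X ^ (1 - κ) := by rw [hZ]; congr 1; rw [hκ]; ring
  have hZ0 : 0 < Z := by rw [hZ]; positivity
  have hZX : Z ≤ X := by
    rw [hZ']
    calc X ^ (1 - κ) ≤ X ^ (1 : ℝ) := Real.rpow_le_rpow_of_exponent_le hX1 (by linarith)
      _ = X := Real.rpow_one X
  set M := ⌊X ^ 2⌋₊ with hM
  have hlogM : Real.log M ≤ 2 * Real.log X := by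
    rcases Nat.eq_zero_or_pos M with h0 | h0
    · rw [h0]
      simp only [Nat.cast_zero, Real.log_zero]
      have := Real.log_nonneg hX1
      linarith
    · have h1 : (M : ℝ) ≤ X ^ 2 := Nat.floor_le (by positivity)
      have h2 : (0 : ℝ) < M := by exact_mod_cast h0
      calc Real.log M ≤ Real.log (X ^ 2) := Real.log_le_log h2 h1
        _ = 2 * Real.log X := by rw [Real.log_pow]; norm_num
  have hlogX : Real.log X ≤ X ^ (κ / 16) / (κ / 16) := Real.log_le_rpow_div hX0.le (by positivity)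
  have hone : 1 ≤ X ^ (κ / 16) := Real.one_le_rpow hX1 (by positivity)
  have hH0 : 0 ≤ ∑ n ∈ Icc 1 M, 1 / (n : ℝ) := Finset.sum_nonneg fun n _ => by positivity
  have hH : ∑ n ∈ Icc 1 M, 1 / (n : ℝ) ≤ (1 + 32 / κ) * X ^ (κ / 16) := by
    refine (qe_harm M).trans ?_
    have h1 : X ^ (κ / 16) / (κ / 16) = 16 / κ * X ^ (κ / 16) := by field_simp
    rw [h1] at hlogX
    have h2 : (1 + 32 / κ) * X ^ (κ / 16) = X ^ (κ / 16) + 2 * (16 / κ * X ^ (κ / 16)) := by ring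
    rw [h2]
    linarith
  have hH4 : (∑ n ∈ Icc 1 M, 1 / (n : ℝ)) ^ 4 ≤ (1 + 32 / κ) ^ 4 * X ^ (κ / 4) := by
    calc (∑ n ∈ Icc 1 M, 1 / (n : ℝ)) ^ 4 ≤ ((1 + 32 / κ) * X ^ (κ / 16)) ^ 4 :=
          pow_le_pow_left₀ hH0 hH 4
      _ = (1 + 32 / κ) ^ 4 * X ^ (κ / 4) := by
          rw [mul_pow, ← Real.rpow_natCast (X ^ (κ / 16)) 4, ← Real.rpow_mul hX0.le]
          congr 2
          push_cast
          ring
  obtain ⟨B, hB⟩ : ∃ B : ℝ, B = C₁ * C₂ * (|C₀| * D * X ^ (κ / 2) / X) * Z := ⟨_, rfl⟩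
  have hB0 : 0 ≤ B := by rw [hB]; positivity
  have hmain : |quad (Wt c ρ₁ h X θ δ Y₁) (Wt c ρ₂ h X θ δ Y₂) r M E| ≤
      B * (∑ n ∈ Icc 1 M, 1 / (n : ℝ)) ^ 4 := by
    unfold quad
    refine qe_sum M B _ ?_
    intro n₁ hn₁ l₁ hl₁ n₂ hn₂ l₂ hl₂
    rw [Finset.mem_Icc] at hn₁ hl₁ hn₂ hl₂
    have p1 : (0 : ℝ) < n₁ := by exact_mod_cast hn₁.1
    have p2 : (0 : ℝ) < l₁ := by exact_mod_cast hl₁.1
    have p3 : (0 : ℝ) < n₂ := by exact_mod_cast hn₂.1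
    have p4 : (0 : ℝ) < l₂ := by exact_mod_cast hl₂.1
    have hR : 0 ≤ B * (1 / (n₁ : ℝ)) * (1 / (l₁ : ℝ)) * (1 / (n₂ : ℝ)) * (1 / (l₂ : ℝ)) := by
      positivity
    split_ifs with hcop
    swap
    · rw [abs_zero]; exact hR
    by_cases hz1 : X ^ (1 / 2 + (θ + 3 * δ)) < (l₁ : ℝ) * n₁
    · rw [hW₁'.supp₂ l₁ n₁ hz1]
      simpa using hR
    by_cases hz2 : X ^ (1 / 2 + (θ + 3 * δ)) < (l₂ : ℝ) * n₂
    · rw [hW₂'.supp₂ l₂ n₂ hz2]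
      simpa using hR
    rw [not_lt, ← hZ] at hz1 hz2
    obtain ⟨N, hN⟩ : ∃ N : ℕ, N = n₁ * l₁ * n₂ * l₂ := ⟨_, rfl⟩
    rw [← hN] at hcop ⊢
    have hNr : (N : ℝ) = (n₁ : ℝ) * l₁ * n₂ * l₂ := by rw [hN]; push_cast; ring
    have hN0 : (0 : ℝ) < N := by rw [hNr]; positivity
    have hN0' : 0 < N := by exact_mod_cast hN0
    have hNZ : (N : ℝ) ≤ Z ^ 2 := by
      calc (N : ℝ) = ((l₁ : ℝ) * n₁) * ((l₂ : ℝ) * n₂) := by rw [hNr]; ring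
        _ ≤ Z * Z := mul_le_mul hz1 hz2 (by positivity) hZ0.le
        _ = Z ^ 2 := by ring
    have hNodd : Odd N := by
      have h2 : Nat.Coprime N 2 := Nat.Coprime.coprime_dvd_right (dvd_mul_right 2 r) hcop
      exact Nat.coprime_two_right.mp h2
    have hEN : |E N| ≤ |C₀| * D * X ^ (κ / 2) / X := by
      refine (hE N hNodd).trans ?_
      rw [div_le_div_iff_of_pos_right hX0]
      have h1 : (N.divisors.card : ℝ) ≤ D * X ^ (κ / 2) := by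
        refine (hdiv N hN0').trans ?_
        refine mul_le_mul_of_nonneg_left ?_ hD.le
        have h3 : (N : ℝ) ≤ X ^ 2 := hNZ.trans (pow_le_pow_left₀ hZ0.le hZX 2)
        calc (N : ℝ) ^ (κ / 4) ≤ (X ^ 2) ^ (κ / 4) :=
              Real.rpow_le_rpow hN0.le h3 (by positivity)
          _ = X ^ (κ / 2) := by
              rw [← Real.rpow_natCast X 2, ← Real.rpow_mul hX0.le]
              congr 1
              push_cast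
              ring
      calc C₀ * (N.divisors.card : ℝ) ≤ |C₀| * (N.divisors.card : ℝ) :=
            mul_le_mul_of_nonneg_right (le_abs_self _) (by positivity)
        _ ≤ |C₀| * (D * X ^ (κ / 2)) := mul_le_mul_of_nonneg_left h1 (abs_nonneg _)
        _ = |C₀| * D * X ^ (κ / 2) := by ring
    have hsq : 1 / √(N : ℝ) ≤ Z / N := by
      rw [div_le_div_iff₀ (Real.sqrt_pos.mpr hN0) hN0, one_mul]
      have h1 : √(N : ℝ) ≤ Z := by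
        rw [show Z = √(Z ^ 2) by rw [Real.sqrt_sq hZ0.le]]
        exact Real.sqrt_le_sqrt hNZ
      calc (N : ℝ) = √(N : ℝ) * √(N : ℝ) := (Real.mul_self_sqrt hN0.le).symm
        _ ≤ Z * √(N : ℝ) := mul_le_mul_of_nonneg_right h1 (Real.sqrt_nonneg _)
    have hmu : ∀ l : ℕ, |(ArithmeticFunction.moebius l : ℝ)| ≤ 1 := by
      intro l
      have := ArithmeticFunction.abs_moebius_le_one (n := l)
      exact_mod_cast this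
    have e1 : |(ArithmeticFunction.moebius l₁ : ℝ) * (ArithmeticFunction.moebius l₂ : ℝ) *
        Wt c ρ₁ h X θ δ Y₁ l₁ n₁ * Wt c ρ₂ h X θ δ Y₂ l₂ n₂ / √(N : ℝ) * E N| =
        (|(ArithmeticFunction.moebius l₁ : ℝ)| * |(ArithmeticFunction.moebius l₂ : ℝ)|) *
        (|Wt c ρ₁ h X θ δ Y₁ l₁ n₁| * |Wt c ρ₂ h X θ δ Y₂ l₂ n₂|) * (1 / √(N : ℝ)) * |E N| := by
      rw [abs_mul, abs_div, abs_mul, abs_mul, abs_mul, abs_of_nonneg (Real.sqrt_nonneg _)]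
      ring
    rw [e1]
    have h1 : |(ArithmeticFunction.moebius l₁ : ℝ)| * |(ArithmeticFunction.moebius l₂ : ℝ)| ≤ 1 := by
      have := mul_le_mul (hmu l₁) (hmu l₂) (abs_nonneg _) zero_le_one
      simpa using this
    have h2 : |Wt c ρ₁ h X θ δ Y₁ l₁ n₁| * |Wt c ρ₂ h X θ δ Y₂ l₂ n₂| ≤ C₁ * C₂ :=
      mul_le_mul (hW₁'.bd l₁ n₁) (hW₂'.bd l₂ n₂) (abs_nonneg _) hC₁.le
    calc _ ≤ 1 * (C₁ * C₂) * (Z / N) * (|C₀| * D * X ^ (κ / 2) / X) := by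
          gcongr
      _ = B * (1 / (n₁ : ℝ)) * (1 / (l₁ : ℝ)) * (1 / (n₂ : ℝ)) * (1 / (l₂ : ℝ)) := by
          rw [hB, hNr]
          field_simp
  refine hmain.trans (le_trans ?_ hfin)
  calc B * (∑ n ∈ Icc 1 M, 1 / (n : ℝ)) ^ 4 ≤ B * ((1 + 32 / κ) ^ 4 * X ^ (κ / 4)) :=
        mul_le_mul_of_nonneg_left hH4 hB0
    _ = K * (X ^ (κ / 2) * X ^ (-1 : ℝ) * X ^ (1 - κ) * X ^ (κ / 4)) := by
        rw [hB, hK, hZ', Real.rpow_neg hX0.le, Real.rpow_one]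
        ring
    _ = K * X ^ (-(κ / 4)) := by
        rw [← Real.rpow_add hX0, ← Real.rpow_add hX0, ← Real.rpow_add hX0]
        congr 2
        ring

end Pool.Agent.MP0016c7.Rz
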