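import Mathlib
import Pool.Agent.Lib.MP_0016c7_nt.Rz.Defs
import Pool.Agent.Lib.MP_0016c7_nt.Rz.DefsC
import Pool.Agent.Lib.MP_0016c7_nt.Rz.DefsE
import Pool.Agent.Lib.MP_0016c7_nt.Rz.DefsF
import Pool.Agent.Lib.MP_0016c7_nt.Rz2.DefsG
import Pool.Agent.Lib.MP_0016c7_nt.Rz.Sm2

set_option autoImplicit false

/-!
The average of the truncated processes over a residue class.
-/

open Finset MeasureTheory Filter Topology
open scoped Real ContDiff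

namespace Pool.Agent.MP0016c7.Rz

private lemma tta_jr_mul (k : ℤ) (m n : ℕ) : jr k (m * n) = jr k m * jr k n := by
  unfold jr
  by_cases hm : Odd m
  · by_cases hn : Odd n
    · have hmn : Odd (m * n) := hm.mul hn
      have : NeZero m := ⟨hm.pos.ne'⟩
      have : NeZero n := ⟨hn.pos.ne'⟩
      rw [if_pos hm, if_pos hn, if_pos hmn, jacobiSym.mul_right]
      push_cast
      ring
    · have hmn : ¬ Odd (m * n) := fun h => hn (Nat.odd_mul.1 h).2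
      rw [if_neg hn, if_neg hmn, mul_zero]
  · have hmn : ¬ Odd (m * n) := fun h => hm (Nat.odd_mul.1 h).1
    rw [if_neg hm, if_neg hmn, zero_mul]

private lemma tta_jr_sq (σ : ℤ) (r d N : ℕ) :
    jr (2 * σ * ((2 * (r ^ 2 * d) : ℕ) : ℤ)) N =
      if Nat.Coprime N (2 * r) then jr (σ * d) N else 0 := by
  unfold jr
  by_cases hN : Odd N
  · have : NeZero N := ⟨hN.pos.ne'⟩
    rw [if_pos hN, if_pos hN]
    have e : (2 * σ * ((2 * (r ^ 2 * d) : ℕ) : ℤ)) = (((2 * r : ℕ) : ℤ) ^ 2) * (σ * d) := by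
      push_cast
      ring
    rw [e, jacobiSym.mul_left]
    by_cases hc2 : Nat.Coprime N (2 * r)
    · rw [if_pos hc2]
      have : (((2 * r : ℕ) : ℤ)).gcd (N : ℤ) = 1 := by
        rw [Int.gcd_natCast_natCast]
        exact hc2.symm
      rw [jacobiSym.sq_one' this]
      simp
    · rw [if_neg hc2]
      have : jacobiSym (((2 * r : ℕ) : ℤ) ^ 2) N = 0 := by
        rw [pow_two, jacobiSym.mul_left]
        have : jacobiSym ((2 * r : ℕ) : ℤ) N = 0 := by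
          rw [jacobiSym.eq_zero_iff_not_coprime, Int.gcd_natCast_natCast]
          intro h
          exact hc2 (Nat.Coprime.symm h)
        rw [this]
        simp
      rw [this]
      simp
  · rw [if_neg hN]
    by_cases hc2 : Nat.Coprime N (2 * r)
    · exact absurd ((Nat.coprime_two_right).1 (Nat.Coprime.coprime_mul_right_right hc2)) hN
    · rw [if_neg hc2]

private lemma tta_sum {F : ℝ → ℝ} {a b : ℝ} (hF : Bump F a b) {Y : ℝ} (hY : 0 < Y)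
    (P : ℕ → Prop) [DecidablePred P] (g : ℕ → ℝ) :
    Summable (fun d : ℕ => if P d then F (d / Y) * g d else 0) := by
  apply summable_of_ne_finset_zero (s := Finset.range (⌈b * Y⌉₊ + 1))
  intro d hd
  have hd' : ⌈b * Y⌉₊ + 1 ≤ d := by simpa using hd
  have h1 : b * Y ≤ (d : ℝ) := by
    calc b * Y ≤ (⌈b * Y⌉₊ : ℝ) := Nat.le_ceil _
      _ ≤ d := by exact_mod_cast (by omega : ⌈b * Y⌉₊ ≤ d)
  have h2 : F (d / Y) = 0 := by
    by_contra h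
    have := (hF.supp _ h).2
    rw [div_lt_iff₀ hY] at this
    linarith
  rw [h2]
  simp

open Classical in
theorem TT_averageR {F : ℝ → ℝ} {a b : ℝ} (ha : 0 < a) (hF : Bump F a b)
    (σ : ℤ) (hσ : σ = 1 ∨ σ = -1) {m c ε : ℤ} {κ : ℕ} (hf : Fam m c ε κ) (r : ℕ) (hr : Odd r)
    (c' : ℝ) (ρ₁ ρ₂ h : ℝ → ℝ) (X θ δ : ℝ) (hX : 1 ≤ X) (Y₁ Y₂ : ℝ) :
    m * r ^ 2 / X * ∑' d : ℕ, (if Rf m c σ d then F (d * r ^ 2 / X) *
          (TT c' σ ρ₁ h X θ δ (2 * (r ^ 2 * d)) Y₁ * TT c' σ ρ₂ h X θ δ (2 * (r ^ 2 * d)) Y₂)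
          else 0) =
    quad (Wt c' ρ₁ h X θ δ Y₁) (Wt c' ρ₂ h X θ δ Y₂) r ⌊X ^ 2⌋₊ (PR F m c σ (X / r ^ 2)) := by
  have hr0 : (0 : ℝ) < r := by exact_mod_cast hr.pos
  have hX0 : 0 < X := by linarith
  set Y : ℝ := X / r ^ 2 with hYdef
  have hY : 0 < Y := by positivity
  set M := ⌊X ^ 2⌋₊ with hM
  set W₁ := Wt c' ρ₁ h X θ δ Y₁ with hW₁
  set W₂ := Wt c' ρ₂ h X θ δ Y₂ with hW₂
  -- the coefficient
  set co : ℕ → ℕ → ℕ → ℕ → ℝ := fun n₁ l₁ n₂ l₂ =>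
    (ArithmeticFunction.moebius l₁ : ℝ) * (ArithmeticFunction.moebius l₂ : ℝ) *
        W₁ l₁ n₁ * W₂ l₂ n₂ / √((n₁ * l₁ * n₂ * l₂ : ℕ) : ℝ) with hco
  have hprod : ∀ d : ℕ, TT c' σ ρ₁ h X θ δ (2 * (r ^ 2 * d)) Y₁ *
      TT c' σ ρ₂ h X θ δ (2 * (r ^ 2 * d)) Y₂ =
      ∑ n₁ ∈ Icc 1 M, ∑ l₁ ∈ Icc 1 M, ∑ n₂ ∈ Icc 1 M, ∑ l₂ ∈ Icc 1 M,
        if Nat.Coprime (n₁ * l₁ * n₂ * l₂) (2 * r) then
          co n₁ l₁ n₂ l₂ * jr (σ * d) (n₁ * l₁ * n₂ * l₂) else 0 := by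
    intro d
    unfold TT
    rw [Finset.sum_mul]
    refine Finset.sum_congr rfl fun n₁ _ => ?_
    rw [Finset.sum_mul]
    refine Finset.sum_congr rfl fun l₁ _ => ?_
    rw [Finset.mul_sum]
    refine Finset.sum_congr rfl fun n₂ _ => ?_
    rw [Finset.mul_sum]
    refine Finset.sum_congr rfl fun l₂ _ => ?_
    have e1 : jr (2 * σ * ((2 * (r ^ 2 * d) : ℕ) : ℤ)) (n₁ * l₁) *
        jr (2 * σ * ((2 * (r ^ 2 * d) : ℕ) : ℤ)) (n₂ * l₂) =
        jr (2 * σ * ((2 * (r ^ 2 * d) : ℕ) : ℤ)) (n₁ * l₁ * n₂ * l₂) := by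
      rw [← tta_jr_mul]
      congr 1
      ring
    have e2 : √((n₁ * l₁ : ℕ) : ℝ) * √((n₂ * l₂ : ℕ) : ℝ) = √((n₁ * l₁ * n₂ * l₂ : ℕ) : ℝ) := by
      rw [← Real.sqrt_mul (by positivity)]
      congr 1
      push_cast
      ring
    have e3 : (ArithmeticFunction.moebius l₁ : ℝ) *
          jr (2 * σ * ((2 * (r ^ 2 * d) : ℕ) : ℤ)) (n₁ * l₁) /
          √((n₁ * l₁ : ℕ) : ℝ) * Wt c' ρ₁ h X θ δ Y₁ l₁ n₁ *
        ((ArithmeticFunction.moebius l₂ : ℝ) *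
          jr (2 * σ * ((2 * (r ^ 2 * d) : ℕ) : ℤ)) (n₂ * l₂) /
          √((n₂ * l₂ : ℕ) : ℝ) * Wt c' ρ₂ h X θ δ Y₂ l₂ n₂) =
        (ArithmeticFunction.moebius l₁ : ℝ) * (ArithmeticFunction.moebius l₂ : ℝ) *
        W₁ l₁ n₁ * W₂ l₂ n₂ / (√((n₁ * l₁ : ℕ) : ℝ) * √((n₂ * l₂ : ℕ) : ℝ)) *
        (jr (2 * σ * ((2 * (r ^ 2 * d) : ℕ) : ℤ)) (n₁ * l₁) *
          jr (2 * σ * ((2 * (r ^ 2 * d) : ℕ) : ℤ)) (n₂ * l₂)) := by
      rw [hW₁, hW₂]
      ring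
    rw [e3, e1, e2, tta_jr_sq σ r d _]
    by_cases hc : Nat.Coprime (n₁ * l₁ * n₂ * l₂) (2 * r)
    · rw [if_pos hc, if_pos hc]
    · rw [if_neg hc, if_neg hc, mul_zero]
  have hFY : ∀ d : ℕ, F ((d : ℝ) * r ^ 2 / X) = F (d / Y) := by
    intro d
    congr 1
    rw [hYdef]
    field_simp
  have hmain : ∑' d : ℕ, (if Rf m c σ d then F (d * r ^ 2 / X) *
          (TT c' σ ρ₁ h X θ δ (2 * (r ^ 2 * d)) Y₁ * TT c' σ ρ₂ h X θ δ (2 * (r ^ 2 * d)) Y₂)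
          else 0) =
      ∑ n₁ ∈ Icc 1 M, ∑ l₁ ∈ Icc 1 M, ∑ n₂ ∈ Icc 1 M, ∑ l₂ ∈ Icc 1 M,
        if Nat.Coprime (n₁ * l₁ * n₂ * l₂) (2 * r) then
          co n₁ l₁ n₂ l₂ * ∑' d : ℕ, (if Rf m c σ d then
            F (d / Y) * jr (σ * d) (n₁ * l₁ * n₂ * l₂) else 0)
        else 0 := by
    have h1 : ∀ d : ℕ, (if Rf m c σ d then F (d * r ^ 2 / X) *
          (TT c' σ ρ₁ h X θ δ (2 * (r ^ 2 * d)) Y₁ * TT c' σ ρ₂ h X θ δ (2 * (r ^ 2 * d)) Y₂)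
          else 0) =
        ∑ n₁ ∈ Icc 1 M, ∑ l₁ ∈ Icc 1 M, ∑ n₂ ∈ Icc 1 M, ∑ l₂ ∈ Icc 1 M,
          if Nat.Coprime (n₁ * l₁ * n₂ * l₂) (2 * r) then
          co n₁ l₁ n₂ l₂ * (if Rf m c σ d then
            F (d / Y) * jr (σ * d) (n₁ * l₁ * n₂ * l₂) else 0)
          else 0 := by
      intro d
      rw [hprod d, hFY d]
      by_cases hd : Rf m c σ d
      · rw [if_pos hd]
        simp only [if_pos hd, Finset.mul_sum]
        refine Finset.sum_congr rfl fun n₁ _ => Finset.sum_congr rfl fun l₁ _ =>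
          Finset.sum_congr rfl fun n₂ _ => Finset.sum_congr rfl fun l₂ _ => ?_
        by_cases hc : Nat.Coprime (n₁ * l₁ * n₂ * l₂) (2 * r)
        · rw [if_pos hc, if_pos hc]
          ring
        · rw [if_neg hc, if_neg hc, mul_zero]
      · rw [if_neg hd]
        simp only [if_neg hd, mul_zero, ite_self, Finset.sum_const_zero]
    simp_rw [h1]
    have hs : ∀ n₁ l₁ n₂ l₂ : ℕ, Summable (fun d : ℕ =>
        if Nat.Coprime (n₁ * l₁ * n₂ * l₂) (2 * r) then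
          co n₁ l₁ n₂ l₂ * (if Rf m c σ d then
            F (d / Y) * jr (σ * d) (n₁ * l₁ * n₂ * l₂) else 0)
          else 0) := by
      intro n₁ l₁ n₂ l₂
      by_cases hc : Nat.Coprime (n₁ * l₁ * n₂ * l₂) (2 * r)
      · simp only [if_pos hc]
        exact (tta_sum hF hY (Rf m c σ) (fun d => jr (σ * d) (n₁ * l₁ * n₂ * l₂))).mul_left _
      · simp only [if_neg hc]
        exact summable_zero
    rw [Summable.tsum_finsetSum (fun n₁ _ => summable_sum fun l₁ _ => summable_sum fun n₂ _ =>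
      summable_sum fun l₂ _ => hs n₁ l₁ n₂ l₂)]
    refine Finset.sum_congr rfl fun n₁ _ => ?_
    rw [Summable.tsum_finsetSum (fun l₁ _ => summable_sum fun n₂ _ =>
      summable_sum fun l₂ _ => hs n₁ l₁ n₂ l₂)]
    refine Finset.sum_congr rfl fun l₁ _ => ?_
    rw [Summable.tsum_finsetSum (fun n₂ _ => summable_sum fun l₂ _ => hs n₁ l₁ n₂ l₂)]
    refine Finset.sum_congr rfl fun n₂ _ => ?_
    rw [Summable.tsum_finsetSum (fun l₂ _ => hs n₁ l₁ n₂ l₂)]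
    refine Finset.sum_congr rfl fun l₂ _ => ?_
    by_cases hc : Nat.Coprime (n₁ * l₁ * n₂ * l₂) (2 * r)
    · simp only [if_pos hc]
      rw [tsum_mul_left]
    · simp only [if_neg hc]
      exact tsum_zero
  rw [hmain]
  unfold quad
  rw [Finset.mul_sum]
  refine Finset.sum_congr rfl fun n₁ _ => ?_
  rw [Finset.mul_sum]
  refine Finset.sum_congr rfl fun l₁ _ => ?_
  rw [Finset.mul_sum]
  refine Finset.sum_congr rfl fun n₂ _ => ?_
  rw [Finset.mul_sum]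
  refine Finset.sum_congr rfl fun l₂ _ => ?_
  by_cases hc : Nat.Coprime (n₁ * l₁ * n₂ * l₂) (2 * r)
  · rw [if_pos hc, if_pos hc]
    unfold PR
    have e : (m : ℝ) * r ^ 2 / X = m / Y := by
      rw [hYdef]
      field_simp
    rw [e]
    simp only [hco]
    ring
  · rw [if_neg hc, if_neg hc]
    simp

end Pool.Agent.MP0016c7.Rz
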