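import Mathlib
import Pool.Agent.Lib.MP_0016c7_nt.Rz.Defs
import Pool.Agent.Lib.MP_0016c7_nt.Rz.DefsC
import Pool.Agent.Lib.MP_0016c7_nt.Rz.DefsE
import Pool.Agent.Lib.MP_0016c7_nt.Rz.DefsF
import Pool.Agent.Lib.MP_0016c7_nt.Rz2.DefsG
import Pool.Agent.Lib.MP_0016c7_nt.Rz2.ErrGd0
import Pool.Agent.Lib.MP_0016c7_nt.Rz2.PRs
import Pool.Agent.Lib.MP_0016c7_nt.Rz2.BCG
import Pool.Agent.Lib.MP_0016c7_nt.Rz2.MGr
import Pool.Agent.Lib.MP_0016c7_nt.Rz2.QCC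
import Pool.Agent.Lib.MP_0016c7_nt.Rz2.TTavg
import Pool.Agent.Lib.MP_0016c7_nt.Rz2.QErr
import Pool.Agent.Lib.MP_0016c7_nt.Rz.Sm4

set_option autoImplicit false

/-!
The second moment over a residue class.
-/

open Finset MeasureTheory Filter Topology
open scoped Real ContDiff

namespace Pool.Agent.MP0016c7.Rz

private theorem smg_bump_bdd {F : ℝ → ℝ} {a b : ℝ} (hF : Bump F a b) :
    ∃ B : ℝ, 0 ≤ B ∧ ∀ t, |F t| ≤ B := by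
  obtain ⟨B, hB⟩ := (isCompact_Icc (a := a) (b := b)).exists_bound_of_continuousOn
    (f := F) hF.smooth.continuous.continuousOn
  refine ⟨|B|, abs_nonneg _, fun t => ?_⟩
  by_cases h : F t = 0
  · rw [h, abs_zero]; exact abs_nonneg _
  · have h1 := hF.supp t h
    have := hB t ⟨h1.1.le, h1.2.le⟩
    rw [Real.norm_eq_abs] at this
    exact this.trans (le_abs_self _)

open Classical in
/-- replacing the process by its truncation -/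
private theorem smg_replace {F : ℝ → ℝ} {a b B : ℝ} (hF : Bump F a b) (hB0 : 0 ≤ B)
    (hB : ∀ t, |F t| ≤ B) (P : ℕ → Prop) (k : ℝ) (hk : 0 ≤ k) (r : ℕ) (hr : 0 < r)
    (X η : ℝ) (hX : 1 ≤ X) (u v : ℕ → ℝ) (huv : ∀ d, |u d - v d| ≤ η) (hη : 0 ≤ η) :
    |k * (r : ℝ) ^ 2 / X * ∑' d : ℕ, (if P d then F (d * (r : ℝ) ^ 2 / X) * u d else 0) -
      k * (r : ℝ) ^ 2 / X * ∑' d : ℕ, (if P d then F (d * (r : ℝ) ^ 2 / X) * v d else 0)| ≤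
      k * (r : ℝ) ^ 2 * ((|b| + 2) * (B * η)) := by
  have hXpos : 0 < X := by linarith
  have hr2 : (1 : ℝ) ≤ (r : ℝ) ^ 2 := by
    have : (1 : ℝ) ≤ r := by exact_mod_cast hr
    nlinarith only [this]
  set D : ℕ := ⌈|b| * X⌉₊ with hD
  have hzero : ∀ (f : ℕ → ℝ) (d : ℕ), d ∉ range (D + 1) →
      (if P d then F (d * (r : ℝ) ^ 2 / X) * f d else 0) = 0 := by
    intro f d hd
    split_ifs
    · rw [mem_range, not_lt] at hd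
      have h1 : |b| * X ≤ d := by
        have h2 : (D : ℝ) ≤ d := by exact_mod_cast (by omega : D ≤ d)
        exact (Nat.le_ceil _).trans h2
      have h3 : F (d * (r : ℝ) ^ 2 / X) = 0 := by
        by_contra h
        have h4 := (hF.supp _ h).2
        rw [div_lt_iff₀ hXpos] at h4
        have h5 : b * X ≤ |b| * X := mul_le_mul_of_nonneg_right (le_abs_self b) hXpos.le
        have h6 : (d : ℝ) ≤ d * (r : ℝ) ^ 2 := le_mul_of_one_le_right (Nat.cast_nonneg _) hr2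
        linarith only [h1, h4, h5, h6]
      rw [h3, zero_mul]
    · rfl
  rw [tsum_eq_sum (s := range (D + 1)) (fun d hd => hzero u d hd),
    tsum_eq_sum (s := range (D + 1)) (fun d hd => hzero v d hd), ← mul_sub, ← sum_sub_distrib,
    abs_mul]
  have hc : |k * (r : ℝ) ^ 2 / X| = k * (r : ℝ) ^ 2 / X := abs_of_nonneg (by positivity)
  rw [hc]
  have hs : |∑ d ∈ range (D + 1), ((if P d then F (d * (r : ℝ) ^ 2 / X) * u d else 0) -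
      (if P d then F (d * (r : ℝ) ^ 2 / X) * v d else 0))| ≤ ((D : ℝ) + 1) * (B * η) := by
    refine (abs_sum_le_sum_abs _ _).trans ?_
    refine (sum_le_card_nsmul _ _ (B * η) ?_).trans ?_
    · intro d _
      split_ifs
      · rw [← mul_sub, abs_mul]
        exact mul_le_mul (hB _) (huv d) (abs_nonneg _) hB0
      · rw [sub_zero, abs_zero]; positivity
    · rw [card_range, nsmul_eq_mul]; push_cast; exact le_rfl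
  have hDle : (D : ℝ) + 1 ≤ (|b| + 2) * X := by
    have h1 : (D : ℝ) < |b| * X + 1 := Nat.ceil_lt_add_one (by positivity)
    nlinarith only [hX, h1]
  calc k * (r : ℝ) ^ 2 / X * |∑ d ∈ range (D + 1),
        ((if P d then F (d * (r : ℝ) ^ 2 / X) * u d else 0) -
        (if P d then F (d * (r : ℝ) ^ 2 / X) * v d else 0))|
      ≤ k * (r : ℝ) ^ 2 / X * (((D : ℝ) + 1) * (B * η)) :=
        mul_le_mul_of_nonneg_left hs (by positivity)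
    _ ≤ k * (r : ℝ) ^ 2 / X * (((|b| + 2) * X) * (B * η)) := by
        refine mul_le_mul_of_nonneg_left ?_ (by positivity)
        exact mul_le_mul_of_nonneg_right hDle (by positivity)
    _ = k * (r : ℝ) ^ 2 * ((|b| + 2) * (B * η)) := by
        field_simp

private theorem smg_quad_add (W₁ W₂ : ℕ → ℕ → ℝ) (r M : ℕ) (f g : ℕ → ℝ) :
    quad W₁ W₂ r M (fun N => f N + g N) = quad W₁ W₂ r M f + quad W₁ W₂ r M g := by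
  unfold quad
  simp only [← sum_add_distrib]
  refine sum_congr rfl fun n₁ _ => sum_congr rfl fun l₁ _ => sum_congr rfl fun n₂ _ =>
    sum_congr rfl fun l₂ _ => ?_
  split_ifs
  · ring
  · rw [add_zero]

private theorem smg_fam {m c ε : ℤ} {κ : ℕ} (hf : Fam m c ε κ) :
    (ε = 0 ∨ ε = 1 ∨ ε = -1) ∧ (0 : ℝ) ≤ (m : ℝ) := by
  rcases hf with ⟨h1, -, h2, -⟩ | ⟨h1, -, h2, -⟩ | ⟨h1, -, h2, -⟩
  · exact ⟨Or.inl h2, by rw [h1]; norm_num⟩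
  · exact ⟨Or.inr (Or.inl h2), by rw [h1]; norm_num⟩
  · exact ⟨Or.inr (Or.inr h2), by rw [h1]; norm_num⟩

open Classical in
theorem second_momentG {θ δ : ℝ} (hδ : 0 < δ) (hδ4 : δ ≤ 1 / 4) (hθ : 0 < θ)
    (hθ1 : θ + 3 * δ < 1 / 2) (hE : ErrG θ δ) {F : ℝ → ℝ} {a b : ℝ} (ha : 0 < a) (hF : Bump F a b)
    (hF0 : 0 < ∫ t, F t) (σ : ℤ) (hσ : σ = 1 ∨ σ = -1) {m c ε : ℤ} {κ : ℕ} (hf : Fam m c ε κ)
    (r : ℕ) (hr : Odd r) (c' : ℝ) (hc' : c' = 0 ∨ c' = 1) {ρ₁ ρ₂ h : ℝ → ℝ}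
    (hρ₁ : Bump ρ₁ (-(δ / 2)) (δ / 2)) (hρ₂ : Bump ρ₂ (-(δ / 2)) (δ / 2)) (hh : Bump h 0 θ)
    (ε' : ℝ) (hε' : 0 < ε') :
    ∃ X₀ : ℝ, ∀ X : ℝ, X₀ ≤ X → ∀ Y₁ ∈ Set.Icc (-1 : ℝ) (1 / 2 + δ),
      ∀ Y₂ ∈ Set.Icc (-1 : ℝ) (1 / 2 + δ),
      |m * r ^ 2 / X * ∑' d : ℕ, (if Rf m c σ d then F (d * r ^ 2 / X) *
          (ytil c' σ ρ₁ h X (2 * (r ^ 2 * d)) Y₁ * ytil c' σ ρ₂ h X (2 * (r ^ 2 * d)) Y₂) else 0) -
        (∫ t, F t) * CC ρ₁ ρ₂ h Y₁ Y₂| ≤ ε' := by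
  obtain ⟨hεc, hm0⟩ := smg_fam hf
  obtain ⟨B, hB0, hB⟩ := smg_bump_bdd hF
  obtain ⟨X₁, hX₁⟩ := ytil_trunc hδ hθ hθ1 hρ₁ hh c' hc' σ
  obtain ⟨X₂, hX₂⟩ := ytil_trunc hδ hθ hθ1 hρ₂ hh c' hc' σ
  obtain ⟨c₁, c₂, c₃, C, hC0, hc₁, hc₂, hc₃, hsplit⟩ := PR_split ha hF hF0 σ hσ hf
  obtain ⟨CM, hCM⟩ := abs_MG_le ha hF hF0 σ ε hεc
  have hr1 : (1 : ℝ) ≤ r := by exact_mod_cast hr.pos
  have hr2 : (1 : ℝ) ≤ (r : ℝ) ^ 2 := one_le_pow₀ hr1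
  have hr0 : (0 : ℝ) < (r : ℝ) ^ 2 := by linarith
  have hC₀ : (0 : ℝ) < 4 * (r : ℝ) ^ 2 := by positivity
  obtain ⟨X₃, hX₃⟩ := quad_CCg (BC_bG ha hF hF0 σ ε hεc) (∫ t, F t) hδ hδ4 hθ hθ1 r hr c' hc'
    hρ₁ hρ₂ hh CM (ε' / 8) (by linarith)
  obtain ⟨X₄, hX₄⟩ := hE F a b ha hF σ hσ r hr c' hc' ρ₁ ρ₂ h hρ₁ hρ₂ hh (4 * (r : ℝ) ^ 2) hC₀
    (ε' / 8) (by linarith only [hε'])
  obtain ⟨X₅, hX₅⟩ := quad_err hδ hθ hθ1 r hr c' hc' hρ₁ hρ₂ hh (C * (r : ℝ) ^ 2) (ε' / 8)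
    (by linarith)
  set A := (m : ℝ) * (r : ℝ) ^ 2 * ((|b| + 2) * (B * 2)) with hA
  have hA0 : 0 ≤ A := by (clear * - hm0 hr1 hB0; positivity)
  refine ⟨max (max (max X₁ X₂) (max X₃ X₄)) (max X₅ (max ((r : ℝ) ^ 2) ((A * 8 + 1) / ε'))), ?_⟩
  intro X hX Y₁ hY₁ Y₂ hY₂
  have hXa : X₁ ≤ X := le_trans (le_trans (le_trans (le_max_left _ _) (le_max_left _ _))
    (le_max_left _ _)) hX
  have hXb : X₂ ≤ X := le_trans (le_trans (le_trans (le_max_right _ _) (le_max_left _ _))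
    (le_max_left _ _)) hX
  have hXc : X₃ ≤ X := le_trans (le_trans (le_trans (le_max_left _ _) (le_max_right _ _))
    (le_max_left _ _)) hX
  have hXd : X₄ ≤ X := le_trans (le_trans (le_trans (le_max_right _ _) (le_max_right _ _))
    (le_max_left _ _)) hX
  have hXe : X₅ ≤ X := le_trans (le_trans (le_max_left _ _) (le_max_right _ _)) hX
  have hXr : (r : ℝ) ^ 2 ≤ X := le_trans (le_trans (le_trans (le_max_left _ _) (le_max_right _ _))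
    (le_max_right _ _)) hX
  have hX1 : 1 ≤ X := hr2.trans hXr
  have hXf : (A * 8 + 1) / ε' ≤ X := le_trans (le_trans (le_trans (le_max_right _ _)
    (le_max_right _ _)) (le_max_right _ _)) hX
  have hXpos : 0 < X := by linarith
  -- step 1: truncation
  have hprod : X ^ 20 * X ^ (-30 : ℝ) ≤ 1 / X := by
    rw [← Real.rpow_natCast X 20, ← Real.rpow_add hXpos]
    have : (1 : ℝ) / X = X ^ (-1 : ℝ) := by rw [Real.rpow_neg_one, one_div]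
    rw [this]
    exact Real.rpow_le_rpow_of_exponent_le hX1 (by norm_num)
  have huv : ∀ d : ℕ, |ytil c' σ ρ₁ h X (2 * (r ^ 2 * d)) Y₁ * ytil c' σ ρ₂ h X (2 * (r ^ 2 * d)) Y₂ -
      TT c' σ ρ₁ h X θ δ (2 * (r ^ 2 * d)) Y₁ * TT c' σ ρ₂ h X θ δ (2 * (r ^ 2 * d)) Y₂| ≤
        2 / X := by
    intro d
    obtain ⟨p1, p2, p3⟩ := hX₁ X hXa Y₁ hY₁ (2 * (r ^ 2 * d))
    obtain ⟨q1, q2, q3⟩ := hX₂ X hXb Y₂ hY₂ (2 * (r ^ 2 * d))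
    have e : ytil c' σ ρ₁ h X (2 * (r ^ 2 * d)) Y₁ * ytil c' σ ρ₂ h X (2 * (r ^ 2 * d)) Y₂ -
      TT c' σ ρ₁ h X θ δ (2 * (r ^ 2 * d)) Y₁ * TT c' σ ρ₂ h X θ δ (2 * (r ^ 2 * d)) Y₂ =
      ytil c' σ ρ₁ h X (2 * (r ^ 2 * d)) Y₁ *
        (ytil c' σ ρ₂ h X (2 * (r ^ 2 * d)) Y₂ - TT c' σ ρ₂ h X θ δ (2 * (r ^ 2 * d)) Y₂) +
      TT c' σ ρ₂ h X θ δ (2 * (r ^ 2 * d)) Y₂ *
        (ytil c' σ ρ₁ h X (2 * (r ^ 2 * d)) Y₁ - TT c' σ ρ₁ h X θ δ (2 * (r ^ 2 * d)) Y₁) := by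
      ring
    rw [e]
    refine (abs_add_le _ _).trans ?_
    rw [abs_mul, abs_mul]
    have h1 := (mul_le_mul p1 q3 (abs_nonneg _) (by positivity)).trans hprod
    have h2 := (mul_le_mul q2 p3 (abs_nonneg _) (by positivity)).trans hprod
    calc _ ≤ 1 / X + 1 / X := add_le_add h1 h2
      _ = 2 / X := by ring
  have s1 := smg_replace hF hB0 hB (Rf m c σ) (m : ℝ) hm0 r hr.pos X (2 / X) hX1
    (fun d => ytil c' σ ρ₁ h X (2 * (r ^ 2 * d)) Y₁ * ytil c' σ ρ₂ h X (2 * (r ^ 2 * d)) Y₂)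
    (fun d => TT c' σ ρ₁ h X θ δ (2 * (r ^ 2 * d)) Y₁ * TT c' σ ρ₂ h X θ δ (2 * (r ^ 2 * d)) Y₂)
    huv (by positivity)
  have s1' : (m : ℝ) * (r : ℝ) ^ 2 * ((|b| + 2) * (B * (2 / X))) ≤ ε' / 8 := by
    have e : (m : ℝ) * (r : ℝ) ^ 2 * ((|b| + 2) * (B * (2 / X))) = A / X := by rw [hA]; ring
    rw [e, div_le_iff₀ hXpos]
    rw [div_le_iff₀ hε'] at hXf
    linarith only [hδ, hθ, hθ1, hXf]
  have s2 := TT_averageR ha hF σ hσ hf r hr c' ρ₁ ρ₂ h X θ δ hX1 Y₁ Y₂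
  -- step 2: the splitting
  set Y : ℝ := X / (r : ℝ) ^ 2 with hYdef
  have hY1 : 1 ≤ Y := by rw [hYdef, le_div_iff₀ hr0, one_mul]; exact hXr
  have hY0 : 0 < Y := by linarith only [hδ, hθ, hθ1, hY1]
  set W₁ := Wt c' ρ₁ h X θ δ Y₁ with hW₁
  set W₂ := Wt c' ρ₂ h X θ δ Y₂ with hW₂
  set E : ℕ → ℝ := fun N => PR F m c σ Y N - (MG F σ ε Y N + NSc F σ c₁ (Y / 4) N +
    NSc F σ c₂ (Y / 2) N + NSc F σ c₃ (2 * Y) N) with hEdef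
  have hdec : quad W₁ W₂ r ⌊X ^ 2⌋₊ (PR F m c σ Y) =
      quad W₁ W₂ r ⌊X ^ 2⌋₊ (MG F σ ε Y) + quad W₁ W₂ r ⌊X ^ 2⌋₊ (NSc F σ c₁ (Y / 4)) +
      quad W₁ W₂ r ⌊X ^ 2⌋₊ (NSc F σ c₂ (Y / 2)) + quad W₁ W₂ r ⌊X ^ 2⌋₊ (NSc F σ c₃ (2 * Y)) +
      quad W₁ W₂ r ⌊X ^ 2⌋₊ E := by
    rw [← smg_quad_add, ← smg_quad_add, ← smg_quad_add, ← smg_quad_add]
    congr 1
    funext N
    rw [hEdef]
    ring
  have t1 := hX₃ X hXc (MG F σ ε Y) (MG_repr ha hF hF0 σ ε hεc Y hY0)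
    (fun N hN => hCM N hN Y hY0) Y₁ hY₁ Y₂ hY₂
  have hlow : X / (4 * (r : ℝ) ^ 2) = Y / 4 := by rw [hYdef]; field_simp
  have hup : Y ≤ X := div_le_self hXpos.le hr2
  have hup2 : 4 * X ≤ 4 * (r : ℝ) ^ 2 * X := by nlinarith only [hr2, hδ, hθ, hθ1, hXr]
  have t2 := hX₄ X hXd Y₁ hY₁ Y₂ hY₂ c₁ hc₁ (Y / 4) (by rw [hlow]) (by linarith only [hδ, hθ, hθ1, hr2, hXr, hup, hup2])
  have t3 := hX₄ X hXd Y₁ hY₁ Y₂ hY₂ c₂ hc₂ (Y / 2) (by rw [hlow]; linarith only [hδ, hθ, hθ1, hY1]) (by linarith only [hδ, hθ, hθ1, hr2, hXr, hup, hup2])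
  have t4 := hX₄ X hXd Y₁ hY₁ Y₂ hY₂ c₃ hc₃ (2 * Y) (by rw [hlow]; linarith only [hδ, hθ, hθ1, hY1]) (by linarith only [hδ, hθ, hθ1, hr2, hXr, hup, hup2])
  have t5 := hX₅ X hXe E (fun N hN => by
    have h1 := hsplit N hN Y hY1
    have h2 : C * (N.divisors.card : ℝ) / Y = C * (r : ℝ) ^ 2 * (N.divisors.card : ℝ) / X := by
      rw [hYdef, div_div_eq_mul_div, mul_right_comm]
    rw [h2] at h1
    exact h1) Y₁ hY₁ Y₂ hY₂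
  rw [← hW₁, ← hW₂] at t1 t2 t3 t4 t5
  rw [s2, hdec] at s1
  have s3 := s1.trans s1'
  rw [abs_le] at s3 t1 t2 t3 t4 t5 ⊢
  constructor <;> linarith only [hε', t1, t2, t3, t4, t5, s3, s3.1, s3.2, t1.1, t1.2, t2.1, t2.2, t3.1, t3.2, t4.1, t4.2, t5.1,
    t5.2]

end Pool.Agent.MP0016c7.Rz
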