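import Mathlib
import Pool.Agent.Lib.MP_0016c7_nt.Rz.Defs
import Pool.Agent.Lib.MP_0016c7_nt.Rz.DefsC
import Pool.Agent.Lib.MP_0016c7_nt.Rz.DefsE
import Pool.Agent.Lib.MP_0016c7_nt.Rz.DefsF
import Pool.Agent.Lib.MP_0016c7_nt.Rz2.DefsG
import Pool.Agent.Lib.MP_0016c7_nt.Rz2.SmG
import Pool.Agent.Lib.MP_0016c7_nt.Rz2.YS1

set_option autoImplicit false

/-!
The second moment of the process of a family.
-/

open Finset MeasureTheory Filter Topology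
open scoped Real ContDiff

namespace Pool.Agent.MP0016c7.Rz

private lemma sms_CC_int {ρ₁ ρ₂ h : ℝ → ℝ} {a₁ b₁ a₂ b₂ θ : ℝ} (hρ₁ : Bump ρ₁ a₁ b₁)
    (hρ₂ : Bump ρ₂ a₂ b₂) (hh : Bump h 0 θ) (J Y₁ Y₂ : ℝ) :
    Integrable (fun p : ℝ × ℝ => ρ₁ p.1 * ρ₂ p.2 * (HH h (p.1 - Y₁) * HH h (p.2 - Y₂) +
      J * (max (min (Y₁ - p.1) (Y₂ - p.2)) 0 - max (Y₁ - p.1 + (Y₂ - p.2) - 1) 0))) := by
  have hc := K1x.HH_cont hh
  have c1 := hρ₁.smooth.continuous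
  have c2 := hρ₂.smooth.continuous
  refine Continuous.integrable_of_hasCompactSupport (by fun_prop) ?_
  refine HasCompactSupport.intro (isCompact_Icc (a := (a₁, a₂)) (b := (b₁, b₂))) fun p hp => ?_
  by_contra hne
  apply hp
  have h1 : ρ₁ p.1 ≠ 0 := fun e => hne (by simp [e])
  have h2 : ρ₂ p.2 ≠ 0 := fun e => hne (by simp [e])
  exact ⟨⟨(hρ₁.supp _ h1).1.le, (hρ₂.supp _ h2).1.le⟩,
    ⟨(hρ₁.supp _ h1).2.le, (hρ₂.supp _ h2).2.le⟩⟩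

private lemma sms_CC_lip {ρ₁ ρ₂ h : ℝ → ℝ} {a₁ b₁ a₂ b₂ θ : ℝ} (hρ₁ : Bump ρ₁ a₁ b₁)
    (hρ₂ : Bump ρ₂ a₂ b₂) (hh : Bump h 0 θ) : ∃ C : ℝ, 0 < C ∧ ∀ Y₁ Y₂ Z₁ Z₂ : ℝ,
      |CC ρ₁ ρ₂ h Y₁ Y₂ - CC ρ₁ ρ₂ h Z₁ Z₂| ≤ C * (|Y₁ - Z₁| + |Y₂ - Z₂|) := by
  obtain ⟨S, hS0, hS⟩ := K1x.bump_bd hh
  set H := ∫ t, |h t| with hH
  set J := ∫ t : ℝ, h t ^ 2 with hJ
  have hJ0 : 0 ≤ J := integral_nonneg fun t => sq_nonneg _
  have hH0 : 0 ≤ H := integral_nonneg fun t => abs_nonneg _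
  set R₁ := ∫ t, |ρ₁ t| with hR₁
  set R₂ := ∫ t, |ρ₂ t| with hR₂
  have hR10 : 0 ≤ R₁ := integral_nonneg fun t => abs_nonneg _
  have hR20 : 0 ≤ R₂ := integral_nonneg fun t => abs_nonneg _
  set K := H * S + 2 * J with hK
  have hK0 : 0 ≤ K := by (clear * - hS0; positivity)
  refine ⟨R₁ * R₂ * K + 1, by (clear * - hS0; positivity), fun Y₁ Y₂ Z₁ Z₂ => ?_⟩
  have e : ∀ Y₁ Y₂ : ℝ, CC ρ₁ ρ₂ h Y₁ Y₂ = ∫ p : ℝ × ℝ, ρ₁ p.1 * ρ₂ p.2 *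
      (HH h (p.1 - Y₁) * HH h (p.2 - Y₂) +
      J * (max (min (Y₁ - p.1) (Y₂ - p.2)) 0 - max (Y₁ - p.1 + (Y₂ - p.2) - 1) 0)) := by
    intro Y₁ Y₂
    have h1 := sms_CC_int hρ₁ hρ₂ hh J Y₁ Y₂
    rw [Measure.volume_eq_prod] at h1 ⊢
    rw [integral_prod _ h1]
    rfl
  rw [e, e, ← integral_sub (sms_CC_int hρ₁ hρ₂ hh J Y₁ Y₂) (sms_CC_int hρ₁ hρ₂ hh J Z₁ Z₂)]
  set D := |Y₁ - Z₁| + |Y₂ - Z₂| with hD
  have hD0 : 0 ≤ D := by (clear * -; positivity)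
  have hp : ∀ p : ℝ × ℝ, ‖ρ₁ p.1 * ρ₂ p.2 * (HH h (p.1 - Y₁) * HH h (p.2 - Y₂) +
      J * (max (min (Y₁ - p.1) (Y₂ - p.2)) 0 - max (Y₁ - p.1 + (Y₂ - p.2) - 1) 0)) -
      ρ₁ p.1 * ρ₂ p.2 * (HH h (p.1 - Z₁) * HH h (p.2 - Z₂) +
      J * (max (min (Z₁ - p.1) (Z₂ - p.2)) 0 - max (Z₁ - p.1 + (Z₂ - p.2) - 1) 0))‖ ≤
      |ρ₁ p.1| * |ρ₂ p.2| * (K * D) := by
    intro p
    rw [← mul_sub, norm_mul, norm_mul, Real.norm_eq_abs, Real.norm_eq_abs, Real.norm_eq_abs]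
    refine mul_le_mul_of_nonneg_left ?_ (by (clear * -; positivity))
    have h1 : |HH h (p.1 - Y₁) * HH h (p.2 - Y₂) - HH h (p.1 - Z₁) * HH h (p.2 - Z₂)| ≤
        H * S * D := by
      have a1 := K1x.HH_abs hh (p.1 - Y₁)
      have a2 := K1x.HH_abs hh (p.2 - Z₂)
      have a3 := K1x.HH_lip hh hS (p.2 - Y₂) (p.2 - Z₂)
      have a4 := K1x.HH_lip hh hS (p.1 - Y₁) (p.1 - Z₁)
      rw [show p.2 - Y₂ - (p.2 - Z₂) = -(Y₂ - Z₂) by ring, abs_neg] at a3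
      rw [show p.1 - Y₁ - (p.1 - Z₁) = -(Y₁ - Z₁) by ring, abs_neg] at a4
      rw [show HH h (p.1 - Y₁) * HH h (p.2 - Y₂) - HH h (p.1 - Z₁) * HH h (p.2 - Z₂) =
        HH h (p.1 - Y₁) * (HH h (p.2 - Y₂) - HH h (p.2 - Z₂)) +
        (HH h (p.1 - Y₁) - HH h (p.1 - Z₁)) * HH h (p.2 - Z₂) by ring]
      refine (abs_add_le _ _).trans ?_
      rw [abs_mul, abs_mul]
      calc |HH h (p.1 - Y₁)| * |HH h (p.2 - Y₂) - HH h (p.2 - Z₂)| +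
          |HH h (p.1 - Y₁) - HH h (p.1 - Z₁)| * |HH h (p.2 - Z₂)| ≤
          H * (S * |Y₂ - Z₂|) + (S * |Y₁ - Z₁|) * H :=
            add_le_add (mul_le_mul a1 a3 (abs_nonneg _) hH0)
              (mul_le_mul a4 a2 (abs_nonneg _) (by (clear * - hS0; positivity)))
        _ = H * S * D := by rw [hD]; ring
    have h2 : |max (min (Y₁ - p.1) (Y₂ - p.2)) 0 - max (min (Z₁ - p.1) (Z₂ - p.2)) 0| ≤ D := by
      refine (abs_max_sub_max_le_abs _ _ _).trans ((abs_min_sub_min_le_max _ _ _ _).trans ?_)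
      rw [show Y₁ - p.1 - (Z₁ - p.1) = Y₁ - Z₁ by ring, show Y₂ - p.2 - (Z₂ - p.2) = Y₂ - Z₂ by ring]
      exact max_le (by rw [hD]; linarith [abs_nonneg (Y₂ - Z₂)])
        (by rw [hD]; linarith [abs_nonneg (Y₁ - Z₁)])
    have h3 : |max (Y₁ - p.1 + (Y₂ - p.2) - 1) 0 - max (Z₁ - p.1 + (Z₂ - p.2) - 1) 0| ≤ D := by
      refine (abs_max_sub_max_le_abs _ _ _).trans ?_
      rw [show Y₁ - p.1 + (Y₂ - p.2) - 1 - (Z₁ - p.1 + (Z₂ - p.2) - 1) = (Y₁ - Z₁) + (Y₂ - Z₂) by ring]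
      exact abs_add_le _ _
    rw [abs_le] at h1 h2 h3 ⊢
    have h4 : J * (max (min (Y₁ - p.1) (Y₂ - p.2)) 0 - max (Y₁ - p.1 + (Y₂ - p.2) - 1) 0 -
        (max (min (Z₁ - p.1) (Z₂ - p.2)) 0 - max (Z₁ - p.1 + (Z₂ - p.2) - 1) 0)) ≤ J * (2 * D) :=
      mul_le_mul_of_nonneg_left (by linarith [h2.2, h3.1]) hJ0
    have h5 : J * (-(2 * D)) ≤ J * (max (min (Y₁ - p.1) (Y₂ - p.2)) 0 -
        max (Y₁ - p.1 + (Y₂ - p.2) - 1) 0 -
        (max (min (Z₁ - p.1) (Z₂ - p.2)) 0 - max (Z₁ - p.1 + (Z₂ - p.2) - 1) 0)) :=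
      mul_le_mul_of_nonneg_left (by linarith [h2.1, h3.2]) hJ0
    rw [hK]
    constructor <;> linarith [h1.1, h1.2]
  have hi : Integrable (fun p : ℝ × ℝ => |ρ₁ p.1| * |ρ₂ p.2| * (K * D)) := by
    have := (K1x.bump_int hρ₁).abs.mul_prod (K1x.bump_int hρ₂).abs
    exact this.mul_const _
  have h6 := norm_integral_le_of_norm_le hi (Filter.Eventually.of_forall hp)
  rw [Real.norm_eq_abs] at h6
  refine h6.trans ?_
  rw [integral_mul_const, Measure.volume_eq_prod,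
    integral_prod_mul (fun x => |ρ₁ x|) (fun y => |ρ₂ y|), ← hR₁, ← hR₂]
  nlinarith only [hD0]

private lemma sms_double {q e : ℝ} (hq0 : 0 < q) (hq1 : q < 1) (he : |e| ≤ q) (N : ℕ)
    (P T ε₁ M : ℝ) (W : ℕ → ℝ) (y₁ y₂ : ℕ → ℕ → ℝ) (h1 : ∀ d, Summable fun j => e ^ j * y₁ d j)
    (h2 : ∀ d, Summable fun j => e ^ j * y₂ d j)
    (hb : ∀ j₁ j₂ : ℕ, |P * ∑ d ∈ range N, W d * (y₁ d j₁ * y₂ d j₂) - T| ≤
      ε₁ + M * ((j₁ : ℝ) + j₂)) :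
    |P * ∑ d ∈ range N, W d * (((1 - e) * ∑' j, e ^ j * y₁ d j) *
      ((1 - e) * ∑' j, e ^ j * y₂ d j)) - T| ≤
      (1 - e) ^ 2 * (ε₁ * ((1 - q)⁻¹ * (1 - q)⁻¹) + M * (2 * ((q / (1 - q) ^ 2) * (1 - q)⁻¹))) := by
  have he1 : |e| < 1 := he.trans_lt hq1
  have he2 : 1 - e ≠ 0 := by
    have := (abs_lt.1 he1).2
    linarith
  have g0 : HasSum (fun j : ℕ => e ^ j) (1 - e)⁻¹ :=
    hasSum_geometric_of_norm_lt_one (by rwa [Real.norm_eq_abs])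
  have gq : HasSum (fun j : ℕ => q ^ j) (1 - q)⁻¹ := hasSum_geometric_of_lt_one hq0.le hq1
  have gq1 : HasSum (fun j : ℕ => (j : ℝ) * q ^ j) (q / (1 - q) ^ 2) :=
    hasSum_coe_mul_geometric_of_norm_lt_one (by rwa [Real.norm_of_nonneg hq0.le])
  have hs1 : ∀ d, HasSum (fun p : ℕ × ℕ => (e ^ p.1 * y₁ d p.1) * (e ^ p.2 * y₂ d p.2))
      ((∑' j, e ^ j * y₁ d j) * ∑' j, e ^ j * y₂ d j) := fun d =>
    HasSum.mul (f := fun j => e ^ j * y₁ d j) (g := fun j => e ^ j * y₂ d j) (h1 d).hasSum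
      (h2 d).hasSum (summable_mul_of_summable_norm (f := fun j => e ^ j * y₁ d j)
        (g := fun j => e ^ j * y₂ d j) (h1 d).norm (h2 d).norm)
  have hs2 : HasSum (fun p : ℕ × ℕ => ∑ d ∈ range N, P * (W d * ((1 - e) ^ 2 *
      ((e ^ p.1 * y₁ d p.1) * (e ^ p.2 * y₂ d p.2)))))
      (∑ d ∈ range N, P * (W d * ((1 - e) ^ 2 *
        ((∑' j, e ^ j * y₁ d j) * ∑' j, e ^ j * y₂ d j)))) :=
    hasSum_sum fun d _ => (((hs1 d).mul_left _).mul_left _).mul_left _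
  have hs3 : HasSum (fun p : ℕ × ℕ => (1 - e) ^ 2 * T * (e ^ p.1 * e ^ p.2))
      ((1 - e) ^ 2 * T * ((1 - e)⁻¹ * (1 - e)⁻¹)) :=
    (g0.mul g0 (summable_mul_of_summable_norm g0.summable.norm g0.summable.norm)).mul_left _
  have hs4 := hs2.sub hs3
  have p1 : HasSum (fun p : ℕ × ℕ => q ^ p.1 * q ^ p.2) ((1 - q)⁻¹ * (1 - q)⁻¹) :=
    gq.mul gq (summable_mul_of_summable_norm gq.summable.norm gq.summable.norm)
  have p2 : HasSum (fun p : ℕ × ℕ => (p.1 : ℝ) * q ^ p.1 * q ^ p.2)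
      ((q / (1 - q) ^ 2) * (1 - q)⁻¹) :=
    HasSum.mul (f := fun j : ℕ => (j : ℝ) * q ^ j) (g := fun j : ℕ => q ^ j) gq1 gq
      (summable_mul_of_summable_norm (f := fun j : ℕ => (j : ℝ) * q ^ j)
        (g := fun j : ℕ => q ^ j) gq1.summable.norm gq.summable.norm)
  have p3 : HasSum (fun p : ℕ × ℕ => q ^ p.1 * ((p.2 : ℝ) * q ^ p.2))
      ((1 - q)⁻¹ * (q / (1 - q) ^ 2)) :=
    HasSum.mul (f := fun j : ℕ => q ^ j) (g := fun j : ℕ => (j : ℝ) * q ^ j) gq gq1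
      (summable_mul_of_summable_norm (f := fun j : ℕ => q ^ j)
        (g := fun j : ℕ => (j : ℝ) * q ^ j) gq.summable.norm gq1.summable.norm)
  have hb4 := ((p1.mul_left ε₁).add ((p2.add p3).mul_left M)).mul_left ((1 - e) ^ 2)
  have h5 := hs4.norm_le_of_bounded hb4 (fun p => by
    have e1 : (∑ d ∈ range N, P * (W d * ((1 - e) ^ 2 *
      ((e ^ p.1 * y₁ d p.1) * (e ^ p.2 * y₂ d p.2))))) - (1 - e) ^ 2 * T * (e ^ p.1 * e ^ p.2) =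
      (1 - e) ^ 2 * ((e ^ p.1 * e ^ p.2) *
        (P * ∑ d ∈ range N, W d * (y₁ d p.1 * y₂ d p.2) - T)) := by
      rw [mul_sub, mul_sub, Finset.mul_sum, Finset.mul_sum, Finset.mul_sum]
      congr 1
      · exact Finset.sum_congr rfl fun d _ => by ring
      · ring
    rw [e1, norm_mul, norm_mul, norm_mul, norm_pow, norm_pow, norm_pow, Real.norm_eq_abs,
      Real.norm_eq_abs, Real.norm_eq_abs, sq_abs]
    refine mul_le_mul_of_nonneg_left ?_ (sq_nonneg _)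
    have h6 := hb p.1 p.2
    have h7 : |e| ^ p.1 * |e| ^ p.2 ≤ q ^ p.1 * q ^ p.2 := by (clear * - he hq0; gcongr)
    calc |e| ^ p.1 * |e| ^ p.2 * |P * ∑ d ∈ range N, W d * (y₁ d p.1 * y₂ d p.2) - T| ≤
        q ^ p.1 * q ^ p.2 * (ε₁ + M * ((p.1 : ℝ) + p.2)) :=
          mul_le_mul h7 h6 (abs_nonneg _) (by positivity)
      _ = ε₁ * (q ^ p.1 * q ^ p.2) +
          M * ((p.1 : ℝ) * q ^ p.1 * q ^ p.2 + q ^ p.1 * ((p.2 : ℝ) * q ^ p.2)) := by ring)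
  rw [Real.norm_eq_abs] at h5
  have e2 : (∑ d ∈ range N, P * (W d * ((1 - e) ^ 2 *
        ((∑' j, e ^ j * y₁ d j) * ∑' j, e ^ j * y₂ d j)))) -
      (1 - e) ^ 2 * T * ((1 - e)⁻¹ * (1 - e)⁻¹) =
      P * ∑ d ∈ range N, W d * (((1 - e) * ∑' j, e ^ j * y₁ d j) *
      ((1 - e) * ∑' j, e ^ j * y₂ d j)) - T := by
    rw [Finset.mul_sum]
    congr 1
    · exact Finset.sum_congr rfl fun d _ => by ring
    · field_simp
  rw [e2] at h5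
  refine h5.trans (le_of_eq ?_)
  ring

open Classical in
private lemma sms_tsum {F : ℝ → ℝ} {a b : ℝ} (hF : Bump F a b) (r : ℕ) (hr : r ≠ 0) (m c σ : ℤ)
    (X : ℝ) (hX : 0 < X) (g : ℕ → ℝ) :
      ∑' d : ℕ, (if Rf m c σ d then F (d * r ^ 2 / X) * g d else 0) =
        ∑ d ∈ range ⌈|b| * X / r ^ 2⌉₊, (if Rf m c σ d then F (d * r ^ 2 / X) else 0) * g d := by
  have hr1 : (0:ℝ) < (r : ℝ) ^ 2 := by positivity
  rw [tsum_eq_sum (s := range ⌈|b| * X / r ^ 2⌉₊)]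
  · refine Finset.sum_congr rfl fun d _ => ?_
    split_ifs <;> simp
  · intro d hd
    have hd' : ⌈|b| * X / r ^ 2⌉₊ ≤ d := by simpa using hd
    have h1 : |b| * X / r ^ 2 ≤ d := (Nat.le_ceil _).trans (by exact_mod_cast hd')
    have h2 : F (d * r ^ 2 / X) = 0 := by
      by_contra h
      have h3 := (hF.supp _ h).2
      rw [div_le_iff₀ hr1] at h1
      rw [div_lt_iff₀ hX] at h3
      have h4 : b * X ≤ |b| * X := mul_le_mul_of_nonneg_right (le_abs_self b) hX.le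
      linarith only [h1, h3, h4]
    rw [h2]; simp

private lemma sms_triv {P S C' X : ℝ} {N : ℕ} (hP : 0 ≤ P) (hS : 0 ≤ S) (hX : 1 ≤ X)
    (hC : P * N ≤ C') (W y z : ℕ → ℝ) (hW : ∀ d, |W d| ≤ S)
    (hyz : ∀ d, |y d| * |z d| ≤ X ^ 20 * X ^ (-30 : ℝ)) :
    |P * ∑ d ∈ range N, W d * (y d * z d)| ≤ C' * S / X := by
  have hX0 : 0 < X := by linarith
  have h1 : X ^ 20 * X ^ (-30 : ℝ) ≤ 1 / X := by
    rw [show (-30 : ℝ) = -((30 : ℕ) : ℝ) by norm_num, Real.rpow_neg hX0.le, Real.rpow_natCast]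
    rw [← div_eq_mul_inv, div_le_div_iff₀ (by positivity) hX0]
    calc X ^ 20 * X = X ^ 21 := by ring
      _ ≤ X ^ 30 := pow_le_pow_right₀ hX (by norm_num)
      _ = 1 * X ^ 30 := by ring
  rw [abs_mul, abs_of_nonneg hP]
  have h2 : |∑ d ∈ range N, W d * (y d * z d)| ≤ ∑ d ∈ range N, S * (1 / X) := by
    refine (Finset.abs_sum_le_sum_abs _ _).trans (Finset.sum_le_sum fun d _ => ?_)
    rw [abs_mul, abs_mul]
    exact mul_le_mul (hW d) ((hyz d).trans h1) (by positivity) hS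
  rw [Finset.sum_const, card_range, nsmul_eq_mul] at h2
  calc P * |∑ d ∈ range N, W d * (y d * z d)| ≤ P * (N * (S * (1 / X))) :=
        mul_le_mul_of_nonneg_left h2 hP
    _ = P * N * (S * (1 / X)) := by ring
    _ ≤ C' * (S * (1 / X)) := mul_le_mul_of_nonneg_right hC (by positivity)
    _ = C' * S / X := by ring

open Classical in
theorem second_momentS {θ δ : ℝ} (hδ : 0 < δ) (hδ4 : δ ≤ 1 / 4) (hθ : 0 < θ)
    (hθ1 : θ + 3 * δ < 1 / 2) (hE : ErrG θ δ) {F : ℝ → ℝ} {a b : ℝ} (ha : 0 < a) (hF : Bump F a b)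
    (hF0 : 0 < ∫ t, F t) (σ : ℤ) (hσ : σ = 1 ∨ σ = -1) {m c ε : ℤ} {κ : ℕ} (hf : Fam m c ε κ)
    (r : ℕ) (hr : Odd r) (c' : ℝ) (hc' : c' = 0 ∨ c' = 1) {ρ₁ ρ₂ h : ℝ → ℝ}
    (hρ₁ : Bump ρ₁ (-(δ / 2)) (δ / 2)) (hρ₂ : Bump ρ₂ (-(δ / 2)) (δ / 2)) (hh : Bump h 0 θ)
    (ε' : ℝ) (hε' : 0 < ε') :
    ∃ X₀ : ℝ, ∀ X : ℝ, X₀ ≤ X → ∀ Y₁ ∈ Set.Icc (-(1 / 2) : ℝ) (1 / 2 + δ),
      ∀ Y₂ ∈ Set.Icc (-(1 / 2) : ℝ) (1 / 2 + δ),
      |m * r ^ 2 / X * ∑' d : ℕ, (if Rf m c σ d then F (d * r ^ 2 / X) *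
          (yS c' ε σ ρ₁ h X (r ^ 2 * d) Y₁ * yS c' ε σ ρ₂ h X (r ^ 2 * d) Y₂) else 0) -
        (∫ t, F t) * CC ρ₁ ρ₂ h Y₁ Y₂| ≤ ε' := by
  have hr0 : r ≠ 0 := by rintro rfl; simp at hr
  have hr1 : (0:ℝ) < (r : ℝ) ^ 2 := by positivity
  have hm : (0 : ℝ) < m := by
    rcases hf with ⟨h1, _⟩ | ⟨h1, _⟩ | ⟨h1, _⟩ <;> rw [h1] <;> norm_num
  have hε3 : ε = 0 ∨ ε = 1 ∨ ε = -1 := by
    rcases hf with ⟨_, _, h1, _⟩ | ⟨_, _, h1, _⟩ | ⟨_, _, h1, _⟩ <;> rw [h1] <;> norm_num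
  have hεa : |(ε : ℝ)| ≤ 1 := by
    rcases hε3 with h1 | h1 | h1 <;> rw [h1] <;> norm_num
  have hs2 : (1 : ℝ) < √2 := by
    rw [Real.lt_sqrt] <;> norm_num
  set q : ℝ := 1 / √2 with hq
  have hq0 : 0 < q := by positivity
  have hq1 : q < 1 := by rw [hq, div_lt_one (by positivity)]; exact hs2
  set e : ℝ := (ε : ℝ) / √2 with he
  have hea : |e| ≤ q := by
    rw [he, abs_div, abs_of_pos (by positivity : (0 : ℝ) < √2), hq]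
    gcongr
  have he4 : (1 - e) ^ 2 ≤ 4 := by
    have h1 := abs_le.1 (hea.trans hq1.le)
    nlinarith only [h1, hδ, hθ, hθ1, h1.1, h1.2]
  obtain ⟨CL, hCL, hlip⟩ := sms_CC_lip hρ₁ hρ₂ hh
  obtain ⟨S, hS0, hS⟩ := K1x.bump_bd hF
  set I := ∫ t, F t with hI
  set MC := |CC ρ₁ ρ₂ h 0 0| + 2 * CL with hMC
  have hMC0 : 0 ≤ MC := by (clear * - hCL; positivity)
  set K := I * (CL + 2 * MC) with hK
  have hK0 : 0 < K := by (clear * - hF0 hCL; positivity)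
  set A := (1 - q)⁻¹ * (1 - q)⁻¹ with hA
  set B := 2 * ((q / (1 - q) ^ 2) * (1 - q)⁻¹) with hB
  have h1q : 0 < 1 - q := by linarith only [hq1]
  have hA0 : 0 < A := by (clear * - hq1; positivity)
  have hB0 : 0 < B := by (clear * - hq1; positivity)
  have hε₁ : 0 < ε' / (8 * A) := by (clear * - hε' hq1; positivity)
  set ε₁ := ε' / (8 * A) with hε₁d
  set C' := m * (|b| + r ^ 2) with hC'
  have hC'0 : 0 ≤ C' := by (clear * - hm hr0; positivity)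
  obtain ⟨X₁, h1⟩ := second_momentG hδ hδ4 hθ hθ1 hE ha hF hF0 σ hσ hf r hr c' hc' hρ₁ hρ₂ hh _ hε₁
  obtain ⟨X₂, h2⟩ := ytil_small hδ hθ hθ1 hρ₁ hh c' hc' σ
  obtain ⟨X₃, h3⟩ := ytil_small hδ hθ hθ1 hρ₂ hh c' hc' σ
  obtain ⟨X₄, h4⟩ := ytil_trunc hδ hθ hθ1 hρ₁ hh c' hc' σ
  obtain ⟨X₅, h5⟩ := ytil_trunc hδ hθ hθ1 hρ₂ hh c' hc' σ
  refine ⟨max (max (max X₁ X₂) (max X₃ X₄)) (max (max X₅ 2)
    (max (C' * S / ε₁) (Real.exp (8 * K * B * Real.log 2 / ε')))), fun X hX Y₁ hY₁ Y₂ hY₂ => ?_⟩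
  simp only [max_le_iff] at hX
  obtain ⟨⟨⟨hX1, hX2⟩, hX3, hX4⟩, ⟨hX5, hX6⟩, hX7, hX8⟩ := hX
  have hX0 : 0 < X := by linarith only [hδ, hθ, hθ1, hX6]
  have hX01 : 1 < X := by linarith only [hδ, hθ, hθ1, hX6]
  have hlog : 0 < Real.log X := Real.log_pos hX01
  have hl2 : 0 < Real.log 2 := Real.log_pos (by norm_num)
  set η := Real.log 2 / Real.log X with hη
  have hη0 : 0 < η := by positivity
  have hηj : ∀ j : ℕ, (j : ℝ) * Real.log 2 / Real.log X = j * η := fun j => by rw [hη]; ring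
  have hη8 : K * η * B ≤ ε' / 8 := by
    have h6 : 8 * K * B * Real.log 2 / ε' ≤ Real.log X := by
      have := Real.log_le_log (Real.exp_pos _) hX8
      rwa [Real.log_exp] at this
    rw [div_le_iff₀ hε'] at h6
    rw [hη, show K * (Real.log 2 / Real.log X) * B = K * B * Real.log 2 / Real.log X by ring,
      div_le_div_iff₀ hlog (by norm_num)]
    linarith only [h6]
  have hX30 : X ^ (-30 : ℝ) ≤ X ^ 20 := by
    calc X ^ (-30 : ℝ) ≤ 1 := Real.rpow_le_one_of_one_le_of_nonpos hX01.le (by norm_num)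
      _ ≤ X ^ 20 := one_le_pow₀ hX01.le
  have hX30n : 0 ≤ X ^ (-30 : ℝ) := by positivity
  -- pointwise bounds
  have hb1 : ∀ d j : ℕ, |ytil c' σ ρ₁ h X (2 * (r ^ 2 * d)) (Y₁ - j * Real.log 2 / Real.log X)| ≤
      X ^ 20 := by
    intro d j
    rw [hηj]
    rcases le_total (-1) (Y₁ - j * η) with h6 | h6
    · exact (h4 X hX4 _ ⟨h6, by
        have : 0 ≤ (j : ℝ) * η := by (clear * - hlog; positivity)
        linarith only [this, hY₁, hY₁.2]⟩ _).1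
    · exact (h2 X hX2 _ h6 _).trans hX30
  have hb2 : ∀ d j : ℕ, |ytil c' σ ρ₂ h X (2 * (r ^ 2 * d)) (Y₂ - j * Real.log 2 / Real.log X)| ≤
      X ^ 20 := by
    intro d j
    rw [hηj]
    rcases le_total (-1) (Y₂ - j * η) with h6 | h6
    · exact (h5 X hX5 _ ⟨h6, by
        have : 0 ≤ (j : ℝ) * η := by (clear * - hlog; positivity)
        linarith only [this, hY₂, hY₂.2]⟩ _).1
    · exact (h3 X hX3 _ h6 _).trans hX30
  set N : ℕ := ⌈|b| * X / r ^ 2⌉₊ with hN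
  set P : ℝ := m * r ^ 2 / X with hP
  have hP0 : 0 < P := by positivity
  set W : ℕ → ℝ := fun d => if Rf m c σ d then F (d * r ^ 2 / X) else 0 with hW
  have hWS : ∀ d, |W d| ≤ S := by
    intro d
    simp only [hW]
    split_ifs
    · exact hS _
    · simpa using hS0
  have hPN : P * N ≤ C' := by
    have h6 : (N : ℝ) ≤ |b| * X / r ^ 2 + 1 := (Nat.ceil_lt_add_one (by (clear * - hX6 hr0; positivity))).le
    calc P * N ≤ P * (|b| * X / r ^ 2 + 1) := mul_le_mul_of_nonneg_left h6 hP0.le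
      _ = m * (|b| + r ^ 2 / X) := by rw [hP]; field_simp
      _ ≤ C' := by
        rw [hC']
        refine mul_le_mul_of_nonneg_left ?_ hm.le
        have : (r : ℝ) ^ 2 / X ≤ r ^ 2 := div_le_self hr1.le hX01.le
        linarith only [this]
  have hCS : C' * S / X ≤ ε₁ := by
    rw [div_le_iff₀ hε₁] at hX7
    rw [div_le_iff₀ hX0]
    linarith only [hX7]
  have hCC1 : |CC ρ₁ ρ₂ h Y₁ Y₂| ≤ MC := by
    have h6 := hlip Y₁ Y₂ 0 0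
    have h7 : |Y₁ - 0| ≤ 1 := by rw [sub_zero, abs_le]; constructor <;> linarith only [hδ, hθ, hθ1, hY₁, hY₁.1, hY₁.2]
    have h8 : |Y₂ - 0| ≤ 1 := by rw [sub_zero, abs_le]; constructor <;> linarith only [hδ, hθ, hθ1, hY₂, hY₂.1, hY₂.2]
    have h9 := abs_sub_abs_le_abs_sub (CC ρ₁ ρ₂ h Y₁ Y₂) (CC ρ₁ ρ₂ h 0 0)
    have h10 : CL * (|Y₁ - 0| + |Y₂ - 0|) ≤ CL * 2 :=
      mul_le_mul_of_nonneg_left (by linarith only [h7, h8]) hCL.le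
    rw [hMC]
    linarith only [h6, h9, h10]
  have hkey : ∀ j₁ j₂ : ℕ, |P * ∑ d ∈ range N, W d *
      (ytil c' σ ρ₁ h X (2 * (r ^ 2 * d)) (Y₁ - j₁ * Real.log 2 / Real.log X) *
        ytil c' σ ρ₂ h X (2 * (r ^ 2 * d)) (Y₂ - j₂ * Real.log 2 / Real.log X)) -
      I * CC ρ₁ ρ₂ h Y₁ Y₂| ≤ ε₁ + K * η * ((j₁ : ℝ) + j₂) := by
    intro j₁ j₂
    have hj1 : 0 ≤ (j₁ : ℝ) * η := by (clear * - hlog; positivity)
    have hj2 : 0 ≤ (j₂ : ℝ) * η := by (clear * - hlog; positivity)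
    have hout : -1 > Y₁ - j₁ * η ∨ -1 > Y₂ - j₂ * η → |P * ∑ d ∈ range N, W d *
        (ytil c' σ ρ₁ h X (2 * (r ^ 2 * d)) (Y₁ - j₁ * Real.log 2 / Real.log X) *
        ytil c' σ ρ₂ h X (2 * (r ^ 2 * d)) (Y₂ - j₂ * Real.log 2 / Real.log X)) -
        I * CC ρ₁ ρ₂ h Y₁ Y₂| ≤ ε₁ + K * η * ((j₁ : ℝ) + j₂) := by
      intro ho
      have h6 : |P * ∑ d ∈ range N, W d *
        (ytil c' σ ρ₁ h X (2 * (r ^ 2 * d)) (Y₁ - j₁ * Real.log 2 / Real.log X) *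
        ytil c' σ ρ₂ h X (2 * (r ^ 2 * d)) (Y₂ - j₂ * Real.log 2 / Real.log X))| ≤ C' * S / X := by
        refine sms_triv hP0.le hS0 hX01.le hPN W _ _ hWS fun d => ?_
        rcases ho with ho | ho
        · have h7 := h2 X hX2 _ ho.le (2 * (r ^ 2 * d))
          rw [← hηj] at h7
          rw [mul_comm]
          exact mul_le_mul (hb2 d j₂) h7 (abs_nonneg _) (by positivity)
        · have h7 := h3 X hX3 _ ho.le (2 * (r ^ 2 * d))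
          rw [← hηj] at h7
          exact mul_le_mul (hb1 d j₁) h7 (abs_nonneg _) (by positivity)
      have h8 : 1 / 2 ≤ (j₁ : ℝ) * η + j₂ * η := by
        rcases ho with ho | ho
        · linarith only [hj2, ho, hY₁, hY₁.1]
        · linarith only [hj1, ho, hY₂, hY₂.1]
      have h9 : |I * CC ρ₁ ρ₂ h Y₁ Y₂| ≤ K * η * ((j₁ : ℝ) + j₂) := by
        rw [abs_mul, abs_of_pos hF0]
        have h10 : MC ≤ (CL + 2 * MC) * ((j₁ : ℝ) * η + j₂ * η) := by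
          have h11 : 2 * MC * (1 / 2) ≤ 2 * MC * ((j₁ : ℝ) * η + j₂ * η) :=
            mul_le_mul_of_nonneg_left h8 (by (clear * - hCL; positivity))
          have h12 : 0 ≤ CL * ((j₁ : ℝ) * η + j₂ * η) := by (clear * - hCL h8; positivity)
          linarith only [h11, h12]
        calc I * |CC ρ₁ ρ₂ h Y₁ Y₂| ≤ I * ((CL + 2 * MC) * ((j₁ : ℝ) * η + j₂ * η)) :=
              mul_le_mul_of_nonneg_left (hCC1.trans h10) hF0.le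
          _ = K * η * ((j₁ : ℝ) + j₂) := by rw [hK]; ring
      refine (abs_sub _ _).trans ?_
      linarith only [hCS, h6, h9]
    rcases lt_or_ge (Y₁ - j₁ * η) (-1) with ho | hi1
    · exact hout (Or.inl ho)
    rcases lt_or_ge (Y₂ - j₂ * η) (-1) with ho | hi2
    · exact hout (Or.inr ho)
    have h6 := h1 X hX1 (Y₁ - j₁ * η) ⟨hi1, by linarith only [hj1, hY₁, hY₁.2]⟩ (Y₂ - j₂ * η)
      ⟨hi2, by linarith only [hj2, hY₂, hY₂.2]⟩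
    rw [sms_tsum hF r hr0 m c σ X hX0 (fun d => ytil c' σ ρ₁ h X (2 * (r ^ 2 * d)) (Y₁ - j₁ * η) *
      ytil c' σ ρ₂ h X (2 * (r ^ 2 * d)) (Y₂ - j₂ * η))] at h6
    rw [hηj, hηj]
    have h7 := hlip (Y₁ - j₁ * η) (Y₂ - j₂ * η) Y₁ Y₂
    rw [show Y₁ - j₁ * η - Y₁ = -(j₁ * η) by ring, show Y₂ - j₂ * η - Y₂ = -(j₂ * η) by ring,
      abs_neg, abs_neg, abs_of_nonneg hj1, abs_of_nonneg hj2] at h7
    have h8 : |I * CC ρ₁ ρ₂ h (Y₁ - j₁ * η) (Y₂ - j₂ * η) - I * CC ρ₁ ρ₂ h Y₁ Y₂| ≤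
        K * η * ((j₁ : ℝ) + j₂) := by
      rw [← mul_sub, abs_mul, abs_of_pos hF0]
      calc I * |CC ρ₁ ρ₂ h (Y₁ - j₁ * η) (Y₂ - j₂ * η) - CC ρ₁ ρ₂ h Y₁ Y₂| ≤
          I * (CL * (j₁ * η + j₂ * η)) := mul_le_mul_of_nonneg_left h7 hF0.le
        _ ≤ I * ((CL + 2 * MC) * (j₁ * η + j₂ * η)) := by
          refine mul_le_mul_of_nonneg_left (mul_le_mul_of_nonneg_right ?_ (by (clear * - hlog; positivity))) hF0.le
          linarith only [hMC0]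
        _ = K * η * ((j₁ : ℝ) + j₂) := by rw [hK]; ring
    refine (abs_sub_le _ (I * CC ρ₁ ρ₂ h (Y₁ - j₁ * η) (Y₂ - j₂ * η)) _).trans ?_
    exact add_le_add h6 h8
  have hsum1 : ∀ d : ℕ, Summable fun j : ℕ => e ^ j *
      ytil c' σ ρ₁ h X (2 * (r ^ 2 * d)) (Y₁ - j * Real.log 2 / Real.log X) := by
    intro d
    have := yS_summable hδ hρ₁ hh c' hc' ε σ hε3 X hX01 (r ^ 2 * d) Y₁
    simpa only [he, div_pow] using this
  have hsum2 : ∀ d : ℕ, Summable fun j : ℕ => e ^ j *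
      ytil c' σ ρ₂ h X (2 * (r ^ 2 * d)) (Y₂ - j * Real.log 2 / Real.log X) := by
    intro d
    have := yS_summable hδ hρ₂ hh c' hc' ε σ hε3 X hX01 (r ^ 2 * d) Y₂
    simpa only [he, div_pow] using this
  have hfin := sms_double hq0 hq1 hea N P (I * CC ρ₁ ρ₂ h Y₁ Y₂) ε₁ (K * η) W
    (fun d j => ytil c' σ ρ₁ h X (2 * (r ^ 2 * d)) (Y₁ - j * Real.log 2 / Real.log X))
    (fun d j => ytil c' σ ρ₂ h X (2 * (r ^ 2 * d)) (Y₂ - j * Real.log 2 / Real.log X))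
    hsum1 hsum2 hkey
  rw [sms_tsum hF r hr0 m c σ X hX0 (fun d => yS c' ε σ ρ₁ h X (r ^ 2 * d) Y₁ *
    yS c' ε σ ρ₂ h X (r ^ 2 * d) Y₂)]
  have hyS1 : ∀ d : ℕ, yS c' ε σ ρ₁ h X (r ^ 2 * d) Y₁ = (1 - e) * ∑' j : ℕ, e ^ j *
      ytil c' σ ρ₁ h X (2 * (r ^ 2 * d)) (Y₁ - j * Real.log 2 / Real.log X) := by
    intro d
    rw [yS]
    simp only [he, div_pow]
  have hyS2 : ∀ d : ℕ, yS c' ε σ ρ₂ h X (r ^ 2 * d) Y₂ = (1 - e) * ∑' j : ℕ, e ^ j *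
      ytil c' σ ρ₂ h X (2 * (r ^ 2 * d)) (Y₂ - j * Real.log 2 / Real.log X) := by
    intro d
    rw [yS]
    simp only [he, div_pow]
  simp only [hyS1, hyS2]
  refine hfin.trans ?_
  rw [← hA, ← hB]
  have h13 : ε₁ * A = ε' / 8 := by rw [hε₁d]; field_simp
  have h14 : 0 ≤ ε₁ * A + K * η * B := by (clear * - hε' hq1 hF0 hCL hlog; positivity)
  calc (1 - e) ^ 2 * (ε₁ * A + K * η * B) ≤ 4 * (ε₁ * A + K * η * B) :=
        mul_le_mul_of_nonneg_right he4 h14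
    _ ≤ ε' := by rw [h13]; linarith only [hη8]

end Pool.Agent.MP0016c7.Rz
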