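import Mathlib
import Pool.Agent.Lib.MP_0016c7_nt.Rz.Defs
import Pool.Agent.Lib.MP_0016c7_nt.Rz.DefsC
import Pool.Agent.Lib.MP_0016c7_nt.Rz.DefsE
import Pool.Agent.Lib.MP_0016c7_nt.Rz.DefsF
import Pool.Agent.Lib.MP_0016c7_nt.Rz2.DefsG
import Pool.Agent.Lib.MP_0016c7_nt.Rz.Sm5

set_option autoImplicit false

/-!
The number of elements of a residue class.
-/

open Finset MeasureTheory Filter Topology
open scoped Real ContDiff

namespace Pool.Agent.MP0016c7.Rz

private lemma zmG_compact {F : ℝ → ℝ} {a b : ℝ} (hF : Bump F a b) : HasCompactSupport F :=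
  HasCompactSupport.intro (isCompact_Icc (a := a) (b := b)) fun t ht => by
    by_contra h
    obtain ⟨h1, h2⟩ := hF.supp t h
    exact ht ⟨h1.le, h2.le⟩

/-- Riemann sum with step `M` and offset `c₀`. -/
private lemma zmG_riemann {F : ℝ → ℝ} {a b : ℝ} (ha : 0 < a) (hF : Bump F a b) (M c₀ : ℝ)
    (hM : 1 ≤ M) (hc : 0 ≤ c₀) (hcM : c₀ ≤ M) :
    ∃ C : ℝ, 0 < C ∧ ∀ η : ℝ, 0 < η → η ≤ 1 →
      |M * η * ∑' k : ℕ, F ((M * k + c₀) * η) - ∫ t, F t| ≤ C * η := by
  obtain ⟨L, hL⟩ := hF.smooth.lipschitzWith_of_hasCompactSupport (zmG_compact hF) (by simp)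
  have hcont := hF.smooth.continuous
  have hM0 : 0 < M := by linarith
  refine ⟨L * M * (|b| + 2 * M) + 1, by positivity, fun η hη hη1 => ?_⟩
  set K : ℕ := ⌈|b| / (M * η)⌉₊ with hK
  have hK1 : |b| ≤ M * K * η := by
    have h1 : |b| / (M * η) ≤ K := Nat.le_ceil _
    rw [div_le_iff₀ (by positivity)] at h1
    linarith
  have hK2 : (K : ℝ) ≤ |b| / (M * η) + 1 := (Nat.ceil_lt_add_one (by positivity)).le
  have hsum : ∑' k : ℕ, F ((M * k + c₀) * η) = ∑ k ∈ range K, F ((M * k + c₀) * η) := by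
    refine tsum_eq_sum fun k hk => ?_
    have hk' : K ≤ k := by simpa using hk
    by_contra h
    have h1 := (hF.supp _ h).2
    have h2 : (K : ℝ) ≤ k := by exact_mod_cast hk'
    have h3 : M * K * η ≤ M * k * η := by (clear * - h2 hM hη; gcongr)
    have h4 := le_abs_self b
    have h5 : 0 ≤ c₀ * η := by positivity
    nlinarith only [hK1, h1, h3, h4, h5]
  have hint : ∫ t, F t = ∫ t in (0 : ℝ)..(M * K * η), F t := by
    symm
    apply intervalIntegral.integral_eq_integral_of_support_subset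
    intro t ht
    obtain ⟨h1, h2⟩ := hF.supp t ht
    exact ⟨by linarith, by linarith [le_abs_self b]⟩
  have hadj : ∑ k ∈ range K, ∫ t in (M * (k : ℝ) * η)..(M * ((k + 1 : ℕ) : ℝ) * η), F t =
      ∫ t in (0 : ℝ)..(M * K * η), F t := by
    have := intervalIntegral.sum_integral_adjacent_intervals (f := F) (μ := volume)
      (a := fun k : ℕ => M * (k : ℝ) * η) (n := K)
      (fun k _ => hcont.intervalIntegrable _ _)
    simpa using this
  rw [hsum, hint, ← hadj, Finset.mul_sum, ← Finset.sum_sub_distrib]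
  have hcell : ∀ k ∈ range K, |M * η * F ((M * k + c₀) * η) -
      ∫ t in (M * (k : ℝ) * η)..(M * ((k + 1 : ℕ) : ℝ) * η), F t| ≤
        L * (M * η) * (M * η) := by
    intro k _
    have e1 : M * η * F ((M * k + c₀) * η) =
        ∫ t in (M * (k : ℝ) * η)..(M * ((k + 1 : ℕ) : ℝ) * η), F ((M * k + c₀) * η) := by
      rw [intervalIntegral.integral_const, smul_eq_mul]
      push_cast
      ring
    rw [e1, ← intervalIntegral.integral_sub (by simp) (hcont.intervalIntegrable _ _)]
    have h1 := intervalIntegral.norm_integral_le_of_norm_le_const (C := L * (M * η))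
      (a := M * (k : ℝ) * η) (b := M * ((k + 1 : ℕ) : ℝ) * η)
      (f := fun t => F ((M * k + c₀) * η) - F t) ?_
    · rw [Real.norm_eq_abs] at h1
      refine h1.trans (le_of_eq ?_)
      push_cast
      rw [show M * ((k : ℝ) + 1) * η - M * k * η = M * η by ring, abs_of_pos (by positivity)]
    · intro t ht
      rw [Set.uIoc_of_le (by push_cast; nlinarith only [hM0, hη, mul_pos hM0 hη])] at ht
      have h2 := hL.dist_le_mul ((M * k + c₀) * η) t
      rw [Real.dist_eq, Real.dist_eq] at h2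
      rw [Real.norm_eq_abs]
      refine h2.trans (mul_le_mul_of_nonneg_left ?_ L.coe_nonneg)
      obtain ⟨h3, h4⟩ := ht
      push_cast at h4
      have h6 : 0 ≤ c₀ * η := by positivity
      have h7 : c₀ * η ≤ M * η := mul_le_mul_of_nonneg_right hcM hη.le
      rw [abs_le]
      constructor <;> nlinarith only [h4, h6, h3, h7]
  refine (Finset.abs_sum_le_sum_abs _ _).trans ((Finset.sum_le_sum hcell).trans ?_)
  rw [Finset.sum_const, card_range, nsmul_eq_mul]
  have hL0 : (0:ℝ) ≤ L := L.coe_nonneg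
  have h5 : (K : ℝ) * (M * η) ≤ |b| + M * η := by
    have := mul_le_mul_of_nonneg_right hK2 (show (0:ℝ) ≤ M * η by positivity)
    refine this.trans (le_of_eq ?_)
    field_simp
  have h8 : M * η ≤ M * 1 := mul_le_mul_of_nonneg_left hη1 hM0.le
  calc (K : ℝ) * (L * (M * η) * (M * η)) = L * (M * η) * (K * (M * η)) := by ring
    _ ≤ L * (M * η) * (|b| + M * η) := mul_le_mul_of_nonneg_left h5 (by positivity)
    _ ≤ L * (M * η) * (|b| + 2 * M) := mul_le_mul_of_nonneg_left (by linarith) (by positivity)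
    _ ≤ (L * M * (|b| + 2 * M) + 1) * η := by nlinarith only [hη]

/-- the number of squares below `N` -/
private lemma zmG_squares (N : ℕ) (t : ℝ) (ht : 0 < t) :
    ((((range N).filter (fun d => IsSquare d)).card : ℕ) : ℝ) ≤ t * N + 1 / (4 * t) + 1 := by
  have h1 : ((range N).filter (fun d => IsSquare d)).card ≤ Nat.sqrt N + 1 := by
    have hsub : (range N).filter (fun d => IsSquare d) ⊆
        (range (Nat.sqrt N + 1)).image (fun j => j * j) := by
      intro d hd
      rw [Finset.mem_filter, Finset.mem_range] at hd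
      obtain ⟨hdN, j, rfl⟩ := hd
      rw [Finset.mem_image]
      refine ⟨j, ?_, rfl⟩
      rw [Finset.mem_range]
      have : j ≤ Nat.sqrt N := Nat.le_sqrt.2 hdN.le
      omega
    calc ((range N).filter (fun d => IsSquare d)).card
        ≤ ((range (Nat.sqrt N + 1)).image (fun j => j * j)).card := card_le_card hsub
      _ ≤ (range (Nat.sqrt N + 1)).card := card_image_le
      _ = Nat.sqrt N + 1 := card_range _
  have h2 : ((Nat.sqrt N : ℕ) : ℝ) * (Nat.sqrt N : ℕ) ≤ N := by
    exact_mod_cast Nat.sqrt_le N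
  have h3 : ((((range N).filter (fun d => IsSquare d)).card : ℕ) : ℝ) ≤ (Nat.sqrt N : ℕ) + 1 := by
    exact_mod_cast h1
  set s : ℝ := ((Nat.sqrt N : ℕ) : ℝ) with hs
  have h4 : s ≤ t * (s * s) + 1 / (4 * t) := by
    have h5 : t * (s * s) + 1 / (4 * t) - s = (2 * t * s - 1) ^ 2 / (4 * t) := by
      field_simp
      ring
    have h6 : 0 ≤ (2 * t * s - 1) ^ 2 / (4 * t) := by positivity
    linarith
  have h7 : t * (s * s) ≤ t * N := mul_le_mul_of_nonneg_left h2 ht.le
  linarith

open Classical in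
theorem zero_momentG {F : ℝ → ℝ} {a b : ℝ} (ha : 0 < a) (hF : Bump F a b) (σ : ℤ)
    (hσ : σ = 1 ∨ σ = -1) {m c ε : ℤ} {κ : ℕ} (hf : Fam m c ε κ) (r : ℕ) (hr : Odd r)
    (ε' : ℝ) (hε' : 0 < ε') :
    ∃ X₀ : ℝ, ∀ X : ℝ, X₀ ≤ X →
      |m * r ^ 2 / X * ∑' d : ℕ, (if Rf m c σ d then F (d * r ^ 2 / X) else 0) - ∫ t, F t| ≤ ε' := by
  -- the residue class
  obtain ⟨M, c₀, hM1, hmM, hc0, hcM, hres⟩ : ∃ M c₀ : ℕ, 1 ≤ M ∧ m = (M : ℤ) ∧ 0 < c₀ ∧ c₀ < M ∧
      ∀ d : ℕ, (σ * d) % m = c ↔ d % M = c₀ := by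
    rcases hf with ⟨rfl, rfl, -, -⟩ | ⟨rfl, rfl, -, -⟩ | ⟨rfl, rfl, -, -⟩ <;>
      rcases hσ with rfl | rfl
    · exact ⟨4, 3, by norm_num, rfl, by norm_num, by norm_num, fun d => by omega⟩
    · exact ⟨4, 1, by norm_num, rfl, by norm_num, by norm_num, fun d => by omega⟩
    · exact ⟨8, 1, by norm_num, rfl, by norm_num, by norm_num, fun d => by omega⟩
    · exact ⟨8, 7, by norm_num, rfl, by norm_num, by norm_num, fun d => by omega⟩
    · exact ⟨8, 5, by norm_num, rfl, by norm_num, by norm_num, fun d => by omega⟩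
    · exact ⟨8, 3, by norm_num, rfl, by norm_num, by norm_num, fun d => by omega⟩
  have hM1' : (1:ℝ) ≤ M := by exact_mod_cast hM1
  have hM0 : (0:ℝ) < M := by linarith
  obtain ⟨C, hC, h⟩ := zmG_riemann ha hF (M : ℝ) (c₀ : ℝ) hM1' (Nat.cast_nonneg _)
    (by exact_mod_cast hcM.le)
  -- bound of `F`
  obtain ⟨B, hB0, hB⟩ : ∃ B : ℝ, 0 < B ∧ ∀ t, |F t| ≤ B := by
    obtain ⟨B, hB⟩ := hF.smooth.continuous.bounded_above_of_compact_support (zmG_compact hF)
    exact ⟨max B 1, lt_max_of_lt_right one_pos, fun t => (hB t).trans (le_max_left _ _)⟩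
  have hr0 : r ≠ 0 := by rintro rfl; simp at hr
  have hr1 : (0:ℝ) < (r : ℝ) ^ 2 := by positivity
  set t : ℝ := ε' / (4 * (M * B * (|b| + 1))) with ht
  have ht0 : 0 < t := by positivity
  have htb : M * B * t * |b| ≤ ε' / 4 := by
    have e : M * B * t * (|b| + 1) = ε' / 4 := by
      rw [ht]; field_simp
    have : M * B * t * |b| ≤ M * B * t * (|b| + 1) :=
      mul_le_mul_of_nonneg_left (by linarith) (by positivity)
    linarith only [e, this]
  set D : ℝ := M * r ^ 2 * B * (t + 1 / (4 * t) + 1) with hD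
  have hD0 : 0 < D := by (clear * - hM1 hr0 hB0 hε'; positivity)
  refine ⟨(r : ℝ) ^ 2 + 2 * C * r ^ 2 / ε' + 4 * D / ε', fun X hX => ?_⟩
  have hq : 0 ≤ 2 * C * (r : ℝ) ^ 2 / ε' := by positivity
  have hq' : 0 ≤ 4 * D / ε' := by (clear * - hM1 hr0 hB0 hε'; positivity)
  have hX0 : 0 < X := by linarith only [hr1, hX, hq, hq']
  set η : ℝ := (r : ℝ) ^ 2 / X with hη
  have hη0 : 0 < η := by positivity
  have hη1 : η ≤ 1 := by rw [hη, div_le_one hX0]; linarith only [hX, hq, hq']
  have hη2 : C * η ≤ ε' / 2 := by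
    have h1 : 2 * C * (r : ℝ) ^ 2 / ε' ≤ X := by linarith only [hr1, hX, hq']
    rw [div_le_iff₀ hε'] at h1
    rw [hη, ← mul_div_assoc, div_le_iff₀ hX0]
    linarith only [h1]
  have hη3 : D / X ≤ ε' / 4 := by
    have h1 : 4 * D / ε' ≤ X := by linarith only [hr1, hX, hq]
    rw [div_le_iff₀ hε'] at h1
    rw [div_le_iff₀ hX0]
    linarith only [h1]
  have hinj : Function.Injective (fun k : ℕ => M * k + c₀) := fun k k' h => by
    simp only at h
    have h2 : M * k = M * k' := by omega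
    exact Nat.eq_of_mul_eq_mul_left (by omega) h2
  have e1 : ∑' d : ℕ, (if (σ * d) % m = c then F (d * r ^ 2 / X) else 0)
      = ∑' k : ℕ, F ((M * k + c₀) * η) := by
    rw [← hinj.tsum_eq]
    · refine tsum_congr fun k => ?_
      have : (σ * ((M * k + c₀ : ℕ) : ℤ)) % m = c := by
        rw [hres, Nat.mul_add_mod, Nat.mod_eq_of_lt hcM]
      rw [if_pos this]
      congr 1
      rw [hη]; push_cast; ring
    · intro d hd
      rw [Function.mem_support] at hd
      by_cases ho : (σ * d) % m = c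
      · rw [hres] at ho
        refine ⟨d / M, ?_⟩
        show M * (d / M) + c₀ = d
        rw [← ho]; exact Nat.div_add_mod d M
      · rw [if_neg ho] at hd; exact absurd rfl hd
  -- finite sums
  set N : ℕ := ⌈|b| * X / r ^ 2⌉₊ with hN
  have hvan : ∀ d : ℕ, d ∉ range N → F (d * r ^ 2 / X) = 0 := by
    intro d hd
    have hd' : N ≤ d := by simpa using hd
    have h1 : |b| * X / r ^ 2 ≤ d := (Nat.le_ceil (|b| * X / r ^ 2)).trans (Nat.cast_le.2 hd')
    by_contra h
    have h3 := (hF.supp _ h).2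
    rw [div_le_iff₀ hr1] at h1
    rw [div_lt_iff₀ hX0] at h3
    have h4 : b * X ≤ |b| * X := mul_le_mul_of_nonneg_right (le_abs_self b) hX0.le
    linarith only [h1, h3, h4]
  have s1 : ∑' d : ℕ, (if (σ * d) % m = c then F (d * r ^ 2 / X) else 0)
      = ∑ d ∈ range N, (if (σ * d) % m = c then F (d * r ^ 2 / X) else 0) :=
    tsum_eq_sum fun d hd => by rw [hvan d hd]; simp
  have s2 : ∑' d : ℕ, (if Rf m c σ d then F (d * r ^ 2 / X) else 0)
      = ∑ d ∈ range N, (if Rf m c σ d then F (d * r ^ 2 / X) else 0) :=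
    tsum_eq_sum fun d hd => by rw [hvan d hd]; simp
  have hNle : (N : ℝ) ≤ |b| * X / r ^ 2 + 1 := (Nat.ceil_lt_add_one (by (clear * - hX0 hr0; positivity))).le
  -- the squares
  have s3 : |∑ d ∈ range N, (if Rf m c σ d then F (d * r ^ 2 / X) else 0) -
      ∑ d ∈ range N, (if (σ * d) % m = c then F (d * r ^ 2 / X) else 0)| ≤
      (((range N).filter (fun d => IsSquare d)).card : ℝ) * B := by
    rw [← Finset.sum_sub_distrib]
    refine (Finset.abs_sum_le_sum_abs _ _).trans ?_
    have : ∀ d ∈ range N, |(if Rf m c σ d then F (d * r ^ 2 / X) else 0) -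
        (if (σ * d) % m = c then F (d * r ^ 2 / X) else 0)| ≤ if IsSquare d then B else 0 := by
      intro d _
      by_cases h1 : (σ * d) % m = c
      · by_cases h2 : IsSquare (σ * (d : ℤ))
        · have h3 : ¬ Rf m c σ d := fun h4 => h4.2 h2
          rw [if_neg h3, if_pos h1, zero_sub, abs_neg]
          by_cases h5 : IsSquare d
          · rw [if_pos h5]; exact hB _
          · exfalso
            rcases hσ with rfl | rfl
            · rw [one_mul] at h2
              exact h5 (by exact_mod_cast h2)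
            · obtain ⟨j, hj⟩ := h2
              have h6 : (d : ℤ) = 0 := by
                have : 0 ≤ j * j := mul_self_nonneg j
                have h7 : (0 : ℤ) ≤ d := Int.natCast_nonneg d
                linarith only [hj, this]
              have h8 : d = 0 := by exact_mod_cast h6
              exact h5 (by rw [h8]; exact ⟨0, rfl⟩)
        · have h3 : Rf m c σ d := ⟨h1, h2⟩
          rw [if_pos h3, if_pos h1, sub_self, abs_zero]
          split_ifs
          · exact hB0.le
          · exact le_rfl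
      · have h3 : ¬ Rf m c σ d := fun h4 => h1 h4.1
        rw [if_neg h3, if_neg h1, sub_self, abs_zero]
        split_ifs
        · exact hB0.le
        · exact le_rfl
    refine (Finset.sum_le_sum this).trans (le_of_eq ?_)
    rw [← Finset.sum_filter, Finset.sum_const, nsmul_eq_mul]
  have s4 := zmG_squares N t ht0
  rw [← s1, e1] at s3
  rw [s2]
  set S1 : ℝ := ∑ d ∈ range N, (if Rf m c σ d then F (d * r ^ 2 / X) else 0) with hS1
  set S0 : ℝ := ∑' k : ℕ, F ((M * k + c₀) * η) with hS0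
  set Q : ℝ := (((range N).filter (fun d => IsSquare d)).card : ℝ) with hQ
  have hmr : (m : ℝ) = M := by rw [hmM]; push_cast; rfl
  have e2 : (m : ℝ) * (r : ℝ) ^ 2 / X = M * η := by rw [hmr, hη]; ring
  rw [e2]
  have hk := h η hη0 hη1
  have s5 : |M * η * (S1 - S0)| ≤ ε' / 2 := by
    rw [abs_mul, abs_of_pos (by positivity)]
    have h1 : M * η * |S1 - S0| ≤ M * η * (Q * B) :=
      mul_le_mul_of_nonneg_left s3 (by positivity)
    have h2 : M * η * (Q * B) ≤ M * η * ((t * N + 1 / (4 * t) + 1) * B) := by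
      refine mul_le_mul_of_nonneg_left ?_ (by positivity)
      exact mul_le_mul_of_nonneg_right s4 hB0.le
    have h3 : M * η * ((t * N + 1 / (4 * t) + 1) * B) ≤
        M * η * ((t * (|b| * X / r ^ 2 + 1) + 1 / (4 * t) + 1) * B) := by
      refine mul_le_mul_of_nonneg_left ?_ (by positivity)
      refine mul_le_mul_of_nonneg_right ?_ hB0.le
      have := mul_le_mul_of_nonneg_left hNle ht0.le
      linarith only [this]
    have h4 : M * η * ((t * (|b| * X / r ^ 2 + 1) + 1 / (4 * t) + 1) * B) =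
        M * B * t * |b| + D / X := by
      rw [hη, hD]
      field_simp
      ring
    linarith only [htb, hη3, h1, h2, h3, h4]
  have e3 : M * η * S1 - ∫ t, F t = M * η * (S1 - S0) + (M * η * S0 - ∫ t, F t) := by ring
  rw [e3]
  refine (abs_add_le _ _).trans ?_
  linarith only [hη2, hk, s5]

end Pool.Agent.MP0016c7.Rz
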