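import Mathlib
import Pool.Agent.Lib.MP_0016c7_nt.Rz.Defs
import Pool.Agent.Lib.MP_0016c7_nt.Rz.DefsC
import Pool.Agent.Lib.MP_0016c7_nt.Rz.DefsE
import Pool.Agent.Lib.MP_0016c7_nt.Rz.DefsF
import Pool.Agent.Lib.MP_0016c7_nt.Rz2.DefsG
import Pool.Agent.Lib.MP_0016c7_nt.Rz2.SmG
import Pool.Agent.Lib.MP_0016c7_nt.Rz2.ZmG
import Pool.Agent.Lib.MP_0016c7_nt.Rz.Ker5
import Pool.Agent.Lib.MP_0016c7_nt.Rz.Sm5

set_option autoImplicit false

/-!
The first moment over a residue class.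
-/

open Finset MeasureTheory Filter Topology
open scoped Real ContDiff

namespace Pool.Agent.MP0016c7.Rz

private lemma fmG_compact {F : ℝ → ℝ} {a b : ℝ} (hF : Bump F a b) : HasCompactSupport F :=
  HasCompactSupport.intro (isCompact_Icc (a := a) (b := b)) fun t ht => by
    by_contra h
    obtain ⟨h1, h2⟩ := hF.supp t h
    exact ht ⟨h1.le, h2.le⟩

private lemma fmG_int {F : ℝ → ℝ} {a b : ℝ} (hF : Bump F a b) : Integrable F :=
  hF.smooth.continuous.integrable_of_hasCompactSupport (fmG_compact hF)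

private lemma fmG_HH {h : ℝ → ℝ} {a b : ℝ} (hh : Bump h a b) (v : ℝ) :
    |HH h v| ≤ ∫ t, |h t| := by
  unfold HH
  have hi := (fmG_int hh).norm
  have h1 : ‖∫ t in Set.Ioi v, h t‖ ≤ ∫ t in Set.Ioi v, ‖h t‖ := norm_integral_le_integral_norm _
  have h2 : ∫ t in Set.Ioi v, ‖h t‖ ≤ ∫ t, ‖h t‖ :=
    setIntegral_le_integral hi (Filter.Eventually.of_forall fun t => norm_nonneg _)
  exact h1.trans h2

private lemma fmG_CC_bound {δ θ : ℝ} (hδ4 : δ ≤ 1 / 4) {ρ h : ℝ → ℝ}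
    (hρ : Bump ρ (-(δ / 2)) (δ / 2)) (hh : Bump h 0 θ) :
    ∃ K : ℝ, 0 ≤ K ∧ ∀ Y ∈ Set.Icc (-1 : ℝ) (1 / 2 + δ), |CC ρ ρ h Y Y| ≤ K := by
  set H1 := ∫ t, |h t| with hH1
  set J := ∫ t : ℝ, h t ^ 2 with hJ
  have hJ0 : 0 ≤ J := integral_nonneg fun t => sq_nonneg _
  have hH0 : 0 ≤ H1 := integral_nonneg fun t => abs_nonneg _
  set R := ∫ t, |ρ t| with hR
  have hRi : Integrable (fun t => |ρ t|) := (fmG_int hρ).norm
  have hR0 : 0 ≤ R := integral_nonneg fun t => abs_nonneg _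
  set K0 := H1 ^ 2 + J * 2 with hK0
  have hK00 : 0 ≤ K0 := by positivity
  refine ⟨R * (R * K0), by (clear * -; positivity), fun Y hY => ?_⟩
  obtain ⟨hY1, hY2⟩ := hY
  have hpt : ∀ x y : ℝ, ‖ρ x * ρ y * (HH h (x - Y) * HH h (y - Y) +
      J * (max (min (Y - x) (Y - y)) 0 - max (Y - x + (Y - y) - 1) 0))‖ ≤
      |ρ x| * (|ρ y| * K0) := by
    intro x y
    by_cases hx : ρ x = 0
    · simp [hx]
    by_cases hy : ρ y = 0
    · simp [hy]
    obtain ⟨hx1, hx2⟩ := hρ.supp x hx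
    obtain ⟨hy1, hy2⟩ := hρ.supp y hy
    rw [norm_mul, norm_mul, Real.norm_eq_abs, Real.norm_eq_abs, mul_assoc]
    refine mul_le_mul_of_nonneg_left (mul_le_mul_of_nonneg_left ?_ (abs_nonneg _)) (abs_nonneg _)
    refine (norm_add_le _ _).trans ?_
    rw [norm_mul, norm_mul, Real.norm_eq_abs, Real.norm_eq_abs, Real.norm_eq_abs, Real.norm_eq_abs,
      abs_of_nonneg hJ0, hK0, sq]
    refine add_le_add (mul_le_mul (fmG_HH hh _) (fmG_HH hh _) (abs_nonneg _) hH0)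
      (mul_le_mul_of_nonneg_left ?_ hJ0)
    have h1 : min (Y - x) (Y - y) ≤ 2 := (min_le_left _ _).trans (by linarith)
    have h2 : max (min (Y - x) (Y - y)) 0 ≤ 2 := max_le h1 (by norm_num)
    have h3 : 0 ≤ max (min (Y - x) (Y - y)) 0 := le_max_right _ _
    have h4 : max (Y - x + (Y - y) - 1) 0 ≤ 2 := max_le (by linarith) (by norm_num)
    have h5 : 0 ≤ max (Y - x + (Y - y) - 1) 0 := le_max_right _ _
    rw [abs_le]
    constructor <;> linarith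
  unfold CC
  have h1 : ∀ x : ℝ, ‖∫ y : ℝ, ρ x * ρ y * (HH h (x - Y) * HH h (y - Y) +
      J * (max (min (Y - x) (Y - y)) 0 - max (Y - x + (Y - y) - 1) 0))‖ ≤ |ρ x| * (R * K0) := by
    intro x
    have hg : Integrable (fun y => |ρ x| * (|ρ y| * K0)) := (hRi.mul_const _).const_mul _
    refine (norm_integral_le_of_norm_le hg (Filter.Eventually.of_forall fun y => hpt x y)).trans ?_
    rw [integral_const_mul, integral_mul_const]
  have hg : Integrable (fun x => |ρ x| * (R * K0)) := hRi.mul_const _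
  refine (norm_integral_le_of_norm_le hg (Filter.Eventually.of_forall h1)).trans ?_
  rw [integral_mul_const]

private lemma fmG_HHd {δ θ : ℝ} {ρ h : ℝ → ℝ} (hδ : 0 < δ)
    (hρ : Bump ρ (-(δ / 2)) (δ / 2)) (hρ1 : ∫ y, ρ y = 1) (hh : Bump h 0 θ)
    (hconst : ∀ t ≤ 2 * δ, HH h t = HH h 0) :
    ∫ y, ρ y * HH h (y - -δ) = HH h 0 := by
  have e : ∀ y, ρ y * HH h (y - -δ) = ρ y * HH h 0 := by
    intro y
    by_cases hy : ρ y = 0
    · simp [hy]
    · obtain ⟨hy1, hy2⟩ := hρ.supp y hy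
      rw [hconst _ (by linarith)]
  simp_rw [e]
  rw [integral_mul_const, hρ1, one_mul]

private lemma fmG_CC_eq {δ θ : ℝ} (hδ : 0 < δ) (hδ4 : δ ≤ 1 / 4) {ρ h : ℝ → ℝ}
    (hρ : Bump ρ (-(δ / 2)) (δ / 2)) (hρ1 : ∫ y, ρ y = 1) (hh : Bump h 0 θ)
    (hconst : ∀ t ≤ 2 * δ, HH h t = HH h 0) (Y : ℝ) (hY : Y ≤ 1 / 2 + δ) :
    CC ρ ρ h Y (-δ) = HH h 0 * ∫ y, ρ y * HH h (y - Y) := by
  unfold CC
  set J := ∫ t : ℝ, h t ^ 2 with hJ
  have hpt : ∀ x y : ℝ, ρ x * ρ y * (HH h (x - Y) * HH h (y - -δ) +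
      J * (max (min (Y - x) (-δ - y)) 0 - max (Y - x + (-δ - y) - 1) 0)) =
      (ρ x * HH h (x - Y)) * (ρ y * HH h 0) := by
    intro x y
    by_cases hx : ρ x = 0
    · simp [hx]
    by_cases hy : ρ y = 0
    · simp [hy]
    obtain ⟨hx1, hx2⟩ := hρ.supp x hx
    obtain ⟨hy1, hy2⟩ := hρ.supp y hy
    have h1 : max (min (Y - x) (-δ - y)) 0 = 0 :=
      max_eq_right ((min_le_right _ _).trans (by linarith only [hδ, hy1]))
    have h2 : max (Y - x + (-δ - y) - 1) 0 = 0 := max_eq_right (by linarith)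
    rw [h1, h2, hconst (y - -δ) (by linarith)]
    ring
  simp_rw [hpt]
  simp_rw [integral_const_mul, integral_mul_const, hρ1]
  rw [one_mul]
  ring

open Classical in
private lemma fmG_tsum {F : ℝ → ℝ} {a b : ℝ} (hF : Bump F a b) (P : ℕ → Prop) (r : ℕ) (hr : r ≠ 0) (X : ℝ)
    (hX : 0 < X) : ∃ N : ℕ, ∀ g : ℕ → ℝ,
      ∑' d : ℕ, (if P d then F (d * r ^ 2 / X) * g d else 0) =
        ∑ d ∈ range N, (if P d then F (d * r ^ 2 / X) else 0) * g d := by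
  refine ⟨⌈|b| * X / r ^ 2⌉₊, fun g => ?_⟩
  have hr1 : (0:ℝ) < (r : ℝ) ^ 2 := by positivity
  rw [tsum_eq_sum (s := range ⌈|b| * X / r ^ 2⌉₊)]
  · refine Finset.sum_congr rfl fun d _ => ?_
    split_ifs <;> simp
  · intro d hd
    have hd' : ⌈|b| * X / r ^ 2⌉₊ ≤ d := by simpa using hd
    have h1 : |b| * X / r ^ 2 ≤ d := (Nat.le_ceil _).trans (by exact_mod_cast hd')
    have h2 : F (d * r ^ 2 / X) = 0 := by
      by_contra h
      have h3 := (hF.supp _ h).2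
      rw [div_le_iff₀ hr1] at h1
      rw [div_lt_iff₀ hX] at h3
      have h4 : b * X ≤ |b| * X := mul_le_mul_of_nonneg_right (le_abs_self b) hX.le
      linarith
    rw [h2]; simp

open Classical in
theorem first_momentG {θ δ : ℝ} (hδ : 0 < δ) (hδ4 : δ ≤ 1 / 4) (hθ : 0 < θ)
    (hθ1 : θ + 3 * δ < 1 / 2) (hE : ErrG θ δ) {F : ℝ → ℝ} {a b : ℝ} (ha : 0 < a) (hF : Bump F a b)
    (hF0 : 0 < ∫ t, F t) (hFn : ∀ t, 0 ≤ F t) (σ : ℤ) (hσ : σ = 1 ∨ σ = -1) {m c ε : ℤ} {κ : ℕ}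
    (hf : Fam m c ε κ) (r : ℕ) (hr : Odd r) (c' : ℝ) (hc' : c' = 0 ∨ c' = 1) {ρ h : ℝ → ℝ}
    (hρ : Bump ρ (-(δ / 2)) (δ / 2)) (hρ1 : ∫ y, ρ y = 1) (hh : Bump h 0 θ)
    (hconst : ∀ t ≤ 2 * δ, HH h t = HH h 0) (hpos : 0 < HH h 0) (ε' : ℝ) (hε' : 0 < ε') :
    ∃ X₀ : ℝ, ∀ X : ℝ, X₀ ≤ X → ∀ Y ∈ Set.Icc (-1 : ℝ) (1 / 2 + δ),
      |m * r ^ 2 / X * ∑' d : ℕ, (if Rf m c σ d then F (d * r ^ 2 / X) *
          ytil c' σ ρ h X (2 * (r ^ 2 * d)) Y else 0) -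
        (∫ t, F t) * ∫ y, ρ y * HH h (y - Y)| ≤ ε' := by
  have hr0 : r ≠ 0 := by rintro rfl; simp at hr
  obtain ⟨K, hK0, hK⟩ := fmG_CC_bound hδ4 hρ hh
  set I := ∫ t, F t with hI
  set c0 := HH h 0 with hc0
  set T := (I + 1) + (I * K + 1) with hT
  have hT0 : 0 < T := by (clear * - hF0 hK0; positivity)
  have hε₁ : 0 < ε' * c0 / 2 := by positivity
  have hε₂ : 0 < ε' * c0 / (2 * T) := by positivity
  obtain ⟨X₁, h1⟩ := second_momentG hδ hδ4 hθ hθ1 hE ha hF hF0 σ hσ hf r hr c' hc' hρ hρ hh _ hε₁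
  obtain ⟨X₂, h2⟩ := second_momentG hδ hδ4 hθ hθ1 hE ha hF hF0 σ hσ hf r hr c' hc' hρ hρ hh 1 one_pos
  obtain ⟨X₃, h3⟩ := zero_momentG ha hF σ hσ hf r hr 1 one_pos
  obtain ⟨X₄, h4⟩ := ytil_det hδ hθ hρ hh c' hc' σ _ hε₂
  refine ⟨max (max X₁ X₂) (max (max X₃ X₄) 1), fun X hX Y hY => ?_⟩
  have hX1 : X₁ ≤ X := le_trans (le_trans (le_max_left _ _) (le_max_left _ _)) hX
  have hX2 : X₂ ≤ X := le_trans (le_trans (le_max_right _ _) (le_max_left _ _)) hX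
  have hX34 : max (max X₃ X₄) 1 ≤ X := le_trans (le_max_right _ _) hX
  have hX3 : X₃ ≤ X := le_trans (le_trans (le_max_left _ _) (le_max_left _ _)) hX34
  have hX4 : X₄ ≤ X := le_trans (le_trans (le_max_right _ _) (le_max_left _ _)) hX34
  have hX5 : 1 ≤ X := le_trans (le_max_right _ _) hX34
  have hX0 : 0 < X := by linarith
  have hmem : -δ ∈ Set.Icc (-1 : ℝ) (1 / 2 + δ) := ⟨by linarith, by linarith⟩
  have a1 := h1 X hX1 Y hY (-δ) hmem
  have a2 := h2 X hX2 Y hY Y hY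
  have a3 := h3 X hX3
  have a4 := fun d : ℕ => h4 X hX4 d (-δ) ⟨by linarith, by linarith⟩
  rw [fmG_CC_eq hδ hδ4 hρ hρ1 hh hconst Y hY.2] at a1
  simp only [fmG_HHd hδ hρ hρ1 hh hconst] at a4
  obtain ⟨N, hN⟩ := fmG_tsum hF (Rf m c σ) r hr0 X hX0
  have hN1 : ∑' d : ℕ, (if Rf m c σ d then F (d * r ^ 2 / X) else 0) =
      ∑ d ∈ range N, (if Rf m c σ d then F (d * r ^ 2 / X) else 0) * 1 := by
    rw [← hN]
    exact tsum_congr fun d => by split_ifs <;> simp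
  rw [hN] at a1 a2
  rw [hN1] at a3
  rw [hN]
  set w : ℕ → ℝ := fun d => if Rf m c σ d then F (d * r ^ 2 / X) else 0 with hw
  have hw0 : ∀ d, 0 ≤ w d := by
    intro d
    simp only [hw]
    split_ifs
    · exact hFn _
    · exact le_rfl
  set y : ℕ → ℝ := fun d => ytil c' σ ρ h X (2 * (r ^ 2 * d)) Y with hy
  set z : ℕ → ℝ := fun d => ytil c' σ ρ h X (2 * (r ^ 2 * d)) (-δ) with hz
  set R := ∫ y, ρ y * HH h (y - Y) with hR
  have hm0 : (0 : ℝ) < m := by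
    rcases hf with ⟨h, _⟩ | ⟨h, _⟩ | ⟨h, _⟩ <;> rw [h] <;> norm_num
  set P : ℝ := m * r ^ 2 / X with hP
  have hP0 : 0 < P := by positivity
  change |P * ∑ d ∈ range N, w d * (y d * z d) - I * (c0 * R)| ≤ ε' * c0 / 2 at a1
  change |P * ∑ d ∈ range N, w d * (y d * y d) - I * CC ρ ρ h Y Y| ≤ 1 at a2
  change |P * ∑ d ∈ range N, w d * 1 - I| ≤ 1 at a3
  change |P * ∑ d ∈ range N, w d * y d - I * R| ≤ ε'
  have b2 : P * ∑ d ∈ range N, w d * (y d * y d) ≤ I * K + 1 := by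
    have := (abs_le.1 a2).2
    have h5 : I * CC ρ ρ h Y Y ≤ I * K :=
      mul_le_mul_of_nonneg_left ((le_abs_self _).trans (hK Y hY)) hF0.le
    linarith
  have b3 : P * ∑ d ∈ range N, w d * 1 ≤ I + 1 := by
    have := (abs_le.1 a3).2
    linarith
  have b4 : |P * ∑ d ∈ range N, w d * (y d * (z d - c0))| ≤ ε' * c0 / (2 * T) * T := by
    rw [abs_mul, abs_of_pos hP0]
    have h5 : |∑ d ∈ range N, w d * (y d * (z d - c0))| ≤
        ∑ d ∈ range N, ε' * c0 / (2 * T) * (w d * 1 + w d * (y d * y d)) := by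
      refine (Finset.abs_sum_le_sum_abs _ _).trans (Finset.sum_le_sum fun d _ => ?_)
      rw [abs_mul, abs_of_nonneg (hw0 d), abs_mul]
      have h6 : |z d - c0| ≤ ε' * c0 / (2 * T) := a4 (2 * (r ^ 2 * d))
      have h7 : |y d| ≤ 1 + y d * y d := by
        rw [← abs_mul_abs_self (y d)]
        nlinarith only [hδ, hθ, hθ1, sq_nonneg (|y d| - 1), abs_nonneg (y d)]
      calc w d * (|y d| * |z d - c0|) ≤ w d * ((1 + y d * y d) * (ε' * c0 / (2 * T))) := by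
            refine mul_le_mul_of_nonneg_left ?_ (hw0 d)
            exact mul_le_mul h7 h6 (abs_nonneg _) (by nlinarith only [hδ, hθ, hθ1, mul_self_nonneg (y d)])
        _ = ε' * c0 / (2 * T) * (w d * 1 + w d * (y d * y d)) := by ring
    calc P * |∑ d ∈ range N, w d * (y d * (z d - c0))|
        ≤ P * ∑ d ∈ range N, ε' * c0 / (2 * T) * (w d * 1 + w d * (y d * y d)) :=
          mul_le_mul_of_nonneg_left h5 hP0.le
      _ = ε' * c0 / (2 * T) * (P * ∑ d ∈ range N, w d * 1 + P * ∑ d ∈ range N, w d * (y d * y d)) := by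
          rw [← Finset.mul_sum, Finset.sum_add_distrib]; ring
      _ ≤ ε' * c0 / (2 * T) * T := by
          refine mul_le_mul_of_nonneg_left ?_ hε₂.le
          rw [hT]; linarith
  have b5 : ε' * c0 / (2 * T) * T = ε' * c0 / 2 := by field_simp
  rw [b5] at b4
  have b6 : c0 * (P * ∑ d ∈ range N, w d * y d - I * R) =
      (P * ∑ d ∈ range N, w d * (y d * z d) - I * (c0 * R)) -
        P * ∑ d ∈ range N, w d * (y d * (z d - c0)) := by
    have : ∑ d ∈ range N, w d * (y d * (z d - c0)) =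
        ∑ d ∈ range N, w d * (y d * z d) - c0 * ∑ d ∈ range N, w d * y d := by
      rw [Finset.mul_sum, ← Finset.sum_sub_distrib]
      exact Finset.sum_congr rfl fun d _ => by ring
    rw [this]; ring
  have b7 : c0 * |P * ∑ d ∈ range N, w d * y d - I * R| ≤ c0 * ε' := by
    rw [← abs_of_pos hpos, ← abs_mul, abs_of_pos hpos, b6]
    refine (abs_sub _ _).trans ?_
    linarith
  exact le_of_mul_le_mul_left b7 hpos


end Pool.Agent.MP0016c7.Rz
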