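import Mathlib
import Pool.Agent.Lib.MP_0016c7_nt.Rz.Defs
import Pool.Agent.Lib.MP_0016c7_nt.Rz.DefsC
import Pool.Agent.Lib.MP_0016c7_nt.Rz.DefsE
import Pool.Agent.Lib.MP_0016c7_nt.Rz.DefsF
import Pool.Agent.Lib.MP_0016c7_nt.Rz2.DefsG
import Pool.Agent.Lib.MP_0016c7_nt.Rz2.FmG
import Pool.Agent.Lib.MP_0016c7_nt.Rz2.YS1

set_option autoImplicit false

/-!
The first moment of the process of a family.
-/

open Finset MeasureTheory Filter Topology
open scoped Real ContDiff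

namespace Pool.Agent.MP0016c7.Rz

private lemma fms_tail {w x : ℕ → ℝ} {q B e : ℝ} (hq : 0 ≤ q) (hq1 : q < 1) (he : 0 ≤ e)
    (hw : ∀ j, |w j| ≤ q ^ j) (J : ℕ) (h1 : ∀ j, j < J → |x j| ≤ e) (h2 : ∀ j, |x j| ≤ B) :
    Summable (fun j => w j * x j) ∧ |∑' j, w j * x j| ≤ (e + B * q ^ J) / (1 - q) := by
  have hB : 0 ≤ B := (abs_nonneg _).trans (h2 0)
  have hu : HasSum (fun j => if j < J then (0 : ℝ) else q ^ j * B) (q ^ J * B / (1 - q)) := by
    have h3 : HasSum (fun j => if j + J < J then (0 : ℝ) else q ^ (j + J) * B)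
        (q ^ J * B / (1 - q)) := by
      have h4 := (hasSum_geometric_of_lt_one hq hq1).mul_left (q ^ J * B)
      rw [← div_eq_mul_inv] at h4
      have e : (fun j => if j + J < J then (0 : ℝ) else q ^ (j + J) * B) =
          fun j => q ^ J * B * q ^ j := by
        funext j
        rw [if_neg (by omega), pow_add]
        ring
      rw [e]
      exact h4
    have h5 := (hasSum_nat_add_iff (f := fun j => if j < J then (0 : ℝ) else q ^ j * B) J).1 h3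
    have h6 : ∑ i ∈ range J, (if i < J then (0 : ℝ) else q ^ i * B) = 0 := by
      apply Finset.sum_eq_zero
      intro j hj
      rw [if_pos (Finset.mem_range.1 hj)]
    rw [h6, add_zero] at h5
    exact h5
  have hv : HasSum (fun j => q ^ j * e) (e / (1 - q)) := by
    have h4 := (hasSum_geometric_of_lt_one hq hq1).mul_right e
    rw [inv_mul_eq_div] at h4
    exact h4
  have huv := hv.add hu
  have hle : ∀ j, ‖w j * x j‖ ≤ q ^ j * e + (if j < J then (0 : ℝ) else q ^ j * B) := by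
    intro j
    have hqj : 0 ≤ q ^ j := pow_nonneg hq j
    rw [Real.norm_eq_abs, abs_mul]
    by_cases hj : j < J
    · rw [if_pos hj, add_zero]
      exact mul_le_mul (hw j) (h1 j hj) (abs_nonneg _) hqj
    · rw [if_neg hj]
      have : |w j| * |x j| ≤ q ^ j * B := mul_le_mul (hw j) (h2 j) (abs_nonneg _) hqj
      have : 0 ≤ q ^ j * e := mul_nonneg hqj he
      linarith
  have hs : Summable (fun j => w j * x j) := Summable.of_norm_bounded huv.summable hle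
  refine ⟨hs, ?_⟩
  have h6 := tsum_of_norm_bounded huv hle
  rw [Real.norm_eq_abs] at h6
  refine h6.trans (le_of_eq ?_)
  rw [← add_div]
  ring

private lemma fms_sqrt : (1 / √2 : ℝ) ≤ 3 / 4 ∧ 0 < (1 / √2 : ℝ) := by
  have h2 : (0 : ℝ) < √2 := by positivity
  refine ⟨?_, by positivity⟩
  rw [div_le_iff₀ h2]
  nlinarith only [h2, Real.sq_sqrt (show (0 : ℝ) ≤ 2 by norm_num), Real.sqrt_nonneg 2]

private lemma fms_weight {ε : ℤ} (hε : ε = 0 ∨ ε = 1 ∨ ε = -1) :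
    (∀ j : ℕ, |(ε : ℝ) ^ j / √2 ^ j| ≤ (1 / √2) ^ j) ∧ |1 - (ε : ℝ) / √2| ≤ 2 ∧
      HasSum (fun j : ℕ => (ε : ℝ) ^ j / √2 ^ j) (1 - (ε : ℝ) / √2)⁻¹ ∧ 1 - (ε : ℝ) / √2 ≠ 0 := by
  have h2 : (0 : ℝ) < √2 := by positivity
  have habs : |(ε : ℝ)| ≤ 1 := by
    rcases hε with h | h | h <;> subst h <;> simp
  obtain ⟨hs1, hs2⟩ := fms_sqrt
  have habs2 : |(ε : ℝ) / √2| ≤ 3 / 4 := by
    rw [abs_div, abs_of_pos h2]
    calc |(ε : ℝ)| / √2 ≤ 1 / √2 := by gcongr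
      _ ≤ 3 / 4 := hs1
  have h3 := abs_le.1 habs2
  refine ⟨fun j => ?_, ?_, ?_, ?_⟩
  · rw [← div_pow, abs_pow, abs_div, abs_of_pos h2]
    gcongr
  · rw [abs_le]
    constructor <;> linarith only [hs1, hs2, h3]
  · have h4 := hasSum_geometric_of_abs_lt_one (r := (ε : ℝ) / √2) (by linarith only [hs1, hs2, habs2])
    refine h4.congr_fun fun j => ?_
    rw [div_pow]
  · intro h
    linarith only [hs1, hs2, h3, h]

private lemma fms_T {ρ h : ℝ → ℝ} {δ θ : ℝ} (hρ : Bump ρ (-(δ / 2)) (δ / 2)) (hh : Bump h 0 θ) :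
    ∃ C : ℝ, 0 ≤ C ∧ (∀ Y, |∫ y, ρ y * HH h (y - Y)| ≤ C) ∧
      ∀ Y Z, |(∫ y, ρ y * HH h (y - Y)) - ∫ y, ρ y * HH h (y - Z)| ≤ C * |Y - Z| := by
  obtain ⟨S, hS0, hS⟩ := K1x.bump_bd hh
  have hρi : Integrable (fun y => |ρ y|) := (K1x.bump_int hρ).abs
  have hI0 : 0 ≤ ∫ y, |ρ y| := integral_nonneg fun y => abs_nonneg _
  have hh0 : 0 ≤ ∫ t, |h t| := integral_nonneg fun y => abs_nonneg _
  have hint : ∀ Y, Integrable (fun y => ρ y * HH h (y - Y)) := by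
    intro Y
    apply Continuous.integrable_of_hasCompactSupport
    · exact hρ.smooth.continuous.mul ((K1x.HH_cont hh).comp (continuous_id.sub continuous_const))
    · exact (K1x.bump_compact hρ).mul_right
  refine ⟨(∫ y, |ρ y|) * (∫ t, |h t|) + (∫ y, |ρ y|) * S, by positivity, ?_, ?_⟩
  · intro Y
    have h1 : ‖∫ y, ρ y * HH h (y - Y)‖ ≤ ∫ y, |ρ y| * (∫ t, |h t|) := by
      apply norm_integral_le_of_norm_le (hρi.mul_const _)
      refine Eventually.of_forall fun y => ?_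
      rw [Real.norm_eq_abs, abs_mul]
      exact mul_le_mul_of_nonneg_left (K1x.HH_abs hh _) (abs_nonneg _)
    rw [integral_mul_const, Real.norm_eq_abs] at h1
    have : 0 ≤ (∫ y, |ρ y|) * S := by positivity
    linarith
  · intro Y Z
    rw [← integral_sub (hint Y) (hint Z)]
    have h1 : ‖∫ y, (ρ y * HH h (y - Y) - ρ y * HH h (y - Z))‖ ≤ ∫ y, |ρ y| * (S * |Y - Z|) := by
      apply norm_integral_le_of_norm_le (hρi.mul_const _)
      refine Eventually.of_forall fun y => ?_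
      rw [Real.norm_eq_abs, ← mul_sub, abs_mul]
      apply mul_le_mul_of_nonneg_left _ (abs_nonneg _)
      have h2 := K1x.HH_lip hh hS (y - Y) (y - Z)
      have e : |y - Y - (y - Z)| = |Y - Z| := by
        rw [abs_sub_comm Y Z]
        congr 1
        ring
      rw [e] at h2
      exact h2
    rw [integral_mul_const, Real.norm_eq_abs] at h1
    have h3 : 0 ≤ (∫ y, |ρ y|) * (∫ t, |h t|) * |Y - Z| := by positivity
    nlinarith

open Classical in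
private lemma fms_swap {δ θ : ℝ} (hδ : 0 < δ) {F : ℝ → ℝ} {a b : ℝ} (ha : 0 < a)
    (hF : Bump F a b) (σ : ℤ) {m c ε : ℤ} (hε : ε = 0 ∨ ε = 1 ∨ ε = -1) (r : ℕ) (hr : 0 < r)
    (c' : ℝ) (hc' : c' = 0 ∨ c' = 1) {ρ h : ℝ → ℝ} (hρ : Bump ρ (-(δ / 2)) (δ / 2))
    (hh : Bump h 0 θ) (X : ℝ) (hX : 1 < X) (Y : ℝ) :
    m * r ^ 2 / X * ∑' d : ℕ, (if Rf m c σ d then F (d * r ^ 2 / X) *
        yS c' ε σ ρ h X (r ^ 2 * d) Y else 0) =
      (1 - ε / √2) * ∑' j : ℕ, (ε : ℝ) ^ j / √2 ^ j *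
        (m * r ^ 2 / X * ∑' d : ℕ, (if Rf m c σ d then F (d * r ^ 2 / X) *
          ytil c' σ ρ h X (2 * (r ^ 2 * d)) (Y - j * Real.log 2 / Real.log X) else 0)) := by
  have hX0 : 0 < X := by linarith
  have hr1 : (1 : ℝ) ≤ (r : ℝ) ^ 2 := by
    have : (1 : ℝ) ≤ (r : ℝ) := by exact_mod_cast hr
    nlinarith only [this]
  set N : ℕ := ⌈b * X⌉₊ with hN
  have hF0 : ∀ d : ℕ, d ∉ range N → F (d * r ^ 2 / X) = 0 := by
    intro d hd
    by_contra hne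
    have h1 := (hF.supp _ hne).2
    rw [div_lt_iff₀ hX0] at h1
    rw [Finset.mem_range, not_lt, hN] at hd
    have h2 : b * X ≤ (d : ℝ) := (Nat.le_ceil _).trans (by exact_mod_cast hd)
    have h3 : (d : ℝ) ≤ d * r ^ 2 := by
      have : (0 : ℝ) ≤ (d : ℝ) := by positivity
      nlinarith only [h1, h2, hr1]
    linarith
  have hts : ∀ y : ℕ → ℝ, ∑' d : ℕ, (if Rf m c σ d then F (d * r ^ 2 / X) * y d else 0) =
      ∑ d ∈ range N, (if Rf m c σ d then F (d * r ^ 2 / X) * y d else 0) := by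
    intro y
    apply tsum_eq_sum
    intro d hd
    rw [hF0 d hd, zero_mul, ite_self]
  rw [hts]
  simp_rw [hts]
  have hsum : ∀ d : ℕ, Summable (fun j : ℕ => (ε : ℝ) ^ j / √2 ^ j *
      ytil c' σ ρ h X (2 * (r ^ 2 * d)) (Y - j * Real.log 2 / Real.log X)) :=
    fun d => yS_summable hδ hρ hh c' hc' ε σ hε X hX (r ^ 2 * d) Y
  have e1 : ∀ d : ℕ, (if Rf m c σ d then F (d * r ^ 2 / X) *
        yS c' ε σ ρ h X (r ^ 2 * d) Y else 0) = (1 - ε / √2) * ∑' j : ℕ,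
        (if Rf m c σ d then F (d * r ^ 2 / X) else 0) * ((ε : ℝ) ^ j / √2 ^ j *
      ytil c' σ ρ h X (2 * (r ^ 2 * d)) (Y - j * Real.log 2 / Real.log X)) := by
    intro d
    rw [tsum_mul_left]
    unfold yS
    split_ifs
    · ring
    · simp
  rw [Finset.sum_congr rfl fun d _ => e1 d, ← Finset.mul_sum,
    ← Summable.tsum_finsetSum (fun d _ => (hsum d).mul_left _)]
  rw [← mul_assoc, mul_comm (m * r ^ 2 / X : ℝ), mul_assoc, ← tsum_mul_left]
  congr 1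
  apply tsum_congr
  intro j
  rw [Finset.mul_sum, Finset.mul_sum, Finset.mul_sum]
  refine Finset.sum_congr rfl fun d _ => ?_
  split_ifs
  · ring
  · simp

open Classical in
private lemma fms_small {δ θ : ℝ} (hδ : 0 < δ) (hθ : 0 < θ) (hθ1 : θ + 3 * δ < 1 / 2)
    {F : ℝ → ℝ} {a b : ℝ} (ha : 0 < a)
    (hF : Bump F a b) (σ : ℤ) {m c : ℤ} (r : ℕ) (hr : 0 < r)
    (c' : ℝ) (hc' : c' = 0 ∨ c' = 1) {ρ h : ℝ → ℝ} (hρ : Bump ρ (-(δ / 2)) (δ / 2))
    (hh : Bump h 0 θ) :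
    ∃ C X₀ : ℝ, 0 ≤ C ∧ ∀ X : ℝ, X₀ ≤ X → ∀ Y : ℝ, Y ≤ -1 →
      |m * r ^ 2 / X * ∑' d : ℕ, (if Rf m c σ d then F (d * r ^ 2 / X) *
          ytil c' σ ρ h X (2 * (r ^ 2 * d)) Y else 0)| ≤ C := by
  obtain ⟨X₁, hX₁⟩ := ytil_small hδ hθ hθ1 hρ hh c' hc' σ
  obtain ⟨S, hS0, hS⟩ := K1x.bump_bd hF
  refine ⟨|(m : ℝ)| * r ^ 2 * ((|b| + 2) * S), max X₁ 1, by (clear * - hr hS0; positivity), ?_⟩
  intro X hX Y hY
  have hX1 : 1 ≤ X := (le_max_right _ _).trans hX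
  have hX0 : 0 < X := by linarith
  have hr1 : (1 : ℝ) ≤ (r : ℝ) ^ 2 := by
    have : (1 : ℝ) ≤ (r : ℝ) := by exact_mod_cast hr
    nlinarith only [this]
  set N : ℕ := ⌈|b| * X⌉₊ with hN
  have hF0 : ∀ d : ℕ, d ∉ range N → F (d * r ^ 2 / X) = 0 := by
    intro d hd
    by_contra hne
    have h1 := (hF.supp _ hne).2
    rw [div_lt_iff₀ hX0] at h1
    rw [Finset.mem_range, not_lt, hN] at hd
    have h2 : |b| * X ≤ (d : ℝ) := (Nat.le_ceil _).trans (by exact_mod_cast hd)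
    have h3 : (d : ℝ) ≤ d * r ^ 2 := by
      have : (0 : ℝ) ≤ (d : ℝ) := by positivity
      nlinarith only [hr1]
    have h4 : b * X ≤ |b| * X := mul_le_mul_of_nonneg_right (le_abs_self b) hX0.le
    linarith
  rw [tsum_eq_sum (s := range N) (by
    intro d hd
    rw [hF0 d hd, zero_mul, ite_self])]
  have hXp : X ^ (-30 : ℝ) ≤ 1 := Real.rpow_le_one_of_one_le_of_nonpos hX1 (by norm_num)
  have h5 : |∑ d ∈ range N, (if Rf m c σ d then F (d * r ^ 2 / X) *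
      ytil c' σ ρ h X (2 * (r ^ 2 * d)) Y else 0)| ≤ N * S := by
    refine (Finset.abs_sum_le_sum_abs _ _).trans ?_
    rw [← nsmul_eq_mul, ← Finset.card_range N, ← Finset.sum_const, Finset.card_range]
    refine Finset.sum_le_sum fun d _ => ?_
    split_ifs
    · rw [abs_mul]
      have h6 := (hX₁ X ((le_max_left _ _).trans hX) Y hY (2 * (r ^ 2 * d))).trans hXp
      calc _ ≤ S * 1 := mul_le_mul (hS _) h6 (abs_nonneg _) hS0
        _ = S := mul_one S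
    · rw [abs_zero]
      exact hS0
  have h7 : (N : ℝ) ≤ (|b| + 2) * X := by
    have := (Nat.ceil_lt_add_one (a := |b| * X) (by positivity)).le
    rw [← hN] at this
    nlinarith only [hδ, hθ, hθ1, hX1, this, abs_nonneg b]
  rw [abs_mul, abs_div, abs_mul, abs_of_pos hX0, abs_of_pos (by positivity : (0 : ℝ) < (r : ℝ) ^ 2)]
  calc |(m : ℝ)| * r ^ 2 / X * |∑ d ∈ range N, (if Rf m c σ d then F (d * r ^ 2 / X) *
      ytil c' σ ρ h X (2 * (r ^ 2 * d)) Y else 0)|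
      ≤ |(m : ℝ)| * r ^ 2 / X * (((|b| + 2) * X) * S) := by
        apply mul_le_mul_of_nonneg_left _ (by positivity)
        exact h5.trans (mul_le_mul_of_nonneg_right h7 hS0)
    _ = |(m : ℝ)| * r ^ 2 * ((|b| + 2) * S) := by
        field_simp

open Classical in
theorem first_momentS {θ δ : ℝ} (hδ : 0 < δ) (hδ4 : δ ≤ 1 / 4) (hθ : 0 < θ)
    (hθ1 : θ + 3 * δ < 1 / 2) (hE : ErrG θ δ) {F : ℝ → ℝ} {a b : ℝ} (ha : 0 < a) (hF : Bump F a b)
    (hF0 : 0 < ∫ t, F t) (hFn : ∀ t, 0 ≤ F t) (σ : ℤ) (hσ : σ = 1 ∨ σ = -1) {m c ε : ℤ} {κ : ℕ}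
    (hf : Fam m c ε κ) (r : ℕ) (hr : Odd r) (c' : ℝ) (hc' : c' = 0 ∨ c' = 1) {ρ h : ℝ → ℝ}
    (hρ : Bump ρ (-(δ / 2)) (δ / 2)) (hρ1 : ∫ y, ρ y = 1) (hh : Bump h 0 θ)
    (hconst : ∀ t ≤ 2 * δ, HH h t = HH h 0) (hpos : 0 < HH h 0) (ε' : ℝ) (hε' : 0 < ε') :
    ∃ X₀ : ℝ, ∀ X : ℝ, X₀ ≤ X → ∀ Y ∈ Set.Icc (-(1 / 2) : ℝ) (1 / 2 + δ),
      |m * r ^ 2 / X * ∑' d : ℕ, (if Rf m c σ d then F (d * r ^ 2 / X) *
          yS c' ε σ ρ h X (r ^ 2 * d) Y else 0) -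
        (∫ t, F t) * ∫ y, ρ y * HH h (y - Y)| ≤ ε' := by
  have hε : ε = 0 ∨ ε = 1 ∨ ε = -1 := by
    rcases hf with h | h | h
    · exact Or.inl h.2.2.1
    · exact Or.inr (Or.inl h.2.2.1)
    · exact Or.inr (Or.inr h.2.2.1)
  have hr0 : 0 < r := hr.pos
  obtain ⟨hw1, hw2, hw3, hw4⟩ := fms_weight hε
  obtain ⟨hs1, hs2⟩ := fms_sqrt
  obtain ⟨CT, hCT0, hCT1, hCT2⟩ := fms_T hρ hh
  obtain ⟨Cs, X₁, hCs, hX₁⟩ := fms_small (m := m) (c := c) hδ hθ hθ1 ha hF σ r hr0 c' hc' hρ hh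
  have hfm := first_momentG hδ hδ4 hθ hθ1 hE ha hF hF0 hFn σ hσ hf r hr c' hc' hρ hρ1 hh hconst hpos
  obtain ⟨X₂, hX₂⟩ := hfm 1 one_pos
  set I₀ : ℝ := ∫ t, F t with hI₀
  set B : ℝ := Cs + 1 + 2 * (I₀ * CT) with hB
  have hIC : 0 ≤ I₀ * CT := mul_nonneg hF0.le hCT0
  have hB0 : 0 < B := by linarith
  -- the cut in `j`
  obtain ⟨J, hJ⟩ : ∃ J : ℕ, B * (1 / √2) ^ J ≤ ε' / 16 := by
    have h1 : Tendsto (fun J : ℕ => B * (1 / √2 : ℝ) ^ J) atTop (𝓝 (B * 0)) :=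
      (tendsto_pow_atTop_nhds_zero_of_lt_one hs2.le (by linarith)).const_mul B
    rw [mul_zero] at h1
    exact (h1.eventually (ge_mem_nhds (by positivity : (0 : ℝ) < ε' / 16))).exists
  obtain ⟨X₃, hX₃⟩ := hfm (ε' / 32) (by positivity)
  -- the shift is small
  obtain ⟨X₄, hX₄⟩ : ∃ X₄ : ℝ, ∀ X : ℝ, X₄ ≤ X → (J : ℝ) * Real.log 2 / Real.log X ≤ 1 / 2 ∧
      I₀ * (CT * ((J : ℝ) * Real.log 2 / Real.log X)) ≤ ε' / 32 := by
    have h1 : Tendsto (fun X : ℝ => (J : ℝ) * Real.log 2 / Real.log X) atTop (𝓝 0) :=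
      Real.tendsto_log_atTop.const_div_atTop _
    have h2 : Tendsto (fun X : ℝ => I₀ * (CT * ((J : ℝ) * Real.log 2 / Real.log X))) atTop
        (𝓝 0) := by
      have := (h1.const_mul CT).const_mul I₀
      simpa using this
    have h3 := (h1.eventually (ge_mem_nhds (by norm_num : (0 : ℝ) < 1 / 2))).and
      (h2.eventually (ge_mem_nhds (by positivity : (0 : ℝ) < ε' / 32)))
    obtain ⟨X₄, hX₄⟩ := h3.exists_forall_of_atTop
    exact ⟨X₄, hX₄⟩
  refine ⟨max (max X₁ X₂) (max (max X₃ X₄) 3), ?_⟩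
  intro X hX Y hY
  have hXa : X₁ ≤ X := (le_max_left _ _).trans ((le_max_left _ _).trans hX)
  have hXb : X₂ ≤ X := (le_max_right _ _).trans ((le_max_left _ _).trans hX)
  have hXc : X₃ ≤ X :=
    (le_max_left _ _).trans ((le_max_left _ _).trans ((le_max_right _ _).trans hX))
  have hXd : X₄ ≤ X :=
    (le_max_right _ _).trans ((le_max_left _ _).trans ((le_max_right _ _).trans hX))
  have hX3 : 3 ≤ X := (le_max_right _ _).trans ((le_max_right _ _).trans hX)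
  have hX1 : 1 < X := by linarith
  have hlogX : 0 < Real.log X := Real.log_pos hX1
  have hlog2 : 0 < Real.log 2 := Real.log_pos (by norm_num)
  rw [fms_swap hδ ha hF σ hε r hr0 c' hc' hρ hh X hX1 Y]
  set A : ℕ → ℝ := fun j => m * r ^ 2 / X * ∑' d : ℕ, (if Rf m c σ d then F (d * r ^ 2 / X) *
          ytil c' σ ρ h X (2 * (r ^ 2 * d)) (Y - j * Real.log 2 / Real.log X) else 0) with hA
  set T : ℝ := ∫ y, ρ y * HH h (y - Y) with hT
  have hshift : ∀ j : ℕ, 0 ≤ (j : ℝ) * Real.log 2 / Real.log X := fun j => by positivity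
  have hbig : ∀ j, |A j - I₀ * T| ≤ B := by
    intro j
    by_cases hj : -1 ≤ Y - j * Real.log 2 / Real.log X
    · have h1 := hX₂ X hXb (Y - j * Real.log 2 / Real.log X)
        ⟨hj, by linarith [hY.2, hshift j]⟩
      have h2 := hCT1 (Y - j * Real.log 2 / Real.log X)
      have h3 := hCT1 Y
      have h4 : |I₀ * (∫ y, ρ y * HH h (y - (Y - j * Real.log 2 / Real.log X)))| ≤ I₀ * CT := by
        rw [abs_mul, abs_of_pos hF0]
        exact mul_le_mul_of_nonneg_left h2 hF0.le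
      have h5 : |I₀ * T| ≤ I₀ * CT := by
        rw [abs_mul, abs_of_pos hF0]
        exact mul_le_mul_of_nonneg_left h3 hF0.le
      have h1' := abs_le.1 h1
      have h4' := abs_le.1 h4
      have h5' := abs_le.1 h5
      rw [abs_le]
      constructor <;> linarith only [hCs, h1', h4', h5', h1'.1, h1'.2]
    · have h1 := hX₁ X hXa (Y - j * Real.log 2 / Real.log X) (by linarith only [hj])
      have h5 : |I₀ * T| ≤ I₀ * CT := by
        rw [abs_mul, abs_of_pos hF0]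
        exact mul_le_mul_of_nonneg_left (hCT1 Y) hF0.le
      have h1' := abs_le.1 h1
      have h5' := abs_le.1 h5
      rw [abs_le]
      constructor <;> linarith only [hδ, hθ, hθ1, hIC, h1', h5', h1'.1, h1'.2]
  have hsmall : ∀ j, j < J → |A j - I₀ * T| ≤ ε' / 16 := by
    intro j hj
    have hjJ : (j : ℝ) * Real.log 2 / Real.log X ≤ (J : ℝ) * Real.log 2 / Real.log X := by
      have : (j : ℝ) ≤ (J : ℝ) := by exact_mod_cast hj.le
      (clear * - this hlogX; gcongr)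
    obtain ⟨h4a, h4b⟩ := hX₄ X hXd
    have h1 := hX₃ X hXc (Y - j * Real.log 2 / Real.log X)
        ⟨by linarith only [hjJ, h4a, hY, hY.1], by linarith only [hY, hshift, hY.2, hshift j]⟩
    have h2 := hCT2 (Y - j * Real.log 2 / Real.log X) Y
    have e : |Y - j * Real.log 2 / Real.log X - Y| = j * Real.log 2 / Real.log X := by
      rw [show Y - j * Real.log 2 / Real.log X - Y = -(j * Real.log 2 / Real.log X) by ring,
        abs_neg, abs_of_nonneg (hshift j)]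
    rw [e] at h2
    have h3 : |I₀ * ((∫ y, ρ y * HH h (y - (Y - j * Real.log 2 / Real.log X))) - T)| ≤ ε' / 32 := by
      rw [abs_mul, abs_of_pos hF0]
      refine (mul_le_mul_of_nonneg_left (h2.trans
        (mul_le_mul_of_nonneg_left hjJ hCT0)) hF0.le).trans h4b
    have h1' := abs_le.1 h1
    have h3' := abs_le.1 h3
    rw [mul_sub] at h3'
    rw [abs_le]
    constructor <;> linarith only [h1', h3', h1'.1, h1'.2, h3'.1, h3'.2]
  obtain ⟨hsum, htail⟩ := fms_tail (w := fun j : ℕ => (ε : ℝ) ^ j / √2 ^ j)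
    (x := fun j => A j - I₀ * T) hs2.le (by linarith : (1 / √2 : ℝ) < 1)
    (by positivity : (0 : ℝ) ≤ ε' / 16) hw1 J hsmall hbig
  have hconstsum : HasSum (fun j : ℕ => (ε : ℝ) ^ j / √2 ^ j * (I₀ * T))
      ((1 - (ε : ℝ) / √2)⁻¹ * (I₀ * T)) := hw3.mul_right _
  have hAsum : ∑' j : ℕ, (ε : ℝ) ^ j / √2 ^ j * A j =
      (∑' j : ℕ, (ε : ℝ) ^ j / √2 ^ j * (A j - I₀ * T)) + (1 - (ε : ℝ) / √2)⁻¹ * (I₀ * T) := by
    rw [← hconstsum.tsum_eq, ← hsum.tsum_add hconstsum.summable]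
    apply tsum_congr
    intro j
    ring
  have hfin : (1 - (ε : ℝ) / √2) * ∑' j : ℕ, (ε : ℝ) ^ j / √2 ^ j * A j - I₀ * T =
      (1 - (ε : ℝ) / √2) * ∑' j : ℕ, (ε : ℝ) ^ j / √2 ^ j * (A j - I₀ * T) := by
    rw [hAsum, mul_add, ← mul_assoc, mul_inv_cancel₀ hw4, one_mul]
    ring
  rw [hfin, abs_mul]
  have hq : (1 : ℝ) / 4 ≤ 1 - 1 / √2 := by linarith only [hs1]
  have h8 : (ε' / 16 + B * (1 / √2) ^ J) / (1 - 1 / √2) ≤ ε' / 2 := by
    rw [div_le_iff₀ (by linarith only [hδ, hθ, hθ1, hs1])]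
    nlinarith only [hJ, hδ, hθ, hθ1, hε', hs1]
  calc |1 - (ε : ℝ) / √2| * |∑' j : ℕ, (ε : ℝ) ^ j / √2 ^ j * (A j - I₀ * T)|
      ≤ 2 * (ε' / 2) := mul_le_mul hw2 (htail.trans h8) (abs_nonneg _) (by norm_num)
    _ = ε' := by ring

end Pool.Agent.MP0016c7.Rz
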