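import Mathlib
import Pool.Agent.Lib.MP_0016c7_nt.Rz.Defs
import Pool.Agent.Lib.MP_0016c7_nt.Rz2.QDefs
import Pool.Agent.Lib.MP_0016c7_nt.Rz2.GGx
import Pool.Agent.Lib.MP_0016c7_nt.Rz2.Split4

set_option autoImplicit false

/-!
Bound of the quadruple sum for a fixed `k` (D3).
-/

open Finset MeasureTheory Filter Topology
open scoped Real ContDiff

namespace Pool.Agent.MP0016c7.Rz

private theorem t4le_quad (Z M : ℕ) (F : ℕ → ℕ → ℕ → ℕ → ℂ) :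
    ∑ l₁ ∈ Icc 1 Z, ∑ l₂ ∈ Icc 1 Z, ∑ n₁ ∈ Icc 1 M, ∑ n₂ ∈ Icc 1 M, F l₁ l₂ n₁ n₂ =
      ∑ q ∈ Icc 1 Z ×ˢ Icc 1 Z ×ˢ Icc 1 M ×ˢ Icc 1 M, F q.1 q.2.1 q.2.2.1 q.2.2.2 := by
  simp only [Finset.sum_product]

private theorem t4le_term (k₀ : ℤ) (hk : Squarefree k₀) (f Z M : ℕ) (hf : 0 < f)
    (c : ℂ) (l₁ l₂ n₁ n₂ : ℕ) (hl₁ : l₁ ∈ Icc 1 Z) (hl₂ : l₂ ∈ Icc 1 Z) (hn₁ : n₁ ∈ Icc 1 M)
    (hn₂ : n₂ ∈ Icc 1 M) (ho : c ≠ 0 → Odd (l₁ * l₂ * n₁ * n₂)) :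
    c * ((√((l₁ * l₂ * n₁ * n₂ : ℕ) : ℝ) * gg (k₀ * (f : ℤ) ^ 2) (l₁ * l₂ * n₁ * n₂) : ℝ) : ℂ) =
      ∑ a ∈ f.divisors, ∑ b ∈ (f / a).divisors, ∑ g ∈ Icc 1 (Z * M),
        (((ArithmeticFunction.moebius g : ℝ) * (ArithmeticFunction.moebius a : ℝ) * jr k₀ a * b :
          ℝ) : ℂ) * (c * (EDv k₀ (g ^ 2 * (a * b ^ 2)) (l₁ * l₂ * n₁ * n₂) : ℂ)) := by
  by_cases hc : c = 0
  · simp [hc]
  · rw [Finset.mem_Icc] at hl₁ hl₂ hn₁ hn₂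
    have hN : l₁ * l₂ * n₁ * n₂ ≤ (Z * M) ^ 2 := by
      calc l₁ * l₂ * n₁ * n₂ ≤ Z * Z * M * M :=
            Nat.mul_le_mul (Nat.mul_le_mul (Nat.mul_le_mul hl₁.2 hl₂.2) hn₁.2) hn₂.2
        _ = (Z * M) ^ 2 := by ring
    have hpos : 0 < l₁ * l₂ * n₁ * n₂ :=
      Nat.mul_pos (Nat.mul_pos (Nat.mul_pos hl₁.1 hl₂.1) hn₁.1) hn₂.1
    have hsq : √((l₁ * l₂ * n₁ * n₂ : ℕ) : ℝ) ≠ 0 :=
      (Real.sqrt_pos.2 (by exact_mod_cast hpos)).ne'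
    rw [gg_expand k₀ hk f _ (Z * M) hf (ho hc) hN, mul_div_cancel₀ _ hsq]
    push_cast
    rw [Finset.mul_sum]
    refine Finset.sum_congr rfl fun a _ => ?_
    rw [Finset.mul_sum]
    refine Finset.sum_congr rfl fun b _ => ?_
    rw [Finset.mul_sum]
    refine Finset.sum_congr rfl fun g _ => ?_
    ring

private theorem t4le_eq (k₀ : ℤ) (hk : Squarefree k₀) (f Z M : ℕ) (hf : 0 < f)
    (a₁ a₂ a₃ a₄ : ℕ → ℂ)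
    (h₁ : ∀ n, a₁ n ≠ 0 → Odd n) (h₂ : ∀ n, a₂ n ≠ 0 → Odd n) (h₃ : ∀ n, a₃ n ≠ 0 → Odd n)
    (h₄ : ∀ n, a₄ n ≠ 0 → Odd n) :
    T4 (k₀ * (f : ℤ) ^ 2) Z M a₁ a₂ a₃ a₄ =
      ∑ a ∈ f.divisors, ∑ b ∈ (f / a).divisors, ∑ g ∈ Icc 1 (Z * M),
        (((ArithmeticFunction.moebius g : ℝ) * (ArithmeticFunction.moebius a : ℝ) * jr k₀ a * b :
          ℝ) : ℂ) * ∑ l₁ ∈ Icc 1 Z, ∑ l₂ ∈ Icc 1 Z, ∑ n₁ ∈ Icc 1 M, ∑ n₂ ∈ Icc 1 M,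
            a₁ l₁ * a₂ l₂ * a₃ n₁ * a₄ n₂ *
              (EDv k₀ (g ^ 2 * (a * b ^ 2)) (l₁ * l₂ * n₁ * n₂) : ℂ) := by
  unfold T4
  rw [t4le_quad]
  simp_rw [t4le_quad]
  have h : ∀ q ∈ Icc 1 Z ×ˢ Icc 1 Z ×ˢ Icc 1 M ×ˢ Icc 1 M,
      a₁ q.1 * a₂ q.2.1 * a₃ q.2.2.1 * a₄ q.2.2.2 *
        ((√((q.1 * q.2.1 * q.2.2.1 * q.2.2.2 : ℕ) : ℝ) *
          gg (k₀ * (f : ℤ) ^ 2) (q.1 * q.2.1 * q.2.2.1 * q.2.2.2) : ℝ) : ℂ) =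
      ∑ a ∈ f.divisors, ∑ b ∈ (f / a).divisors, ∑ g ∈ Icc 1 (Z * M),
        (((ArithmeticFunction.moebius g : ℝ) * (ArithmeticFunction.moebius a : ℝ) * jr k₀ a * b :
          ℝ) : ℂ) * (a₁ q.1 * a₂ q.2.1 * a₃ q.2.2.1 * a₄ q.2.2.2 *
            (EDv k₀ (g ^ 2 * (a * b ^ 2)) (q.1 * q.2.1 * q.2.2.1 * q.2.2.2) : ℂ)) := by
    intro q hq
    simp only [Finset.mem_product] at hq
    refine t4le_term k₀ hk f Z M hf _ _ _ _ _ hq.1 hq.2.1 hq.2.2.1 hq.2.2.2 fun hc => ?_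
    have e4 := right_ne_zero_of_mul hc
    have e' := left_ne_zero_of_mul hc
    have e3 := right_ne_zero_of_mul e'
    have e'' := left_ne_zero_of_mul e'
    exact (((h₁ _ (left_ne_zero_of_mul e'')).mul (h₂ _ (right_ne_zero_of_mul e''))).mul
      (h₃ _ e3)).mul (h₄ _ e4)
  rw [Finset.sum_congr rfl h, Finset.sum_comm]
  refine Finset.sum_congr rfl fun a _ => ?_
  rw [Finset.sum_comm]
  refine Finset.sum_congr rfl fun b _ => ?_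
  rw [Finset.sum_comm]
  refine Finset.sum_congr rfl fun g _ => ?_
  rw [Finset.mul_sum]

private theorem t4le_jr (k : ℤ) (n : ℕ) : |jr k n| ≤ 1 := by
  unfold jr
  split_ifs
  · rcases jacobiSym.trichotomy k n with h | h | h <;> rw [h] <;> norm_num
  · norm_num

theorem T4_le (k₀ : ℤ) (hk : Squarefree k₀) (f Z M : ℕ) (hf : 0 < f) (a₁ a₂ a₃ a₄ : ℕ → ℂ)
    (h₁ : ∀ n, a₁ n ≠ 0 → Odd n) (h₂ : ∀ n, a₂ n ≠ 0 → Odd n) (h₃ : ∀ n, a₃ n ≠ 0 → Odd n)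
    (h₄ : ∀ n, a₄ n ≠ 0 → Odd n) :
    ‖T4 (k₀ * (f : ℤ) ^ 2) Z M a₁ a₂ a₃ a₄‖ ≤
      ∑ a ∈ f.divisors, ∑ b ∈ (f / a).divisors, ∑ g ∈ Icc 1 (Z * M), (b : ℝ) *
        ∑ δ₁ ∈ (g ^ 2 * (a * b ^ 2)).divisors, ∑ δ₂ ∈ (g ^ 2 * (a * b ^ 2) / δ₁).divisors,
          ∑ δ₃ ∈ (g ^ 2 * (a * b ^ 2) / δ₁ / δ₂).divisors,
            ‖SS k₀ a₁ Z δ₁ (g ^ 2 * (a * b ^ 2) / δ₁)‖ *
            ‖SS k₀ a₂ Z δ₂ (g ^ 2 * (a * b ^ 2) / δ₁ / δ₂)‖ *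
            ‖SS k₀ a₃ M δ₃ (g ^ 2 * (a * b ^ 2) / δ₁ / δ₂ / δ₃)‖ *
            ‖SS k₀ a₄ M (g ^ 2 * (a * b ^ 2) / δ₁ / δ₂ / δ₃) 1‖ := by
  rw [t4le_eq k₀ hk f Z M hf a₁ a₂ a₃ a₄ h₁ h₂ h₃ h₄]
  refine (norm_sum_le _ _).trans (Finset.sum_le_sum fun a ha => ?_)
  refine (norm_sum_le _ _).trans (Finset.sum_le_sum fun b hb => ?_)
  refine (norm_sum_le _ _).trans (Finset.sum_le_sum fun g hg => ?_)
  have ha0 : 0 < a := Nat.pos_of_mem_divisors ha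
  have hb0 : 0 < b := Nat.pos_of_mem_divisors hb
  have hg0 : 0 < g := (Finset.mem_Icc.1 hg).1
  have hD : 0 < g ^ 2 * (a * b ^ 2) := by positivity
  rw [norm_mul, split_four k₀ a₁ a₂ a₃ a₄ Z M _ hD]
  have hc : ‖(((ArithmeticFunction.moebius g : ℝ) * (ArithmeticFunction.moebius a : ℝ) * jr k₀ a *
      b : ℝ) : ℂ)‖ ≤ (b : ℝ) := by
    rw [Complex.norm_real, Real.norm_eq_abs, abs_mul, abs_mul, abs_mul]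
    have m1 : |(ArithmeticFunction.moebius g : ℝ)| ≤ 1 := by
      exact_mod_cast ArithmeticFunction.abs_moebius_le_one
    have m2 : |(ArithmeticFunction.moebius a : ℝ)| ≤ 1 := by
      exact_mod_cast ArithmeticFunction.abs_moebius_le_one
    have m3 := t4le_jr k₀ a
    have hb' : |(b : ℝ)| = b := abs_of_nonneg (Nat.cast_nonneg b)
    rw [hb']
    calc |(ArithmeticFunction.moebius g : ℝ)| * |(ArithmeticFunction.moebius a : ℝ)| *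
          |jr k₀ a| * (b : ℝ) ≤ 1 * 1 * 1 * b := by
          gcongr
      _ = b := by ring
  refine mul_le_mul hc ?_ (norm_nonneg _) (Nat.cast_nonneg b)
  refine (norm_sum_le _ _).trans (Finset.sum_le_sum fun δ₁ _ => ?_)
  refine (norm_sum_le _ _).trans (Finset.sum_le_sum fun δ₂ _ => ?_)
  refine (norm_sum_le _ _).trans (Finset.sum_le_sum fun δ₃ _ => ?_)
  rw [norm_mul, norm_mul, norm_mul]

end Pool.Agent.MP0016c7.Rz
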