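import Mathlib
import Pool.Agent.Lib.MP_0016c7_nt.Rz.Defs
import Pool.Agent.Lib.MP_0016c7_nt.Rz.FtS
import Pool.Agent.Lib.MP_0016c7_nt.Rz.ErrD6a
import Pool.Agent.Lib.MP_0016c7_nt.Rz.LipWt
import Pool.Agent.Lib.MP_0016c7_nt.Rz2.QDefs
import Pool.Agent.Lib.MP_0016c7_nt.Rz2.FtM
import Pool.Agent.Lib.MP_0016c7_nt.Rz2.SepWt
import Pool.Agent.Lib.MP_0016c7_nt.Rz2.SumKW
import Pool.Agent.Lib.MP_0016c7_nt.Rz2.NSc

set_option autoImplicit false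

/-!
The error term for `θ < 1/2` (D20).
-/

open Finset MeasureTheory Filter Topology
open scoped Real ContDiff

namespace Pool.Agent.MP0016c7.Rz

/-! ### Quadruple sums as sums over a product -/

/-- the coefficient of a quadruple -/
private noncomputable def e2c (W₁ W₂ : ℕ → ℕ → ℝ) (r : ℕ) (q : ℕ × ℕ × ℕ × ℕ) : ℝ :=
  if Nat.Coprime (q.1 * q.2.1 * q.2.2.1 * q.2.2.2) (2 * r) then
    (ArithmeticFunction.moebius q.2.1 : ℝ) * (ArithmeticFunction.moebius q.2.2.2 : ℝ) *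
      W₁ q.2.1 q.1 * W₂ q.2.2.2 q.2.2.1
  else 0

/-- the product of the entries -/
private def e2n (q : ℕ × ℕ × ℕ × ℕ) : ℕ := q.1 * q.2.1 * q.2.2.1 * q.2.2.2

/-- the box -/
private def e2P (M : ℕ) : Finset (ℕ × ℕ × ℕ × ℕ) := Icc 1 M ×ˢ (Icc 1 M ×ˢ (Icc 1 M ×ˢ Icc 1 M))

private theorem e2_mem {M : ℕ} {q : ℕ × ℕ × ℕ × ℕ} (hq : q ∈ e2P M) :
    1 ≤ q.1 ∧ 1 ≤ q.2.1 ∧ 1 ≤ q.2.2.1 ∧ 1 ≤ q.2.2.2 := by
  simp only [e2P, mem_product, mem_Icc] at hq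
  exact ⟨hq.1.1, hq.2.1.1, hq.2.2.1.1, hq.2.2.2.1⟩

private theorem e2n_pos {M : ℕ} {q : ℕ × ℕ × ℕ × ℕ} (hq : q ∈ e2P M) : 1 ≤ e2n q := by
  obtain ⟨h1, h2, h3, h4⟩ := e2_mem hq
  unfold e2n
  exact Nat.one_le_iff_ne_zero.mpr (by positivity)

private theorem e2_card (M : ℕ) : (e2P M).card = M ^ 4 := by
  simp only [e2P, card_product, Nat.card_Icc, add_tsub_cancel_right]
  ring

private theorem e2_quad (W₁ W₂ : ℕ → ℕ → ℝ) (r M : ℕ) (f : ℕ → ℝ) :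
    quad W₁ W₂ r M f = ∑ q ∈ e2P M, e2c W₁ W₂ r q / √(e2n q : ℝ) * f (e2n q) := by
  unfold quad e2P
  simp only [sum_product, e2c, e2n]
  refine sum_congr rfl fun n₁ _ => sum_congr rfl fun l₁ _ => sum_congr rfl fun n₂ _ =>
    sum_congr rfl fun l₂ _ => ?_
  split_ifs with h
  · rfl
  · simp

private theorem e2_cplx (W₁ W₂ : ℕ → ℕ → ℝ) (r M : ℕ) (k : ℤ) (τ : ℝ) :
    (∑ n₁ ∈ Icc 1 M, ∑ l₁ ∈ Icc 1 M, ∑ n₂ ∈ Icc 1 M, ∑ l₂ ∈ Icc 1 M,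
      if Nat.Coprime (n₁ * l₁ * n₂ * l₂) (2 * r) then
        (ArithmeticFunction.moebius l₁ : ℂ) * (ArithmeticFunction.moebius l₂ : ℂ) *
          (W₁ l₁ n₁ : ℂ) * (W₂ l₂ n₂ : ℂ) * (gg k (n₁ * l₁ * n₂ * l₂) : ℂ) *
          ((n₁ * l₁ * n₂ * l₂ : ℕ) : ℂ) ^ (Complex.I * τ) else 0) =
    ∑ q ∈ e2P M, (e2c W₁ W₂ r q : ℂ) * (gg k (e2n q) : ℂ) *
      ((e2n q : ℕ) : ℂ) ^ (Complex.I * τ) := by
  unfold e2P
  simp only [sum_product, e2c, e2n]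
  refine sum_congr rfl fun n₁ _ => sum_congr rfl fun l₁ _ => sum_congr rfl fun n₂ _ =>
    sum_congr rfl fun l₂ _ => ?_
  split_ifs with h
  · push_cast
    ring
  · simp

private theorem e2_mu (n : ℕ) : |(ArithmeticFunction.moebius n : ℝ)| ≤ 1 := by
  have h := ArithmeticFunction.abs_moebius_le_one (n := n)
  exact_mod_cast h

private theorem e2c_le {θ X C : ℝ} (hC : 0 < C) {W₁ W₂ : ℕ → ℕ → ℝ} (h₁ : LipW θ X C W₁)
    (h₂ : LipW θ X C W₂) (r : ℕ) (q : ℕ × ℕ × ℕ × ℕ) : |e2c W₁ W₂ r q| ≤ C ^ 2 := by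
  unfold e2c
  split_ifs with h
  · rw [abs_mul, abs_mul, abs_mul]
    have e1 := e2_mu q.2.1
    have e2 := e2_mu q.2.2.2
    have e3 := h₁.bd q.2.1 q.1
    have e4 := h₂.bd q.2.2.2 q.2.2.1
    calc |(ArithmeticFunction.moebius q.2.1 : ℝ)| * |(ArithmeticFunction.moebius q.2.2.2 : ℝ)| *
          |W₁ q.2.1 q.1| * |W₂ q.2.2.2 q.2.2.1| ≤ 1 * 1 * C * C := by (clear * - e1 e2 e3 e4 hC; gcongr)
      _ = C ^ 2 := by ring
  · rw [abs_zero]; positivity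

private theorem e2_supp {θ X C : ℝ} (hX : 0 < X) {W₁ W₂ : ℕ → ℕ → ℝ} (h₁ : LipW θ X C W₁)
    (h₂ : LipW θ X C W₂) (r : ℕ) (q : ℕ × ℕ × ℕ × ℕ) (hq : e2c W₁ W₂ r q ≠ 0) :
    (e2n q : ℝ) ≤ X ^ (1 + 2 * θ) := by
  unfold e2c at hq
  split_ifs at hq with h
  · have e1 : W₁ q.2.1 q.1 ≠ 0 := by
      intro h0; apply hq; rw [h0]; ring
    have e2 : W₂ q.2.2.2 q.2.2.1 ≠ 0 := by
      intro h0; apply hq; rw [h0]; ring
    have e3 : (q.2.1 : ℝ) * q.1 ≤ X ^ (1 / 2 + θ) := by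
      by_contra hh
      exact e1 (h₁.supp₂ _ _ (not_le.mp hh))
    have e4 : (q.2.2.2 : ℝ) * q.2.2.1 ≤ X ^ (1 / 2 + θ) := by
      by_contra hh
      exact e2 (h₂.supp₂ _ _ (not_le.mp hh))
    have e5 : (e2n q : ℝ) = ((q.2.1 : ℝ) * q.1) * ((q.2.2.2 : ℝ) * q.2.2.1) := by
      unfold e2n; push_cast; ring
    rw [e5, show (1 : ℝ) + 2 * θ = (1 / 2 + θ) + (1 / 2 + θ) by ring, Real.rpow_add hX]
    exact mul_le_mul e3 e4 (by (clear * -; positivity)) (by positivity)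
  · exact absurd rfl hq

/-- replacing the function on the support -/
private theorem e2_stepA {θ X C δ : ℝ} (hX : 0 < X) (hC : 0 < C) {W₁ W₂ : ℕ → ℕ → ℝ}
    (h₁ : LipW θ X C W₁) (h₂ : LipW θ X C W₂) (r M : ℕ) (f g : ℕ → ℝ) (hδ : 0 ≤ δ)
    (hfg : ∀ N : ℕ, 1 ≤ N → (N : ℝ) ≤ X ^ (1 + 2 * θ) → |f N - g N| ≤ δ) :
    |quad W₁ W₂ r M f - quad W₁ W₂ r M g| ≤ (M : ℝ) ^ 4 * (C ^ 2 * δ) := by
  rw [e2_quad, e2_quad, ← sum_sub_distrib]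
  refine (abs_sum_le_sum_abs _ _).trans ?_
  have h3 : ∀ q ∈ e2P M, |e2c W₁ W₂ r q / √(e2n q : ℝ) * f (e2n q) -
      e2c W₁ W₂ r q / √(e2n q : ℝ) * g (e2n q)| ≤ C ^ 2 * δ := by
    intro q hq
    rw [← mul_sub, abs_mul, abs_div]
    by_cases h0 : e2c W₁ W₂ r q = 0
    · rw [h0]; simp only [abs_zero, zero_div, zero_mul]; positivity
    · have e1 := hfg (e2n q) (e2n_pos hq) (e2_supp hX h₁ h₂ r q h0)
      have e2 := e2c_le hC h₁ h₂ r q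
      have e3 : (1 : ℝ) ≤ |√(e2n q : ℝ)| := by
        rw [abs_of_nonneg (Real.sqrt_nonneg _)]
        rw [Real.one_le_sqrt]
        exact_mod_cast e2n_pos hq
      have e4 : |e2c W₁ W₂ r q| / |√(e2n q : ℝ)| ≤ C ^ 2 :=
        (div_le_self (abs_nonneg _) e3).trans e2
      exact mul_le_mul e4 e1 (abs_nonneg _) (by positivity)
  refine (sum_le_sum h3).trans ?_
  rw [sum_const, e2_card, nsmul_eq_mul]
  push_cast
  exact le_refl _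

/-! ### Mellin inversion -/

private theorem e2_pow {t : ℝ} (ht : 0 < t) {N : ℕ} (hN : 1 ≤ N) (τ : ℝ) :
    (1 / √(N : ℝ) : ℂ) * (((t / N : ℝ) : ℂ) ^ (-(1 / 2 : ℂ) - Complex.I * τ)) =
      (t : ℂ) ^ (-(1 / 2 : ℂ) - Complex.I * τ) * ((N : ℕ) : ℂ) ^ (Complex.I * τ) := by
  have hN0 : (0 : ℝ) < N := by exact_mod_cast hN
  have hNc : ((N : ℝ) : ℂ) ≠ 0 := by exact_mod_cast hN0.ne'
  have e1 : ((t / N : ℝ) : ℂ) ^ (-(1 / 2 : ℂ) - Complex.I * τ) *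
      ((N : ℝ) : ℂ) ^ (-(1 / 2 : ℂ) - Complex.I * τ) =
      (t : ℂ) ^ (-(1 / 2 : ℂ) - Complex.I * τ) := by
    rw [← Complex.mul_cpow_ofReal_nonneg (by positivity) hN0.le, ← Complex.ofReal_mul,
      div_mul_cancel₀ _ hN0.ne']
  have e2 : (1 / √(N : ℝ) : ℂ) = ((N : ℝ) : ℂ) ^ (-(1 / 2 : ℂ) - Complex.I * τ) *
      ((N : ℝ) : ℂ) ^ (Complex.I * τ) := by
    rw [← Complex.cpow_add _ _ hNc]
    have : -(1 / 2 : ℂ) - Complex.I * τ + Complex.I * τ = ((-(1 / 2) : ℝ) : ℂ) := by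
      push_cast; ring
    rw [this, ← Complex.ofReal_cpow hN0.le, Real.rpow_neg hN0.le, ← Real.sqrt_eq_rpow]
    push_cast
    rw [one_div]
  rw [e2, ← e1]
  push_cast
  ring


private theorem e2_key {ι : Type*} (f : ℝ → ℂ) (hfi : Integrable f) (hfc : Continuous f)
    (Φ : ℝ → ℝ)
    (hΦ : ∀ t : ℝ, 0 < t → (Φ t : ℂ) = ∫ τ : ℝ, f τ * (t : ℂ) ^ (-(1 / 2 : ℂ) - Complex.I * τ))
    (t : ℝ) (ht : 0 < t) (P : Finset ι) (c g : ι → ℝ) (N : ι → ℕ) (hN : ∀ q ∈ P, 1 ≤ N q) :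
    |∑ q ∈ P, c q / √(N q : ℝ) * (g q * Φ (t / N q))| ≤
      t ^ (-(1 / 2) : ℝ) * ∫ τ : ℝ, ‖f τ‖ *
        ‖∑ q ∈ P, (c q : ℂ) * (g q : ℂ) * ((N q : ℕ) : ℂ) ^ (Complex.I * τ)‖ := by
  have htc : (t : ℂ) ≠ 0 := by exact_mod_cast ht.ne'
  have hc1 : Continuous fun τ : ℝ => (t : ℂ) ^ (-(1 / 2 : ℂ) - Complex.I * τ) := by
    refine Continuous.const_cpow (by fun_prop) (Or.inl htc)
  have hn1 : ∀ τ : ℝ, ‖(t : ℂ) ^ (-(1 / 2 : ℂ) - Complex.I * τ)‖ = t ^ (-(1 / 2) : ℝ) := by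
    intro τ
    rw [Complex.norm_cpow_eq_rpow_re_of_pos ht]
    congr 1
    simp
  have hc2 : ∀ q ∈ P, Continuous fun τ : ℝ => ((N q : ℕ) : ℂ) ^ (Complex.I * τ) := by
    intro q hq
    refine Continuous.const_cpow (by fun_prop) (Or.inl ?_)
    have := hN q hq
    exact_mod_cast (show N q ≠ 0 by omega)
  have hn2 : ∀ q ∈ P, ∀ τ : ℝ, ‖((N q : ℕ) : ℂ) ^ (Complex.I * τ)‖ = 1 := by
    intro q hq τ
    have h0 : (0 : ℝ) < (N q : ℝ) := by exact_mod_cast hN q hq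
    have h1 := Complex.norm_cpow_eq_rpow_re_of_pos h0 (Complex.I * τ)
    simp only [Complex.ofReal_natCast] at h1
    rw [h1]
    simp
  have hterm : ∀ q ∈ P, ((c q / √(N q : ℝ) * (g q * Φ (t / N q)) : ℝ) : ℂ) =
      ∫ τ : ℝ, f τ * ((t : ℂ) ^ (-(1 / 2 : ℂ) - Complex.I * τ) *
        ((c q : ℂ) * (g q : ℂ) * ((N q : ℕ) : ℂ) ^ (Complex.I * τ))) := by
    intro q hq
    have h0 : (0 : ℝ) < (N q : ℝ) := by exact_mod_cast hN q hq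
    have e1 := hΦ (t / N q) (div_pos ht h0)
    have e2 : ((c q / √(N q : ℝ) * (g q * Φ (t / N q)) : ℝ) : ℂ) =
        ((c q : ℂ) * (g q : ℂ)) * ((1 / √(N q : ℝ) : ℂ) * (Φ (t / N q) : ℂ)) := by
      push_cast; ring
    rw [e2, e1, ← integral_const_mul, ← integral_const_mul]
    refine integral_congr_ae (Filter.Eventually.of_forall fun τ => ?_)
    have e3 := e2_pow ht (hN q hq) τ
    simp only
    calc (c q : ℂ) * (g q : ℂ) * ((1 / √(N q : ℝ) : ℂ) *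
          (f τ * ((t / N q : ℝ) : ℂ) ^ (-(1 / 2 : ℂ) - Complex.I * τ))) =
        f τ * ((c q : ℂ) * (g q : ℂ)) * ((1 / √(N q : ℝ) : ℂ) *
          (((t / N q : ℝ) : ℂ) ^ (-(1 / 2 : ℂ) - Complex.I * τ))) := by ring
      _ = _ := by rw [e3]; ring
  have hint : ∀ q ∈ P, Integrable fun τ : ℝ => f τ * ((t : ℂ) ^ (-(1 / 2 : ℂ) - Complex.I * τ) *
        ((c q : ℂ) * (g q : ℂ) * ((N q : ℕ) : ℂ) ^ (Complex.I * τ))) := by
    intro q hq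
    refine Integrable.mono' (hfi.norm.mul_const (t ^ (-(1 / 2) : ℝ) * (|c q| * |g q|)))
      (hfc.mul (hc1.mul (continuous_const.mul (hc2 q hq)))).aestronglyMeasurable
      (Filter.Eventually.of_forall fun τ => ?_)
    rw [norm_mul, norm_mul, hn1, norm_mul, hn2 q hq, norm_mul, Complex.norm_real,
      Complex.norm_real, Real.norm_eq_abs, Real.norm_eq_abs, mul_one]
  have hsum : ((∑ q ∈ P, c q / √(N q : ℝ) * (g q * Φ (t / N q)) : ℝ) : ℂ) =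
      ∫ τ : ℝ, f τ * ((t : ℂ) ^ (-(1 / 2 : ℂ) - Complex.I * τ) *
        ∑ q ∈ P, (c q : ℂ) * (g q : ℂ) * ((N q : ℕ) : ℂ) ^ (Complex.I * τ)) := by
    rw [Complex.ofReal_sum, sum_congr rfl hterm, ← integral_finsetSum _ hint]
    refine integral_congr_ae (Filter.Eventually.of_forall fun τ => ?_)
    simp only
    rw [mul_sum, mul_sum]
  have hnorm : |∑ q ∈ P, c q / √(N q : ℝ) * (g q * Φ (t / N q))| =
      ‖((∑ q ∈ P, c q / √(N q : ℝ) * (g q * Φ (t / N q)) : ℝ) : ℂ)‖ := by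
    rw [Complex.norm_real, Real.norm_eq_abs]
  rw [hnorm, hsum, ← integral_const_mul]
  refine (norm_integral_le_integral_norm _).trans (le_of_eq ?_)
  refine integral_congr_ae (Filter.Eventually.of_forall fun τ => ?_)
  simp only
  rw [norm_mul, norm_mul, hn1]
  ring

private theorem e2_contS {ι : Type*} (P : Finset ι) (c g : ι → ℝ) (N : ι → ℕ)
    (hN : ∀ q ∈ P, 1 ≤ N q) :
    Continuous fun τ : ℝ => ∑ q ∈ P, (c q : ℂ) * (g q : ℂ) * ((N q : ℕ) : ℂ) ^ (Complex.I * τ) := by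
  refine continuous_finsetSum _ fun q hq => ?_
  refine continuous_const.mul (Continuous.const_cpow (by fun_prop) (Or.inl ?_))
  have := hN q hq
  exact_mod_cast (show N q ≠ 0 by omega)

private theorem e2_bddS {ι : Type*} (P : Finset ι) (c g : ι → ℝ) (N : ι → ℕ)
    (hN : ∀ q ∈ P, 1 ≤ N q) (τ : ℝ) :
    ‖∑ q ∈ P, (c q : ℂ) * (g q : ℂ) * ((N q : ℕ) : ℂ) ^ (Complex.I * τ)‖ ≤
      ∑ q ∈ P, |c q| * |g q| := by
  refine (norm_sum_le _ _).trans (sum_le_sum fun q hq => ?_)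
  have h0 : (0 : ℝ) < (N q : ℝ) := by exact_mod_cast hN q hq
  have h1 := Complex.norm_cpow_eq_rpow_re_of_pos h0 (Complex.I * τ)
  simp only [Complex.ofReal_natCast] at h1
  rw [norm_mul, h1, norm_mul, Complex.norm_real, Complex.norm_real, Real.norm_eq_abs,
    Real.norm_eq_abs]
  simp

private theorem e2_Ft_neg (F : ℝ → ℝ) (σ : ℤ) (ξ : ℝ) : Ft F σ (-ξ) = Ft F (-σ) ξ := by
  unfold Ft
  refine integral_congr_ae (Filter.Eventually.of_forall fun t => ?_)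
  simp only
  have e1 : 2 * π * -ξ * t = -(2 * π * ξ * t) := by ring
  rw [e1, Real.cos_neg, Real.sin_neg]
  push_cast
  ring


theorem err_general2 [QlsHyp] (θ : ℝ) (hθ : 0 < θ) (hθ' : θ < 1 / 2) {F : ℝ → ℝ} {a b : ℝ} (ha : 0 < a)
    (hF : Bump F a b) (σ : ℤ) (hσ : σ = 1 ∨ σ = -1) (r : ℕ) (hr : Odd r) :
    ∃ B : ℕ, ∀ C : ℝ, 0 < C → ∃ η X₀ : ℝ, 0 < η ∧ ∀ X : ℝ, X₀ ≤ X → ∀ Y : ℝ, X / C ≤ Y →
    Y ≤ C * X → ∀ W₁ W₂ : ℕ → ℕ → ℝ, LipW θ X C W₁ → LipW θ X C W₂ → SepW B C W₁ → SepW B C W₂ →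
    ∀ c : ℤ → ℝ, (∀ k, |c k| ≤ 2) →
    |quad W₁ W₂ r ⌊X ^ 2⌋₊ (NSc F σ c Y)| ≤ X ^ (-η) := by
  classical
  obtain ⟨f₁, hf₁, hc₁, hm₁⟩ := Ft_mellin' hF σ
  obtain ⟨f₂, hf₂, hc₂, hm₂⟩ := Ft_mellin' hF (-σ)
  obtain ⟨η₀, hη₀⟩ : ∃ η₀ : ℝ, η₀ = 1 / 2 - θ := ⟨_, rfl⟩
  have hη₀0 : 0 < η₀ := by rw [hη₀]; linarith only [hθ']
  obtain ⟨ε, hε⟩ : ∃ ε : ℝ, ε = η₀ / 4 := ⟨_, rfl⟩
  have hε0 : 0 < ε := by rw [hε]; linarith only [hη₀0]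
  obtain ⟨B, hsumk⟩ := sumk_W ε hε0 θ hθ hθ' r hr
  refine ⟨B, fun C hC => ?_⟩
  obtain ⟨K, X₂, hK, hsk⟩ := hsumk C hC
  obtain ⟨X₁, htail⟩ := NSc_tail ha hF σ θ ε C 10 hθ hθ' hε0 hC
  obtain ⟨g, hg⟩ : ∃ g : ℝ → ℝ, ∀ τ, g τ = ‖f₁ τ‖ + ‖f₂ τ‖ := ⟨_, fun _ => rfl⟩
  have hg0 : ∀ τ, 0 ≤ g τ := fun τ => by rw [hg]; (clear * -; positivity)
  have hgc : Continuous g := by
    have : g = fun τ => ‖f₁ τ‖ + ‖f₂ τ‖ := funext hg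
    rw [this]
    fun_prop
  have hgB : ∀ m : ℕ, Integrable (fun τ => g τ * (1 + |τ|) ^ m) := by
    intro m
    refine ((hf₁ m).add (hf₂ m)).congr (Filter.Eventually.of_forall fun τ => ?_)
    simp only [Pi.add_apply, hg]
    ring
  have hgi : Integrable g := by
    have := hgB 0
    simpa using this
  have hf1i : Integrable f₁ := by
    have := hf₁ 0
    simp only [pow_zero, mul_one] at this
    exact (integrable_norm_iff hc₁.aestronglyMeasurable).1 this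
  have hf2i : Integrable f₂ := by
    have := hf₂ 0
    simp only [pow_zero, mul_one] at this
    exact (integrable_norm_iff hc₂.aestronglyMeasurable).1 this
  obtain ⟨I, hI⟩ : ∃ I, I = ∫ τ : ℝ, g τ * (1 + |τ|) ^ (2 * B) := ⟨_, rfl⟩
  have hI0 : 0 ≤ I := by
    rw [hI]
    exact integral_nonneg fun τ => mul_nonneg (hg0 τ) (by (clear * -; positivity))
  obtain ⟨D₁, hD₁⟩ : ∃ D₁ : ℝ, D₁ = 2 * (2 * C) ^ (1 / 2 : ℝ) * K * 2 * I := ⟨_, rfl⟩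
  have hD₁0 : 0 ≤ D₁ := by rw [hD₁]; (clear * - hC hK hI0; positivity)
  obtain ⟨E, hE⟩ : ∃ E : ℝ, E = C ^ 2 + D₁ + 1 := ⟨_, rfl⟩
  have hE0 : 0 < E := by rw [hE]; positivity
  refine ⟨η₀ / 4, max (max 2 (max X₁ X₂)) (E ^ (4 / η₀)), by linarith only [hθ', hη₀], ?_⟩
  intro X hX Y hY _ W₁ W₂ hW₁ hW₂ hS₁ hS₂ c hcb
  have hX2 : 2 ≤ X := ((le_max_left _ _).trans (le_max_left _ _)).trans hX
  have hX1 : X₁ ≤ X :=
    ((le_max_left _ _).trans ((le_max_right _ _).trans (le_max_left _ _))).trans hX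
  have hX22 : X₂ ≤ X :=
    ((le_max_right _ _).trans ((le_max_right _ _).trans (le_max_left _ _))).trans hX
  have hXE : E ^ (4 / η₀) ≤ X := (le_max_right _ _).trans hX
  have hXpos : 0 < X := by linarith only [hX2]
  have hXone : 1 ≤ X := by linarith only [hX2]
  have hYpos : 0 < Y := lt_of_lt_of_le (div_pos hXpos hC) hY
  obtain ⟨M, hM⟩ : ∃ M : ℕ, M = ⌊X ^ 2⌋₊ := ⟨_, rfl⟩
  have hMle : (M : ℝ) ≤ X ^ 2 := by rw [hM]; exact Nat.floor_le (by positivity)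
  obtain ⟨K1, hK1⟩ : ∃ K1 : ℕ, K1 = ⌊X ^ (2 * θ + ε)⌋₊ := ⟨_, rfl⟩
  have hK1le : (K1 : ℝ) ≤ X ^ (2 * θ + ε) := by rw [hK1]; exact Nat.floor_le (by positivity)
  have hK1one : 1 ≤ K1 := by
    rw [hK1]
    exact Nat.one_le_floor_iff _ |>.mpr (Real.one_le_rpow hXone (by linarith only [hθ, hε0]))
  have hexp1 : 2 * θ + ε ≤ 2 := by rw [hε, hη₀]; linarith only [hθ']
  have hK1X : (K1 : ℝ) ≤ X ^ 2 := by
    refine hK1le.trans ?_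
    calc X ^ (2 * θ + ε) ≤ X ^ (2 : ℝ) := Real.rpow_le_rpow_of_exponent_le hXone hexp1
      _ = X ^ 2 := by exact_mod_cast Real.rpow_natCast X 2
  rw [← hM]
  -- truncation
  obtain ⟨T, hT⟩ : ∃ T : ℕ → ℝ, ∀ N, T N = ∑ k ∈ Icc (-(K1 : ℤ)) K1,
      (if IsSquare k then 0 else c k * gg k N *
        Ft F σ ((k : ℝ) * Y / (2 * N))) := ⟨_, fun _ => rfl⟩
  have hA : |quad W₁ W₂ r M (NSc F σ c Y) - quad W₁ W₂ r M T| ≤ C ^ 2 * X ^ (-(η₀ / 2)) := by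
    have h1 := e2_stepA (δ := X ^ (-10 : ℝ)) hXpos hC hW₁ hW₂ r M (NSc F σ c Y) T (by positivity)
      (by
      intro N hN1 hN2
      have := htail X hX1 c hcb N hN1 hN2 Y hY
      rw [← hK1] at this
      rw [hT]
      exact this)
    refine h1.trans ?_
    have h2 : (M : ℝ) ^ 4 ≤ X ^ (8 : ℝ) := by
      calc (M : ℝ) ^ 4 ≤ (X ^ 2) ^ 4 := by (clear * - hMle; gcongr)
        _ = X ^ (8 : ℝ) := by
            rw [← pow_mul]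
            exact_mod_cast (Real.rpow_natCast X 8).symm
    calc (M : ℝ) ^ 4 * (C ^ 2 * X ^ (-10 : ℝ)) ≤ X ^ (8 : ℝ) * (C ^ 2 * X ^ (-10 : ℝ)) := by (clear * - h2 hC hX2; gcongr)
      _ = C ^ 2 * X ^ (-2 : ℝ) := by
          rw [show (-2 : ℝ) = 8 + (-10) by norm_num, Real.rpow_add hXpos]
          ring
      _ ≤ C ^ 2 * X ^ (-(η₀ / 2)) := by
          have : X ^ (-2 : ℝ) ≤ X ^ (-(η₀ / 2)) :=
            Real.rpow_le_rpow_of_exponent_le hXone (by rw [hη₀]; linarith only [hθ])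
          (clear * - this hC; gcongr)
  -- the Dirichlet polynomials
  obtain ⟨S, hS⟩ : ∃ S : ℤ → ℝ → ℂ, ∀ k τ, S k τ = ∑ q ∈ e2P M, (e2c W₁ W₂ r q : ℂ) *
      (gg k (e2n q) : ℂ) * ((e2n q : ℕ) : ℂ) ^ (Complex.I * τ) := ⟨_, fun _ _ => rfl⟩
  have hScont : ∀ k, Continuous (S k) := by
    intro k
    have : S k = fun τ : ℝ => ∑ q ∈ e2P M, (e2c W₁ W₂ r q : ℂ) *
      (gg k (e2n q) : ℂ) * ((e2n q : ℕ) : ℂ) ^ (Complex.I * τ) := funext (hS k)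
    rw [this]
    exact e2_contS (e2P M) (e2c W₁ W₂ r) (fun q => gg k (e2n q)) e2n (fun q hq => e2n_pos hq)
  have hSbd : ∀ k, ∃ R : ℝ, ∀ τ, ‖S k τ‖ ≤ R := by
    intro k
    refine ⟨∑ q ∈ e2P M, |e2c W₁ W₂ r q| * |gg k (e2n q)|, fun τ => ?_⟩
    rw [hS]
    exact e2_bddS (e2P M) (e2c W₁ W₂ r) (fun q => gg k (e2n q)) e2n (fun q hq => e2n_pos hq) τ
  have hSint : ∀ k (φ : ℝ → ℝ), Integrable φ → Integrable (fun τ => φ τ * ‖S k τ‖) := by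
    intro k φ hφ
    obtain ⟨R, hR⟩ := hSbd k
    refine Integrable.mul_bdd (c := R) hφ (hScont k).norm.aestronglyMeasurable
      (Filter.Eventually.of_forall fun τ => ?_)
    rw [norm_norm]
    exact hR τ
  obtain ⟨Q, hQ⟩ : ∃ Q : Finset ℤ, Q = (Icc (-(K1 : ℤ)) K1).filter (fun k => ¬ IsSquare k) :=
    ⟨_, rfl⟩
  have hQ0 : ∀ k ∈ Q, k ≠ 0 := by
    intro k hk
    rw [hQ, mem_filter] at hk
    rintro rfl
    exact hk.2 ⟨0, by simp⟩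
  -- a single `k`
  have hk : ∀ k ∈ Q, |∑ q ∈ e2P M, e2c W₁ W₂ r q / √(e2n q : ℝ) *
        (gg k (e2n q) * Ft F σ ((k : ℝ) * Y / (2 * e2n q)))| ≤
      (Y / 2) ^ (-(1 / 2) : ℝ) * (|(k : ℝ)| ^ (-(1 / 2) : ℝ) * ∫ τ : ℝ, g τ * ‖S k τ‖) := by
    intro k hkQ
    have hk0 : k ≠ 0 := hQ0 k hkQ
    have hkpos : 0 < |(k : ℝ)| := by
      rw [abs_pos]; exact_mod_cast hk0
    obtain ⟨t, ht⟩ : ∃ t : ℝ, t = |(k : ℝ)| * (Y / 2) := ⟨_, rfl⟩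
    have htpos : 0 < t := by rw [ht]; (clear * - hk0 hYpos; positivity)
    have p1 : t ^ (-(1 / 2) : ℝ) = |(k : ℝ)| ^ (-(1 / 2) : ℝ) * (Y / 2) ^ (-(1 / 2) : ℝ) := by
      rw [ht, Real.mul_rpow hkpos.le (by positivity)]
    have hmono : ∀ f : ℝ → ℂ, Integrable f → (∀ τ, ‖f τ‖ ≤ g τ) →
        ∫ τ : ℝ, ‖f τ‖ * ‖S k τ‖ ≤ ∫ τ : ℝ, g τ * ‖S k τ‖ := by
      intro f hf hfg
      refine integral_mono (hSint k _ hf.norm) (hSint k _ hgi) fun τ => ?_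
      exact mul_le_mul_of_nonneg_right (hfg τ) (norm_nonneg _)
    have hfin : ∀ J : ℝ, J ≤ ∫ τ : ℝ, g τ * ‖S k τ‖ → t ^ (-(1 / 2) : ℝ) * J ≤
        (Y / 2) ^ (-(1 / 2) : ℝ) * (|(k : ℝ)| ^ (-(1 / 2) : ℝ) * ∫ τ : ℝ, g τ * ‖S k τ‖) := by
      intro J hJ
      rw [p1]
      have h1 : 0 ≤ |(k : ℝ)| ^ (-(1 / 2) : ℝ) * (Y / 2) ^ (-(1 / 2) : ℝ) := by (clear * - hk0 hYpos; positivity)
      calc _ ≤ |(k : ℝ)| ^ (-(1 / 2) : ℝ) * (Y / 2) ^ (-(1 / 2) : ℝ) * ∫ τ : ℝ, g τ * ‖S k τ‖ :=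
            mul_le_mul_of_nonneg_left hJ h1
        _ = _ := by ring
    rcases lt_or_gt_of_ne hk0 with hneg | hpos
    · have h1 := e2_key f₂ hf2i hc₂ (Ft F (-σ)) hm₂ t htpos (e2P M) (e2c W₁ W₂ r)
        (fun q => gg k (e2n q)) e2n (fun q hq => e2n_pos hq)
      have h2 : ∀ q ∈ e2P M, Ft F (-σ) (t / e2n q) = Ft F σ ((k : ℝ) * Y / (2 * e2n q)) := by
        intro q _
        rw [← e2_Ft_neg]
        congr 1
        have : |(k : ℝ)| = -(k : ℝ) := abs_of_neg (by exact_mod_cast hneg)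
        rw [ht, this]
        ring
      have h3 : ∑ q ∈ e2P M, e2c W₁ W₂ r q / √(e2n q : ℝ) *
          (gg k (e2n q) * Ft F σ ((k : ℝ) * Y / (2 * e2n q))) =
          ∑ q ∈ e2P M, e2c W₁ W₂ r q / √(e2n q : ℝ) *
          (gg k (e2n q) * Ft F (-σ) (t / e2n q)) :=
        sum_congr rfl fun q hq => by rw [h2 q hq]
      rw [h3]
      refine h1.trans (hfin _ ?_)
      refine le_trans (le_of_eq ?_) (hmono f₂ hf2i fun τ => by rw [hg]; linarith only [norm_nonneg (f₁ τ)])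
      refine integral_congr_ae (Filter.Eventually.of_forall fun τ => ?_)
      simp only [hS]
    · have h1 := e2_key f₁ hf1i hc₁ (Ft F σ) hm₁ t htpos (e2P M) (e2c W₁ W₂ r)
        (fun q => gg k (e2n q)) e2n (fun q hq => e2n_pos hq)
      have h2 : ∀ q ∈ e2P M, Ft F σ (t / e2n q) = Ft F σ ((k : ℝ) * Y / (2 * e2n q)) := by
        intro q _
        congr 1
        have : |(k : ℝ)| = (k : ℝ) := abs_of_pos (by exact_mod_cast hpos)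
        rw [ht, this]
        ring
      have h3 : ∑ q ∈ e2P M, e2c W₁ W₂ r q / √(e2n q : ℝ) *
          (gg k (e2n q) * Ft F σ ((k : ℝ) * Y / (2 * e2n q))) =
          ∑ q ∈ e2P M, e2c W₁ W₂ r q / √(e2n q : ℝ) *
          (gg k (e2n q) * Ft F σ (t / e2n q)) :=
        sum_congr rfl fun q hq => by rw [h2 q hq]
      rw [h3]
      refine h1.trans (hfin _ ?_)
      refine le_trans (le_of_eq ?_) (hmono f₁ hf1i fun τ => by rw [hg]; linarith only [norm_nonneg (f₂ τ)])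
      refine integral_congr_ae (Filter.Eventually.of_forall fun τ => ?_)
      simp only [hS]
  -- the sum over `k` inside the integral
  have hsumint : ∑ k ∈ Q, |(k : ℝ)| ^ (-(1 / 2) : ℝ) * ∫ τ : ℝ, g τ * ‖S k τ‖ ≤
      K * X ^ ε * (√(K1 : ℝ) + X ^ θ) * I := by
    have h1 : ∑ k ∈ Q, |(k : ℝ)| ^ (-(1 / 2) : ℝ) * ∫ τ : ℝ, g τ * ‖S k τ‖ =
        ∫ τ : ℝ, g τ * ∑ k ∈ Q, |(k : ℝ)| ^ (-(1 / 2) : ℝ) * ‖S k τ‖ := by
      have h2 : ∀ k ∈ Q, |(k : ℝ)| ^ (-(1 / 2) : ℝ) * ∫ τ : ℝ, g τ * ‖S k τ‖ =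
          ∫ τ : ℝ, |(k : ℝ)| ^ (-(1 / 2) : ℝ) * (g τ * ‖S k τ‖) := by
        intro k _
        rw [integral_const_mul]
      rw [sum_congr rfl h2, ← integral_finsetSum _
        (fun k _ => (hSint k g hgi).const_mul _)]
      refine integral_congr_ae (Filter.Eventually.of_forall fun τ => ?_)
      simp only [mul_sum]
      refine sum_congr rfl fun k _ => ?_
      ring
    rw [h1]
    have h3 : ∀ τ : ℝ, ∑ k ∈ Q, |(k : ℝ)| ^ (-(1 / 2) : ℝ) * ‖S k τ‖ ≤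
        K * X ^ ε * (1 + |τ|) ^ (2 * B) * (√(K1 : ℝ) + X ^ θ) := by
      intro τ
      have h4 := hsk X hX22 W₁ W₂ hW₁ hW₂ hS₁ hS₂ K1 hK1one hK1X τ
      rw [← hM] at h4
      refine le_trans (le_of_eq ?_) h4
      rw [hQ]
      refine sum_congr rfl fun k _ => ?_
      rw [e2_cplx, hS]
    rw [hI]
    calc ∫ τ : ℝ, g τ * ∑ k ∈ Q, |(k : ℝ)| ^ (-(1 / 2) : ℝ) * ‖S k τ‖ ≤
        ∫ τ : ℝ, K * X ^ ε * (√(K1 : ℝ) + X ^ θ) * (g τ * (1 + |τ|) ^ (2 * B)) := by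
          refine integral_mono ?_ ((hgB (2 * B)).const_mul _) fun τ => ?_
          · have h5 : (fun τ : ℝ => g τ * ∑ k ∈ Q, |(k : ℝ)| ^ (-(1 / 2) : ℝ) * ‖S k τ‖) =
                fun τ => ∑ k ∈ Q, |(k : ℝ)| ^ (-(1 / 2) : ℝ) * (g τ * ‖S k τ‖) := by
              funext τ
              rw [mul_sum]
              exact sum_congr rfl fun k _ => by ring
            rw [h5]
            exact integrable_finsetSum _ fun k _ => (hSint k g hgi).const_mul _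
          · have h6 := mul_le_mul_of_nonneg_left (h3 τ) (hg0 τ)
            simp only
            linarith only [h6]
      _ = _ := by rw [integral_const_mul]
  -- the truncated sum
  have hTb : |quad W₁ W₂ r M T| ≤ D₁ * X ^ (-(η₀ / 2)) := by
    have h1 : quad W₁ W₂ r M T = ∑ k ∈ Q, c k * ∑ q ∈ e2P M,
        e2c W₁ W₂ r q / √(e2n q : ℝ) * (gg k (e2n q) * Ft F σ ((k : ℝ) * Y / (2 * e2n q))) := by
      have h2 : quad W₁ W₂ r M T = ∑ k ∈ Icc (-(K1 : ℤ)) K1, ∑ q ∈ e2P M,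
          e2c W₁ W₂ r q / √(e2n q : ℝ) * (if IsSquare k then 0 else c k *
            gg k (e2n q) * Ft F σ ((k : ℝ) * Y / (2 * e2n q))) := by
        rw [e2_quad, sum_comm]
        refine sum_congr rfl fun q _ => ?_
        rw [hT, mul_sum]
      rw [h2, hQ, sum_filter]
      refine sum_congr rfl fun k _ => ?_
      by_cases hsq : IsSquare k
      · simp [hsq]
      · rw [if_pos hsq, mul_sum]
        refine sum_congr rfl fun q _ => ?_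
        rw [if_neg hsq]
        ring
    have h3 : |quad W₁ W₂ r M T| ≤ 2 * ((Y / 2) ^ (-(1 / 2) : ℝ) *
        ∑ k ∈ Q, |(k : ℝ)| ^ (-(1 / 2) : ℝ) * ∫ τ : ℝ, g τ * ‖S k τ‖) := by
      rw [h1, mul_sum, mul_sum]
      refine (abs_sum_le_sum_abs _ _).trans (sum_le_sum fun k hkQ => ?_)
      rw [abs_mul]
      exact mul_le_mul (hcb k) (hk k hkQ) (abs_nonneg _) (by norm_num)
    have p4 : (Y / 2) ^ (-(1 / 2) : ℝ) ≤ (2 * C) ^ (1 / 2 : ℝ) * X ^ (-(1 / 2) : ℝ) := by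
      have q1 : X / (2 * C) ≤ Y / 2 := by
        rw [div_le_iff₀ (by positivity)]
        rw [div_le_iff₀ hC] at hY
        nlinarith only [hY]
      have q2 : (Y / 2) ^ (-(1 / 2) : ℝ) ≤ (X / (2 * C)) ^ (-(1 / 2) : ℝ) :=
        Real.rpow_le_rpow_of_nonpos (by positivity) q1 (by norm_num)
      refine q2.trans (le_of_eq ?_)
      rw [Real.div_rpow hXpos.le (by positivity), Real.rpow_neg (by positivity : 0 ≤ 2 * C),
        div_inv_eq_mul, mul_comm]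
    have p5 : √(K1 : ℝ) + X ^ θ ≤ 2 * X ^ (θ + ε / 2) := by
      have q1 : √(K1 : ℝ) ≤ X ^ (θ + ε / 2) := by
        rw [Real.sqrt_le_left (by positivity), ← Real.rpow_natCast, ← Real.rpow_mul hXpos.le]
        refine hK1le.trans (le_of_eq ?_)
        congr 1
        push_cast
        ring
      have q2 : X ^ θ ≤ X ^ (θ + ε / 2) :=
        Real.rpow_le_rpow_of_exponent_le hXone (by linarith only [hε0])
      linarith only [q1, q2]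
    have p6 : X ^ (-(1 / 2) : ℝ) * X ^ ε * X ^ (θ + ε / 2) ≤ X ^ (-(η₀ / 2)) := by
      rw [← Real.rpow_add hXpos, ← Real.rpow_add hXpos]
      refine Real.rpow_le_rpow_of_exponent_le hXone ?_
      rw [hε, hη₀]
      linarith only [hθ']
    refine h3.trans ?_
    calc 2 * ((Y / 2) ^ (-(1 / 2) : ℝ) *
        ∑ k ∈ Q, |(k : ℝ)| ^ (-(1 / 2) : ℝ) * ∫ τ : ℝ, g τ * ‖S k τ‖) ≤
        2 * (((2 * C) ^ (1 / 2 : ℝ) * X ^ (-(1 / 2) : ℝ)) *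
          (K * X ^ ε * (√(K1 : ℝ) + X ^ θ) * I)) := by
          refine mul_le_mul_of_nonneg_left ?_ (by norm_num)
          refine mul_le_mul p4 hsumint ?_ (by positivity)
          refine sum_nonneg fun k _ => mul_nonneg (by (clear * -; positivity)) ?_
          exact integral_nonneg fun τ => mul_nonneg (hg0 τ) (norm_nonneg _)
      _ ≤ 2 * (((2 * C) ^ (1 / 2 : ℝ) * X ^ (-(1 / 2) : ℝ)) *
          (K * X ^ ε * (2 * X ^ (θ + ε / 2)) * I)) := by (clear * - p5 hK hX2 hI0 hC; gcongr)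
      _ = D₁ * (X ^ (-(1 / 2) : ℝ) * X ^ ε * X ^ (θ + ε / 2)) := by rw [hD₁]; ring
      _ ≤ D₁ * X ^ (-(η₀ / 2)) := mul_le_mul_of_nonneg_left p6 hD₁0
  have hfin : |quad W₁ W₂ r M (NSc F σ c Y)| ≤ E * X ^ (-(η₀ / 2)) := by
    have h1 : |quad W₁ W₂ r M (NSc F σ c Y)| ≤
        |quad W₁ W₂ r M (NSc F σ c Y) - quad W₁ W₂ r M T| + |quad W₁ W₂ r M T| := by
      have := abs_add_le (quad W₁ W₂ r M (NSc F σ c Y) - quad W₁ W₂ r M T) (quad W₁ W₂ r M T)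
      rwa [sub_add_cancel] at this
    have h2 : 0 ≤ X ^ (-(η₀ / 2)) := by positivity
    rw [hE]
    nlinarith only [hA, hTb, h1, h2]
  refine hfin.trans ?_
  have hEX : E ≤ X ^ (η₀ / 4) := by
    have h1 : (E ^ (4 / η₀)) ^ (η₀ / 4) ≤ X ^ (η₀ / 4) :=
      Real.rpow_le_rpow (by positivity) hXE (by linarith only [hθ', hη₀])
    rw [← Real.rpow_mul hE0.le] at h1
    have h2 : 4 / η₀ * (η₀ / 4) = 1 := by field_simp
    rwa [h2, Real.rpow_one] at h1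
  calc E * X ^ (-(η₀ / 2)) ≤ X ^ (η₀ / 4) * X ^ (-(η₀ / 2)) := by (clear * - hEX hX2; gcongr)
    _ = X ^ (-(η₀ / 4)) := by rw [← Real.rpow_add hXpos]; congr 1; ring

private theorem g2_lipmono {θ X C C' : ℝ} {W : ℕ → ℕ → ℝ} (h : LipW θ X C W) (hC : C ≤ C') :
    LipW θ X C' W where
  bd := fun l n => (h.bd l n).trans hC
  lip := fun l m n hm hn => (h.lip l m n hm hn).trans
    (mul_le_mul_of_nonneg_right hC (abs_nonneg _))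
  supp₁ := h.supp₁
  supp₂ := h.supp₂

private theorem g2_sepmono {B : ℕ} {C C' : ℝ} {W : ℕ → ℕ → ℝ} (h : SepW B C W) (hC : C ≤ C') :
    SepW B C' W := by
  obtain ⟨w, u, v, h1, h2, h3, h4, h5, h6, h7, h8⟩ := h
  exact ⟨w, u, v, h1, h2, h3, h4, h5, h6, h7.trans hC, h8⟩

/-- The error term for generic nonsquare sums is negligible. -/
theorem errSc_of_lt2 [QlsHyp] (θ₁ δ : ℝ) (hθ₁ : 0 < θ₁) (hδ : 0 < δ) (hθ : θ₁ + 3 * δ < 1 / 2)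
    (F : ℝ → ℝ) (a b : ℝ) (ha : 0 < a) (hF : Bump F a b) (σ : ℤ) (hσ : σ = 1 ∨ σ = -1)
    (r : ℕ) (hr : Odd r) (c₀ : ℝ) (hc₀ : c₀ = 0 ∨ c₀ = 1) (ρ₁ ρ₂ h : ℝ → ℝ)
    (hρ₁ : Bump ρ₁ (-(δ / 2)) (δ / 2)) (hρ₂ : Bump ρ₂ (-(δ / 2)) (δ / 2)) (hh : Bump h 0 θ₁)
    (C₀ : ℝ) (hC₀ : 0 < C₀) (ε : ℝ) (hε : 0 < ε) : ∃ X₀ : ℝ, ∀ X : ℝ, X₀ ≤ X →
    ∀ Y₁ ∈ Set.Icc (-1 : ℝ) (1 / 2 + δ), ∀ Y₂ ∈ Set.Icc (-1 : ℝ) (1 / 2 + δ), ∀ c : ℤ → ℝ,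
    (∀ k, |c k| ≤ 2) → ∀ Y : ℝ, X / C₀ ≤ Y → Y ≤ C₀ * X →
    |quad (Wt c₀ ρ₁ h X θ₁ δ Y₁) (Wt c₀ ρ₂ h X θ₁ δ Y₂) r ⌊X ^ 2⌋₊ (NSc F σ c Y)| ≤ ε := by
  obtain ⟨B, HB⟩ := err_general2 (θ₁ + 3 * δ) (by positivity) hθ ha hF σ hσ r hr
  obtain ⟨C₁, X₁, hC₁, H₁⟩ := lipW_Wt θ₁ δ hθ₁ hδ hθ c₀ hc₀ hρ₁ hh
  obtain ⟨C₂, X₂, hC₂, H₂⟩ := lipW_Wt θ₁ δ hθ₁ hδ hθ c₀ hc₀ hρ₂ hh
  obtain ⟨C₃, X₃, hC₃, H₃⟩ := sepW_Wt θ₁ δ hθ₁ hδ hθ c₀ hc₀ hρ₁ hh B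
  obtain ⟨C₄, X₄, hC₄, H₄⟩ := sepW_Wt θ₁ δ hθ₁ hδ hθ c₀ hc₀ hρ₂ hh B
  set C : ℝ := C₀ + C₁ + C₂ + C₃ + C₄ with hC
  have hCpos : 0 < C := by (clear * - hC₀ hC₁ hC₂ hC₃ hC₄; positivity)
  obtain ⟨η, X₅, hη, H₅⟩ := HB C hCpos
  have hlim : Tendsto (fun X : ℝ => X ^ (-η)) atTop (𝓝 0) := tendsto_rpow_neg_atTop hη
  have hev : ∀ᶠ X : ℝ in atTop, X₁ ≤ X ∧ X₂ ≤ X ∧ X₃ ≤ X ∧ X₄ ≤ X ∧ X₅ ≤ X ∧ 0 ≤ X ∧
      X ^ (-η) < ε := by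
    filter_upwards [eventually_ge_atTop X₁, eventually_ge_atTop X₂, eventually_ge_atTop X₃,
      eventually_ge_atTop X₄, eventually_ge_atTop X₅, eventually_ge_atTop 0,
      hlim.eventually (gt_mem_nhds hε)] with X h1 h2 h3 h4 h5 h6 h7
    exact ⟨h1, h2, h3, h4, h5, h6, h7⟩
  obtain ⟨X₀, HX₀⟩ := Filter.eventually_atTop.1 hev
  refine ⟨X₀, fun X hX Y₁ hY₁ Y₂ hY₂ c hc Y hYl hYu => ?_⟩
  obtain ⟨h1, h2, h3, h4, h5, h6, h7⟩ := HX₀ X hX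
  have g1 : X / C ≤ Y := by
    refine le_trans ?_ hYl
    refine div_le_div_of_nonneg_left h6 hC₀ ?_
    rw [hC]
    linarith only [hC₁, hC₂, hC₃, hC₄]
  have g2 : Y ≤ C * X := by
    refine hYu.trans ?_
    refine mul_le_mul_of_nonneg_right ?_ h6
    rw [hC]
    linarith only [hC₁, hC₂, hC₃, hC₄]
  have hle := H₅ X h5 Y g1 g2 (Wt c₀ ρ₁ h X θ₁ δ Y₁) (Wt c₀ ρ₂ h X θ₁ δ Y₂)
    (g2_lipmono (H₁ X h1 Y₁ hY₁) (by rw [hC]; linarith only [hC₀, hC₂, hC₃, hC₄]))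
    (g2_lipmono (H₂ X h2 Y₂ hY₂) (by rw [hC]; linarith only [hC₀, hC₁, hC₃, hC₄]))
    (g2_sepmono (H₃ X h3 Y₁ hY₁) (by rw [hC]; linarith only [hC₀, hC₁, hC₂, hC₄]))
    (g2_sepmono (H₄ X h4 Y₂ hY₂) (by rw [hC]; linarith only [hC₀, hC₁, hC₂, hC₃])) c hc
  exact hle.trans h7.le

theorem errS_of_lt2 [QlsHyp] (θ₁ δ : ℝ) (hθ₁ : 0 < θ₁) (hδ : 0 < δ) (hθ : θ₁ + 3 * δ < 1 / 2) :
    ErrS θ₁ δ := by
  intro F a b ha hF σ hσ r hr hrs c hc ρ₁ ρ₂ h hρ₁ hρ₂ hh ε hε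
  have hr1 : (1 : ℝ) ≤ r := by exact_mod_cast hr.pos
  have hr2 : (1 : ℝ) ≤ (r : ℝ) ^ 2 := one_le_pow₀ hr1
  obtain ⟨X₁, H₁⟩ := errSc_of_lt2 θ₁ δ hθ₁ hδ hθ F a b ha hF σ hσ r hr c hc ρ₁ ρ₂ h hρ₁ hρ₂ hh
    ((r : ℝ) ^ 2) (by positivity) ε hε
  refine ⟨max X₁ 0, fun X hX Y₁ hY₁ Y₂ hY₂ => ?_⟩
  have hX1 : X₁ ≤ X := (le_max_left _ _).trans hX
  have hX0 : 0 ≤ X := (le_max_right _ _).trans hX
  have h2 : X / (r : ℝ) ^ 2 ≤ (r : ℝ) ^ 2 * X := by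
    have h3 : X / (r : ℝ) ^ 2 ≤ X := div_le_self hX0 hr2
    nlinarith only [h3, hθ₁, hδ, hθ, hr2, hX0]
  have := H₁ X hX1 Y₁ hY₁ Y₂ hY₂ (fun k => (-1 : ℝ) ^ k.natAbs) (fun k => by
    rw [abs_pow, abs_neg, abs_one, one_pow]; norm_num) (X / (r : ℝ) ^ 2) le_rfl h2
  have he : (NS F σ (X / (r : ℝ) ^ 2)) =
      NSc F σ (fun k => (-1 : ℝ) ^ k.natAbs) (X / (r : ℝ) ^ 2) :=
    funext fun N => NS_eq_NSc F σ (X / (r : ℝ) ^ 2) N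
  rw [he]
  exact this

end Pool.Agent.MP0016c7.Rz
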