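import Pool.Agent.Lib.MP_0016c7_nt.Rz2.ErrGd0
import Pool.Agent.Lib.MP_0016c7_nt.Rz2.ErrG2

set_option autoImplicit false

/-!
The error term hypothesis for general coefficients holds, given the quadratic large sieve
(`QlsHyp`, proved in `Rz2/Qls.lean`).
-/

open Finset MeasureTheory Filter Topology
open scoped Real ContDiff

namespace Pool.Agent.MP0016c7.Rz

theorem errG_of_lt [QlsHyp] (θ₁ δ : ℝ) (hθ₁ : 0 < θ₁) (hδ : 0 < δ) (hθ : θ₁ + 3 * δ < 1 / 2) :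
    ErrG θ₁ δ := by
  intro F a b ha hF σ hσ r hr c₀ hc₀ ρ₁ ρ₂ h hρ₁ hρ₂ hh C₀ hC₀ ε hε
  exact errSc_of_lt2 θ₁ δ hθ₁ hδ hθ F a b ha hF σ hσ r hr c₀ hc₀ ρ₁ ρ₂ h hρ₁ hρ₂ hh C₀ hC₀ ε hε

end Pool.Agent.MP0016c7.Rz
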