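import Mathlib
import Pool.Agent.Lib.MP_0016c7_nt.Theta
import Pool.Agent.Lib.MP_0016c7_nt.Rz.Defs
import Pool.Agent.Lib.MP_0016c7_nt.Rz.DefsC
import Pool.Agent.Lib.MP_0016c7_nt.Rz.DefsF
import Pool.Agent.Lib.MP_0016c7_nt.Rz.DefsE
import Pool.Agent.Lib.MP_0016c7_nt.Rz.Ker3
import Pool.Agent.Lib.MP_0016c7_nt.Rz.ArithA7
import Pool.Agent.Lib.MP_0016c7_nt.Rz2.DefsG

set_option autoImplicit false

/-!
The truncated and the full main term, general main functions.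
-/

open Finset MeasureTheory Filter Topology
open scoped Real ContDiff

namespace Pool.Agent.MP0016c7.Rz


private theorem sm3g_wt_le (c : ℝ) (ρ h : ℝ → ℝ) (X θ δ Y : ℝ) (l n : ℕ) :
    |Wt c ρ h X θ δ Y l n| ≤ |kL c ρ h (Real.log X) (Y - Real.log n / Real.log X)
      (Real.log l / Real.log X)| := by
  unfold Wt
  rw [abs_mul]
  refine mul_le_of_le_one_right (abs_nonneg _) ?_
  have h0 := Real.smoothTransition.nonneg
    (((Real.log n + Real.log l) / Real.log X - Y - θ - δ) / δ)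
  have h1 := Real.smoothTransition.le_one
    (((Real.log n + Real.log l) / Real.log X - Y - θ - δ) / δ)
  rw [abs_le]; constructor <;> linarith

private theorem sm3g_mu_abs (n : ℕ) : |(ArithmeticFunction.moebius n : ℝ)| ≤ 1 := by
  have h := ArithmeticFunction.abs_moebius_le_one (n := n)
  exact_mod_cast h

/-- pointwise bound of the terms -/
private theorem sm3g_term_le {N : ℕ} {m₁ m₂ k₁ k₂ v₁ v₂ M C x y : ℝ} (hm₁ : |m₁| ≤ 1) (hm₂ : |m₂| ≤ 1)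
    (hM : |M| ≤ C * N) (hC : 0 ≤ C) (hN : 1 ≤ N) (hxy : (N : ℝ) = x * y) (hx : 1 ≤ x) (hy : 1 ≤ y)
    (hv : |v₂| ≤ |k₂|) :
    |m₁ * m₂ * v₁ * v₂ / √(N : ℝ) * M - m₁ * m₂ * k₁ * k₂ / √(N : ℝ) * M| ≤
      C * ((x ^ 2 * |k₁|) * (y ^ 2 * |k₂ - v₂|) + (x ^ 2 * |k₁ - v₁|) * (y ^ 2 * |k₂|)) := by
  have hNR : (1 : ℝ) ≤ N := by exact_mod_cast hN
  have hs : 1 ≤ √(N : ℝ) := by rw [Real.one_le_sqrt]; exact hNR
  have hspos : 0 < √(N : ℝ) := by linarith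
  have e : m₁ * m₂ * v₁ * v₂ / √(N : ℝ) * M - m₁ * m₂ * k₁ * k₂ / √(N : ℝ) * M =
      (m₁ * m₂) * (v₁ * v₂ - k₁ * k₂) * (M / √(N : ℝ)) := by ring
  rw [e, abs_mul, abs_mul, abs_mul, abs_div, abs_of_pos hspos]
  have h1 : |m₁| * |m₂| ≤ 1 := by
    calc |m₁| * |m₂| ≤ 1 * 1 := mul_le_mul hm₁ hm₂ (abs_nonneg _) (by norm_num)
      _ = 1 := by norm_num
  have h2 : |v₁ * v₂ - k₁ * k₂| ≤ |k₁| * |k₂ - v₂| + |k₁ - v₁| * |k₂| := by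
    have e2 : v₁ * v₂ - k₁ * k₂ = -(k₁ * (k₂ - v₂)) + -((k₁ - v₁) * v₂) := by ring
    rw [e2]
    refine (abs_add_le _ _).trans ?_
    rw [abs_neg, abs_neg, abs_mul, abs_mul]
    exact add_le_add le_rfl (mul_le_mul_of_nonneg_left hv (abs_nonneg _))
  have h3 : |M| / √(N : ℝ) ≤ C * (x * y) := by
    rw [← hxy]
    refine (div_le_self (abs_nonneg _) hs).trans hM
  have h4 : x * y ≤ x ^ 2 * y ^ 2 := by
    have h5 : 1 ≤ x * y := by nlinarith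
    nlinarith
  have hB : 0 ≤ |k₁| * |k₂ - v₂| + |k₁ - v₁| * |k₂| := by positivity
  calc |m₁| * |m₂| * |v₁ * v₂ - k₁ * k₂| * (|M| / √(N : ℝ))
      ≤ 1 * (|k₁| * |k₂ - v₂| + |k₁ - v₁| * |k₂|) * (C * (x * y)) := by
        refine mul_le_mul (mul_le_mul h1 h2 (abs_nonneg _) (by norm_num)) h3 ?_ ?_
        · positivity
        · positivity
    _ ≤ 1 * (|k₁| * |k₂ - v₂| + |k₁ - v₁| * |k₂|) * (C * (x ^ 2 * y ^ 2)) := by
        refine mul_le_mul_of_nonneg_left (mul_le_mul_of_nonneg_left h4 hC) ?_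
        positivity
    _ = _ := by ring

theorem quad_MTg {δ θ : ℝ} (hδ : 0 < δ) (hθ : 0 < θ) (hθ1 : θ + 3 * δ < 1 / 2)
    (r : ℕ) (hr : Odd r) (c : ℝ) (hc : c = 0 ∨ c = 1)
    {ρ₁ ρ₂ h : ℝ → ℝ} (hρ₁ : Bump ρ₁ (-(δ / 2)) (δ / 2)) (hρ₂ : Bump ρ₂ (-(δ / 2)) (δ / 2))
    (hh : Bump h 0 θ) (C₀ : ℝ) (ε : ℝ) (hε : 0 < ε) :
    ∃ X₀ : ℝ, ∀ X : ℝ, X₀ ≤ X → ∀ M : ℕ → ℝ, (∀ N : ℕ, Odd N → |M N| ≤ C₀ * N) →
      ∀ Y₁ ∈ Set.Icc (-1 : ℝ) (1 / 2 + δ), ∀ Y₂ ∈ Set.Icc (-1 : ℝ) (1 / 2 + δ),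
      |quad (Wt c ρ₁ h X θ δ Y₁) (Wt c ρ₂ h X θ δ Y₂) r ⌊X ^ 2⌋₊ M -
        MTg c ρ₁ ρ₂ h M X r Y₁ Y₂| ≤ ε := by
  classical
  obtain ⟨X₁, hX₁⟩ := tail_sum hδ hθ hθ1 hρ₁ hh c hc
  obtain ⟨X₂, hX₂⟩ := tail_sum hδ hθ hθ1 hρ₂ hh c hc
  set C := |C₀| with hCdef
  have hC : 0 ≤ C := abs_nonneg _
  have hr0 : 0 < r := hr.pos
  refine ⟨max (max X₁ X₂) (max ((r : ℝ) ^ 2) ((2 * C + 1) / ε)), ?_⟩
  intro X hX Mf hMf Y₁ hY₁ Y₂ hY₂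
  have hXa : X₁ ≤ X := le_trans (le_trans (le_max_left _ _) (le_max_left _ _)) hX
  have hXb : X₂ ≤ X := le_trans (le_trans (le_max_right _ _) (le_max_left _ _)) hX
  have hXr : (r : ℝ) ^ 2 ≤ X := le_trans (le_trans (le_max_left _ _) (le_max_right _ _)) hX
  have hXe : (2 * C + 1) / ε ≤ X := le_trans (le_trans (le_max_right _ _) (le_max_right _ _)) hX
  have hr2 : (1 : ℝ) ≤ (r : ℝ) ^ 2 := by
    have : (1 : ℝ) ≤ r := by exact_mod_cast hr0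
    nlinarith
  have hX1 : 1 ≤ X := hr2.trans hXr
  have hXpos : 0 < X := by linarith
  have hY : 1 ≤ X / (r : ℝ) ^ 2 := by
    rw [le_div_iff₀ (by positivity)]; linarith
  obtain ⟨sK₁, bK₁, bD₁⟩ := hX₁ X hXa Y₁ hY₁
  obtain ⟨sK₂, bK₂, bD₂⟩ := hX₂ X hXb Y₂ hY₂
  set M := ⌊X ^ 2⌋₊ with hM
  let K₁ : ℕ × ℕ → ℝ := fun p =>
    kL c ρ₁ h (Real.log X) (Y₁ - Real.log p.1 / Real.log X) (Real.log p.2 / Real.log X)
  let K₂ : ℕ × ℕ → ℝ := fun p =>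
    kL c ρ₂ h (Real.log X) (Y₂ - Real.log p.1 / Real.log X) (Real.log p.2 / Real.log X)
  let V₁ : ℕ × ℕ → ℝ := fun p => if p.1 ≤ M ∧ p.2 ≤ M then Wt c ρ₁ h X θ δ Y₁ p.2 p.1 else 0
  let V₂ : ℕ × ℕ → ℝ := fun p => if p.1 ≤ M ∧ p.2 ≤ M then Wt c ρ₂ h X θ δ Y₂ p.2 p.1 else 0
  let w : ℕ × ℕ → ℝ := fun p => ((p.1 : ℝ) * p.2) ^ 2
  have hw : ∀ p, 0 ≤ w p := fun p => sq_nonneg _
  have hV₁ : ∀ p, |V₁ p| ≤ |K₁ p| := by
    intro p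
    simp only [V₁]
    split_ifs
    · exact sm3g_wt_le c ρ₁ h X θ δ Y₁ p.2 p.1
    · rw [abs_zero]; exact abs_nonneg _
  have hV₂ : ∀ p, |V₂ p| ≤ |K₂ p| := by
    intro p
    simp only [V₂]
    split_ifs
    · exact sm3g_wt_le c ρ₂ h X θ δ Y₂ p.2 p.1
    · rw [abs_zero]; exact abs_nonneg _
  have sK₁' : Summable (fun p => w p * |K₁ p|) := sK₁
  have sK₂' : Summable (fun p => w p * |K₂ p|) := sK₂
  have bK₁' : ∑' p, w p * |K₁ p| ≤ X ^ 20 := bK₁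
  have bK₂' : ∑' p, w p * |K₂ p| ≤ X ^ 20 := bK₂
  have bD₁' : ∑' p, w p * |K₁ p - V₁ p| ≤ X ^ (-30 : ℝ) := bD₁
  have bD₂' : ∑' p, w p * |K₂ p - V₂ p| ≤ X ^ (-30 : ℝ) := bD₂
  have hd : ∀ (K V : ℕ × ℕ → ℝ), (∀ p, |V p| ≤ |K p|) → Summable (fun p => w p * |K p|) →
      Summable (fun p => w p * |K p - V p|) := by
    intro K V hV hs
    refine Summable.of_nonneg_of_le (fun p => mul_nonneg (hw p) (abs_nonneg _)) (fun p => ?_)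
      (hs.mul_left 2)
    have h1 : |K p - V p| ≤ 2 * |K p| := by
      refine (abs_sub _ _).trans ?_
      have := hV p; linarith
    calc w p * |K p - V p| ≤ w p * (2 * |K p|) := mul_le_mul_of_nonneg_left h1 (hw p)
      _ = 2 * (w p * |K p|) := by ring
  have sD₁ := hd K₁ V₁ hV₁ sK₁'
  have sD₂ := hd K₂ V₂ hV₂ sK₂'
  -- the two families
  let N : (ℕ × ℕ) × (ℕ × ℕ) → ℕ := fun q => q.1.1 * q.1.2 * q.2.1 * q.2.2
  let G : (ℕ × ℕ → ℝ) → (ℕ × ℕ → ℝ) → (ℕ × ℕ) × (ℕ × ℕ) → ℝ := fun A B q =>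
    if Nat.Coprime (N q) (2 * r) then
      (ArithmeticFunction.moebius q.1.2 : ℝ) * (ArithmeticFunction.moebius q.2.2 : ℝ) *
        A q.1 * B q.2 / √((N q : ℕ) : ℝ) * Mf (N q)
    else 0
  have hMT : MTg c ρ₁ ρ₂ h Mf X r Y₁ Y₂ = ∑' q, G K₁ K₂ q := rfl
  let S : Finset ((ℕ × ℕ) × (ℕ × ℕ)) := (Icc 1 M ×ˢ Icc 1 M) ×ˢ (Icc 1 M ×ˢ Icc 1 M)
  have hcop : ∀ q, Nat.Coprime (N q) (2 * r) → N q ≠ 0 := by
    intro q hq h0
    rw [h0, Nat.coprime_zero_left] at hq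
    omega
  have hGz : ∀ q, q ∉ S → G V₁ V₂ q = 0 := by
    intro q hq
    simp only [G]
    split_ifs with hcp
    · have hN0 := hcop q hcp
      have hpos : 1 ≤ q.1.1 ∧ 1 ≤ q.1.2 ∧ 1 ≤ q.2.1 ∧ 1 ≤ q.2.2 := by
        simp only [N] at hN0
        refine ⟨?_, ?_, ?_, ?_⟩ <;> (rw [Nat.one_le_iff_ne_zero]; intro h; apply hN0; simp [h])
      simp only [S, mem_product, mem_Icc, not_and] at hq
      have hor : ¬(q.1.1 ≤ M ∧ q.1.2 ≤ M) ∨ ¬(q.2.1 ≤ M ∧ q.2.2 ≤ M) := by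
        by_contra hcon
        push Not at hcon
        obtain ⟨⟨a1, a2⟩, a3, a4⟩ := hcon
        exact hq ⟨⟨hpos.1, a1⟩, hpos.2.1, a2⟩ ⟨hpos.2.2.1, a3⟩ hpos.2.2.2 a4
      rcases hor with hh1 | hh1
      · have : V₁ q.1 = 0 := if_neg hh1
        rw [this]; simp
      · have : V₂ q.2 = 0 := if_neg hh1
        rw [this]; simp
    · rfl
  have hquad : quad (Wt c ρ₁ h X θ δ Y₁) (Wt c ρ₂ h X θ δ Y₂) r M Mf =
      ∑' q, G V₁ V₂ q := by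
    rw [tsum_eq_sum (s := S) (fun q hq => hGz q hq)]
    simp only [S]
    rw [sum_product]
    simp only [sum_product]
    unfold quad
    refine sum_congr rfl fun n₁ hn₁ => sum_congr rfl fun l₁ hl₁ => sum_congr rfl fun n₂ hn₂ =>
      sum_congr rfl fun l₂ hl₂ => ?_
    rw [mem_Icc] at hn₁ hl₁ hn₂ hl₂
    simp only [G, N, V₁, V₂]
    rw [if_pos (⟨hn₁.2, hl₁.2⟩ : n₁ ≤ M ∧ l₁ ≤ M), if_pos (⟨hn₂.2, hl₂.2⟩ : n₂ ≤ M ∧ l₂ ≤ M)]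
  -- pointwise bound
  let Bd : (ℕ × ℕ) × (ℕ × ℕ) → ℝ := fun q =>
    C * ((w q.1 * |K₁ q.1|) * (w q.2 * |K₂ q.2 - V₂ q.2|) +
      (w q.1 * |K₁ q.1 - V₁ q.1|) * (w q.2 * |K₂ q.2|))
  have hMMb : ∀ q, Nat.Coprime (N q) (2 * r) → |Mf (N q)| ≤ C * (N q : ℕ) := by
    intro q hq
    have hodd : Odd (N q) := by
      have h2 : Nat.Coprime (N q) 2 := Nat.Coprime.coprime_mul_right_right hq
      exact Nat.coprime_two_right.1 h2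
    refine (hMf (N q) hodd).trans ?_
    exact mul_le_mul_of_nonneg_right (le_abs_self _) (Nat.cast_nonneg _)
  have hfac : ∀ q, Nat.Coprime (N q) (2 * r) → 1 ≤ N q ∧
      ((N q : ℕ) : ℝ) = ((q.1.1 : ℝ) * q.1.2) * ((q.2.1 : ℝ) * q.2.2) ∧
      1 ≤ (q.1.1 : ℝ) * q.1.2 ∧ 1 ≤ (q.2.1 : ℝ) * q.2.2 := by
    intro q hq
    have hN0 := hcop q hq
    have h1 : 1 ≤ q.1.1 * q.1.2 := by
      rw [Nat.one_le_iff_ne_zero]; intro h; apply hN0; simp only [N, h, zero_mul]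
    have h2 : 1 ≤ q.2.1 * q.2.2 := by
      rw [Nat.one_le_iff_ne_zero]; intro h; apply hN0; simp only [N, mul_assoc, h, mul_zero]
    refine ⟨Nat.one_le_iff_ne_zero.2 hN0, ?_, by exact_mod_cast h1, by exact_mod_cast h2⟩
    simp only [N]; push_cast; ring
  have hpt : ∀ q, |G V₁ V₂ q - G K₁ K₂ q| ≤ Bd q := by
    intro q
    simp only [G, Bd]
    split_ifs with hcp
    · obtain ⟨f1, f2, f3, f4⟩ := hfac q hcp
      exact sm3g_term_le (sm3g_mu_abs _) (sm3g_mu_abs _) (hMMb q hcp) hC f1 f2 f3 f4 (hV₂ q.2)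
    · rw [sub_zero, abs_zero]
      have := hw q.1; have := hw q.2
      positivity
  have sP1 : Summable (fun q : (ℕ × ℕ) × (ℕ × ℕ) =>
      (w q.1 * |K₁ q.1|) * (w q.2 * |K₂ q.2 - V₂ q.2|)) :=
    Summable.mul_of_nonneg (f := fun p => w p * |K₁ p|) (g := fun p => w p * |K₂ p - V₂ p|)
      sK₁' sD₂ (fun p => mul_nonneg (hw p) (abs_nonneg _))
      (fun p => mul_nonneg (hw p) (abs_nonneg _))
  have sP2 : Summable (fun q : (ℕ × ℕ) × (ℕ × ℕ) =>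
      (w q.1 * |K₁ q.1 - V₁ q.1|) * (w q.2 * |K₂ q.2|)) :=
    Summable.mul_of_nonneg (f := fun p => w p * |K₁ p - V₁ p|) (g := fun p => w p * |K₂ p|)
      sD₁ sK₂' (fun p => mul_nonneg (hw p) (abs_nonneg _))
      (fun p => mul_nonneg (hw p) (abs_nonneg _))
  have e1 : (∑' p, w p * |K₁ p|) * (∑' p, w p * |K₂ p - V₂ p|) =
      ∑' q : (ℕ × ℕ) × (ℕ × ℕ), (w q.1 * |K₁ q.1|) * (w q.2 * |K₂ q.2 - V₂ q.2|) :=
    Summable.tsum_mul_tsum (f := fun p => w p * |K₁ p|) (g := fun p => w p * |K₂ p - V₂ p|)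
      sK₁' sD₂ sP1
  have e2 : (∑' p, w p * |K₁ p - V₁ p|) * (∑' p, w p * |K₂ p|) =
      ∑' q : (ℕ × ℕ) × (ℕ × ℕ), (w q.1 * |K₁ q.1 - V₁ q.1|) * (w q.2 * |K₂ q.2|) :=
    Summable.tsum_mul_tsum (f := fun p => w p * |K₁ p - V₁ p|) (g := fun p => w p * |K₂ p|)
      sD₁ sK₂' sP2
  have hBs : Summable Bd := (sP1.add sP2).mul_left C
  have hBt : ∑' q, Bd q = C * ((∑' p, w p * |K₁ p|) * (∑' p, w p * |K₂ p - V₂ p|) +
      (∑' p, w p * |K₁ p - V₁ p|) * (∑' p, w p * |K₂ p|)) := by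
    rw [e1, e2, ← sP1.tsum_add sP2, ← tsum_mul_left]
  -- summability of the families
  have hsV : Summable (G V₁ V₂) := summable_of_ne_finset_zero (s := S) (fun q hq => hGz q hq)
  have hsd : Summable (fun q => G V₁ V₂ q - G K₁ K₂ q) :=
    Summable.of_norm_bounded hBs (fun q => by rw [Real.norm_eq_abs]; exact hpt q)
  have hsK : Summable (G K₁ K₂) := by
    have := hsV.sub hsd
    refine this.congr (fun q => ?_)
    ring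
  rw [hquad, hMT, ← hsV.tsum_sub hsK]
  have hfin : |∑' q, (G V₁ V₂ q - G K₁ K₂ q)| ≤ ∑' q, Bd q := by
    rw [← Real.norm_eq_abs]
    exact tsum_of_norm_bounded hBs.hasSum (fun q => by rw [Real.norm_eq_abs]; exact hpt q)
  refine hfin.trans ?_
  rw [hBt]
  have n1 : 0 ≤ ∑' p, w p * |K₁ p| := tsum_nonneg fun p => mul_nonneg (hw p) (abs_nonneg _)
  have n2 : 0 ≤ ∑' p, w p * |K₂ p| := tsum_nonneg fun p => mul_nonneg (hw p) (abs_nonneg _)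
  have n3 : 0 ≤ ∑' p, w p * |K₁ p - V₁ p| := tsum_nonneg fun p => mul_nonneg (hw p) (abs_nonneg _)
  have n4 : 0 ≤ ∑' p, w p * |K₂ p - V₂ p| := tsum_nonneg fun p => mul_nonneg (hw p) (abs_nonneg _)
  have hprod : X ^ 20 * X ^ (-30 : ℝ) ≤ 1 / X := by
    rw [← Real.rpow_natCast X 20, ← Real.rpow_add hXpos]
    have : (1 : ℝ) / X = X ^ (-1 : ℝ) := by rw [Real.rpow_neg_one, one_div]
    rw [this]
    exact Real.rpow_le_rpow_of_exponent_le hX1 (by norm_num)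
  have b1 : (∑' p, w p * |K₁ p|) * (∑' p, w p * |K₂ p - V₂ p|) ≤ 1 / X :=
    (mul_le_mul bK₁' bD₂' n4 (by positivity)).trans hprod
  have b2 : (∑' p, w p * |K₁ p - V₁ p|) * (∑' p, w p * |K₂ p|) ≤ 1 / X := by
    rw [mul_comm]
    exact (mul_le_mul bK₂' bD₁' n3 (by positivity)).trans hprod
  calc C * ((∑' p, w p * |K₁ p|) * (∑' p, w p * |K₂ p - V₂ p|) +
      (∑' p, w p * |K₁ p - V₁ p|) * (∑' p, w p * |K₂ p|))
      ≤ C * (1 / X + 1 / X) := mul_le_mul_of_nonneg_left (add_le_add b1 b2) hC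
    _ = 2 * C / X := by ring
    _ ≤ ε := by
        rw [div_le_iff₀ hXpos]
        rw [div_le_iff₀ hε] at hXe
        linarith

end Pool.Agent.MP0016c7.Rz
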