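import Mathlib
import Pool.Agent.Lib.MP_0016c7_nt.Theta
import Pool.Agent.Lib.MP_0016c7_nt.Rz.Defs
import Pool.Agent.Lib.MP_0016c7_nt.Rz.DefsC
import Pool.Agent.Lib.MP_0016c7_nt.Rz.DefsF
import Pool.Agent.Lib.MP_0016c7_nt.Rz.DefsE
import Pool.Agent.Lib.MP_0016c7_nt.Rz.SumQ
import Pool.Agent.Lib.MP_0016c7_nt.Rz.MMr
import Pool.Agent.Lib.MP_0016c7_nt.Rz.ArithA9
import Pool.Agent.Lib.MP_0016c7_nt.Rz.ArithA10
import Pool.Agent.Lib.MP_0016c7_nt.Rz.BBm
import Pool.Agent.Lib.MP_0016c7_nt.Rz2.DefsG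

set_option autoImplicit false

/-!
Summation of the Dirichlet series, general kernels.
-/

open Finset MeasureTheory Filter Topology
open scoped Real ContDiff

namespace Pool.Agent.MP0016c7.Rz

private theorem hqxg_sq1_pos (N : ℕ) : 0 < sq1 N := by
  unfold sq1
  exact Finset.prod_pos (fun p hp => (Nat.prime_of_mem_primeFactors (Finset.mem_filter.1 hp).1).pos)

private theorem hqxg_cont_bz (c : ℝ) (N : ℕ) :
    Continuous (fun t : ℝ => bz ((c : ℂ) + Complex.I * t) N) := by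
  unfold bz
  refine continuous_const.mul (continuous_finsetSum _ (fun e he => continuous_const.mul ?_))
  apply Continuous.const_cpow
  · fun_prop
  · left
    have he0 : 0 < e := Nat.pos_of_mem_divisors he
    have h1 : (0 : ℝ) < sq1 N := by exact_mod_cast hqxg_sq1_pos N
    have h2 : (0 : ℝ) < e := by exact_mod_cast he0
    have h3 : (0 : ℝ) < (sq1 N : ℝ) / (e : ℝ) ^ 2 := by positivity
    exact_mod_cast h3.ne'

private theorem hqxg_kernel {β : ℂ → ℂ} {B : ℝ → ℝ} (hβ : BC β B) (c : ℝ) (hc : 0 < c)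
    (hc1 : c ≤ 1 / 8) (Y : ℝ) (hY : 0 < Y) :
    Continuous (fun t : ℝ => β (c + Complex.I * t) * ((Y : ℝ) : ℂ) ^ (-(c + Complex.I * t : ℂ)) /
      (c + Complex.I * t)) ∧
    Integrable (fun t : ℝ => β (c + Complex.I * t) * ((Y : ℝ) : ℂ) ^ (-(c + Complex.I * t : ℂ)) /
      (c + Complex.I * t)) := by
  have hcont : Continuous (fun t : ℝ => β (c + Complex.I * t) *
      ((Y : ℝ) : ℂ) ^ (-(c + Complex.I * t : ℂ)) / (c + Complex.I * t)) := by
    apply Continuous.div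
    · apply Continuous.mul (hβ.ct c (by rw [abs_of_pos hc]; exact hc1))
      apply Continuous.const_cpow
      · fun_prop
      · left
        exact_mod_cast hY.ne'
    · fun_prop
    · intro t h0
      have := congrArg Complex.re h0
      simp at this
      linarith
  refine ⟨hcont, ?_⟩
  obtain ⟨C, hC, hb⟩ := hβ.bd 2
  have hdom : Integrable (fun t : ℝ => (C * Y ^ (-c) / c) * (1 + t ^ 2)⁻¹) :=
    integrable_inv_one_add_sq.const_mul _
  refine hdom.mono' hcont.aestronglyMeasurable (Filter.Eventually.of_forall fun t => ?_)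
  have hre : ((c : ℂ) + Complex.I * t).re = c := by simp
  have him : ((c : ℂ) + Complex.I * t).im = t := by simp
  have h1 := (hb (c + Complex.I * t) (by rw [hre, abs_of_pos hc]; exact hc1)).1
  have h2 : |t| ≤ ‖(c : ℂ) + Complex.I * t‖ := by
    have := Complex.abs_im_le_norm ((c : ℂ) + Complex.I * t)
    rwa [him] at this
  have h3 : c ≤ ‖(c : ℂ) + Complex.I * t‖ := by
    have := Complex.re_le_norm ((c : ℂ) + Complex.I * t)
    rwa [hre] at this
  have h4 : ‖β (c + Complex.I * t)‖ ≤ C * (1 + t ^ 2)⁻¹ := by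
    rw [← div_eq_mul_inv, le_div_iff₀ (by positivity)]
    refine le_trans ?_ h1
    apply mul_le_mul_of_nonneg_left _ (norm_nonneg _)
    rw [Real.rpow_two]
    have h5 : t ^ 2 ≤ ‖(c : ℂ) + Complex.I * t‖ ^ 2 := by
      rw [← sq_abs t]
      exact pow_le_pow_left₀ (abs_nonneg t) h2 2
    nlinarith [norm_nonneg ((c : ℂ) + Complex.I * t)]
  have h6 : ‖((Y : ℝ) : ℂ) ^ (-(c + Complex.I * t : ℂ))‖ = Y ^ (-c) := by
    rw [Complex.norm_cpow_eq_rpow_re_of_pos hY]
    simp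
  rw [norm_div, norm_mul, h6]
  have hYc : 0 < Y ^ (-c) := Real.rpow_pos_of_pos hY _
  calc ‖β (c + Complex.I * t)‖ * Y ^ (-c) / ‖(c : ℂ) + Complex.I * t‖
      ≤ (C * (1 + t ^ 2)⁻¹) * Y ^ (-c) / c := by
        apply div_le_div₀ (by positivity) (mul_le_mul_of_nonneg_right h4 hYc.le) hc h3
    _ = (C * Y ^ (-c) / c) * (1 + t ^ 2)⁻¹ := by ring

theorem hasSum_QXg {β : ℂ → ℂ} {B : ℝ → ℝ} (hβ : BC β B) (I₀ : ℝ) (r : ℕ) (hr : Odd r) :
    ∃ X₀ : ℝ, ∀ X : ℝ, X₀ ≤ X → ∀ M : ℕ → ℝ, MRep β I₀ (X / r ^ 2) M → ∀ s₁ w₁ s₂ w₂ : ℂ,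
    2 ≤ s₁.re → s₁.re ≤ 3 → 2 ≤ w₁.re → w₁.re ≤ 3 → 2 ≤ s₂.re → s₂.re ≤ 3 → 2 ≤ w₂.re → w₂.re ≤ 3 →
    Summable (fun q : (ℕ × ℕ) × (ℕ × ℕ) =>
      if Nat.Coprime (q.1.1 * q.1.2 * q.2.1 * q.2.2) (2 * r) then
        ((q.1.1 * q.1.2 * q.2.1 * q.2.2 : ℕ) : ℝ) ^ (-(1 / 2) - 2 / Real.log X : ℝ) *
          |M (q.1.1 * q.1.2 * q.2.1 * q.2.2)| else 0) ∧
    ∑' q : (ℕ × ℕ) × (ℕ × ℕ),
      (if Nat.Coprime (q.1.1 * q.1.2 * q.2.1 * q.2.2) (2 * r) then
        (ArithmeticFunction.moebius q.1.2 : ℂ) * (ArithmeticFunction.moebius q.2.2 : ℂ) *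
        (q.1.1 : ℂ) ^ (-(s₁ / Real.log X)) * (q.1.2 : ℂ) ^ (-(w₁ / Real.log X)) *
        (q.2.1 : ℂ) ^ (-(s₂ / Real.log X)) * (q.2.2 : ℂ) ^ (-(w₂ / Real.log X)) /
        (√((q.1.1 * q.1.2 * q.2.1 * q.2.2 : ℕ) : ℝ) : ℂ) *
        (M (q.1.1 * q.1.2 * q.2.1 * q.2.2) : ℂ) else 0) =
      (I₀ : ℂ) * QXg β r X s₁ w₁ s₂ w₂ := by
  refine ⟨Real.exp 8, fun X hX M hM s₁ w₁ s₂ w₂ hs1 _ hw1 _ hs2 _ hw2 _ => ?_⟩
  have hXpos : 0 < X := lt_of_lt_of_le (Real.exp_pos 8) hX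
  set L : ℝ := Real.log X with hL
  have hL8 : 8 ≤ L := by
    rw [hL, Real.le_log_iff_exp_le hXpos]
    exact hX
  have hL1 : 1 ≤ L := by linarith
  have hLpos : 0 < L := by linarith
  have hrpos : 0 < r := hr.pos
  have hrR : (0 : ℝ) < r := by exact_mod_cast hrpos
  set Y : ℝ := X / r ^ 2 with hYdef
  have hYpos : 0 < Y := by positivity
  set c : ℝ := 1 / L with hcdef
  have hcpos : 0 < c := by positivity
  have hc1 : c ≤ 1 / 8 := by
    rw [hcdef]
    exact one_div_le_one_div_of_le (by norm_num) hL8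
  set I0 : ℝ := I₀ with hI0
  -- kernel
  obtain ⟨hgc, hgi⟩ := hqxg_kernel hβ c hcpos hc1 (Y / 2) (by positivity)
  set g : ℝ → ℂ := fun t => β (c + Complex.I * t) *
      ((Y / 2 : ℝ) : ℂ) ^ (-(c + Complex.I * t : ℂ)) / (c + Complex.I * t) with hg
  have hrepr : ∀ N : ℕ, Odd N → (M N : ℂ) =
      (I0 : ℂ) * (bz 0 N - 1 / 2 * (1 / (2 * π)) * ∫ t : ℝ, g t * bz (c + Complex.I * t) N) := by
    intro N hN
    rw [hM N hN c hcpos hc1]
    congr 3
    apply integral_congr_ae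
    filter_upwards with t
    simp only [hg]
    ring
  have hcop0 : ¬ Nat.Coprime 0 (2 * r) := by
    rw [Nat.coprime_zero_left]
    omega
  have hcop_odd : ∀ N : ℕ, Nat.Coprime N (2 * r) → Odd N := by
    intro N hN
    have h2 : Nat.Coprime N 2 := Nat.Coprime.coprime_mul_right_right hN
    exact (Nat.coprime_comm.1 h2).odd_of_left
  have hcop_ne : ∀ N : ℕ, Nat.Coprime N (2 * r) → N ≠ 0 := by
    rintro N hN rfl
    exact hcop0 hN
  have hbz0 : ∀ N : ℕ, N ≠ 0 → ‖bz 0 N‖ ≤ (N.divisors.card : ℝ) * (sq1 N : ℝ) ^ (-(1 / 2) + c) := by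
    intro N hN
    refine (norm_bz_le 0 N hN).trans ?_
    apply mul_le_mul_of_nonneg_left _ (Nat.cast_nonneg _)
    apply Real.rpow_le_rpow_of_exponent_le
    · exact_mod_cast hqxg_sq1_pos N
    · simp [hcpos.le]
  have hbzc : ∀ N : ℕ, N ≠ 0 → ∀ t : ℝ, ‖bz (c + Complex.I * t) N‖ ≤
      (N.divisors.card : ℝ) * (sq1 N : ℝ) ^ (-(1 / 2) + c) := by
    intro N hN t
    have := norm_bz_le (c + Complex.I * t) N hN
    have hre : ((c : ℂ) + Complex.I * t).re = c := by simp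
    rwa [hre, abs_of_pos hcpos] at this
  set K : ℝ := ∫ t : ℝ, ‖g t‖ with hK
  have hK0 : 0 ≤ K := integral_nonneg (fun t => norm_nonneg _)
  have hint : ∀ N : ℕ, N ≠ 0 → Integrable (fun t : ℝ => g t * bz (c + Complex.I * t) N) ∧
      ∫ t : ℝ, ‖g t * bz (c + Complex.I * t) N‖ ≤
        K * ((N.divisors.card : ℝ) * (sq1 N : ℝ) ^ (-(1 / 2) + c)) := by
    intro N hN
    have hi : Integrable (fun t : ℝ => g t * bz (c + Complex.I * t) N) := by
      apply Integrable.mono' (hgi.norm.mul_const ((N.divisors.card : ℝ) * (sq1 N : ℝ) ^ (-(1 / 2) + c)))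
      · exact (hgc.mul (hqxg_cont_bz c N)).aestronglyMeasurable
      · filter_upwards with t
        rw [norm_mul]
        exact mul_le_mul_of_nonneg_left (hbzc N hN t) (norm_nonneg _)
    refine ⟨hi, ?_⟩
    rw [hK, ← integral_mul_const]
    apply integral_mono hi.norm (hgi.norm.mul_const _)
    intro t
    simp only [norm_mul]
    exact mul_le_mul_of_nonneg_left (hbzc N hN t) (norm_nonneg _)
  have hMM : ∀ N : ℕ, Nat.Coprime N (2 * r) → ‖(M N : ℂ)‖ ≤
      |I0| * (1 + K) * ((N.divisors.card : ℝ) * (sq1 N : ℝ) ^ (-(1 / 2) + c)) := by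
    intro N hN
    have hN0 := hcop_ne N hN
    rw [hrepr N (hcop_odd N hN), norm_mul, Complex.norm_real, Real.norm_eq_abs]
    rw [mul_assoc |I0| (1 + K)]
    apply mul_le_mul_of_nonneg_left _ (abs_nonneg _)
    have h1 : ‖(1 / 2 : ℂ) * (1 / (2 * π)) * ∫ t : ℝ, g t * bz (c + Complex.I * t) N‖ ≤
        K * ((N.divisors.card : ℝ) * (sq1 N : ℝ) ^ (-(1 / 2) + c)) := by
      rw [norm_mul]
      have h2 : ‖(1 / 2 : ℂ) * (1 / (2 * π))‖ ≤ 1 := by
        have : (1 / 2 : ℂ) * (1 / (2 * π)) = ((1 / 2 * (1 / (2 * π)) : ℝ) : ℂ) := by push_cast; ring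
        rw [this, Complex.norm_real, Real.norm_eq_abs, abs_of_nonneg (by positivity)]
        have hpi := Real.pi_gt_three
        have h7 : 1 / (2 * π) ≤ 1 := by
          rw [div_le_one (by positivity)]
          linarith
        linarith
      have h3 : ‖∫ t : ℝ, g t * bz (c + Complex.I * t) N‖ ≤
          K * ((N.divisors.card : ℝ) * (sq1 N : ℝ) ^ (-(1 / 2) + c)) :=
        (norm_integral_le_integral_norm _).trans (hint N hN0).2
      calc ‖(1 / 2 : ℂ) * (1 / (2 * π))‖ * ‖∫ t : ℝ, g t * bz (c + Complex.I * t) N‖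
          ≤ 1 * ‖∫ t : ℝ, g t * bz (c + Complex.I * t) N‖ :=
            mul_le_mul_of_nonneg_right h2 (norm_nonneg _)
        _ ≤ _ := by rw [one_mul]; exact h3
    have h4 := hbz0 N hN0
    calc ‖bz 0 N - 1 / 2 * (1 / (2 * π)) * ∫ t : ℝ, g t * bz (c + Complex.I * t) N‖
        ≤ ‖bz 0 N‖ + ‖(1 / 2 : ℂ) * (1 / (2 * π)) * ∫ t : ℝ, g t * bz (c + Complex.I * t) N‖ :=
          norm_sub_le _ _
      _ ≤ (1 + K) * ((N.divisors.card : ℝ) * (sq1 N : ℝ) ^ (-(1 / 2) + c)) := by linarith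
  set m : ℝ := 2 / L with hm
  have hcm : c < m := by
    rw [hcdef, hm]
    exact div_lt_div_of_pos_right (by norm_num) hLpos
  have hsq := summable_sq m c hcpos.le hcm
  -- real parts
  have hre : ∀ s : ℂ, 2 ≤ s.re → m ≤ (s / (L : ℂ)).re := by
    intro s hs
    rw [Complex.div_ofReal_re, hm]
    exact div_le_div_of_nonneg_right hs hLpos.le
  set f : ℕ → ℂ := fun N => if Nat.Coprime N (2 * r) then (M N : ℂ) / (√(N : ℝ) : ℂ) else 0
    with hf
  have hf0 : f 0 = 0 := by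
    simp only [hf]
    rw [if_neg hcop0]
  have hrp : ∀ N : ℕ, N ≠ 0 → (N : ℝ) ^ (-(1 / 2) - m) = (N : ℝ) ^ (-m) / √(N : ℝ) := by
    intro N hN
    have hNp : (0 : ℝ) < N := by exact_mod_cast Nat.pos_of_ne_zero hN
    rw [show (-(1 / 2) - m : ℝ) = -m + -(1 / 2) by ring, Real.rpow_add hNp, Real.rpow_neg hNp.le (1 / 2),
      ← Real.sqrt_eq_rpow, div_eq_mul_inv]
  have hfs : Summable (fun N : ℕ => (N.divisors.card : ℝ) ^ 3 * (N : ℝ) ^ (-m) * ‖f N‖) := by
    apply Summable.of_nonneg_of_le _ _ (hsq.mul_left (|I0| * (1 + K)))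
    · intro N
      positivity
    · intro N
      by_cases hN : Nat.Coprime N (2 * r)
      · have hN0 := hcop_ne N hN
        simp only [hf]
        rw [if_pos hN, norm_div, Complex.norm_real (√(N : ℝ)), Real.norm_eq_abs,
          abs_of_nonneg (Real.sqrt_nonneg _)]
        have h1 := hMM N hN
        rw [hrp N hN0]
        have h2 : 0 ≤ (N.divisors.card : ℝ) ^ 3 * (N : ℝ) ^ (-m) / √(N : ℝ) := by positivity
        calc (N.divisors.card : ℝ) ^ 3 * (N : ℝ) ^ (-m) * (‖(M N : ℂ)‖ / √(N : ℝ))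
            = ((N.divisors.card : ℝ) ^ 3 * (N : ℝ) ^ (-m) / √(N : ℝ)) * ‖(M N : ℂ)‖ := by ring
          _ ≤ ((N.divisors.card : ℝ) ^ 3 * (N : ℝ) ^ (-m) / √(N : ℝ)) *
              (|I0| * (1 + K) * ((N.divisors.card : ℝ) * (sq1 N : ℝ) ^ (-(1 / 2) + c))) :=
              mul_le_mul_of_nonneg_left h1 h2
          _ = _ := by ring
      · simp only [hf]
        rw [if_neg hN, norm_zero, mul_zero]
        have : (0 : ℝ) ≤ (sq1 N : ℝ) ^ (-(1 / 2) + c) := Real.rpow_nonneg (Nat.cast_nonneg _) _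
        have h3 : (0 : ℝ) ≤ (N : ℝ) ^ (-(1 / 2) - m) := Real.rpow_nonneg (Nat.cast_nonneg _) _
        positivity
  obtain ⟨hA, hB⟩ := sum_quad_eq (s₁ / L) (w₁ / L) (s₂ / L) (w₂ / L) m (hre s₁ hs1) (hre w₁ hw1)
    (hre s₂ hs2) (hre w₂ hw2) f hf0 hfs
  refine ⟨?_, ?_⟩
  · refine hA.congr (fun q => ?_)
    set N := q.1.1 * q.1.2 * q.2.1 * q.2.2 with hNdef
    by_cases hN : Nat.Coprime N (2 * r)
    · have hN0 := hcop_ne N hN
      simp only [hf]
      rw [if_pos hN, if_pos hN, norm_div, Complex.norm_real (√(N : ℝ)), Real.norm_eq_abs,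
          abs_of_nonneg (Real.sqrt_nonneg _), Complex.norm_real, Real.norm_eq_abs]
      rw [show (-(1 / 2) - 2 / L : ℝ) = -(1 / 2) - m from rfl, hrp N hN0]
      ring
    · simp only [hf]
      rw [if_neg hN, if_neg hN, norm_zero, mul_zero]
  · have hC : ∑' q : (ℕ × ℕ) × (ℕ × ℕ),
      (if Nat.Coprime (q.1.1 * q.1.2 * q.2.1 * q.2.2) (2 * r) then
        (ArithmeticFunction.moebius q.1.2 : ℂ) * (ArithmeticFunction.moebius q.2.2 : ℂ) *
        (q.1.1 : ℂ) ^ (-(s₁ / L)) * (q.1.2 : ℂ) ^ (-(w₁ / L)) *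
        (q.2.1 : ℂ) ^ (-(s₂ / L)) * (q.2.2 : ℂ) ^ (-(w₂ / L)) /
        (√((q.1.1 * q.1.2 * q.2.1 * q.2.2 : ℕ) : ℝ) : ℂ) *
        (M (q.1.1 * q.1.2 * q.2.1 * q.2.2) : ℂ) else 0) =
        ∑' q : (ℕ × ℕ) × (ℕ × ℕ),
        (ArithmeticFunction.moebius q.1.2 : ℂ) * (ArithmeticFunction.moebius q.2.2 : ℂ) *
        (q.1.1 : ℂ) ^ (-(s₁ / L)) * (q.1.2 : ℂ) ^ (-(w₁ / L)) *
        (q.2.1 : ℂ) ^ (-(s₂ / L)) * (q.2.2 : ℂ) ^ (-(w₂ / L)) * f (q.1.1 * q.1.2 * q.2.1 * q.2.2) := by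
      apply tsum_congr
      intro q
      simp only [hf]
      split_ifs
      · ring
      · ring
    rw [hC, hB]
    -- the sum over N
    set A : ℕ → ℂ := fun N => if Nat.Coprime N (2 * r) then
      cfA (s₁ / L) (w₁ / L) (s₂ / L) (w₂ / L) N / (√(N : ℝ) : ℂ) else 0 with hAdef
    have hAn : ∀ N : ℕ, ‖A N‖ * ((N.divisors.card : ℝ) * (sq1 N : ℝ) ^ (-(1 / 2) + c)) ≤
        (N.divisors.card : ℝ) ^ 4 * (N : ℝ) ^ (-(1 / 2) - m) * (sq1 N : ℝ) ^ (-(1 / 2) + c) := by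
      intro N
      have h0 : (0 : ℝ) ≤ (sq1 N : ℝ) ^ (-(1 / 2) + c) := Real.rpow_nonneg (Nat.cast_nonneg _) _
      have h3 : (0 : ℝ) ≤ (N : ℝ) ^ (-(1 / 2) - m) := Real.rpow_nonneg (Nat.cast_nonneg _) _
      by_cases hN : Nat.Coprime N (2 * r)
      · have hN0 := hcop_ne N hN
        simp only [hAdef]
        rw [if_pos hN, norm_div, Complex.norm_real (√(N : ℝ)), Real.norm_eq_abs,
          abs_of_nonneg (Real.sqrt_nonneg _), hrp N hN0]
        have h1 := norm_cfA_le (s₁ / L) (w₁ / L) (s₂ / L) (w₂ / L) m (hre s₁ hs1) (hre w₁ hw1)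
          (hre s₂ hs2) (hre w₂ hw2) N
        have h2 : 0 ≤ (N.divisors.card : ℝ) * (sq1 N : ℝ) ^ (-(1 / 2) + c) / √(N : ℝ) := by positivity
        calc ‖cfA (s₁ / L) (w₁ / L) (s₂ / L) (w₂ / L) N‖ / √(N : ℝ) *
              ((N.divisors.card : ℝ) * (sq1 N : ℝ) ^ (-(1 / 2) + c))
            = ((N.divisors.card : ℝ) * (sq1 N : ℝ) ^ (-(1 / 2) + c) / √(N : ℝ)) *
              ‖cfA (s₁ / L) (w₁ / L) (s₂ / L) (w₂ / L) N‖ := by ring
          _ ≤ ((N.divisors.card : ℝ) * (sq1 N : ℝ) ^ (-(1 / 2) + c) / √(N : ℝ)) *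
              ((N.divisors.card : ℝ) ^ 3 * (N : ℝ) ^ (-m)) := mul_le_mul_of_nonneg_left h1 h2
          _ = _ := by ring
      · simp only [hAdef]
        rw [if_neg hN, norm_zero, zero_mul]
        positivity
    have hA0 : ∀ N : ℕ, N = 0 → A N = 0 := by
      rintro N rfl
      simp only [hAdef]
      rw [if_neg hcop0]
    have hS0 : Summable (fun N : ℕ => A N * bz 0 N) := by
      apply Summable.of_norm
      apply Summable.of_nonneg_of_le (fun N => norm_nonneg _) _ hsq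
      intro N
      rw [norm_mul]
      refine le_trans ?_ (hAn N)
      by_cases hN : N = 0
      · rw [hA0 N hN, norm_zero, zero_mul, zero_mul]
      · exact mul_le_mul_of_nonneg_left (hbz0 N hN) (norm_nonneg _)
    have hInt : ∀ N : ℕ, Integrable (fun t : ℝ => g t * (A N * bz (c + Complex.I * t) N)) := by
      intro N
      by_cases hN : N = 0
      · simp only [hA0 N hN, zero_mul, mul_zero]
        exact integrable_zero _ _ _
      · refine ((hint N hN).1.const_mul (A N)).congr ?_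
        filter_upwards with t
        ring
    have hIntS : Summable (fun N : ℕ => ∫ t : ℝ, ‖g t * (A N * bz (c + Complex.I * t) N)‖) := by
      apply Summable.of_nonneg_of_le _ _ (hsq.mul_left K)
      · intro N
        exact integral_nonneg (fun t => norm_nonneg _)
      · intro N
        by_cases hN : N = 0
        · simp only [hA0 N hN, zero_mul, mul_zero, norm_zero, integral_zero]
          have h0 : (0 : ℝ) ≤ (sq1 N : ℝ) ^ (-(1 / 2) + c) := Real.rpow_nonneg (Nat.cast_nonneg _) _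
          have h3 : (0 : ℝ) ≤ (N : ℝ) ^ (-(1 / 2) - m) := Real.rpow_nonneg (Nat.cast_nonneg _) _
          positivity
        · have e1 : ∫ t : ℝ, ‖g t * (A N * bz (c + Complex.I * t) N)‖ =
              ‖A N‖ * ∫ t : ℝ, ‖g t * bz (c + Complex.I * t) N‖ := by
            rw [← integral_const_mul]
            apply integral_congr_ae
            filter_upwards with t
            simp only [norm_mul]
            ring
          rw [e1]
          calc ‖A N‖ * ∫ t : ℝ, ‖g t * bz (c + Complex.I * t) N‖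
              ≤ ‖A N‖ * (K * ((N.divisors.card : ℝ) * (sq1 N : ℝ) ^ (-(1 / 2) + c))) :=
                mul_le_mul_of_nonneg_left (hint N hN).2 (norm_nonneg _)
            _ = K * (‖A N‖ * ((N.divisors.card : ℝ) * (sq1 N : ℝ) ^ (-(1 / 2) + c))) := by ring
            _ ≤ _ := mul_le_mul_of_nonneg_left (hAn N) hK0
    have hHS := MeasureTheory.hasSum_integral_of_summable_integral_norm hInt hIntS
    have hOO : ∀ z : ℂ, OO r (s₁ / L) (w₁ / L) (s₂ / L) (w₂ / L) z = ∑' N : ℕ, A N * bz z N := by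
      intro z
      unfold OO
      apply tsum_congr
      intro N
      simp only [hAdef]
      split_ifs
      · ring
      · ring
    have hterm : ∀ N : ℕ, cfA (s₁ / L) (w₁ / L) (s₂ / L) (w₂ / L) N * f N =
        (I0 : ℂ) * (A N * bz 0 N - 1 / 2 * (1 / (2 * π)) *
          ∫ t : ℝ, g t * (A N * bz (c + Complex.I * t) N)) := by
      intro N
      have e1 : ∫ t : ℝ, g t * (A N * bz (c + Complex.I * t) N) =
          A N * ∫ t : ℝ, g t * bz (c + Complex.I * t) N := by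
        rw [← integral_const_mul]
        apply integral_congr_ae
        filter_upwards with t
        ring
      rw [e1]
      by_cases hN : Nat.Coprime N (2 * r)
      · simp only [hf, hAdef]
        rw [if_pos hN, if_pos hN, hrepr N (hcop_odd N hN)]
        ring
      · simp only [hf, hAdef]
        rw [if_neg hN, if_neg hN]
        ring
    rw [tsum_congr hterm, tsum_mul_left, (hS0.tsum_sub (hHS.summable.mul_left _)), tsum_mul_left,
      hHS.tsum_eq]
    unfold QXg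
    rw [← hL, hOO 0]
    congr 3
    apply integral_congr_ae
    filter_upwards with t
    rw [tsum_mul_left]
    have hcc : ((c : ℝ) : ℂ) = 1 / (L : ℂ) := by rw [hcdef]; push_cast; ring
    have hYY : ((Y / 2 : ℝ) : ℂ) = ((X / (2 * r ^ 2) : ℝ) : ℂ) := by
      congr 1
      rw [hYdef]
      field_simp
    rw [← hcc, hOO, ← hYY]
    simp only [hg]
    ring

end Pool.Agent.MP0016c7.Rz
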