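import Mathlib
import Pool.Agent.Lib.MP_0016c7_nt.Theta
import Pool.Agent.Lib.MP_0016c7_nt.Rz.Defs
import Pool.Agent.Lib.MP_0016c7_nt.Rz.DefsC
import Pool.Agent.Lib.MP_0016c7_nt.Rz.DefsF
import Pool.Agent.Lib.MP_0016c7_nt.Rz.DefsE
import Pool.Agent.Lib.MP_0016c7_nt.Rz.MTe
import Pool.Agent.Lib.MP_0016c7_nt.Rz.Qe
import Pool.Agent.Lib.MP_0016c7_nt.Rz.Qf
import Pool.Agent.Lib.MP_0016c7_nt.Rz2.MTeg
import Pool.Agent.Lib.MP_0016c7_nt.Rz2.Qeg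
import Pool.Agent.Lib.MP_0016c7_nt.Rz2.Qfg

set_option autoImplicit false

/-!
Limit of the main term, general kernels.
-/

open Finset MeasureTheory Filter Topology
open scoped Real ContDiff

namespace Pool.Agent.MP0016c7.Rz


/-! ### continuity of the Dirichlet series -/

private lemma mtlg_pwA {α : Type} [TopologicalSpace α] {s : α → ℂ} (hs : Continuous s) (n : ℕ) :
    Continuous (fun x => pwA (s x) n) := by
  simp only [pwA, ArithmeticFunction.coe_mk]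
  by_cases hn : n = 0
  · simp only [hn, if_true]
    exact continuous_const
  · simp only [hn, if_false]
    exact Continuous.const_cpow hs.neg (Or.inl (by exact_mod_cast hn))

private lemma mtlg_pmA {α : Type} [TopologicalSpace α] {s : α → ℂ} (hs : Continuous s) (n : ℕ) :
    Continuous (fun x => pmA (s x) n) := by
  simp only [pmA, ArithmeticFunction.coe_mk]
  by_cases hn : n = 0
  · simp only [hn, if_true]
    exact continuous_const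
  · simp only [hn, if_false]
    exact continuous_const.mul (Continuous.const_cpow hs.neg (Or.inl (by exact_mod_cast hn)))

private lemma mtlg_cfA {α : Type} [TopologicalSpace α] {s₁ w₁ s₂ w₂ : α → ℂ} (h1 : Continuous s₁)
    (h2 : Continuous w₁) (h3 : Continuous s₂) (h4 : Continuous w₂) (n : ℕ) :
    Continuous (fun x => cfA (s₁ x) (w₁ x) (s₂ x) (w₂ x) n) := by
  unfold cfA
  simp only [ArithmeticFunction.mul_apply]
  refine continuous_finsetSum _ fun p _ => Continuous.mul ?_ ?_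
  · exact continuous_finsetSum _ fun q _ => (mtlg_pwA h1 _).mul (mtlg_pmA h2 _)
  · exact continuous_finsetSum _ fun q _ => (mtlg_pwA h3 _).mul (mtlg_pmA h4 _)

private lemma mtlg_sq1_pos (n : ℕ) : 0 < sq1 n :=
  Finset.prod_pos fun p hp => (Nat.prime_of_mem_primeFactors (Finset.mem_filter.mp hp).1).pos

private lemma mtlg_bz {α : Type} [TopologicalSpace α] {z : α → ℂ} (hz : Continuous z) (n : ℕ) :
    Continuous (fun x => bz (z x) n) := by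
  unfold bz
  refine continuous_const.mul (continuous_finsetSum _ fun e he => continuous_const.mul ?_)
  refine Continuous.const_cpow hz (Or.inl ?_)
  have h1 : (0 : ℝ) < sq1 n := by exact_mod_cast mtlg_sq1_pos n
  have h2 : (0 : ℝ) < e := by exact_mod_cast Nat.pos_of_mem_divisors he
  have h3 : (0 : ℝ) < (sq1 n : ℝ) / (e : ℝ) ^ 2 := by positivity
  exact_mod_cast h3.ne'

private lemma mtlg_OO {α : Type} [TopologicalSpace α] {s₁ w₁ s₂ w₂ z : α → ℂ} (h1 : Continuous s₁)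
    (h2 : Continuous w₁) (h3 : Continuous s₂) (h4 : Continuous w₂) (h5 : Continuous z)
    {m ζ : ℝ} (hζ : 0 ≤ ζ) (hm : ζ < m) (g1 : ∀ x, m ≤ (s₁ x).re) (g2 : ∀ x, m ≤ (w₁ x).re)
    (g3 : ∀ x, m ≤ (s₂ x).re) (g4 : ∀ x, m ≤ (w₂ x).re) (g5 : ∀ x, |(z x).re| ≤ ζ) (r : ℕ) :
    Continuous (fun x => OO r (s₁ x) (w₁ x) (s₂ x) (w₂ x) (z x)) := by
  unfold OO
  refine continuous_tsum (fun N => ?_) (summable_sq m ζ hζ hm) fun N x => ?_
  · by_cases hN : Nat.Coprime N (2 * r)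
    · simp only [if_pos hN]
      exact ((mtlg_cfA h1 h2 h3 h4 N).mul (mtlg_bz h5 N)).div_const _
    · simp only [if_neg hN]
      exact continuous_const
  · have hnn : 0 ≤ (N.divisors.card : ℝ) ^ 4 * (N : ℝ) ^ (-(1 / 2) - m) *
        (sq1 N : ℝ) ^ (-(1 / 2) + ζ) := by (clear * -; positivity)
    by_cases hN : Nat.Coprime N (2 * r)
    · simp only [if_pos hN]
      rcases Nat.eq_zero_or_pos N with h0 | h0
      · subst h0
        simp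
      · have hN0 : (0 : ℝ) < N := by exact_mod_cast h0
        have e1 := norm_cfA_le (s₁ x) (w₁ x) (s₂ x) (w₂ x) m (g1 x) (g2 x) (g3 x) (g4 x) N
        have e2 := norm_bz_le (z x) N h0.ne'
        have hs1 : (1 : ℝ) ≤ sq1 N := by exact_mod_cast mtlg_sq1_pos N
        have e3 : (sq1 N : ℝ) ^ (-(1 / 2) + |(z x).re|) ≤ (sq1 N : ℝ) ^ (-(1 / 2) + ζ) :=
          Real.rpow_le_rpow_of_exponent_le hs1 (by linarith only [g5, g5 x])
        have e4 : ‖((√(N : ℝ) : ℝ) : ℂ)‖ = √(N : ℝ) := by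
          rw [Complex.norm_real, Real.norm_of_nonneg (Real.sqrt_nonneg _)]
        have e5 : (N : ℝ) ^ (-(1 / 2) - m) = (N : ℝ) ^ (-m) / √(N : ℝ) := by
          rw [Real.sqrt_eq_rpow, ← Real.rpow_sub hN0]
          congr 1
          ring
        rw [norm_div, norm_mul, e4, e5]
        have hsq : 0 < √(N : ℝ) := Real.sqrt_pos.mpr hN0
        have e6 : ‖cfA (s₁ x) (w₁ x) (s₂ x) (w₂ x) N‖ * ‖bz (z x) N‖ ≤
            ((N.divisors.card : ℝ) ^ 3 * (N : ℝ) ^ (-m)) *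
              ((N.divisors.card : ℝ) * (sq1 N : ℝ) ^ (-(1 / 2) + ζ)) := by
          refine mul_le_mul e1 (e2.trans ?_) (norm_nonneg _) (by (clear * - h0; positivity))
          exact mul_le_mul_of_nonneg_left e3 (Nat.cast_nonneg _)
        calc _ ≤ ((N.divisors.card : ℝ) ^ 3 * (N : ℝ) ^ (-m)) *
              ((N.divisors.card : ℝ) * (sq1 N : ℝ) ^ (-(1 / 2) + ζ)) / √(N : ℝ) :=
              div_le_div_of_nonneg_right e6 hsq.le
          _ = _ := by ring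
    · simp only [if_neg hN, norm_zero]
      exact hnn

/-! ### measurability of the transforms -/

private lemma mtlg_sm {α : Type} [MeasurableSpace α] {f : α → ℂ} (h : Measurable f) :
    StronglyMeasurable f := h.stronglyMeasurable

private lemma mtlg_rhat {ρ : ℝ → ℝ} (hρ : Continuous ρ) (c : ℂ) :
    Measurable (fun t : ℝ => rhat ρ (c + Complex.I * t)) := by
  unfold rhat
  have h : Continuous (fun p : ℝ × ℝ => (ρ p.2 : ℂ) * Complex.exp (-(c + Complex.I * p.1) * p.2)) := by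
    fun_prop
  exact (StronglyMeasurable.integral_prod_right
    (f := fun t y : ℝ => (ρ y : ℂ) * Complex.exp (-(c + Complex.I * t) * y))
    h.stronglyMeasurable).measurable

private lemma mtlg_hhat {ρ : ℝ → ℝ} (hρ : Continuous ρ) (c : ℂ) :
    Measurable (fun t : ℝ => hhat ρ (c + Complex.I * t)) := by
  unfold hhat
  have h : Continuous (fun p : ℝ × ℝ => (ρ p.2 : ℂ) * Complex.exp ((c + Complex.I * p.1) * p.2)) := by
    fun_prop
  exact (StronglyMeasurable.integral_prod_right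
    (f := fun t y : ℝ => (ρ y : ℂ) * Complex.exp ((c + Complex.I * t) * y))
    h.stronglyMeasurable).measurable

private lemma mtlg_Gh (a L : ℝ) (c : ℂ) :
    Measurable (fun t : ℝ => Gh a L (c + Complex.I * t)) := by
  unfold Gh
  have h : Continuous (fun p : ℝ × ℝ => (kap a p.2 : ℂ) *
      Complex.exp ((c + Complex.I * p.1) * (p.2 / L : ℝ))) := by
    unfold kap
    fun_prop
  exact ((StronglyMeasurable.integral_prod_right
    (f := fun t y : ℝ => (kap a y : ℂ) * Complex.exp ((c + Complex.I * t) * (y / L : ℝ)))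
    h.stronglyMeasurable).measurable).div_const _

private lemma mtlg_wtc1 {ρ h : ℝ → ℝ} (hρ : Continuous ρ) (hh : Continuous h) (a L : ℝ) :
    Measurable (fun p : ℝ × ℝ × ℝ × ℝ => wtc a L ρ h (2 + Complex.I * p.1) (3 + Complex.I * p.2.1)) := by
  unfold wtc
  have q1 : Measurable (fun p : ℝ × ℝ × ℝ × ℝ => p.1) := by fun_prop
  have q2 : Measurable (fun p : ℝ × ℝ × ℝ × ℝ => p.2.1) := by fun_prop
  have m1 := (mtlg_rhat hρ 2).comp q1
  have m2 := (mtlg_Gh a L 2).comp q1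
  have m3 := (mtlg_hhat hh 3).comp q2
  have m4 : Measurable (fun p : ℝ × ℝ × ℝ × ℝ => ((3 : ℂ) + Complex.I * p.2.1) ^ 2 -
      (2 + Complex.I * p.1) ^ 2) := by
    have : Continuous (fun p : ℝ × ℝ × ℝ × ℝ => ((3 : ℂ) + Complex.I * p.2.1) ^ 2 -
      (2 + Complex.I * p.1) ^ 2) := by fun_prop
    exact this.measurable
  exact (m1.mul m2).mul ((measurable_const.mul m3).div m4)

private lemma mtlg_wtc2 {ρ h : ℝ → ℝ} (hρ : Continuous ρ) (hh : Continuous h) (a L : ℝ) :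
    Measurable (fun p : ℝ × ℝ × ℝ × ℝ =>
      wtc a L ρ h (5 / 2 + Complex.I * p.2.2.1) (3 + Complex.I * p.2.2.2)) := by
  unfold wtc
  have q1 : Measurable (fun p : ℝ × ℝ × ℝ × ℝ => p.2.2.1) := by fun_prop
  have q2 : Measurable (fun p : ℝ × ℝ × ℝ × ℝ => p.2.2.2) := by fun_prop
  have m1 := (mtlg_rhat hρ (5 / 2)).comp q1
  have m2 := (mtlg_Gh a L (5 / 2)).comp q1
  have m3 := (mtlg_hhat hh 3).comp q2
  have m4 : Measurable (fun p : ℝ × ℝ × ℝ × ℝ => ((3 : ℂ) + Complex.I * p.2.2.2) ^ 2 -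
      (5 / 2 + Complex.I * p.2.2.1) ^ 2) := by
    have : Continuous (fun p : ℝ × ℝ × ℝ × ℝ => ((3 : ℂ) + Complex.I * p.2.2.2) ^ 2 -
      (5 / 2 + Complex.I * p.2.2.1) ^ 2) := by fun_prop
    exact this.measurable
  exact (m1.mul m2).mul ((measurable_const.mul m3).div m4)


private lemma mtlg_QX {β : ℂ → ℂ} {B : ℝ → ℝ} (hβ : BC β B) (r : ℕ) {X : ℝ} (hX : 0 < X) (hL : 8 ≤ Real.log X) (hr : 0 < r) :
    Measurable (fun p : ℝ × ℝ × ℝ × ℝ => QXg β r X (2 + Complex.I * p.1) (3 + Complex.I * p.2.1)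
      (5 / 2 + Complex.I * p.2.2.1) (3 + Complex.I * p.2.2.2)) := by
  set L := Real.log X with hLdef
  have hL0 : 0 < L := by linarith
  have hLc : (L : ℂ) ≠ 0 := by exact_mod_cast hL0.ne'
  have c1 : Continuous (fun p : (ℝ × ℝ × ℝ × ℝ) × ℝ => (2 + Complex.I * (p.1.1 : ℂ)) / (L : ℂ)) := by
    fun_prop
  have c2 : Continuous (fun p : (ℝ × ℝ × ℝ × ℝ) × ℝ => (3 + Complex.I * (p.1.2.1 : ℂ)) / (L : ℂ)) := by
    fun_prop
  have c3 : Continuous (fun p : (ℝ × ℝ × ℝ × ℝ) × ℝ =>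
    (5 / 2 + Complex.I * (p.1.2.2.1 : ℂ)) / (L : ℂ)) := by fun_prop
  have c4 : Continuous (fun p : (ℝ × ℝ × ℝ × ℝ) × ℝ =>
    (3 + Complex.I * (p.1.2.2.2 : ℂ)) / (L : ℂ)) := by fun_prop
  have c5 : Continuous (fun p : (ℝ × ℝ × ℝ × ℝ) × ℝ =>
    (1 / (L : ℂ) + Complex.I * (p.2 : ℂ))) := by fun_prop
  have re : ∀ (c : ℝ) (t : ℝ), (((c : ℂ) + Complex.I * (t : ℂ)) / (L : ℂ)).re = c / L := by
    intro c t
    rw [Complex.div_ofReal_re]
    simp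
  have hm : ∀ (c : ℝ), 2 ≤ c → ∀ t : ℝ, 2 / L ≤ (((c : ℂ) + Complex.I * (t : ℂ)) / (L : ℂ)).re := by
    intro c hc t
    rw [re]
    exact div_le_div_of_nonneg_right hc hL0.le
  have g1 : ∀ t : ℝ, 2 / L ≤ ((2 + Complex.I * (t : ℂ)) / (L : ℂ)).re := by
    intro t
    have := hm 2 le_rfl t
    simpa using this
  have g2 : ∀ t : ℝ, 2 / L ≤ ((3 + Complex.I * (t : ℂ)) / (L : ℂ)).re := by
    intro t
    have := hm 3 (by norm_num) t
    simpa using this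
  have g3 : ∀ t : ℝ, 2 / L ≤ ((5 / 2 + Complex.I * (t : ℂ)) / (L : ℂ)).re := by
    intro t
    have := hm (5 / 2) (by norm_num) t
    simpa using this
  have g5 : ∀ t : ℝ, |(1 / (L : ℂ) + Complex.I * (t : ℂ)).re| ≤ 1 / L := by
    intro t
    have e : (1 / (L : ℂ) + Complex.I * (t : ℂ)).re = 1 / L := by
      rw [Complex.add_re, Complex.div_ofReal_re]
      simp
    rw [e, abs_of_pos (by positivity)]
  have hζ : (0 : ℝ) ≤ 1 / L := by positivity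
  have hmζ : 1 / L < 2 / L := div_lt_div_of_pos_right (by norm_num) hL0
  have k1 : Continuous (fun p : (ℝ × ℝ × ℝ × ℝ) × ℝ => OO r ((2 + Complex.I * (p.1.1 : ℂ)) / (L : ℂ))
      ((3 + Complex.I * (p.1.2.1 : ℂ)) / (L : ℂ)) ((5 / 2 + Complex.I * (p.1.2.2.1 : ℂ)) / (L : ℂ))
      ((3 + Complex.I * (p.1.2.2.2 : ℂ)) / (L : ℂ)) (1 / (L : ℂ) + Complex.I * (p.2 : ℂ))) :=
    mtlg_OO c1 c2 c3 c4 c5 hζ hmζ (fun p => g1 _) (fun p => g2 _) (fun p => g3 _) (fun p => g2 _)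
      (fun p => g5 _) r
  have k0 : Continuous (fun p : ℝ × ℝ × ℝ × ℝ => OO r ((2 + Complex.I * (p.1 : ℂ)) / (L : ℂ))
      ((3 + Complex.I * (p.2.1 : ℂ)) / (L : ℂ)) ((5 / 2 + Complex.I * (p.2.2.1 : ℂ)) / (L : ℂ))
      ((3 + Complex.I * (p.2.2.2 : ℂ)) / (L : ℂ)) 0) :=
    mtlg_OO (by fun_prop) (by fun_prop) (by fun_prop) (by fun_prop) continuous_const hζ hmζ
      (fun p => g1 _) (fun p => g2 _) (fun p => g3 _) (fun p => g2 _)
      (fun p => by simp [hL0.le]) r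
  have hb : Continuous (fun t : ℝ => β (1 / (L : ℂ) + Complex.I * t)) := by
    have h1 := hβ.ct (1 / L) (by
      rw [abs_of_pos (by positivity)]; exact one_div_le_one_div_of_le (by norm_num) hL)
    simpa using h1
  have hz0 : ∀ t : ℝ, (1 / (L : ℂ) + Complex.I * (t : ℂ)) ≠ 0 := by
    intro t h0
    have e : (1 / (L : ℂ) + Complex.I * (t : ℂ)).re = 1 / L := by
      rw [Complex.add_re, Complex.div_ofReal_re]
      simp
    rw [h0, Complex.zero_re] at e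
    have : 0 < 1 / L := by positivity
    linarith only [e, this]
  have hY : (((X / (2 * (r : ℝ) ^ 2) : ℝ)) : ℂ) ≠ 0 := by
    have hr' : (0 : ℝ) < r := by exact_mod_cast hr
    have : 0 < X / (2 * (r : ℝ) ^ 2) := by positivity
    exact_mod_cast this.ne'
  have k2 : Continuous (fun p : (ℝ × ℝ × ℝ × ℝ) × ℝ => β (1 / (L : ℂ) + Complex.I * p.2) *
      (((X / (2 * r ^ 2) : ℝ)) : ℂ) ^ (-(1 / (L : ℂ) + Complex.I * p.2 : ℂ)) *
      OO r ((2 + Complex.I * (p.1.1 : ℂ)) / (L : ℂ))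
      ((3 + Complex.I * (p.1.2.1 : ℂ)) / (L : ℂ)) ((5 / 2 + Complex.I * (p.1.2.2.1 : ℂ)) / (L : ℂ))
      ((3 + Complex.I * (p.1.2.2.2 : ℂ)) / (L : ℂ)) (1 / (L : ℂ) + Complex.I * (p.2 : ℂ)) /
        (1 / (L : ℂ) + Complex.I * p.2)) := by
    refine Continuous.div (((hb.comp continuous_snd).mul ?_).mul k1) c5 fun p => hz0 _
    exact Continuous.const_cpow c5.neg (Or.inl hY)
  unfold QXg
  refine k0.measurable.sub (measurable_const.mul ?_)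
  exact (StronglyMeasurable.integral_prod_right
    (f := fun (p : ℝ × ℝ × ℝ × ℝ) (t : ℝ) => β (1 / (L : ℂ) + Complex.I * t) *
      (((X / (2 * r ^ 2) : ℝ)) : ℂ) ^ (-(1 / (L : ℂ) + Complex.I * t : ℂ)) *
      OO r ((2 + Complex.I * (p.1 : ℂ)) / (L : ℂ))
      ((3 + Complex.I * (p.2.1 : ℂ)) / (L : ℂ)) ((5 / 2 + Complex.I * (p.2.2.1 : ℂ)) / (L : ℂ))
      ((3 + Complex.I * (p.2.2.2 : ℂ)) / (L : ℂ)) (1 / (L : ℂ) + Complex.I * (t : ℂ)) /
        (1 / (L : ℂ) + Complex.I * t)) k2.stronglyMeasurable).measurable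

/-! ### the majorant -/

private noncomputable def mtlgM (K : ℝ) (p : ℝ × ℝ × ℝ × ℝ) : ℝ :=
  K * ((1 + |p.1|) ^ (-2 : ℝ) * ((1 + |p.2.1|) ^ (-2 : ℝ) *
    ((1 + |p.2.2.1|) ^ (-2 : ℝ) * (1 + |p.2.2.2|) ^ (-2 : ℝ))))

private lemma mtlgM_int (K : ℝ) : Integrable (mtlgM K) := by
  have h : Integrable (fun x : ℝ => (1 + |x|) ^ (-2 : ℝ)) := by
    have := integrable_one_add_norm (E := ℝ) (μ := volume) (r := 2) (by simp)
    simpa using this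
  exact ((h.mul_prod (h.mul_prod (h.mul_prod h))).const_mul K)

private lemma mtlg_iter {f : ℝ × ℝ × ℝ × ℝ → ℂ} (hf : Integrable f) :
    ∫ x₁ : ℝ, ∫ y₁ : ℝ, ∫ x₂ : ℝ, ∫ y₂ : ℝ, f (x₁, y₁, x₂, y₂) = ∫ p, f p := by
  rw [show (∫ p, f p) = ∫ x₁ : ℝ, ∫ q : ℝ × ℝ × ℝ, f (x₁, q) from integral_prod f hf]
  refine integral_congr_ae ?_
  filter_upwards [hf.prod_right_ae] with x₁ h1
  rw [show (∫ q : ℝ × ℝ × ℝ, f (x₁, q)) = ∫ y₁ : ℝ, ∫ q : ℝ × ℝ, f (x₁, y₁, q) from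
    integral_prod _ h1]
  refine integral_congr_ae ?_
  filter_upwards [h1.prod_right_ae] with y₁ h2
  rw [show (∫ q : ℝ × ℝ, f (x₁, y₁, q)) = ∫ x₂ : ℝ, ∫ y₂ : ℝ, f (x₁, y₁, x₂, y₂) from
    integral_prod _ h2]

private lemma mtlg_diag : ∀ᵐ p : ℝ × ℝ × ℝ × ℝ, p.2.1 ≠ p.2.2.2 := by
  have hc : IsClosed {p : ℝ × ℝ × ℝ × ℝ | p.2.1 = p.2.2.2} := by
    apply isClosed_eq <;> fun_prop
  have h0 : (volume : Measure (ℝ × ℝ × ℝ × ℝ)) {p | p.2.1 = p.2.2.2} = 0 := by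
    have e : (volume : Measure (ℝ × ℝ × ℝ × ℝ)) = (volume : Measure ℝ).prod
      ((volume : Measure ℝ).prod ((volume : Measure ℝ).prod (volume : Measure ℝ))) := rfl
    rw [e, Measure.measure_prod_null hc.measurableSet]
    refine Eventually.of_forall fun x₁ => ?_
    have hc2 : IsClosed (Prod.mk x₁ ⁻¹' {p : ℝ × ℝ × ℝ × ℝ | p.2.1 = p.2.2.2}) :=
      hc.preimage (by fun_prop)
    change ((volume : Measure ℝ).prod ((volume : Measure ℝ).prod (volume : Measure ℝ))) _ = 0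
    rw [Measure.measure_prod_null hc2.measurableSet]
    refine Eventually.of_forall fun y₁ => ?_
    have hc3 : IsClosed (Prod.mk y₁ ⁻¹' (Prod.mk x₁ ⁻¹' {p : ℝ × ℝ × ℝ × ℝ | p.2.1 = p.2.2.2})) :=
      hc2.preimage (by fun_prop)
    change ((volume : Measure ℝ).prod (volume : Measure ℝ)) _ = 0
    rw [Measure.measure_prod_null hc3.measurableSet]
    refine Eventually.of_forall fun x₂ => ?_
    have : (Prod.mk x₂ ⁻¹' (Prod.mk y₁ ⁻¹' (Prod.mk x₁ ⁻¹' {p : ℝ × ℝ × ℝ × ℝ | p.2.1 = p.2.2.2})))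
        = {y₁} := by
      ext y
      simp [eq_comm]
    change (volume : Measure ℝ) _ = 0
    rw [this]
    exact Real.volume_singleton
  rw [ae_iff]
  simpa using h0


private lemma mtlg_fac {f : ℝ → ℂ} {A C : ℝ} (h : ∀ t, ‖f t‖ * (1 + |t|) ^ (A + 2) ≤ C) (t : ℝ) :
    ‖f t‖ * (1 + |t|) ^ A ≤ C * (1 + |t|) ^ (-2 : ℝ) := by
  have h0 : 0 < 1 + |t| := by positivity
  have e : (1 + |t|) ^ A = (1 + |t|) ^ (A + 2) * (1 + |t|) ^ (-2 : ℝ) := by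
    rw [← Real.rpow_add h0]
    congr 1
    ring
  rw [e, ← mul_assoc]
  exact mul_le_mul_of_nonneg_right (h t) (by positivity)

private lemma mtlg_wtc_bd (a L : ℝ) (ρ h : ℝ → ℝ) (c x y : ℝ) (hc : 0 < c) (hc3 : c < 3) :
    ‖wtc a L ρ h (c + Complex.I * x) (3 + Complex.I * y)‖ ≤ 2 / ((3 - c) * (3 + c)) *
      (‖rhat ρ (c + Complex.I * x)‖ * ‖Gh a L (c + Complex.I * x)‖ *
        ‖hhat h (3 + Complex.I * y)‖) := by
  unfold wtc
  have h1 : 3 - c ≤ ‖((3 : ℂ) + Complex.I * y) - (c + Complex.I * x)‖ := by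
    refine le_trans (le_of_eq ?_) (Complex.re_le_norm _)
    simp
  have h2 : 3 + c ≤ ‖((3 : ℂ) + Complex.I * y) + (c + Complex.I * x)‖ := by
    refine le_trans (le_of_eq ?_) (Complex.re_le_norm _)
    simp
  have h3 : (3 - c) * (3 + c) ≤ ‖((3 : ℂ) + Complex.I * y) ^ 2 - (c + Complex.I * x) ^ 2‖ := by
    have e : ((3 : ℂ) + Complex.I * y) ^ 2 - (c + Complex.I * x) ^ 2 =
        (((3 : ℂ) + Complex.I * y) - (c + Complex.I * x)) *
          (((3 : ℂ) + Complex.I * y) + (c + Complex.I * x)) := by ring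
    rw [e, norm_mul]
    exact mul_le_mul h1 h2 (by linarith) (norm_nonneg _)
  have hp : 0 < (3 - c) * (3 + c) := mul_pos (by linarith) (by linarith)
  rw [norm_mul, norm_mul, norm_div, norm_mul]
  have e2 : ‖(2 : ℂ)‖ = 2 := by simp
  rw [e2]
  have h4 : 2 * ‖hhat h (3 + Complex.I * y)‖ /
      ‖((3 : ℂ) + Complex.I * y) ^ 2 - (c + Complex.I * x) ^ 2‖ ≤
      2 * ‖hhat h (3 + Complex.I * y)‖ / ((3 - c) * (3 + c)) :=
    div_le_div_of_nonneg_left (by positivity) hp h3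
  calc _ ≤ ‖rhat ρ (c + Complex.I * x)‖ * ‖Gh a L (c + Complex.I * x)‖ *
        (2 * ‖hhat h (3 + Complex.I * y)‖ / ((3 - c) * (3 + c))) :=
        mul_le_mul_of_nonneg_left h4 (by positivity)
    _ = _ := by ring

private lemma mtlg_wtc_lim (a : ℝ) (ha' : a = 0 ∨ a = 1) (ρ h : ℝ → ℝ) (s w : ℂ) :
    Tendsto (fun X : ℝ => wtc a (Real.log X) ρ h s w) atTop (𝓝 (wti ρ h s w)) := by
  unfold wtc wti
  have h1 := (Gh_lim a ha' s).comp Real.tendsto_log_atTop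
  have h2 := (h1.const_mul (rhat ρ s)).mul_const (2 * hhat h w / (w ^ 2 - s ^ 2))
  rw [mul_one] at h2
  exact h2

/-- the integrand at scale `X` -/
private noncomputable def mtlgG (a : ℝ) (β : ℂ → ℂ) (r : ℕ) (ρ₁ ρ₂ h : ℝ → ℝ) (X : ℝ)
    (p : ℝ × ℝ × ℝ × ℝ) : ℂ :=
  wtc a (Real.log X) ρ₁ h (2 + Complex.I * p.1) (3 + Complex.I * p.2.1) *
    wtc a (Real.log X) ρ₂ h (5 / 2 + Complex.I * p.2.2.1) (3 + Complex.I * p.2.2.2) *
    QXg β r X (2 + Complex.I * p.1) (3 + Complex.I * p.2.1) (5 / 2 + Complex.I * p.2.2.1)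
      (3 + Complex.I * p.2.2.2)

/-- the limit integrand -/
private noncomputable def mtlgH (ρ₁ ρ₂ h : ℝ → ℝ) (p : ℝ × ℝ × ℝ × ℝ) : ℂ :=
  wti ρ₁ h (2 + Complex.I * p.1) (3 + Complex.I * p.2.1) *
    wti ρ₂ h (5 / 2 + Complex.I * p.2.2.1) (3 + Complex.I * p.2.2.2) *
    Qinf (2 + Complex.I * p.1) (3 + Complex.I * p.2.1) (5 / 2 + Complex.I * p.2.2.1)
      (3 + Complex.I * p.2.2.2)

private noncomputable def mtlgE (Y₁ Y₂ : ℝ) (p : ℝ × ℝ × ℝ × ℝ) : ℂ :=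
  Complex.exp ((2 + Complex.I * p.1) * Y₁ + (5 / 2 + Complex.I * p.2.2.1) * Y₂)

private lemma mtlgE_cont (Y₁ Y₂ : ℝ) : Continuous (mtlgE Y₁ Y₂) := by
  unfold mtlgE
  fun_prop

private lemma mtlgE_bd {Y₁ Y₂ : ℝ} (h1 : Y₁ ∈ Set.Icc (-1 : ℝ) 1) (h2 : Y₂ ∈ Set.Icc (-1 : ℝ) 1)
    (p : ℝ × ℝ × ℝ × ℝ) : ‖mtlgE Y₁ Y₂ p‖ ≤ Real.exp 5 := by
  unfold mtlgE
  rw [Complex.norm_exp]
  apply Real.exp_le_exp.mpr
  have e : ((2 + Complex.I * (p.1 : ℂ)) * Y₁ + (5 / 2 + Complex.I * (p.2.2.1 : ℂ)) * Y₂).re =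
      2 * Y₁ + 5 / 2 * Y₂ := by
    simp only [Complex.add_re, Complex.mul_re, Complex.add_im, Complex.mul_im, Complex.I_re,
      Complex.I_im, Complex.ofReal_re, Complex.ofReal_im]
    norm_num
  rw [e]
  linarith only [h1, h2, h1.2, h2.2]

private lemma mtlg_G_bound (a : ℝ) (ha' : a = 0 ∨ a = 1) {β : ℂ → ℂ} {B : ℝ → ℝ} (hβ : BC β B) (r : ℕ) (hr : Odd r)
    {ρ₁ ρ₂ h : ℝ → ℝ} {b₁ b₂ θ : ℝ} (hρ₁ : Bump ρ₁ b₁ b₂) (hρ₂ : Bump ρ₂ b₁ b₂)
    (hh : Bump h 0 θ) :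
    ∃ K X₀ : ℝ, 0 ≤ K ∧ ∀ X : ℝ, X₀ ≤ X → ∀ p, ‖mtlgG a β r ρ₁ ρ₂ h X p‖ ≤ mtlgM K p := by
  obtain ⟨C, A, X₀, hC, hA, hQ⟩ := QX_boundg hβ r hr
  obtain ⟨R1, hR1, hr1⟩ := rhat_decay hρ₁ 2 (A + 2)
  obtain ⟨R2, hR2, hr2⟩ := rhat_decay hρ₂ (5 / 2) (A + 2)
  obtain ⟨H, hH, hh3⟩ := hhat_decay hh 3 (A + 2)
  obtain ⟨G1, L1, hG1, hg1⟩ := Gh_bound a ha' 2
  obtain ⟨G2, L2, hG2, hg2⟩ := Gh_bound a ha' (5 / 2)
  refine ⟨(2 / ((3 - 2) * (3 + 2)) * G1) * (2 / ((3 - 5 / 2) * (3 + 5 / 2)) * G2) *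
    (C * (R1 * (H * (R2 * H)))), max (max X₀ 1) (max (Real.exp L1) (Real.exp L2)), by (clear * - hG1 hG2 hC hR1 hH hR2; positivity),
    fun X hX p => ?_⟩
  have hX0 : X₀ ≤ X := le_trans (le_trans (le_max_left _ _) (le_max_left _ _)) hX
  have hX1 : 1 ≤ X := le_trans (le_trans (le_max_right _ _) (le_max_left _ _)) hX
  have hXp : 0 < X := by linarith
  have hL1 : L1 ≤ Real.log X := by
    rw [Real.le_log_iff_exp_le hXp]
    exact le_trans (le_trans (le_max_left _ _) (le_max_right _ _)) hX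
  have hL2 : L2 ≤ Real.log X := by
    rw [Real.le_log_iff_exp_le hXp]
    exact le_trans (le_trans (le_max_right _ _) (le_max_right _ _)) hX
  obtain ⟨x₁, y₁, x₂, y₂⟩ := p
  unfold mtlgG mtlgM
  simp only
  have w1 := mtlg_wtc_bd a (Real.log X) ρ₁ h 2 x₁ y₁ (by norm_num) (by norm_num)
  have w2 := mtlg_wtc_bd a (Real.log X) ρ₂ h (5 / 2) x₂ y₂ (by norm_num) (by norm_num)
  have g1 := hg1 (Real.log X) hL1 x₁
  have g2 := hg2 (Real.log X) hL2 x₂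
  have q := hQ X hX0 x₁ y₁ x₂ y₂
  have t1 := mtlg_fac hr1 x₁
  have t2 := mtlg_fac hr2 x₂
  have t3 := mtlg_fac hh3 y₁
  have t4 := mtlg_fac hh3 y₂
  push_cast at w1 w2 g1 g2 t1 t2 t3 t4
  have n1 : (0 : ℝ) ≤ 1 + |x₁| := by positivity
  have n2 : (0 : ℝ) ≤ 1 + |y₁| := by positivity
  have n3 : (0 : ℝ) ≤ 1 + |x₂| := by positivity
  have n4 : (0 : ℝ) ≤ 1 + |y₂| := by positivity
  rw [Real.mul_rpow (by (clear * -; positivity)) n4, Real.mul_rpow (by positivity) n3,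
    Real.mul_rpow n1 n2] at q
  rw [norm_mul, norm_mul]
  set r1 := ‖rhat ρ₁ (2 + Complex.I * x₁)‖ with hr1d
  set r2 := ‖rhat ρ₂ (5 / 2 + Complex.I * x₂)‖ with hr2d
  set k1 := ‖hhat h (3 + Complex.I * y₁)‖ with hk1d
  set k2 := ‖hhat h (3 + Complex.I * y₂)‖ with hk2d
  have hr1n : 0 ≤ r1 := norm_nonneg _
  have hr2n : 0 ≤ r2 := norm_nonneg _
  have hk1n : 0 ≤ k1 := norm_nonneg _
  have hk2n : 0 ≤ k2 := norm_nonneg _
  have w1' : ‖wtc a (Real.log X) ρ₁ h (2 + Complex.I * x₁) (3 + Complex.I * y₁)‖ ≤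
      (2 / ((3 - 2) * (3 + 2)) * G1) * (r1 * k1) := by
    refine w1.trans ?_
    calc 2 / ((3 - 2) * (3 + 2)) * (r1 * ‖Gh a (Real.log X) (2 + Complex.I * x₁)‖ * k1)
        ≤ 2 / ((3 - 2) * (3 + 2)) * (r1 * G1 * k1) := by (clear * - g1; gcongr)
      _ = _ := by ring
  have w2' : ‖wtc a (Real.log X) ρ₂ h (5 / 2 + Complex.I * x₂) (3 + Complex.I * y₂)‖ ≤
      (2 / ((3 - 5 / 2) * (3 + 5 / 2)) * G2) * (r2 * k2) := by
    refine w2.trans ?_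
    calc 2 / ((3 - 5 / 2) * (3 + 5 / 2)) * (r2 * ‖Gh a (Real.log X) (5 / 2 + Complex.I * x₂)‖ * k2)
        ≤ 2 / ((3 - 5 / 2) * (3 + 5 / 2)) * (r2 * G2 * k2) := by (clear * - g2; gcongr)
      _ = _ := by ring
  have p1 : 0 ≤ (1 + |x₁|) ^ A := by positivity
  have p2 : 0 ≤ (1 + |y₁|) ^ A := by positivity
  have p3 : 0 ≤ (1 + |x₂|) ^ A := by positivity
  have p4 : 0 ≤ (1 + |y₂|) ^ A := by positivity
  calc _ ≤ ((2 / ((3 - 2) * (3 + 2)) * G1) * (r1 * k1)) *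
        ((2 / ((3 - 5 / 2) * (3 + 5 / 2)) * G2) * (r2 * k2)) *
        (C * ((1 + |x₁|) ^ A * (1 + |y₁|) ^ A * (1 + |x₂|) ^ A * (1 + |y₂|) ^ A)) := by
        refine mul_le_mul (mul_le_mul w1' w2' (norm_nonneg _) (by (clear * - hG1; positivity))) q (norm_nonneg _)
          (by (clear * - hG1 hG2; positivity))
    _ = ((2 / ((3 - 2) * (3 + 2)) * G1) * (2 / ((3 - 5 / 2) * (3 + 5 / 2)) * G2)) *
        (C * ((r1 * (1 + |x₁|) ^ A) * ((k1 * (1 + |y₁|) ^ A) * ((r2 * (1 + |x₂|) ^ A) *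
          (k2 * (1 + |y₂|) ^ A))))) := by ring
    _ ≤ ((2 / ((3 - 2) * (3 + 2)) * G1) * (2 / ((3 - 5 / 2) * (3 + 5 / 2)) * G2)) *
        (C * ((R1 * (1 + |x₁|) ^ (-2 : ℝ)) * ((H * (1 + |y₁|) ^ (-2 : ℝ)) *
          ((R2 * (1 + |x₂|) ^ (-2 : ℝ)) * (H * (1 + |y₂|) ^ (-2 : ℝ)))))) := by
        (clear * - t1 t3 t2 t4 hR2 hH hR1 hC hG1 hG2; gcongr)
    _ = _ := by ring

theorem MT_limg (a : ℝ) (ha' : a = 0 ∨ a = 1) {β : ℂ → ℂ} {B : ℝ → ℝ} (hβ : BC β B) (I₀ : ℝ)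
    (r : ℕ) (hr : Odd r)
    {ρ₁ ρ₂ h : ℝ → ℝ} {b₁ b₂ θ : ℝ} (hρ₁ : Bump ρ₁ b₁ b₂) (hρ₂ : Bump ρ₂ b₁ b₂) (hh : Bump h 0 θ)
    (ε : ℝ) (hε : 0 < ε) :
    ∃ X₀ : ℝ, ∀ X : ℝ, X₀ ≤ X → ∀ M : ℕ → ℝ, MRep β I₀ (X / r ^ 2) M →
    ∀ Y₁ ∈ Set.Icc (-1 : ℝ) 1, ∀ Y₂ ∈ Set.Icc (-1 : ℝ) 1,
    ‖(MTg a ρ₁ ρ₂ h M X r Y₁ Y₂ : ℂ) - (I₀ : ℂ) / (2 * π) ^ 4 *
      ∫ x₁ : ℝ, ∫ y₁ : ℝ, ∫ x₂ : ℝ, ∫ y₂ : ℝ,
        wti ρ₁ h (2 + Complex.I * x₁) (3 + Complex.I * y₁) *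
        wti ρ₂ h (5 / 2 + Complex.I * x₂) (3 + Complex.I * y₂) *
        Complex.exp ((2 + Complex.I * x₁) * Y₁ + (5 / 2 + Complex.I * x₂) * Y₂) *
        Qinf (2 + Complex.I * x₁) (3 + Complex.I * y₁) (5 / 2 + Complex.I * x₂)
          (3 + Complex.I * y₂)‖ ≤ ε := by
  obtain ⟨X₁, hX₁⟩ := MT_eqg a ha' hβ I₀ r hr hρ₁ hρ₂ hh
  obtain ⟨K, X₂, hK, hX₂⟩ := mtlg_G_bound a ha' hβ r hr hρ₁ hρ₂ hh
  have hr0 : 0 < r := hr.pos
  have hmeas : ∀ X : ℝ, Real.exp 8 ≤ X → Measurable (mtlgG a β r ρ₁ ρ₂ h X) := by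
    intro X hX
    have hXp : 0 < X := lt_of_lt_of_le (Real.exp_pos _) hX
    have hL : 8 ≤ Real.log X := by
      rw [Real.le_log_iff_exp_le hXp]
      exact hX
    exact ((mtlg_wtc1 hρ₁.smooth.continuous hh.smooth.continuous a _).mul
      (mtlg_wtc2 hρ₂.smooth.continuous hh.smooth.continuous a _)).mul
      (mtlg_QX hβ r hXp hL hr0)
  have hlim : ∀ᵐ p : ℝ × ℝ × ℝ × ℝ, Tendsto (fun X : ℝ => mtlgG a β r ρ₁ ρ₂ h X p) atTop
      (𝓝 (mtlgH ρ₁ ρ₂ h p)) := by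
    filter_upwards [mtlg_diag] with p hp
    exact ((mtlg_wtc_lim a ha' ρ₁ h _ _).mul (mtlg_wtc_lim a ha' ρ₂ h _ _)).mul
      (QX_limg hβ r hr p.1 p.2.1 p.2.2.1 p.2.2.2 hp)
  have hev : ∀ᶠ X : ℝ in atTop, X₂ ≤ X ∧ Real.exp 8 ≤ X :=
    (eventually_ge_atTop _).and (eventually_ge_atTop _)
  have hHbd : ∀ᵐ p : ℝ × ℝ × ℝ × ℝ, ‖mtlgH ρ₁ ρ₂ h p‖ ≤ mtlgM K p := by
    filter_upwards [hlim] with p hp
    exact le_of_tendsto hp.norm (hev.mono fun X hX => hX₂ X hX.1 p)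
  have hHm : AEStronglyMeasurable (mtlgH ρ₁ ρ₂ h) := by
    refine aestronglyMeasurable_of_tendsto_ae (u := atTop)
      (f := fun n : ℕ => mtlgG a β r ρ₁ ρ₂ h ((n : ℝ) + Real.exp 8)) (fun n => ?_) ?_
    · exact (hmeas _ (by have := Nat.cast_nonneg (α := ℝ) n; linarith)).aestronglyMeasurable
    · filter_upwards [hlim] with p hp
      exact hp.comp (tendsto_atTop_add_const_right _ _ tendsto_natCast_atTop_atTop)
  have hHi : Integrable (mtlgH ρ₁ ρ₂ h) := (mtlgM_int K).mono' hHm hHbd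
  have hGi : ∀ X : ℝ, X₂ ≤ X → Real.exp 8 ≤ X → Integrable (mtlgG a β r ρ₁ ρ₂ h X) :=
    fun X h1 h2 => (mtlgM_int K).mono' (hmeas X h2).aestronglyMeasurable
      (Eventually.of_forall fun p => hX₂ X h1 p)
  have hD : Tendsto (fun X : ℝ => ∫ p, ‖mtlgG a β r ρ₁ ρ₂ h X p - mtlgH ρ₁ ρ₂ h p‖) atTop
      (𝓝 0) := by
    have h0 : (∫ _p : ℝ × ℝ × ℝ × ℝ, (0 : ℝ)) = 0 := by simp
    rw [← h0]
    refine tendsto_integral_filter_of_dominated_convergence (fun p => mtlgM K p + mtlgM K p)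
      ?_ ?_ ((mtlgM_int K).add (mtlgM_int K)) ?_
    · filter_upwards [hev] with X hX
      exact ((hmeas X hX.2).aestronglyMeasurable.sub hHm).norm
    · filter_upwards [hev] with X hX
      filter_upwards [hHbd] with p hp
      rw [norm_norm]
      exact (norm_sub_le _ _).trans (add_le_add (hX₂ X hX.1 p) hp)
    · filter_upwards [hlim] with p hp
      have h1 := (hp.sub_const (mtlgH ρ₁ ρ₂ h p)).norm
      rw [sub_self, norm_zero] at h1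
      exact h1
  set cF : ℂ := (I₀ : ℂ) / (2 * π) ^ 4 with hcF
  set η : ℝ := ε / ((‖cF‖ + 1) * Real.exp 5) with hη
  have hη0 : 0 < η := by positivity
  obtain ⟨X₃, hX₃⟩ := eventually_atTop.mp (hD.eventually (gt_mem_nhds hη0))
  refine ⟨max (max X₁ X₂) (max X₃ (Real.exp 8)), fun X hX M hM Y₁ hY₁ Y₂ hY₂ => ?_⟩
  have a1 : X₁ ≤ X := le_trans (le_trans (le_max_left _ _) (le_max_left _ _)) hX
  have a2 : X₂ ≤ X := le_trans (le_trans (le_max_right _ _) (le_max_left _ _)) hX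
  have a3 : X₃ ≤ X := le_trans (le_trans (le_max_left _ _) (le_max_right _ _)) hX
  have a4 : Real.exp 8 ≤ X := le_trans (le_trans (le_max_right _ _) (le_max_right _ _)) hX
  have hEb := mtlgE_bd hY₁ hY₂
  have hEm : AEStronglyMeasurable (mtlgE Y₁ Y₂) := (mtlgE_cont Y₁ Y₂).aestronglyMeasurable
  have i1 : Integrable (fun p => mtlgG a β r ρ₁ ρ₂ h X p * mtlgE Y₁ Y₂ p) :=
    (hGi X a2 a4).mul_bdd (c := Real.exp 5) hEm (Eventually.of_forall hEb)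
  have i2 : Integrable (fun p => mtlgH ρ₁ ρ₂ h p * mtlgE Y₁ Y₂ p) :=
    hHi.mul_bdd (c := Real.exp 5) hEm (Eventually.of_forall hEb)
  have e1 : (∫ x₁ : ℝ, ∫ y₁ : ℝ, ∫ x₂ : ℝ, ∫ y₂ : ℝ,
        wtc a (Real.log X) ρ₁ h (2 + Complex.I * x₁) (3 + Complex.I * y₁) *
        wtc a (Real.log X) ρ₂ h (5 / 2 + Complex.I * x₂) (3 + Complex.I * y₂) *
        Complex.exp ((2 + Complex.I * x₁) * Y₁ + (5 / 2 + Complex.I * x₂) * Y₂) *
        QXg β r X (2 + Complex.I * x₁) (3 + Complex.I * y₁) (5 / 2 + Complex.I * x₂)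
          (3 + Complex.I * y₂)) = ∫ p, mtlgG a β r ρ₁ ρ₂ h X p * mtlgE Y₁ Y₂ p := by
    rw [← mtlg_iter i1]
    refine integral_congr_ae (Eventually.of_forall fun x₁ => ?_)
    refine integral_congr_ae (Eventually.of_forall fun y₁ => ?_)
    refine integral_congr_ae (Eventually.of_forall fun x₂ => ?_)
    refine integral_congr_ae (Eventually.of_forall fun y₂ => ?_)
    simp only [mtlgG, mtlgE]
    ring
  have e2 : (∫ x₁ : ℝ, ∫ y₁ : ℝ, ∫ x₂ : ℝ, ∫ y₂ : ℝ,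
        wti ρ₁ h (2 + Complex.I * x₁) (3 + Complex.I * y₁) *
        wti ρ₂ h (5 / 2 + Complex.I * x₂) (3 + Complex.I * y₂) *
        Complex.exp ((2 + Complex.I * x₁) * Y₁ + (5 / 2 + Complex.I * x₂) * Y₂) *
        Qinf (2 + Complex.I * x₁) (3 + Complex.I * y₁) (5 / 2 + Complex.I * x₂)
          (3 + Complex.I * y₂)) = ∫ p, mtlgH ρ₁ ρ₂ h p * mtlgE Y₁ Y₂ p := by
    rw [← mtlg_iter i2]
    refine integral_congr_ae (Eventually.of_forall fun x₁ => ?_)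
    refine integral_congr_ae (Eventually.of_forall fun y₁ => ?_)
    refine integral_congr_ae (Eventually.of_forall fun x₂ => ?_)
    refine integral_congr_ae (Eventually.of_forall fun y₂ => ?_)
    simp only [mtlgH, mtlgE]
    ring
  rw [hX₁ X a1 M hM Y₁ Y₂, e1, e2, ← mul_sub, ← integral_sub i1 i2, norm_mul]
  have h5 : ‖∫ p, (mtlgG a β r ρ₁ ρ₂ h X p * mtlgE Y₁ Y₂ p - mtlgH ρ₁ ρ₂ h p * mtlgE Y₁ Y₂ p)‖ ≤
      Real.exp 5 * ∫ p, ‖mtlgG a β r ρ₁ ρ₂ h X p - mtlgH ρ₁ ρ₂ h p‖ := by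
    rw [← integral_const_mul]
    refine norm_integral_le_of_norm_le (((hGi X a2 a4).sub hHi).norm.const_mul _)
      (Eventually.of_forall fun p => ?_)
    rw [← sub_mul, norm_mul, mul_comm]
    exact mul_le_mul_of_nonneg_right (hEb p) (norm_nonneg _)
  have h6 := (hX₃ X a3).le
  calc ‖cF‖ * ‖∫ p, (mtlgG a β r ρ₁ ρ₂ h X p * mtlgE Y₁ Y₂ p - mtlgH ρ₁ ρ₂ h p * mtlgE Y₁ Y₂ p)‖
      ≤ ‖cF‖ * (Real.exp 5 * η) := by
        refine mul_le_mul_of_nonneg_left (h5.trans ?_) (norm_nonneg _)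
        exact mul_le_mul_of_nonneg_left h6 (Real.exp_pos _).le
    _ ≤ (‖cF‖ + 1) * (Real.exp 5 * η) := by
        refine mul_le_mul_of_nonneg_right (by linarith) (by positivity)
    _ = ε := by
        rw [hη]
        have : (‖cF‖ + 1) ≠ 0 := by positivity
        have h7 := (Real.exp_pos 5).ne'
        field_simp

end Pool.Agent.MP0016c7.Rz
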