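import Mathlib
import Pool.Agent.Lib.MP_0016c7_nt.Rz.Defs
import Pool.Agent.Lib.MP_0016c7_nt.Rz.DefsC
import Pool.Agent.Lib.MP_0016c7_nt.Rz.DefsE
import Pool.Agent.Lib.MP_0016c7_nt.Rz.DefsF
import Pool.Agent.Lib.MP_0016c7_nt.Rz2.DefsG
import Pool.Agent.Lib.MP_0016c7_nt.Rz2.DetS
import Pool.Agent.Lib.MP_0016c7_nt.Rz2.VanS
import Pool.Agent.Lib.MP_0016c7_nt.Rz2.CharG
import Pool.Agent.Lib.MP_0016c7_nt.Rz2.SymG
import Pool.Agent.Lib.MP_0016c7_nt.Rz2.YS1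
import Pool.Agent.Lib.MP_0016c7_nt.Rz.Fa5
import Pool.Agent.Lib.MP_0016c7_nt.Rz.Fa1

set_option autoImplicit false

/-!
Bad discriminants of a family.
-/

open Finset MeasureTheory Filter Topology
open scoped Real ContDiff

namespace Pool.Agent.MP0016c7.Rz

private lemma bs_Hid_eq {θ₀ x : ℝ} (h : 0 < θ₀) : Hid θ₀ x =
    (θ₀ - min (max x 0) θ₀) / 2 + (θ₀ ^ 2 - (min (max x 0) θ₀) ^ 2) / 2 := by
  unfold Hid
  split_ifs with h1
  · rw [min_eq_right (h1.trans (le_max_left _ _))]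
    ring
  · push Not at h1
    rw [min_eq_left (max_le h1.le h.le)]

private lemma bs_Hid_cont {θ₀ : ℝ} (h : 0 < θ₀) : Continuous (Hid θ₀) := by
  have : Hid θ₀ = fun x => (θ₀ - min (max x 0) θ₀) / 2 + (θ₀ ^ 2 - (min (max x 0) θ₀) ^ 2) / 2 :=
    funext fun x => bs_Hid_eq h
  rw [this]
  fun_prop

private lemma bs_Hid_nonneg {θ₀ x : ℝ} (h : 0 < θ₀) : 0 ≤ Hid θ₀ x := by
  rw [bs_Hid_eq h]
  have h1 : 0 ≤ min (max x 0) θ₀ := le_min (le_max_right _ _) h.le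
  have h2 : min (max x 0) θ₀ ≤ θ₀ := min_le_right _ _
  nlinarith

private lemma bs_Hid_zero_pos {θ₀ : ℝ} (h : 0 < θ₀) : 0 < Hid θ₀ 0 := by
  unfold Hid
  rw [if_neg (by linarith)]
  simp
  positivity

private lemma bs_y00_cont (θ₀ κ V : ℝ) : Continuous (y00 θ₀ κ V) := by
  unfold y00
  fun_prop

private lemma bs_y00_ge {θ₀ κ V v : ℝ} (h : 0 < θ₀) (hκ : 0 < κ) (hv0 : 0 ≤ v) (hv : v ≤ V) :
    Hid θ₀ 0 ≤ y00 θ₀ κ V v := by
  unfold y00
  have h1 := bs_Hid_zero_pos h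
  have h2 : 0 ≤ κ * (V ^ 2 - v ^ 2) := mul_nonneg hκ.le (by nlinarith)
  nlinarith

private lemma bs_PP_ge {θ₀ κ V : ℝ} (h : 0 < θ₀) (hκ : 0 < κ) (hV : 0 < V) (a : ℝ) :
    Hid θ₀ 0 * V ≤ PP θ₀ κ V a := by
  unfold PP
  have h1 : 0 ≤ ∫ v in V..(V + θ₀), Real.cosh (a * v) * Hid θ₀ (v - V) := by
    refine intervalIntegral.integral_nonneg (by linarith) ?_
    intro v _
    exact mul_nonneg (Real.cosh_pos _).le (bs_Hid_nonneg h)
  have h2 : ∫ v in (0 : ℝ)..V, Hid θ₀ 0 ≤ ∫ v in (0 : ℝ)..V, Real.cosh (a * v) * y00 θ₀ κ V v := by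
    refine intervalIntegral.integral_mono_on hV.le (by simp) ?_ ?_
    · exact (Continuous.intervalIntegrable (by
        have := bs_y00_cont θ₀ κ V
        fun_prop) _ _)
    · intro v hv
      have h3 := bs_y00_ge (V := V) h hκ hv.1 hv.2
      have h4 := Real.one_le_cosh (a * v)
      have h5 := bs_Hid_zero_pos h
      nlinarith
  rw [intervalIntegral.integral_const, smul_eq_mul] at h2
  linarith

private lemma bs_key_alg {P ε μ P0 S q K : ℝ} (hμ : 0 < μ) (hP0 : 0 < P0) (hP : P0 ≤ P)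
    (hε : ε = μ / (4 * (1 + μ)) * (P0 / (1 + P0))) (hS : (1 - ε) * P - ε ≤ S)
    (hq : 0 ≤ q) (hSq : S ^ 2 ≤ q * K) (hK : (1 + μ) * K ≤ P ^ 2) : 1 + μ / 2 ≤ q := by
  set η : ℝ := μ / (4 * (1 + μ)) with hη
  have hη0 : 0 < η := by positivity
  have hη1 : η < 1 / 4 := by
    rw [hη, div_lt_iff₀ (by positivity)]
    linarith
  have h1 : ε * (1 + P0) = η * P0 := by
    rw [hε]
    field_simp
  have hε0 : 0 < ε := by rw [hε]; positivity
  have h2 : (1 - η) * P ≤ S := by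
    refine le_trans ?_ hS
    have h3 : ε * (1 + P0) * (P / P0) = η * P := by
      rw [h1]
      field_simp
    have h4 : 1 ≤ P / P0 := by rw [le_div_iff₀ hP0]; linarith
    have h5 : ε * (1 + P0) * (P / P0) = ε * (P / P0) + ε * P := by field_simp
    nlinarith
  have hPpos : 0 < P := hP0.trans_le hP
  have h6 : (1 - 2 * η) * P ^ 2 ≤ S ^ 2 := by
    have h7 : 0 ≤ (1 - η) * P := by nlinarith
    have h8 : ((1 - η) * P) ^ 2 ≤ S ^ 2 := by gcongr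
    nlinarith [sq_nonneg (η * P)]
  have h9 : (1 - 2 * η) * (1 + μ) = 1 + μ / 2 := by
    rw [hη]
    field_simp
    ring
  have hS2 : 0 < S ^ 2 := by
    have : 0 < (1 - 2 * η) * P ^ 2 := by
      have : 0 < 1 - 2 * η := by linarith
      positivity
    linarith
  have hK0 : 0 < K := by
    by_contra hcon
    push Not at hcon
    nlinarith [mul_nonneg hq (neg_nonneg.mpr hcon)]
  have h10 : (1 + μ / 2) * K ≤ q * K := by
    calc (1 + μ / 2) * K = (1 - 2 * η) * ((1 + μ) * K) := by rw [← h9]; ring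
      _ ≤ (1 - 2 * η) * P ^ 2 := by
          have : 0 ≤ 1 - 2 * η := by linarith
          gcongr
      _ ≤ q * K := h6.trans hSq
  exact le_of_mul_le_mul_right h10 hK0

theorem bad_largeS {θ₀ δ κ₀ τ₀ γ₀ g₀ μ E : ℝ} (hC : Cert θ₀ δ κ₀ τ₀ γ₀ g₀ μ E)
    {ρ h : ℝ → ℝ} (hρ : Bump ρ (-(δ / 2)) (δ / 2)) (hρn : ∀ y, 0 ≤ ρ y)
    (hρe : ∀ y, ρ (-y) = ρ y) (hρ1 : ∫ y, ρ y = 1) (hh : Bump h (2 * δ) (θ₀ + 3 * δ))
    (hhn : ∀ t, 0 ≤ h t) (hH : ∀ t, Hid θ₀ (t - 2 * δ) ≤ HH h t)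
    (σ : ℤ) (hσ : σ = 1 ∨ σ = -1) {m c ε : ℤ} {κ : ℕ} (hf : Fam m c ε κ) :
    ∃ X₀ μ' : ℝ, 0 < μ' ∧ ∀ X : ℝ, X₀ ≤ X → ∀ d : ℕ, X < d → (d : ℝ) ≤ 2 * X → Rf m c σ d →
      Squarefree d → ¬ NoZeroG κ d →
      1 + μ' ≤ qf (ww γ₀ (1 / 2 + δ) τ₀) g₀ (1 / 2 + δ) (fun v => y00 θ₀ κ₀ (1 / 2 + δ) v -
        yS (if σ = 1 then 0 else 1) ε σ ρ h X d (Real.log (κ * d) / (2 * Real.log X) - v)) := by
  obtain ⟨hθ₀, hδ, hδ', hκ₀, hτ₀, hγ₀, hg₀, hμ, hlen, hmain, -⟩ := hC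
  set V : ℝ := 1 / 2 + δ with hV
  have hV0 : 0 < V := by positivity
  have hh0 : Bump h 0 (θ₀ + 3 * δ) :=
    ⟨hh.smooth, fun t ht => ⟨(by linarith [(hh.supp t ht).1]), (hh.supp t ht).2⟩⟩
  set P0 : ℝ := Hid θ₀ 0 * V with hP0
  have hP0pos : 0 < P0 := mul_pos (bs_Hid_zero_pos hθ₀) hV0
  set ε₁ : ℝ := μ / (4 * (1 + μ)) * (P0 / (1 + P0)) with hε₁
  have hε₁0 : 0 < ε₁ := by positivity
  have hε₁1 : ε₁ ≤ 1 := by
    have h1 : μ / (4 * (1 + μ)) ≤ 1 := by rw [div_le_one (by positivity)]; linarith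
    have h2 : P0 / (1 + P0) ≤ 1 := by rw [div_le_one (by positivity)]; linarith
    have h3 : 0 ≤ P0 / (1 + P0) := by positivity
    calc ε₁ ≤ 1 * 1 := by rw [hε₁]; gcongr
      _ = 1 := one_mul 1
  set c₁ : ℝ := if σ = 1 then 0 else 1 with hc
  have hc01 : c₁ = 0 ∨ c₁ = 1 := by
    rw [hc]; split_ifs
    · exact Or.inl rfl
    · exact Or.inr rfl
  have hε : ε = 0 ∨ ε = 1 ∨ ε = -1 := by
    rcases hf with h | h | h
    · exact Or.inl h.2.2.1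
    · exact Or.inr (Or.inl h.2.2.1)
    · exact Or.inr (Or.inr h.2.2.1)
  have hκ : κ = 1 ∨ κ = 4 := by
    rcases hf with h | h | h
    · exact Or.inr h.2.2.2
    · exact Or.inl h.2.2.2
    · exact Or.inl h.2.2.2
  obtain ⟨X₁, hdet⟩ := det_lowerS (θ := θ₀ + 3 * δ) hδ hδ' hθ₀ (by linarith) (by linarith) hρ hρn
    hρ1 hh0 hhn hH c₁ hc01 ε σ hε κ hκ ε₁ hε₁0
  refine ⟨max X₁ 2, μ / 2, by positivity, ?_⟩
  intro X hX d hd1 hd2 hRf hsf hbad
  have hodd : Odd d := by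
    have hR := hRf.1
    have h1 : (σ * (d : ℤ)) % 2 = 1 := by
      rcases hf with h | h | h
      · obtain ⟨hm, hcc, -, -⟩ := h
        subst hm; subst hcc; omega
      · obtain ⟨hm, hcc, -, -⟩ := h
        subst hm; subst hcc; omega
      · obtain ⟨hm, hcc, -, -⟩ := h
        subst hm; subst hcc; omega
    have h2 : Odd (σ * (d : ℤ)) := Int.odd_iff.2 h1
    have h3 : Odd ((d : ℕ) : ℤ) := (Int.odd_mul.1 h2).2
    exact_mod_cast h3
  have hX1 : X₁ ≤ X := (le_max_left _ _).trans hX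
  have hX2 : (2 : ℝ) ≤ X := (le_max_right _ _).trans hX
  unfold NoZeroG at hbad
  push Not at hbad
  obtain ⟨hN, χ, hp, h2, s, hs0, hs1, hz⟩ := hbad
  obtain ⟨hval, hval2, hpar⟩ := char_eqG hf σ hσ d hodd hsf hRf.1 χ hp h2
  have hsym := fun t : ℝ => gth_symmG hf σ hσ d hodd hsf hRf.1 χ hp h2 t
  have hcpar : par χ = c₁ := by
    rcases hpar with ⟨h1, he⟩ | ⟨h1, ho⟩
    · rw [par_even χ he, hc, if_pos h1]
    · rw [par_odd χ ho, hc, if_neg (by rw [h1]; norm_num)]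
  have hq1 : κ * d ≠ 1 := by
    have h3 : (2 : ℝ) < d := lt_of_le_of_lt hX2 hd1
    have h4 : 2 < d := by exact_mod_cast h3
    rcases hκ with h | h <;> subst h <;> omega
  obtain ⟨hint, hzero⟩ := vanishS κ d hκ hodd hq1 ε σ hε χ hp h2 hval hval2 hsym hδ hρ hρe hh0 X
    (by linarith) s hs0 hs1 hz
  rw [hcpar] at hint hzero
  have hdet' := hdet X hX1 d hd1 hd2 (s - 1 / 2) (by rw [abs_le]; constructor <;> linarith)
  set b : ℝ := Real.log (κ * d) / (2 * Real.log X) with hb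
  set a : ℝ := (s - 1 / 2) * Real.log X with ha
  have hcont : Continuous (fun v : ℝ => yS c₁ ε σ ρ h X d (b - v)) := by
    have h3 : Continuous (fun Y : ℝ => yS c₁ ε σ ρ h X d Y) := by
      rw [continuous_iff_continuousAt]
      intro Y
      exact (hasDerivAt_yS hδ hρ hh0 c₁ hc01 ε σ hε X (by linarith) d Y).continuousAt
    exact h3.comp (by fun_prop)
  have hfc : Continuous (fun v : ℝ => y00 θ₀ κ₀ V v - yS c₁ ε σ ρ h X d (b - v)) :=
    (bs_y00_cont θ₀ κ₀ V).sub hcont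
  have hcosh : Continuous (fun v : ℝ => Real.cosh (a * v)) := by fun_prop
  -- weights
  have hden : ∀ v ∈ Set.Icc (0 : ℝ) V, 0 < V - v + τ₀ := fun v hv => by linarith [hv.2]
  have hw : ContinuousOn (ww γ₀ V τ₀) (Set.Icc 0 V) := by
    unfold ww
    refine ContinuousOn.div continuousOn_const (by fun_prop) ?_
    intro v hv
    exact (hden v hv).ne'
  have hwp : ∀ v ∈ Set.Icc (0 : ℝ) V, 0 < ww γ₀ V τ₀ v := fun v hv => div_pos hγ₀ (hden v hv)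
  have hcs := rank_one_cs hV0 hg₀ hw hwp hfc.continuousOn hcosh.continuousOn
  have hq0 := (qf_add (η := 1) hV0 hg₀ one_pos hw hwp hfc.continuousOn hfc.continuousOn).1
  have hm := hmain a
  -- the lower bound for the linear functional
  have hsplit : (∫ v in (0 : ℝ)..V, Real.cosh (a * v) * yS c₁ ε σ ρ h X d (b - v)) +
      ∫ v in Set.Ioi V, Real.cosh (a * v) * yS c₁ ε σ ρ h X d (b - v) = 0 := by
    have hu := setIntegral_union (μ := volume)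
      (f := fun v => Real.cosh (a * v) * yS c₁ ε σ ρ h X d (b - v))
      (Set.Ioc_disjoint_Ioi (a := (0 : ℝ)) (le_refl V)) measurableSet_Ioi
      (hint.mono_set Set.Ioc_subset_Ioi_self) (hint.mono_set (Set.Ioi_subset_Ioi hV0.le))
    rw [Set.Ioc_union_Ioi_eq_Ioi hV0.le, hzero] at hu
    rw [intervalIntegral.integral_of_le hV0.le]
    exact hu.symm
  have hlin : (∫ v in (0 : ℝ)..V, Real.cosh (a * v) * (y00 θ₀ κ₀ V v - yS c₁ ε σ ρ h X d (b - v))) =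
      (∫ v in (0 : ℝ)..V, Real.cosh (a * v) * y00 θ₀ κ₀ V v) -
        ∫ v in (0 : ℝ)..V, Real.cosh (a * v) * yS c₁ ε σ ρ h X d (b - v) := by
    rw [← intervalIntegral.integral_sub]
    · congr 1
      ext v
      ring
    · exact (hcosh.mul (bs_y00_cont θ₀ κ₀ V)).intervalIntegrable _ _
    · exact (hcosh.mul hcont).intervalIntegrable _ _
  have hB : 0 ≤ ∫ v in (0 : ℝ)..V, Real.cosh (a * v) * y00 θ₀ κ₀ V v := by
    refine intervalIntegral.integral_nonneg hV0.le ?_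
    intro v hv
    exact mul_nonneg (Real.cosh_pos _).le
      ((bs_Hid_zero_pos hθ₀).le.trans (bs_y00_ge (V := V) hθ₀ hκ₀ hv.1 hv.2))
  have hT : (∫ v in Set.Ioc V (V + θ₀), Real.cosh (a * v) * Hid θ₀ (v - V)) =
      ∫ v in V..(V + θ₀), Real.cosh (a * v) * Hid θ₀ (v - V) := by
    rw [intervalIntegral.integral_of_le (by linarith)]
  rw [← hV, hT] at hdet'
  refine bs_key_alg (P := PP θ₀ κ₀ V a) hμ hP0pos (bs_PP_ge hθ₀ hκ₀ hV0 a) hε₁ ?_ hq0 hcs hm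
  rw [hlin]
  unfold PP
  nlinarith


end Pool.Agent.MP0016c7.Rz
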