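import Mathlib
import Pool.Agent.Lib.MP_0016c7_nt.Rz.Defs
import Pool.Agent.Lib.MP_0016c7_nt.Rz.DefsC
import Pool.Agent.Lib.MP_0016c7_nt.Rz.DefsE
import Pool.Agent.Lib.MP_0016c7_nt.Rz.DefsF
import Pool.Agent.Lib.MP_0016c7_nt.Rz2.DefsG
import Pool.Agent.Lib.MP_0016c7_nt.Rz2.AvgQ
import Pool.Agent.Lib.MP_0016c7_nt.Rz2.AvgS
import Pool.Agent.Lib.MP_0016c7_nt.Rz2.BadS
import Pool.Agent.Lib.MP_0016c7_nt.Rz2.ZmG
import Pool.Agent.Lib.MP_0016c7_nt.Rz2.YS1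
import Pool.Agent.Lib.MP_0016c7_nt.Rz.Fb
import Pool.Agent.Lib.MP_0016c7_nt.Rz.Fa7
import Pool.Agent.Lib.MP_0016c7_nt.Rz.TestR
import Pool.Agent.Lib.MP_0016c7_nt.Rz.TestH

set_option autoImplicit false

/-!
The proportion of good discriminants in a family, dyadic form.
-/

open Finset MeasureTheory Filter Topology
open scoped Real ContDiff

namespace Pool.Agent.MP0016c7.Rz

private lemma famF_qb_mono {w : ℝ → ℝ} {g₀ V s s' : ℝ} {e : ℝ → ℝ} (hV : 0 < V) (hg : 0 < g₀)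
    (hw : ContinuousOn w (Set.Icc 0 V)) (hwp : ∀ v ∈ Set.Icc 0 V, 0 < w v) (he : Continuous e)
    (hs : s ≤ s') : qb w g₀ V s e ≤ qb w g₀ V s' e := by
  unfold qb
  have hi : ∀ t : ℝ, IntervalIntegrable (fun v => w v * (t * (V - v) + e v ^ 2)) volume 0 V := by
    intro t
    refine ContinuousOn.intervalIntegrable ?_
    rw [Set.uIcc_of_le hV.le]
    exact hw.mul (by fun_prop)
  have h1 : ∫ v in (0 : ℝ)..V, w v * (s * (V - v) + e v ^ 2) ≤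
      ∫ v in (0 : ℝ)..V, w v * (s' * (V - v) + e v ^ 2) := by
    refine intervalIntegral.integral_mono_on hV.le (hi s) (hi s') ?_
    intro v hv
    have h2 := hwp v hv
    have h3 : s * (V - v) ≤ s' * (V - v) := mul_le_mul_of_nonneg_right hs (by linarith [hv.2])
    have h4 : s * (V - v) + e v ^ 2 ≤ s' * (V - v) + e v ^ 2 := by linarith
    exact mul_le_mul_of_nonneg_left h4 h2.le
  have h5 : s * V ^ 3 / 3 ≤ s' * V ^ 3 / 3 := by
    have : 0 < V ^ 3 := by positivity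
    nlinarith
  have h6 : g₀ * (s * V ^ 3 / 3 + (∫ v in (0 : ℝ)..V, e v) ^ 2) ≤
      g₀ * (s' * V ^ 3 / 3 + (∫ v in (0 : ℝ)..V, e v) ^ 2) :=
    mul_le_mul_of_nonneg_left (by linarith) hg.le
  linarith

private lemma famF_qb_nonneg {w : ℝ → ℝ} {g₀ V s : ℝ} {e : ℝ → ℝ} (hV : 0 < V) (hg : 0 < g₀)
    (hwp : ∀ v ∈ Set.Icc 0 V, 0 < w v) (hs : 0 ≤ s) : 0 ≤ qb w g₀ V s e := by
  unfold qb
  have h1 : 0 ≤ ∫ v in (0 : ℝ)..V, w v * (s * (V - v) + e v ^ 2) := by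
    refine intervalIntegral.integral_nonneg hV.le ?_
    intro v hv
    have h2 := hwp v hv
    have h3 : 0 ≤ s * (V - v) := mul_nonneg hs (by linarith [hv.2])
    positivity
  positivity

private lemma famF_Hid_pos {θ₀ : ℝ} (h : 0 < θ₀) : 0 < Hid θ₀ 0 := by
  unfold Hid
  rw [if_neg (by linarith)]
  simp
  positivity

private lemma famF_eps {m c ε : ℤ} {κ : ℕ} (hf : Fam m c ε κ) : ε = 0 ∨ ε = 1 ∨ ε = -1 := by
  rcases hf with ⟨-, -, h, -⟩ | ⟨-, -, h, -⟩ | ⟨-, -, h, -⟩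
  · exact Or.inl h
  · exact Or.inr (Or.inl h)
  · exact Or.inr (Or.inr h)

private lemma famF_mpos {m c ε : ℤ} {κ : ℕ} (hf : Fam m c ε κ) : 0 < m := by
  rcases hf with ⟨h, -, -, -⟩ | ⟨h, -, -, -⟩ | ⟨h, -, -, -⟩ <;> omega

private lemma famF_odd {m c ε σ : ℤ} {κ : ℕ} (hf : Fam m c ε κ) (hσ : σ = 1 ∨ σ = -1) (d : ℕ)
    (h : Rf m c σ d) : Odd d := by
  obtain ⟨h1, -⟩ := h
  rw [Nat.odd_iff]
  rcases hf with ⟨rfl, rfl, -, -⟩ | ⟨rfl, rfl, -, -⟩ | ⟨rfl, rfl, -, -⟩ <;>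
    rcases hσ with rfl | rfl <;> omega

private lemma famF_sq (σ : ℤ) {r : ℕ} (hr : Odd r) (d : ℕ) :
    IsSquare (σ * ((r ^ 2 * d : ℕ) : ℤ)) ↔ IsSquare (σ * (d : ℤ)) := by
  have hr0 : (r : ℤ) ≠ 0 := by
    rintro h0
    have : r = 0 := by exact_mod_cast h0
    subst this
    exact absurd hr (by decide)
  have e : σ * ((r ^ 2 * d : ℕ) : ℤ) = (r : ℤ) ^ 2 * (σ * d) := by push_cast; ring
  rw [e]
  constructor
  · rintro ⟨k, hk⟩
    have h1 : (r : ℤ) ^ 2 ∣ k ^ 2 := ⟨σ * d, by rw [hk]; ring⟩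
    have h2 : (r : ℤ) ∣ k := (Int.pow_dvd_pow_iff two_ne_zero).1 h1
    obtain ⟨t, rfl⟩ := h2
    refine ⟨t, ?_⟩
    have h3 : (r : ℤ) ^ 2 * (σ * d) = (r : ℤ) ^ 2 * (t * t) := by rw [hk]; ring
    exact mul_left_cancel₀ (pow_ne_zero 2 hr0) h3
  · rintro ⟨k, hk⟩
    exact ⟨r * k, by rw [hk]; ring⟩

private lemma famF_r2 {m c ε : ℤ} {κ : ℕ} (hf : Fam m c ε κ) (σ : ℤ) (r d : ℕ) (hr : Odd r) :
    Rf m c σ (r ^ 2 * d) ↔ Rf m c σ d := by
  unfold Rf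
  rw [famF_sq σ hr d]
  obtain ⟨t, ht⟩ : ∃ t : ℤ, (r : ℤ) ^ 2 = 8 * t + 1 := by
    obtain ⟨k, hk⟩ := hr
    obtain ⟨s, hs⟩ := Nat.even_mul_succ_self k
    refine ⟨s, ?_⟩
    have hs' : (k : ℤ) * (k + 1) = s + s := by exact_mod_cast hs
    rw [hk]
    push_cast
    linear_combination 4 * hs'
  have e : σ * ((r ^ 2 * d : ℕ) : ℤ) = 8 * (t * (σ * d)) + σ * d := by
    push_cast
    rw [ht]; ring
  rw [e]
  have h9 : (8 * (t * (σ * (d : ℤ))) + σ * d) % m = (σ * d) % m := by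
    rcases hf with ⟨rfl, -, -, -⟩ | ⟨rfl, -, -, -⟩ | ⟨rfl, -, -, -⟩
    · have : 8 * (t * (σ * (d : ℤ))) + σ * d = σ * d + 4 * (2 * (t * (σ * d))) := by ring
      rw [this, Int.add_mul_emod_self_left]
    · rw [add_comm, Int.add_mul_emod_self_left]
    · rw [add_comm, Int.add_mul_emod_self_left]
  rw [h9]

theorem fam_dyadic {θ₀ δ κ₀ τ₀ γ₀ g₀ μ E : ℝ} (hC : Cert θ₀ δ κ₀ τ₀ γ₀ g₀ μ E)
    (hE : ErrG (θ₀ + 3 * δ) δ) (E' : ℝ) (hE' : E < E') (σ : ℤ) (hσ : σ = 1 ∨ σ = -1)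
    {m c ε : ℤ} {κ : ℕ} (hf : Fam m c ε κ) :
    ∃ X₀ : ℝ, ∀ X : ℝ, X₀ ≤ X →
      1 / (4 * m) * X ≤ (Nat.card {d : ℕ | X < d ∧ (d : ℝ) ≤ 2 * X ∧ Rf m c σ d ∧ Squarefree d} : ℝ) ∧
      (Nat.card {d : ℕ | X < d ∧ (d : ℝ) ≤ 2 * X ∧ Rf m c σ d ∧ Squarefree d ∧ ¬ NoZeroG κ d} : ℝ) ≤
      E' * (Nat.card {d : ℕ | X < d ∧ (d : ℝ) ≤ 2 * X ∧ Rf m c σ d ∧ Squarefree d} : ℝ) := by
  classical
  have hC' := hC
  obtain ⟨hθ₀, hδ, hδ', hκ, hτ₀, hγ₀, hg₀, hμ, hlen, -, hen⟩ := hC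
  obtain ⟨h, hh, hhn, hh0, hL2, hHle⟩ := exists_h θ₀ δ hθ₀ hδ
  obtain ⟨ρ, hρ, hρn, hρe, hρ1⟩ := exists_rho δ hδ
  set V : ℝ := 1 / 2 + δ with hV
  have hV0 : 0 < V := by positivity
  set c' : ℝ := if σ = 1 then 0 else 1 with hc
  have hc01 : c' = 0 ∨ c' = 1 := by
    rw [hc]; split_ifs
    · exact Or.inl rfl
    · exact Or.inr rfl
  have hhb : Bump h 0 (θ₀ + 3 * δ) :=
    ⟨hh.smooth, fun t ht => ⟨(by linarith [(hh.supp t ht).1]), (hh.supp t ht).2⟩⟩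
  set w : ℝ → ℝ := ww γ₀ V τ₀ with hwdef
  have hden : ∀ v ∈ Set.Icc (0 : ℝ) V, 0 < V - v + τ₀ := fun v hv => by linarith [hv.2]
  have hw : ContinuousOn w (Set.Icc 0 V) := by
    rw [hwdef]
    unfold ww
    refine ContinuousOn.div continuousOn_const (by fun_prop) ?_
    intro v hv
    exact (hden v hv).ne'
  have hwp : ∀ v ∈ Set.Icc (0 : ℝ) V, 0 < w v := fun v hv => div_pos hγ₀ (hden v hv)
  set y : ℝ → ℝ := y00 θ₀ κ₀ V with hydef
  have hy : Continuous y := by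
    rw [hydef]; unfold y00; fun_prop
  have hHpos : 0 < HH h 0 := by rw [hh0]; exact famF_Hid_pos hθ₀
  -- energy
  set s2 : ℝ := ((θ₀ + 1 / 2) ^ 3 - 1 / 8) / 3 with hs2
  have hs2n : 0 ≤ s2 := by
    rw [hs2]
    have : 0 ≤ (θ₀ + 1 / 2) ^ 3 - 1 / 8 := by nlinarith [sq_nonneg θ₀, pow_pos hθ₀ 3]
    positivity
  have heq : (fun v => y v - HH h 0) = fun v => Hid θ₀ 0 * κ₀ * (V ^ 2 - v ^ 2) := by
    funext v
    rw [hydef, hh0]
    unfold y00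
    ring
  have hec : Continuous (fun v : ℝ => Hid θ₀ 0 * κ₀ * (V ^ 2 - v ^ 2)) := by fun_prop
  have hE0 : 0 ≤ E := (famF_qb_nonneg hV0 hg₀ hwp hs2n).trans hen
  have hm0 : 0 < m := famF_mpos hf
  have hmR : (0 : ℝ) < m := by exact_mod_cast hm0
  have hεd := famF_eps hf
  -- continuity
  have hcontY : ∀ X : ℝ, 1 < X → ∀ d : ℕ, Continuous (fun Y : ℝ => yS c' ε σ ρ h X d Y) := by
    intro X hX d
    rw [continuous_iff_continuousAt]
    intro Y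
    exact (hasDerivAt_yS hδ hρ hhb c' hc01 ε σ hεd X hX d Y).continuousAt
  have hf1 : ∀ X : ℝ, 1 < X → ∀ d : ℕ,
      Continuous (fun v : ℝ => y v - yS c' ε σ ρ h X d (1 / 2 - v)) := fun X hX d =>
    hy.sub ((hcontY X hX d).comp (by fun_prop))
  have hf2 : ∀ X : ℝ, 1 < X → ∀ d : ℕ, Continuous (fun v : ℝ => yS c' ε σ ρ h X d (1 / 2 - v) -
      yS c' ε σ ρ h X d (Real.log (κ * d) / (2 * Real.log X) - v)) := fun X hX d =>
    ((hcontY X hX d).comp (by fun_prop)).sub ((hcontY X hX d).comp (by fun_prop))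
  have key := Fb.dyadic_gen (Rf m c σ) (famF_odd hf hσ) (fun r d hr => famF_r2 hf σ r d hr)
    (D := 1 / (m : ℝ)) (by positivity) hE0 hE' (NoZeroG κ)
    (fun X d => qf w g₀ V (fun v => y v - yS c' ε σ ρ h X d (1 / 2 - v)))
    (fun X d => qf w g₀ V (fun v => yS c' ε σ ρ h X d (1 / 2 - v) -
      yS c' ε σ ρ h X d (Real.log (κ * d) / (2 * Real.log X) - v)))
    (fun X hX d => (qf_add (η := 1) hV0 hg₀ one_pos hw hwp (hf1 X hX d).continuousOn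
      (hf1 X hX d).continuousOn).1)
    (by
      intro F hF hFn hFpos
      obtain ⟨Es, hEs, hlim⟩ := avg_qS (θ := θ₀ + 3 * δ) hδ (by linarith) (by linarith)
        (by linarith) hE (by norm_num) hF hFpos hFn σ hσ hf c' hc01 hρ hρn hρ1 hh hhn hHpos hg₀
        hw hwp hy.continuousOn
      refine ⟨Es, ?_, ?_⟩
      · refine hEs.trans ?_
        rw [heq]
        exact (famF_qb_mono hV0 hg₀ hw hwp hec hL2).trans hen
      · intro r hr hrs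
        refine (hlim r hr hrs).congr fun X => ?_
        have e1 : (m : ℝ) * r ^ 2 / X = r ^ 2 / (1 / (m : ℝ) * X) := by
          field_simp
        rw [e1])
    (by
      intro F hF hFn hFpos r hr hrs
      rw [Metric.tendsto_atTop]
      intro ε' hε'
      obtain ⟨X₀, hX₀⟩ := zero_momentG (by norm_num) hF σ hσ hf r hr (ε' / 2) (by positivity)
      refine ⟨X₀, fun X hX => ?_⟩
      have h1 := hX₀ X hX
      have e1 : (m : ℝ) * r ^ 2 / X = r ^ 2 / (1 / (m : ℝ) * X) := by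
        field_simp
      rw [e1] at h1
      rw [Real.dist_eq]
      refine lt_of_le_of_lt (le_trans (le_of_eq ?_) h1) (by linarith)
      congr 3)
    (by
      intro ε' hε'
      obtain ⟨X₀, hX₀⟩ := avg_shiftS (θ := θ₀ + 3 * δ) hδ (by linarith) (by linarith)
        (by linarith) hE σ hσ hf c' hc01 hρ hh hg₀ hw hwp ε' hε'
      exact ⟨X₀, hX₀⟩)
    (by
      intro η hη
      obtain ⟨X₄, μ', hμ', hX₄⟩ := bad_largeS hC' hρ hρn hρe hρ1 hh hhn hHle σ hσ hf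
      refine ⟨max X₄ 2, fun X hX d k1 k2 k3 k4 k5 => ?_⟩
      have hX4 : X₄ ≤ X := (le_max_left _ _).trans hX
      have hX2 : 1 < X := lt_of_lt_of_le one_lt_two ((le_max_right _ _).trans hX)
      have h1 := hX₄ X hX4 d k1 k2 k3 k4 k5
      have h2 := (qf_add hV0 hg₀ hη hw hwp (hf1 X hX2 d).continuousOn
        (hf2 X hX2 d).continuousOn).2
      have h3 : (fun v => y v - yS c' ε σ ρ h X d (1 / 2 - v) +
          (yS c' ε σ ρ h X d (1 / 2 - v) -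
          yS c' ε σ ρ h X d (Real.log (κ * d) / (2 * Real.log X) - v))) =
          fun v => y v - yS c' ε σ ρ h X d (Real.log (κ * d) / (2 * Real.log X) - v) := by
        funext v
        ring
      rw [h3] at h2
      linarith)
  obtain ⟨X₀, hX₀⟩ := key
  refine ⟨X₀, fun X hX => ?_⟩
  have h1 := hX₀ X hX
  refine ⟨?_, h1.2⟩
  refine le_trans (le_of_eq ?_) h1.1
  field_simp

end Pool.Agent.MP0016c7.Rz
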