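import Mathlib
import Pool.Agent.Lib.MP_0016c7_nt.Rz.Defs
import Pool.Agent.Lib.MP_0016c7_nt.Rz.DefsC
import Pool.Agent.Lib.MP_0016c7_nt.Rz.DefsE
import Pool.Agent.Lib.MP_0016c7_nt.Rz.DefsF
import Pool.Agent.Lib.MP_0016c7_nt.Rz2.DefsG
import Pool.Agent.Lib.MP_0016c7_nt.Rz.Poisson1
import Pool.Agent.Lib.MP_0016c7_nt.Rz.Poisson2
import Pool.Agent.Lib.MP_0016c7_nt.Rz.FtS

set_option autoImplicit false

/-!
The residue class 3 modulo 4 from the classes 3 and 7 modulo 8.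
-/

open Finset MeasureTheory Filter Topology
open scoped Real ContDiff

namespace Pool.Agent.MP0016c7.Rz

private theorem p4x_gg4 (k : ℤ) (N : ℕ) (hN : Odd N) : gg (4 * k) N = gg k N := by
  have hN0 : N ≠ 0 := hN.pos.ne'
  have hNAB := sq1_mul_sq2 N hN0
  unfold gg
  generalize sq1 N = A at *
  generalize sq2 N = B at *
  have hA : Odd A := by
    rw [← hNAB] at hN
    exact (Nat.odd_mul.1 hN).1
  have hB : Odd B := by
    rw [← hNAB] at hN
    exact (Nat.odd_pow_iff (by norm_num)).1 (Nat.odd_mul.1 hN).2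
  have hcop : IsCoprime ((B : ℤ) ^ 2) 4 := by
    have h1 : IsCoprime (B : ℤ) (2 : ℤ) := by
      have : Nat.Coprime B 2 := (Nat.coprime_two_right).2 hB
      exact_mod_cast Nat.isCoprime_iff_coprime.2 this
    have h2 := (h1.pow_left (m := 2)).pow_right (n := 2)
    norm_num at h2
    exact h2
  have hd : ∀ e : ℕ, (B : ℤ) ^ 2 ∣ 4 * k * (e : ℤ) ↔ (B : ℤ) ^ 2 ∣ k * (e : ℤ) := by
    intro e
    rw [mul_assoc]
    exact ⟨fun h => hcop.dvd_of_dvd_mul_left h, fun h => h.mul_left 4⟩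
  have hjr4 : ∀ x : ℤ, jr (4 * x) A = jr x A := by
    intro x
    unfold jr
    rw [if_pos hA, if_pos hA, jacobiSym.mul_left]
    have h1 : jacobiSym 4 A = 1 := by
      have h2 : (4 : ℤ) = 2 ^ 2 := by norm_num
      rw [h2, jacobiSym.pow_left]
      apply jacobiSym.sq_one
      have h3 : Nat.gcd 2 A = 1 := (Nat.coprime_two_left (n := A)).2 hA
      simpa [Int.gcd] using h3
    rw [h1, one_mul]
  congr 1
  refine Finset.sum_congr ?_ ?_
  · ext e
    rw [mem_filter, mem_filter, hd]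
  · intro e he
    rw [mem_filter] at he
    congr 1
    obtain ⟨t, ht⟩ := he.2
    by_cases hB0 : (B : ℤ) ^ 2 = 0
    · simp [hB0, hjr4]
    have h1 : 4 * k * (e : ℤ) ^ 2 = (B : ℤ) ^ 2 * (4 * (t * e)) := by
      calc 4 * k * (e : ℤ) ^ 2 = 4 * (k * e) * e := by ring
        _ = _ := by rw [ht]; ring
    have h2 : k * (e : ℤ) ^ 2 = (B : ℤ) ^ 2 * (t * e) := by
      calc k * (e : ℤ) ^ 2 = (k * e) * e := by ring
        _ = _ := by rw [ht]; ring
    rw [h1, h2, Int.mul_ediv_cancel_left _ hB0, Int.mul_ediv_cancel_left _ hB0, hjr4]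

private theorem p4x_sum {F : ℝ → ℝ} {a b : ℝ} (ha : 0 < a) (hF : Bump F a b) (σ : ℤ)
    (hσ : σ = 1 ∨ σ = -1) (N : ℕ) (hN : Odd N) (Y : ℝ) (hY : 0 < Y) (m : ℝ) (hm : 0 < m)
    (c : ℤ → ℝ) (C : ℝ) (hc : ∀ k, |c k| ≤ C) :
    Summable (fun k : ℤ => gg k N * (c k * Ft F σ ((k : ℝ) * Y / (m * N)))) := by
  obtain ⟨h1, _⟩ := poisson_odd ha hF σ hσ N hN (2 * Y / m) (by positivity)
  refine Summable.of_norm_bounded (h1.norm.mul_left C) fun k => ?_
  have h2 : (k : ℝ) * (2 * Y / m) / (2 * N) = (k : ℝ) * Y / (m * N) := by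
    have hN0 : (0 : ℝ) < N := by exact_mod_cast hN.pos
    field_simp
  rw [h2]
  calc ‖gg k N * (c k * Ft F σ ((k : ℝ) * Y / (m * N)))‖
      = |c k| * ‖gg k N * Ft F σ ((k : ℝ) * Y / (m * N))‖ := by
        rw [norm_mul, norm_mul, norm_mul, Real.norm_eq_abs (c k)]
        ring
    _ ≤ C * ‖gg k N * Ft F σ ((k : ℝ) * Y / (m * N))‖ :=
        mul_le_mul_of_nonneg_right (hc k) (norm_nonneg _)

private theorem p4x_tsum_dvd (g : ℤ → ℝ) :
    ∑' k : ℤ, (if (4 : ℤ) ∣ k then g k else 0) = ∑' m : ℤ, g (4 * m) := by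
  have hinj : Function.Injective (fun m : ℤ => 4 * m) := fun m n h => by
    have h' : 4 * m = 4 * n := h
    omega
  rw [← hinj.tsum_eq (f := fun k : ℤ => if (4 : ℤ) ∣ k then g k else 0)]
  · refine tsum_congr fun m => ?_
    rw [if_pos (Dvd.intro m rfl)]
  · intro k hk
    rw [Function.mem_support] at hk
    by_cases h : (4 : ℤ) ∣ k
    · obtain ⟨m, rfl⟩ := h
      exact ⟨m, rfl⟩
    · rw [if_neg h] at hk
      exact absurd rfl hk

/-- The class `3` modulo `4`, from the classes `3` and `7` modulo `8`. -/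
theorem poisson4c_of8 {F : ℝ → ℝ} {a b : ℝ} (ha : 0 < a) (hF : Bump F a b) (σ : ℤ)
    (hσ : σ = 1 ∨ σ = -1) (N : ℕ) (hN : Odd N) (Y : ℝ) (hY : 0 < Y)
    (h8 : ∀ c : ℤ, (c = 3 ∨ c = 7) →
      ∑' d : ℕ, (if (σ * d) % 8 = c then F (d / Y) * jr (σ * d) N else 0) =
      Y / 8 * ∑' k : ℤ, gg k N * (√2 * t8 (c * k) * Ft F σ ((k : ℝ) * Y / (8 * N)) +
        t4 c k * Ft F σ ((k : ℝ) * Y / (4 * N)) + Ft F σ ((k : ℝ) * Y / N))) :
    ∑' d : ℕ, (if (σ * d) % 4 = 3 then F (d / Y) * jr (σ * d) N else 0) =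
      Y / 4 * ∑' k : ℤ, (if k % 4 = 0 then 1 else t4 3 k) * gg k N *
        Ft F σ ((k : ℝ) * Y / (4 * N)) := by
  have hN0 : (0 : ℝ) < N := by exact_mod_cast hN.pos
  -- the left-hand side
  have hfin : ∀ c : ℤ, Summable (fun d : ℕ =>
      (if (σ * d) % 8 = c then F (d / Y) * jr (σ * d) N else 0)) := by
    intro c
    apply summable_of_hasFiniteSupport
    refine (Set.finite_Iic ⌊b * Y⌋₊).subset fun d hd => ?_
    rw [Function.mem_support] at hd
    have h1 : F (d / Y) ≠ 0 := fun h => hd (by rw [h, zero_mul]; split_ifs <;> rfl)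
    have h2 := (hF.supp _ h1).2
    rw [div_lt_iff₀ hY] at h2
    exact Nat.le_floor h2.le
  have hL : ∑' d : ℕ, (if (σ * d) % 4 = 3 then F (d / Y) * jr (σ * d) N else 0) =
      ∑' d : ℕ, (if (σ * d) % 8 = 3 then F (d / Y) * jr (σ * d) N else 0) +
      ∑' d : ℕ, (if (σ * d) % 8 = 7 then F (d / Y) * jr (σ * d) N else 0) := by
    rw [← (hfin 3).tsum_add (hfin 7)]
    refine tsum_congr fun d => ?_
    by_cases h3 : (σ * (d : ℤ)) % 8 = 3
    · rw [if_pos h3, if_pos (by omega), if_neg (by omega), add_zero]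
    · by_cases h7 : (σ * (d : ℤ)) % 8 = 7
      · rw [if_neg h3, if_pos h7, if_pos (by omega), zero_add]
      · rw [if_neg h3, if_neg h7, if_neg (by omega), add_zero]
  rw [hL, h8 3 (Or.inl rfl), h8 7 (Or.inr rfl)]
  -- bounds for the coefficients
  have ht8 : ∀ m : ℤ, |√2 * t8 m| ≤ √2 := by
    intro m
    rw [abs_mul, abs_of_nonneg (Real.sqrt_nonneg 2)]
    have : |t8 m| ≤ 1 := by
      unfold t8
      split_ifs <;> norm_num
    calc √2 * |t8 m| ≤ √2 * 1 := mul_le_mul_of_nonneg_left this (Real.sqrt_nonneg 2)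
      _ = √2 := mul_one _
  have ht4 : ∀ m k : ℤ, |t4 m k| ≤ 1 := by
    intro m k
    unfold t4
    split_ifs <;> norm_num
  have s8 : ∀ c : ℤ, Summable (fun k : ℤ => gg k N * ((√2 * t8 (c * k)) *
      Ft F σ ((k : ℝ) * Y / (8 * N)))) := fun c =>
    p4x_sum ha hF σ hσ N hN Y hY 8 (by norm_num) _ _ (fun k => ht8 (c * k))
  have s4 : ∀ c : ℤ, Summable (fun k : ℤ => gg k N * (t4 c k *
      Ft F σ ((k : ℝ) * Y / (4 * N)))) := fun c =>
    p4x_sum ha hF σ hσ N hN Y hY 4 (by norm_num) _ _ (fun k => ht4 c k)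
  have s1 : Summable (fun k : ℤ => gg k N * (1 * Ft F σ ((k : ℝ) * Y / N))) := by
    have := p4x_sum ha hF σ hσ N hN Y hY 1 (by norm_num) (fun _ => 1) 1 (fun k => by norm_num)
    simpa only [one_mul] using this
  have hsplit : ∀ c : ℤ, ∑' k : ℤ, gg k N * (√2 * t8 (c * k) * Ft F σ ((k : ℝ) * Y / (8 * N)) +
        t4 c k * Ft F σ ((k : ℝ) * Y / (4 * N)) + Ft F σ ((k : ℝ) * Y / N)) =
      ∑' k : ℤ, gg k N * ((√2 * t8 (c * k)) * Ft F σ ((k : ℝ) * Y / (8 * N))) +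
      ∑' k : ℤ, gg k N * (t4 c k * Ft F σ ((k : ℝ) * Y / (4 * N))) +
      ∑' k : ℤ, gg k N * (1 * Ft F σ ((k : ℝ) * Y / N)) := by
    intro c
    rw [← (s8 c).tsum_add (s4 c), ← ((s8 c).add (s4 c)).tsum_add s1]
    refine tsum_congr fun k => ?_
    ring
  rw [hsplit 3, hsplit 7]
  -- cancellation of the first sums
  have hc8 : ∑' k : ℤ, gg k N * ((√2 * t8 (7 * k)) * Ft F σ ((k : ℝ) * Y / (8 * N))) =
      - ∑' k : ℤ, gg k N * ((√2 * t8 (3 * k)) * Ft F σ ((k : ℝ) * Y / (8 * N))) := by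
    rw [← tsum_neg]
    refine tsum_congr fun k => ?_
    have : t8 (7 * k) = - t8 (3 * k) := by
      unfold t8
      have h0 : k % 8 = 0 ∨ k % 8 = 1 ∨ k % 8 = 2 ∨ k % 8 = 3 ∨ k % 8 = 4 ∨ k % 8 = 5 ∨ k % 8 = 6 ∨
        k % 8 = 7 := by omega
      rcases h0 with h | h | h | h | h | h | h | h
      all_goals
        first
        | (rw [if_neg (by omega), if_neg (by omega), if_neg (by omega), if_neg (by omega), neg_zero])
        | (rw [if_neg (by omega), if_pos (by omega), if_pos (by omega)])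
        | (rw [if_pos (by omega), if_neg (by omega), if_pos (by omega), neg_neg])
    rw [this]
    ring
  have hc4 : ∑' k : ℤ, gg k N * (t4 7 k * Ft F σ ((k : ℝ) * Y / (4 * N))) =
      ∑' k : ℤ, gg k N * (t4 3 k * Ft F σ ((k : ℝ) * Y / (4 * N))) := by
    refine tsum_congr fun k => ?_
    have : t4 7 k = t4 3 k := by
      unfold t4
      have h1 : (7 * k) % 4 = (3 * k) % 4 := by omega
      rw [h1]
    rw [this]
  -- the last sum
  have hc1 : ∑' k : ℤ, gg k N * (1 * Ft F σ ((k : ℝ) * Y / N)) =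
      ∑' k : ℤ, (if (4 : ℤ) ∣ k then gg k N * Ft F σ ((k : ℝ) * Y / (4 * N)) else 0) := by
    rw [p4x_tsum_dvd]
    refine tsum_congr fun k => ?_
    rw [p4x_gg4 k N hN, one_mul]
    congr 2
    push_cast
    field_simp
  have s4' : Summable (fun k : ℤ => (if (4 : ℤ) ∣ k then
      gg k N * Ft F σ ((k : ℝ) * Y / (4 * N)) else 0)) := by
    have h0 := p4x_sum ha hF σ hσ N hN Y hY 4 (by norm_num) (fun _ => 1) 1 (fun k => by norm_num)
    refine Summable.of_norm_bounded h0.norm fun k => ?_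
    split_ifs
    · rw [one_mul]
    · rw [norm_zero]
      exact norm_nonneg _
  have hR : ∑' k : ℤ, (if k % 4 = 0 then 1 else t4 3 k) * gg k N *
        Ft F σ ((k : ℝ) * Y / (4 * N)) =
      ∑' k : ℤ, gg k N * (t4 3 k * Ft F σ ((k : ℝ) * Y / (4 * N))) +
      ∑' k : ℤ, (if (4 : ℤ) ∣ k then gg k N * Ft F σ ((k : ℝ) * Y / (4 * N)) else 0) := by
    rw [← (s4 3).tsum_add s4']
    refine tsum_congr fun k => ?_
    by_cases h : (4 : ℤ) ∣ k
    · have h1 : k % 4 = 0 := Int.emod_eq_zero_of_dvd h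
      have h2 : t4 3 k = 0 := by
        unfold t4
        rw [if_neg (by omega), if_neg (by omega), if_neg (by omega)]
      rw [if_pos h1, if_pos h, h2]
      ring
    · have h1 : ¬ k % 4 = 0 := fun h0 => h (Int.dvd_of_emod_eq_zero h0)
      rw [if_neg h1, if_neg h]
      ring
  rw [hR, hc8, hc4, hc1]
  ring

end Pool.Agent.MP0016c7.Rz
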