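import Mathlib
import Pool.Agent.Lib.MP_0016c7_nt.Rz.Defs
import Pool.Agent.Lib.MP_0016c7_nt.Rz.DefsC
import Pool.Agent.Lib.MP_0016c7_nt.Rz.DefsE
import Pool.Agent.Lib.MP_0016c7_nt.Rz.DefsF
import Pool.Agent.Lib.MP_0016c7_nt.Rz2.DefsG
import Pool.Agent.Lib.MP_0016c7_nt.Rz2.MTlg
import Pool.Agent.Lib.MP_0016c7_nt.Rz2.Sm3g
import Pool.Agent.Lib.MP_0016c7_nt.Rz.VLim

set_option autoImplicit false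

/-!
The limit of the quadruple sums of the main term.
-/

open Finset MeasureTheory Filter Topology
open scoped Real ContDiff

namespace Pool.Agent.MP0016c7.Rz

private theorem bump_monoQ {F : ℝ → ℝ} {a b a' b' : ℝ} (hF : Bump F a b) (h1 : a' ≤ a)
    (h2 : b ≤ b') : Bump F a' b' :=
  ⟨hF.smooth, fun t ht => ⟨lt_of_le_of_lt h1 (hF.supp t ht).1, lt_of_lt_of_le (hF.supp t ht).2 h2⟩⟩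

theorem quad_CCg {β : ℂ → ℂ} {B : ℝ → ℝ} (hβ : BC β B) (I₀ : ℝ) {δ θ : ℝ} (hδ : 0 < δ)
    (hδ4 : δ ≤ 1 / 4) (hθ : 0 < θ) (hθ1 : θ + 3 * δ < 1 / 2)
    (r : ℕ) (hr : Odd r) (c : ℝ) (hc : c = 0 ∨ c = 1)
    {ρ₁ ρ₂ h : ℝ → ℝ} (hρ₁ : Bump ρ₁ (-(δ / 2)) (δ / 2)) (hρ₂ : Bump ρ₂ (-(δ / 2)) (δ / 2))
    (hh : Bump h 0 θ) (C₀ : ℝ) (ε : ℝ) (hε : 0 < ε) :
    ∃ X₀ : ℝ, ∀ X : ℝ, X₀ ≤ X → ∀ M : ℕ → ℝ, MRep β I₀ (X / r ^ 2) M →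
      (∀ N : ℕ, Odd N → |M N| ≤ C₀ * N) →
      ∀ Y₁ ∈ Set.Icc (-1 : ℝ) (1 / 2 + δ), ∀ Y₂ ∈ Set.Icc (-1 : ℝ) (1 / 2 + δ),
      |quad (Wt c ρ₁ h X θ δ Y₁) (Wt c ρ₂ h X θ δ Y₂) r ⌊X ^ 2⌋₊ M -
        I₀ * CC ρ₁ ρ₂ h Y₁ Y₂| ≤ ε := by
  obtain ⟨X₃, hX₃⟩ := quad_MTg hδ hθ hθ1 r hr c hc hρ₁ hρ₂ hh C₀ (ε / 2) (by linarith)
  obtain ⟨X₅, hX₅⟩ := MT_limg c hc hβ I₀ r hr hρ₁ hρ₂ hh (ε / 2) (by linarith)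
  refine ⟨max X₃ X₅, ?_⟩
  intro X hX M hM hMC Y₁ hY₁ Y₂ hY₂
  have s3 := hX₃ X ((le_max_left _ _).trans hX) M hMC Y₁ hY₁ Y₂ hY₂
  have hI1 : Y₁ ∈ Set.Icc (-1 : ℝ) 1 := ⟨hY₁.1, by linarith [hY₁.2]⟩
  have hI2 : Y₂ ∈ Set.Icc (-1 : ℝ) 1 := ⟨hY₂.1, by linarith [hY₂.2]⟩
  have s5 := hX₅ X ((le_max_right _ _).trans hX) M hM Y₁ hI1 Y₂ hI2
  have s6 := limit_eq (ρ₁ := ρ₁) (ρ₂ := ρ₂) (h := h) (θ := θ) (by linarith)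
    (bump_monoQ hρ₁ (by linarith) (by linarith)) (bump_monoQ hρ₂ (by linarith) (by linarith)) hh
    Y₁ Y₂ (by linarith [hY₁.2]) (by linarith [hY₂.2])
  have s7 : |MTg c ρ₁ ρ₂ h M X r Y₁ Y₂ - I₀ * CC ρ₁ ρ₂ h Y₁ Y₂| ≤ ε / 2 := by
    refine le_trans (le_of_eq ?_) s5
    rw [div_eq_mul_one_div, mul_assoc, s6, ← Complex.ofReal_mul, ← Complex.ofReal_sub,
      Complex.norm_real, Real.norm_eq_abs]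
  rw [abs_le] at s3 s7 ⊢
  constructor <;> linarith [s3.1, s3.2, s7.1, s7.2]

end Pool.Agent.MP0016c7.Rz
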